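import Pool.Agent.P.MP_8b7eba_nt.CG.If

/-! Gaussian integers and the kernel of reduction on `y² = x³ - x`. -/

namespace Pool.Agent.P.MP_8b7eba_nt.QT.CG

open R2 SM
open MP_9c97e9_nt (Pt pm Is)
open scoped NNReal

namespace A2

/-! ### Gaussian integers -/

theorem pz_sq : pz ^ 2 = 2 * iz := by decide

theorem iz_sq : iz ^ 2 = -1 := by decide

theorem pz_ne : pz ≠ 0 := by decide

theorem unit_iz : IsUnit iz := IsUnit.of_mul_eq_one (-iz) (by decide)

theorem prim_iff {b : ZI} : Prim b ↔ 4 ∣ b.re - 1 + b.im ∧ 4 ∣ b.re - 1 - b.im := by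
  have e : pz ^ 3 = ⟨-2, 2⟩ := by decide
  rw [Prim, e]
  constructor
  · rintro ⟨c, hc⟩
    have h1 := congrArg Zsqrtd.re hc
    have h2 := congrArg Zsqrtd.im hc
    simp at h1 h2
    omega
  · rintro ⟨⟨s, hs⟩, t, ht⟩
    refine ⟨⟨-t, -s⟩, Zsqrtd.ext ?_ ?_⟩ <;> simp <;> omega

theorem pz_dvd {b : ZI} : pz ∣ b ↔ 2 ∣ b.re + b.im := by
  constructor
  · rintro ⟨c, rfl⟩
    simp [pz]
    omega
  · rintro ⟨s, hs⟩
    refine ⟨⟨s, b.im - s⟩, Zsqrtd.ext ?_ ?_⟩ <;> simp [pz]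
    omega

theorem not_unit_pz : ¬ IsUnit pz := fun h => by
  have := pz_dvd.1 (h.dvd (a := 1))
  simp at this

theorem prim_one : Prim 1 := by simp [Prim]

theorem prim_mul {b c : ZI} (hb : Prim b) (hc : Prim c) : Prim (b * c) := by
  have := dvd_add (hb.mul_right c) hc
  rwa [show (b - 1) * c + (c - 1) = b * c - 1 by ring] at this

theorem prim_cancel {b c : ZI} (hc : Prim c) (h : Prim (b * c)) : Prim b := by
  have := dvd_sub h (hc.mul_left b)
  rwa [show b * c - 1 - b * (c - 1) = b - 1 by ring] at this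

theorem prim_cop {b : ZI} (hb : Prim b) : IsCoprime b (pz ^ 3) := by
  obtain ⟨c, hc⟩ := hb
  exact ⟨1, -c, by linear_combination hc⟩

theorem prim_ne {b : ZI} (hb : Prim b) : b ≠ 0 := by
  rintro rfl
  have := prim_iff.1 hb
  simp at this

theorem prim_cop2 {b : ZI} (hb : Prim b) : IsCoprime b 2 := by
  have h : IsCoprime b (pz ^ 2) := (prim_cop hb).of_isCoprime_of_dvd_right (pow_dvd_pow _ (by norm_num))
  rw [pz_sq] at h
  exact h.of_mul_right_left

theorem prim_norm {b : ZI} (hb : Prim b) : ∃ k : ℕ, b.norm = 4 * k + 1 := by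
  obtain ⟨⟨s, hs⟩, t, ht⟩ := prim_iff.1 hb
  have h1 : b.re = 1 + 2 * (s + t) := by omega
  have h2 : b.im = 2 * (s - t) := by omega
  have h3 : 0 ≤ (s + t) * (s + t + 1) + (s - t) ^ 2 := by nlinarith [sq_nonneg (2 * (s + t) + 1), sq_nonneg (s - t)]
  refine ⟨((s + t) * (s + t + 1) + (s - t) ^ 2).toNat, ?_⟩
  rw [Int.toNat_of_nonneg h3, Zsqrtd.norm_def, h1, h2]
  ring

theorem prim_unit {u : ZI} (hu : IsUnit u) (h : Prim u) : u = 1 := by
  have h1 : u.norm = 1 := (Zsqrtd.norm_eq_one_iff' (by norm_num) u).2 hu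
  obtain ⟨h2, h3⟩ := prim_iff.1 h
  rw [Zsqrtd.norm_def] at h1
  have h4 : u.re ≤ 1 := by nlinarith [sq_nonneg u.im]
  have h5 : -1 ≤ u.re := by nlinarith [sq_nonneg u.im]
  have h6 : u.im ≤ 1 := by nlinarith [sq_nonneg u.re]
  have h7 : -1 ≤ u.im := by nlinarith [sq_nonneg u.re]
  refine Zsqrtd.ext ?_ ?_ <;> simp <;> omega

theorem exists_prim {b : ZI} (h : ¬ pz ∣ b) : ∃ u, IsUnit u ∧ Prim (u * b) := by
  rw [pz_dvd] at h
  have h1 : (4 ∣ b.re - 1 + b.im ∧ 4 ∣ b.re - 1 - b.im) ∨ (4 ∣ -b.re - 1 - b.im ∧ 4 ∣ -b.re - 1 + b.im) ∨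
      (4 ∣ -b.im - 1 + b.re ∧ 4 ∣ -b.im - 1 - b.re) ∨ (4 ∣ b.im - 1 - b.re ∧ 4 ∣ b.im - 1 + b.re) := by
    omega
  rcases h1 with h1 | h1 | h1 | h1
  · exact ⟨1, isUnit_one, prim_iff.2 (by simpa using h1)⟩
  · exact ⟨-1, isUnit_one.neg, prim_iff.2 (by simpa [sub_eq_add_neg] using h1)⟩
  · exact ⟨iz, unit_iz, prim_iff.2 (by simpa [iz] using h1)⟩
  · exact ⟨-iz, unit_iz.neg, prim_iff.2 (by simpa [iz, sub_eq_add_neg] using h1)⟩

theorem cop_of_not_dvd {b : ZI} (h : ¬ pz ∣ b) : IsCoprime b (pz ^ 3) :=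
  have ⟨_, _, h1⟩ := exists_prim h
  (prim_cop h1).of_mul_left_right

theorem prim_int {m : ℤ} (h : m % 4 = 1) : Prim m := prim_iff.2 (by simp; omega)

theorem dvd_two {l : ZI} (hl : Prime l) (h : pz ∣ l) : l ∣ 2 := by
  obtain ⟨c, rfl⟩ := h
  have hc := (hl.irreducible.isUnit_or_isUnit rfl).resolve_left not_unit_pz
  rw [hc.mul_right_dvd]
  exact pz_dvd.2 (by decide)

/-! ### Values -/

theorem iK_sq : iK ^ 2 = -1 := by rw [iK, neg_sq, I_sq]

theorem eK_def (b : ZI) : eK b = b.re + b.im * iK := rfl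

theorem eK_iz : eK iz = iK := by simp [eK_def, iz]

theorem eK_star (b : ZI) : eK b * eK (star b) = (b.norm : ℤ) := by
  rw [← map_mul, ← Zsqrtd.norm_eq_mul_conj, map_intCast]

theorem root4 {z : Om} (h : z ^ 4 = 1) {g : GQ} (hg : g iK = iK) : g z = z := by
  have h1 : (z - 1) * (z + 1) * (z - iK) * (z + iK) = 0 := by
    linear_combination h + (1 - z ^ 2) * iK_sq
  simp only [mul_eq_zero, sub_eq_zero, add_eq_zero_iff_eq_neg] at h1
  rcases h1 with ((rfl | rfl) | rfl) | rfl <;> simp [hg]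

theorem gk_iK {g : GQ} (hg : g ∈ GK) : g iK = iK := by
  rw [iK, map_neg]
  exact congrArg Neg.neg hg

variable {w : Pl}

theorem v_iK (w : Pl) : w.v iK = 1 := by
  have h := congrArg w.v iK_sq
  rw [map_pow, Valuation.map_neg, map_one] at h
  exact (pow_eq_one_iff_of_nonneg zero_le two_ne_zero).1 h

theorem v_eK (w : Pl) (b : ZI) : w.v (eK b) ≤ 1 := by
  rw [eK_def]
  refine w.v.map_add_le (w.v_int_le _) ?_
  rw [map_mul, v_iK, mul_one]
  exact w.v_int_le _

theorem v_dvd {b c : ZI} (h : b ∣ c) : w.v (eK c) ≤ w.v (eK b) := by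
  obtain ⟨d, rfl⟩ := h
  rw [map_mul, map_mul]
  exact mul_le_of_le_one_right zero_le (v_eK w d)

theorem v_cop {b c : ZI} (h : IsCoprime b c) (hb : w.v (eK b) < 1) : w.v (eK c) = 1 := by
  refine le_antisymm (v_eK w c) (not_lt.1 fun hc => ?_)
  obtain ⟨r, s, e⟩ := h
  have := w.v.map_add_lt ((v_dvd (dvd_mul_left b r)).trans_lt hb)
    ((v_dvd (dvd_mul_left c s)).trans_lt hc)
  rw [← map_add, e, map_one, map_one] at this
  exact lt_irrefl _ this

theorem v_pz (hp : w.p ≠ 2) : w.v (eK pz) = 1 :=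
  le_antisymm (v_eK w _) (by
    have := v_dvd (w := w) (pz_dvd.2 (by decide) : pz ∣ 2)
    rwa [map_ofNat, Pl.v_two hp] at this)

theorem v_pz3 (hp : w.p ≠ 2) : w.v (eK (pz ^ 3)) = 1 := by rw [map_pow, map_pow, v_pz hp, one_pow]

theorem odd_of_prim {b : ZI} (h : Prim b) (hb : w.v (eK b) < 1) : w.p ≠ 2 := fun e => by
  have := v_cop (prim_cop2 h) hb
  rw [map_ofNat, Pl.v_two' e] at this
  norm_num at this

theorem prod_cong {ι : Type} {S : Finset ι} {f : ι → Om} {x : Om} (hx : w.v x ≤ 1)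
    (h : ∀ i ∈ S, w.v (f i - x) < 1) : w.v (∏ i ∈ S, f i - x ^ S.card) < 1 := by
  induction S using Finset.cons_induction with
  | empty => simp
  | cons a S ha ih =>
    have h1 := h a (Finset.mem_cons_self ..)
    have h2 : w.v (f a) ≤ 1 := by
      rw [← sub_add_cancel (f a) x]; exact w.v.map_add_le h1.le hx
    rw [Finset.prod_cons, Finset.card_cons, show f a * ∏ i ∈ S, f i - x ^ (S.card + 1) =
      (∏ i ∈ S, f i - x ^ S.card) * f a + (f a - x) * x ^ S.card by ring]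
    exact w.v.map_add_lt (CA.small (ih fun i hi => h i (Finset.mem_cons_of_mem hi)) h2)
      (CA.small h1 (by rw [map_pow]; exact pow_le_one₀ zero_le hx))

/-! ### The curve -/

theorem sp1 : CA.Sp 1 (rt 1) := CB.sp one_ne_zero

variable {P Q R : EE} {x η x₁ η₁ x₂ η₂ x₃ η₃ : Om}

theorem eqn (h : Is P x η) : η ^ 2 = 4 * (x ^ 3 - x) := by simpa using CA.eqn sp1 h

theorem exists_is (h : η ^ 2 = 4 * (x ^ 3 - x)) : ∃ P : EE, Is P x η :=
  sp1.exists_is (by
    have := sp1.sq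
    rw [Int.cast_one] at this
    linear_combination h + 4 * x * this)

theorem is_xc (h : P ≠ 0) : Is P (xc P) (yc P) := by
  rcases P with _ | ⟨x, y, h1⟩
  · exact absurd rfl h
  · exact ⟨y, h1, rfl, by simp [W, xc, yc]⟩

theorem xc_eq (h : Is P x η) : xc P = x := ((is_xc h.ne_zero).inj h).1

theorem yc_eq (h : Is P x η) : yc P = η := ((is_xc h.ne_zero).inj h).2

theorem iz_smul (P : EE) : iz • P = cmi P := by simp [smul_def, iz]

theorem is_ga (g : GQ) (h : Is P x η) : Is (ga g P) (g x) (g η) := h.map (K := Om) g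

theorem ga_inv (g : GQ) (P : EE) : ga g (ga g⁻¹ P) = P := by rw [← ga_mul, mul_inv_cancel, ga_one]

theorem inv_ga (g : GQ) (P : EE) : ga g⁻¹ (ga g P) = P := by rw [← ga_mul, inv_mul_cancel, ga_one]

theorem rel3 (h1 : Is P x₁ η₁) (h2 : Is Q x₂ η₂) (h3 : Is (P + Q) x₃ η₃) :
    (x₁ * x₂ + x₃ * (x₁ + x₂) + 1) ^ 2 = 4 * (x₁ * x₂ * x₃) * (x₁ + x₂ + x₃) := by
  obtain ⟨m, x₄, a, b, c, d⟩ := CA.add_line sp1 h1 h2 h3.ne_zero
  obtain rfl := (h3.inj a).1
  rw [Int.cast_one] at d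
  have e2 : 2 * m * (η₁ - m * x₁) = -4 * (x₁ * x₂ + x₃ * (x₁ + x₂) + 1) := by
    linear_combination d - m * c + (x₁ + x₂) * b
  have e3 : (η₁ - m * x₁) ^ 2 = 4 * (x₁ * x₂ * x₃) := by
    linear_combination eqn h1 - x₁ * e2 + x₁ ^ 2 * b
  linear_combination (1 / 16) * (-(2 * m * (η₁ - m * x₁)) + 4 * (x₁ * x₂ + x₃ * (x₁ + x₂) + 1)) * e2 +
    (1 / 4) * m ^ 2 * e3 - (x₁ * x₂ * x₃) * b

theorem dbl (h1 : Is P x η) (h3 : Is (P + P) x₃ η₃) : x₃ * η ^ 2 = (x ^ 2 + 1) ^ 2 := by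
  linear_combination x₃ * eqn h1 - rel3 h1 h1 h3

theorem no_two {a b c : Om} (h : (a * b + c * (a + b) + 1) ^ 2 = 4 * (a * b * c) * (a + b + c))
    (h2 : 1 < w.v b) (h1 : w.v b ≤ w.v a) (h3 : w.v c ≤ 1) : False := by
  have h4 : 1 ≤ w.v a := h2.le.trans h1
  have h0 : 0 < w.v a := zero_lt_one.trans_le h4
  have h5 : w.v (a + b) ≤ w.v a := w.v.map_add_le le_rfl h1
  have h6 : w.v (a * b + c * (a + b) + 1) = w.v a * w.v b := by
    rw [add_assoc, Valuation.map_add_eq_of_lt_left, map_mul]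
    rw [map_mul]
    refine lt_of_le_of_lt (w.v.map_add_le ?_ ((map_one _).trans_le h4)) (lt_mul_of_one_lt_right h0 h2)
    rw [map_mul]
    exact (mul_le_of_le_one_left zero_le h3).trans h5
  have h7 := congrArg w.v h
  rw [map_pow, h6, map_mul, map_mul, map_mul, map_mul] at h7
  have h8 : (w.v a * w.v b) ^ 2 ≤ 1 * (w.v a * w.v b * 1) * w.v a := by
    rw [h7]
    exact mul_le_mul' (mul_le_mul' (CA.v_nat _ 4) (mul_le_mul' le_rfl h3))
      (w.v.map_add_le h5 (h3.trans h4))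
  rw [one_mul, mul_one, sq] at h8
  exact absurd (le_of_mul_le_mul_left h8 (mul_pos h0 (zero_lt_one.trans h2)))
    (lt_mul_of_one_lt_right h0 h2).not_ge

theorem close {a b c : Om} (h : (a * b + c * (a + b) + 1) ^ 2 = 4 * (a * b * c) * (a + b + c))
    (h1 : 1 < w.v a) (h2 : w.v b ≤ 1) (h3 : w.v c ≤ 1) : w.v (c - b) < 1 := by
  by_contra h4
  have h0 : 0 < w.v a := zero_lt_one.trans h1
  have hb : b ∈ w.v.integer := h2
  have hc : c ∈ w.v.integer := h3
  have h5 : w.v ((c - b) ^ 2 * a ^ 2) ≤ w.v a := by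
    rw [show (c - b) ^ 2 * a ^ 2 = 2 * (b * c - 1) * (b + c) * a - (b * c + 1) ^ 2 by
      linear_combination h]
    refine w.v.map_sub_le ?_ (le_trans ?_ h1.le)
    · rw [map_mul]
      refine mul_le_of_le_one_left zero_le ?_
      change _ ∈ w.v.integer
      apply_rules [sub_mem, add_mem, mul_mem, one_mem, ofNat_mem]
    · change _ ∈ w.v.integer
      apply_rules [add_mem, mul_mem, pow_mem, one_mem]
  rw [map_mul, map_pow, map_pow] at h5
  have h6 := (le_mul_of_one_le_left zero_le (one_le_pow₀ (not_lt.1 h4))).trans h5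
  rw [sq] at h6
  exact (lt_mul_of_one_lt_right h0 h1).not_ge h6

/-- the kernel of reduction as a group -/
noncomputable def E0 (w : Pl) : AddSubgroup EE where
  carrier := {P | CA.E1 w.v P}
  zero_mem' := fun _ _ h => absurd rfl h.ne_zero
  neg_mem' := fun h x η h' => h x (-η) (by simpa using h'.neg)
  add_mem' := fun {P Q} hP hQ x₃ η₃ h3 => by
    rcases MP_9c97e9_nt.zero_or_is P with rfl | ⟨x₁, η₁, h1⟩
    · exact hQ _ _ (by simpa using h3)
    rcases MP_9c97e9_nt.zero_or_is Q with rfl | ⟨x₂, η₂, h2⟩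
    · exact hP _ _ (by simpa using h3)
    by_contra h4
    have h5 := rel3 h1 h2 h3
    rcases le_total (w.v x₂) (w.v x₁) with h | h
    · exact no_two h5 (hQ _ _ h2) h (not_lt.1 h4)
    · exact no_two (by linear_combination h5) (hP _ _ h1) h (not_lt.1 h4)

/-- the kernel of reduction -/
noncomputable def E1 (w : Pl) : Submodule ZI EE where
  toAddSubmonoid := (E0 w).toAddSubmonoid
  smul_mem' := fun b P (hP : P ∈ E0 w) => show b • P ∈ E0 w by
    refine add_mem (zsmul_mem hP _) (zsmul_mem ?_ _)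
    rcases MP_9c97e9_nt.zero_or_is P with rfl | ⟨x, η, h⟩
    · simp
    · exact (CA.e1_iff (is_cmi h)).2 (by rw [Valuation.map_neg]; exact hP _ _ h)

theorem mem_E1 : P ∈ E1 w ↔ CA.E1 w.v P := Iff.rfl

theorem e1_iff (h : P ≠ 0) : P ∈ E1 w ↔ 1 < w.v (xc P) := CA.e1_iff (is_xc h)

theorem ne_of_not (h : P ∉ E1 w) : P ≠ 0 := fun e => h (e ▸ zero_mem _)

theorem int_of_not (h : P ∉ E1 w) : w.v (xc P) ≤ 1 := not_lt.1 fun e => h ((e1_iff (ne_of_not h)).2 e)

theorem red_add (hP : P ∉ E1 w) (hR : R ∈ E1 w) : w.v (xc (P + R) - xc P) < 1 := by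
  by_cases h0 : R = 0
  · simp [h0]
  have h1 : P + R ∉ E1 w := fun h => hP (by simpa using sub_mem h hR)
  have h2 := is_xc (ne_of_not h1)
  rw [add_comm] at h2
  have := close (rel3 (is_xc h0) (is_xc (ne_of_not hP)) h2) ((e1_iff h0).1 hR) (int_of_not hP)
    (by rw [add_comm]; exact int_of_not h1)
  rwa [add_comm R] at this

theorem sep (hp : w.p ≠ 2) (hP : P ≠ 0) (hQ : Q ∉ E1 w) (h : w.v (xc P - xc Q) < 1) :
    P - Q ∈ E1 w ∨ P + Q ∈ E1 w := by
  have h2 := Pl.v_two hp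
  have hD : w.v ((1 : ℤ) : Om) = 1 := by simp
  have a := is_xc hP
  have b := is_xc (ne_of_not hQ)
  have i2 : xc Q ∈ w.v.integer := int_of_not hQ
  have i1 : xc P ∈ w.v.integer := by simpa using add_mem (show _ ∈ w.v.integer from h.le) i2
  have k1 : w.v ((yc P - yc Q) * (yc P - -yc Q)) < 1 := by
    rw [show (yc P - yc Q) * (yc P - -yc Q) =
      (xc P - xc Q) * (4 * (xc P ^ 2 + xc P * xc Q + xc Q ^ 2 - 1)) by
      linear_combination eqn a - eqn b]
    refine CA.small h ?_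
    change _ ∈ w.v.integer
    apply_rules [sub_mem, add_mem, mul_mem, pow_mem, ofNat_mem, one_mem]
  rw [map_mul] at k1
  rcases lt_or_ge (w.v (yc P - yc Q)) 1 with e | e
  · exact .inl (CA.cong sp1 h2 hD a b i2 h e)
  · have := CA.cong sp1 h2 hD a b.neg i2 h (not_le.1 fun e' => k1.not_ge (one_le_mul e e'))
    rw [sub_neg_eq_add] at this
    exact .inr this

theorem inert (hp : w.p ≠ 2) {g : GQ} (hg : g ∈ w.I) (P : EE) : ga g P - P ∈ E1 w := by
  by_cases h0 : P = 0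
  · simp [h0]
  have a := is_xc h0
  by_cases h : P ∈ E1 w
  · refine sub_mem ((CA.e1_iff (is_ga g a)).2 ?_) h
    rw [Pl.mem_D.1 hg.1]
    exact (e1_iff h0).1 h
  · have i := int_of_not h
    exact CA.cong sp1 (Pl.v_two hp) (by simp) (is_ga g a) a i (hg.2 _ i)
      (hg.2 _ (CA.v_eta sp1 (Pl.v_two hp) a i))

/-- a rational point which generates the points of order dividing `(1 + i)³` -/
theorem exists_p3 : ∃ P : EE, Is P iK (2 - 2 * iK) ∧ pz ^ 3 • P = 0 ∧ (2 : ZI) • P ≠ 0 := by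
  obtain ⟨P, hP⟩ := exists_is (x := iK) (η := 2 - 2 * iK) (by linear_combination (4 - 4 * iK) * iK_sq)
  have h0 : 2 - 2 * iK ≠ 0 := fun e => by
    have : (8 : Om) = 0 := by linear_combination 4 * iK_sq + (2 + 2 * iK) * e
    norm_num at this
  have h1 := (hP.two_ne sp1).2 h0
  have h2 := is_xc h1
  have h3 : xc (P + P) = 0 := by
    have := dbl hP h2
    rw [iK_sq, neg_add_cancel, zero_pow two_ne_zero] at this
    exact (mul_eq_zero.1 this).resolve_right (pow_ne_zero 2 h0)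
  have h4 : yc (P + P) = 0 := by simpa [h3] using eqn h2
  rw [h3, h4] at h2
  have h5 : cmi (P + P) = P + P := (is_cmi h2).unique sp1 (by simpa using h2)
  refine ⟨P, hP, ?_, by rwa [two_smul]⟩
  rw [show pz ^ 3 = iz * ((1 + iz) * 2) by decide, mul_smul, mul_smul, two_smul, add_smul, one_smul,
    iz_smul (P + P), h5, h2.add_eq_zero sp1 (by simpa using h2), smul_zero]

theorem fp_sub {p : EE → Prop} {S : Finset EE} (h : ∀ R, R ∈ S ↔ p R) (f : EE → Om) :
    ∏ᶠ R : {R // p R}, f R = ∏ R ∈ S, f R := by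
  rw [finprod_subtype_eq_finprod_cond]
  exact finprod_cond_eq_prod_of_cond_iff f fun _ => (h _).symm

theorem orb (S : Finset EE) (h1 : ∀ R ∈ S, iz • R ∈ S) (h2 : ∀ R ∈ S, -R ≠ R) :
    ∃ T ⊆ S, ∀ f : EE → Om, ∏ R ∈ S, f R = ∏ R ∈ T, f R * f (iz • R) * f (-R) * f (-(iz • R)) := by
  classical
  have ii : ∀ R : EE, iz • iz • R = -R := fun R => by rw [← mul_smul, ← sq, iz_sq, neg_one_smul]
  induction S using Finset.strongInduction with
  | H S ih =>
    rcases S.eq_empty_or_nonempty with rfl | ⟨R, hR⟩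
    · exact ⟨∅, le_rfl, fun f => by simp⟩
    have m1 := h1 R hR
    have m2 : -R ∈ S := ii R ▸ h1 _ m1
    have m3 : -(iz • R) ∈ S := smul_neg iz R ▸ h1 _ m2
    have n1 := h2 R hR
    have n2 := h2 _ m1
    have n3 : iz • R ≠ R := fun e => n1 (by rw [← ii, e, e])
    have n4 : -(iz • R) ≠ R := fun e => n1 (by
      have := congrArg (iz • ·) e
      simp only [smul_neg, ii, neg_neg] at this
      exact absurd this.symm n3)
    have n5 : iz • R ≠ -R := fun e => n4 (by rw [e, neg_neg])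
    let O : Finset EE := {R, iz • R, -R, -(iz • R)}
    have hO : O ⊆ S := by simp [O, Finset.insert_subset_iff, hR, m1, m2, m3]
    have hs : ∀ X, iz • X ∈ O → X ∈ O := fun X hX => by
      have e : X = -(iz • iz • X) := by rw [ii, neg_neg]
      simp only [O, Finset.mem_insert, Finset.mem_singleton] at hX ⊢
      rcases hX with h | h | h | h <;> rw [h] at e <;> simp [e, ii]
    obtain ⟨T, t1, t2⟩ := ih (S \ O) (Finset.sdiff_ssubset hO (by simp [O]))
      (fun X hX => Finset.mem_sdiff.2 ⟨h1 X (Finset.mem_sdiff.1 hX).1,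
        fun e => (Finset.mem_sdiff.1 hX).2 (hs X e)⟩) fun X hX => h2 X (Finset.mem_sdiff.1 hX).1
    have t3 : R ∉ T := fun e => (Finset.mem_sdiff.1 (t1 e)).2 (by simp [O])
    refine ⟨insert R T, Finset.insert_subset hR (t1.trans Finset.sdiff_subset), fun f => ?_⟩
    rw [← Finset.prod_sdiff hO, t2, Finset.prod_insert t3, mul_comm]
    congr 1
    rw [Finset.prod_insert (by simp [n1.symm, n3.symm, n4.symm]),
      Finset.prod_insert (by simp [n5, n2.symm]), Finset.prod_pair (by simp [n3.symm])]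
    ring

end A2

end Pool.Agent.P.MP_8b7eba_nt.QT.CG
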