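import Pool.Agent.P.MP_8b7eba_nt.CG.A2a

/-! Torsion points and the kernel of reduction. -/

namespace Pool.Agent.P.MP_8b7eba_nt.QT.CG

open R2 SM
open MP_9c97e9_nt (Pt pm Is)
open scoped NNReal Classical

namespace A2

variable {w : Pl} {P Q R : EE} {M l β a b : ZI}

theorem cop_zero (h : IsCoprime a b) (ha : a • P = 0) (hb : b • P = 0) : P = 0 := by
  obtain ⟨r, s, e⟩ := h
  rw [← one_smul ZI P, ← e, add_smul, mul_smul, mul_smul, ha, hb, smul_zero, smul_zero, add_zero]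

theorem smul_tors (h : M • P = 0) (b : ZI) : M • b • P = 0 := by rw [smul_comm, h, smul_zero]

theorem dvd_tors (h : M • P = 0) (hb : M ∣ b) : b • P = 0 := by
  obtain ⟨c, rfl⟩ := hb
  rw [mul_comm, mul_smul, h, smul_zero]

theorem tors_fin (hG : S_GEN) (hM : M ≠ 0) :
    ∃ S : Finset EE, (∀ R, R ∈ S ↔ M • R = 0) ∧ (S.card : ℤ) = M.norm := by
  obtain ⟨-, -, h1, h2, -⟩ := hG M hM
  exact ⟨h1.toFinset, fun R => h1.mem_toFinset, by rw [← h2, Set.ncard_eq_toFinset_card _ h1]⟩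

theorem gen_of (hG : S_GEN) (hM : M ≠ 0) (hQ : M • Q = 0)
    (h : ∀ b, Q = b • gen M → IsCoprime b M) (hR : M • R = 0) : ∃ b : ZI, R = b • Q := by
  obtain ⟨⟨h1, h2⟩, -⟩ := hG M hM
  obtain ⟨b, rfl⟩ := h2 Q hQ
  obtain ⟨c, rfl⟩ := h2 R hR
  obtain ⟨r, s, e⟩ := h b rfl
  refine ⟨c * r, ?_⟩
  rw [mul_smul, ← mul_smul r, eq_sub_of_add_eq e, sub_smul, one_smul,
    (h1 _).2 (dvd_mul_left M s), sub_zero]

theorem simple (hG : S_GEN) (hl : Prime l) (h0 : Q ≠ 0) (hQ : l • Q = 0) (hR : l • R = 0) :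
    ∃ b : ZI, R = b • Q :=
  gen_of hG hl.ne_zero hQ (fun b e => (hl.coprime_iff_not_dvd.2 fun h =>
    h0 (e.trans (((hG l hl.ne_zero).1.1 b).2 h))).symm) hR

theorem xp (hG : S_GEN) (hX : S_XP) (hβ : Prim β) : ∃ (S : Finset EE) (k : ℕ),
    (∀ R, R ∈ S ↔ β • R = 0) ∧ S.card = 4 * k + 1 ∧ β.norm = 4 * k + 1 ∧
    ∀ e : ℤ, (e = 0 ∨ e = 1 ∨ e = -1) → ∃ c : Om, c ^ 2 = (3 * e ^ 2 - 1) ^ (4 * k) ∧
      (∀ P, β • P ≠ 0 → ∏ R ∈ S, (xc (P + R) - e) = c * (xc (β • P) - e)) ∧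
      (∏ R ∈ S.erase 0, (xc R - e)) * eK β ^ 2 = c := by
  obtain ⟨S, h1, h2⟩ := tors_fin hG (prim_ne hβ)
  obtain ⟨k, hk⟩ := prim_norm hβ
  refine ⟨S, k, h1, by exact_mod_cast h2.trans hk, hk, fun e he => ?_⟩
  obtain ⟨c, c1, c2, c3⟩ := hX β e hβ he
  refine ⟨c, ?_, fun P hP => ?_, ?_⟩
  · rw [c1, hk, add_sub_cancel_right, ← zpow_natCast _ (4 * k), Nat.cast_mul, Nat.cast_ofNat]
  · rw [← c2 P hP, fp_sub h1 fun R => xc (P + R) - e]
  · rw [← c3, fp_sub (S := S.erase 0) (fun R => by rw [Finset.mem_erase, h1, and_comm])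
      fun R => xc R - e]

theorem xp0 (hG : S_GEN) (hX : S_XP) (hβ : Prim β) : ∃ (S : Finset EE) (k : ℕ) (c : Om),
    (∀ R, R ∈ S ↔ β • R = 0) ∧ S.card = 4 * k + 1 ∧ β.norm = 4 * k + 1 ∧ c ^ 2 = 1 ∧
      (∀ P, β • P ≠ 0 → ∏ R ∈ S, xc (P + R) = c * xc (β • P)) ∧
      (∏ R ∈ S.erase 0, xc R) * eK β ^ 2 = c := by
  obtain ⟨S, k, h1, h2, h3, h4⟩ := xp hG hX hβ
  obtain ⟨c, c1, c2, c3⟩ := h4 0 (.inl rfl)
  refine ⟨S, k, c, h1, h2, h3, ?_, by simpa using c2, by simpa using c3⟩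
  rw [c1, pow_mul]
  norm_num

theorem v_one {c : Om} (h : c ^ 2 = 1) : w.v c = 1 := by
  have h1 := congrArg w.v h
  rw [map_pow, map_one] at h1
  exact (pow_eq_one_iff_of_nonneg zero_le two_ne_zero).1 h1

theorem inj0 (hG : S_GEN) (hX : S_XP) (hp : w.p ≠ 2) (hl : Prime l) (hv : w.v (eK l) = 1)
    (hQ : Q ∈ E1 w) (h : l • Q = 0) : Q = 0 := by
  by_cases h2 : pz ∣ l
  · refine CA.e1_tors sp1 (Pl.v_two hp) 1 hQ ?_
    have := dvd_tors h (dvd_two hl h2)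
    rwa [two_smul, ← two_smul ℕ] at this
  by_contra h0
  obtain ⟨u, hu, hβ⟩ := exists_prim h2
  obtain ⟨S, k, c, s1, -, -, c1, -, c3⟩ := xp0 hG hX hβ
  have h3 := congrArg w.v c3
  have h4 : w.v (eK (u * l)) = 1 :=
    le_antisymm (v_eK w _) (hv ▸ v_dvd (hu.mul_left_dvd.2 dvd_rfl))
  rw [v_one c1, map_mul, map_pow, h4, one_pow, mul_one, map_prod] at h3
  refine ((Finset.one_lt_prod_iff_of_one_le fun R hR => ?_).2 ⟨Q, ?_, (e1_iff h0).1 hQ⟩).ne' h3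
  · rw [Finset.mem_erase, s1] at hR
    obtain ⟨b, rfl⟩ := simple hG hl h0 h (dvd_tors hR.2 (hu.mul_left_dvd.2 dvd_rfl))
    exact ((e1_iff hR.1).1 ((E1 w).smul_mem b hQ)).le
  · rw [Finset.mem_erase, s1]
    exact ⟨h0, dvd_tors h (dvd_mul_left l u)⟩

theorem inj (hG : S_GEN) (hX : S_XP) (hp : w.p ≠ 2) (hv : w.v (eK M) = 1)
    (hQ : Q ∈ E1 w) (h : M • Q = 0) : Q = 0 := by
  induction M using UniqueFactorizationMonoid.induction_on_prime with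
  | h₁ => simp at hv
  | h₂ u hu => exact cop_zero (isCoprime_self.2 hu) h h
  | h₃ a l _ hl ih =>
    rw [mul_smul] at h
    exact ih (le_antisymm (v_eK w _) (hv ▸ v_dvd (dvd_mul_left a l)))
      (inj0 hG hX hp hl (le_antisymm (v_eK w _) (hv ▸ v_dvd (dvd_mul_right l a)))
        ((E1 w).smul_mem a hQ) h)

theorem tors_le (hG : S_GEN) (hX : S_XP) (hl : Prime β) (hβ : Prim β) (hv : w.v (eK β) < 1)
    (h : β • R = 0) : R ∈ E1 w := by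
  obtain ⟨S, k, c, s1, -, -, c1, -, c3⟩ := xp0 hG hX hβ
  by_contra h1
  have h2 : w.v (∏ R ∈ S.erase 0, xc R) ≤ 1 := by
    rw [map_prod]
    refine Finset.prod_le_one' fun Q hQ => int_of_not fun e => h1 ?_
    rw [Finset.mem_erase, s1] at hQ
    obtain ⟨b, rfl⟩ := simple hG hl hQ.1 hQ.2 h
    exact (E1 w).smul_mem b e
  have h3 := CA.small (v := w.v) (a := eK β ^ 2)
    (by rw [map_pow]; exact pow_lt_one₀ zero_le hv two_ne_zero) h2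
  rw [mul_comm, c3, v_one c1] at h3
  exact lt_irrefl _ h3

theorem ga_tors (hL : S_LIN) {g : GQ} (hg : g ∈ GK) (h : M • P = 0) : M • ga g P = 0 := by
  rw [← hL.1 g hg, h, map_zero]

theorem ar_of_gen (hG : S_GEN) (hL : S_LIN) (hM : M ≠ 0) {g : GQ} (hg : g ∈ GK)
    (h : ga g (gen M) = b • gen M) : Ar M g b := fun P hP => by
  obtain ⟨c, rfl⟩ := (hG M hM).1.2 P hP
  rw [hL.1 g hg, h, smul_comm]

theorem ar_mono {g : GQ} {M' : ZI} (h : Ar M' g b) (hM : M ∣ M') : Ar M g b :=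
  fun P hP => h P (dvd_tors hP hM)

theorem ar_mul (hL : S_LIN) {g h : GQ} {c : ZI} (hg : g ∈ GK) (h1 : Ar M g b) (h2 : Ar M h c) :
    Ar M (g * h) (b * c) := fun P hP => by
  rw [ga_mul, h2 P hP, hL.1 g hg, h1 P hP, smul_comm, mul_smul]

theorem p3 : ∃ P : EE, xc P = iK ∧ pz ^ 3 • P = 0 ∧ (2 : ZI) • P ≠ 0 ∧ (∀ g ∈ GK, ga g P = P) ∧
    ∀ b, Prim b → b • P = P := by
  obtain ⟨P, h1, h2, h3⟩ := exists_p3
  refine ⟨P, xc_eq h1, h2, h3, fun g hg => (is_ga g h1).unique sp1 ?_, fun b hb => ?_⟩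
  · rwa [map_sub, map_mul, map_ofNat, gk_iK hg]
  · have := dvd_tors h2 hb
    rwa [sub_smul, one_smul, sub_eq_zero] at this

theorem fix3 (hG : S_GEN) (hL : S_LIN) {g : GQ} (hg : g ∈ GK) (h : pz ^ 3 • R = 0) : ga g R = R := by
  obtain ⟨P, -, h2, h3, h4, -⟩ := p3
  have h0 : pz ^ 3 ≠ 0 := pow_ne_zero 3 pz_ne
  obtain ⟨b, rfl⟩ := gen_of hG h0 h2 (fun b e => cop_of_not_dvd fun ⟨c, hc⟩ => h3 (by
    rw [e, ← mul_smul, ((hG _ h0).1.1 _).2 ⟨-iz * c, by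
      rw [hc, pow_succ, pz_sq]
      linear_combination 2 * pz * c * iz_sq⟩])) h
  rw [hL.1 g hg, h4 g hg]

theorem prim_of_ar (hG : S_GEN) (hL : S_LIN) {g : GQ} (hg : g ∈ GK) (h : Ar (pz ^ 3) g b) :
    Prim b := by
  have h1 := (hG _ (pow_ne_zero 3 pz_ne)).1.1
  have h2 := (h1 _).2 dvd_rfl
  refine (h1 _).1 ?_
  rw [sub_smul, one_smul, ← h _ h2, fix3 hG hL hg h2, sub_self]

theorem prim_eq (ha : Prim a) (hb : Prim b) (h : a ∣ b) (hn : b.norm = a.norm) : b = a := by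
  obtain ⟨c, rfl⟩ := h
  rw [Zsqrtd.norm_mul, mul_right_eq_self₀, GaussianInt.norm_eq_zero] at hn
  rw [prim_unit ((Zsqrtd.norm_eq_one_iff' (by norm_num) c).1 (hn.resolve_right (prim_ne ha)))
    (prim_cancel ha (mul_comm a c ▸ hb)), mul_one]

theorem v_lt_iff (hl : Prime l) (hv : w.v (eK l) < 1) : w.v (eK b) < 1 ↔ l ∣ b :=
  ⟨fun h => by_contra fun e => h.ne (v_cop (hl.coprime_iff_not_dvd.2 e) hv),
    fun h => (v_dvd h).trans_lt hv⟩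

theorem v_star (hl : Prime β) (hβ : Prim β) (hn : β.norm = w.p) (hv : w.v (eK β) < 1) :
    w.v (eK (star β)) = 1 := by
  refine le_antisymm (v_eK w _) (not_lt.1 fun h => ?_)
  have h1 := prim_eq hβ (b := star β) (prim_iff.2 (by simpa [sub_eq_add_neg, and_comm] using prim_iff.1 hβ))
    ((v_lt_iff hl hv).1 h) (Zsqrtd.norm_conj β)
  have h2 : β.im = 0 := by
    have := congrArg Zsqrtd.im h1
    simp only [Zsqrtd.im_star] at this
    omega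
  rw [Zsqrtd.norm_def, h2] at hn
  exact (Nat.prime_iff_prime_int.1 w.prime).not_isSquare ⟨β.re, by linear_combination -hn⟩

end A2

end Pool.Agent.P.MP_8b7eba_nt.QT.CG
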