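import Pool.Agent.P.MP_8b7eba_nt.CG.A2b

/-! Products over the orbits of the units. -/

namespace Pool.Agent.P.MP_8b7eba_nt.QT.CG

open R2 SM
open MP_9c97e9_nt (Pt pm Is)
open scoped NNReal Classical

namespace A2

variable {P R : EE} {β : ZI} {g : GQ}

theorem xc_neg (P : EE) : xc (-P) = xc P ∧ yc (-P) = -yc P := by
  by_cases h : P = 0
  · subst h
    rw [neg_zero]
    exact ⟨rfl, neg_zero.symm⟩
  · exact ⟨xc_eq (is_xc h).neg, yc_eq (is_xc h).neg⟩

theorem orb' (hβ : Prim β) {S : Finset EE} (h : ∀ R, R ∈ S ↔ β • R = 0) :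
    ∃ T ⊆ S, ∀ f : EE → Om, (∀ R, f (iz • R) = -f R) →
      ∏ R ∈ S.erase 0, f R = (∏ R ∈ T, f R) ^ 4 := by
  obtain ⟨T, t1, t2⟩ := orb (S.erase 0) (fun R hR => by
    rw [Finset.mem_erase, h] at hR ⊢
    exact ⟨fun e => hR.1 (cop_zero (isCoprime_self.2 unit_iz) e e), smul_tors hR.2 _⟩) fun R hR e => by
    rw [Finset.mem_erase, h] at hR
    exact hR.1 (cop_zero (prim_cop2 hβ) hR.2 (by rw [two_smul]; exact add_eq_zero_iff_neg_eq.2 e))
  refine ⟨T, t1.trans (Finset.erase_subset _ _), fun f hf => ?_⟩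
  have h1 : ∀ R, f (-R) = f R := fun R => by
    rw [← neg_one_smul ZI, ← iz_sq, sq, mul_smul, hf, hf, neg_neg]
  rw [t2, ← Finset.prod_pow]
  refine Finset.prod_congr rfl fun R _ => ?_
  rw [h1, h1, hf]
  ring

end A2

end Pool.Agent.P.MP_8b7eba_nt.QT.CG
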