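import Pool.Agent.P.MP_8b7eba_nt.CG.If
import Pool.Agent.P.MP_8b7eba_nt.R1.Add
import Pool.Agent.P.MP_8b7eba_nt.R1.Lat

/-! The Weierstrass functions of the lemniscatic lattice. -/

namespace Pool.Agent.P.MP_8b7eba_nt.QT.CG.A1

open R2 Complex Filter Topology Finset

/-- the embedding of the Gaussian integers in the complex numbers -/
noncomputable def cK : ZI →+* ℂ := io.comp eK

theorem eK_iz : eK iz = iK := by simp [eK, iz]

theorem iK_sq : iK ^ 2 = -1 := by simpa [iK] using CB.i_sq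

theorem cK_sq : cK iz ^ 2 = -1 := by
  rw [← map_pow, show iz ^ 2 = -1 by decide, map_neg, map_one]

theorem cK_mk (m n : ℤ) : cK ⟨m, n⟩ = m + n * cK iz := by
  rw [show (⟨m, n⟩ : ZI) = m + n * iz by ext <;> simp [iz]]
  simp

theorem cK_pm : cK iz = I ∨ cK iz = -I := sq_eq_sq_iff_eq_or_eq_neg.1 (cK_sq.trans Complex.I_sq.symm)

theorem cK_ne {b : ZI} (hb : b ≠ 0) : cK b ≠ 0 := fun h => by
  have h1 : cK (b.norm : ZI) = 0 := by rw [Zsqrtd.norm_eq_mul_conj, map_mul, h, zero_mul]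
  rw [map_intCast, Int.cast_eq_zero] at h1
  exact hb (GaussianInt.norm_eq_zero.1 h1)

theorem cK_inj : Function.Injective cK :=
  (injective_iff_map_eq_zero _).2 fun _ h => by_contra fun e => cK_ne e h

section

variable {Ω : ℂ} (hΩ : Ω ≠ 0)

/-- the multiples of the Gaussian lattice -/
noncomputable def LO : PeriodPair := ⟨Ω, I * Ω, by
  rw [LinearIndependent.pair_iff]
  intro s t h
  have h1 : (s : ℂ) + t * I = 0 :=
    mul_right_cancel₀ hΩ (by simp only [real_smul] at h; linear_combination h)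
  exact ⟨by simpa using congrArg re h1, by simpa using congrArg im h1⟩⟩

theorem mem_LO {z : ℂ} : z ∈ (LO hΩ).lattice ↔ ∃ b : ZI, z = cK b * Ω := by
  rw [PeriodPair.mem_lattice]
  change (∃ m n : ℤ, m * Ω + n * (I * Ω) = z) ↔ _
  rcases cK_pm with h | h
  · exact ⟨fun ⟨m, n, e⟩ => ⟨⟨m, n⟩, by rw [← e, cK_mk, h]; ring⟩,
      fun ⟨⟨m, n⟩, e⟩ => ⟨m, n, by rw [e, cK_mk, h]; ring⟩⟩
  · exact ⟨fun ⟨m, n, e⟩ => ⟨⟨m, -n⟩, by rw [← e, cK_mk, h]; push_cast; ring⟩,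
      fun ⟨⟨m, n⟩, e⟩ => ⟨m, -n, by rw [e, cK_mk, h]; push_cast; ring⟩⟩

/-- the lattice is parametrised by the Gaussian integers -/
noncomputable def eqL : ZI ≃ (LO hΩ).lattice :=
  Equiv.ofBijective (fun a => ⟨cK a * Ω, (mem_LO hΩ).2 ⟨a, rfl⟩⟩)
    ⟨fun _ _ h => cK_inj (mul_right_cancel₀ hΩ (congrArg Subtype.val h)), fun z => by
      obtain ⟨a, h⟩ := (mem_LO hΩ).1 z.2
      exact ⟨a, Subtype.ext h.symm⟩⟩

/-- multiplication by `i` -/
def rot : ZI ≃ ZI where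
  toFun a := iz * a
  invFun a := -iz * a
  left_inv a := by ext <;> simp [iz]
  right_inv a := by ext <;> simp [iz]

theorem cK_rot (a : ZI) : cK (rot a) = cK iz * cK a := map_mul _ _ _

theorem G_LO (n : ℕ) : (LO hΩ).G n = (Ω ^ n)⁻¹ * ∑' a : ZI, (cK a ^ n)⁻¹ := by
  rw [PeriodPair.G, ← (eqL hΩ).tsum_eq, ← tsum_mul_left]
  exact tsum_congr fun a => by
    change ((cK a * Ω) ^ n)⁻¹ = _
    rw [mul_pow, mul_inv, mul_comm]

theorem g3_LO : (LO hΩ).g₃ = 0 := by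
  have h : ∑' a : ZI, (cK a ^ 6)⁻¹ = -∑' a : ZI, (cK a ^ 6)⁻¹ := by
    rw [← tsum_neg, ← rot.tsum_eq]
    refine tsum_congr fun a => ?_
    rw [cK_rot, mul_pow, show cK iz ^ 6 = -1 by
      rw [show 6 = 2 * 3 from rfl, pow_mul, cK_sq]; norm_num, neg_one_mul, inv_neg]
  rw [PeriodPair.g₃, G_LO, CharZero.eq_neg_self_iff.1 h, mul_zero, mul_zero]

end

open ModularForm in
theorem g2_ne : (LO one_ne_zero).g₂ ≠ 0 := by
  have hl : (R1.lat_pair UpperHalfPlane.I 1 one_ne_zero).lattice = (LO one_ne_zero).lattice := by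
    simp [PeriodPair.lattice, R1.lat_pair, LO, Set.pair_comm]
  have hG : ∀ n, (R1.lat_pair UpperHalfPlane.I 1 one_ne_zero).G n = (LO one_ne_zero).G n :=
    fun n => by
      unfold PeriodPair.G
      rw [hl]
  have h4 := R1.lat_G UpperHalfPlane.I 1 one_ne_zero (k := 4) (by norm_num)
  have h6 := R1.lat_G UpperHalfPlane.I 1 one_ne_zero (k := 6) (by norm_num)
  rw [hG] at h4 h6
  intro h
  have a4 : (LO one_ne_zero).G 4 = 0 := by simpa [PeriodPair.g₂] using h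
  have a6 : (LO one_ne_zero).G 6 = 0 := by simpa [PeriodPair.g₃] using g3_LO one_ne_zero
  have z4 : riemannZeta 4 ≠ 0 := riemannZeta_ne_zero_of_one_lt_re (by simp)
  have z6 : riemannZeta 6 ≠ 0 := riemannZeta_ne_zero_of_one_lt_re (by simp)
  have b4 : E₄ UpperHalfPlane.I = 0 := by simpa [a4, z4] using h4.symm
  have b6 : E₆ UpperHalfPlane.I = 0 := by simpa [a6, z6] using h6.symm
  have := discriminant_eq_E₄_cube_sub_E₆_sq UpperHalfPlane.I
  rw [b4, b6] at this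
  exact discriminant_ne_zero UpperHalfPlane.I (by simpa using this)

theorem exists_period : ∃ (Ω : ℂ) (h : Ω ≠ 0), (LO h).g₂ = 4 := by
  obtain ⟨Ω, h⟩ := IsAlgClosed.exists_pow_nat_eq ((LO one_ne_zero).g₂ / 4) (n := 4) (by norm_num)
  have h0 : Ω ≠ 0 := fun e => g2_ne (by rw [e] at h; linear_combination -4 * h)
  refine ⟨Ω, h0, ?_⟩
  rw [PeriodPair.g₂, G_LO, one_pow, inv_one, one_mul] at h
  rw [PeriodPair.g₂, G_LO]
  linear_combination 4 * mul_inv_cancel₀ (pow_ne_zero 4 h0) - 4 * (Ω ^ 4)⁻¹ * h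

/-- the period -/
noncomputable def Ω0 : ℂ := exists_period.choose

theorem Ω0_ne : Ω0 ≠ 0 := exists_period.choose_spec.choose

/-- the lattice -/
noncomputable def LL : PeriodPair := LO Ω0_ne

/-- the Weierstrass function -/
noncomputable def pP : ℂ → ℂ := LL.weierstrassP

/-- its derivative -/
noncomputable def pQ : ℂ → ℂ := LL.derivWeierstrassP

theorem g2_eq : LL.g₂ = 4 := exists_period.choose_spec.choose_spec

theorem mem_LL {z : ℂ} : z ∈ LL.lattice ↔ ∃ b : ZI, z = cK b * Ω0 := mem_LO _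

theorem mul_mem {z : ℂ} (b : ZI) (h : z ∈ LL.lattice) : cK b * z ∈ LL.lattice := by
  obtain ⟨a, rfl⟩ := mem_LL.1 h
  exact mem_LL.2 ⟨b * a, by rw [map_mul, mul_assoc]⟩

theorem iz_mem {z : ℂ} : cK iz * z ∈ LL.lattice ↔ z ∈ LL.lattice :=
  ⟨fun h => by
    have := LL.lattice.neg_mem (mul_mem iz h)
    rwa [← mul_assoc, ← sq, cK_sq, neg_one_mul, neg_neg] at this, mul_mem iz⟩

theorem hasSum_pP (z : ℂ) :
    HasSum (fun a : ZI => 1 / (z - cK a * Ω0) ^ 2 - 1 / (cK a * Ω0) ^ 2) (pP z) :=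
  (eqL Ω0_ne).hasSum_iff.2 (LL.hasSum_weierstrassP z)

theorem hasSum_pQ (z : ℂ) : HasSum (fun a : ZI => -2 / (z - cK a * Ω0) ^ 3) (pQ z) :=
  (eqL Ω0_ne).hasSum_iff.2 (LL.hasSum_derivWeierstrassP z)

theorem hs_congr {ι : Type} {f g : ι → ℂ} {a : ℂ} (h : HasSum f a) (e : ∀ i, g i = f i) :
    HasSum g a := funext e ▸ h

theorem pP_I (z : ℂ) : pP (cK iz * z) = -pP z := by
  refine (rot.hasSum_iff.2 (hasSum_pP (cK iz * z))).unique
    (hs_congr (hasSum_pP z).neg fun a => ?_)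
  rw [Function.comp_apply, cK_rot, mul_assoc, ← mul_sub, mul_pow, mul_pow, cK_sq]
  simp only [neg_mul, one_mul, div_neg]
  ring

theorem pQ_I (z : ℂ) : pQ (cK iz * z) = cK iz * pQ z := by
  refine (rot.hasSum_iff.2 (hasSum_pQ (cK iz * z))).unique
    (hs_congr ((hasSum_pQ z).mul_left (cK iz)) fun a => ?_)
  rw [Function.comp_apply, cK_rot, mul_assoc, ← mul_sub, mul_pow, mul_comm, div_mul_eq_div_div,
    div_eq_iff (pow_ne_zero _ (cK_ne (by decide)))]
  linear_combination (-2 / (z - cK a * Ω0) ^ 3) * (1 - cK iz ^ 2) * cK_sq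

theorem pP_neg (z : ℂ) : pP (-z) = pP z := LL.weierstrassP_neg z

theorem pQ_neg (z : ℂ) : pQ (-z) = -pQ z := LL.derivWeierstrassP_neg z

theorem pP_add {l : ℂ} (hl : l ∈ LL.lattice) (z : ℂ) : pP (z + l) = pP z :=
  LL.weierstrassP_add_coe z ⟨l, hl⟩

theorem pQ_add {l : ℂ} (hl : l ∈ LL.lattice) (z : ℂ) : pQ (z + l) = pQ z :=
  LL.derivWeierstrassP_add_coe z ⟨l, hl⟩

theorem pP_eq {z w : ℂ} (h : z - w ∈ LL.lattice) : pP z = pP w := by
  rw [← pP_add h w, add_sub_cancel]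

theorem pQ_eq {z w : ℂ} (h : z - w ∈ LL.lattice) : pQ z = pQ w := by
  rw [← pQ_add h w, add_sub_cancel]

theorem pQ_sq {z : ℂ} (hz : z ∉ LL.lattice) : pQ z ^ 2 = 4 * pP z ^ 3 - 4 * pP z := by
  have := LL.derivWeierstrassP_sq z hz
  rwa [g2_eq, show LL.g₃ = 0 from g3_LO _, sub_zero] at this

theorem dP {z : ℂ} (hz : z ∉ LL.lattice) : HasDerivAt pP (pQ z) z := R1.AddA.dP hz

theorem dQ {z : ℂ} (hz : z ∉ LL.lattice) : HasDerivAt pQ (6 * pP z ^ 2 - 2) z := by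
  have := R1.AddA.dQ hz
  rwa [g2_eq, show (4 : ℂ) / 2 = 2 by norm_num] at this

/-- the distribution relation for the derivative -/
theorem pQ_dist {ι : Type} [Fintype ι] {α : ZI} (hα : α ≠ 0) {t : ι → ℂ}
    (h1 : ∀ i, cK α * t i ∈ LL.lattice)
    (h2 : ∀ w, cK α * w ∈ LL.lattice → ∃! i, w - t i ∈ LL.lattice) (z : ℂ) :
    ∑ i, pQ (z + t i) = cK α ^ 3 * pQ (cK α * z) := by
  have h0 := cK_ne hα
  let e : ι × LL.lattice ≃ LL.lattice := Equiv.ofBijective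
    (fun q => ⟨cK α * (q.2 - t q.1), by
      rw [mul_sub]
      exact LL.lattice.sub_mem (mul_mem _ q.2.2) (h1 _)⟩)
    ⟨fun ⟨i, l⟩ ⟨j, m⟩ h => by
      have h3 : (l : ℂ) - t i = m - t j := mul_left_cancel₀ h0 (congrArg Subtype.val h)
      obtain rfl : i = j := (h2 _ (h1 i)).unique (by simp) (by
        rw [show t i - t j = l - m by linear_combination -h3]
        exact LL.lattice.sub_mem l.2 m.2)
      rw [Subtype.ext (sub_left_injective h3)], fun m => by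
      obtain ⟨i, hi, -⟩ := h2 (-(m / cK α)) (by
        rw [mul_neg, mul_div_cancel₀ _ h0]
        exact LL.lattice.neg_mem m.2)
      refine ⟨(i, ⟨_, LL.lattice.neg_mem hi⟩), Subtype.ext ?_⟩
      change cK α * (-(-(m / cK α) - t i) - t i) = m
      field_simp
      ring⟩
  refine (hasSum_fintype _).unique
    ((e.hasSum_iff.2 ((LL.hasSum_derivWeierstrassP (cK α * z)).mul_left (cK α ^ 3))).prod_fiberwise
      fun i => hs_congr (LL.hasSum_derivWeierstrassP (z + t i)) fun l => ?_)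
  change cK α ^ 3 * (-2 / (cK α * z - cK α * (l - t i)) ^ 3) = _
  rw [← mul_sub, mul_pow, show z - (l - t i) = z + t i - l by ring]
  field_simp

end Pool.Agent.P.MP_8b7eba_nt.QT.CG.A1
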