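import Pool.Agent.P.MP_8b7eba_nt.CG.TGEN

/-! Elliptic functions are compared through the third derivative of their logarithm. -/

namespace Pool.Agent.P.MP_8b7eba_nt.QT.CG.A1

open R2 Complex Filter Topology Finset
open scoped Real

/-- `h` is the third derivative of the logarithm of `f` on `U` -/
def LD (U : Set ℂ) (f h : ℂ → ℂ) : Prop :=
  ∃ l m : ℂ → ℂ, ∀ z ∈ U, f z ≠ 0 ∧ HasDerivAt f (l z * f z) z ∧ HasDerivAt l (m z) z ∧
    HasDerivAt m (h z) z

variable {U V : Set ℂ} {f g h k : ℂ → ℂ}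

theorem LD.mono (a : LD U f h) (hV : V ⊆ U) (e : ∀ z ∈ V, h z = k z) : LD V f k := by
  obtain ⟨l, m, a⟩ := a
  exact ⟨l, m, fun z hz => e z hz ▸ a z (hV hz)⟩

theorem LD.const {c : ℂ} (hc : c ≠ 0) : LD U (fun _ => c) fun _ => 0 :=
  ⟨fun _ => 0, fun _ => 0, fun z _ => ⟨hc, by simpa using hasDerivAt_const z c,
    hasDerivAt_const z _, hasDerivAt_const z _⟩⟩

theorem LD.mul (a : LD U f h) (b : LD U g k) : LD U (fun z => f z * g z) fun z => h z + k z := by
  obtain ⟨l, m, a⟩ := a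
  obtain ⟨l', m', b⟩ := b
  refine ⟨fun z => l z + l' z, fun z => m z + m' z, fun z hz => ?_⟩
  obtain ⟨a0, a1, a2, a3⟩ := a z hz
  obtain ⟨b0, b1, b2, b3⟩ := b z hz
  exact ⟨mul_ne_zero a0 b0, (a1.fun_mul b1).congr_deriv (by ring), a2.fun_add b2, a3.fun_add b3⟩

theorem LD.prod {ι : Type} {s : Finset ι} {f h : ι → ℂ → ℂ} (a : ∀ i ∈ s, LD U (f i) (h i)) :
    LD U (fun z => ∏ i ∈ s, f i z) fun z => ∑ i ∈ s, h i z := by
  classical
  induction s using Finset.induction_on with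
  | empty => simpa using LD.const one_ne_zero
  | insert i s hi ih =>
    simpa only [prod_insert hi, sum_insert hi] using
      (a i (mem_insert_self _ _)).mul (ih fun j hj => a j (mem_insert_of_mem hj))

theorem LD.pow (a : LD U f h) (n : ℕ) : LD U (fun z => f z ^ n) fun z => n * h z := by
  simpa using LD.prod (s := range n) (f := fun _ => f) (h := fun _ => h) fun _ _ => a

theorem LD.aff (a : LD U f h) (α β : ℂ) :
    LD {z | α * z + β ∈ U} (fun z => f (α * z + β)) fun z => α ^ 3 * h (α * z + β) := by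
  obtain ⟨l, m, a⟩ := a
  refine ⟨fun z => α * l (α * z + β), fun z => α ^ 2 * m (α * z + β), fun z hz => ?_⟩
  obtain ⟨a0, a1, a2, a3⟩ := a _ hz
  have d : HasDerivAt (fun z => α * z + β) α z := by
    simpa using ((hasDerivAt_id z).const_mul α).add_const β
  exact ⟨a0, (a1.comp z d).congr_deriv (by ring), ((a2.comp z d).const_mul α).congr_deriv (by ring),
    ((a3.comp z d).const_mul (α ^ 2)).congr_deriv (by ring)⟩

theorem pP_ne {z t : ℂ} (hz : z ∉ LL.lattice) (ht : t ∉ LL.lattice) (h1 : z - t ∉ LL.lattice)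
    (h2 : z + t ∉ LL.lattice) : pP z ≠ pP t := fun e => by
  have a := uu_is hz
  have b := uu_is ht
  rw [e] at a
  rcases sq_eq_sq_iff_eq_or_eq_neg.1 ((a.eq (sp1 ℂ)).trans (b.eq (sp1 ℂ)).symm) with e | e <;>
    rw [e] at a
  · exact h1 (uu_inj.1 (a.unique (sp1 ℂ) b))
  · exact h2 (uu_eq_zero.1 (by rw [map_add, a.unique (sp1 ℂ) b.neg, neg_add_cancel]))

open R1.AddA in
theorem LD.base {t : ℂ} (ht : t ∉ LL.lattice) :
    LD {z | z ∉ LL.lattice ∧ z - t ∉ LL.lattice ∧ z + t ∉ LL.lattice} (fun z => pP z - pP t)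
      fun z => 2 * pQ z - pQ (z - t) - pQ (z + t) := by
  refine ⟨fun z => pQ z / (pP z - pP t), fun z => 2 * pP z - pP (z - t) - pP (z + t),
    fun z ⟨h0, h1, h2⟩ => ?_⟩
  have h3 := pP_ne h0 ht h1 h2
  have h4 := sub_ne_zero.2 h3
  refine ⟨h4, ((dP h0).sub_const _).congr_deriv (div_mul_cancel₀ _ h4).symm,
    ((dQ h0).fun_div ((dP h0).sub_const _) h4).congr_deriv ?_,
    (((dP h0).const_mul 2).fun_sub ((dP h1).comp_sub_const z t)).fun_sub
      ((dP h2).comp_add_const z t)⟩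
  have e1 : ((pQ z - pQ t) / (pP z - pP t)) ^ 2 / 4 - pP z - pP t = pP (z + t) :=
    (add_formula h0 ht h2 h3).1
  have e2 : ((pQ z - pQ (-t)) / (pP z - pP (-t))) ^ 2 / 4 - pP z - pP (-t) = pP (z + -t) :=
    (add_formula h0 (mt LL.lattice.neg_mem_iff.1 ht) (by rwa [← sub_eq_add_neg])
      (h3.trans_eq (pP_neg t).symm)).1
  rw [pP_neg, pQ_neg, ← sub_eq_add_neg z] at e2
  beta_reduce
  rw [← e1, ← e2]
  field_simp
  linear_combination (-2) * pQ_sq h0 + 2 * pQ_sq ht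

/-- periodic open sets with countable complement -/
structure Gd (U : Set ℂ) : Prop where
  op : IsOpen U
  cnt : Uᶜ.Countable
  per : ∀ z ∈ U, ∀ l ∈ LL.lattice, z + l ∈ U

theorem Gd.inter (a : Gd U) (b : Gd V) : Gd (U ∩ V) :=
  ⟨a.op.inter b.op, by rw [Set.compl_inter]; exact a.cnt.union b.cnt,
    fun z hz l hl => ⟨a.per z hz.1 l hl, b.per z hz.2 l hl⟩⟩

theorem gd_aff {α : ZI} (hα : α ≠ 0) (β : ℂ) : Gd {z | cK α * z + β ∉ LL.lattice} :=
  ⟨LL.isClosed_lattice.isOpen_compl.preimage (f := fun z => cK α * z + β) (by fun_prop),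
    ((R1.AddA.cnt LL).preimage (f := fun z => cK α * z + β) fun _ _ e =>
      mul_left_cancel₀ (cK_ne hα) (add_right_cancel e)).mono fun _ h => not_not.1 h,
    fun z hz l hl h => hz (by
      rwa [mul_add, add_right_comm, LL.lattice.add_mem_iff_left (mul_mem α hl)] at h)⟩

theorem Gd.const (a : Gd U) (d : ∀ z ∈ U, HasDerivAt f 0 z) : ∃ c, ∀ z ∈ U, f z = c :=
  a.op.exists_is_const_of_deriv_eq_zero (compl_compl U ▸ R1.AddA.conn a.cnt)
    (fun z hz => (d z hz).differentiableAt.differentiableWithinAt) fun z hz => (d z hz).deriv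

theorem Gd.uniq (hU : Gd U) (a : LD U f h) (b : LD U g h)
    (pf : ∀ z, ∀ l ∈ LL.lattice, f (z + l) = f z) (pg : ∀ z, ∀ l ∈ LL.lattice, g (z + l) = g z) :
    ∃ c, ∀ z ∈ U, f z = c * g z := by
  obtain ⟨l, m, a⟩ := a
  obtain ⟨l', m', b⟩ := b
  obtain ⟨w, hw⟩ := (hU.cnt.isConnected_compl_of_one_lt_rank (by simp)).nonempty
  rw [compl_compl] at hw
  have per : ∀ {f l : ℂ → ℂ}, (∀ z ∈ U, f z ≠ 0 ∧ HasDerivAt f (l z * f z) z) →
      (∀ z, ∀ l ∈ LL.lattice, f (z + l) = f z) → l (w + LL.ω₁) = l w := fun {f l} a p => by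
    have h1 := (a _ (hU.per w hw _ LL.ω₁_mem_lattice)).2.comp_add_const w LL.ω₁
    simp only [p _ _ LL.ω₁_mem_lattice] at h1
    exact mul_right_cancel₀ (a w hw).1 (h1.unique (a w hw).2)
  obtain ⟨c₂, h2⟩ := hU.const (f := fun z => m z - m' z) fun z hz =>
    ((a z hz).2.2.2.fun_sub (b z hz).2.2.2).congr_deriv (sub_self _)
  obtain ⟨c₁, h1⟩ := hU.const (f := fun z => l z - l' z - c₂ * z) fun z hz =>
    (((a z hz).2.2.1.fun_sub (b z hz).2.2.1).fun_sub ((hasDerivAt_id z).const_mul c₂)).congr_deriv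
      (by rw [h2 z hz, mul_one, sub_self])
  obtain rfl : c₂ = 0 := mul_right_cancel₀ Ω0_ne (by
    have e1 := h1 _ (hU.per w hw _ LL.ω₁_mem_lattice)
    rw [per (fun z hz => ⟨(a z hz).1, (a z hz).2.1⟩) pf,
      per (fun z hz => ⟨(b z hz).1, (b z hz).2.1⟩) pg, show LL.ω₁ = Ω0 from rfl] at e1
    linear_combination h1 w hw - e1)
  obtain ⟨c, h0⟩ := hU.const (f := fun z => f z / g z * cexp (-c₁ * z)) fun z hz =>
    (((a z hz).2.1.fun_div (b z hz).2.1 (b z hz).1).fun_mul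
      ((hasDerivAt_id z).const_mul (-c₁)).cexp).congr_deriv (by
        have := (b z hz).1
        rw [← h1 z hz]
        field_simp
        simp)
  have e : ∀ l ∈ LL.lattice, ∃ n : ℤ, -c₁ * l = n * (2 * π * I) := fun l hl => by
    have e1 := (h0 _ (hU.per w hw l hl)).trans (h0 w hw).symm
    rw [pf _ _ hl, pg _ _ hl, mul_add, Complex.exp_add, ← mul_assoc] at e1
    exact exp_eq_one_iff.1 ((mul_eq_left₀ (mul_ne_zero (div_ne_zero (a w hw).1 (b w hw).1)
      (exp_ne_zero _))).1 e1)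
  obtain ⟨n, hn⟩ := e _ LL.ω₁_mem_lattice
  obtain ⟨n', hn'⟩ := e _ LL.ω₂_mem_lattice
  have e2 : (n' : ℂ) = n * I := mul_right_cancel₀ two_pi_I_ne_zero (by
    rw [show LL.ω₁ = Ω0 from rfl] at hn
    rw [show LL.ω₂ = I * Ω0 from rfl] at hn'
    linear_combination I * hn - hn')
  obtain rfl : n = 0 := by simpa using (congrArg im e2).symm
  obtain rfl : c₁ = 0 := by simpa [show LL.ω₁ = Ω0 from rfl, Ω0_ne] using hn
  exact ⟨c, fun z hz => by simpa [div_eq_iff (b z hz).1] using h0 z hz⟩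

end Pool.Agent.P.MP_8b7eba_nt.QT.CG.A1
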