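import Pool.Agent.P.MP_8b7eba_nt.CG.Defs

/-! The values of the quartic character at Gaussian integers. -/

namespace Pool.Agent.P.MP_8b7eba_nt.QT.CG

variable {D : ℤ} {χ : ZI → ZI} {b : ZI}

theorem unit_four {u : ZI} (hu : IsUnit u) : u ^ 4 = 1 := by
  have h1 : u.norm = 1 := (Zsqrtd.norm_eq_one_iff' (by norm_num) u).2 hu
  obtain ⟨a, b⟩ := u
  have h3 : a * a + b * b = 1 := by simpa [Zsqrtd.norm_def] using h1
  have a1 : -1 ≤ a := by nlinarith
  have a2 : a ≤ 1 := by nlinarith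
  have b1 : -1 ≤ b := by nlinarith
  have b2 : b ≤ 1 := by nlinarith
  interval_cases a <;> interval_cases b <;> first | decide | simp at h3

theorem cop_int {m n : ℤ} : IsCoprime (m : ZI) (n : ZI) ↔ IsCoprime m n :=
  ⟨fun ⟨x, y, h⟩ => ⟨x.re, y.re, by simpa using congrArg Zsqrtd.re h⟩,
    fun h => by simpa using h.map (Int.castRingHom ZI)⟩

theorem cop_int16 {m : ℤ} : IsCoprime (m : ZI) (16 * D) ↔ IsCoprime m (16 * D) := by
  rw [← cop_int, Int.cast_mul, Int.cast_ofNat]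

theorem cop_star16 : IsCoprime (star b) (16 * D) ↔ IsCoprime b (16 * D) := by
  have k : ∀ b : ZI, IsCoprime b (16 * D) → IsCoprime (star b) (16 * D) := fun b h => by
    have := h.map (starRingEnd ZI)
    rwa [map_mul, map_intCast, map_ofNat] at this
  exact ⟨fun h => by simpa using k _ h, k b⟩

theorem cop_norm16 : IsCoprime b.norm (16 * D) ↔ IsCoprime b (16 * D) := by
  rw [← cop_int16, Zsqrtd.norm_eq_mul_conj, IsCoprime.mul_left_iff, cop_star16, and_self]

theorem IsChi.norm (h : IsChi D χ) (b : ZI) : χ b.norm = (χ b).norm := by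
  rw [Zsqrtd.norm_eq_mul_conj, Zsqrtd.norm_eq_mul_conj, h.1, h.2.2.2.2.2.1]

theorem IsChi.zero (h : IsChi D χ) (hb : ¬ IsCoprime b (16 * D)) : χ b = 0 := by
  have := h.2.2.1 _ (mt cop_norm16.1 hb)
  rwa [h.norm, Int.cast_eq_zero, GaussianInt.norm_eq_zero] at this

theorem IsChi.norm_one (h : IsChi D χ) (hb : IsCoprime b (16 * D)) : (χ b).norm = 1 := by
  have := h.2.2.2.1 _ (cop_norm16.2 hb)
  rw [h.norm, ← Int.cast_pow, Int.cast_eq_one] at this
  exact (pow_eq_one_iff_of_nonneg (GaussianInt.norm_nonneg _) four_ne_zero).1 this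

theorem IsChi.unit (h : IsChi D χ) (hb : IsCoprime b (16 * D)) : IsUnit (χ b) :=
  (Zsqrtd.norm_eq_one_iff' (by norm_num) _).1 (h.norm_one hb)

theorem IsChi.four (h : IsChi D χ) (hb : IsCoprime b (16 * D)) : χ b ^ 4 = 1 :=
  unit_four (h.unit hb)

theorem IsChi.mul_star (h : IsChi D χ) (hb : IsCoprime b (16 * D)) : χ b * star (χ b) = 1 := by
  rw [← Zsqrtd.norm_eq_mul_conj, h.norm_one hb, Int.cast_one]

end Pool.Agent.P.MP_8b7eba_nt.QT.CG
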