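import Pool.Agent.P.MP_8b7eba_nt.QT.DefG

/-! Definitions for the Kolyvagin argument over the Gaussian field. -/

namespace Pool.Agent.P.MP_8b7eba_nt.CG

open R2 Filter Topology Module
open QT (O Cy)

noncomputable section

/-- the cyclotomic logarithm -/
def la (g : GQ) : ℤ_[2] := lg (cyc g)

/-- the Galois group of the Gaussian field -/
def GK : Subgroup GQ := MulAction.stabilizer GQ (rt (-1))

/-- Gaussian integers as algebraic numbers -/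
def gi (a : GaussianInt) : Om := a.re + a.im * rt (-1)

/-- the commutator -/
def cm (g h : GQ) : GQ := g * h * g⁻¹ * h⁻¹

/-- the Kummer exponent of `v` at `c`, modulo `2 ^ k` -/
def kum (k : ℕ) (c : GQ) (v : Om) : ℚ_[2] :=
  Classical.epsilon fun a => ‖a‖ ≤ 1 ∧ ∀ r, r ^ 2 ^ k = v → c r = ec (a / 2 ^ k) * r

/-- the arithmetic data -/
structure Dat where
  n : ℕ
  ρ : GQ → O
  w : Pl
  z : GQ
  h : GQ
  n0 : n ≠ 0
  cy : Cy ρ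
  w2 : w.p = 2
  unr : ∀ v : Pl, ¬ v.p ∣ 2 * n → ∀ g ∈ v.I, ρ g = 1
  ram : ∀ v : Pl, v.p ≠ 2 → v.p ∣ n → ∃ g ∈ v.I, ρ g ≠ 1
  zD : z ∈ w.D ⊓ GK
  zc : cyc z = 1
  zr : ρ z ≠ 1
  hD : h ∈ w.D ⊓ GK

/-- a system of units: `th m` lies in the fixed field of `N m` -/
structure ES (D : Dat) where
  N : GaussianInt → Subgroup GQ
  th : GaussianInt → Om
  B : ℕ
  op : ∀ m, m ≠ 0 → IsOpen (N m : Set GQ)
  le : ∀ m, N m ≤ GK
  ab : ∀ m, ∀ g ∈ GK, ∀ h ∈ GK, cm g h ∈ N m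
  anti : ∀ m m', m ∣ m' → m' ≠ 0 → N m' ≤ N m
  unr : ∀ m (v : Pl), ¬ v.p ∣ 2 * D.n → v.v (gi m) = 1 → v.I ≤ N m
  rho : ∀ k : ℕ, ∀ g ∈ N (2 ^ (k + 2)), 2 ^ k ∣ D.ρ g - 1
  fix : ∀ m, m ≠ 0 → 4 ∣ m → th m ≠ 0 ∧ Fix (N m) (th m)
  two : ∀ m, m ≠ 0 → 4 ∣ m →
    ∃ u, IsOfFinOrder u ∧ nrm (N m) (N (m * 2)) (th (m * 2)) = u * th m
  kol : ∀ v : Pl, B < v.p → v.p % 4 = 1 → ∃ l : GaussianInt, l.norm = v.p ∧ v.v (gi l) < 1 ∧
    (∃ c : GK →* (ZMod v.p)ˣ, (∀ g : GK, g.1 ∈ N l → c g = 1) ∧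
      ∃ g : GK, g.1 ∈ v.I ∧ ¬ IsSquare (c g)) ∧
    ∀ m φ, m ≠ 0 → 4 ∣ m → v.v (gi m) = 1 → v.IsFrob 1 φ →
      ∃ u, IsOfFinOrder u ∧ nrm (N m) (N (m * l)) (th (m * l)) * φ⁻¹ (th m) = u * th m

/-- the value at a weight `F` of the measure attached to an element `c` of the commutator
subgroup -/
def ES.mu {D : Dat} (E : ES D) {W : Type} [AddCommGroup W] [Module ℚ_[2] W] (k : ℕ)
    (m : GaussianInt) (c : GQ) (F : GQ → W) : W :=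
  csum GK (E.N m) fun σ => kum k c (σ (E.th m)) • F σ

section

variable {A : Type} [NormedCommRing A] [NormedAlgebra ℚ_[2] A]

/-- the image of a 2-adic Gaussian integer -/
def jo (ι : A) (a : O) : A := (a.re : ℚ_[2]) • 1 + (a.im : ℚ_[2]) • ι

/-- coefficients: a square root of `-1` and a character -/
structure Cf (ι : A) (ψ : ℤ_[2] → A) : Prop extends IsPsi ψ where
  sq : ι * ι = -1
  le1 : ‖ι‖ ≤ 1

/-- the character; the dual character is `D.xi (-ι) (bar ψ)` -/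
def Dat.xi (D : Dat) (ι : A) (ψ : ℤ_[2] → A) (g : GQ) : A := ψ (la g) * jo ι (D.ρ g)

/-- the representation -/
def Dat.r (D : Dat) (ι : A) (ψ : ℤ_[2] → A) (g : GQ) : A →ₗ[ℚ_[2]] A :=
  LinearMap.mul ℚ_[2] A (D.xi ι ψ g)

/-- normalised cocycles which are unramified outside `2 n` -/
structure Dat.Rel (D : Dat) (ι : A) (ψ : ℤ_[2] → A) (x : GS → A) : Prop where
  pz : PZ (fun _ => GK) (D.r ι ψ) x
  off : ∀ g, g ∉ S1 GK → x g = 0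
  nz : x (cs D.z) = 0
  unr : ∀ (w : ℕ → Pl) (g : GS), (∀ᶠ k in UF, g k ∈ (w k).I ∧ ¬ (w k).p ∣ 2 * D.n) → x g = 0

/-- the Selmer group of the element `h` -/
def Dat.Sel (D : Dat) (ι : A) (ψ : ℤ_[2] → A) (x : GS → A) : Prop :=
  D.Rel ι ψ x ∧ x (cs D.h) = 0

/-- the strict Selmer group -/
def Dat.Str (D : Dat) (ι : A) (ψ : ℤ_[2] → A) (x : GS → A) : Prop :=
  D.Rel ι ψ x ∧ ∀ g ∈ S1 (D.w.D ⊓ GK), x g = 0

open Classical in
/-- the class of the system of units -/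
def ES.kap {D : Dat} (E : ES D) (ι : A) (ψ : ℤ_[2] → A) (g : GS) : A :=
  if g ∈ S1 GK then
    ul fun k => E.mu k (2 ^ (k + 2)) (cm D.z (g k)) fun σ => (cq σ)⁻¹ • D.xi ι ψ σ
  else 0

end

/-- the class of the system of units is a normalised cocycle -/
def KAP : Prop :=
  ∀ (D : Dat) (E : ES D) (A : Type) [NormedCommRing A] [NormedAlgebra ℚ_[2] A]
    [IsUltrametricDist A] [FiniteDimensional ℚ_[2] A] (ι : A) (ψ : ℤ_[2] → A), Cf ι ψ →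
    Ap (fun _ => GK)
      (fun k g => E.mu k (2 ^ (k + 2)) (cm D.z g) fun σ => (cq σ)⁻¹ • D.xi ι ψ σ) (E.kap ι ψ) ∧
    D.Rel ι ψ (E.kap ι ψ)

/-- the upper bound for the Selmer groups of a character and of its dual -/
def UB : Prop :=
  ∀ (D : Dat) (E : ES D) (A : Type) [NormedCommRing A] [NormedAlgebra ℚ_[2] A]
    [IsUltrametricDist A] [FiniteDimensional ℚ_[2] A] (A' : Type) [NormedCommRing A']
    [NormedAlgebra ℚ_[2] A'] [IsUltrametricDist A'] [FiniteDimensional ℚ_[2] A']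
    (φ : A →ₐ[ℚ_[2]] A') (ι π : A) (ψ : ℤ_[2] → A) (j m e a b : ℕ), Cf ι ψ → Cf (φ ι) (φ ∘ ψ) →
    Function.Surjective φ → Chain π (j + m) e → Chain (φ π) j e → a + b < m → m ≤ j →
    π ^ (j + m - a - 1) * E.kap ι ψ (cs D.h) ≠ 0 →
    π ^ (j + m - b - 1) * E.kap (-ι) (bar ψ) (cs D.h) ≠ 0 →
    ∀ M M' : Submodule A' (GS → A'), FiniteDimensional ℚ_[2] M → FiniteDimensional ℚ_[2] M' →
      (∀ x ∈ M, D.Sel (φ ι) (φ ∘ ψ) x) → (∀ x ∈ M', D.Sel (-φ ι) (bar (φ ∘ ψ)) x) →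
      finrank ℚ_[2] M + finrank ℚ_[2] M' ≤ e * (a + b) ∧
      ((∀ x, D.Str (φ ι) (φ ∘ ψ) x → φ π • x = 0 → x = 0) →
        π ^ (j + m - 1) • E.kap (-ι) (bar ψ) = 0 →
        finrank ℚ_[2] M + finrank ℚ_[2] M' + e ≤ e * (a + b))

end

end Pool.Agent.P.MP_8b7eba_nt.CG
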