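import Pool.Agent.P.MP_8b7eba_nt.QT.FA
import Pool.Agent.P.MP_8b7eba_nt.SM.All

/-! Shared definitions for the project CG. -/

namespace Pool.Agent.P.MP_8b7eba_nt.QT.CG

open R2 SM Polynomial
open MP_9c97e9_nt (Pt pm Is)

noncomputable section

/-! ### The Gaussian field -/

/-- the Gaussian integers -/
abbrev ZI : Type := GaussianInt

/-- the image of `i` in the algebraic numbers -/
def iK : Om := -rt (-1)

/-- the embedding in the algebraic numbers -/
def eK : ZI →+* Om := Zsqrtd.lift ⟨iK, by simpa [iK, sq] using I_sq⟩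

/-- the embedding in the 2-adic Gaussian integers -/
def eO : ZI →+* O := Zsqrtd.lift ⟨ii, by simpa [sq] using ii_sq⟩

/-- the unit `i` -/
def iz : ZI := ⟨0, 1⟩

/-- the prime `1 + i` -/
def pz : ZI := ⟨1, 1⟩

/-- primary elements -/
def Prim (b : ZI) : Prop := pz ^ 3 ∣ b - 1

/-- the Galois group of the Gaussian field -/
def GK : Subgroup GQ := MulAction.stabilizer GQ (rt (-1))

/-- the layers of the cyclotomic tower -/
def KC (n : ℕ) : Subgroup GQ := KP n ⊓ GK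

/-- the place above two -/
abbrev w2 : Pl := pl 2

/-- the decomposition group over the Gaussian field -/
def D2 : Subgroup GQ := w2.D ⊓ GK

/-- the cyclotomic logarithm -/
def la (g : GQ) : ℤ_[2] := lg (cyc g)

/-! ### The lemniscatic curve -/

/-- the algebraic points of `y² = x³ - x` -/
abbrev EE : Type := Pt (W 1) Om

/-- the Galois action -/
def ga (g : GQ) : EE →+ EE := pm (W 1) (g : Om →+* Om)

theorem exists_cmi : ∃ f : EE →+ EE, Function.Bijective f ∧ IsSc (rt (-1)) f :=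
  CB.exists_sc one_ne_zero one_ne_zero (by
    rw [show rt (-1) ^ 4 = (rt (-1) ^ 2) ^ 2 by ring, I_sq]; simp)

/-- the complex multiplication by `i` -/
def cmi : EE →+ EE := exists_cmi.choose

theorem is_cmi {P : EE} {x η : Om} (h : Is P x η) : Is (cmi P) (-x) (iK * η) := by
  have := exists_cmi.choose_spec.2 P x η h
  rwa [I_sq, pow_succ, I_sq, neg_one_mul, neg_one_mul] at this

theorem cmi_cmi (P : EE) : cmi (cmi P) = -P := by
  rcases MP_9c97e9_nt.zero_or_is P with rfl | ⟨x, η, h⟩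
  · simp
  refine (is_cmi (is_cmi h)).unique (CB.sp one_ne_zero) ?_
  convert h.neg using 1
  · simp
  · simp only [iK]; linear_combination η * I_sq

instance : Module ZI EE where
  smul b P := b.re • P + b.im • cmi P
  one_smul P := by change (1 : ℤ) • P + (0 : ℤ) • cmi P = P; simp
  mul_smul a b P := by
    change (a * b).re • P + (a * b).im • cmi P =
      a.re • (b.re • P + b.im • cmi P) + a.im • cmi (b.re • P + b.im • cmi P)
    simp only [Zsqrtd.re_mul, Zsqrtd.im_mul, map_add, map_zsmul, cmi_cmi]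
    module
  smul_zero a := by change a.re • (0 : EE) + a.im • cmi 0 = 0; simp
  smul_add a P Q := by
    change a.re • (P + Q) + a.im • cmi (P + Q) =
      a.re • P + a.im • cmi P + (a.re • Q + a.im • cmi Q)
    rw [map_add]; module
  add_smul a b P := by
    change (a.re + b.re) • P + (a.im + b.im) • cmi P =
      a.re • P + a.im • cmi P + (b.re • P + b.im • cmi P)
    module
  zero_smul P := by change (0 : ℤ) • P + (0 : ℤ) • cmi P = 0; simp

theorem smul_def (b : ZI) (P : EE) : b • P = b.re • P + b.im • cmi P := rfl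

/-- the first coordinate -/
def xc {D : ℤ} : Pt (W D) Om → Om
  | .zero => 0
  | .some x _ _ => x

/-- twice the second coordinate -/
def yc {D : ℤ} : Pt (W D) Om → Om
  | .zero => 0
  | .some _ y _ => 2 * y

/-- `g` acts on the `M`-torsion as multiplication by `b` -/
def Ar (M : ZI) (g : GQ) (b : ZI) : Prop := ∀ P : EE, M • P = 0 → ga g P = b • P

theorem ga_mul (g h : GQ) (P : EE) : ga (g * h) P = ga g (ga h P) := MP_9c97e9_nt.pm_mul g h P

theorem ga_one (P : EE) : ga 1 P = P := MP_9c97e9_nt.pm_one P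

/-- the Galois group of the field of the `M`-torsion -/
def NM (M : ZI) : Subgroup GQ where
  carrier := {g | g ∈ GK ∧ ∀ P : EE, M • P = 0 → ga g P = P}
  one_mem' := ⟨GK.one_mem, fun P _ => ga_one P⟩
  mul_mem' := fun a b => ⟨GK.mul_mem a.1 b.1, fun P h => by rw [ga_mul, b.2 P h, a.2 P h]⟩
  inv_mem' := fun {g} a => ⟨GK.inv_mem a.1, fun P h => by
    conv_lhs => rw [← a.2 P h]
    rw [← ga_mul, inv_mul_cancel, ga_one]⟩

theorem mem_NM {M : ZI} {g : GQ} : g ∈ NM M ↔ g ∈ GK ∧ ∀ P : EE, M • P = 0 → ga g P = P := Iff.rfl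

/-- `P` generates the `M`-torsion -/
def Gn (M : ZI) (P : EE) : Prop := (∀ b : ZI, b • P = 0 ↔ M ∣ b) ∧ ∀ Q : EE, M • Q = 0 → ∃ b : ZI, Q = b • P

/-- a compatible system of generators -/
def gen : ZI → EE := Classical.epsilon fun γ =>
  ∀ M, M ≠ 0 → Gn M (γ M) ∧ ∀ l, l ≠ 0 → l • γ (M * l) = γ M

/-- the first coordinates of the nonzero torsion points -/
def XT (a : ZI) : Set Om := xc '' {R : EE | R ≠ 0 ∧ a • R = 0}

/-- an elliptic function with a constant -/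
def thc (a : ZI) (c : Om) (P : EE) : Om := c / ∏ᶠ ξ ∈ XT a, (xc P - ξ)

/-- the normalised elliptic function -/
def th (a : ZI) : EE → Om := thc a (Classical.epsilon fun c => c ≠ 0 ∧
  ∀ P : EE, (a * pz) • P ≠ 0 → ∏ᶠ R : {R : EE // pz • R = 0}, thc a c (P + R) = thc a c (pz • P))

/-- its logarithmic derivative -/
def dl (a : ZI) (P : EE) : Om := -∑ᶠ ξ ∈ XT a, yc P / (xc P - ξ)

/-- auxiliary primes -/
def Adm (D : ℤ) (a : ZI) : Prop := Prime a ∧ Prim a ∧ a.norm % 8 = 5 ∧ IsCoprime a.norm D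

/-- the lattice of the curve -/
def r1 : GQ → O := (CB.tate one_ne_zero).choose

/-- the points of 2-power order -/
def e1 : ℕ → O →+ EE := (CB.tate one_ne_zero).choose_spec.choose

theorem tm1 : TM 1 r1 e1 ∧ Cm 1 e1 := (CB.tate one_ne_zero).choose_spec.choose_spec

/-- the lattice of the twist -/
def rho (δ : Om) (g : GQ) : O := r1 g * kd δ g

/-- the quartic cocycle as a Gaussian unit -/
def ku (δ : Om) (g : GQ) : ZI := iz ^ (ke δ g : ℕ)

/-- the twisted Galois action -/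
def tac (δ : Om) (g : GQ) (P : EE) : EE := ku δ g • ga g P

/-! ### Kummer theory -/

/-- a compatible system of roots -/
def rtn (x : Om) : ℕ → Om
  | 0 => x
  | n + 1 => Classical.epsilon fun β => β ^ 2 = rtn x n

/-- the Kummer cochain -/
def kc (g : GQ) (x : Om) : ℤ_[2] :=
  Classical.epsilon fun a : ℤ_[2] => ∀ n, g (rtn x n) = ec ((a : ℚ_[2]) / 2 ^ n) * rtn (g x) n

/-- `κ` is a Kummer cocycle of the point `P` -/
def Kum (D : ℤ) (e : ℕ → O →+ Pt (W D) Om) (H : Subgroup GQ) (P : Pt (W D) Om) (κ : GQ → O) : Prop :=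
  ∃ Q : ℕ → Pt (W D) Om, Q 0 = P ∧ (∀ n, 2 • Q (n + 1) = Q n) ∧
    ∀ n, ∀ g ∈ H, e n (κ g) = pm (W D) (g : Om →+* Om) (Q n) - Q n

/-- the Selmer group has corank zero -/
def Zer (D : ℤ) (ρ : GQ → O) (e : ℕ → O →+ Pt (W D) Om) : Prop :=
  ∃ P κ, 1 < w2.v (xc P) ∧ Kum D e w2.D P κ ∧ ∀ X, (∀ n, Zu ρ D.natAbs.primeFactors n X) →
    (∀ n, Triv w2.D (wp 1 ρ n X κ)) → Ex false ρ ⊤ X

/-- good integers -/
def GoodP (D : ℤ) : Prop :=
  D ≠ 0 ∧ {q : ℚ × ℚ | q.2 ^ 2 = q.1 ^ 3 + ((-D : ℤ) : ℚ) * q.1 + ((0 : ℤ) : ℚ)}.Finite ∧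
    ∃ (δ : Om) (f : EE →+ Pt (W D) Om), δ ^ 4 = D ∧ Function.Bijective f ∧ IsSc δ f ∧
      Zer D (rho δ) fun n => f.comp (e1 n)

/-- the L-function of `y² = x³ + A x + B` -/
def IsLF (A B : ℤ) (f : ℂ → ℂ) : Prop :=
  Differentiable ℂ f ∧ ∀ s : ℂ, (3 : ℝ) / 2 < s.re →
    HasProd
      (fun p : {p : ℕ // p.Prime ∧ ¬ ((p : ℤ) ∣ 2 * (4 * A ^ 3 + 27 * B ^ 2))} =>
        ((1 : ℂ)
          - ((((p.1 : ℤ) - (Nat.card {q : ZMod p.1 × ZMod p.1 //
                q.2 ^ 2 = q.1 ^ 3 + (A : ZMod p.1) * q.1 + (B : ZMod p.1)} : ℤ)) : ℤ) : ℂ)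
              * ((p.1 : ℂ) ^ (-s))
          + (p.1 : ℂ) ^ (1 - 2 * s))⁻¹)
      (f s)

/-- the levels -/
def lv (D : ℤ) (k : ℕ) : ZI := 2 ^ k * (16 * D)

/-- the quartic character -/
def IsChi (D : ℤ) (χ : ZI → ZI) : Prop :=
  (∀ b c, χ (b * c) = χ b * χ c) ∧ (∀ b c, χ (b + 16 * D * c) = χ b) ∧
  (∀ b, ¬ IsCoprime b (16 * D) → χ b = 0) ∧ (∀ b, IsCoprime b (16 * D) → χ b ^ 4 = 1) ∧
  (∀ u, IsUnit u → χ u * u = 1) ∧ (∀ b, χ (star b) = star (χ b)) ∧
  (∀ β, Prime β → Prim β → IsCoprime β (16 * D) → β ∣ χ β * D ^ ((β.norm.natAbs - 1) / 4) - 1) ∧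
  ∀ δ : Om, δ ^ 4 = D → ∀ g ∈ GK, ∀ b, Ar (16 * D) g b → χ b = ku δ g

end

end Pool.Agent.P.MP_8b7eba_nt.QT.CG
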