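import Pool.Agent.P.MP_8b7eba_nt.CG.IfE

/-! Symbols attached to families of units and of characters. -/

namespace Pool.Agent.P.MP_8b7eba_nt.QT.CG

open R2 SM Finset

variable {J J' : Type} [Fintype J] [Fintype J'] {H : Subgroup GQ} {b : GQ → J → J}
  {b' : GQ → J' → J'} {i : ℕ} {u u' r : J → Om} {c c' : J → GQ → Z2}

/-- an integer which represents a 2-adic integer -/
noncomputable def ap (i : ℕ) (x : Z2) : ℤ := (PadicInt.toZModPow i x).val

theorem dvd_zm {x : Z2} : 2 ^ i ∣ x ↔ PadicInt.toZModPow i x = 0 := by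
  rw [← RingHom.mem_ker, PadicInt.ker_toZModPow, Ideal.mem_span_singleton, Nat.cast_ofNat]

theorem ap_spec (i : ℕ) (x : Z2) : 2 ^ i ∣ x - ap i x := by
  rw [dvd_zm, map_sub, ap, map_intCast, Int.cast_natCast, ZMod.natCast_zmod_val, sub_self]

theorem ap_congr {x y : Z2} (h : 2 ^ i ∣ x - y) : ap i x = ap i y := by
  rw [dvd_zm, map_sub, sub_eq_zero] at h
  rw [ap, h, ap]

theorem zpow_of {ζ : Om} (hζ : ζ ^ 2 ^ i = 1) {m n : ℤ} (h : (2 : Z2) ^ i ∣ m - n) :
    ζ ^ m = ζ ^ n := by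
  obtain ⟨t, ht⟩ := (PadicInt.pow_p_dvd_int_iff (p := 2) i (m - n)).1 (by exact_mod_cast h)
  have h0 : ζ ≠ 0 := fun e => by simp [e] at hζ
  rw [show m = n + (2 ^ i : ℕ) * t by push_cast at ht ⊢; linear_combination ht, zpow_add₀ h0,
    zpow_mul, zpow_natCast, hζ, one_zpow, mul_one]

/-- right actions -/
structure RA (H : Subgroup GQ) (b : GQ → J → J) : Prop where
  one : ∀ j, b 1 j = j
  mul : ∀ g ∈ H, ∀ h ∈ H, ∀ j, b (g * h) j = b h (b g j)
  sm : Sm H b

/-- equivariant families of units -/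
def Ev (H : Subgroup GQ) (b : GQ → J → J) (u : J → Om) : Prop :=
  (∀ j, u j ≠ 0) ∧ ∀ g ∈ H, ∀ j, g (u (b g j)) = u j

/-- families of characters -/
structure Cc (H : Subgroup GQ) (b : GQ → J → J) (i : ℕ) (c : J → GQ → Z2) : Prop where
  sm : ∃ N, ON N ∧ ∀ g ∈ H, ∀ n ∈ H, n ∈ N → ∀ j, 2 ^ i ∣ c j (g * n) - c j g
  co : ∀ g ∈ H, ∀ h ∈ H, ∀ j, 2 ^ i ∣ c j g + c (b g j) h - c j (g * h)

/-- the cup product -/
noncomputable def Kf (b : GQ → J → J) (r : J → Om) (c : J → GQ → ℤ) (g h : GQ) : Om :=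
  ∏ j, (g (r (b g j)) / r j) ^ c (b g j) h

/-- the symbol vanishes -/
def Ks (H : Subgroup GQ) (b : GQ → J → J) (i : ℕ) (u : J → Om) (c : J → GQ → Z2) : Prop :=
  ∃ r, (∀ j, r j ^ 2 ^ i = u j) ∧ Triv H (Kf b r fun j g => ap i (c j g))

omit [Fintype J] in
theorem RA.bij (h : RA H b) {g : GQ} (hg : g ∈ H) : Function.Bijective (b g) :=
  Function.bijective_iff_has_inverse.2 ⟨b g⁻¹,
    fun j => by rw [← h.mul g hg _ (inv_mem hg), mul_inv_cancel, h.one],
    fun j => by rw [← h.mul _ (inv_mem hg) g hg, inv_mul_cancel, h.one]⟩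

theorem core (h : RA H b) (hr : ∀ j, r j ≠ 0) {c : J → GQ → ℤ} (hc : Sm H fun g j => c j g) :
    Triv H fun g k => Kf b r c g k * ∏ j, r j ^ (c j g + c (b g j) k - c j (g * k)) := by
  refine ⟨fun g => ∏ j, r j ^ c j g, hc.comp fun e => ∏ j, r j ^ e j,
    fun g _ => prod_ne_zero_iff.2 fun j _ => zpow_ne_zero _ (hr j), fun g hg k _ => ?_⟩
  beta_reduce
  rw [map_prod, ← (h.bij hg).prod_comp fun j => g (r j ^ c j k), Kf, ← prod_mul_distrib,
    ← prod_mul_distrib, ← prod_mul_distrib]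
  refine prod_congr rfl fun j _ => ?_
  have := hr j
  rw [map_zpow₀, div_zpow, zpow_sub₀ this, zpow_add₀ this]
  field_simp

omit [Fintype J] in
theorem Ev.root (hu : Ev H b u) (hr : ∀ j, r j ^ 2 ^ i = u j) {g : GQ} (hg : g ∈ H) (j : J) :
    (g (r (b g j)) / r j) ^ 2 ^ i = 1 := by
  rw [div_pow, ← map_pow, hr, hr, hu.2 g hg, div_self (hu.1 j)]

omit [Fintype J] in
theorem Ev.ne (hu : Ev H b u) (hr : ∀ j, r j ^ 2 ^ i = u j) (j : J) : r j ≠ 0 := fun e =>
  hu.1 j (by rw [← hr, e, zero_pow (by positivity)])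

omit [Fintype J] in
theorem Ev.div (hu : Ev H b u) (hu' : Ev H b u') : Ev H b fun j => u j / u' j :=
  ⟨fun j => div_ne_zero (hu.1 j) (hu'.1 j), fun g hg j => by rw [map_div₀, hu.2 g hg, hu'.2 g hg]⟩

omit [Fintype J] in
theorem Cc.sm' (hc : Cc H b i c) : Sm H fun g j => ap i (c j g) :=
  let ⟨N, a, e⟩ := hc.sm; ⟨N, a, fun g hg n hn m => funext fun j => ap_congr (e g hg n hn m j)⟩

theorem Kf_mul (r r' : J → Om) (c : J → GQ → ℤ) :
    Kf b (fun j => r j * r' j) c = Kf b r c * Kf b r' c := by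
  funext g h
  simp only [Kf, Pi.mul_apply, ← prod_mul_distrib, map_mul, ← mul_zpow, div_mul_div_comm]

theorem Ks.all (h : RA H b) (hu : Ev H b u) (hc : Cc H b i c) (hk : Ks H b i u c)
    (hr : ∀ j, r j ^ 2 ^ i = u j) : Triv H (Kf b r fun j g => ap i (c j g)) := by
  obtain ⟨r', hr', t⟩ := hk
  have h0 := hu.ne hr'
  rw [show r = fun j => r' j * (r j / r' j) from funext fun j => (mul_div_cancel₀ _ (h0 j)).symm,
    Kf_mul]
  refine t.mul ((core h (fun j => div_ne_zero (hu.ne hr j) (h0 j)) hc.sm').congr fun g hg k hk => ?_)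
  rw [prod_eq_one fun j _ => ?_, mul_one]
  rw [zpow_of (i := i) (n := 0) (by rw [div_pow, hr, hr', div_self (hu.1 j)]) ?_, zpow_zero]
  have := ((hc.co g hg k hk j).sub (ap_spec i (c j g))).sub ((ap_spec i (c (b g j) k)).sub
    (ap_spec i (c j (g * k))))
  convert this using 1
  push_cast
  ring

theorem Ks.div (hk : Ks H b i u c) (hk' : Ks H b i u' c) : Ks H b i (fun j => u j / u' j) c := by
  obtain ⟨r, hr, t⟩ := hk
  obtain ⟨r', hr', t'⟩ := hk'
  refine ⟨fun j => r j / r' j, fun j => by rw [div_pow, hr, hr'], (t.div t').congr fun g _ k _ => ?_⟩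
  simp only [Kf, Pi.div_apply, ← prod_div_distrib, map_div₀, ← div_zpow, div_div_div_comm]

theorem Ks.congr (hk : Ks H b i u c) (e : ∀ g ∈ H, ∀ j, 2 ^ i ∣ c' j g - c j g) :
    Ks H b i u c' :=
  let ⟨r, hr, t⟩ := hk
  ⟨r, hr, t.congr fun _ _ k hk => prod_congr rfl fun j _ => congrArg _ (ap_congr (e k hk _))⟩

theorem Ks.sub (h : RA H b) (hu : Ev H b u) (hc : Cc H b i c') (hk : Ks H b i u c)
    (hk' : Ks H b i u c') : Ks H b i u fun j g => c j g - c' j g := by
  obtain ⟨r, hr, t⟩ := hk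
  refine ⟨r, hr, (t.div (hk'.all h hu hc hr)).congr fun g hg k _ => ?_⟩
  simp only [Kf, Pi.div_apply, ← prod_div_distrib]
  refine prod_congr rfl fun j _ => ?_
  have h1 := hu.root hr hg j
  rw [← zpow_sub₀ (fun e => by simp [e] at h1)]
  refine zpow_of h1 ?_
  have := ((ap_spec i (c (b g j) k)).sub (ap_spec i (c' (b g j) k))).sub
    (ap_spec i (c (b g j) k - c' (b g j) k))
  convert this using 1
  push_cast
  ring

theorem ks_cob (h : RA H b) (hu : Ev H b u) (φ : J → Z2) :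
    Ks H b i u fun j g => φ j - φ (b g j) := by
  choose r hr using fun j => exists_root (u j) (n := 2 ^ i) (by positivity)
  refine ⟨r, hr, (core h (hu.ne hr) (c := fun j g => ap i (φ j) - ap i (φ (b g j)))
    (h.sm.comp fun e j => ap i (φ j) - ap i (φ (e j)))).congr fun g hg k hk => ?_⟩
  rw [prod_eq_one (f := fun j => r j ^ _) fun j _ => by rw [h.mul g hg k hk]; simp, mul_one]
  refine prod_congr rfl fun j _ => zpow_of (hu.root hr hg j) ?_
  have := ((ap_spec i (φ (b g j))).sub (ap_spec i (φ (b k (b g j))))).sub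
    (ap_spec i (φ (b g j) - φ (b k (b g j))))
  convert this using 1
  push_cast
  ring

theorem ks_pow (hr : Ev H b r) (e : ∀ j, r j ^ 2 ^ i = u j) : Ks H b i u c :=
  ⟨r, e, Triv.one.congr fun g hg k _ =>
    prod_eq_one fun j _ => by rw [hr.2 g hg, div_self (hr.1 j), one_zpow]⟩

theorem Ks.scale (hu : Ev H b u) {m : ℕ} (hk : Ks H b (m + i) u fun j g => 2 ^ m * c j g) :
    Ks H b i u c := by
  obtain ⟨r, hr, t⟩ := hk
  refine ⟨fun j => r j ^ 2 ^ m, fun j => by rw [← pow_mul, ← pow_add, hr],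
    t.congr fun g hg k _ => prod_congr rfl fun j _ => ?_⟩
  rw [map_pow, ← div_pow, ← zpow_natCast, ← zpow_mul]
  refine zpow_of (hu.root hr hg j) ?_
  have := (ap_spec _ (2 ^ m * c (b g j) k)).sub
    (pow_add (2 : Z2) m i ▸ mul_dvd_mul_left (2 ^ m) (ap_spec i (c (b g j) k)))
  convert this using 1
  push_cast
  ring

open Classical in
/-- the norm along a map -/
noncomputable def nf (π : J → J') (u : J → Om) (j' : J') : Om := ∏ j with π j = j', u j

variable {π : J → J'}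

omit [Fintype J'] in
theorem nf_act (h : RA H b) (h' : RA H b') (e : ∀ g ∈ H, ∀ j, π (b g j) = b' g (π j))
    {g : GQ} (hg : g ∈ H) (r : J → Om) (j' : J') :
    g (nf π r (b' g j')) = nf π (fun j => g (r (b g j))) j' := by
  rw [nf, nf, map_prod]
  refine (prod_bijective (b g) (h.bij hg) (fun j => ?_) fun j _ => rfl).symm
  simp only [mem_filter, mem_univ, true_and, e g hg, (h'.bij hg).1.eq_iff]

omit [Fintype J'] in
theorem Ev.nf (h : RA H b) (h' : RA H b') (e : ∀ g ∈ H, ∀ j, π (b g j) = b' g (π j))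
    (hu : Ev H b u) : Ev H b' (nf π u) :=
  ⟨fun _ => prod_ne_zero_iff.2 fun j _ => hu.1 j, fun g hg j => by
    rw [nf_act h h' e hg]; simp only [hu.2 g hg]⟩

theorem Kf_push (h : RA H b) (h' : RA H b') (e : ∀ g ∈ H, ∀ j, π (b g j) = b' g (π j))
    {g : GQ} (hg : g ∈ H) (k : GQ) (r : J → Om) (c : J' → GQ → ℤ) :
    Kf b r (fun j => c (π j)) g k = Kf b' (nf π r) c g k := by
  classical
  rw [Kf, Kf, ← prod_fiberwise univ π]
  refine prod_congr rfl fun j' _ => ?_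
  rw [nf_act h h' e hg, nf, nf, ← prod_div_distrib, ← prod_zpow]
  refine prod_congr (by congr) fun j hj => ?_
  rw [e g hg, (mem_filter.1 hj).2]

omit [Fintype J'] in
theorem nf_pow (hr : ∀ j, r j ^ 2 ^ i = u j) (j : J') : nf π r j ^ 2 ^ i = nf π u j := by
  simp only [nf, ← prod_pow, hr]

theorem Ks.down (h : RA H b) (h' : RA H b') (e : ∀ g ∈ H, ∀ j, π (b g j) = b' g (π j))
    {c : J' → GQ → Z2} (hk : Ks H b i u fun j => c (π j)) : Ks H b' i (nf π u) c :=
  let ⟨r, hr, t⟩ := hk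
  ⟨nf π r, nf_pow hr, t.congr fun _ hg k _ =>
    (Kf_push h h' e hg k r fun j g => ap i (c j g)).symm⟩

theorem Ks.up (h : RA H b) (h' : RA H b') (e : ∀ g ∈ H, ∀ j, π (b g j) = b' g (π j))
    (hu : Ev H b u) {c : J' → GQ → Z2} (hc : Cc H b' i c) (hk : Ks H b' i (nf π u) c) :
    Ks H b i u fun j => c (π j) := by
  choose r hr using fun j => exists_root (u j) (n := 2 ^ i) (by positivity)
  exact ⟨r, hr, (hk.all h' (hu.nf h h' e) hc (nf_pow hr)).congr fun _ hg k _ =>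
    Kf_push h h' e hg k r fun j g => ap i (c j g)⟩

end Pool.Agent.P.MP_8b7eba_nt.QT.CG
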