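import Pool.Agent.P.MP_8b7eba_nt.CG.EA

/-! The symbol of a point and of the value of the elliptic function at this point vanishes. -/

namespace Pool.Agent.P.MP_8b7eba_nt.QT.CG

open R2 SM Finset

variable {H N : Subgroup GQ} {i : ℕ} {a : ZI} {g σ : GQ}

/-- the action on cosets -/
noncomputable def bq (N : Subgroup GQ) (g : GQ) (j : GQ ⧸ N) : GQ ⧸ N := g⁻¹ • j

theorem bq_mem (g : GQ) (j : GQ ⧸ N) : j.out⁻¹ * g * (bq N g j).out ∈ N := by
  have : ((g⁻¹ * j.out : GQ) : GQ ⧸ N) = (bq N g j).out := by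
    rw [QuotientGroup.out_eq', bq, ← smul_eq_mul, MulAction.Quotient.coe_smul_out]
  simpa [mul_assoc] using QuotientGroup.eq.1 this

theorem bq_of (hN : ON N) (hg : g ∈ N) (j : GQ ⧸ N) : bq N g j = j := by
  rw [← j.out_eq', bq, MulAction.Quotient.smul_mk, QuotientGroup.eq]
  simpa [mul_assoc] using hN.1.conj_mem _ hg j.out⁻¹

theorem bq_mul (g h : GQ) (j : GQ ⧸ N) : bq N (g * h) j = bq N h (bq N g j) := by
  rw [bq, bq, bq, mul_inv_rev, mul_smul]

theorem ra_bq (hN : ON N) : RA H (bq N) :=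
  ⟨fun j => by simp [bq], fun g _ h _ => bq_mul g h,
    N, hN, fun g _ n _ hn => funext fun j => by rw [bq_mul, bq_of hN hn]⟩

theorem ga_inv (g : GQ) (P : EE) : ga g⁻¹ (ga g P) = P := by rw [← ga_mul, inv_mul_cancel, ga_one]

theorem ga_inv' (g : GQ) (P : EE) : ga g (ga g⁻¹ P) = P := by rw [← ga_mul, mul_inv_cancel, ga_one]

theorem two_smul' (i : ℕ) (P : EE) : (2 ^ i : ZI) • P = 2 ^ i • P := by
  rw [← Nat.cast_smul_eq_nsmul ZI, Nat.cast_pow, Nat.cast_ofNat]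

theorem sm_ga (P : EE) : Sm H fun g => ga g P :=
  let ⟨N, hN, e⟩ := CB.exists_ON one_ne_zero P
  ⟨N, hN, fun g _ n _ hn => (ga_mul g n P).trans (congrArg (ga g) (e n hn))⟩

/-- the conjugates of the elliptic function -/
noncomputable def tj (a : ZI) (σ : GQ) (R : EE) : Om := σ (th a (ga σ⁻¹ R))

theorem tj_mul (g σ : GQ) (R : EE) : g (tj a σ R) = tj a (g * σ) (ga g R) := by
  rw [tj, tj, mul_inv_rev, ga_mul, ga_inv, AlgEquiv.mul_apply]

theorem tj_of (hTH : S_TH) (ha : Prim a) (hg : g ∈ GK) (σ : GQ) (R : EE) :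
    tj a (σ * g) R = tj a σ R := by
  rw [tj, tj, AlgEquiv.mul_apply, (((hTH a ha).2 _).2.2.2 g hg).1, mul_inv_rev, ga_mul, ga_inv']

theorem tj_bq (hTH : S_TH) (ha : Prim a) (hN : N ≤ GK) (g : GQ) (j : GQ ⧸ N) (R : EE) :
    g (tj a (bq N g j).out R) = tj a j.out (ga g R) := by
  rw [tj_mul, ← tj_of hTH ha (hN (bq_mem g j)) j.out]
  simp [mul_assoc]

theorem Prim.cop (ha : Prim a) (i : ℕ) : IsCoprime a (2 ^ i) := by
  obtain ⟨t, ht⟩ := ha
  refine IsCoprime.pow_right ⟨1, -(pz * iz * t), ?_⟩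
  rw [show pz ^ 3 = 2 * (pz * iz) by decide] at ht
  linear_combination ht

/-- the Kummer characters of a family of points -/
noncomputable def cY (N : Subgroup GQ) (l : EE → Z2) (Y : GQ ⧸ N → EE) (j : GQ ⧸ N) (g : GQ) : Z2 :=
  l (ga j.out⁻¹ (ga g (Y (bq N g j)) - Y j))

/-- additive functions on the torsion points -/
def Ad (i : ℕ) (l : EE → Z2) : Prop :=
  ∀ R R', 2 ^ i • R = 0 → 2 ^ i • R' = 0 → 2 ^ i ∣ l (R + R') - l R - l R'

variable [Fintype (GQ ⧸ N)] {l : EE → Z2} {X Y : GQ ⧸ N → EE}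

omit [Fintype (GQ ⧸ N)] in
theorem shift (h2 : N ≤ NM (2 ^ i)) (g : GQ) (j : GQ ⧸ N) {R : EE} (hR : 2 ^ i • R = 0) :
    ga j.out⁻¹ (ga g R) = ga (bq N g j).out⁻¹ R := by
  rw [← (h2 (bq_mem g j)).2 (ga (bq N g j).out⁻¹ R) (by rw [two_smul', ← map_nsmul, hR, map_zero]),
    ← ga_mul, ← ga_mul, mul_inv_cancel_right]

theorem cc_cY (hN : ON N) (h2 : N ≤ NM (2 ^ i)) (hl : Ad i l) (hY : ∀ j, 2 ^ i • Y j = X j)
    (hX : ∀ g ∈ H, ∀ j, ga g (X (bq N g j)) = X j) : Cc H (bq N) i (cY N l Y) := by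
  have t : ∀ g ∈ H, ∀ j, 2 ^ i • (ga g (Y (bq N g j)) - Y j) = 0 := fun g hg j => by
    rw [smul_sub, ← map_nsmul, hY, hY, hX g hg, sub_self]
  refine ⟨?_, fun g hg h hh j => ?_⟩
  · obtain ⟨M, hM, e⟩ := Sm.pi (H := H) (c := fun g j => cY N l Y j g) fun j =>
      (((ra_bq hN).sm.comp₂ (Sm.pi fun j => sm_ga (Y j)) fun e f => f (e j))).comp
        fun R => l (ga j.out⁻¹ (R - Y j))
    exact ⟨M, hM, fun g hg n hn m j => sub_eq_zero.2 (congrFun (e g hg n hn m) j) ▸ dvd_zero _⟩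
  · have := hl (ga j.out⁻¹ (ga g (Y (bq N g j)) - Y j))
      (ga (bq N g j).out⁻¹ (ga h (Y (bq N h (bq N g j))) - Y (bq N g j)))
      (by rw [← map_nsmul, t g hg, map_zero]) (by rw [← map_nsmul, t h hh, map_zero])
    rw [show _ + _ = ga j.out⁻¹ (ga (g * h) (Y (bq N (g * h) j)) - Y j) by
      rw [← shift h2 g j (t h hh _), ← map_add, map_sub (ga g), ← ga_mul, ← bq_mul, add_comm,
        sub_add_sub_cancel]] at this
    refine (dvd_neg.2 this).trans (dvd_of_eq ?_)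
    simp only [cY]
    ring

theorem ks_cY (hTH : S_TH) (hD : S_DIST) (hG : S_GEN) (ha : Prim a) (hN : ON N)
    (h2 : N ≤ NM (2 ^ i)) (hl : Ad i l) (hY : ∀ j, 2 ^ i • Y j = X j)
    (hX : ∀ g ∈ H, ∀ j, ga g (X (bq N g j)) = X j) (h0 : ∀ j, a • ga j.out⁻¹ (X j) ≠ 0) :
    Ks H (bq N) i (fun j => tj a j.out (X j)) (cY N l Y) := by
  classical
  have hK : N ≤ GK := fun g hg => (h2 hg).1
  have hf : Finite {R : EE // (2 ^ i : ZI) • R = 0} := (hG _ (by simp)).2.2.1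
  let T := {p : (GQ ⧸ N) × EE // 2 ^ i • p.2 = X p.1}
  let e : ∀ j, {R : EE // (2 ^ i : ZI) • R = 0} → T := fun j R =>
    ⟨(j, Y j + ga j.out R), by rw [smul_add, hY, ← map_nsmul, ← two_smul', R.2, map_zero, add_zero]⟩
  have e1 : ∀ p : T, ∃ R, e p.1.1 R = p := fun p => ⟨⟨ga p.1.1.out⁻¹ (p.1.2 - Y p.1.1), by
    rw [two_smul', ← map_nsmul, smul_sub, p.2, hY, sub_self, map_zero]⟩,
      Subtype.ext (Prod.ext rfl (by simp [e, ga_inv']))⟩
  have : Finite T := Finite.of_surjective (fun q : _ × _ => e q.1 q.2) fun p =>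
    let ⟨R, h⟩ := e1 p; ⟨(_, R), h⟩
  have := Fintype.ofFinite T
  have := Fintype.ofFinite {R : EE // (2 ^ i : ZI) • R = 0}
  let b : GQ → T → T := fun g p => if hg : g ∈ H then ⟨(bq N g p.1.1, ga g⁻¹ p.1.2), by
    rw [← map_nsmul, p.2, ← hX g hg, ga_inv]⟩ else p
  have b1 : ∀ g ∈ H, ∀ p, (b g p).1 = (bq N g p.1.1, ga g⁻¹ p.1.2) := fun g hg p => by
    simp only [b, dif_pos hg]
  have hb : RA H b := by
    refine ⟨fun p => Subtype.ext ?_, fun g hg h hh p => Subtype.ext ?_, Sm.pi fun p => ?_⟩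
    · rw [b1 1 (one_mem _), (ra_bq (H := H) hN).one, inv_one, ga_one]
    · rw [b1 _ (mul_mem hg hh), b1 h hh, b1 g hg, bq_mul, mul_inv_rev, ga_mul]
    · obtain ⟨M, hM, k⟩ := (ra_bq (H := H) hN).sm.comp₂ (sm_ga p.1.2).inv fun f R => (f p.1.1, R)
      exact ⟨M, hM, fun g hg n hn m => Subtype.ext
        (by rw [b1 _ (mul_mem hg hn), b1 g hg]; exact k g hg n hn m)⟩
  have hu : Ev H b fun p => tj a p.1.1.out p.1.2 := by
    refine ⟨fun p => (_root_.map_ne_zero _).2 (((hTH a ha).2 _).1 fun e => h0 p.1.1 ?_).1,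
      fun g hg p => by beta_reduce; rw [b1 g hg, tj_bq hTH ha hK, ga_inv']⟩
    rw [← p.2, map_nsmul, smul_comm, e, smul_zero]
  have k := Ks.down (π := fun p : T => p.1.1) (c := cY N l Y) hb (ra_bq hN)
    (fun g hg p => congrArg Prod.fst (b1 g hg p))
    ((ks_cob (i := i) hb hu fun p => l (ga p.1.1.out⁻¹ (p.1.2 - Y p.1.1))).congr fun g hg p => ?_)
  · convert k using 2 with j
    have := hD a (2 ^ i) (ga j.out⁻¹ (Y j)) ha (ha.cop i) (by simp)
      (by rw [mul_smul, two_smul', ← map_nsmul, hY]; exact h0 j)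
    rw [two_smul', ← map_nsmul, hY] at this
    rw [tj, ← this, finprod_eq_prod_of_fintype, map_prod, nf]
    refine prod_bij (fun R _ => e j R) (fun R _ => by simp [e]) (fun R _ R' _ h => Subtype.ext ?_)
      (fun p hp => ?_) fun R _ => by
        change _ = tj a j.out (Y j + ga j.out R)
        rw [tj, map_add, ga_inv]
    · rw [← ga_inv j.out R, ← ga_inv j.out R',
        add_left_cancel (congrArg (fun p : T => p.1.2) h : Y j + _ = Y j + _)]
    · obtain rfl : p.1.1 = j := by simpa using hp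
      exact let ⟨R, h⟩ := e1 p; ⟨R, mem_univ _, h⟩
  · have t1 : 2 ^ i • (ga g⁻¹ p.1.2 - Y (bq N g p.1.1)) = 0 := by
      rw [smul_sub, ← map_nsmul, p.2, hY, ← hX g hg p.1.1, ga_inv, sub_self]
    have := hl (ga p.1.1.out⁻¹ (ga g (Y (bq N g p.1.1)) - Y p.1.1))
      (ga (bq N g p.1.1).out⁻¹ (ga g⁻¹ p.1.2 - Y (bq N g p.1.1)))
      (by rw [← map_nsmul, smul_sub, ← map_nsmul, hY, hY, hX g hg, sub_self, map_zero])
      (by rw [← map_nsmul, t1, map_zero])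
    rw [show _ + _ = ga p.1.1.out⁻¹ (p.1.2 - Y p.1.1) by
      rw [← shift h2 g _ t1, ← map_add, map_sub (ga g), ga_inv', add_comm,
        sub_add_sub_cancel]] at this
    refine (dvd_neg.2 this).trans (dvd_of_eq ?_)
    simp only [cY, b1 g hg]
    ring

end Pool.Agent.P.MP_8b7eba_nt.QT.CG
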