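import Pool.Agent.P.MP_8b7eba_nt.CG.EB

/-! Norms of the values of the elliptic function. -/

namespace Pool.Agent.P.MP_8b7eba_nt.QT.CG

open R2 SM Finset

variable {H N N' : Subgroup GQ} {i m : ℕ} {a M M' : ZI} {g σ : GQ}

/-- the projection -/
noncomputable abbrev pq (h : N ≤ N') : GQ ⧸ N → GQ ⧸ N' := Subgroup.quotientMapOfLE h

theorem pq_bq (h : N ≤ N') (g : GQ) (j : GQ ⧸ N) : pq h (bq N g j) = bq N' g (pq h j) := by
  induction j using QuotientGroup.induction_on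
  rfl

theorem pq_iff (h : N ≤ N') {j : GQ ⧸ N} {j' : GQ ⧸ N'} : pq h j = j' ↔ j'.out⁻¹ * j.out ∈ N' := by
  rw [← QuotientGroup.eq, QuotientGroup.out_eq', eq_comm, ← Subgroup.quotientMapOfLE_apply_mk h,
    QuotientGroup.out_eq']

theorem out_mk (σ : GQ) : σ⁻¹ * (σ : GQ ⧸ N).out ∈ N :=
  QuotientGroup.eq.1 (QuotientGroup.out_eq' _).symm

theorem NM_anti (h : M ∣ M') : NM M' ≤ NM M := fun _ hg => ⟨hg.1, fun P hP => hg.2 P (by
  obtain ⟨c, rfl⟩ := h
  rw [mul_comm, mul_smul, hP, smul_zero])⟩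

theorem nf_congr {J J' : Type} [Fintype J] {π : J → J'} {u u' : J → Om} {j' : J'}
    (h : ∀ j, π j = j' → u j = u' j) : nf π u j' = nf π u' j' :=
  prod_congr rfl fun j hj => h j (by simpa using hj)

theorem fib_prod [Fintype (GQ ⧸ N)] (h : N ≤ N')
    (f : GQ → Om) (hf : ∀ σ, ∀ n ∈ N, f (σ * n) = f σ) (j' : GQ ⧸ N') :
    nf (pq h) (fun j => f j.out) j' = ∏ᶠ q : N' ⧸ N.subgroupOf N', f (j'.out * (q.out : N')) := by
  have := Nrm.ft (H := N') (H' := N) (Subgroup.relIndex_ne_zero_trans (K := N') (L := N') (by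
    have : N.FiniteIndex := Subgroup.finiteIndex_of_finite_quotient
    exact Subgroup.FiniteIndex.index_ne_zero) (by simp))
  rw [finprod_eq_prod_of_fintype, nf]
  refine (prod_bij (fun q _ => ((j'.out * (q.out : N') : GQ) : GQ ⧸ N)) (fun q _ => ?_)
    (fun q _ q' _ e => Nrm.ro_inj ?_) (fun j hj => ?_) fun q _ => ?_).symm
  · simp only [mem_filter, mem_univ, true_and, Subgroup.quotientMapOfLE_apply_mk]
    rw [QuotientGroup.mk_mul_of_mem _ q.out.2, QuotientGroup.out_eq']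
  · simpa [mul_assoc, Nrm.ro] using QuotientGroup.eq.1 e
  · obtain ⟨q, hq⟩ := Nrm.ro_surj (H' := N) ((pq_iff h).1 (show pq h j = j' by simpa using hj))
    exact ⟨q, mem_univ _, (QuotientGroup.eq.2 (by simpa [mul_assoc, Nrm.ro] using hq)).trans j.out_eq'⟩
  · rw [← hf _ _ (out_mk (N := N) _), mul_inv_cancel_left]

theorem fp (hTH : S_TH) (hD : S_DIST) (hG : S_GEN) (hF : S_FIB) (ha : Prim a) (hM : pz ^ 3 ∣ M)
    (h0 : M ≠ 0) (e : M' = M * 2 ^ m) [Fintype (GQ ⧸ NM M')] (h : NM M' ≤ NM M)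
    (B : GQ ⧸ NM M → EE) (j' : GQ ⧸ NM M)
    (hn : a • ga j'.out⁻¹ (ga j'.out (gen M) + 2 ^ m • B j') ≠ 0) :
    nf (pq h) (fun j => tj a j.out (ga j.out (gen M') + B (pq h j))) j' =
      tj a j'.out (ga j'.out (gen M) + 2 ^ m • B j') := by
  subst e
  have h1 : M * 2 ^ m ≠ 0 := by simpa using h0
  have h2 := (hG M h0).2.1 (2 ^ m) (by simp)
  have h3 := (hG _ h1).1
  have h4 : ga j'.out⁻¹ (ga j'.out (gen M) + 2 ^ m • B j') =
      (2 ^ m : ZI) • (gen (M * 2 ^ m) + ga j'.out⁻¹ (B j')) := by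
    rw [smul_add, h2, map_add, ga_inv, map_nsmul, two_smul']
  have hf : Finite {R : EE // (2 ^ m : ZI) • R = 0} := (hG _ (by simp)).2.2.1
  have := Fintype.ofFinite {R : EE // (2 ^ m : ZI) • R = 0}
  rw [nf_congr fun j hj => by rw [hj],
    fib_prod h (fun σ => tj a σ (ga σ (gen (M * 2 ^ m)) + B j')) fun σ n hn => by
      rw [tj_of hTH ha hn.1, ga_mul, hn.2 _ ((h3.1 _).2 dvd_rfl)], tj, h4,
    ← hD a _ _ ha (ha.cop m) (by simp) (by rwa [mul_smul, ← h4]), Nrm.map]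
  refine Eq.trans ?_ (((hF M _ _ hM h1 (fun q hq k => ?_) h3).2 Om
    fun R => j'.out (th a (R + ga j'.out⁻¹ (B j')))).trans
      (finprod_congr fun R => by rw [add_right_comm]))
  · exact finprod_congr fun q => by
      rw [tj_of hTH ha q.out.2.1, tj, map_add, ga_mul, ga_inv]
  · have := hq.dvd_of_dvd_pow k
    rw [show (2 : ZI) = pz ^ 2 * -iz by decide] at this
    refine dvd_trans ?_ ((dvd_pow_self pz three_ne_zero).trans hM)
    exact hq.dvd_of_dvd_pow ((IsUnit.dvd_mul_right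
      (.of_mul_eq_one iz (by decide))).1 this)

end Pool.Agent.P.MP_8b7eba_nt.QT.CG
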