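import Pool.Agent.P.MP_8b7eba_nt.CG.IfM

/-! Families of points and of units for the explicit reciprocity law. -/

namespace Pool.Agent.P.MP_8b7eba_nt.QT.CG

open R2 SM Finset
open scoped NNReal

/-- the statements which are used in the proof of the reciprocity law -/
class Hy : Prop where
  bgk : S_BGK
  bch : S_BCH
  gen : S_GEN
  lin : S_LIN
  lev : S_LEV
  qrt : S_QRT
  fib : S_FIB
  th : S_TH
  dist : S_DIST
  tay : S_TAY
  log : S_LOG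
  rt : S_RT

/-- the data -/
structure Dt (D : ℤ) (δ : Om) (a : ZI) : Prop where
  d0 : D ≠ 0
  d4 : δ ^ 4 = D
  ad : Adm D a

variable {H N N' : Subgroup GQ} {i k m n : ℕ} {a M : ZI} {g σ : GQ} {D : ℤ} {δ : Om} {R : EE}
  {X : GQ → EE}

section
variable {J J' : Type} [Fintype J] [Fintype J'] {b : GQ → J → J} {b' : GQ → J' → J'}
  {u u' : J → Om} {c c' : J → GQ → Z2}

theorem Ks.mul (hk : Ks H b i u c) (hk' : Ks H b i u' c) : Ks H b i (fun j => u j * u' j) c := by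
  obtain ⟨r, hr, t⟩ := hk
  obtain ⟨r', hr', t'⟩ := hk'
  exact ⟨fun j => r j * r' j, fun j => by rw [mul_pow, hr, hr'], by rw [Kf_mul]; exact t.mul t'⟩

theorem Ks.cob (h : RA H b) (hu : Ev H b u) (φ : J → Z2) (hk : Ks H b i u c)
    (e : ∀ g ∈ H, ∀ j, 2 ^ i ∣ c' j g - (c j g - (φ j - φ (b g j)))) : Ks H b i u c' := by
  refine (hk.sub h hu (c' := fun j g => φ j - φ (b g j)) ⟨?_, fun g hg k hk j => ?_⟩
    (ks_cob h hu φ)).congr e
  · obtain ⟨N, hN, e⟩ := h.sm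
    exact ⟨N, hN, fun g hg n hn m j => by rw [e g hg n hn m, sub_self]; exact dvd_zero _⟩
  · rw [h.mul g hg k hk]
    simp

omit [Fintype J] [Fintype J'] in
theorem Cc.comp {c : J' → GQ → Z2} (hc : Cc H b' i c) {π : J → J'}
    (e : ∀ g ∈ H, ∀ j, π (b g j) = b' g (π j)) : Cc H b i fun j => c (π j) :=
  ⟨let ⟨N, hN, s⟩ := hc.sm; ⟨N, hN, fun g hg n hn m _ => s g hg n hn m _⟩,
    fun g hg k hk j => by rw [e g hg]; exact hc.co g hg k hk _⟩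

end

theorem lv_add (D : ℤ) (k m : ℕ) : lv D (k + m) = lv D k * 2 ^ m := by rw [lv, lv]; ring

theorem lv_ne (h : D ≠ 0) (k : ℕ) : lv D k ≠ 0 := by simp [lv, h]

theorem lv_three (D : ℤ) (k : ℕ) : pz ^ 3 ∣ lv D k :=
  (((show pz ^ 3 ∣ 16 from ⟨-(4 * pz), by decide⟩).mul_right _).mul_left _)

theorem lv_le (h : k ≤ m) : NM (lv D m) ≤ NM (lv D k) :=
  NM_anti (mul_dvd_mul_right (pow_dvd_pow _ h) _)

theorem lv_two (h : i ≤ k) : NM (lv D k) ≤ NM (2 ^ i) :=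
  NM_anti ((pow_dvd_pow _ h).mul_right _)

theorem NM_le : NM M ≤ GK := fun _ h => h.1

theorem ku_of (h : g δ = δ) (σ : GQ) : ku δ (σ * g) = ku δ σ := by
  simp only [ku, ke, AlgEquiv.mul_apply, h]

theorem ku_one (δ : Om) : ku δ 1 = 1 := by simp [ku, ke]

/-- the twisted conjugates of a point -/
noncomputable def tB (δ : Om) (R : EE) (σ : GQ) : EE := star (ku δ σ) • R

/-- equivariant families of points -/
def Eqv (N : Subgroup GQ) (X : GQ → EE) : Prop :=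
  (∀ σ, ∀ n ∈ N, X (σ * n) = X σ) ∧ ∀ g ∈ w2.D, ∀ σ, ga g (X σ) = X (g * σ)

theorem Eqv.bq (h : Eqv N X) (g : GQ) (hg : g ∈ w2.D) (j : GQ ⧸ N) :
    ga g (X (bq N g j).out) = X j.out := by
  rw [h.2 g hg, ← h.1 j.out _ (bq_mem g j), ← mul_assoc, ← mul_assoc, mul_inv_cancel, one_mul]

theorem Eqv.add {Y : GQ → EE} (h : Eqv N X) (h' : Eqv N Y) : Eqv N fun σ => X σ + Y σ :=
  ⟨fun σ n hn => by beta_reduce; rw [h.1 σ n hn, h'.1 σ n hn],
    fun g hg σ => by rw [map_add, h.2 g hg, h'.2 g hg]⟩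

theorem eqv_ga (h : M • R = 0) : Eqv (NM M) fun σ => ga σ R :=
  ⟨fun σ n hn => by beta_reduce; rw [ga_mul, hn.2 R h], fun g _ σ => (ga_mul g σ R).symm⟩

theorem ga_ne (g : GQ) (h : R ≠ 0) : ga g R ≠ 0 := fun e => h (by rw [← ga_inv g R, e, map_zero])

/-- the linear form on the points of 2-power order -/
noncomputable def lm (α : O) (i : ℕ) (R : EE) : Z2 :=
  pr 1 α (Classical.epsilon fun b => e1 i b = R)

theorem lm_e1 (α : O) (i : ℕ) (b : O) : 2 ^ i ∣ lm α i (e1 i b) - pr 1 α b := by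
  have := Classical.epsilon_spec (p := fun b' => e1 i b' = e1 i b) ⟨b, rfl⟩
  rw [lm, ← pr_sub_r]
  exact pr_r' _ _ ((tm1.1.ker i _).1 (by rw [map_sub, this, sub_self]))

theorem ad_lm (α : O) (i : ℕ) : Ad i (lm α i) := fun R R' h h' => by
  obtain ⟨b, rfl⟩ := tm1.1.surj i R h
  obtain ⟨b', rfl⟩ := tm1.1.surj i R' h'
  have := dvd_sub (dvd_sub (lm_e1 α i (b + b')) (lm_e1 α i b)) (lm_e1 α i b')
  rw [map_add, pr_add_r] at this
  refine this.trans (dvd_of_eq ?_)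
  ring

theorem e1_pow (m i : ℕ) (b : O) : e1 (m + i) (2 ^ m * b) = e1 i b := by
  induction m with
  | zero => simp
  | succ m ih => rw [add_right_comm, pow_succ', mul_assoc, tm1.1.two, ih]

variable [Hy]

theorem gk_iff : g ∈ GK ↔ qz (-1) g = 0 := Hy.bgk.2.2.2.1 g

theorem eO_inj : Function.Injective eO := Hy.bgk.2.2.2.2.2.2.2.2.1

theorem eO_star (b : ZI) : eO (star b) = star (eO b) := Hy.bgk.2.2.2.2.2.2.2.2.2.1 b

theorem exc : ∃ c ∈ w2.D, ∀ σ, σ ∉ GK → c⁻¹ * σ ∈ GK :=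
  let ⟨c, h1, h2⟩ := Hy.bgk.2.2.2.2.2.2.2.2.2.2.2.2.2.1
  ⟨c, w2.I_le_D h1, fun σ h => (Subgroup.mul_mem_iff_of_index_two Hy.bgk.2.2.1).2
    (iff_of_false (by simpa using h2) h)⟩

theorem lv_on (h : D ≠ 0) (k : ℕ) : ON (NM (lv D k)) :=
  (Hy.lev.2 _ (lv_ne h k)).2.2.1 (dvd_of_eq (by simp [lv]))

theorem r1_of (hg : g ∈ NM (2 ^ n)) : Dv (2 * n) (r1 g - 1) := by
  have := (Hy.lin.2.2.2.2.2.2.2.2 g hg.1 n 1).1 fun P h => by rw [one_smul, hg.2 P h]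
  rwa [map_one] at this

theorem Dt.fix (h : Dt D δ a) (hg : g ∈ NM (lv D k)) : g δ = δ :=
  Hy.qrt D δ h.d0 h.d4 g (NM_anti (dvd_mul_left _ _) hg)

theorem Dt.kd (h : Dt D δ a) (g : GQ) : kd δ g = eO (ku δ g) :=
  ((Hy.bch D δ h.d0 h.d4).2.1 g).1

omit [Hy] in
theorem Dt.cr (h : Dt D δ a) : Cr (QT.kd δ) :=
  cr_kd (fun e => h.d0 (by simpa [e] using h.d4.symm)) fun g _ => by rw [h.d4, map_intCast]

theorem Dt.act (h : Dt D δ a) (g σ : GQ) (R : EE) :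
    ga g (tB δ R σ) = tB δ (tac δ g R) (g * σ) := by
  have e := h.cr.co g σ
  have e' := h.cr.mul_star g
  rw [tB, tB, tac, ← mul_smul]
  by_cases hg : g ∈ GK
  · rw [Hy.lin.1 g hg]
    refine congrArg (· • ga g R) (eO_inj ?_)
    rw [map_mul, eO_star, eO_star, ← h.kd, ← h.kd, ← h.kd, e, cj_of (gk_iff.1 hg), star_mul']
    linear_combination -star (QT.kd δ σ) * e'
  · rw [Hy.lin.2.1 g hg]
    refine congrArg (· • ga g R) (eO_inj ?_)
    rw [map_mul, eO_star, eO_star, eO_star, ← h.kd, ← h.kd, ← h.kd, e, cj,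
      (f2 _).resolve_left (mt gk_iff.2 hg), cs_one, star_mul']
    linear_combination -star (star (QT.kd δ σ)) * e'

theorem Dt.inv (h : Dt D δ a) (σ : GQ) (R : EE) : ga σ⁻¹ (tB δ R σ) = tac δ σ⁻¹ R := by
  rw [h.act, inv_mul_cancel, tB, ku_one, star_one, one_smul]

theorem Dt.e1 (h : Dt D δ a) (σ : GQ) (n : ℕ) (b : O) :
    tac δ σ (e1 n b) = e1 n (ac (rho δ) σ b) := by
  rw [tac, ga, tm1.1.gal, ← Hy.lin.2.2.2.2.2.2.1, ← h.kd, ac, ac, rho]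
  congr 1
  ring

theorem Dt.tB_of (h : Dt D δ a) (R : EE) (σ : GQ) (hg : g ∈ NM (lv D k)) :
    tB δ R (σ * g) = tB δ R σ := by rw [tB, ku_of (h.fix hg), tB]

theorem Dt.eqv (h : Dt D δ a) (hR : ∀ g ∈ w2.D, tac δ g R = R) : Eqv (NM (lv D k)) (tB δ R) :=
  ⟨fun σ _ hn => h.tB_of R σ hn, fun g hg σ => by rw [h.act, hR g hg]⟩

theorem Eqv.ne (h : Eqv N X) (h0 : ∀ σ ∈ GK, a • X σ ≠ 0) (σ : GQ) : a • ga σ⁻¹ (X σ) ≠ 0 := by
  have k : ∀ σ ∈ GK, a • ga σ⁻¹ (X σ) ≠ 0 := fun σ hσ => by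
    rw [← Hy.lin.1 _ (inv_mem hσ)]
    exact ga_ne _ (h0 σ hσ)
  by_cases hσ : σ ∈ GK
  · exact k σ hσ
  obtain ⟨c, h1, h2⟩ := exc
  have := k _ (h2 σ hσ)
  rwa [mul_inv_rev, inv_inv, ga_mul, h.2 c h1, mul_inv_cancel_left] at this

theorem Eqv.ev (h : Eqv N X) (ha : Prim a) (hN : N ≤ GK) (h0 : ∀ σ ∈ GK, a • X σ ≠ 0) :
    Ev w2.D (CG.bq N) fun j => tj a j.out (X j.out) :=
  ⟨fun _ => (_root_.map_ne_zero _).2 (((Hy.th a ha).2 _).1 (h.ne h0 _)).1,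
    fun g hg j => by beta_reduce; rw [tj_bq Hy.th ha hN, h.bq g hg]⟩

theorem tj_gk (ha : Prim a) (hσ : σ ∈ GK) (R : EE) : tj a σ R = th a R := by
  rw [← one_mul σ, tj_of Hy.th ha hσ, tj, inv_one, ga_one, AlgEquiv.one_apply]

theorem ks_near [Fintype (GQ ⧸ N)] {u : GQ ⧸ N → Om} (hN : N ≤ GK) (hu : Ev w2.D (bq N) u)
    (h : ∀ j, j.out ∈ GK → w2.v (u j - 1) * 2 ^ (i + 1) < 1) (c : GQ ⧸ N → GQ → Z2) :
    Ks w2.D (bq N) i u c := by
  obtain ⟨f, hf⟩ := Hy.rt i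
  have k : ∀ j, w2.v (u j - 1) * 2 ^ (i + 1) < 1 := fun j => by
    by_cases hj : j.out ∈ GK
    · exact h j hj
    obtain ⟨c, h1, h2⟩ := exc
    have := h (bq N c j) (by simpa [mul_assoc] using mul_mem (h2 _ hj) (hN (bq_mem c j)))
    rwa [← Pl.mem_D.1 h1, map_sub, map_one, hu.2 c h1] at this
  refine ks_pow (r := fun j => f (u j)) ⟨fun j e => hu.1 j ?_, fun g hg j => ?_⟩ fun j => (hf _ (k j)).1
  · rw [← (hf _ (k j)).1, show f (u j) = 0 from e, zero_pow (by positivity)]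
  · beta_reduce
    rw [(hf _ (k _)).2 g hg, hu.2 g hg]

end Pool.Agent.P.MP_8b7eba_nt.QT.CG
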