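import Pool.Agent.P.MP_8b7eba_nt.CG.ED

/-! The two halves of the explicit reciprocity law. -/

namespace Pool.Agent.P.MP_8b7eba_nt.QT.CG

open R2 SM Finset Filter
open scoped NNReal Classical

variable {N : Subgroup GQ} {i k m n : ℕ} {a : ZI} {g σ : GQ} {D : ℤ} {δ : Om} {R Y : EE}
  {l : EE → Z2}

/-- the quotient of two values of the elliptic function -/
noncomputable def et (a : ZI) (δ : Om) (P R : EE) (σ : GQ) : Om :=
  tj a σ (ga σ P + tB δ R σ) / tj a σ (ga σ P)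

/-- the translates are not poles -/
def Np (D : ℤ) (δ : Om) (a : ZI) (k : ℕ) (R : EE) : Prop :=
  ∀ σ ∈ GK, a • (ga σ (gen (lv D k)) + tB δ R σ) ≠ 0

theorem tB_two (m : ℕ) (R : EE) (σ : GQ) : tB δ (2 ^ m • R) σ = 2 ^ m • tB δ R σ := smul_comm _ _ _

theorem tac_two (m : ℕ) (R : EE) (σ : GQ) : tac δ σ (2 ^ m • R) = 2 ^ m • tac δ σ R := by
  rw [tac, map_nsmul, smul_comm, tac]

theorem fin_q (h : ON N) : Nonempty (Fintype (GQ ⧸ N)) :=
  have : N.FiniteIndex := ⟨by simpa using relIndex_ne_zero h.2 ⊤⟩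
  ⟨Fintype.ofFinite _⟩

theorem pq_mem {N' : Subgroup GQ} (h : N ≤ N') (j : GQ ⧸ N) : (pq h j).out⁻¹ * j.out ∈ N' :=
  (pq_iff h).1 rfl

theorem Eqv.eq {X : GQ → EE} {τ : GQ} (h : Eqv N X) (e : σ⁻¹ * τ ∈ N) : X τ = X σ := by
  rw [← h.1 σ _ e, mul_inv_cancel_left]

variable [Hy]

theorem Dt.tB_eq {τ : GQ} (h : Dt D δ a) (R : EE) (e : σ⁻¹ * τ ∈ NM (lv D k)) :
    tB δ R τ = tB δ R σ := by rw [← h.tB_of R σ e, mul_inv_cancel_left]

theorem Dt.gen (h : Dt D δ a) (k : ℕ) : lv D k • gen (lv D k) = 0 :=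
  ((Hy.gen _ (lv_ne h.d0 k)).1.1 _).2 dvd_rfl

theorem Dt.gen_two (h : Dt D δ a) (k m : ℕ) : 2 ^ m • CG.gen (lv D k * 2 ^ m) = CG.gen (lv D k) := by
  rw [← two_smul', (Hy.gen _ (lv_ne h.d0 k)).2.1 _ (by simp)]

theorem Dt.ne (h : Dt D δ a) (k : ℕ) : ∀ σ ∈ GK, a • ga σ (CG.gen (lv D k)) ≠ 0 := fun σ hσ => by
  rw [← Hy.lin.1 σ hσ]
  refine ga_ne _ fun e => ?_
  have := (dvd_sub_right ((lv_three D k).trans (((Hy.gen _ (lv_ne h.d0 k)).1.1 _).1 e))).1 h.ad.2.1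
  exact absurd (Zsqrtd.norm_eq_one_iff.2 (isUnit_of_dvd_one this)) (by decide)

theorem Dt.np (h : Dt D δ a) (hp : Np D δ a n (2 ^ m • R)) : Np D δ a (n + m) R := fun σ hσ e =>
  hp σ hσ (by rw [tB_two, ← h.gen_two n m, map_nsmul, ← smul_add, smul_comm, ← lv_add, e, smul_zero])

theorem Dt.eqv' (h : Dt D δ a) (hR : ∀ g ∈ w2.D, tac δ g R = R) :
    Eqv (NM (lv D k)) fun σ => ga σ (CG.gen (lv D k)) + tB δ R σ := (eqv_ga (h.gen k)).add (h.eqv hR)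

theorem Dt.ev (h : Dt D δ a) (hR : ∀ g ∈ w2.D, tac δ g R = R) (hp : Np D δ a k R) :
    Ev w2.D (bq (NM (lv D k))) fun j => et a δ (CG.gen (lv D k)) R j.out :=
  ((h.eqv' hR).ev h.ad.2.1 NM_le hp).div ((eqv_ga (h.gen k)).ev h.ad.2.1 NM_le (h.ne k))

theorem Dt.nf (h : Dt D δ a) (hR : ∀ g ∈ w2.D, tac δ g R = R) (hp : Np D δ a n (2 ^ m • R))
    (e : k = n + m) [Fintype (GQ ⧸ NM (lv D k))] (le : NM (lv D k) ≤ NM (lv D n)) :
    nf (pq le) (fun j => et a δ (CG.gen (lv D k)) R j.out) =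
      fun j => et a δ (CG.gen (lv D n)) (2 ^ m • R) j.out := by
  funext j
  have f := fp Hy.th Hy.dist Hy.gen Hy.fib h.ad.2.1 (lv_three D n) (lv_ne h.d0 n)
    (e ▸ lv_add D n m : lv D k = _) le
  have f1 := f (fun j => tB δ R j.out) j (by
    simpa only [tB_two] using (h.eqv' fun g hg => by rw [tac_two, hR g hg]).ne hp j.out)
  have f2 := f (fun _ => 0) j (by simpa using (eqv_ga (h.gen n)).ne (h.ne n) j.out)
  simp only [smul_zero, add_zero] at f2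
  rw [et, tB_two, ← f1, ← f2, CG.nf, CG.nf, CG.nf, ← prod_div_distrib]
  refine prod_congr rfl fun j _ => ?_
  rw [et, h.tB_eq R (pq_mem le j)]

theorem Dt.tay (h : Dt D δ a) (k : ℕ) [Fintype (GQ ⧸ NM (lv D k))] : ∃ C : ℝ≥0, ∀ R : EE,
    C < w2.v (xc R) → Np D δ a k R ∧ (∀ j : GQ ⧸ NM (lv D k), j.out ∈ GK →
      w2.v (et a δ (CG.gen (lv D k)) R j.out - 1) ^ 2 * w2.v (xc R) ≤ C) ∧
    (csum GK (NM (lv D k)) (fun σ => σ (δ * dl a (CG.gen (lv D k)))) = 0 →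
      w2.v (∏ j : GQ ⧸ NM (lv D k) with j.out ∈ GK, et a δ (CG.gen (lv D k)) R j.out - 1) *
        w2.v (xc R) ≤ C) := by
  obtain ⟨C, hC⟩ := Hy.tay.2 a _ {j : GQ ⧸ NM (lv D k) | j.out ∈ GK}
    (fun j => ga j.out (CG.gen (lv D k))) (fun j => star (ku δ j.out)) h.ad.2.1
    (fun j hj => h.ne k _ (mem_filter.1 hj).2)
    fun j _ => by rw [← star_pow, ((Hy.bch D δ h.d0 h.d4).2.1 _).2.1, star_one]
  have e : ∀ R, ∀ σ ∈ GK, et a δ (CG.gen (lv D k)) R σ =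
      th a (ga σ (CG.gen (lv D k)) + star (ku δ σ) • R) / th a (ga σ (CG.gen (lv D k))) :=
    fun R σ hσ => by rw [et, tj_gk h.ad.2.1 hσ, tj_gk h.ad.2.1 hσ, tB]
  have o : ∀ σ ∈ GK, (σ : GQ ⧸ NM (lv D k)).out ∈ GK := fun σ hσ => by
    simpa using mul_mem hσ (NM_le (out_mk (N := NM (lv D k)) σ))
  have t := fun σ hσ => (((Hy.th a h.ad.2.1).2 (CG.gen (lv D k))).2.2.2 σ hσ).2
  refine ⟨C, fun R hR => ⟨fun σ hσ => ?_, fun j hj => ?_, fun hs => ?_⟩⟩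
  · have := ((hC R hR).1 σ (by simpa using o σ hσ)).1
    rwa [← h.tB_eq R (out_mk σ), ← show ga _ _ = ga σ _ from (eqv_ga (h.gen k)).eq (out_mk σ)]
  · rw [e R _ hj]
    exact ((hC R hR).1 j (by simpa using hj)).2
  · have := (hC R hR).2
    rw [csum_eq_sum {j : GQ ⧸ NM (lv D k) | j.out ∈ GK} Quotient.out (fun s _ g hg m => by
        rw [AlgEquiv.mul_apply, map_mul g, h.fix m, t g hg, m.2 _ (h.gen k)])
      (fun j hj => (mem_filter.1 hj).2) (fun j _ j' _ e =>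
        j.out_eq'.symm.trans ((QuotientGroup.eq.2 e).trans j'.out_eq'))
      fun g hg => ⟨g, by simpa using o g hg, by simpa using inv_mem (out_mk g)⟩,
      sum_congr rfl fun j hj => by
        rw [map_mul, ((Hy.bch D δ h.d0 h.d4).2.1 _).2.2.1, t _ (mem_filter.1 hj).2, mul_right_comm],
      ← sum_mul, mul_eq_zero, or_iff_left fun e => h.d0 (by simpa [e] using h.d4.symm)] at hs
    rw [hs, mul_zero, sub_zero] at this
    rwa [prod_congr rfl fun j hj => e R _ (mem_filter.1 hj).2]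

omit [Hy] in
theorem grow (C : ℝ≥0) (e : ℕ) : ∀ᶠ m in atTop, C * 2 ^ e < 2 ^ m :=
  (tendsto_pow_atTop_atTop_of_one_lt one_lt_two).eventually_gt_atTop _

theorem v_two (hR : 1 < w2.v (xc R)) (m : ℕ) : (2 : ℝ≥0) ^ m * 2 ^ m ≤ w2.v (xc (2 ^ m • R)) := by
  rw [← two_smul', Hy.tay.1 R m hR, ← mul_pow]
  exact le_mul_of_le_of_one_le (by norm_num) hR.le

/-- the Kummer characters of the twisted point -/
noncomputable def cT (l : EE → Z2) (δ : Om) (Y : EE) (σ g : GQ) : Z2 :=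
  l (ga σ⁻¹ (tB δ (tac δ g Y - Y) σ))

theorem Dt.cT (h : Dt D δ a) (j : GQ ⧸ NM (lv D k)) (g : GQ) :
    cY (NM (lv D k)) l (fun j => tB δ Y j.out) j g = cT l δ Y j.out g := by
  rw [cY, h.act, ← mul_inv_cancel_left j.out (g * _), ← mul_assoc _ g, h.tB_of _ _ (bq_mem g j),
    CG.cT, tB, tB, tB, smul_sub]

theorem Dt.t1 (h : Dt D δ a) (h1 : 1 < w2.v (xc R)) (hR : ∀ g ∈ w2.D, tac δ g R = R)
    (hl : Ad i l) (hY : 2 ^ i • Y = R) : ∀ᶠ k in atTop, ∀ [Fintype (GQ ⧸ NM (lv D k))],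
    Np D δ a k R ∧ Ks w2.D (bq (NM (lv D k))) i (fun j => et a δ (CG.gen (lv D k)) R j.out)
      fun j => CG.cT l δ Y j.out := by
  obtain ⟨_⟩ := fin_q (lv_on h.d0 i)
  obtain ⟨C, hC⟩ := h.tay i
  obtain ⟨m0, hm⟩ := eventually_atTop.1 (grow C (2 * (i + 1)))
  filter_upwards [eventually_ge_atTop (i + m0)] with k hk _
  obtain ⟨m, rfl⟩ := Nat.exists_eq_add_of_le (le_self_add.trans hk)
  have c1 := (hm m (by omega)).trans_le ((le_mul_of_one_le_right' (one_le_pow₀ one_le_two)).trans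
    (v_two h1 m))
  obtain ⟨p, q, -⟩ := hC _ ((le_mul_of_one_le_right' (one_le_pow₀ one_le_two)).trans_lt c1)
  have le := lv_le (D := D) (Nat.le_add_right i m)
  refine ⟨h.np p, (Ks.up (π := pq le) (c := cY _ l fun j => tB δ Y j.out)
    (ra_bq (lv_on h.d0 _)) (ra_bq (lv_on h.d0 _)) (fun g _ => pq_bq le g) (h.ev hR (h.np p))
    (cc_cY (X := fun j => tB δ R j.out) (lv_on h.d0 _) (lv_two le_rfl) hl
      (fun j => by rw [← tB_two, hY]) (h.eqv hR).bq) ?_).congr fun g hg j => ?_⟩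
  · rw [h.nf hR p rfl]
    refine ks_near NM_le (h.ev (fun g hg => by rw [tac_two, hR g hg]) p) (fun j hj => ?_) _
    refine lt_of_pow_lt_pow_left₀ 2 zero_le_one (lt_of_mul_lt_mul_right ?_ (zero_le (a := w2.v (xc (2 ^ m • R)))))
    rw [mul_pow, mul_right_comm, one_pow, one_mul, ← pow_mul, mul_comm (i + 1)]
    exact (mul_le_mul_left (q j hj) _).trans_lt c1
  · rw [h.cT, CG.cT, CG.cT, ← mul_inv_cancel_left (pq le j).out j.out, h.tB_of _ _ (pq_mem le j),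
      mul_inv_rev, ga_mul, (lv_two le_rfl (inv_mem (pq_mem le j))).2, sub_self]
    · exact dvd_zero _
    · rw [two_smul', ← map_nsmul, ← tB_two, smul_sub, ← tac_two, hY, hR g hg, sub_self, tB,
        smul_zero, map_zero]

end Pool.Agent.P.MP_8b7eba_nt.QT.CG
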