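import Pool.Agent.P.MP_8b7eba_nt.CG.IfM
import Pool.Agent.P.MP_8b7eba_nt.CG.A2b
import Pool.Agent.P.MP_8b7eba_nt.CG.BasC

/-! Frobenius elements and chains of norm relations for the elliptic units. -/

namespace Pool.Agent.P.MP_8b7eba_nt.QT.CG

open R2 SM Filter A2
open MP_8b7eba_nt.CG (Lam Ab)

namespace G

variable {a β M l : ZI} {p : ℕ} {g : GQ}

theorem gk_eq : MP_8b7eba_nt.CG.GK = GK := rfl

theorem gi_eq (m : ZI) : MP_8b7eba_nt.CG.gi m = eK (star m) := by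
  simp [MP_8b7eba_nt.CG.gi, eK_def, iK]

theorem prim_star (h : Prim a) : Prim (star a) :=
  prim_iff.2 (by simpa [sub_eq_add_neg, and_comm] using prim_iff.1 h)

theorem prime_star (h : Prime a) : Prime (star a) :=
  (MulEquiv.prime_iff (starRingAut : RingAut ZI).toMulEquiv).2 h

theorem two_dvd3 : (2 : ZI) ∣ pz ^ 3 := ⟨iz * pz, by decide⟩

theorem dvd16 : pz ^ 3 ∣ (16 : ZI) := ⟨-4 * pz, by decide⟩

theorem dvd4 : pz ^ 3 * -pz = 2 ^ 2 := by decide

theorem nd_prim (ha : Prim a) (hM : pz ^ 3 ∣ M) : ¬ M ∣ a := fun h =>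
  not_unit_pz ((prim_cop ha).isUnit_of_dvd' ((dvd_pow_self pz three_ne_zero).trans (hM.trans h))
    (dvd_pow_self pz three_ne_zero))

theorem norm_dvd (h : a ∣ M) : a.norm ∣ M.norm := by
  obtain ⟨c, rfl⟩ := h
  rw [Zsqrtd.norm_mul]
  exact dvd_mul_right _ _

theorem nd_star (hp : p.Prime) (hβ : Prim β) (hn : β.norm = p) : ¬ β ∣ star β := fun h => by
  have h1 := prim_eq hβ (prim_star hβ) h (Zsqrtd.norm_conj β)
  have h2 : β.im = 0 := by
    have := congrArg Zsqrtd.im h1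
    simp only [Zsqrtd.im_star] at this
    omega
  rw [Zsqrtd.norm_def, h2] at hn
  exact (Nat.prime_iff_prime_int.1 hp).not_isSquare ⟨β.re, by linear_combination -hn⟩

theorem frob (hF : S_FRB) (h1 : Prime β) (h2 : Prim β) :
    ∃ φ ∈ GK, (cyc φ : ℤ_[2]) = β.norm ∧ ∀ M, IsCoprime β M → Ar M φ β := by
  obtain ⟨w, f, φ, a, b, c⟩ := hF.2.1 β h1
  obtain ⟨d, e⟩ := hF.1 β w f φ h1 h2 a b c
  refine ⟨φ, d, ?_, e⟩
  rw [a_EC.2.2.2.2.2.1 w f φ (odd_of_prim h2 a) b, ← c]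
  simp

theorem ab_NM (hL : S_LEV) (hM : M ≠ 0) : Ab (NM M) :=
  ⟨(hL.2 M hM).1, fun _ h => h.1, (hL.2 M hM).2.1⟩

theorem fo1 : IsOfFinOrder (1 : Om) := IsOfFinOrder.one

theorem r1_dvd (hLIN : S_LIN) {n : ℕ} (hg : g ∈ NM (2 ^ n)) : Dv (2 * n) (r1 g - 1) := by
  have := (hLIN.2.2.2.2.2.2.2.2 g hg.1 n 1).1 fun P hP => by rw [hg.2 P hP, one_smul]
  rwa [map_one] at this

theorem la_dvd (hB : S_BCH) (hLIN : S_LIN) {j : ℕ} (hg : g ∈ NM (2 ^ (j + 2))) :
    2 ^ j ∣ MP_8b7eba_nt.CG.la g := by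
  have h1 := ((hB 1 1 one_ne_zero (by simp)).2.2.1 g hg.1 1).2.2.2
  rw [rho, kd_fix (map_one g), mul_one] at h1
  obtain ⟨c, hc⟩ := dv_two.1 (r1_dvd hLIN hg)
  refine (a_LG.1.dvd j _).2 (Or.inl ?_)
  have h2 : (2 : O) ^ (j + 2) ∣ algebraMap ℤ_[2] O (cyc g) - 1 := by
    rw [← h1, show r1 g = 1 + 2 ^ (j + 2) * c by rw [← hc]; ring]
    refine ⟨c + star c + 2 ^ (j + 2) * c * star c, ?_⟩
    rw [star_add, star_one, star_mul', star_pow, star_ofNat]
    ring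
  simpa [QuadraticAlgebra.re_one] using (two_dvd.1 h2).1

section

variable (hB : S_BCH) (hLIN : S_LIN) (hL : S_LEV) (hF : S_FRB) (hN : S_NRM) (h3 : S_TH3)
  (ha : Prim a) {j s : ℕ}

include hL hN ha

theorem lam_same (hM : pz ^ 3 ∣ M) (h0 : M * l ≠ 0) (hc : IsCoprime a l)
    (hq : ∀ q, Prime q → q ∣ l → q ∣ M) (h : Lam j (NM M) (th a (gen M)) s) :
    Lam j (NM (M * l)) (th a (gen (M * l))) s := by
  have h1 := hN a (M * l) 1 ha (hM.mul_right l) (by rwa [mul_one]) isCoprime_one_right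
  exact h.same 1 (ab_NM hL h0) (NM_anti (dvd_mul_right M l)) h1.1 fo1
    (by rw [one_mul]; exact (hN a M l ha hM h0 hc).2.2.1 hq)

include hF in
theorem lam_step (hM : pz ^ 3 ∣ M) (h0 : M ≠ 0) (hc : IsCoprime a l) (h1 : Prime β) (h2 : Prim β)
    (hl : Associated β l) (hq : ¬ β ∣ M) {e : ℕ}
    (he : ∀ u : ℤ_[2]ˣ, (u : ℤ_[2]) = β.norm → ¬ 2 ^ (e + 1) ∣ lg u)
    (h : Lam j (NM M) (th a (gen M)) s) :
    Lam j (NM (M * l)) (th a (gen (M * l))) (s + 2 ^ e) := by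
  have l1 : Prime l := hl.prime h1
  have h0' : M * l ≠ 0 := mul_ne_zero h0 l1.ne_zero
  have h4 := hN a (M * l) 1 ha (hM.mul_right l) (by rwa [mul_one]) isCoprime_one_right
  obtain ⟨φ, b, c, d⟩ := frob hF h1 h2
  exact h.step 1 φ e (ab_NM hL h0') (NM_anti (dvd_mul_right M l)) h4.1 fo1 b (he _ c)
    (by
      rw [one_mul]
      exact (hN a M l ha hM h0' hc).2.2.2 φ b β l1 (fun x => hq (hl.dvd.trans x)) hl
        (d M (h1.coprime_iff_not_dvd.2 hq)))

include hB hLIN h3 in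
theorem lam_base (h8 : a.norm % 8 = 5) {K : ℕ} (hK : j ≤ K) :
    Lam j (NM (2 ^ (K + 2))) (th a (gen (2 ^ (K + 2)))) 0 := by
  have e : (2 : ZI) ^ (K + 2) = pz ^ 3 * (-pz * 2 ^ K) := by rw [← mul_assoc, dvd4]; ring
  have h0 : (2 : ZI) ^ (K + 2) ≠ 0 := pow_ne_zero _ (by decide)
  have h1 := hN a (2 ^ (K + 2)) 1 ha ⟨_, e⟩ (by rwa [mul_one]) isCoprime_one_right
  have h2 := (hN a (pz ^ 3) (-pz * 2 ^ K) ha dvd_rfl (e ▸ h0)
    (((prim_cop ha).of_isCoprime_of_dvd_right (dvd_pow_self pz three_ne_zero)).neg_right.mul_right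
      (prim_cop2 ha).pow_right)).2.2.1 fun q hq h => by
        rcases hq.dvd_or_dvd h with h | h
        · exact (dvd_neg.1 h).trans (dvd_pow_self pz three_ne_zero)
        · exact (hq.dvd_of_dvd_pow h).trans two_dvd3
  rw [← e, hL.1] at h2
  have hn := GaussianInt.norm_nonneg a
  obtain ⟨k, hk⟩ : ∃ k : ℕ, a.norm - 1 = (((2 * k + 1) * 4 : ℕ) : ℤ) :=
    ⟨(a.norm / 8).toNat, by push_cast; omega⟩
  have h4 := h3 a ha
  rw [hk, zpow_natCast] at h4
  have h5 : eK pz = iK * (1 + rt (-1)) := by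
    simp only [eK_def, pz, iK, Int.cast_one]
    linear_combination I_sq
  have h6 : (1 + rt (-1) : Om) ≠ 0 := fun x => by
    have := I_sq
    rw [show rt (-1) = -1 by linear_combination x] at this
    norm_num at this
  refine Lam.base (th a (gen (pz ^ 3)) / (1 + rt (-1)) ^ (2 * k + 1)) (2 * k + 1) (ab_NM hL h0)
    (fun g hg => la_dvd hB hLIN (NM_anti (pow_dvd_pow 2 (by omega)) hg)) h1.1 ?_ ⟨k, rfl⟩ ?_
  · refine isOfFinOrder_iff_pow_eq_one.2 ⟨4, four_pos, ?_⟩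
    rw [div_pow, h4, h5, mul_pow, ← pow_mul, mul_div_assoc, div_self (pow_ne_zero _ h6), mul_one,
      mul_comm, pow_mul, show iK ^ 4 = 1 by rw [show 4 = 2 * 2 from rfl, pow_mul, iK_sq]; simp,
      one_pow]
  · rw [div_mul_cancel₀ _ (pow_ne_zero _ h6)]
    exact h2

end

/-- the valuation of the logarithm -/
noncomputable def vl (p : ℕ) : ℕ :=
  (lg (Classical.epsilon fun u : ℤ_[2]ˣ => (u : ℤ_[2]) = p)).valuation

theorem vl_eq {u : ℤ_[2]ˣ} (h : (u : ℤ_[2]) = p) : (lg u).valuation = vl p := by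
  have := Classical.epsilon_spec (p := fun u : ℤ_[2]ˣ => (u : ℤ_[2]) = p) ⟨u, h⟩
  rw [vl, ← Units.ext (h.trans this.symm)]

theorem vl_nd (hp : p.Prime) {u : ℤ_[2]ˣ} (h : (u : ℤ_[2]) = p) : ¬ 2 ^ (vl p + 1) ∣ lg u := by
  have h0 : lg u ≠ 0 := fun e => by
    have h1 := (a_LG.1.dvd p u).1 (e ▸ dvd_zero _)
    have h2 : p + 1 < 2 ^ (p + 2) := by
      have := Nat.lt_two_pow_self (n := p + 2)
      omega
    have h3 := hp.two_le
    have h2' : (p : ℤ) + 1 < 2 ^ (p + 2) := by exact_mod_cast h2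
    have k : ∀ z : ℤ, 2 ^ (p + 2) ∣ (z : ℤ_[2]) → (2 : ℤ) ^ (p + 2) ∣ z := fun z hz =>
      (PadicInt.pow_p_dvd_int_iff (p := 2) (p + 2) z).1 (by simpa using hz)
    rw [h] at h1
    rcases h1 with h1 | h1
    · have := Int.le_of_dvd (by omega) (k (p - 1) (by simpa using h1))
      omega
    · have := Int.le_of_dvd (by omega) (k (p + 1) (by simpa using h1))
      omega
  rw [← vl_eq h]
  intro hd
  have := (PadicInt.mem_span_pow_iff_le_valuation _ h0 _).1 (Ideal.mem_span_singleton.2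
    (by simpa using hd))
  omega

theorem vl_sq (hp : p.Prime) (h2 : p ≠ 2) {u : ℤ_[2]ˣ} (h : (u : ℤ_[2]) = p * p) :
    ¬ 2 ^ (vl p + 1 + 1) ∣ lg u := by
  have h5 : IsUnit (p : ℤ_[2]) := by
    rw [PadicInt.isUnit_iff]
    exact (PadicInt.norm_natCast_eq_one_iff (p := 2) (n := p)).2
      ((Nat.coprime_primes Nat.prime_two hp).2 h2.symm)
  have e : u = h5.unit * h5.unit := Units.ext (by rw [h, Units.val_mul, h5.unit_spec])
  rw [e, a_LG.1.mul, ← mul_two, pow_succ, mul_dvd_mul_iff_right two_ne_zero]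
  exact vl_nd hp h5.unit_spec

theorem lam_nat (hB : S_BCH) (hLIN : S_LIN) (hL : S_LEV) (hF : S_FRB) (hN : S_NRM) (h3 : S_TH3)
    (ha : Prim a) (h8 : a.norm % 8 = 5) {j K : ℕ} (hK : j ≤ K) (m : ℕ) :
    m ≠ 0 → IsCoprime a m → Lam j (NM (2 ^ (K + 2) * m)) (th a (gen (2 ^ (K + 2) * m)))
      (∑ p ∈ m.primeFactors.erase 2, 2 ^ (vl p + 1)) := by
  induction m using induction_on_primes with
  | zero => exact fun h => (h rfl).elim
  | one =>
    intro _ _
    simpa using lam_base hB hLIN hL hN h3 ha h8 hK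
  | prime_mul p m hp ih =>
    intro h0 hc
    have m0 : m ≠ 0 := right_ne_zero_of_mul h0
    rw [Nat.cast_mul] at hc
    have ih := ih m0 hc.of_mul_right_right
    have hM : pz ^ 3 ∣ 2 ^ (K + 2) * (m : ZI) :=
      Dvd.dvd.mul_right ⟨-pz * 2 ^ K, by rw [← mul_assoc, dvd4]; ring⟩ _
    have M0 : 2 ^ (K + 2) * (m : ZI) ≠ 0 :=
      mul_ne_zero (pow_ne_zero _ (by decide)) (Nat.cast_ne_zero.2 m0)
    have e : (2 : ZI) ^ (K + 2) * (p * m : ℕ) = 2 ^ (K + 2) * m * p := by push_cast; ring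
    rw [e, Nat.primeFactors_mul hp.ne_zero m0, hp.primeFactors, ← Finset.insert_eq]
    by_cases hd : p = 2 ∨ p ∣ m
    · have e2 : (insert p m.primeFactors).erase 2 = m.primeFactors.erase 2 := by
        rcases hd with rfl | hd
        · exact Finset.erase_insert_eq_erase _ _
        · rw [Finset.insert_eq_of_mem (Nat.mem_primeFactors.2 ⟨hp, hd, m0⟩)]
      rw [e2]
      refine lam_same hL hN ha hM (mul_ne_zero M0 (Nat.cast_ne_zero.2 hp.ne_zero))
        hc.of_mul_right_left (fun q _ h => h.trans ?_) ih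
      rcases hd with rfl | hd
      · exact Dvd.dvd.mul_right (dvd_pow_self _ (by omega)) _
      · exact (Nat.cast_dvd_cast hd).mul_left _
    obtain ⟨h2, hm⟩ := not_or.1 hd
    rw [Finset.erase_insert_of_ne h2, Finset.sum_insert fun h =>
      hm (Nat.dvd_of_mem_primeFactors (Finset.mem_of_mem_erase h)),
      add_comm (2 ^ (vl p + 1))]
    have nd : ∀ b : ZI, (p : ℤ) ∣ b.norm → ¬ b ∣ 2 ^ (K + 2) * (m : ZI) := fun b hb h => by
      have h4 := hb.trans (norm_dvd h)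
      rw [show (2 : ZI) ^ (K + 2) * m = ((2 ^ (K + 2) * m : ℕ) : ZI) by push_cast; rfl,
        Zsqrtd.norm_natCast] at h4
      have h5 : p ∣ 2 ^ (K + 2) * m := by
        have : p ∣ 2 ^ (K + 2) * m * (2 ^ (K + 2) * m) := by exact_mod_cast h4
        exact (hp.dvd_mul.1 this).elim id id
      rcases hp.dvd_mul.1 h5 with h | h
      · exact h2 ((Nat.prime_dvd_prime_iff_eq hp Nat.prime_two).1 (hp.dvd_of_dvd_pow h))
      · exact hm h
    obtain ⟨w, rfl⟩ := a_PL.1 p hp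
    obtain ⟨β, b1, b2, -, ⟨-, b3, -⟩ | ⟨-, b3⟩⟩ := hF.2.2 w h2
    · have e3 : (w.p : ZI) = β * star β := by rw [← Zsqrtd.norm_eq_mul_conj, b3, Int.cast_natCast]
      have c := hc.of_mul_right_left
      rw [e3] at c ⊢
      have s1 := lam_step hL hF hN ha hM M0 c.of_mul_right_left b1 b2 (Associated.refl β)
        (nd β b3.symm.dvd) (e := vl w.p) (fun u hu => vl_nd hp (by rw [hu, b3, Int.cast_natCast])) ih
      have s2 := lam_step hL hF hN ha (hM.mul_right β) (mul_ne_zero M0 b1.ne_zero)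
        c.of_mul_right_right (prime_star b1) (prim_star b2) (Associated.refl _)
        (fun h => ((prime_star b1).dvd_or_dvd h).elim
          (nd _ (by rw [Zsqrtd.norm_conj, b3])) fun h => nd_star hp (prim_star b2)
            (by rw [Zsqrtd.norm_conj, b3]) (by rwa [star_star]))
        (e := vl w.p) (fun u hu => vl_nd hp (by rw [hu, Zsqrtd.norm_conj, b3, Int.cast_natCast])) s1
      rwa [mul_assoc _ β, add_assoc, ← mul_two, ← pow_succ] at s2
    · have e3 : β.norm = w.p * w.p := by rw [b3, Zsqrtd.norm_neg, Zsqrtd.norm_natCast]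
      exact lam_step hL hF hN ha hM M0 hc.of_mul_right_left b1 b2
        (b3 ▸ (Associated.refl _).neg_left) (nd β ⟨_, e3⟩)
        (fun u hu => vl_sq hp h2 (by rw [hu, e3]; push_cast; rfl)) ih

theorem lam_lv (hB : S_BCH) (hLIN : S_LIN) (hL : S_LEV) (hF : S_FRB) (hN : S_NRM) (h3 : S_TH3)
    {D : ℤ} (hD : D ≠ 0) (ha : Adm D a) {j k : ℕ} (hK : j ≤ k) :
    Lam j (NM (lv D (k + 2))) (th a (gen (lv D (k + 2))))
      (∑ p ∈ D.natAbs.primeFactors.erase 2, 2 ^ (vl p + 1)) := by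
  have e : (D.natAbs : ZI) * D.sign = D := by
    rw [← Int.cast_natCast, ← Int.cast_mul, mul_comm, Int.sign_mul_natAbs]
  have u : IsUnit (D.sign : ZI) := by
    rcases hD.lt_or_gt with h | h
    · simp [Int.sign_eq_neg_one_of_neg h]
    · simp [Int.sign_eq_one_of_pos h]
  have c : IsCoprime a (D : ZI) := by
    have := cop_int.2 ha.2.2.2
    rw [Zsqrtd.norm_eq_mul_conj] at this
    exact this.of_mul_left_left
  rw [← e] at c
  have h := lam_nat hB hLIN hL hF hN h3 ha.2.1 ha.2.2.1 (K := k + 4) (j := j) (by omega) D.natAbs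
    (Int.natAbs_ne_zero.2 hD) c.of_mul_right_left
  have e2 : lv D (k + 2) = 2 ^ (k + 4 + 2) * (D.natAbs : ZI) * D.sign := by
    rw [mul_assoc, e, lv]; ring
  rw [e2]
  exact lam_same hL hN ha.2.1
    (Dvd.dvd.mul_right ⟨-pz * 2 ^ (k + 4), by rw [← mul_assoc, dvd4]; ring⟩ _)
    (mul_ne_zero (mul_ne_zero (pow_ne_zero _ (by decide))
      (Nat.cast_ne_zero.2 (Int.natAbs_ne_zero.2 hD))) u.ne_zero) c.of_mul_right_right
    (fun q hq h => (hq.not_isUnit (isUnit_of_dvd_unit h u)).elim) h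

end G

end Pool.Agent.P.MP_8b7eba_nt.QT.CG
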