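import Pool.Agent.P.MP_8b7eba_nt.CG.IfK

/-! The interface of the comparison block of the project CG. -/

namespace Pool.Agent.P.MP_8b7eba_nt.CG

open R2 Filter Topology Module
open QT (O Cy)

/-- open subgroups whose fixed field is abelian over the Gaussian field -/
def Ab (N : Subgroup GQ) : Prop :=
  IsOpen (N : Set GQ) ∧ N ≤ GK ∧ ∀ g ∈ GK, ∀ h ∈ GK, cm g h ∈ N

/-- chains of norm relations which start with an odd power of `1 + i`; the last argument counts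
the primes of the cyclotomic tower whose Euler factors have been removed -/
inductive Lam (j : ℕ) : Subgroup GQ → Om → ℕ → Prop
  | base {N : Subgroup GQ} {v : Om} (u : Om) (e : ℕ) : Ab N → (∀ g ∈ N, 2 ^ j ∣ la g) → Fix N v →
      IsOfFinOrder u → Odd e → nrm GK N v = u * (1 + rt (-1)) ^ e → Lam j N v 0
  | same {N N' : Subgroup GQ} {v v' : Om} {s : ℕ} (u : Om) : Lam j N v s → Ab N' → N' ≤ N →
      Fix N' v' → IsOfFinOrder u → nrm N N' v' = u * v → Lam j N' v' s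
  | step {N N' : Subgroup GQ} {v v' : Om} {s : ℕ} (u : Om) (φ : GQ) (e : ℕ) : Lam j N v s →
      Ab N' → N' ≤ N → Fix N' v' → IsOfFinOrder u → φ ∈ GK → ¬ 2 ^ (e + 1) ∣ la φ →
      nrm N N' v' * φ⁻¹ v = u * v → Lam j N' v' (s + 2 ^ e)

/-- two systems of units with different smoothing factors -/
structure Smo {D : Dat} (E E' : ES D) (s s' : GQ) (p : ℕ) : Prop where
  eq : ∀ k : ℕ, E'.N (2 ^ (k + 2)) = E.N (2 ^ (k + 2))
  hs : s ∈ GK
  hs' : s' ∈ GK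
  p8 : p % 8 = 5
  cs : (cyc s : ℤ_[2]) = p
  cs' : (cyc s' : ℤ_[2]) = p
  ne : D.ρ s ≠ D.ρ s'
  rel : ∀ k : ℕ, ∃ u, IsOfFinOrder u ∧ E.th (2 ^ (k + 2)) ^ p * s (E'.th (2 ^ (k + 2))) =
    u * (E'.th (2 ^ (k + 2)) ^ p * s' (E.th (2 ^ (k + 2))))

/-- the strict Selmer group of the trivial character vanishes -/
def Dat.Z0 (D : Dat) : Prop :=
  ∀ (A : Type) [NormedCommRing A] [NormedAlgebra ℚ_[2] A] [IsUltrametricDist A]
    [FiniteDimensional ℚ_[2] A] (ι : A), Cf ι (fun _ => 1) → ∀ x, D.Str ι (fun _ => 1) x → x = 0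

/-- the class of the system of units at the trivial character vanishes -/
def ES.K0 {D : Dat} (E : ES D) : Prop :=
  ∀ (A : Type) [NormedCommRing A] [NormedAlgebra ℚ_[2] A] [IsUltrametricDist A]
    [FiniteDimensional ℚ_[2] A] (ι : A), Cf ι (fun _ => 1) → E.kap ι (fun _ => 1) = 0

/-- the comparison of the two bounds -/
def TOP : Prop :=
  ∀ (D : Dat) (E E' : ES D) (s s' : GQ) (p σ : ℕ) (v : ℕ → ℕ), (cyc D.h : ℤ_[2]) = 5 →
    (∀ β : Om, β ^ 2 = 1 + rt (-1) → D.z β = -β) →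
    (∀ p ∈ D.n.primeFactors.erase 2, ∀ u : ℤ_[2]ˣ, (u : ℤ_[2]) = p → (lg u).valuation = v p) →
    σ ≤ ∑ p ∈ D.n.primeFactors.erase 2, 2 ^ (v p + 1) → Smo E E' s s' p →
    (∀ j, ∀ᶠ k : ℕ in atTop, Lam j (E.N (2 ^ (k + 2))) (E.th (2 ^ (k + 2))) σ) → D.Z0 → ¬ E.K0

end Pool.Agent.P.MP_8b7eba_nt.CG
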