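import Pool.Agent.P.MP_8b7eba_nt.CG.KF
import Pool.Agent.P.MP_8b7eba_nt.CG.IfT
import Pool.Agent.P.MP_8b7eba_nt.CG.Defs
import Pool.Agent.P.MP_8b7eba_nt.QT.BasL

/-! Limits and corestrictions of global cocycles; the strict Selmer group of the trivial
character. -/

namespace Pool.Agent.P.MP_8b7eba_nt.CG.K

open R2 QT Filter Topology

variable {ρ y : GQ → O} {S : Finset ℕ} {n : ℕ} {c g u : GQ}

theorem zu_test (hρ : Cy ρ) (S : Finset ℕ) : ∃ T : Finset GQ, ∀ n x, Zu ρ S n x →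
    (∀ g ∈ T, Dv n (x g)) → ∀ g, Dv n (x g) := by
  classical
  let B : ℕ := ∑ U ∈ (S ∪ Nat.primeFactors 30).powerset, ∏ p ∈ U, p
  refine ⟨(Finset.Icc (-B : ℤ) B).image fun m => Classical.epsilon fun g => qz m g ≠ 0,
    fun n x hx e g => hx.zn.zero_of hρ {g | Dv n (x g)} (fun φ hφ h0 g _ => ?_) (fun _ a => a)
      (Subgroup.mem_top g)⟩
  obtain ⟨m, hm, rfl⟩ := exists_qz a_CA hφ
  refine by_contra fun a => Classical.epsilon_spec (p := fun g => qz m g ≠ 0) ⟨g, a⟩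
    (h0 _ (e _ (Finset.mem_image_of_mem _ ?_)))
  have h1 : m.natAbs ≤ B := by
    rw [← Nat.prod_primeFactors_of_squarefree (Int.squarefree_natAbs.2 hm)]
    refine Finset.single_le_sum (f := fun U => ∏ p ∈ U, p) (fun _ _ => Nat.zero_le _)
      (Finset.mem_powerset.2 fun p hp => by_contra fun b => ?_)
    obtain ⟨h2, h3, -⟩ := Nat.mem_primeFactors.1 hp
    obtain ⟨w, rfl⟩ := a_PL.1 p h2
    rw [Finset.mem_union, not_or, Nat.mem_primeFactors] at b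
    have h4 : ¬ w.p ∣ 30 := fun d => b.2 ⟨h2, d, by norm_num⟩
    have h5 : w.p ≠ 2 := fun d => h4 (by rw [d]; norm_num)
    obtain ⟨s, hs, hβ⟩ := Pl.exists_gen a_TAME a_RES h5
    exact (qz_gen a_CA h5 hs hβ hm).1 (h0 s (hx.unr w h4 b.1 s hs)) (Int.natCast_dvd.2 h3)
  rw [Finset.mem_Icc]
  omega

/-- limits of global cocycles -/
theorem zu_lim (hρ : Cy ρ) {x : ℕ → GQ → O} (hx : ∀ n, ∀ᶠ k in UF, Zu ρ S n (x k)) :
    ∃ X, (∀ n, Zu ρ S n X) ∧ ∀ n, ∀ᶠ k in UF, ∀ g, Dv n (X g - x k g) := by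
  obtain ⟨T, hT⟩ := zu_test hρ S
  choose X hX using fun g => exists_lim UF fun k => x k g
  have h : ∀ n, ∀ᶠ k in UF, ∀ g, Dv n (X g - x k g) := fun n => by
    have h1 := (hx n).and ((eventually_all_finset T).2 fun i _ => hX i n)
    filter_upwards [h1] with k hk g
    obtain ⟨j, hj, h2⟩ := (h1.and (hX g n)).exists
    refine h2.symm.trans (hT n (fun g => x j g - x k g) ?_
      (fun i hi => (hj.2 i hi).trans (hk.2 i hi).symm) g)
    simpa [sub_eq_add_neg] using hj.1.add (hk.1.smul (-1))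
  exact ⟨X, fun n => let ⟨_, a, b⟩ := ((hx n).and (h n)).exists; a.congr b, h⟩

open Classical in
/-- representatives of the two cosets -/
noncomputable def rp (c u : GQ) : GQ := if u ∈ KC 0 then 1 else c

/-- the extension of a cochain -/
noncomputable def ext (ρ : GQ → O) (c : GQ) (y : GQ → O) (u : GQ) : O :=
  QT.ac ρ (rp c u) (y ((rp c u)⁻¹ * u))

/-- the corestriction -/
noncomputable def cor (ρ : GQ → O) (c : GQ) (y : GQ → O) (g : GQ) : O :=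
  ext ρ c y g + ext ρ c y (g * c)

theorem rp_mem (hc : c ∉ KC 0) (u : GQ) : (rp c u)⁻¹ * u ∈ KC 0 := by
  unfold rp
  split_ifs with h
  · simpa using h
  · exact mul_KC0 (mt inv_mem_iff.1 hc) h

theorem rp_mul (hg : g ∈ KC 0) (u : GQ) : rp c (u * g) = rp c u := by
  rw [rp, rp, (KC 0).mul_mem_cancel_right hg]

theorem ext_mul (hρ : Cy ρ) (hc : c ∉ KC 0) (h : Zn ρ (KC 0) n y) (g u : GQ) :
    Dv n (ext ρ c y (g * u) - ext ρ c y (g * rp c u) - QT.ac ρ g (ext ρ c y u)) := by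
  have a := rp_mem hc u
  have e : g * u = g * rp c u * ((rp c u)⁻¹ * u) := by group
  have := (h.co _ (rp_mem hc (g * rp c u)) _ a).ac ρ (rp c (g * rp c u))
  rw [ac_sub, ac_sub, ← hρ.ac_mul, mul_inv_cancel_left, hρ.ac_mul, mul_assoc, ← e] at this
  rwa [ext, ext, ext, congrArg (rp c) e, rp_mul a]

theorem cor_zn (hρ : Cy ρ) (hc : c ∉ KC 0) (h : Zn ρ (KC 0) n y) : Zn ρ ⊤ n (cor ρ c y) := by
  obtain ⟨N, hN, a⟩ := h.sm
  have k : ∀ u, ∀ s ∈ N ⊓ KC 0, Dv n (ext ρ c y (u * s) - ext ρ c y u) := fun u s hs => by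
    rw [ext, ext, rp_mul hs.2, ← ac_sub, ← mul_assoc]
    exact (a _ (rp_mem hc u) s hs.2 hs.1).ac ρ _
  have hN' := hN.inf (on_KC 0)
  refine ⟨⟨_, hN', fun g _ s _ hs => ?_⟩, fun g _ s _ => ?_⟩
  · have := (k g s hs).add (k (g * c) _ (hN'.1.conj_mem s hs c⁻¹))
    rw [show g * c * (c⁻¹ * s * c⁻¹⁻¹) = g * s * c by group] at this
    exact of_eq this (by rw [cor, cor]; ring)
  · have := (ext_mul hρ hc h g s).add (ext_mul hρ hc h g (s * c))
    refine of_eq this ?_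
    rw [cor, cor, cor, ac_add, mul_assoc]
    by_cases hs : s ∈ KC 0
    · rw [rp, rp, if_pos hs, if_neg (mt (mul_mem_cancel_left hs).1 hc), mul_one]
      ring
    · rw [rp, rp, if_neg hs, if_pos (mul_KC0 hs hc), mul_one]
      ring

theorem cor_of (hρ : Cy ρ) (hc : c ∉ KC 0) (y : GQ → O) (hg : g ∈ KC 0) :
    cor ρ c y g = y g + QT.ac ρ c (y (c⁻¹ * g * c⁻¹⁻¹)) := by
  rw [cor, ext, ext, rp, rp, if_pos hg, if_neg (mt (mul_mem_cancel_left hg).1 hc), hρ.ac_one,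
    inv_one, one_mul, inv_inv, mul_assoc]

theorem cor_loc {H : Subgroup GQ} (hc : c ∉ KC 0) (hH : c ∈ H) (h : ∀ g ∈ H ⊓ KC 0, Dv n (y g))
    (hg : g ∈ H) : Dv n (cor ρ c y g) := by
  have k : ∀ u ∈ H, Dv n (ext ρ c y u) := fun u hu => (h _ ⟨H.mul_mem (H.inv_mem (by
    unfold rp
    split_ifs
    exacts [one_mem _, hH])) hu, rp_mem hc u⟩).ac ρ _
  exact (k g hg).add (k _ (mul_mem hg hH))

theorem cor_zu (hρ : Cy ρ) (hc : c ∉ KC 0) (h : Zn ρ (KC 0) n y)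
    (hu : ∀ w : Pl, ¬ w.p ∣ 30 → w.p ∉ S → ∀ g ∈ w.I, Dv n (y g)) : Zu ρ S n (cor ρ c y) :=
  ⟨cor_zn hρ hc h, fun w a b g hg => by
    rw [cor_of hρ hc y (IK (fun d => a (by rw [d]; norm_num)) 0 hg)]
    exact (hu w a b g hg).add ((hu (c⁻¹ • w) a b _ (conj_I _ hg)).ac ρ c)⟩

theorem cor_ii (hρ : Cy ρ) (hc : c ∉ KC 0) (y : GQ → O) (hg : g ∈ KC 0) :
    ii * cor ρ c y g + cor ρ c (fun g => ii * y g) g = om ^ 2 * y g := by
  rw [cor_of hρ hc _ hg, cor_of hρ hc _ hg, QT.ac_mul, cj, (f2 _).resolve_left (mt mem_KC0'.2 hc),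
    QT.cs_one, star_ii, om_sq]
  ring

theorem str_zero (D : Dat) (hS : ∀ p, p.Prime → p ∣ D.n → p ∈ S)
    (hZ : ∀ X, (∀ n, Zu D.ρ S n X) → (∀ g ∈ D.w.D, X g = 0) → Ex false D.ρ ⊤ X) {y : ℕ → GQ → O}
    (h : ∀ n, ∀ᶠ k in UF, Zn D.ρ (KC 0) n (y k) ∧ (∀ w : Pl, ¬ w.p ∣ 2 * D.n → ∀ g ∈ w.I,
      Dv n (y k g)) ∧ ∀ g ∈ D.w.D ⊓ KC 0, Dv n (y k g)) (n : ℕ) :
    ∀ᶠ k in UF, ∀ g ∈ KC 0, Dv n (y k g) := by
  obtain ⟨c, hc, d⟩ := a_EC2 D.w D.w2 (-1)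
  have hs : c ∉ KC 0 := fun h => by
    have := m8 ((by norm_num : (2 : ℤ_[2]) * 2 ^ (0 + 2) = 8) ▸ mul_dvd_mul_left 2 (mem_KC'.1 h))
    rw [d] at this
    simp only [map_mul, map_sub, map_ofNat, map_one, Units.val_neg, Units.val_one, map_neg] at this
    revert this
    decide
  have z0 : D.z ∈ KC 0 := KC_GK ▸ D.zD.2
  have key : ∀ a : O, ∀ n, ∀ᶠ k in UF, ∀ g, Dv n (cor D.ρ c (fun g => a * y k g) g) := fun a => by
    have h1 : ∀ n, ∀ᶠ k in UF, Zu D.ρ S n (cor D.ρ c fun g => a * y k g) := fun n =>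
      (h n).mono fun k b => by
        obtain ⟨⟨⟨N, hN, b1⟩, b2⟩, b3, -⟩ := b
        refine cor_zu D.cy hs ⟨⟨N, hN, fun g hg s hs e => of_eq ((b1 g hg s hs e).mul_left a)
          (mul_sub ..).symm⟩, fun g hg s hs => of_eq ((b2 g hg s hs).mul_left a) (by
            simp only [ar hg]; ring)⟩ fun w p q g hg => (b3 w (fun d => ?_) g hg).mul_left a
        exact (w.prime.dvd_mul.1 d).elim (fun d => p (d.trans (by norm_num)))
          fun d => q (hS _ w.prime d)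
    obtain ⟨X, h2, h3⟩ := zu_lim D.cy h1
    have h4 : ∀ g ∈ D.w.D, X g = 0 := fun g hg => eq_zero_of_dv fun n => by
      obtain ⟨k, p, q⟩ := ((h n).and (h3 n)).exists
      exact of_eq ((q g).add (cor_loc hs (D.w.I_le_D hc)
        (fun g hg => (p.2.2 g hg).mul_left a) hg)) (sub_add_cancel _ _).symm
    obtain ⟨e, v, h5⟩ := (hZ X h2 h4).2 rfl
    have h6 := h5 _ (Subgroup.mem_top D.z)
    rw [h4 _ D.zD.1, mul_zero, bd, ar z0, ← sub_one_mul, eq_comm,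
      mul_eq_zero_iff_left (sub_ne_zero.2 D.zr)] at h6
    refine fun n => (h3 n).mono fun k p g => ?_
    have h7 := h5 g trivial
    rw [h6, bd_zero, mul_eq_zero_iff_left (pow_ne_zero _ two_ne)] at h7
    simpa [h7] using (p g).neg
  filter_upwards [key 1 (2 + n), key ii (2 + n)] with k p q g hg
  simp only [one_mul] at p
  exact dv_pow.1 (of_eq (((p g).mul_left ii).add (q g)) (cor_ii D.cy hs (y k) hg).symm)

/-- the strict Selmer group of the trivial character vanishes -/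
theorem z0 (D : Dat) (hS : ∀ p, p.Prime → p ∣ D.n → p ∈ S)
    (hZ : ∀ X, (∀ n, Zu D.ρ S n X) → (∀ g ∈ D.w.D, X g = 0) → Ex false D.ρ ⊤ X) : D.Z0 := by
  classical
  intro A _ _ _ _ ι h x hx
  funext g
  by_cases hg : g ∈ S1 GK
  swap
  · exact hx.1.off g hg
  refine (Module.forall_dual_apply_eq_zero_iff ℚ_[2] (x g)).1 fun l0 => ?_
  obtain ⟨c, hc⟩ := hx.1.pz.1
  obtain ⟨B, hB⟩ := hc.bd
  obtain ⟨C0, p0, q0⟩ := PatA.bound l0
  have B0 : 0 ≤ B := (norm_nonneg _).trans (hB 0 1)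
  obtain ⟨t, t0, t1⟩ := NormedField.exists_norm_lt ℚ_[2] (show 0 < (C0 * (B + 1))⁻¹ by positivity)
  refine (smul_eq_zero_iff_right (norm_pos_iff.1 t0)).1 (?_ : (t • l0) (x g) = 0)
  have i1 : ∀ a : A, ‖ι * a‖ ≤ ‖a‖ := fun a =>
    (norm_mul_le _ _).trans (mul_le_of_le_one_left (norm_nonneg _) h.le1)
  have hl : ∀ a, ‖a‖ ≤ B → ‖(t • l0) a‖ ≤ 1 := fun a ha => by
    rw [LinearMap.smul_apply, norm_smul]
    refine (mul_le_mul t1.le ((q0 a).trans (mul_le_mul_of_nonneg_left (ha.trans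
      (le_add_of_nonneg_right zero_le_one)) p0.le)) (norm_nonneg _) (by positivity)).trans_eq ?_
    exact inv_mul_cancel₀ (by positivity)
  generalize t • l0 = l at hl
  obtain ⟨C, p1, q1⟩ := PatA.bound l
  let R : O → A → Prop := fun u a => (u.re : ℚ_[2]) = l a ∧ (u.im : ℚ_[2]) = -l (ι * a)
  have r1 : ∀ {u v a b}, R u a → R v b → R (u - v) (a - b) := fun p q => by
    simp only [R, QuadraticAlgebra.re_sub, QuadraticAlgebra.im_sub, PadicInt.coe_sub, p.1, p.2,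
      q.1, q.2, mul_sub, map_sub, true_and]
    ring
  have r2 : ∀ {u a} (r : O), R u a → R (r * u) (jo ι r * a) := fun {u a} r p => by
    have e : ι * (jo ι r * a) = (r.re : ℚ_[2]) • (ι * a) - (r.im : ℚ_[2]) • a := by
      simp only [jo, Algebra.smul_def]
      linear_combination algebraMap ℚ_[2] A r.im * a * h.sq
    simp only [R, e]
    simp only [QuadraticAlgebra.re_mul, QuadraticAlgebra.im_mul, PadicInt.coe_add,
      PadicInt.coe_mul, PadicInt.coe_neg, PadicInt.coe_one, PadicInt.coe_zero, p.1, p.2, jo,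
      add_mul, smul_mul_assoc, one_mul, map_add, map_sub, map_smul, smul_eq_mul]
    constructor <;> ring
  have nd : ∀ (n : ℕ) (a : ℤ_[2]), ‖(a : ℚ_[2])‖ ≤ ((2 : ℕ) : ℝ) ^ (-n : ℤ) ↔ 2 ^ n ∣ a :=
    fun n a => (PadicInt.norm_le_pow_iff_mem_span_pow a n).trans Ideal.mem_span_singleton
  have r3 : ∀ n, ∃ ε : ℝ, 0 < ε ∧ ∀ u a, R u a → ‖a‖ ≤ ε → Dv n u := fun n =>
    ⟨((2 : ℕ) : ℝ) ^ (-n : ℤ) / C, by positivity, fun u a p q => by
      rw [le_div_iff₀' p1] at q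
      refine (dv_two_iff.2 ⟨(nd n _).1 ?_, (nd n _).1 ?_⟩).mono (by omega)
      · exact p.1 ▸ (q1 a).trans q
      · rw [p.2, norm_neg]
        exact (q1 _).trans ((mul_le_mul_of_nonneg_left (i1 a) p1.le).trans q)⟩
  let y : ℕ → GQ → O := fun k g => ⟨⟨l (c k g), hl _ (hB k g)⟩,
    -⟨l (ι * c k g), hl _ ((i1 _).trans (hB k g))⟩⟩
  have ry : ∀ k g, R (y k g) (c k g) := fun k g => ⟨rfl, rfl⟩
  have hr := rep D h
  rw [KC_GK] at hr
  have key := str_zero D hS hZ (y := y) fun n => by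
    obtain ⟨ε, hε, r⟩ := r3 n
    have h1 : ∀ᶠ k in UF, ∀ q : Pl × GQ, q.2 ∈ q.1.I ∧ ¬ q.1.p ∣ 2 * D.n → ‖c k q.2‖ ≤ ε := by
      have : Nonempty Pl := ⟨D.w⟩
      refine ev_choice (p := fun k (q : Pl × GQ) => q.2 ∈ q.1.I ∧ ¬ q.1.p ∣ 2 * D.n →
        ‖c k q.2‖ ≤ ε) fun f => ?_
      by_cases a : ∀ᶠ k in UF, (f k).2 ∈ (f k).1.I ∧ ¬ (f k).1.p ∣ 2 * D.n
      · have b := hc.lim (fun k => (f k).2) (a.mono fun k b => KC_GK ▸ IK (fun d => b.2
          (d.dvd.mul_right _)) 0 b.1)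
        rw [hx.1.unr _ _ a] at b
        exact (PatB.small b hε).mono fun k e _ => e
      · exact (ev_not.1 a).mono fun k e e' => absurd e' e
    filter_upwards [hx.1.pz.ac hr hc hε, h1,
      hc.small (.of_forall fun _ => inf_le_right) hx.2 hε] with k a b d
    rw [KC_GK]
    obtain ⟨N, hN, e⟩ := hc.uc k ε hε
    refine ⟨⟨⟨N, hN, fun g hg s hs m => r _ _ (r1 (ry k _) (ry k _)) (e g hg s hs m)⟩,
      fun g hg s hs => ?_⟩, fun w p g hg => r _ _ (ry k g) (b (w, g) ⟨hg, p⟩),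
      fun g hg => r _ _ (ry k g) (d g hg)⟩
    rw [ar (KC_GK ▸ hg)]
    exact r _ _ (r1 (r1 (ry k _) (ry k _)) (r2 _ (ry k _)))
      (by simpa [Dat.r, Dat.xi] using a g hg s hs)
  refine PatB.zero_of ((l.continuous_of_finiteDimensional.tendsto _).comp (hc.lim g hg))
    fun ε hε => ?_
  obtain ⟨m, hm⟩ := exists_pow_lt_of_lt_one hε (show (2⁻¹ : ℝ) < 1 by norm_num)
  filter_upwards [key (2 * m), mem_St.1 hg] with k a b
  refine ((nd m _).2 (dv_two_iff.1 (a _ (KC_GK ▸ b))).1).trans ?_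
  simpa using hm.le

/-- the form which uses the orthogonality hypothesis -/
theorem z0_of_zer (D : Dat) {d : ℤ} {e : ℕ → O →+ MP_9c97e9_nt.Pt (W d) Om} (h0 : d ≠ 0)
    (hw : D.w = QT.CG.w2) (hn : ∀ p : ℕ, p.Prime → p ∣ D.n → (p : ℤ) ∣ d)
    (h : QT.CG.Zer d D.ρ e) : D.Z0 := by
  obtain ⟨P, κ, -, -, h⟩ := h
  refine z0 D (fun p a b => Nat.mem_primeFactors.2 ⟨a, Int.natCast_dvd.1 (hn p a b),
    Int.natAbs_ne_zero.2 h0⟩) fun X a b => h X a fun n => Triv.one.congr fun g hg s _ => ?_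
  simp [wp, b g (hw ▸ hg), TABHN.ec_zero a_EC.1]

end Pool.Agent.P.MP_8b7eba_nt.CG.K
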