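import Pool.Agent.P.MP_8b7eba_nt.CG.HA
import Pool.Agent.P.MP_8b7eba_nt.R2.Csum

/-! The class of the system of units vanishes for all coefficient rings as soon as the integral
sums tend to zero. -/

namespace Pool.Agent.P.MP_8b7eba_nt.CG.K

open R2 QT Filter Topology

theorem kum_near {k : ℕ} {c : GQ} {v : Om} {a : ℤ_[2]} (h0 : v ≠ 0)
    (ha : ∀ r, r ^ 2 ^ k = v → c r = ec ((a : ℚ_[2]) / 2 ^ k) * r) :
    ‖kum k c v - a‖ ≤ 2⁻¹ ^ k := by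
  have h1 := (Classical.epsilon_spec (p := fun a : ℚ_[2] => ‖a‖ ≤ 1 ∧ ∀ r, r ^ 2 ^ k = v →
    c r = ec (a / 2 ^ k) * r) ⟨a, a.2, ha⟩).2
  obtain ⟨r, hr⟩ := exists_root v (Nat.two_pow_pos k).ne'
  have r0 : r ≠ 0 := fun e => h0 (by rw [← hr, e, zero_pow (Nat.two_pow_pos k).ne'])
  have h2 : ec (kum k c v / 2 ^ k) = ec ((a : ℚ_[2]) / 2 ^ k) :=
    mul_right_cancel₀ r0 ((h1 r hr).symm.trans (ha r hr))
  have h3 : ec ((kum k c v - a) / 2 ^ k) = 1 := by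
    rw [sub_div, sub_eq_add_neg, a_EC.1.add, h2, ← a_EC.1.add, add_neg_cancel,
      TABHN.ec_zero a_EC.1]
  have h4 : ‖(2 : ℚ_[2])‖ = 2⁻¹ := by simpa using Padic.norm_p (p := 2)
  rwa [a_EC.1.eq_one, norm_div, norm_pow, h4, div_le_one (by positivity)] at h3

/-- `a k c σ` is any integral Kummer exponent of `σ (th (2 ^ (k + 2)))` at `c` modulo `2 ^ k` -/
theorem k0_of {D : Dat} (E : ES D) (a : ℕ → GQ → GQ → ℤ_[2])
    (ha : ∀ k, ∀ g ∈ GK, ∀ σ ∈ GK, ∀ r, r ^ 2 ^ k = σ (E.th (2 ^ (k + 2))) →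
      cm D.z g r = ec ((a k (cm D.z g) σ : ℚ_[2]) / 2 ^ k) * r)
    (h : ∀ n, ∀ᶠ k in UF, ∀ g ∈ GK, Dv n (csum GK (E.N (2 ^ (k + 2))) fun σ =>
      (a k (cm D.z g) σ * ((cyc σ)⁻¹ : ℤ_[2]ˣ)) • D.ρ σ)) : E.K0 := by
  intro A _ _ _ _ ι hc
  funext g
  rw [ES.kap]
  split_ifs with hg
  swap
  · rfl
  refine ul_eq (NormedAddGroup.tendsto_nhds_zero.2 fun ε hε => ?_)
  obtain ⟨n, hn⟩ := jo_small hc (half_pos hε)
  obtain ⟨m, hm⟩ := exists_pow_lt_of_lt_one (half_pos hε) (show (2⁻¹ : ℝ) < 1 by norm_num)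
  filter_upwards [h n, mem_St.1 hg, ev_ge m] with k p q t
  have l0 : (2 : GaussianInt) ^ (k + 2) ≠ 0 := pow_ne_zero _ two_ne_zero
  have fi := relIndex_ne_zero (E.op _ l0) GK
  have p1 := hn _ (p _ q)
  have p2 := map_csum fi (jH hc.sq).toAddMonoidHom fun σ =>
    (a k (cm D.z (g k)) σ * ((cyc σ)⁻¹ : ℤ_[2]ˣ)) • D.ρ σ
  simp only [RingHom.toAddMonoidHom_eq_coe, AddMonoidHom.coe_coe] at p2
  rw [p2] at p1
  refine lt_of_le_of_lt ?_ (half_lt_self hε)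
  rw [← sub_add_cancel (ES.mu ..) _]
  refine SelA.add ?_ p1
  rw [ES.mu, ← csum_sub fi]
  refine finsum_induction (fun x : A => ‖x‖ ≤ ε / 2) (by simpa using (half_pos hε).le)
    (fun _ _ => SelA.add) fun s => ?_
  generalize (s.out : GK) = σ
  have e : jH hc.sq ((a k (cm D.z (g k)) σ * ((cyc σ)⁻¹ : ℤ_[2]ˣ)) • D.ρ σ) =
      (a k (cm D.z (g k)) σ : ℚ_[2]) • (cq σ)⁻¹ • D.xi ι (fun _ => 1) σ := by
    have : (((cyc σ)⁻¹ : ℤ_[2]ˣ) : ℤ_[2]) = (cq σ)⁻¹ := eq_inv_of_mul_eq_one_left (by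
      rw [cq, ← PadicInt.coe_mul, Units.inv_mul, PadicInt.coe_one])
    change jo ι _ = _
    simp only [jo, Dat.xi, QuadraticAlgebra.re_smul, QuadraticAlgebra.im_smul, smul_eq_mul,
      PadicInt.coe_mul, this, one_mul, mul_smul, smul_add]
  beta_reduce
  rw [e, ← sub_smul, norm_smul, norm_smul, norm_inv, show ‖cq σ‖ = 1 from
    PadicInt.norm_units (cyc σ), inv_one, one_mul, Dat.xi, one_mul]
  refine (mul_le_of_le_one_right (norm_nonneg _) (jo_le hc _)).trans ((kum_near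
    ((_root_.map_ne_zero _).2 (E.fix _ l0 ⟨2 ^ k, by ring⟩).1) (ha k _ q _ σ.2)).trans
    ((pow_le_pow_of_le_one (by norm_num) (by norm_num) t).trans hm.le))

end Pool.Agent.P.MP_8b7eba_nt.CG.K
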