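import Pool.Agent.P.MP_8b7eba_nt.CG.Defs

/-! The statements at the top level of the project CG. -/

namespace Pool.Agent.P.MP_8b7eba_nt.QT.CG

open R2 SM Polynomial Filter Module
open MP_9c97e9_nt (Pt pm Is)

/-! ### Basic facts -/

/-- the Gaussian field -/
-- deps:
def S_BGK : Prop :=
  ON GK ∧ TC GK ∧ GK.index = 2 ∧ (∀ g, g ∈ GK ↔ qz (-1) g = 0) ∧ (∀ g, g ∈ GK ↔ ep (cyc g) = 0) ∧
    (∀ g ∈ GK, ∀ b, g (eK b) = eK b) ∧ (∀ g, g ∉ GK → ∀ b, g (eK b) = eK (star b)) ∧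
    Function.Injective eK ∧ Function.Injective eO ∧ (∀ b, eO (star b) = star (eO b)) ∧
    (∀ w : Pl, w.p = 2 → ∃ u ∈ GK, u • w = w2) ∧ w2.p = 2 ∧ w2.Loc D2 ∧ (∃ c ∈ w2.I, c ∉ GK) ∧
    (∀ u : ℤ_[2]ˣ, ep u = 0 → ∃ g ∈ w2.I ⊓ GK, cyc g = u) ∧ (∀ w : Pl, w.p ≠ 2 → w.I ≤ GK) ∧
    (∀ g h, la (g * h) = la g + la h) ∧ ∀ n g, g ∈ KC n ↔ 2 ^ (n + 2) ∣ (cyc g : ℤ_[2]) - 1

/-- the characters -/
-- deps: BGK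
def S_BCH : Prop :=
  ∀ (D : ℤ) (δ : Om), D ≠ 0 → δ ^ 4 = D → Cy (rho δ) ∧
    (∀ g, kd δ g = eO (ku δ g) ∧ ku δ g ^ 4 = 1 ∧ g δ = eK (star (ku δ g)) * δ ∧ Dv 1 (rho δ g - 1)) ∧
    (∀ g ∈ GK, ∀ h, ku δ (g * h) = ku δ g * ku δ h ∧ r1 (g * h) = r1 g * r1 h ∧
      rho δ (g * h) = rho δ g * rho δ h ∧ rho δ g * star (rho δ g) = algebraMap ℤ_[2] O (cyc g)) ∧
    (∀ w : Pl, w.p ≠ 2 → ∀ g ∈ w.I, r1 g = 1 ∧ (¬ (w.p : ℤ) ∣ D → g δ = δ ∧ rho δ g = 1)) ∧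
    (∀ w : Pl, w.p ≠ 2 → (w.p : ℤ) ∣ D → ¬ (w.p : ℤ) ^ 4 ∣ D → ∃ g ∈ w.I, rho δ g ≠ 1) ∧
    ∀ m : ℤ, m ≠ 0 → ∀ g, ku (m * δ) g = ku δ g ∧ rho (m * δ) g = rho δ g

/-- the Kummer cochain -/
-- deps:
def S_KCX : Prop :=
  (∀ x : Om, x ≠ 0 → (∀ n, rtn x (n + 1) ^ 2 = rtn x n ∧ rtn x n ^ 2 ^ n = x) ∧
    (∀ (g : GQ) n, g (rtn x n) = ec ((kc g x : ℚ_[2]) / 2 ^ n) * rtn (g x) n) ∧
    (∀ g h : GQ, kc (g * h) x = kc g (h x) + cyc g * kc h x) ∧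
    (∀ n, ∃ N, ON N ∧ ∀ k ∈ N, k x = x ∧ 2 ^ n ∣ kc k x) ∧
    ∀ (g : GQ) n, g x = x → (2 ^ n ∣ kc g x ↔ g (rtn x n) = rtn x n)) ∧
  (∀ r : ℕ → Om, r 0 ≠ 0 → (∀ n, r (n + 1) ^ 2 = r n) →
    ∃! s : ℤ_[2], ∀ n, r n = ec ((s : ℚ_[2]) / 2 ^ n) * rtn (r 0) n) ∧
  ∃ s : Om → Om → ℤ_[2], ∀ x y, x ≠ 0 → y ≠ 0 → ∀ g : GQ,
    kc g (x * y) = kc g x + kc g y + cyc g * s x y - s (g x) (g y)

/-! ### Block A: complex multiplication -/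

/-- uniformisation -/
-- deps:
def S_UNI : Prop :=
  ∃ (Ω : ℂ) (L : PeriodPair) (u : ℂ →+ Pt (W 1) ℂ), Ω ≠ 0 ∧
    (∀ z, z ∈ L.lattice ↔ ∃ b : ZI, z = io (eK b) * Ω) ∧ Function.Surjective u ∧
    (∀ z, u z = 0 ↔ z ∈ L.lattice) ∧
    (∀ z, z ∉ L.lattice → Is (u z) (L.weierstrassP z) (L.derivWeierstrassP z)) ∧
    ∀ (b : ZI) (P : EE) (z : ℂ), pm (W 1) io P = u z → pm (W 1) io (b • P) = u (io (eK b) * z)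

/-- the torsion points -/
-- deps: UNI
def S_GEN : Prop :=
  ∀ M : ZI, M ≠ 0 → Gn M (gen M) ∧ (∀ l, l ≠ 0 → l • gen (M * l) = gen M) ∧
    {P : EE | M • P = 0}.Finite ∧ ({P : EE | M • P = 0}.ncard : ℤ) = M.norm ∧
    ∀ P : EE, ∃ Q, M • Q = P

/-- the Galois action and the complex multiplication -/
-- deps: BGK
def S_LIN : Prop :=
  (∀ g ∈ GK, ∀ (b : ZI) P, ga g (b • P) = b • ga g P) ∧
  (∀ g, g ∉ GK → ∀ (b : ZI) P, ga g (b • P) = star b • ga g P) ∧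
  (∀ (g : GQ) (P : EE), xc (ga g P) = g (xc P) ∧ yc (ga g P) = g (yc P)) ∧
  (∀ P : EE, P ≠ 0 → Is P (xc P) (yc P)) ∧ (∀ (P : EE) x η, Is P x η → xc P = x ∧ yc P = η) ∧
  (∀ P : EE, xc (iz • P) = -xc P ∧ yc (iz • P) = iK * yc P) ∧
  (∀ n (b : ZI) a, e1 n (eO b * a) = b • e1 n a) ∧
  (∀ g ∈ GK, ∀ n a, ga g (e1 n a) = e1 n (r1 g * a)) ∧
  ∀ g ∈ GK, ∀ n b, Ar (2 ^ n) g b ↔ Dv (2 * n) (r1 g - eO b)

/-- the product formula for the first coordinate -/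
-- deps: UNI GEN LIN
def S_XP : Prop :=
  ∀ (β : ZI) (e : ℤ), Prim β → (e = 0 ∨ e = 1 ∨ e = -1) → ∃ c : Om,
    c ^ 2 = (3 * e ^ 2 - 1 : Om) ^ (β.norm - 1) ∧
    (∀ P : EE, β • P ≠ 0 → ∏ᶠ R : {R : EE // β • R = 0}, (xc (P + R.1) - e) = c * (xc (β • P) - e)) ∧
    (∏ᶠ R : {R : EE // β • R = 0 ∧ R ≠ 0}, (xc R.1 - e)) * eK β ^ 2 = c

/-- the fields of torsion points -/
-- deps: BGK GEN LIN XP FRB
def S_LEV : Prop :=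
  NM (pz ^ 3) = GK ∧ ∀ M : ZI, M ≠ 0 → IsOpen (NM M : Set GQ) ∧
    (∀ g ∈ GK, ∀ h ∈ GK, g * h * g⁻¹ * h⁻¹ ∈ NM M) ∧ (M ∣ star M → ON (NM M)) ∧
    (∀ g ∈ GK, ∃ b, Prim b ∧ IsCoprime b M ∧ Ar M g b) ∧
    (∀ b, Prim b → IsCoprime b M → ∃ g ∈ GK, Ar M g b) ∧
    ∀ w : Pl, w.p ≠ 2 → w.v (eK M) = 1 → w.I ≤ NM M

/-- Frobenius elements -/
-- deps: BGK GEN LIN XP
def S_FRB : Prop :=
  (∀ (β : ZI) (w : Pl) (f : ℕ) (φ : GQ), Prime β → Prim β → w.v (eK β) < 1 → w.IsFrob f φ →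
    (w.p : ℤ) ^ f = β.norm → φ ∈ GK ∧ ∀ M, IsCoprime β M → Ar M φ β) ∧
  (∀ β : ZI, Prime β → ∃ (w : Pl) (f : ℕ) (φ : GQ), w.v (eK β) < 1 ∧ w.IsFrob f φ ∧
    (w.p : ℤ) ^ f = β.norm) ∧
  ∀ w : Pl, w.p ≠ 2 → ∃ β : ZI, Prime β ∧ Prim β ∧ (∀ b, w.v (eK b) < 1 ↔ β ∣ b) ∧
    (w.p % 4 = 1 ∧ β.norm = w.p ∧ w.D ≤ GK ∨ w.p % 4 = 3 ∧ β = -w.p)

/-- ramification at a prime of degree one -/
-- deps: BGK GEN LIN XP LEV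
def S_RAM : Prop :=
  ∀ (β b : ZI) (w : Pl) (t : GQ), Prime β → Prim β → β.norm = w.p → w.v (eK β) < 1 → t ∈ w.I →
    (∀ s : Om, s ^ 2 = w.p → t s = -s) → Ar β t b → ∀ c, ¬ β ∣ b - c ^ 2

/-- fourth roots lie in the fields of torsion points -/
-- deps: BGK BCH GEN LIN XP
def S_QRT : Prop := ∀ (D : ℤ) (δ : Om), D ≠ 0 → δ ^ 4 = D → Fix (NM (16 * D)) δ

/-- the Galois group of a step of the tower -/
-- deps: GEN LIN LEV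
def S_FIB : Prop :=
  ∀ (M l : ZI) (P : EE), pz ^ 3 ∣ M → M * l ≠ 0 → (∀ q, Prime q → q ∣ l → q ∣ M) → Gn (M * l) P →
    (∀ T, l • T = 0 → ∃ g ∈ NM M, ga g P = P + T) ∧
    ∀ (Y : Type) [CommMonoid Y] (f : EE → Y),
      ∏ᶠ q : NM M ⧸ (NM (M * l)).subgroupOf (NM M), f (ga (q.out : NM M) P) =
        ∏ᶠ T : {T : EE // l • T = 0}, f (P + T)

/-- the elliptic function -/
-- deps: BGK UNI GEN LIN
def S_TH : Prop :=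
  ∀ a, Prim a → (XT a).Finite ∧ ∀ P, (a • P ≠ 0 → th a P ≠ 0 ∧ xc P ∉ XT a) ∧
    th a (iz • P) = th a P ∧ dl a (iz • P) * iK = dl a P ∧
    ∀ g ∈ GK, g (th a P) = th a (ga g P) ∧ g (dl a P) = dl a (ga g P)

/-- the distribution relation -/
-- deps: UNI GEN LIN TH
def S_DIST : Prop :=
  ∀ (a b : ZI) (P : EE), Prim a → IsCoprime a b → b ≠ 0 → (a * b) • P ≠ 0 →
    ∏ᶠ R : {R : EE // b • R = 0}, th a (P + R) = th a (b • P)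

/-- the relation between two elliptic functions -/
-- deps: UNI GEN LIN TH DIST
def S_CROSS : Prop :=
  ∀ (a a' : ZI) (P : EE), Prim a → Prim a' → IsCoprime a a' → (a * a') • P ≠ 0 →
    th a P ^ a'.norm * th a' (a • P) = th a' P ^ a.norm * th a (a' • P)

/-- the norm relations -/
-- deps: GEN LIN LEV FIB TH DIST
def S_NRM : Prop :=
  ∀ (a M l : ZI), Prim a → pz ^ 3 ∣ M → M * l ≠ 0 → IsCoprime a l →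
    Fix (NM M) (th a (gen M)) ∧ th a (gen M) ≠ 0 ∧
    ((∀ q, Prime q → q ∣ l → q ∣ M) → nrm (NM M) (NM (M * l)) (th a (gen (M * l))) = th a (gen M)) ∧
    ∀ φ ∈ GK, ∀ b, Prime l → ¬ l ∣ M → Associated b l → Ar M φ b →
      nrm (NM M) (NM (M * l)) (th a (gen (M * l))) * φ⁻¹ (th a (gen M)) = th a (gen M)

/-- the values at torsion points are units -/
-- deps: GEN LIN XP TH DIST
def S_UNIT : Prop :=
  ∀ (a M : ZI) (P : EE) (w : Pl), Prim a → IsCoprime a M → P ≠ 0 → M • P = 0 → w.p ≠ 2 →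
    w.v (eK M) = 1 → w.v (th a P) = 1

/-- the value at the bottom of the tower -/
-- deps: UNI GEN LIN TH DIST
def S_TH3 : Prop := ∀ a, Prim a → th a (gen (pz ^ 3)) ^ 4 = eK pz ^ (a.norm - 1)

/-- existence of the quartic character -/
-- deps: BGK BCH GEN LIN LEV FRB QRT
def S_CHI : Prop := ∀ D : ℤ, D ≠ 0 → ∃ χ, IsChi D χ

/-! ### Block L: the L-function -/

/-- the number of points modulo a prime -/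
-- deps:
def S_AP : Prop :=
  ∀ (D : ℤ) (χ : ZI → ZI) (p : ℕ) (c : ℤ), IsChi D χ → p.Prime → ¬ (p : ℤ) ∣ 2 * D →
    c = p - Nat.card {q : ZMod p × ZMod p //
      q.2 ^ 2 = q.1 ^ 3 + ((-D : ℤ) : ZMod p) * q.1 + ((0 : ℤ) : ZMod p)} →
    (p % 4 = 3 → c = 0 ∧ χ (-p) = 1) ∧
    ∀ β : ZI, Prim β → β.norm = p → (c : ZI) = χ β * β + star (χ β * β)

/-- analytic continuation -/
-- deps: CHI AP
def S_LEX : Prop := ∀ D : ℤ, D ≠ 0 → ∃ f, IsLF (-D) 0 f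

/-- the central value -/
-- deps: BGK BCH UNI GEN LIN LEV TH CHI AP
def S_LALG : Prop :=
  ∀ (D : ℤ) (δ : Om) (a : ZI) (f : ℂ → ℂ) (P : EE), D ≠ 0 → δ ^ 4 = D → Adm D a → Gn (16 * D) P →
    IsLF (-D) 0 f → f 1 = 0 → csum GK (NM (16 * D)) (fun σ => σ (δ * dl a P)) = 0

/-- removal of fourth powers -/
-- deps:
def S_LRED : Prop :=
  ∀ (D m : ℤ) (f f₀ : ℂ → ℂ), D ≠ 0 → m ≠ 0 → IsLF (-(D * m ^ 4)) 0 f → IsLF (-D) 0 f₀ →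
    f 1 = 0 → f₀ 1 = 0

/-! ### Block P: parity -/

/-- half of the twists are good -/
-- deps:
def S_DENSP : Prop :=
  ∀ ε : ℝ, 0 < ε → ∀ᶠ X : ℕ in atTop,
    (1 / 2 - ε) * (2 * X) ≤ ({D : ℤ | |D| ≤ X ∧ GoodP D}.ncard : ℝ)

end Pool.Agent.P.MP_8b7eba_nt.QT.CG
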