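import Pool.Agent.P.MP_8b7eba_nt.CG.If

/-! Local lemmas for the explicit reciprocity law. -/

namespace Pool.Agent.P.MP_8b7eba_nt.QT.CG

open R2 SM Polynomial Filter Module
open scoped NNReal
open MP_9c97e9_nt (Pt pm Is)

/-- the local parameter at the origin -/
noncomputable def tt (Q : EE) : Om := -2 * xc Q / yc Q

/-- expansions at the origin -/
-- deps: BGK LIN TH
def S_TAY : Prop :=
  (∀ (Q : EE) (k : ℕ), 1 < w2.v (xc Q) → w2.v (xc ((2 ^ k : ZI) • Q)) = 4 ^ k * w2.v (xc Q)) ∧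
  ∀ (a : ZI) (ι : Type) (s : Finset ι) (P : ι → EE) (u : ι → ZI), Prim a → (∀ j ∈ s, a • P j ≠ 0) →
    (∀ j ∈ s, u j ^ 4 = 1) → ∃ C : ℝ≥0, ∀ Q : EE, C < w2.v (xc Q) →
      (∀ j ∈ s, a • (P j + u j • Q) ≠ 0 ∧
        w2.v (th a (P j + u j • Q) / th a (P j) - 1) ^ 2 * w2.v (xc Q) ≤ C) ∧
      w2.v (∏ j ∈ s, th a (P j + u j • Q) / th a (P j) - 1 -
        tt Q * ∑ j ∈ s, eK (u j) * dl a (P j)) * w2.v (xc Q) ≤ C

/-- an approximate logarithm -/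
-- deps:
def S_LOG : Prop :=
  ∀ N : ℕ, ∃ L : O → O,
    (∀ u v, Dv 2 (u - 1) → Dv 2 (v - 1) → Dv (2 * N) (L (u * v) - L u - L v)) ∧
    ∀ m u, 1 ≤ m → Dv (2 * m) (u - 1) → Dv (2 * m) (L u) ∧ Dv (2 * (2 * m - 1)) (L u - (u - 1))

/-- equivariant roots -/
-- deps: BGK
def S_RT : Prop :=
  ∀ i : ℕ, ∃ f : Om → Om, ∀ x, w2.v (x - 1) * 2 ^ (i + 1) < 1 →
    f x ^ 2 ^ i = x ∧ ∀ g ∈ w2.D, g (f x) = f (g x)

end Pool.Agent.P.MP_8b7eba_nt.QT.CG
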