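import Pool.Agent.P.MP_8b7eba_nt.CG.DefJ
import Pool.Agent.P.MP_8b7eba_nt.QT.BasO

/-! The interface of the block which bounds the Selmer groups from below. -/

namespace Pool.Agent.P.MP_8b7eba_nt.CG

open R2 Polynomial
open QT (O Cy rdH)
open scoped Matrix

/-- the eigenspaces of a residually nilpotent matrix embed in the Selmer groups -/
def LBK : Prop :=
  ∀ (D : Dat) (v : ℕ → ℕ), (cyc D.h : ℤ_[2]) = 5 → (∀ β : Om, β ^ 2 = 1 + rt (-1) → D.z β = -β) →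
    (∀ p ∈ D.n.primeFactors.erase 2, ∀ u : ℤ_[2]ˣ, (u : ℤ_[2]) = p → (lg u).valuation = v p) →
    ∃ (σ : ℕ) (M : Matrix (Fin σ) (Fin σ) O),
      σ = ∑ p ∈ D.n.primeFactors.erase 2, 2 ^ (v p + 1) ∧ M.charpoly.map rdH = X ^ σ ∧
      ∀ (A : Type) [NormedCommRing A] [NormedAlgebra ℚ_[2] A] [IsUltrametricDist A]
        [FiniteDimensional ℚ_[2] A] (ι : A) (ψ : ℤ_[2] → A), Cf ι ψ →
        ∃ L : (Fin σ → A) →ₗ[A] GS → A, Function.Injective L ∧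
          ∀ x, M.map (jo ι) *ᵥ x = (ψ 1 - 1) • x → D.Sel ι ψ (L x)

/-- the two elements of the decomposition group at two -/
def EXK : Prop :=
  ∀ (ρ : GQ → O) (w : Pl), Cy ρ → w.p = 2 → ∃ γ ∈ w.I ⊓ GK, ∃ f ∈ w.D ⊓ GK,
    (cyc γ : ℤ_[2]) = 5 ∧ cyc f = 1 ∧ (∀ β : Om, β ^ 2 = 1 + rt (-1) → f β = -β) ∧ ρ f ≠ 1

end Pool.Agent.P.MP_8b7eba_nt.CG
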