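import Pool.Agent.P.MP_8b7eba_nt.CG.EC
import Pool.Agent.P.MP_8b7eba_nt.CG.IfE
import Pool.Agent.P.MP_8b7eba_nt.CG.IfT
import Pool.Agent.P.MP_8b7eba_nt.QT.BasW

/-! The statements which are assembled in the main theorem of the project CG. -/

namespace Pool.Agent.P.MP_8b7eba_nt.QT.CG

open R2 SM Filter

/-- the elliptic units are orthogonal to the local class `κ` -/
def Ort (D : ℤ) (δ : Om) (a : ZI) (κ : GQ → O) : Prop :=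
  ∀ (α : O) (i : ℕ), ∀ᶠ k in atTop, ∀ [Fintype (GQ ⧸ NM (lv D k))],
    Ks w2.D (bq (NM (lv D k))) i (fun j => j.out (th a (gen (lv D k))))
      fun j g => pr 1 α (ac (rho δ) j.out⁻¹ (κ g))

/-- the system `E` consists of the elliptic units along the tower -/
def Ell (D : ℤ) (δ : Om) (a : ZI) {d : MP_8b7eba_nt.CG.Dat} (E : MP_8b7eba_nt.CG.ES d) : Prop :=
  d.ρ = rho δ ∧ ∀ k : ℕ, E.N (2 ^ (k + 2)) = NM (lv D (k + 2)) ∧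
    E.th (2 ^ (k + 2)) = th a (gen (lv D (k + 2)))

/-- the explicit reciprocity law -/
-- deps: BGK BCH GEN LIN LEV QRT FIB TH DIST TAY LOG RT
def S_ERL : Prop :=
  ∀ (D : ℤ) (δ : Om) (a : ZI) (Q : ℕ → EE) (κ : GQ → O), D ≠ 0 → δ ^ 4 = D → Adm D a →
    csum GK (NM (16 * D)) (fun σ => σ (δ * dl a (gen (16 * D)))) = 0 → 1 < w2.v (xc (Q 0)) →
    (∀ n, 2 • Q (n + 1) = Q n) → (∀ n, ∀ g ∈ w2.D, e1 n (κ g) = tac δ g (Q n) - Q n) →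
    (∀ n, Zn (rho δ) w2.D n κ) → Ort D δ a κ

/-- the class of the elliptic units vanishes -/
-- deps: BGK BCH KCX GEN LIN LEV QRT TH UNIT
def S_KZ : Prop :=
  ∀ (D : ℤ) (δ : Om) (a : ZI) (κ : GQ → O) (S : Finset ℕ) (d : MP_8b7eba_nt.CG.Dat)
    (E : MP_8b7eba_nt.CG.ES d), D ≠ 0 → δ ^ 4 = D → Adm D a → D.natAbs.primeFactors ⊆ S →
    (∀ n, Zn (rho δ) w2.D n κ) → Ort D δ a κ →
    (∀ X, (∀ n, Zu (rho δ) S n X) → (∀ n, Triv w2.D (wp 1 (rho δ) n X κ)) →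
      Ex false (rho δ) ⊤ X) → Ell D δ a E → E.K0

/-- the class of the elliptic units does not vanish -/
-- deps: BGK BCH GEN LIN LEV FRB RAM QRT TH CROSS NRM TH3
def S_GLU : Prop :=
  ∀ (D : ℤ) (δ : Om), D ≠ 0 → δ ^ 4 = D → (∀ p : ℕ, p.Prime → p ≠ 2 → ¬ (p : ℤ) ^ 4 ∣ D) →
    ∃ (a : ZI) (d : MP_8b7eba_nt.CG.Dat) (E : MP_8b7eba_nt.CG.ES d), Adm D a ∧ d.n = D.natAbs ∧
      d.w = w2 ∧ Ell D δ a E ∧ (d.Z0 → ¬ E.K0)

/-- the converse theorem -/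
-- deps: BGK BCH GEN LIN LEX LALG LRED ERL KZ GLU
def S_CONV : Prop := ∀ (D : ℤ) (f : ℂ → ℂ), GoodP D → IsLF (-D) 0 f → f 1 ≠ 0

end Pool.Agent.P.MP_8b7eba_nt.QT.CG
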