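import Pool.Agent.P.MP_8b7eba_nt.CG.DefJ
import Pool.Agent.P.MP_8b7eba_nt.QT.BasK
import Pool.Agent.P.MP_8b7eba_nt.R2.AllL

/-! The Gaussian field, the characters and the representations. -/

namespace Pool.Agent.P.MP_8b7eba_nt.CG

open R2 Filter Topology
open QT (O Cy I_sq)

variable {g h : GQ} {w : Pl}

/-! ### The Gaussian field -/

theorem mem_GK : g ∈ GK ↔ qz (-1) g = 0 :=
  (qz_eq_zero (δ := rt (-1)) (m := -1) (rt_sq _)).symm

theorem GK_open : IsOpen (GK : Set GQ) := isOpen_stab _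

theorem conj_GK (s : GQ) : s * g * s⁻¹ ∈ GK ↔ g ∈ GK := by rw [mem_GK, mem_GK, qz_conj]

theorem GK_on : ON GK := ⟨⟨fun _ hg s => (conj_GK s).2 hg⟩, GK_open⟩

theorem GK_tc : TC GK := fun s e => by
  rw [conj_GK, mem_GK, qz_tau a_TAU (by norm_num)] at e
  norm_num at e

theorem I_ne : rt (-1) ≠ -rt (-1) := fun e => by
  have h1 : rt (-1) = 0 := by linear_combination (1 / 2 : Om) * e
  have h2 := I_sq
  rw [h1] at h2
  norm_num at h2

theorem gal_out (hg : g ∉ GK) : g (rt (-1)) = -rt (-1) := by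
  rw [QT.gal_I, if_neg (mt mem_GK.2 hg)]

theorem mul_GK (hg : g ∉ GK) (hh : h ∉ GK) : g * h ∈ GK := by
  change g (h _) = _
  rw [gal_out hh, map_neg, gal_out hg, neg_neg]

theorem GK_cyc : g ∈ GK ↔ 4 ∣ (cyc g : ℤ_[2]) - 1 := mem_GK.trans (qz_neg_one a_EC)

theorem I_le_GK (h2 : w.p ≠ 2) : w.I ≤ GK := fun _ hg =>
  Pl.I_fix a_TAME a_RES h2 (m := -1) (rt_sq _) (fun e => w.prime.one_lt.ne'
    (by exact_mod_cast Int.eq_one_of_dvd_one (by positivity) (dvd_neg.1 e))) hg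

theorem D_le_GK (h4 : w.p % 4 = 1) : w.D ≤ GK := fun g hg => by
  refine mem_GK.2 ((qz_D_iff (by norm_num)).2 ?_ g hg)
  refine (((a_SQ2 w).2.2.2.2.2 (by omega) (-1) fun e => ?_).1).2 ?_
  · exact w.prime.one_lt.ne' (by exact_mod_cast Int.eq_one_of_dvd_one (by positivity) (dvd_neg.1 e))
  · rw [jacobiSym.at_neg_one (Nat.odd_iff.2 (by omega)), ZMod.χ₄_nat_one_mod_four h4]

theorem cm_GK (hg : g ∈ GK) (hh : h ∈ GK) : cm g h ∈ GK :=
  mul_mem (mul_mem (mul_mem hg hh) (inv_mem hg)) (inv_mem hh)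

theorem gi_mul (a b : GaussianInt) : gi (a * b) = gi a * gi b := by
  simp only [gi, Zsqrtd.re_mul, Zsqrtd.im_mul]
  push_cast
  linear_combination (-(a.im * b.im) : Om) * I_sq

theorem gi_one : gi 1 = 1 := by simp [gi]

theorem gi_two : gi 2 = 2 := by
  rw [gi, show (2 : GaussianInt).re = 2 from rfl, show (2 : GaussianInt).im = 0 from rfl]
  simp

theorem gi_pow (a : GaussianInt) (k : ℕ) : gi (a ^ k) = gi a ^ k := by
  induction k with
  | zero => simp [gi_one]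
  | succ k ih => rw [pow_succ, gi_mul, ih, pow_succ]

theorem gi_norm (a : GaussianInt) : gi a * gi (star a) = (a.norm : ℤ) := by
  simp only [gi, Zsqrtd.re_star, Zsqrtd.im_star, Zsqrtd.norm_def]
  push_cast
  linear_combination (-(a.im * a.im) : Om) * I_sq

theorem gal_gi (hg : g ∈ GK) (a : GaussianInt) : g (gi a) = gi a := by
  rw [gi, map_add, map_mul, map_intCast, map_intCast, show g (rt (-1)) = rt (-1) from hg]

theorem gal_gi' (hg : g ∉ GK) (a : GaussianInt) : g (gi a) = gi (star a) := by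
  rw [gi, map_add, map_mul, map_intCast, map_intCast, gal_out hg, gi, Zsqrtd.re_star,
    Zsqrtd.im_star]
  push_cast
  ring

theorem v_I (w : Pl) : w.v (rt (-1)) = 1 :=
  Pl.v_root (n := 4) (by norm_num) QT.I_prim.pow_eq_one

theorem v_gi (w : Pl) (a : GaussianInt) : w.v (gi a) ≤ 1 :=
  w.v.map_add_le (w.v_int_le _) (by rw [map_mul, v_I, mul_one]; exact w.v_int_le _)

/-- a place which does not divide the norm -/
theorem v_gi_one {a : GaussianInt} (e : ¬ (w.p : ℤ) ∣ a.norm) : w.v (gi a) = 1 := by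
  have h1 := Pl.v_int_eq_one.2 e
  rw [← gi_norm, map_mul] at h1
  exact le_antisymm (v_gi w a) (h1 ▸ mul_le_of_le_one_right' (v_gi w _))

/-- the two places above a split prime -/
theorem v_gi_star {a : GaussianInt} (h2 : w.p ≠ 2) (e : a.norm = w.p) (h1 : w.v (gi a) < 1) :
    w.v (gi (star a)) = 1 := by
  refine le_antisymm (v_gi w _) (not_lt.1 fun h3 => ?_)
  have k : ∀ b : ℤ, w.v (2 * b) < 1 → (w.p : ℤ) ∣ b := fun b hb => by
    by_contra c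
    rw [map_mul, Pl.v_two h2, Pl.v_int_eq_one.2 c, one_mul] at hb
    exact lt_irrefl _ hb
  have a1 := k a.re (by
    refine lt_of_eq_of_lt (congrArg _ ?_) (w.v.map_add_lt h1 h3)
    simp only [gi, Zsqrtd.re_star, Zsqrtd.im_star]
    push_cast
    ring)
  have a2 := k a.im (by
    have := w.v.map_sub_lt h1 h3
    rw [show gi a - gi (star a) = 2 * a.im * rt (-1) by
      simp only [gi, Zsqrtd.re_star, Zsqrtd.im_star]
      push_cast
      ring, map_mul, v_I, mul_one] at this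
    exact this)
  obtain ⟨b, hb⟩ := a1
  obtain ⟨c, hc⟩ := a2
  rw [Zsqrtd.norm_def, hb, hc] at e
  have p0 : (w.p : ℤ) ≠ 0 := Int.natCast_ne_zero.2 w.prime.ne_zero
  have : (w.p : ℤ) * (b * b + c * c) = 1 := mul_left_cancel₀ p0 (by linear_combination e)
  exact w.prime.one_lt.ne' (by
    exact_mod_cast Int.eq_one_of_dvd_one (by positivity) (Dvd.intro _ this))

/-- a place which divides `a` is conjugate to `w` -/
theorem exists_conj {a : GaussianInt} (h2 : w.p ≠ 2) (e : a.norm = w.p) (h1 : w.v (gi a) < 1)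
    {w' : Pl} (h3 : w'.v (gi a) ≠ 1) : ∃ u ∈ GK, u • w' = w := by
  have h4 : w'.p = w.p := by
    have := not_not.1 (mt v_gi_one h3)
    rw [e] at this
    exact (Nat.prime_dvd_prime_iff_eq w'.prime w.prime).1 (Int.natCast_dvd_natCast.1 this)
  obtain ⟨s, rfl⟩ := a_PL.2.1 w' w h4
  refine ⟨s, not_not.1 fun c => h3 ?_, rfl⟩
  rw [← Pl.smul_v_apply s, gal_gi' c]
  exact v_gi_star h2 e h1

/-- there is only one place above two -/
theorem exists_two (h2 : w.p = 2) {w' : Pl} (h3 : w'.p = 2) : ∃ u ∈ GK, u • w' = w := by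
  obtain ⟨s, rfl⟩ := a_PL.2.1 w' w (h3.trans h2.symm)
  by_cases c : s ∈ GK
  · exact ⟨s, c, rfl⟩
  obtain ⟨t, ht, e⟩ := a_EC2 w' h3 (-1)
  have h4 : t ∉ GK := fun a => by
    rw [GK_cyc, e] at a
    have := (PadicInt.pow_p_dvd_int_iff (p := 2) 2 (-2)).1 (by convert a using 1 <;> norm_num)
    norm_num at this
  exact ⟨s * t, mul_GK c h4, by rw [mul_smul, show t • w' = w' from ht.1]⟩

/-! ### The logarithm -/

theorem cyc_mul (g h : GQ) : cyc (g * h) = cyc g * cyc h := a_EC.2.1 g h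

theorem cyc_one : cyc 1 = 1 := by simpa using cyc_mul 1 1

theorem cyc_inv (g : GQ) : cyc g⁻¹ = (cyc g)⁻¹ := map_inv (MonoidHom.mk' cyc cyc_mul) g

theorem cyc_pow (g : GQ) (m : ℕ) : cyc (g ^ m) = cyc g ^ m := map_pow (MonoidHom.mk' cyc cyc_mul) g m

theorem cyc_cm (g h : GQ) : cyc (cm g h) = 1 := by
  rw [cm, cyc_mul, cyc_mul, cyc_mul, cyc_inv, cyc_inv, mul_inv_cancel_comm, mul_inv_cancel]

theorem cyc_I (h2 : w.p ≠ 2) (hg : g ∈ w.I) : cyc g = 1 := a_EC.2.2.2.2.2.2.1 w h2 g hg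

theorem cq_mul (g h : GQ) : cq (g * h) = cq g * cq h := by simp [cq, cyc_mul]

theorem cq_norm (g : GQ) : ‖cq g‖ = 1 := PadicInt.norm_units (cyc g)

theorem cq_ne (g : GQ) : cq g ≠ 0 := norm_ne_zero_iff.1 (by rw [cq_norm]; exact one_ne_zero)

theorem cq_of (e : cyc g = 1) : cq g = 1 := by simp [cq, e]

theorem la_mul (g h : GQ) : la (g * h) = la g + la h := by
  rw [la, cyc_mul, a_LG.1.mul, la, la]

theorem la_one : la 1 = 0 := by simpa using la_mul 1 1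

theorem la_pow (g : GQ) (m : ℕ) : la (g ^ m) = m * la g := by
  induction m with
  | zero => simp [la_one]
  | succ m ih => rw [pow_succ, la_mul, ih]; push_cast; ring

theorem la_of (e : cyc g = 1) : la g = 0 := by rw [la, e, ← cyc_one]; exact la_one

theorem la_sm (k : ℕ) : ∃ N, ON N ∧ ∀ g ∈ N, 2 ^ k ∣ la g :=
  ⟨KP k, (a_LG.2.2.2.1 k).2.2.2.1, fun g hg => ((a_LG.2.2.2.1 k).2.2.2.2.1 g).1 hg⟩

/-- the ultrametric inequality -/
theorem ua {E : Type} [NormedAddCommGroup E] [IsUltrametricDist E] {a b : E} {ε : ℝ}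
    (ha : ‖a‖ ≤ ε) (hb : ‖b‖ ≤ ε) : ‖a + b‖ ≤ ε :=
  (IsUltrametricDist.norm_add_le_max a b).trans (max_le ha hb)

theorem us {E : Type} [NormedAddCommGroup E] [IsUltrametricDist E] {a b : E} {ε : ℝ}
    (ha : ‖a‖ ≤ ε) (hb : ‖b‖ ≤ ε) : ‖a - b‖ ≤ ε := by
  rw [sub_eq_add_neg]; exact ua ha (by rwa [norm_neg])

theorem el {E : Type} [Norm E] {a b : E} {ε : ℝ} (h : ‖b‖ ≤ ε) (e : a = b) : ‖a‖ ≤ ε := e ▸ h

theorem norm_dvd {a : ℤ_[2]} {k : ℕ} (e : 2 ^ k ∣ a) : ‖(a : ℚ_[2])‖ ≤ (2 ^ k)⁻¹ :=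
  TPKOL.small ((TINJ.norm_iff a k).2 e)

/-! ### The character of the lattice -/

variable {D : Dat}

theorem Dat.zK (D : Dat) : D.z ∈ GK := D.zD.2

theorem Dat.rho_mul (D : Dat) (hg : g ∈ GK) (h : GQ) : D.ρ (g * h) = D.ρ g * D.ρ h := by
  rw [D.cy.co, QT.cj_of (mem_GK.1 hg)]

theorem Dat.rho_pow (D : Dat) (hg : g ∈ GK) (m : ℕ) : D.ρ (g ^ m) = D.ρ g ^ m := by
  induction m with
  | zero => simp [D.cy.one]
  | succ m ih => rw [pow_succ', D.rho_mul hg, ih, pow_succ']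

theorem Dat.rho_conj (D : Dat) (hg : g ∈ GK) (hh : h ∈ GK) : D.ρ (g * h * g⁻¹) = D.ρ h := by
  rw [D.cy.conj (mem_GK.1 hh), QT.cj_of (mem_GK.1 hg)]

theorem Dat.rho_cm (D : Dat) (hg : g ∈ GK) (hh : h ∈ GK) : D.ρ (cm g h) = 1 := by
  rw [cm, D.rho_mul ((conj_GK g).2 hh), D.rho_conj hg hh, ← D.rho_mul hh, mul_inv_cancel, D.cy.one]

theorem Dat.nr (D : Dat) (hg : g ∈ GK) : QT.nr (D.ρ g) = cyc g := by
  have := D.cy.nm g
  rwa [mem_GK.1 hg, SM.sg, ZMod.val_zero, pow_zero, mul_one] at this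

theorem Dat.cyc_near (D : Dat) (hg : g ∈ GK) {k : ℕ} (e : 2 ^ k ∣ D.ρ g - 1) :
    2 ^ k ∣ (cyc g : ℤ_[2]) - 1 := by
  obtain ⟨a, b⟩ := QT.two_dvd.1 e
  rw [← D.nr hg, QT.nr]
  simp only [QuadraticAlgebra.re_sub, QuadraticAlgebra.im_sub, QuadraticAlgebra.re_one,
    QuadraticAlgebra.im_one, sub_zero] at a b
  have := dvd_add (a.mul_right ((D.ρ g).re + 1)) (b.mul_right (D.ρ g).im)
  convert this using 1
  ring

theorem dv_pow {u : O} (e : QT.rd u = 1) (k : ℕ) : QT.Dv (k + 1) (u ^ 2 ^ k - 1) := by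
  induction k with
  | zero => simpa using QT.dv_one_sub.2 e
  | succ k ih =>
    have h1 : QT.Dv 1 (u ^ 2 ^ k + 1) := QT.rd_eq_zero.1 (by
      rw [QT.rd_add, QT.rd_pow, e, one_pow, QT.rd_one]; rfl)
    refine QT.of_eq (ih.mul h1) ?_
    rw [pow_succ, pow_mul]
    ring

/-! ### Coefficients -/

variable {A A' : Type} [NormedCommRing A] [NormedAlgebra ℚ_[2] A] [NormedCommRing A']
  [NormedAlgebra ℚ_[2] A'] {ι : A} {ψ : ℤ_[2] → A}

theorem jo_one (ι : A) : jo ι 1 = 1 := by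
  simp [jo, QuadraticAlgebra.re_one, QuadraticAlgebra.im_one]

theorem jo_sub (ι : A) (a b : O) : jo ι (a - b) = jo ι a - jo ι b := by
  simp only [jo, QuadraticAlgebra.re_sub, QuadraticAlgebra.im_sub, PadicInt.coe_sub]
  module

theorem jo_mul (e : ι * ι = -1) (a b : O) : jo ι (a * b) = jo ι a * jo ι b := by
  simp only [jo, QuadraticAlgebra.re_mul, QuadraticAlgebra.im_mul, add_mul, mul_add,
    smul_mul_smul_comm, e, one_mul, mul_one]
  push_cast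
  module

theorem jo_nr (e : ι * ι = -1) (a : O) : jo (-ι) a * jo ι a = (QT.nr a : ℚ_[2]) • 1 := by
  simp only [jo, QT.nr, add_mul, mul_add, smul_mul_smul_comm, neg_mul, e, one_mul, mul_one]
  push_cast
  module

theorem jo_unit (e : ι * ι = -1) {a : O} (h0 : a ≠ 0) : IsUnit (jo ι a) := by
  have h1 : (QT.nr a : ℚ_[2]) ≠ 0 := PadicInt.coe_ne_zero.2 (mt QT.nr_eq_zero.1 h0)
  refine IsUnit.of_mul_eq_one ((QT.nr a : ℚ_[2])⁻¹ • jo (-ι) a) ?_
  rw [mul_smul_comm, mul_comm, jo_nr e, inv_smul_smul₀ h1]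

theorem jo_map (φ : A →ₐ[ℚ_[2]] A') (ι : A) (a : O) : φ (jo ι a) = jo (φ ι) a := by simp [jo]

theorem Cf.dual (h : Cf ι ψ) : Cf (-ι) (bar ψ) :=
  ⟨h.toIsPsi.bar, by rw [neg_mul_neg, h.sq], by rw [norm_neg]; exact h.le1⟩

omit [NormedAlgebra ℚ_[2] A] in
theorem Cf.one_le (h : Cf ι ψ) : ‖(1 : A)‖ ≤ 1 := h.zero ▸ h.le 0

theorem Dat.r_apply (g : GQ) (v : A) : D.r ι ψ g v = D.xi ι ψ g * v := rfl

theorem Dat.xi_map (φ : A →ₐ[ℚ_[2]] A') (g : GQ) :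
    φ (D.xi ι ψ g) = D.xi (φ ι) (φ ∘ ψ) g := by rw [Dat.xi, map_mul, jo_map]; rfl

theorem Dat.xi_mul (h : Cf ι ψ) (hg : g ∈ GK) (g' : GQ) :
    D.xi ι ψ (g * g') = D.xi ι ψ g * D.xi ι ψ g' := by
  rw [Dat.xi, Dat.xi, Dat.xi, la_mul, h.add, D.rho_mul hg, jo_mul h.sq]
  ring

theorem Dat.xi_cyc (h : Cf ι ψ) (e : cyc g = 1) : D.xi ι ψ g = jo ι (D.ρ g) := by
  rw [Dat.xi, la_of e, h.zero, one_mul]

theorem Dat.xi_of (h : Cf ι ψ) (hg : g ∈ GK) (e : D.ρ g = 1) : D.xi ι ψ g = 1 := by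
  rw [Dat.xi_cyc h (Units.ext (by rw [← D.nr hg, e, QT.nr_one]; rfl)), e, jo_one]

theorem Dat.xi_dual (h : Cf ι ψ) (hg : g ∈ GK) :
    D.xi (-ι) (bar ψ) g * D.xi ι ψ g = cq g • 1 := by
  rw [Dat.xi, Dat.xi, mul_mul_mul_comm, bar, ← h.add, neg_add_cancel, h.zero, one_mul, jo_nr h.sq,
    D.nr hg, cq]

theorem Dat.xi_unit (h : Cf ι ψ) (e : cyc g = 1) (h1 : D.ρ g ≠ 1) : IsUnit (D.xi ι ψ g - 1) := by
  rw [Dat.xi_cyc h e, ← jo_one ι, ← jo_sub]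
  exact jo_unit h.sq (sub_ne_zero.2 h1)

variable [IsUltrametricDist A]

theorem jo_le (h : Cf ι ψ) {a : O} {k : ℕ} (e : 2 ^ k ∣ a) : ‖jo ι a‖ ≤ (2 ^ k)⁻¹ := by
  obtain ⟨a1, a2⟩ := QT.two_dvd.1 e
  refine ua ?_ ?_ <;> rw [norm_smul]
  · exact (mul_le_of_le_one_right (norm_nonneg _) h.one_le).trans (norm_dvd a1)
  · exact (mul_le_of_le_one_right (norm_nonneg _) h.le1).trans (norm_dvd a2)

theorem jo_le_one (h : Cf ι ψ) (a : O) : ‖jo ι a‖ ≤ 1 := by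
  simpa using jo_le h (a := a) (k := 0) (by simp)

theorem Dat.xi_le (h : Cf ι ψ) (g : GQ) : ‖D.xi ι ψ g‖ ≤ 1 :=
  (norm_mul_le _ _).trans (mul_le_one₀ (h.le _) (norm_nonneg _) (jo_le_one h _))

/-- the character is close to one on elements which fix many torsion points -/
theorem Dat.xi_near (D : Dat) (h : Cf ι ψ) {ε : ℝ} (hε : 0 < ε) :
    ∃ k₀ : ℕ, ∀ k, k₀ ≤ k → ∀ g ∈ GK, 2 ^ k ∣ D.ρ g - 1 → ‖D.xi ι ψ g - 1‖ ≤ ε := by
  obtain ⟨k₁, h1⟩ := h.near hε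
  obtain ⟨k₂, h2⟩ := (TPKOL.ev_small hε).exists
  refine ⟨k₁ + 2 + k₂, fun k hk g hg e => ?_⟩
  have h3 : 2 ^ k₁ ∣ la g := (a_LG.1.dvd _ _).2
    (.inl (D.cyc_near hg ((pow_dvd_pow _ (by omega)).trans e)))
  have h4 := h1 (la g) 0 (by simpa using h3)
  have h5 := (jo_le h ((pow_dvd_pow _ (show k₂ ≤ k by omega)).trans e)).trans h2
  rw [h.zero] at h4
  rw [jo_sub, jo_one] at h5
  refine el (ua ((norm_mul_le _ _).trans ((mul_le_of_le_one_left (norm_nonneg _)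
    (h.le (la g))).trans h5)) h4) ?_
  rw [Dat.xi]
  ring

theorem Dat.rep (D : Dat) (h : Cf ι ψ) : Rep GK (D.r ι ψ) := by
  have k : ∀ g (ε : ℝ), ‖D.xi ι ψ g - 1‖ ≤ ε → ∀ v, ‖D.r ι ψ g v - v‖ ≤ ε * ‖v‖ := fun g ε e v => by
    rw [Dat.r_apply, ← sub_one_mul]
    exact (norm_mul_le _ _).trans (mul_le_mul_of_nonneg_right e (norm_nonneg _))
  refine ⟨fun v => by rw [Dat.r_apply, Dat.xi_of h GK.one_mem D.cy.one, one_mul],
    fun g hg g' _ v => by simp only [Dat.r_apply, Dat.xi_mul h hg, mul_assoc],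
    fun g v => (norm_mul_le _ _).trans (mul_le_of_le_one_left (norm_nonneg _) (Dat.xi_le h g)),
    fun ε hε => ?_, fun g hg ε hε => ?_⟩
  · obtain ⟨k₀, h1⟩ := D.xi_near h hε
    obtain ⟨N, h2, h3⟩ := D.cy.sm (2 * k₀)
    exact ⟨N, h2, fun n hn m => k _ _ (h1 k₀ le_rfl n hn (QT.dv_two.1 (h3 n m)))⟩
  · obtain ⟨k₀, h1⟩ := D.xi_near h hε
    refine ⟨2 * k₀, k _ _ (h1 k₀ le_rfl _ (pow_mem hg _) (QT.dv_two.1 ?_))⟩
    rw [D.rho_pow hg]
    exact (dv_pow (D.cy.rd g) _).mono (Nat.le_succ _)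

end Pool.Agent.P.MP_8b7eba_nt.CG
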