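import Pool.Agent.P.MP_8b7eba_nt.CG.JH

/-! The Kolyvagin bound for the strict Selmer group. -/

namespace Pool.Agent.P.MP_8b7eba_nt.CG

open R2 Filter Topology Module

/-- the abstract bound -/
theorem bound {A : Type} [NormedCommRing A] [NormedAlgebra ℚ_[2] A] [FiniteDimensional ℚ_[2] A]
    {π : A} {j e : ℕ} (hC : Chain π j e) {X : Type} [AddCommGroup X] [Module A X] [Module ℚ_[2] X]
    [IsScalarTower ℚ_[2] A X] {ι : Type} (S : ι → Submodule A X) (G : ι → ℕ → Prop)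
    (h : ∀ s α, G s α → ∀ x ∈ S s, x ≠ 0 → ∃ (s' : ι) (α' : ℕ) (f : X →ₗ[A] A), α' ≤ α ∧ G s' α' ∧
      f x ≠ 0 ∧ ∀ y ∈ S s, π ^ (α - α') * f y = 0 ∧ (f y = 0 → y ∈ S s')) (α : ℕ) :
    ∀ s, G s α → ∀ M ≤ S s, FiniteDimensional ℚ_[2] M → finrank ℚ_[2] M ≤ e * α := by
  induction α using Nat.strong_induction_on with
  | _ α ih =>
  intro s hs M hM hf
  by_cases h0 : M = ⊥
  · subst h0
    rw [Module.finrank_zero_of_subsingleton]
    exact Nat.zero_le _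
  obtain ⟨x, hx, x0⟩ := Submodule.exists_mem_ne_zero_of_ne_bot h0
  obtain ⟨s', α', f, h1, h2, h3, h4⟩ := h s α hs x (hM hx) x0
  have h5 : α' < α := h1.lt_of_ne fun e => h3 (by simpa [e] using (h4 x (hM hx)).1)
  let i : ↥(M ⊓ LinearMap.ker f) →ₗ[ℚ_[2]] M :=
    (Submodule.inclusion inf_le_left).restrictScalars ℚ_[2]
  have f0 : FiniteDimensional ℚ_[2] ↥(M ⊓ LinearMap.ker f) :=
    Module.Finite.of_injective i (Submodule.inclusion_injective inf_le_left)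
  have h6 := ih α' h5 s' h2 (M ⊓ LinearMap.ker f) (fun y hy => (h4 y (hM hy.1)).2 hy.2) f0
  let g : M →ₗ[ℚ_[2]] A := (f ∘ₗ M.subtype).restrictScalars ℚ_[2]
  have h7 := g.finrank_range_add_finrank_ker
  have h8 : finrank ℚ_[2] (LinearMap.ker g) ≤ finrank ℚ_[2] ↥(M ⊓ LinearMap.ker f) :=
    (Submodule.finrank_mono (t := LinearMap.range i) fun y hy => ⟨⟨y, y.2, hy⟩, rfl⟩).trans
      (LinearMap.finrank_range_le i)
  have h9 : finrank ℚ_[2] (LinearMap.range g) ≤ e * (α - α') := by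
    have a1 : LinearMap.range g ≤
        (Ideal.span {π ^ (j - min j (α - α'))}).restrictScalars ℚ_[2] := by
      rintro _ ⟨y, rfl⟩
      refine Ideal.mem_span_singleton.2 ((hC.ann (min_le_left _ _)).1 ?_)
      rcases le_total j (α - α') with c | c
      · rw [min_eq_left c, hC.nil, zero_mul]
      · rw [min_eq_right c]; exact (h4 y (hM y.2)).1
    refine (Submodule.finrank_mono a1).trans ((hC.rk _ (Nat.sub_le _ _)).le.trans ?_)
    exact Nat.mul_le_mul_left _ (by omega)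
  have h10 : e * α = e * (α - α') + e * α' := by rw [← mul_add, Nat.sub_add_cancel h1]
  omega

variable {D : Dat} {E : ES D} {A A' : Type} [NormedCommRing A] [NormedAlgebra ℚ_[2] A]
  [FiniteDimensional ℚ_[2] A] [NormedCommRing A'] [NormedAlgebra ℚ_[2] A']
  [FiniteDimensional ℚ_[2] A'] {φ : A →ₐ[ℚ_[2]] A'} {ι π : A} {ψ : ℤ_[2] → A} {j m e : ℕ}
  {s : Finset (Kp E)} {x y : GS → A}

theorem phi_zero (c : Chain π (j + m) e) (c' : Chain (φ π) j e) {q : A} :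
    φ q = 0 ↔ π ^ m * q = 0 := by
  rw [c.ann (Nat.le_add_left _ _), Nat.add_sub_cancel]
  refine ⟨fun h => ?_, fun ⟨b, hb⟩ => by rw [hb, map_mul, map_pow, c'.nil, zero_mul]⟩
  obtain ⟨i, -, u, rfl⟩ := c.exists_pow q
  rw [map_mul, (u.isUnit.map φ).mul_right_eq_zero, map_pow, c'.pow_eq_zero] at h
  exact (pow_dvd_pow π h).mul_left _

/-- division by a power of the uniformiser, followed by the projection -/
def Dv (φ : A →ₐ[ℚ_[2]] A') (π : A) (c : ℕ) (μ : A →ₗ[ℚ_[2]] A') : Prop := ∀ q, μ (π ^ c * q) = φ q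

theorem ex_dv (c : Chain π (j + m) e) (c' : Chain (φ π) j e) :
    ∃ μ : ℕ → A →ₗ[ℚ_[2]] A', ∀ a ≤ m, Dv φ π a (μ a) := by
  have : ∀ a : ℕ, ∃ μ : A →ₗ[ℚ_[2]] A', a ≤ m → Dv φ π a μ := fun a => by
    obtain ⟨f, hf⟩ := (LinearMap.mul ℚ_[2] A (π ^ a)).rangeRestrict.exists_rightInverse_of_surjective
      (LinearMap.range_rangeRestrict _)
    obtain ⟨g, hg⟩ := f.exists_extend
    refine ⟨φ.toLinearMap ∘ₗ g, fun ha q => ?_⟩
    have h1 : π ^ a * g (π ^ a * q) = π ^ a * q := by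
      have := congrArg Subtype.val (LinearMap.congr_fun hf ⟨π ^ a * q, q, rfl⟩)
      rwa [← hg] at this
    obtain ⟨i, rfl⟩ := Nat.exists_eq_add_of_le ha
    change φ (g _) = _
    rw [← sub_eq_zero, ← map_sub, phi_zero c c', pow_add, mul_right_comm, mul_sub, h1, sub_self,
      zero_mul]
  exact ⟨fun a => (this a).choose, fun a => (this a).choose_spec⟩

variable {μ μ' : A →ₗ[ℚ_[2]] A'} {a a' : ℕ} {v : A}

theorem Dv.mul (h : Dv φ π a μ) (hv : π ^ a ∣ v) (b : A) : μ (b * v) = φ b * μ v := by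
  obtain ⟨q, rfl⟩ := hv
  rw [mul_left_comm, h, h, map_mul]

theorem Dv.zero (h : Dv φ π a μ) (c : Chain π (j + m) e) (c' : Chain (φ π) j e) (ha : a ≤ m)
    (hv : π ^ a ∣ v) (i : ℕ) : φ π ^ i * μ v = 0 ↔ π ^ (m + i - a) * v = 0 := by
  obtain ⟨q, rfl⟩ := hv
  rw [h, ← map_pow, ← map_mul, phi_zero c c', ← mul_assoc, ← mul_assoc, ← pow_add, ← pow_add,
    Nat.sub_add_cancel (by omega)]

theorem Dv.le (h : Dv φ π a μ) (h' : Dv φ π a' μ') (e : a' ≤ a) (hv : π ^ a ∣ v) :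
    μ' v = φ π ^ (a - a') * μ v := by
  obtain ⟨q, rfl⟩ := hv
  obtain ⟨i, rfl⟩ := Nat.exists_eq_add_of_le e
  rw [h, pow_add, mul_assoc, h', map_mul, map_pow, Nat.add_sub_cancel_left]

theorem dvd_of (c : Chain π (j + m) e) (ha : a ≤ m) (h : π ^ (j + m - a) * v = 0) : π ^ a ∣ v := by
  have := (c.ann (Nat.sub_le _ _)).1 h
  rwa [Nat.sub_sub_self (by omega)] at this

variable [IsUltrametricDist A] [IsUltrametricDist A']

theorem Dat.rS_eq (h : Cf ι ψ) (g : GS) (v : A) : rS (D.r ι ψ) g v = rS (D.r ι ψ) g 1 * v := by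
  have := (D.rep h).rS_map (r' := D.r ι ψ) (LinearMap.mul ℚ_[2] A v) (g := g) (g' := g) (v := 1)
    (.of_forall fun k => by simp [Dat.r_apply, mul_comm])
  rw [LinearMap.mul_apply', LinearMap.mul_apply', mul_one] at this
  rw [← this, mul_comm]

theorem Dat.rS_phi (h : Cf ι ψ) (g : GS) : φ (rS (D.r ι ψ) g 1) = rS (D.r (φ ι) (φ ∘ ψ)) g 1 := by
  simpa using (D.rep h).rS_map (r' := D.r (φ ι) (φ ∘ ψ)) φ.toLinearMap (g := g) (g' := g) (v := 1)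
    (.of_forall fun k => by simp [Dat.r_apply, Dat.xi_map])

theorem pz_smul (h : Cf ι ψ) {H : ℕ → Subgroup GQ} (hx : PZ H (D.r ι ψ) x) (b : A) :
    PZ H (D.r ι ψ) (b • x) :=
  hx.map (LinearMap.mul ℚ_[2] A b) fun g _ g' _ => by
    rw [Dat.rS_eq h, LinearMap.mul_apply', LinearMap.mul_apply', Dat.rS_eq h g (b * _),
      mul_left_comm]

theorem pz_dv (h : Cf ι ψ) (h' : Cf (φ ι) (φ ∘ ψ)) (hμ : Dv φ π a μ) {H : ℕ → Subgroup GQ}
    (hx : PZ H (D.r ι ψ) x) (e : ∀ g ∈ St H, π ^ a ∣ x g) :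
    PZ H (D.r (φ ι) (φ ∘ ψ)) fun g => μ (x g) :=
  hx.map μ fun g _ g' hg' => by
    rw [Dat.rS_eq h, Dat.rS_eq h' g (μ _), hμ.mul (e g' hg'), Dat.rS_phi h]

theorem Rs.smul (h : Cf ι ψ) (hx : Rs ι ψ s x) (b : A) : Rs ι ψ s (b • x) :=
  ⟨pz_smul h hx.pz b, fun g hg => by simp [hx.off g hg], by simp [hx.nz],
    fun w g hg => by simp [hx.unr w g hg]⟩

theorem Rs.dv (h : Cf ι ψ) (h' : Cf (φ ι) (φ ∘ ψ)) (hμ : Dv φ π a μ) (hx : Rs ι ψ s x)
    (e : ∀ g, π ^ a ∣ x g) : Rs (φ ι) (φ ∘ ψ) s fun g => μ (x g) :=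
  ⟨pz_dv h h' hμ hx.pz fun g _ => e g, fun g hg => by simp [hx.off g hg], by simp [hx.nz],
    fun w g hg => by simp [hx.unr w g hg]⟩

theorem Dat.Rel.smul (h : Cf ι ψ) (hx : D.Rel ι ψ x) (b : A) : D.Rel ι ψ (b • x) :=
  ⟨pz_smul h hx.pz b, fun g hg => by simp [hx.off g hg], by simp [hx.nz],
    fun w g hg => by simp [hx.unr w g hg]⟩

theorem Dat.Rel.add (h : Cf ι ψ) (hx : D.Rel ι ψ x) (hy : D.Rel ι ψ y) : D.Rel ι ψ (x + y) :=
  ⟨hx.pz.add (D.rep h) hy.pz, fun g hg => by simp [hx.off g hg, hy.off g hg], by simp [hx.nz, hy.nz],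
    fun w g hg => by simp [hx.unr w g hg, hy.unr w g hg]⟩

/-- the projection of a normalised cocycle -/
theorem Dat.Rel.map (h : Cf ι ψ) (h' : Cf (φ ι) (φ ∘ ψ)) (hx : D.Rel ι ψ x) :
    D.Rel (φ ι) (φ ∘ ψ) fun g => φ (x g) :=
  ⟨pz_dv (π := 1) (a := 0) (μ := φ.toLinearMap) h h' (fun q => by simp) hx.pz fun _ _ => by simp,
    fun g hg => by simp [hx.off g hg], by simp [hx.nz], fun w g hg => by simp [hx.unr w g hg]⟩

/-- the strict Selmer groups -/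
def DS (h : Cf ι ψ) (s : Finset (Kp E)) : Submodule A (GS → A) where
  carrier := {x | D.Str ι ψ x ∧ ∀ l ∈ s, x l.F = 0}
  add_mem' := fun hx hy => ⟨⟨hx.1.1.add h hy.1.1, fun g hg => by simp [hx.1.2 g hg, hy.1.2 g hg]⟩,
    fun l hl => by simp [hx.2 l hl, hy.2 l hl]⟩
  zero_mem' := ⟨⟨⟨pz_zero, fun _ _ => rfl, rfl, fun _ _ _ => rfl⟩, fun _ _ => rfl⟩, fun _ _ => rfl⟩
  smul_mem' := fun b _ hx => ⟨⟨hx.1.1.smul h b, fun g hg => by simp [hx.1.2 g hg]⟩,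
    fun l hl => by simp [hx.2 l hl]⟩

theorem cf_dual (h' : Cf (φ ι) (φ ∘ ψ)) : Cf (φ (-ι)) (φ ∘ bar ψ) := by
  rw [map_neg]; exact h'.dual

/-- the Kolyvagin bound for the strict Selmer group -/
theorem str_le (E : ES D) (h : Cf ι ψ) (h' : Cf (φ ι) (φ ∘ ψ)) (c : Chain π (j + m) e)
    (c' : Chain (φ π) j e) (hj : 0 < j) {α : ℕ} (hα : α < m)
    (h0 : π ^ (j + m - α - 1) • E.kap (-ι) (bar ψ) ≠ 0) (M : Submodule A' (GS → A'))
    (hM : FiniteDimensional ℚ_[2] M) (hS : ∀ x ∈ M, D.Str (φ ι) (φ ∘ ψ) x) :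
    finrank ℚ_[2] M ≤ e * α := by
  obtain ⟨j, rfl⟩ := Nat.exists_eq_add_of_lt hj
  rw [zero_add] at *
  obtain ⟨μ, hμ⟩ := ex_dv c c'
  obtain ⟨κ, hκ⟩ : ∃ κ, κ = E.ks (-ι) (bar ψ) := ⟨_, rfl⟩
  rw [← E.ks_empty, ← hκ] at h0
  have hV : ∀ s a, a < m → π ^ (j + 1 + m - a) • κ s = 0 → ∀ g, π ^ a ∣ κ s g :=
    fun s a ha e g => dvd_of c ha.le (congrFun e g)
  have hZ : ∀ s a, a < m → π ^ (j + 1 + m - a) • κ s = 0 → ∀ g,
      φ π ^ j * μ a (κ s g) = 0 ↔ π ^ (j + 1 + m - a - 1) * κ s g = 0 := fun s a ha e g => by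
    rw [(hμ a ha.le).zero c c' ha.le (hV s a ha e g), show m + j - a = j + 1 + m - a - 1 by omega]
  have hR : ∀ s a, Ok s → a < m → π ^ (j + 1 + m - a) • κ s = 0 →
      Rs (-φ ι) (bar (φ ∘ ψ)) s fun g => μ a (κ s g) := fun s a h1 h2 h3 => by
    have := Rs.dv h.dual (cf_dual h') (hμ a h2.le) (hκ ▸ ES.ks_rs h.dual h1) (hV s a h2 h3)
    rwa [map_neg] at this
  obtain ⟨a, e1, e2, e3⟩ := THB.ex_min c.nil (κ ∅) α h0
  refine (bound c' (DS h') (fun s a => Ok s ∧ a < m ∧ π ^ (j + 1 + m - a) • κ s = 0 ∧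
    π ^ (j + 1 + m - a - 1) • κ s ≠ 0) ?_ a ∅ ⟨by simp [Ok], e1.trans_lt hα, e2, e3⟩ M
    (fun x hx => ⟨hS x hx, by simp⟩) hM).trans (Nat.mul_le_mul_left _ e1)
  rintro s a ⟨h1, h2, h3, h4⟩ x hx x0
  obtain ⟨l, l1, l2, l3⟩ := cheb h' h'.dual (hx.1.1.rs s) ((hR s a h1 h2 h3).smul h'.dual (φ π ^ j))
    x0 fun e => h4 (funext fun g => (hZ s a h2 h3 g).1 (congrFun e g))
  obtain ⟨h6, h7⟩ := ok_cons h1 l1
  have e : κ (s.cons l h6) l.t = -κ s l.F := hκ ▸ ES.ks_fs h.dual h7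
  change φ π ^ j * μ a (κ s l.F) ≠ 0 at l3
  obtain ⟨a', e1, e2, e3⟩ := THB.ex_min c.nil (κ (s.cons l h6)) a fun e4 => l3 (by
    have e5 := congrFun e4 l.t
    rw [Pi.smul_apply, e, smul_neg, Pi.zero_apply, neg_eq_zero] at e5
    exact (hZ s a h2 h3 _).2 e5)
  have hu : IsUnit (μ a (κ s l.F)) := (c'.loc _).resolve_right fun ⟨b, hb⟩ => l3 (by
    rw [hb, ← mul_assoc, ← pow_succ, c'.nil, zero_mul])
  refine ⟨s.cons l h6, a', LinearMap.proj l.F, e1, ⟨h7, e1.trans_lt h2, e2, e3⟩, l2,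
    fun y hy => ⟨?_, fun y0 => ⟨hy.1, (Finset.forall_mem_cons _ _).2 ⟨y0, hy.2⟩⟩⟩⟩
  have h8 := dual h' h7 hy.1 hy.2 (hR _ a' h7 (e1.trans_lt h2) e2)
  rw [e, map_neg, (hμ a h2.le).le (hμ a' (e1.trans h2.le)) e1 (hV s a h2 h3 _), neg_mul,
    neg_eq_zero, mul_right_comm, hu.mul_left_eq_zero] at h8
  exact h8

/-- the class of the system of units is compatible with change of coefficients -/
theorem ES.kap_map (E : ES D) (h : Cf ι ψ) (g : GS) :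
    φ (E.kap ι ψ g) = E.kap (φ ι) (φ ∘ ψ) g := by
  by_cases hg : g ∈ S1 GK
  · refine ((if_pos hg).trans (ul_eq ?_)).symm
    refine (((t_KAP D E A ι ψ h).1.map φ.toLinearMap).lim g hg).congr fun k => ?_
    rw [← ES.ml_apply (pow2_ne _), ← ES.ml_apply (pow2_ne _), ES.ml_map (pow2_ne _)]
    simp only [AlgHom.toLinearMap_apply, map_smul, Dat.xi_map]
  · rw [ES.kap, ES.kap, if_neg hg, if_neg hg, map_zero]

end Pool.Agent.P.MP_8b7eba_nt.CG
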