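import Pool.Agent.P.MP_8b7eba_nt.CG.JK

/-! The Kolyvagin classes. -/

namespace Pool.Agent.P.MP_8b7eba_nt.CG

open R2 Filter Topology
open TPKOL (ev_small)

variable {D : Dat} {E : ES D} {A : Type} [NormedCommRing A] [NormedAlgebra ℚ_[2] A] {ι : A}
  {ψ : ℤ_[2] → A} {s : Finset (Kp E)} {k : ℕ} {g : GQ}

noncomputable section

/-- the twisted character -/
def Dat.Xi (D : Dat) (ι : A) (ψ : ℤ_[2] → A) (σ : GQ) : A := (cq σ)⁻¹ • D.xi ι ψ σ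

open Classical in
/-- the weight at finite level -/
def ES.xk (E : ES D) (ι : A) (ψ : ℤ_[2] → A) (k : ℕ) (σ : GQ) : A :=
  if h : σ ∈ GK then D.Xi ι ψ (Nrm.ro GK (E.N (2 ^ (k + 2))) (⟨σ, h⟩ : GK)) else 0

/-- the derived cochains -/
def ES.der (E : ES D) (ι : A) (ψ : ℤ_[2] → A) (s : Finset (Kp E)) (k : ℕ) (g : GQ) : A :=
  E.ml k (ck s k) g (wt s k • E.xk ι ψ k)

open Classical in
/-- the Kolyvagin classes -/
def ES.ks (E : ES D) (ι : A) (ψ : ℤ_[2] → A) (s : Finset (Kp E)) (g : GS) : A :=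
  if g ∈ S1 GK then ul fun k => E.der ι ψ s k (g k) else 0

end

/-- normalised cocycles which are unramified outside `2 n` and the primes of `s` -/
structure Rs (ι : A) (ψ : ℤ_[2] → A) (s : Finset (Kp E)) (x : GS → A) : Prop where
  pz : PZ (fun _ => GK) (D.r ι ψ) x
  off : ∀ g, g ∉ S1 GK → x g = 0
  nz : x (cs D.z) = 0
  unr : ∀ (w : ℕ → Pl) (g : GS), (∀ᶠ k in UF, g k ∈ (w k).I ∧ ¬ (w k).p ∣ 2 * D.n ∧
    ∀ l ∈ s, (w k).v (gi (l.lam k)) = 1) → x g = 0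

theorem Dat.Rel.rs {x : GS → A} (h : D.Rel ι ψ x) (s : Finset (Kp E)) : Rs ι ψ s x :=
  ⟨h.pz, h.off, h.nz, fun w g e => h.unr w g (e.mono fun _ a => ⟨a.1, a.2.1⟩)⟩

theorem Rs.rel {x : GS → A} (h : Rs ι ψ (∅ : Finset (Kp E)) x) : D.Rel ι ψ x :=
  ⟨h.pz, h.off, h.nz, fun w g e => h.unr w g (e.mono fun _ a => ⟨a.1, a.2, by simp⟩)⟩

theorem Dat.Xi_mul (h : Cf ι ψ) (hg : g ∈ GK) (g' : GQ) :
    D.Xi ι ψ (g * g') = D.Xi ι ψ g * D.Xi ι ψ g' := by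
  rw [Dat.Xi, Dat.Xi, Dat.Xi, Dat.xi_mul h hg, cq_mul, smul_mul_smul_comm, mul_inv]

theorem ES.der_empty (E : ES D) (k : ℕ) (g : GQ) :
    E.der ι ψ ∅ k g = E.mu k (2 ^ (k + 2)) (cm D.z g) fun σ => (cq σ)⁻¹ • D.xi ι ψ σ := by
  rw [ES.der, ck, wt, Finset.prod_empty, Finset.prod_empty, mul_one, one_smul,
    ES.ml_apply (pow2_ne _)]
  refine finsum_congr fun q => congrArg (_ • ·) ((dif_pos q.out.2).trans ?_)
  rw [Subtype.coe_eta, QuotientGroup.out_eq']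
  rfl

theorem ES.ks_empty (E : ES D) : E.ks ι ψ ∅ = E.kap ι ψ := by
  funext g
  simp only [ES.ks, ES.kap, ES.der_empty]

variable [IsUltrametricDist A]

theorem mul_le {a b : A} {ε : ℝ} (ha : ‖a‖ ≤ 1) (hb : ‖b‖ ≤ ε) : ‖a * b‖ ≤ ε :=
  (norm_mul_le _ _).trans ((mul_le_of_le_one_left (norm_nonneg _) ha).trans hb)

theorem Dat.Xi_le (h : Cf ι ψ) (g : GQ) : ‖D.Xi ι ψ g‖ ≤ 1 :=
  le_sm (by rw [norm_inv, cq_norm, inv_one]) (Dat.xi_le h g)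

theorem ES.xk_wi (h : Cf ι ψ) (k : ℕ) : Wi (E.N (2 ^ (k + 2))) (E.xk ι ψ k) := by
  refine ⟨fun σ => ?_, fun σ n hn => ?_⟩ <;> unfold ES.xk
  · split_ifs
    exacts [Dat.Xi_le h _, by simp]
  have hK := E.le _ hn
  by_cases e : σ ∈ GK
  · rw [dif_pos e, dif_pos (mul_mem e hK),
      (Nrm.mk_eq (a := ⟨σ, e⟩) (b := ⟨σ * n, mul_mem e hK⟩)).2 (by simpa using hn)]
  · rw [dif_neg e, dif_neg (mt (mul_mem_cancel_right hK).1 e)]

theorem ES.xi_near (E : ES D) (h : Cf ι ψ) {ε : ℝ} (hε : 0 < ε) :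
    ∀ᶠ k in UF, ∀ g ∈ E.N (2 ^ (k + 2)), ‖D.xi ι ψ g - 1‖ ≤ ε := by
  obtain ⟨k₀, h1⟩ := D.xi_near h hε
  exact (ev_ge k₀).mono fun k hk g hg => h1 k hk g (E.le _ hg) (E.rho k g hg)

theorem ES.xk_near (E : ES D) (h : Cf ι ψ) {ε : ℝ} (hε : 0 < ε) :
    ∀ᶠ k in UF, ∀ σ ∈ GK, ‖E.xk ι ψ k σ - D.Xi ι ψ σ‖ ≤ ε := by
  filter_upwards [E.xi_near h hε, ev_small hε] with k h1 h2 σ hσ
  have h3 := (Nrm.mk_eq (H' := E.N (2 ^ (k + 2))) (b := ⟨σ, hσ⟩)).1 (QuotientGroup.out_eq' _)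
  rw [ES.xk, dif_pos hσ, Nrm.ro]
  generalize Quotient.out _ = a at h3
  obtain ⟨n, hn, rfl⟩ : ∃ n ∈ E.N (2 ^ (k + 2)), σ = a * n := ⟨_, h3, by simp⟩
  have h4 : ‖cq n - 1‖ ≤ ε := le_trans (by simpa [cq] using norm_dvd (E.cyc hn)) h2
  have h5 := le_sm (a := (cq n)⁻¹) (by rw [norm_inv, cq_norm, inv_one])
    (us (sm_le h4 h.one_le) (h1 n hn))
  refine el (mul_le (Dat.Xi_le (D := D) h a) h5) ?_
  rw [Dat.Xi_mul h a.2, Dat.Xi.eq_1 _ _ _ n, sub_smul, one_smul, sub_sub_sub_cancel_right,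
    smul_sub, inv_smul_smul₀ (cq_ne n), mul_sub, mul_one]

variable [FiniteDimensional ℚ_[2] A]

theorem ES.ks_ap (h : Cf ι ψ) (s : Finset (Kp E)) :
    Ap (fun _ => GK) (E.der ι ψ s) (E.ks ι ψ s) := by
  obtain ⟨B, hB⟩ := E.mu_bd (W := A)
  refine (ap_ul (B := B) (fun k g => ?_) fun k => ?_).congr fun g hg => if_pos hg
  · rw [ES.der, ES.ml_apply (lv_ck s k).1]
    exact hB _ _ _ _ (wi_wf subset_rfl (ES.xk_wi h k)).1
  · exact (((E.ml_sm k (lv_ck s k).1).comp fun L => L (wt s k • E.xk ι ψ k)).mono le_top).uc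

theorem ES.ks_zero (h : Cf ι ψ) {g : GS} (hg : g ∈ S1 GK)
    (e : ∀ᶠ k in UF, ‖E.der ι ψ s k (g k)‖ ≤ (2 ^ k)⁻¹) : E.ks ι ψ s g = 0 :=
  PatB.zero_of ((ES.ks_ap h s).lim g hg) fun _ hε =>
    (e.and (ev_small hε)).mono fun _ a => a.1.trans a.2

/-- the Kolyvagin classes are normalised cocycles -/
theorem ES.ks_rs (h : Cf ι ψ) (hs : Ok s) : Rs ι ψ s (E.ks ι ψ s) := by
  have hW := fun k => wi_wf (s := s) subset_rfl (ES.xk_wi (E := E) h k)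
  refine ⟨pz_of_ac (D.rep h) (ES.ks_ap h s) fun ε hε => ?_, fun g hg => if_neg hg,
    ES.ks_zero h (cs_mem.2 D.zK) (.of_forall fun k => ES.nz (lv_ck s k) (hW k).1 (by simp [cm, cs])),
    fun w g hg => ES.ks_zero h (hg.mono fun k a => I_le_GK (ne_two a.2.1) a.1) (hg.mono fun k a =>
      ES.unrf (lv_ck s k) a.2.1 (v_ck (ne_two a.2.1) a.2.2) (hW k) a.1)⟩
  filter_upwards [E.xk_near h hε, ev_small hε] with k h1 h2 g hg g' hg'
  have h3 := (ES.co (k := k) (lv_ck s k) hg hg' (hW k)).trans h2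
  have h4 := (qz_inv ((ES.xk_wi h k).tl hg) hg' s hs s subset_rfl g hg).trans h2
  have h5 := ES.near (E := E) (k := k) (lv_ck s k) hg' (F := wt s k • tl (E.xk ι ψ k) g)
    (F' := fun σ => LinearMap.mul ℚ_[2] A (D.Xi ι ψ g) ((wt s k • E.xk ι ψ k) σ)) fun σ hσ =>
    el (le_sm ((wi_wt subset_rfl k).1 σ) (us (h1 _ (mul_mem hσ hg))
      (mul_le (Dat.Xi_le (D := D) h g) (h1 σ hσ)))) (by
        simp only [Pi.smul_apply', tl, LinearMap.mul_apply', Dat.Xi_mul h hσ, mul_smul_comm]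
        rw [← smul_sub]
        congr 1
        ring)
  rw [← ES.ml_map (lv_ck s k).1, LinearMap.mul_apply'] at h5
  refine el (ua h3 (le_sm (cq_norm g).le (ua h4 h5))) ?_
  rw [Dat.r_apply, ← smul_inv_smul₀ (cq_ne g) (D.xi ι ψ g), smul_mul_assoc, tl_smul]
  simp only [ES.der, Dat.Xi]
  module

/-- the finite-singular relation -/
theorem ES.ks_fs (h : Cf ι ψ) {l : Kp E} {h0 : l ∉ s} (hs : Ok (s.cons l h0)) :
    E.ks ι ψ (s.cons l h0) l.t = -E.ks ι ψ s l.F :=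
  eq_neg_of_add_eq_zero_left (PatB.zero_of (((ES.ks_ap h _).lim _ (.of_forall l.tK)).add
    ((ES.ks_ap h s).lim _ (.of_forall l.FK))) fun _ hε => (ev_small hε).mono fun k a => by
      rw [ES.der, ES.der, ck_cons, wt_cons, mul_smul]
      exact (l.fsr (lv_ck s k) (v_ck (l.ne2 k) (hs.v_one k))
        (wi_wf subset_rfl (ES.xk_wi h k))).trans a)

theorem t_KAP : KAP := fun D E A _ _ _ _ ι ψ h => by
  rw [← E.ks_empty]
  exact ⟨by simpa only [← ES.der_empty] using ES.ks_ap h ∅,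
    (ES.ks_rs h fun _ a => by simp at a).rel⟩

end Pool.Agent.P.MP_8b7eba_nt.CG
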