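import Pool.Agent.P.MP_8b7eba_nt.CG.JL

/-! The choice of Kolyvagin primes. -/

namespace Pool.Agent.P.MP_8b7eba_nt.CG

open R2 Filter Topology

variable {D : Dat} {E : ES D}

/-- a weak form of the Chebotarev theorem -/
theorem exists_frob {N : Subgroup GQ} (hN : ON N) (g : GQ) (B : ℕ) :
    ∃ (w : Pl) (φ : GQ) (r : ℕ), B < w.p ∧ w.IsFrob 1 φ ∧ Odd r ∧ (g ^ r)⁻¹ * φ ∈ N := by
  obtain ⟨m, hm, h4⟩ := hN.exists_pow g
  obtain ⟨s, r, o, rfl⟩ := Nat.exists_eq_two_pow_mul_odd hm.ne'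
  by_cases e : g ^ r ∈ N
  · by_contra! H
    obtain ⟨w, -⟩ := a_PL.1 2 Nat.prime_two
    obtain ⟨u, hu, h1⟩ := a_LG.2.2.2.2 w _ (w.loc_inf hN.2)
    obtain ⟨h2, h3⟩ := (a_LG.2.2.2.1 ((lg (cyc u)).valuation + 1)).2.2.2
    have h5 := (h3.1 u).1 (a_GENP.1 N _ B hN.2 h2.2
      (fun w φ a b c => absurd (mul_mem (inv_mem e) b) (H w φ r a c o)) hu.2)
    have h6 := (PadicInt.mem_span_pow_iff_le_valuation _ h1 _).1 (Ideal.mem_span_singleton.2 h5)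
    omega
  · obtain ⟨w, φ, r', h5, h6, h7, h8⟩ := a_GENP.2.2 _ (g ^ r) s B hN e
      (by rwa [← pow_mul, mul_comm r])
    exact ⟨w, φ, r * r', h5, h6, o.mul h7, by rwa [pow_mul]⟩

/-- existence of Kolyvagin primes close to a given sequence -/
theorem ES.exists_kp (E : ES D) (s : Finset (Kp E)) {g : GS} (hg : ∀ k m, g k ∈ E.N m)
    {N : ℕ → Subgroup GQ} (hN : ∀ k, ON (N k)) : ∃ (l : Kp E) (r : ℕ → ℕ),
      (∀ l' ∈ s, ∀ k, (l.w k).p ≠ (l'.w k).p) ∧ ∀ k, Odd (r k) ∧ (g k ^ r k)⁻¹ * l.F k ∈ N k := by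
  choose M m1 m2 using fun k => exists_ON_le (E.op _ (pow2_ne (k + 2)))
  choose w F r h1 h2 h3 h4 using fun k => exists_frob ((hN k).inf (m1 k)) (g k)
    (2 * D.n + E.B + ∑ l ∈ s, (l.w k).p)
  have big : ∀ k, ¬ (w k).p ∣ 2 * D.n := fun k a => by
    have := Nat.le_of_dvd (by have := D.n0; omega) a
    have := h1 k
    omega
  have FN : ∀ k, F k ∈ E.N (2 ^ (k + 2)) := fun k => by
    simpa using mul_mem (pow_mem (hg k _) (r k)) (m2 k (h4 k).2)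
  have q4 : ∀ k, (w k).p % 4 = 1 := fun k => by
    have := p4 (k := 2) (ne_two (big k)) (h2 k)
      (by convert GK_cyc.1 (E.le _ (FN k)) using 1; norm_num)
    have := (w k).prime.one_le
    omega
  choose lam l1 l2 l3 l4 using fun k => E.kol (w k) (by have := h1 k; omega) (q4 k)
  choose t t1 t2 using fun k => Pl.exists_gen a_TAME a_RES (ne_two (big k))
  choose d d1 d2 d3 using fun k => dlog (E.op (lam k) fun e => (w k).prime.ne_zero (by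
      have := l1 k
      rw [e, Zsqrtd.norm_zero] at this
      exact_mod_cast this.symm)) (E.le _) (ne_two (big k)) (t1 k) (t2 k)
    (p4 (ne_two (big k)) (h2 k) (E.cyc (FN k))) (l3 k)
  refine ⟨⟨w, lam, F, t, d, big, l1, l2, h2, FN, t1, t2, d1, d2, d3,
    fun k m hm hv => l4 k m _ hm.1 hm.2 hv (h2 k)⟩, r, fun l hl k => ?_, fun k => ⟨h3 k, (h4 k).1⟩⟩
  have := Finset.single_le_sum (f := fun l : Kp E => (l.w k).p) (fun _ _ => Nat.zero_le _) hl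
  have := h1 k
  show (w k).p ≠ _
  omega

/-- sequences which act trivially -/
def Y (E : ES D) (g : GS) : Prop := ∀ k, D.ρ (g k) = 1 ∧ ∀ m, g k ∈ E.N m

variable {σ τ : GS}

theorem Y.mem (h : Y E σ) (k : ℕ) : σ k ∈ GK := E.le 1 ((h k).2 1)

theorem Y.mul (h : Y E σ) (h' : Y E τ) : Y E (σ * τ) := fun k =>
  ⟨by rw [Pi.mul_apply, D.rho_mul (h.mem k), (h k).1, (h' k).1, one_mul],
    fun m => mul_mem ((h k).2 m) ((h' k).2 m)⟩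

variable {A : Type} [NormedCommRing A] [NormedAlgebra ℚ_[2] A] {ι ι' : A} {ψ ψ' : ℤ_[2] → A}
  {x y : GS → A} {s : Finset (Kp E)}

theorem Y.act (h : Y E σ) (hψ : Cf ι ψ) (v : A) : rS (D.r ι ψ) σ v = v :=
  Dat.rS_of hψ (.of_forall fun k => ⟨h.mem k, (h k).1⟩) v

theorem Y.co (h : Y E σ) (h' : Y E τ) (hψ : Cf ι ψ) (hx : Rs ι ψ s x) : x (σ * τ) = x σ + x τ := by
  rw [hx.pz.2 σ (.of_forall h.mem) τ (.of_forall h'.mem), h.act hψ]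

theorem near {r : GQ → A →ₗ[ℚ_[2]] A} (hx : PZ (fun _ => GK) r x) : ∃ N : ℕ → Subgroup GQ,
    (∀ k, ON (N k)) ∧ ∀ g n : GS, (∀ k, g k ∈ GK) → (∀ k, n k ∈ N k ⊓ GK) → x (g * n) = x g := by
  obtain ⟨c, hc⟩ := hx.1
  choose N h1 h2 using fun k : ℕ => hc.uc k (2 ^ k)⁻¹ (by positivity)
  refine ⟨N, h1, fun g n hg hN => sub_eq_zero.1 (PatB.zero_of
    ((hc.lim _ (.of_forall fun k => mul_mem (hg k) (hN k).2)).sub (hc.lim _ (.of_forall hg)))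
    fun ε hε => (TPKOL.ev_small hε).mono fun k a => (h2 k _ (hg k) _ (hN k).2 (hN k).1).trans a)⟩

variable [IsUltrametricDist A] [FiniteDimensional ℚ_[2] A]

theorem exists_y (h : Cf ι ψ) (hx : Rs ι ψ s x) (h0 : x ≠ 0) : ∃ σ, Y E σ ∧ x σ ≠ 0 := by
  obtain ⟨g, h1⟩ := Function.ne_iff.1 h0
  have h2 : g ∈ S1 GK := not_not.1 (mt (hx.off g) h1)
  obtain ⟨u, h3, h4⟩ := St_exists h2
  refine ⟨u * cs D.z * u⁻¹ * (cs D.z)⁻¹, fun k => ⟨D.rho_cm (h3 k) D.zK,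
    fun m => E.ab m _ (h3 k) _ D.zK⟩, fun e => h1 ?_⟩
  rw [hx.pz.comm (D.rep h) (fun _ => le_rfl) (.of_forall h3) (cs_mem.2 D.zK) hx.nz,
    hx.pz.germ h2 h4, rS_congr (s := D.r ι ψ) (g' := cs D.z) (.of_forall fun k => ?_), rS_cs,
    Dat.r_apply, ← neg_eq_zero, neg_sub, ← sub_one_mul,
    (Dat.xi_unit h D.zc D.zr).mul_right_eq_zero] at e
  · exact e
  change D.xi ι ψ (u k * D.z * (u k)⁻¹) * _ = D.xi ι ψ D.z * _
  rw [Dat.xi_cyc h D.zc, Dat.xi_cyc h (by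
    rw [cyc_mul, cyc_mul, D.zc, mul_one, cyc_inv, mul_inv_cancel]), D.rho_conj (h3 k) D.zK]

/-- the choice of a Kolyvagin prime -/
theorem cheb (h : Cf ι ψ) (h' : Cf ι' ψ') (hx : Rs ι ψ s x) (hy : Rs ι' ψ' s y)
    (nx : x ≠ 0) (ny : y ≠ 0) :
    ∃ l : Kp E, (∀ l' ∈ s, ∀ k, (l.w k).p ≠ (l'.w k).p) ∧ x l.F ≠ 0 ∧ y l.F ≠ 0 := by
  obtain ⟨g, h1, h2, h3⟩ : ∃ σ, Y E σ ∧ x σ ≠ 0 ∧ y σ ≠ 0 := by
    obtain ⟨σ, a1, a2⟩ := exists_y h hx nx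
    obtain ⟨τ, b1, b2⟩ := exists_y h' hy ny
    by_cases a3 : y σ = 0
    · by_cases b3 : x τ = 0
      · exact ⟨_, a1.mul b1, by rwa [a1.co b1 h hx, b3, add_zero],
          by rwa [a1.co b1 h' hy, a3, zero_add]⟩
      · exact ⟨τ, b1, b3, b2⟩
    · exact ⟨σ, a1, a2, a3⟩
  obtain ⟨N, hN, hN'⟩ := near hx.pz
  obtain ⟨M, hM, hM'⟩ := near hy.pz
  obtain ⟨l, r, l1, l2⟩ := E.exists_kp s (fun k => (h1 k).2) fun k => (hN k).inf (hM k)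
  have key : ∀ (ι : A) ψ (z : GS → A) (L : ℕ → Subgroup GQ), Cf ι ψ → Rs ι ψ s z →
      (∀ g n : GS, (∀ k, g k ∈ GK) → (∀ k, n k ∈ L k ⊓ GK) → z (g * n) = z g) →
      (∀ k, (g k ^ r k)⁻¹ * l.F k ∈ L k) → z g ≠ 0 → z l.F ≠ 0 := fun ι ψ z L a1 a2 a3 a4 a5 => by
    have := a2.pz.pow (D.rep a1) (fun _ => le_rfl) (.of_forall h1.mem) (h1.act a1) r
    rw [← a3 _ (fun k => (g k ^ r k)⁻¹ * l.F k) (fun k => pow_mem (h1.mem k) _) fun k =>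
      ⟨a4 k, GK.mul_mem (GK.inv_mem (GK.pow_mem (h1.mem k) _)) (l.FK k)⟩,
      show ((fun k => g k ^ r k) * fun k => (g k ^ r k)⁻¹ * l.F k) = l.F from
        funext fun k => mul_inv_cancel_left _ _] at this
    rw [this]
    exact smul_ne_zero (TKTRIV.odd_ne fun k => (l2 k).1) a5
  exact ⟨l, l1, key ι ψ x N h hx hN' (fun k => (l2 k).2.1) h2,
    key ι' ψ' y M h' hy hM' (fun k => (l2 k).2.2) h3⟩

end Pool.Agent.P.MP_8b7eba_nt.CG
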