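import Pool.Agent.P.MP_8b7eba_nt.CG.JA

/-! The local invariant and the Euler characteristic over the 2-adic Gaussian field. -/

namespace Pool.Agent.P.MP_8b7eba_nt.CG

open R2
open QT (I_sq)

variable {w : Pl}

theorem loc_K (w : Pl) : w.Loc (w.D ⊓ GK) := w.loc_inf GK_open

theorem exists_out (h2 : w.p = 2) : ∃ t ∈ w.I, cyc t = -1 ∧ t ∉ GK := by
  obtain ⟨t, ht, e⟩ := a_EC2 w h2 (-1)
  refine ⟨t, ht, e, fun a => ?_⟩
  rw [GK_cyc, e] at a
  have := (PadicInt.pow_p_dvd_int_iff (p := 2) 2 (-2)).1 (by convert a using 1 <;> norm_num)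
  norm_num at this

theorem idx_two (h2 : w.p = 2) : (w.D ⊓ GK).relIndex w.D = 2 := by
  obtain ⟨t, ht, -, e⟩ := exists_out h2
  rw [Subgroup.inf_relIndex_left]
  exact Subgroup.relIndex_eq_two_iff_exists_notMem_and.2
    ⟨_, ht.1, e, fun b _ => or_iff_not_imp_right.2 fun a => mul_GK a e⟩

/-- the invariant is injective -/
theorem inj_two (h2 : w.p = 2) {F : GQ → GQ → Om} (hF : Co2T (w.D ⊓ GK) F)
    (h1 : nv w (w.D ⊓ GK) F = 1) : Triv (w.D ⊓ GK) F := by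
  have hA := a_CA
  have h := loc_K w
  obtain ⟨H, hH⟩ : ∃ H, H = w.D ⊓ GK := ⟨_, rfl⟩
  rw [← hH] at hF h1 h ⊢
  obtain ⟨g1, -, -, g4, -⟩ := hA.lg
  obtain ⟨n, hn⟩ := hA.diek w H F h hF
  have m0 : 2 ^ n ≠ 0 := by positivity
  have ri := h.relIndex_ne le_rfl
  have c1 : IsCh H (Ps n) := (g4 n).1.mono le_top
  have c2 : IsKer H (H ⊓ KP n) (Ps n) := fun g =>
    and_congr_right fun _ => ((g4 n).2.2.1 g).trans (and_iff_right trivial)
  obtain ⟨a, ha, a0, t⟩ := hA.cyc1 H _ _ _ h.closed m0 c1 c2 F hF.1 (hn n le_rfl)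
  have s1 : ∀ a, sv w H n a = 1 ↔ 2 ^ n ∣ lg (art w (nrm w.D H a)) := fun a => by
    rw [sv, hA.ec.1.eq_one, TINJ.norm_iff]
  rw [hA.inv2.1 w H F _ h hF (hA.cup H a ha a0 _ _ m0 c1).1 t, (hA.inv w H h).cup n a ha a0,
    s1] at h1
  have lm : ∀ a b, Fix H a → Fix H b → a ≠ 0 → b ≠ 0 → lg (art w (nrm w.D H (a * b))) =
      lg (art w (nrm w.D H a)) + lg (art w (nrm w.D H b)) := fun a b ha hb a0 b0 => by
    rw [nrm_mul ri, (hA.art.1 w).mul _ _ (ha.nrm ri) (hb.nrm ri) (mt (nrm_eq_zero ri).1 a0)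
      (mt (nrm_eq_zero ri).1 b0), g1.mul]
  have ld : ∀ a b, Fix H a → Fix H b → a ≠ 0 → b ≠ 0 →
      (∃ c, Fix (H ⊓ KP n) c ∧ nrm H (H ⊓ KP n) c = a / b) →
      2 ^ n ∣ lg (art w (nrm w.D H a)) - lg (art w (nrm w.D H b)) := fun a b ha hb a0 b0 e => by
    have d0 := div_ne_zero a0 b0
    have d1 := (hA.inv w H h).triv _ (hA.cup H _ (ha.div hb) d0 _ _ m0 c1).1
      ((hA.cyc2 H _ _ _ h.closed m0 c1 c2 _ (ha.div hb) d0).2 e)
    rw [(hA.inv w H h).cup n _ (ha.div hb) d0, s1] at d1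
    have d2 := lm _ _ (ha.div hb) hb d0 b0
    rw [div_mul_cancel₀ _ b0] at d2
    rwa [d2, add_sub_cancel_right]
  obtain ⟨b, hb, b0, bu⟩ : ∃ b, Fix H b ∧ b ≠ 0 ∧ ¬ 2 ∣ lg (art w (nrm w.D H b)) := by
    obtain ⟨s, hs, -, e⟩ := exists_out h2
    have f1 : Fix H (1 + 2 * rt (-1)) :=
      fix_one.add ((fix_ofNat 2).mul fun g hg => (hH ▸ hg : g ∈ w.D ⊓ GK).2)
    have f2 : nrm w.D H (1 + 2 * rt (-1)) = 5 := by
      rw [nrm_two (hH ▸ idx_two h2) f1 hs.1 fun a => e (hH ▸ a : s ∈ w.D ⊓ GK).2, map_add, map_mul,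
        map_one, map_ofNat, gal_out e]
      linear_combination (-4 : Om) * I_sq
    refine ⟨_, f1, fun e => ?_, fun e => ?_⟩
    · rw [e, (nrm_eq_zero ri).2 rfl] at f2
      norm_num at f2
    have f3 := ((hA.art.1 w).two h2).2 5 (fix_ofNat 5) 5 3 (by decide) (by simp) (by norm_num)
    rw [f2, ← pow_one (2 : ℤ_[2]), g1.dvd] at e
    generalize (art w 5 : ℤ_[2]) = u at e f3
    rcases e with e | e
    · have := (PadicInt.pow_p_dvd_int_iff (p := 2) 3 4).1 (by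
        convert dvd_sub f3 (e.mul_left 5) using 1 <;> push_cast <;> ring)
      norm_num at this
    · have := (PadicInt.pow_p_dvd_int_iff (p := 2) 3 6).1 (by
        convert dvd_sub (e.mul_left 5) f3 using 1 <;> push_cast <;> ring)
      norm_num at this
  have lp : ∀ j : ℕ, lg (art w (nrm w.D H (b ^ j))) = j * lg (art w (nrm w.D H b)) := fun j => by
    induction j with
    | zero => simpa using lm 1 1 fix_one fix_one one_ne_zero one_ne_zero
    | succ j ih => rw [pow_succ, lm _ _ (hb.pow j) hb (pow_ne_zero j b0) b0, ih]; push_cast; ring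
  have fin : ∀ i j : Fin (2 ^ n), (2 : ℤ_[2]) ^ n ∣ (i : ℕ) * lg (art w (nrm w.D H b)) -
      (j : ℕ) * lg (art w (nrm w.D H b)) → i = j := fun i j e => by
    rw [← sub_mul] at e
    have u : IsUnit (lg (art w (nrm w.D H b))) := by
      rw [PadicInt.isUnit_iff]
      exact le_antisymm (PadicInt.norm_le_one _) (not_lt.1 fun a =>
        bu ((PadicInt.norm_lt_one_iff_dvd _).1 a))
    have e1 := (PadicInt.pow_p_dvd_int_iff (p := 2) n (((j : ℕ) : ℤ) - (i : ℕ))).1 (by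
      simpa using (u.dvd_mul_right.1 e).neg_right)
    exact Fin.ext (Nat.ModEq.eq_of_lt_of_lt (Nat.modEq_iff_dvd.2 (by simpa using e1)) i.2 j.2)
  refine t.iff.2 ((hA.cyc2 H _ _ _ h.closed m0 c1 c2 a ha a0).2 ?_)
  obtain ⟨i, j, e1, e2⟩ := (hA.unit w H _ _ n _ rfl h c1 c2).2 (Option (Fin (2 ^ n)))
    (fun o => o.elim a fun j => b ^ (j : ℕ))
    (fun o => by rcases o with _ | j; exacts [⟨ha, a0⟩, ⟨hb.pow _, pow_ne_zero _ b0⟩]) (by
      rw [c2.relIndex c1, Fintype.card_option, Fintype.card_fin]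
      refine Nat.lt_succ_of_le ((Set.ncard_le_ncard (Set.subset_univ _)).trans_eq ?_)
      rw [Set.ncard_univ, Nat.card_zmod])
  rcases i with _ | i <;> rcases j with _ | j
  · exact absurd rfl e1
  · have d1 := ld _ _ ha (hb.pow _) a0 (pow_ne_zero _ b0) e2
    obtain rfl := fin j ⟨0, by positivity⟩ (by
      rw [lp] at d1
      simpa using dvd_sub h1 d1)
    simpa using e2
  · have d1 := ld _ _ (hb.pow _) ha (pow_ne_zero _ b0) a0 e2
    obtain rfl := fin i ⟨0, by positivity⟩ (by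
      rw [lp] at d1
      simpa using dvd_add d1 h1)
    obtain ⟨c, c3, c4⟩ := e2
    exact ⟨c⁻¹, c3.inv, by rw [nrm_inv, c4]; simp⟩
  · have d1 := ld _ _ (hb.pow _) (hb.pow _) (pow_ne_zero _ b0) (pow_ne_zero _ b0) e2
    rw [lp, lp] at d1
    exact absurd (congrArg some (fin i j d1)) e1

open TEP in
/-- the Euler characteristic -/
theorem ep_two (h2 : w.p = 2) (M : Type) [AddCommGroup M] (ρ : GQ → M →+ M)
    (hρ : Uni (w.D ⊓ GK) ρ) : (Z (w.D ⊓ GK) ρ).Finite ∧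
      (Z (w.D ⊓ GK) ρ).ncard ≤ Nat.card M ^ 3 * (H0 (w.D ⊓ GK) ρ).ncard := by
  obtain ⟨hq, h8⟩ := a_SQ1 w _ (loc_K w)
  rw [if_pos h2, idx_two h2] at h8
  induction hn : Nat.card M using Nat.strong_induction_on generalizing M with
  | _ n ih =>
    have := hρ.fin
    rcases subsingleton_or_nontrivial M with hM | hM
    · have h1 : (Z (w.D ⊓ GK) ρ).Subsingleton := Set.subsingleton_of_subsingleton
      refine ⟨h1.finite, ?_⟩
      rw [← hn, Nat.card_of_subsingleton (0 : M), one_pow, one_mul]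
      exact ((Set.ncard_le_one h1.finite).2 fun a ha b hb => h1 ha hb).trans (H0_pos hρ)
    · obtain ⟨l, ρ', hs, hl, hρ', e, hc, hx⟩ := a_FILT _ M ρ hρ hM
      have hp : 0 < Nat.card l.ker := Nat.card_pos
      obtain ⟨f1, c1⟩ := ih (Nat.card l.ker) (by omega) l.ker ρ' hρ' rfl
      obtain ⟨f2, c2⟩ := step a_GAL a_CUP a_SYM a_NI (loc_K w) hq hρ hs hl e hx f1
      refine ⟨f2, Nat.le_of_mul_le_mul_right (c := 2 * (H0 (w.D ⊓ GK) ρ').ncard) (c2.trans ?_)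
        (Nat.mul_pos two_pos (H0_pos hρ'))⟩
      rw [← hn, hc]
      calc _ ≤ (4 * 2 ^ 2) * ((Nat.card l.ker ^ 3 * (H0 (w.D ⊓ GK) ρ').ncard) *
            (H0 (w.D ⊓ GK) ρ).ncard) := Nat.mul_le_mul h8 (Nat.mul_le_mul_right _ c1)
        _ = _ := by ring

end Pool.Agent.P.MP_8b7eba_nt.CG
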