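import Pool.Agent.P.MP_8b7eba_nt.CG.JP

/-! Kolyvagin primes and derived measures. -/

namespace Pool.Agent.P.MP_8b7eba_nt.CG

open R2 Filter Topology

variable {D : Dat}

/-- patched Kolyvagin primes -/
structure Kp (E : ES D) where
  w : ℕ → Pl
  lam : ℕ → GaussianInt
  F : GS
  t : GS
  d : ℕ → GQ → ℚ_[2]
  big : ∀ k, ¬ (w k).p ∣ 2 * D.n
  nm : ∀ k, (lam k).norm = (w k).p
  vl : ∀ k, (w k).v (gi (lam k)) < 1
  fr : ∀ k, (w k).IsFrob 1 (F k)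
  FN : ∀ k, F k ∈ E.N (2 ^ (k + 2))
  tI : ∀ k, t k ∈ (w k).I
  mov : ∀ k (β : Om), β ^ 2 = (w k).p → t k β = -β
  dw : ∀ k, Wi (E.N (lam k)) (d k)
  da : ∀ k, ∀ σ ∈ GK, ∀ g ∈ GK, ‖d k (σ * g) - d k σ - d k g‖ ≤ (2 ^ k)⁻¹
  d1 : ∀ k, d k (t k) = 1
  hec : ∀ k m, Lv m → (w k).v (gi m) = 1 → ∃ u, IsOfFinOrder u ∧
    nrm (E.N m) (E.N (m * lam k)) (E.th (m * lam k)) * (F k)⁻¹ (E.th m) = u * E.th m

variable {E : ES D} {W : Type} [NormedAddCommGroup W] [NormedSpace ℚ_[2] W] {k : ℕ}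
  {m : GaussianInt} {F f : GQ → W} {g h : GQ} {s : Finset (Kp E)}

/-- sets of distinct Kolyvagin primes -/
def Ok (s : Finset (Kp E)) : Prop := ∀ l ∈ s, ∀ l' ∈ s, l ≠ l' → ∀ k, (l.w k).p ≠ (l'.w k).p

/-- the level -/
def ck (s : Finset (Kp E)) (k : ℕ) : GaussianInt := 2 ^ (k + 2) * ∏ l ∈ s, l.lam k

/-- the weight of the derivative -/
noncomputable def wt (s : Finset (Kp E)) (k : ℕ) : GQ → ℚ_[2] := ∏ l ∈ s, l.d k

theorem Kp.ne2 (l : Kp E) (k : ℕ) : (l.w k).p ≠ 2 := ne_two (l.big k)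

theorem Kp.FK (l : Kp E) (k : ℕ) : l.F k ∈ GK := E.le _ (l.FN k)

theorem Kp.tK (l : Kp E) (k : ℕ) : l.t k ∈ GK := I_le_GK (l.ne2 k) (l.tI k)

theorem Kp.l0 (l : Kp E) (k : ℕ) : l.lam k ≠ 0 := fun e => (l.w k).prime.ne_zero (by
  have := l.nm k
  rw [e, Zsqrtd.norm_zero] at this
  exact_mod_cast this.symm)

theorem Kp.near (l : Kp E) (k : ℕ) : ‖cq (l.F k) - 1‖ ≤ (2 ^ k)⁻¹ := by
  simpa [cq] using norm_dvd (E.cyc (l.FN k))

theorem Kp.v_one (l : Kp E) {w : Pl} (h : w.p ≠ (l.w k).p) : w.v (gi (l.lam k)) = 1 :=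
  v_gi_one fun e => h ((Nat.prime_dvd_prime_iff_eq w.prime (l.w k).prime).1
    (Int.natCast_dvd_natCast.1 (l.nm k ▸ e)))

theorem ck_cons {l : Kp E} (h : l ∉ s) (k : ℕ) : ck (s.cons l h) k = ck s k * l.lam k := by
  rw [ck, ck, Finset.prod_cons]; ring

theorem wt_cons {l : Kp E} (h : l ∉ s) (k : ℕ) : wt (s.cons l h) k = l.d k * wt s k :=
  Finset.prod_cons h

theorem Ok.mono {s' : Finset (Kp E)} (h : Ok s) (h' : s' ⊆ s) : Ok s' :=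
  fun l hl l' hl' => h l (h' hl) l' (h' hl')

theorem ok_cons {l : Kp E} (h : Ok s) (h' : ∀ l' ∈ s, ∀ k, (l.w k).p ≠ (l'.w k).p) :
    ∃ h0 : l ∉ s, Ok (s.cons l h0) := by
  refine ⟨fun e => h' l e 0 rfl, fun a ha b hb e k => ?_⟩
  rcases Finset.mem_cons.1 ha with a1 | a1 <;> rcases Finset.mem_cons.1 hb with b1 | b1
  · exact absurd (a1.trans b1.symm) e
  · exact a1 ▸ h' b b1 k
  · exact b1 ▸ (h' a a1 k).symm
  · exact h a a1 b b1 e k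

theorem Ok.v_one {l : Kp E} {h : l ∉ s} (ho : Ok (s.cons l h)) (k : ℕ) :
    ∀ l' ∈ s, (l.w k).v (gi (l'.lam k)) = 1 := fun l' hl' => l'.v_one
  (ho l (Finset.mem_cons_self _ _) l' (Finset.mem_cons_of_mem hl') (fun e => h (e ▸ hl')) k)

theorem lv_ck (s : Finset (Kp E)) (k : ℕ) : Lv (ck s k) :=
  ⟨mul_ne_zero (pow2_ne _) (Finset.prod_ne_zero_iff.2 fun l _ => l.l0 k),
    Dvd.dvd.mul_right ⟨2 ^ k, by ring⟩ _⟩

theorem v_ck {w : Pl} (h2 : w.p ≠ 2) (h : ∀ l ∈ s, w.v (gi (l.lam k)) = 1) :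
    w.v (gi (ck s k)) = 1 := by
  rw [ck, gi_mul, gi_pow, gi_two, map_mul, map_pow, Pl.v_two h2, one_pow, one_mul]
  exact Finset.prod_induction _ (fun a => w.v (gi a) = 1)
    (fun a b ha hb => by rw [gi_mul, map_mul, ha, hb, one_mul]) (by rw [gi_one, map_one]) h

theorem Wi.mul {N : Subgroup GQ} {d d' : GQ → ℚ_[2]} (h : Wi N d) (h' : Wi N d') : Wi N (d * d') :=
  h.smul h'

theorem wi_wt {S : Finset (Kp E)} (h : S ⊆ s) (k : ℕ) : Wi (E.N (ck s k)) (wt S k) :=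
  Finset.prod_induction _ _ (fun _ _ => Wi.mul) wi_one fun l hl => (l.dw k).mono (E.anti _ _
    ((Finset.dvd_prod_of_mem (fun l : Kp E => l.lam k) (h hl)).mul_left _) (lv_ck s k).1)

theorem wi_wf {S : Finset (Kp E)} (h : S ⊆ s) (hf : Wi (E.N (2 ^ (k + 2))) f) :
    Wi (E.N (ck s k)) (wt S k • f) :=
  (wi_wt h k).smul (hf.mono (E.anti _ _ (dvd_mul_right _ _) (lv_ck s k).1))

theorem prod_le {ι : Type} (S : Finset ι) {a : ι → ℚ_[2]} (ha : ∀ i, ‖a i‖ ≤ 1) :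
    ‖∏ i ∈ S, a i‖ ≤ 1 := by
  rw [norm_prod]; exact Finset.prod_le_one (fun _ _ => norm_nonneg _) fun i _ => ha i

theorem prod_near {ι : Type} (S : Finset ι) {a b : ι → ℚ_[2]} {ε : ℝ} (h0 : 0 ≤ ε)
    (ha : ∀ i, ‖a i‖ ≤ 1) (hb : ∀ i, ‖b i‖ ≤ 1) (h : ∀ i, ‖a i - b i‖ ≤ ε) :
    ‖∏ i ∈ S, a i - ∏ i ∈ S, b i‖ ≤ ε := by
  induction S using Finset.cons_induction with
  | empty => simpa using h0
  | cons i S hi ih =>
    rw [Finset.prod_cons, Finset.prod_cons]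
    refine el (ua (le_sm (ha i) ih) (sm_le (h i) (prod_le S hb))) ?_
    simp only [smul_eq_mul]
    ring

variable [IsUltrametricDist W]

theorem le_one {N : Subgroup GQ} (hm : Lv m) (hg : g ∈ GK) (hF : Wi N F) : ‖E.ml k m g F‖ ≤ 1 :=
  ES.le' hm hg fun σ _ => hF.1 σ

/-- invariance follows from the vanishing for proper subsets -/
theorem inv_of (hm : Lv m) (hf : ∀ σ, ‖f σ‖ ≤ 1) (hg : g ∈ GK) (hh : h ∈ GK)
    (H : ∀ T ⊂ s, ‖E.ml k m h (wt T k • f)‖ ≤ (2 ^ k)⁻¹) :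
    ‖E.ml k m h (tl (wt s k) g • f) - E.ml k m h (wt s k • f)‖ ≤ (2 ^ k)⁻¹ := by
  classical
  have h0 : (0 : ℝ) ≤ (2 ^ k)⁻¹ := by positivity
  have e : ∀ σ, (∑ T ∈ s.powerset, (∏ l ∈ s \ T, l.d k g) • (wt T k • f)) σ =
      (∏ l ∈ s, (l.d k σ + l.d k g)) • f σ := fun σ => by
    rw [Finset.prod_add, Finset.sum_smul, Finset.sum_apply]
    refine Finset.sum_congr rfl fun T _ => ?_
    rw [Pi.smul_apply, Pi.smul_apply', wt, Finset.prod_apply, smul_smul, mul_comm]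
  have h1 := ES.near (E := E) (k := k) hm hh (F := tl (wt s k) g • f)
    (F' := ∑ T ∈ s.powerset, (∏ l ∈ s \ T, l.d k g) • (wt T k • f)) (ε := (2 ^ k)⁻¹) fun σ hσ => by
    rw [e, Pi.smul_apply', ← sub_smul, tl, wt, Finset.prod_apply]
    refine sm_le (prod_near s h0 (fun l => (l.dw k).1 _)
      (fun l => ua ((l.dw k).1 _) ((l.dw k).1 _)) fun l => ?_) (hf σ)
    rw [← sub_sub]; exact l.da k σ hσ g hg
  rw [← Finset.add_sum_erase _ _ (Finset.mem_powerset_self s), Finset.sdiff_self, Finset.prod_empty,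
    one_smul, map_add, ← sub_sub, map_sum] at h1
  rw [← sub_add_cancel (_ - _) (∑ T ∈ s.powerset.erase s,
    E.ml k m h ((∏ l ∈ s \ T, l.d k g) • (wt T k • f)))]
  refine ua h1 (TKLD.usum h0 fun T hT => ?_)
  rw [map_smul]
  exact le_sm (prod_le _ fun l => (l.dw k).1 _) (H T (Finset.ssubset_iff_subset_ne.2
    ⟨Finset.mem_powerset.1 (Finset.mem_of_mem_erase hT), Finset.ne_of_mem_erase hT⟩))

theorem Kp.hec' (l : Kp E) (hm : Lv m) (hv : (l.w k).v (gi m) = 1) (hg : g ∈ GK)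
    (hF : Wi (E.N m) F) :
    ‖E.ml k (m * l.lam k) g F - (E.ml k m g F - E.ml k m g (tl F (l.F k)))‖ ≤ (2 ^ k)⁻¹ :=
  ES.hec hm (l.l0 k) hg (l.FK k) hF (l.hec k m hm hv)

/-- the derived measures are invariant -/
theorem qz_inv (hf : Wi (E.N (2 ^ (k + 2))) f) (hh : h ∈ GK) (s : Finset (Kp E)) :
    Ok s → ∀ S ⊆ s, ∀ g ∈ GK,
      ‖E.ml k (ck s k) h (tl (wt S k) g • f) - E.ml k (ck s k) h (wt S k • f)‖ ≤ (2 ^ k)⁻¹ := by
  classical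
  induction s using Finset.strongInduction with
  | H s ih =>
    intro hs S hS g hg
    refine inv_of (lv_ck s k) hf.1 hg hh fun T hT => ?_
    obtain ⟨l, hl, hl'⟩ := Finset.exists_of_ssubset (hT.trans_subset hS)
    have hT' : T ⊆ s.erase l := Finset.subset_erase.2 ⟨hT.subset.trans hS, hl'⟩
    have e : ck s k = ck (s.erase l) k * l.lam k := by
      rw [← ck_cons (Finset.notMem_erase l s), Finset.cons_eq_insert, Finset.insert_erase hl]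
    have h1 := l.hec' (lv_ck (s.erase l) k) (v_ck (l.ne2 k) fun l' h' => l'.v_one
      (hs l hl l' (Finset.mem_of_mem_erase h') (Finset.ne_of_mem_erase h').symm k)) hh (wi_wf hT' hf)
    rw [tl_smul, hf.tl_eq (l.FN k), ← e] at h1
    exact el (us h1 (ih _ (Finset.erase_ssubset hl) (hs.mono (Finset.erase_subset _ _)) T hT' _
      (l.FK k))) (by abel)

theorem Kp.wi (l : Kp E) (hm : Lv m) (hF : Wi (E.N m) F) :
    Wi (E.N (m * l.lam k)) (l.d k • F) :=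
  have h := (hm.mul (l.l0 k)).1
  ((l.dw k).mono (E.anti _ _ (dvd_mul_left _ _) h)).smul (hF.mono (E.anti _ _ (dvd_mul_right _ _) h))

/-- the cocycle relation for the derived weight -/
theorem Kp.co (l : Kp E) (hm : Lv m) (hF : Wi (E.N m) F) (hg : g ∈ GK) (hh : h ∈ GK) :
    ‖E.ml k (m * l.lam k) (g * h) (l.d k • F) - E.ml k (m * l.lam k) g (l.d k • F) -
      cq g • (E.ml k (m * l.lam k) h (l.d k • tl F g) +
        l.d k g • E.ml k (m * l.lam k) h (tl F g))‖ ≤ (2 ^ k)⁻¹ := by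
  have h0 := hm.mul (l.l0 k)
  have h2 := ES.near (E := E) (k := k) h0 hh (F := tl (l.d k • F) g)
    (F' := l.d k • tl F g + l.d k g • tl F g) fun σ hσ => el (sm_le (l.da k σ hσ g hg)
      (hF.1 (σ * g))) (by
        simp only [tl, Pi.smul_apply', Pi.add_apply, Pi.smul_apply]
        module)
  refine el (ua (ES.co h0 hg hh (l.wi hm hF)) (le_sm (cq_norm g).le h2)) ?_
  rw [map_add, map_smul (E.ml k _ h) (l.d k g)]
  module

/-- the finite-singular relation -/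
theorem Kp.fsr (l : Kp E) (hm : Lv m) (hv : (l.w k).v (gi m) = 1) (hF : Wi (E.N m) F) :
    ‖E.ml k (m * l.lam k) (l.t k) (l.d k • F) + E.ml k m (l.F k) F‖ ≤ (2 ^ k)⁻¹ := by
  have h2 := l.ne2 k
  have FK := l.FK k
  have tK := l.tK k
  refine E.push k (fun m => Lv m ∧ (l.w k).v (gi m) = 1) (fun m => E.ml k (m * l.lam k) (l.t k) ∘ₗ
      LinearMap.pi (fun σ => l.d k σ • LinearMap.proj σ) + E.ml k m (l.F k)) FK
    (la_frob h2 one_pos (l.fr k)) (fun m h => ⟨h.1.1, h.1.mul (by decide), v_mul_two h2 h.2⟩)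
    (fun m F ε h e => ua (ES.le' (h.1.mul (l.l0 k)) tK fun σ _ => le_sm ((l.dw k).1 σ) (e σ))
      (ES.le' h.1 FK fun σ _ => e σ)) (fun m F h e => ?_) (fun m F h e => ?_) ⟨hm, hv⟩ hF
  · have h1 := ES.two' (k := k) (h.1.mul (l.l0 k)) tK (l.wi h.1 e)
    rw [mul_right_comm] at h1
    refine el (ua h1 (ES.two' h.1 FK e)) ?_
    change E.ml k _ _ (l.d k • F) + _ - (E.ml k _ _ (l.d k • F) + _) = _
    abel
  have kill : ∀ V : GQ → W, Wi (E.N m) V → ∀ g ∈ (l.w k).I,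
      ‖E.ml k (m * l.lam k) g V‖ ≤ (2 ^ k)⁻¹ := fun V hV g hg => by
    simpa only [sub_add_cancel] using ua (l.hec' h.1 h.2 (I_le_GK h2 hg) hV)
      (us (ES.unrf h.1 (l.big k) h.2 hV hg) (ES.unrf h.1 (l.big k) h.2 (hV.tl FK) hg))
  have coI : ∀ g ∈ (l.w k).I, ∀ u ∈ GK, ‖E.ml k (m * l.lam k) (g * u) (l.d k • F) -
      E.ml k (m * l.lam k) g (l.d k • F) - (E.ml k (m * l.lam k) u (l.d k • F) +
        l.d k g • E.ml k (m * l.lam k) u F)‖ ≤ (2 ^ k)⁻¹ := fun g hg u hu => by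
    simpa only [cq_of (cyc_I h2 hg), e.tl_eq (E.unr m _ (l.big k) h.2 hg), one_smul] using
      l.co (k := k) h.1 e (I_le_GK h2 hg) hu
  have h0 := h.1.mul (l.l0 k)
  have h3 := (tame_add (a := fun g => E.ml k (m * l.lam k) g (l.d k • F)) h2 (l.tI k) (l.mov k)
    ((E.ml_sm k h0.1).comp fun L => L (l.d k • F)) fun g hg u hu => el (ua (coI g hg u
      (I_le_GK h2 hu)) (le_sm ((l.dw k).1 g) (kill F e u hu))) (by abel)).2 1 _ (l.fr k)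
  have h4 := coI _ (Pl.conj_mem_I (l.fr k).1 (l.tI k)) _ FK
  rw [inv_mul_cancel_right, E.comm (l.dw k) (mul_mem FK tK) (inv_mem FK), inv_mul_cancel_left,
    l.d1, one_smul] at h4
  have h5 := l.co (k := k) h.1 e FK tK
  have h6 := le_sm (cq_norm (l.F k)).le (le_sm ((l.dw k).1 (l.F k)) (kill _ (e.tl FK) _ (l.tI k)))
  have h7 := sm_le (l.near k) (us (le_one (E := E) (k := k) h0 tK (l.wi (k := k) h.1 e))
    (le_one (E := E) (k := k) h0 tK (l.wi (k := k) h.1 (e.tl FK))))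
  rw [← cq_frob h2 (l.fr k)] at h3
  refine el (us (us (us (ua (us h5 h4) h6) h3) (l.hec' h.1 h.2 FK e)) h7) ?_
  change E.ml k _ _ (l.d k • F) + _ - (E.ml k _ _ (l.d k • tl F (l.F k)) + _) = _
  module

/-- the discrete logarithm -/
theorem dlog {w : Pl} {t : GQ} {N : Subgroup GQ} (hN : IsOpen (N : Set GQ)) (hK : N ≤ GK)
    (h2 : w.p ≠ 2) (ht : t ∈ w.I) (mov : ∀ β : Om, β ^ 2 = w.p → t β = -β) (h1 : 2 ^ k ∣ w.p - 1)
    (hc : ∃ c : GK →* (ZMod w.p)ˣ, (∀ g : GK, g.1 ∈ N → c g = 1) ∧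
      ∃ g : GK, g.1 ∈ w.I ∧ ¬ IsSquare (c g)) :
    ∃ d : GQ → ℚ_[2], Wi N d ∧ (∀ σ ∈ GK, ∀ g ∈ GK, ‖d (σ * g) - d σ - d g‖ ≤ (2 ^ k)⁻¹) ∧
      d t = 1 := by
  classical
  have hp : Fact w.p.Prime := ⟨w.prime⟩
  obtain ⟨c, c1, g, hg, c2⟩ := hc
  have tK := I_le_GK h2 ht
  have hns : ¬ IsSquare (c ⟨t, tK⟩) := fun ⟨a, ha⟩ => c2 (by
    obtain ⟨N', h3, h4⟩ := exists_ON_le hN
    obtain ⟨n, r, ⟨j, rfl⟩, h5⟩ := (tame2 h2 ht mov h3).1 g hg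
    have := c1 ((g * (⟨t, tK⟩ ^ n)⁻¹) ^ (2 * j + 1)) (by simpa using h4 h5)
    rw [map_pow, map_mul, map_inv, map_pow, ha, mul_pow, inv_pow, mul_inv_eq_one] at this
    refine ⟨(a ^ n) ^ (2 * j + 1) / c g ^ j, ?_⟩
    rw [div_mul_div_comm, ← mul_pow, ← mul_pow, ← this, eq_div_iff_mul_eq', ← pow_add, ← pow_succ',
      two_mul])
  obtain ⟨τ, hτ⟩ := IsCyclic.exists_monoid_generator (α := (ZMod w.p)ˣ)
  choose L hL using fun u => (Submonoid.mem_powers_iff u τ).1 (hτ u)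
  have ho : orderOf τ = w.p - 1 := by
    rw [orderOf_eq_card_of_forall_mem_powers hτ, Nat.card_eq_fintype_card, ZMod.card_units]
  have hn : ‖(L (c ⟨t, tK⟩) : ℚ_[2])‖ = 1 := Padic.norm_natCast_eq_one_iff.2
    (Nat.coprime_two_left.2 (Nat.not_even_iff_odd.1 fun ⟨a, ha⟩ =>
      hns ⟨τ ^ a, by rw [← pow_add, ← ha, hL]⟩))
  obtain ⟨d, d1, d2⟩ : ∃ d : GQ → ℚ_[2], (∀ σ (h : σ ∈ GK), d σ = L (c ⟨σ, h⟩) / L (c ⟨t, tK⟩)) ∧
      ∀ σ, σ ∉ GK → d σ = 0 := ⟨fun σ => if h : σ ∈ GK then L (c ⟨σ, h⟩) / L (c ⟨t, tK⟩) else 0,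
    fun σ h => dif_pos h, fun σ h => dif_neg h⟩
  have cm : ∀ σ u (h : σ ∈ GK) (h' : u ∈ GK), c ⟨σ * u, mul_mem h h'⟩ = c ⟨σ, h⟩ * c ⟨u, h'⟩ :=
    fun σ u h h' => map_mul c ⟨σ, h⟩ ⟨u, h'⟩
  refine ⟨d, ⟨fun σ => ?_, fun σ n hn => ?_⟩, fun σ hσ u hu => ?_, ?_⟩
  · by_cases h : σ ∈ GK
    · rw [d1 σ h, norm_div, hn, div_one]
      exact IsUltrametricDist.norm_natCast_le_one _ _
    · simp [d2 σ h]
  · by_cases h : σ ∈ GK
    · rw [d1 σ h, d1 _ (mul_mem h (hK hn)), cm σ n h (hK hn), c1 ⟨n, hK hn⟩ hn, mul_one]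
    · rw [d2 σ h, d2 _ (mt (mul_mem_cancel_right (hK hn)).1 h)]
  · rw [d1 σ hσ, d1 u hu, d1 _ (mul_mem hσ hu), cm σ u hσ hu]
    generalize c ⟨σ, hσ⟩ = a
    generalize c ⟨u, hu⟩ = b
    have h3 : L a + L b ≡ L (a * b) [MOD orderOf τ] := by
      rw [← pow_eq_pow_iff_modEq, pow_add, hL, hL, hL]
    have h4 : (2 : ℤ) ^ k ∣ (L (a * b) : ℤ) - (L a + L b : ℕ) := by
      refine Dvd.dvd.trans ?_ h3.dvd
      rw [ho]
      exact_mod_cast h1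
    have h5 := (Padic.norm_int_le_pow_iff_dvd (p := 2) _ k).2 h4
    rw [← sub_div, ← sub_div, norm_div, hn, div_one, sub_sub]
    push_cast at h5
    simpa using h5
  · rw [d1 t tK, div_self (norm_ne_zero_iff.1 (hn ▸ one_ne_zero))]

end Pool.Agent.P.MP_8b7eba_nt.CG
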