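import Pool.Agent.P.MP_8b7eba_nt.CG.JI

/-! Local duality and the Euler characteristic over the 2-adic Gaussian field. -/

namespace Pool.Agent.P.MP_8b7eba_nt.CG

open R2 TKLD Filter Topology Module

variable {W W' : Type} [NormedAddCommGroup W] [NormedSpace ℚ_[2] W] [FiniteDimensional ℚ_[2] W]
  [NormedAddCommGroup W'] [NormedSpace ℚ_[2] W'] [FiniteDimensional ℚ_[2] W']
  {β : W →ₗ[ℚ_[2]] W' →ₗ[ℚ_[2]] ℚ_[2]} {r : GQ → W →ₗ[ℚ_[2]] W} {r' : GQ → W' →ₗ[ℚ_[2]] W'}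
  {w : Pl} {G : Subgroup GQ} {φ : GQ} {K : ℝ}

/-- an endomorphism without fixed vectors -/
theorem ex_inv (f : W →ₗ[ℚ_[2]] W) (h : ∀ v, f v = v → v = 0) :
    (∃ K : ℝ, ∀ v R, ‖f v - v‖ ≤ R → ‖v‖ ≤ K * R) ∧ ∀ y, ∃ v, f v - v = y := by
  have h1 : LinearMap.ker (f - LinearMap.id) = ⊥ :=
    LinearMap.ker_eq_bot'.2 fun v hv => h v (sub_eq_zero.1 hv)
  obtain ⟨K, -, hK⟩ := (f - LinearMap.id).exists_antilipschitzWith h1
  exact ⟨⟨K, fun v R e => (ZeroHomClass.bound_of_antilipschitz _ hK v).trans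
    (mul_le_mul_of_nonneg_left e K.coe_nonneg)⟩,
    LinearMap.surjective_of_injective (LinearMap.ker_eq_bot.1 h1)⟩

namespace JKLD

/-- the invariants of the cup products with approximate cocycles vanish -/
theorem step1 (hG : w.Loc G) (hr : Rep G r) (hr' : Rep G r')
    (hβ : ∀ g ∈ G, ∀ x y, β (r g x) (r' g y) = cq g * β x y) (e' : ∀ y, ∃ v, r' φ v - v = y)
    {x : GS → W} {c : ℕ → GQ → W} (hx : PZ (fun _ => G) r x)
    (hc : Ap (fun _ => G) c x) (h : ∀ y, PZ (fun _ => G) r' y → y (cs φ) = 0 →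
      PI (fun _ => w) (fun _ => G) (cupS β r' x y) = 0) {C : ℝ} (hC : 0 < C) (i : ℕ) :
    ∀ᶠ k in UF, ∀ d : GQ → W', ((∀ g, ‖d g‖ ≤ C) ∧ Sm G d ∧
      ∀ g ∈ G, ∀ g' ∈ G, ‖d (g * g') - d g - r' g (d g')‖ ≤ C / 2 ^ k) →
      nv w G (fun g h => ec (β (c k g) (r' g (d h)) / 2 ^ i)) = 1 := by
  classical
  refine ev_choice fun f => ?_
  obtain ⟨d, hd, hf⟩ : ∃ d : ℕ → GQ → W', (∀ k, (∀ g, ‖d k g‖ ≤ C) ∧ Sm G (d k) ∧
      ∀ g ∈ G, ∀ g' ∈ G, ‖d k (g * g') - d k g - r' g (d k g')‖ ≤ C / 2 ^ k) ∧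
      ∀ k, ((∀ g, ‖f k g‖ ≤ C) ∧ Sm G (f k) ∧
      ∀ g ∈ G, ∀ g' ∈ G, ‖f k (g * g') - f k g - r' g (f k g')‖ ≤ C / 2 ^ k) → d k = f k := by
    refine ⟨fun k => if (∀ g, ‖f k g‖ ≤ C) ∧ Sm G (f k) ∧ ∀ g ∈ G, ∀ g' ∈ G,
      ‖f k (g * g') - f k g - r' g (f k g')‖ ≤ C / 2 ^ k then f k else fun _ => 0, fun k => ?_,
      fun k hk => if_pos hk⟩
    beta_reduce
    split_ifs with hk
    · exact hk
    · exact ⟨fun _ => by simpa using hC.le, Sm.const _, fun _ _ _ _ => by simp; positivity⟩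
  have hA := ap_ul (H := fun _ => G) (fun k => (hd k).1) fun k => (hd k).2.1.uc
  generalize (fun g : GS => ul fun k => d k (g k)) = Y at hA
  have hY : PZ (fun _ => G) r' Y := pz_of_ac hr' hA fun ε hε =>
    ((small C hε).filter_mono UF_le).mono fun k hk g hg g' hg' => ((hd k).2.2 g hg g' hg').trans hk
  have le : ∀ _ : ℕ, G ≤ G := fun _ => le_rfl
  have P := a_PIX (fun _ => w) (fun _ => G) fun _ => hG
  obtain ⟨Z, hZ, hZ', hZ''⟩ : ∃ Z, PZ (fun _ => G) r' Z ∧ Cob (S1 G) r' Z ∧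
      Z (cs φ) = Y (cs φ) := by
    obtain ⟨v, hv⟩ := e' (Y (cs φ))
    exact ⟨_, pz_cob hr' le v, ⟨_, fun _ _ => rfl⟩, by rw [rS_cs, hv]⟩
  have h1 := hY.sub hr' hZ
  have h2 := pz2_cup hr hr' le hβ hx h1
  have h3 := pz2_cup hr hr' le hβ hx hZ
  have h4 : cupS β r' x Y = cupS β r' x (Y - Z) + cupS β r' x Z := by
    funext g g'
    simp only [cupS, Pi.add_apply, Pi.sub_apply, hr'.rS_sub, map_sub, sub_add_cancel]
  have h5 : PI (fun _ => w) (fun _ => G) (cupS β r' x Y) = 0 := by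
    rw [h4, (P _ h2).2.2.2.1 _ h3, h _ h1 (by rw [Pi.sub_apply, hZ'', sub_self]),
      (P _ h3).2.2.2.2.2.1 (cob2_cup_right hr hr' le hβ hx hZ'), add_zero]
  refine ((P _ (pz2_cup hr hr' le hβ hx hY)).1 _ (ap2_cup hr' le hc hA) i).mono fun k hk hk' => ?_
  rw [h5, zero_div, ec0 a_EC.1, hf k hk'] at hk
  exact hk

variable [IsUltrametricDist W]

omit [FiniteDimensional ℚ_[2] W'] in
theorem coreA (hG : w.Loc G) (hI : ∀ F, Co2T G F → nv w G F = 1 → Triv G F) (hr : Rep G r)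
    (hi : ∀ x, (∀ y, β x y = 0) → x = 0)
    (hβ : ∀ g ∈ G, ∀ x y, β (r g x) (r' g y) = cq g * β x y) (hφ : φ ∈ G)
    (e : ∀ v R, ‖r φ v - v‖ ≤ R → ‖v‖ ≤ K * R) {C : ℝ}
    (hC : ∀ (k : ℕ) y, (∀ v, ‖v‖ ≤ 2 ^ k → ‖β v y‖ ≤ 1) → ‖y‖ ≤ C / 2 ^ k) {k : ℕ} {a : GQ → W}
    (hu : Uc G a) (hb : ∀ g, ‖a g‖ ≤ 2 ^ k)
    (hc : ∀ g ∈ G, ∀ g' ∈ G, ‖a (g * g') - a g - r g (a g')‖ ≤ 1) (h0 : ‖a φ‖ ≤ 1)
    (H : ∀ d : GQ → W', ((∀ g, ‖d g‖ ≤ C) ∧ Sm G d ∧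
      ∀ g ∈ G, ∀ g' ∈ G, ‖d (g * g') - d g - r' g (d g')‖ ≤ C / 2 ^ k) →
      nv w G (fun g h => ec (β (a g) (r' g (d h)))) = 1) :
    ∀ g ∈ G, ‖a g‖ ≤ max 1 K := by
  have hE := a_EC.1
  obtain ⟨M, _, π, σ, h⟩ := exists_bl hE W k
  obtain ⟨ρ, hU, hρ⟩ := h.act hr
  obtain ⟨Λ, hΛ⟩ := lift hE h hr hρ hi hβ
  have hX := h.co1 hr hρ hu hb hc
  obtain ⟨m, hm⟩ := a_LD w G M ρ hG hU _ hX fun y hy => by
    have e1 : ∀ g ∈ G, ∀ g' ∈ G, prD ρ (fun g => π (a g)) y g g' =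
        ec (β (a g) (r' g (Λ (y g')))) := fun g hg g' _ => (hΛ _ _ (hb g)).2 g hg
    have c1 : Co2T G fun g g' => ec (β (a g) (r' g (Λ (y g')))) :=
      Co2T.of_pow (k := k) ((TLD.co2 hU hX hy).congr fun g hg g' hg' => (e1 g hg g' hg').symm)
        fun g hg g' hg' => by
          rw [← e1 g hg g' hg', prD, ← map_pow, ← AddChar.map_nsmul_eq_pow, h.tor,
            AddChar.map_zero_eq_one, map_one]
    refine (hI _ c1 (H (fun g => Λ (y g)) ⟨fun g => ?_, hy.1.comp _,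
      fun g hg g' hg' => hC k _ fun v hv => ?_⟩)).congr e1
    · refine (hC 0 _ fun v hv => ?_).trans_eq (by simp)
      rw [pow_zero] at hv
      rw [← hE.eq_one, ← (hΛ _ _ (hv.trans (one_le_pow₀ one_le_two))).1, h.eq_zero hv,
        AddChar.map_zero_eq_one]
    · rw [sub_sub, map_sub, ← ec_eq hE, map_add, hE.add, ← (hΛ _ _ hv).1, ← (hΛ _ _ hv).1,
        ← (hΛ _ _ hv).2 g hg]
      exact hy.2 g hg g' hg' _
  have l := fun g => (hr.le g (σ m)).trans (h.le m)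
  have h1 : ∀ g ∈ G, ‖a g - (r g (σ m) - σ m)‖ ≤ 1 := fun g hg => by
    rw [← h.eq _ _ (hb g) (usub (l g) (h.le m)), h.sub (l g) (h.le m), ← hρ _ _ (h.le m), h.sec]
    exact hm g hg
  have h2 : ‖σ m‖ ≤ max 1 K := by
    have := usub h0 (h1 φ hφ)
    rw [sub_sub_cancel] at this
    exact (e _ _ this).trans (by simp)
  intro g hg
  have := uadd ((h1 g hg).trans (le_max_left _ _)) (usub ((hr.le g _).trans h2) h2)
  rwa [sub_add_cancel] at this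

theorem partA (hG : w.Loc G) (hI : ∀ F, Co2T G F → nv w G F = 1 → Triv G F) (hr : Rep G r)
    (hr' : Rep G r')
    (hi : ∀ x, (∀ y, β x y = 0) → x = 0) (hi' : ∀ y, (∀ x, β x y = 0) → y = 0)
    (hβ : ∀ g ∈ G, ∀ x y, β (r g x) (r' g y) = cq g * β x y) (hφ : φ ∈ G)
    (e : ∀ v R, ‖r φ v - v‖ ≤ R → ‖v‖ ≤ K * R) (e' : ∀ y, ∃ v, r' φ v - v = y) {x : GS → W}
    (hx : PZ (fun _ => G) r x) (h0 : x (cs φ) = 0)
    (h : ∀ y, PZ (fun _ => G) r' y → y (cs φ) = 0 →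
      PI (fun _ => w) (fun _ => G) (cupS β r' x y) = 0) : ∀ g ∈ S1 G, x g = 0 := by
  obtain ⟨c, hc⟩ := hx.1
  obtain ⟨B, hB⟩ := hc.bd
  obtain ⟨t, ht⟩ := ex2 B
  obtain ⟨C, hC, -, hC'⟩ := bounds β hi'
  have key : ∀ i : ℕ, ∀ᶠ k in UF, ∀ g ∈ G, ‖c k g‖ ≤ max 1 K / 2 ^ i := fun i => by
    have p : (0 : ℝ) < (2 ^ i)⁻¹ := by positivity
    have q : ∀ v : W, ‖v‖ ≤ (2 ^ i)⁻¹ → ‖((2 : ℚ_[2]) ^ i)⁻¹ • v‖ ≤ 1 := fun v hv => by
      rwa [nsm', ← le_div_iff₀' (by positivity), one_div]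
    have z := (hc.lim _ (cs_mem.2 hφ)).norm.eventually (ge_mem_nhds (by rw [h0, norm_zero]; exact p))
    filter_upwards [step1 hG hr hr' hβ e' hx hc h hC i, ev_ge (i + t),
      hx.ac hr hc p, z] with k k1 k2 k3 k4 g hg
    have := coreA hG hI hr hi hβ hφ e hC' (k := k)
      (a := fun g => ((2 : ℚ_[2]) ^ i)⁻¹ • c k g)
      (((hc.uc k).map (((2 : ℚ_[2]) ^ i)⁻¹ • LinearMap.id)).congr fun _ _ => rfl) (fun g => ?_)
      (fun g hg g' hg' => ?_) (q _ k4) (fun d hd => ?_) g hg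
    · rwa [nsm', ← le_div_iff₀' (by positivity)] at this
    · rw [nsm']
      refine (mul_le_mul_of_nonneg_left ((hB k g).trans ht) (by positivity)).trans ?_
      rw [← pow_add]
      exact pow_le_pow_right₀ one_le_two k2
    · rw [map_smul, ← smul_sub, ← smul_sub]
      exact q _ (k3 g hg g' hg')
    · rw [← k1 d hd]
      simp only [map_smul, LinearMap.smul_apply, smul_eq_mul, div_eq_inv_mul]
  intro g hg
  refine norm_le_zero_iff.1 (le_of_forall_pos_le_add fun ε hε => ?_)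
  obtain ⟨i, hi⟩ := (small (max 1 K) hε).exists
  rw [zero_add]
  exact le_of_tendsto (hc.lim g hg).norm (((key i).and hg).mono fun k hk => (hk.1 _ hk.2).trans hi)

omit [IsUltrametricDist W] in
/-- the number of invariant characters is bounded -/
theorem inv_le [IsUltrametricDist W'] (hr : Rep G r)
    (hi : ∀ x, (∀ y, β x y = 0) → x = 0) (hi' : ∀ y, (∀ x, β x y = 0) → y = 0)
    (hβ : ∀ g ∈ G, ∀ x y, β (r g x) (r' g y) = cq g * β x y) (hφ : φ ∈ G)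
    (e' : ∀ v R, ‖r' φ v - v‖ ≤ R → ‖v‖ ≤ K * R) : ∃ N : ℕ, ∀ (k : ℕ) (M : Type) [AddCommGroup M]
      (π : W → M) (σ : M → W) (ρ : GQ → M →+ M), Bl k π σ →
      (∀ g v, ‖v‖ ≤ 2 ^ k → ρ g (π v) = π (r g v)) →
      {f : AddChar M Om | ∀ g ∈ G, ∀ m, g (f m) = f (ρ g m)}.ncard ≤ N := by
  have hE := a_EC.1
  obtain ⟨C, hC, h1, h2⟩ := bounds β hi'
  obtain ⟨u, hu⟩ := ex2 C
  obtain ⟨t, ht⟩ := ex2 (2 ^ u * (K * C))
  obtain ⟨M', _, π', σ', h'⟩ := exists_bl hE W' t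
  refine ⟨Nat.card M', fun k M _ π σ ρ h hρ => ?_⟩
  obtain ⟨Λ, hΛ⟩ := lift hE h hr hρ hi hβ
  have := h'.fin
  have b : ∀ f : AddChar M Om, (∀ g ∈ G, ∀ m, g (f m) = f (ρ g m)) →
      ‖((2 : ℚ_[2]) ^ (u + k))⁻¹ • Λ f‖ ≤ 2 ^ t := fun f hf => by
    have : ‖r' φ (Λ f) - Λ f‖ ≤ C / 2 ^ k := h2 k _ fun v hv => by
      rw [map_sub, ← ec_eq hE, ← (hΛ f v hv).2 φ hφ, ← (hΛ f v hv).1, hf φ hφ, hρ _ _ hv,
        hρ _ _ ((hr.le _ _).trans hv), ← hr.mul _ hφ _ (inv_mem hφ), mul_inv_cancel, hr.one]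
    rw [nsm']
    refine (mul_le_mul_of_nonneg_left (e' _ _ this) (by positivity)).trans (le_trans ?_ ht)
    rw [pow_add]
    field_simp
    exact le_rfl
  rw [← Set.ncard_univ]
  refine Set.ncard_le_ncard_of_injOn (fun f => π' (((2 : ℚ_[2]) ^ (u + k))⁻¹ • Λ f))
    (fun _ _ => Set.mem_univ _) fun f hf f' hf' e => ?_
  rw [h'.eq _ _ (b f hf) (b f' hf'), ← smul_sub, nsm', pow_add] at e
  ext m
  rw [← h.sec m, (hΛ _ _ (h.le m)).1, (hΛ _ _ (h.le m)).1, ec_eq hE, ← map_sub]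
  refine (h1 _ _).trans (le_trans ?_ e)
  rw [mul_right_comm]
  gcongr
  exact h.le m

theorem coreB (hG : G = w.D ⊓ GK) (h2 : w.p = 2) (hr : Rep G r) (hφ : φ ∈ G)
    (e : ∀ v R, ‖r φ v - v‖ ≤ R → ‖v‖ ≤ K * R) {N : ℕ}
    (hN : ∀ (k : ℕ) (M : Type) [AddCommGroup M] (π : W → M) (σ : M → W) (ρ : GQ → M →+ M),
      Bl k π σ → (∀ g v, ‖v‖ ≤ 2 ^ k → ρ g (π v) = π (r g v)) →
      {f : AddChar M Om | ∀ g ∈ G, ∀ m, g (f m) = f (ρ g m)}.ncard ≤ N)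
    {ι : Type} [Fintype ι] {c : ι → GQ → W} {t u i : ℕ} (hu : ∀ j, Uc G (c j))
    (hb : ∀ j g, ‖c j g‖ ≤ 2 ^ t)
    (hc : ∀ j, ∀ g ∈ G, ∀ g' ∈ G, ‖c j (g * g') - c j g - r g (c j g')‖ ≤ (2 ^ i)⁻¹)
    (h0 : ∀ j, ‖c j φ‖ ≤ (2 ^ i)⁻¹) (hs' : max 1 K ≤ 2 ^ u)
    (hl : ∀ a : ι → ℚ_[2], (∀ g ∈ G, ‖∑ j, a j • c j g‖ ≤ max 1 K) → ‖a‖ ≤ 2 ^ u) :
    2 ^ (i * (Fintype.card ι + finrank ℚ_[2] W)) ≤ (2 ^ ((i + t) * finrank ℚ_[2] W)) ^ 3 * N *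
      2 ^ (u * (Fintype.card ι + finrank ℚ_[2] W)) := by
  classical
  have hE := a_EC.1
  obtain ⟨M, _, π, σ, h⟩ := exists_bl hE W (i + t)
  obtain ⟨ρ, hU, hρ⟩ := h.act hr
  have : IsUltrametricDist ((ι → ℚ_[2]) × W) :=
    IsUltrametricDist.isUltrametricDist_of_forall_norm_add_le_max_norm fun p q =>
      norm_prod_le_iff.2 ⟨uadd (le_max_of_le_left (norm_fst_le p))
        (le_max_of_le_right (norm_fst_le q)), uadd (le_max_of_le_left (norm_snd_le p))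
        (le_max_of_le_right (norm_snd_le q))⟩
  obtain ⟨A, _, πA, σA, hA⟩ := exists_bl hE ((ι → ℚ_[2]) × W) i
  obtain ⟨B, _, πB, σB, hB⟩ := exists_bl hE ((ι → ℚ_[2]) × W) u
  obtain ⟨fin, hZ⟩ := ep_two h2 M ρ (hG ▸ hU)
  rw [← hG] at fin hZ
  unfold TEP.Z at fin hZ
  let F : (ι → ℚ_[2]) × W → GQ → W := fun p g => ∑ j, p.1 j • c j g + (r g p.2 - p.2)
  have sub : ∀ p q g, F (p - q) g = F p g - F q g := fun p q g => by
    simp only [F, Prod.fst_sub, Prod.snd_sub, Pi.sub_apply, sub_smul, Finset.sum_sub_distrib,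
      map_sub]
    abel
  have s1 : ∀ (a : ι → ℚ_[2]) (v : ι → W) (R : ℝ), 0 ≤ R → ‖a‖ ≤ 2 ^ i → (∀ j, ‖v j‖ ≤ R) →
      ‖∑ j, a j • v j‖ ≤ 2 ^ i * R := fun a v R hR ha hv =>
    usum (by positivity) fun j _ => by
      rw [norm_smul]
      exact mul_le_mul ((norm_le_pi_norm a j).trans ha) (hv j) (norm_nonneg _) (by positivity)
  have s2 : ∀ (a : ι → ℚ_[2]) (v : ι → W), ‖a‖ ≤ 2 ^ i → (∀ j, ‖v j‖ ≤ (2 ^ i)⁻¹) →
      ‖∑ j, a j • v j‖ ≤ 1 := fun a v ha hv =>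
    (s1 a v _ (by positivity) ha hv).trans_eq (mul_inv_cancel₀ (by positivity))
  have bd : ∀ p g, ‖p‖ ≤ 2 ^ i → ‖F p g‖ ≤ 2 ^ (i + t) := fun p g hp => by
    have : ‖p.2‖ ≤ 2 ^ (i + t) :=
      ((norm_snd_le p).trans hp).trans (pow_le_pow_right₀ one_le_two (Nat.le_add_right _ _))
    exact uadd ((s1 _ _ _ (by positivity) ((norm_fst_le p).trans hp) fun j => hb j g).trans_eq
      (pow_add _ _ _).symm) (usub ((hr.le _ _).trans this) this)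
  have uc : ∀ p, Uc G (F p) := fun p => by
    have u1 : Uc G (∑ j, p.1 j • c j) := Finset.sum_induction _ _ (fun _ _ => Uc.add)
      (Sm.const 0).uc fun j _ => ((hu j).map (p.1 j • LinearMap.id)).congr fun _ _ => rfl
    refine (u1.add ((hr.uc (Sm.const p.2).uc).add (Sm.const (-p.2)).uc)).congr fun g _ => ?_
    simp [F, sub_eq_add_neg]
  have co : ∀ p, ‖p‖ ≤ 2 ^ i → Co1 G ρ fun g => π (F p g) := fun p hp =>
    h.co1 hr hρ (uc p) (fun g => bd p g hp) fun g hg g' hg' => by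
      refine le_of_eq_of_le (congrArg _ ?_) (s2 _ _ ((norm_fst_le p).trans hp)
        fun j => hc j g hg g' hg')
      simp only [F, smul_sub, Finset.sum_sub_distrib, map_add, map_sub, map_sum, map_smul,
        hr.mul g hg g' hg']
      abel
  let Φ : A → {c : GQ → M | Co1 G ρ c ∧ ∀ g, g ∉ G → c g = 0} := fun p =>
    ⟨fun g => if g ∈ G then π (F (σA p) g) else 0,
      ⟨(co _ (hA.le p)).1.congr fun g hg => if_pos hg, fun g hg g' hg' => by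
        simp only [if_pos hg, if_pos hg', if_pos (mul_mem hg hg')]
        exact (co _ (hA.le p)).2 g hg g' hg'⟩, fun g hg => if_neg hg⟩
  have fb : ∀ p q, Φ p = Φ q → ‖σA p - σA q‖ ≤ 2 ^ u := fun p q e1 => by
    have h1 : ∀ g ∈ G, ‖F (σA p - σA q) g‖ ≤ 1 := fun g hg => by
      have := congrFun (congrArg Subtype.val e1) g
      simp only [Φ, if_pos hg] at this
      rwa [sub, ← h.eq _ _ (bd _ _ (hA.le p)) (bd _ _ (hA.le q))]
    have h3 := usub (hA.le p) (hA.le q)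
    generalize σA p - σA q = z at h1 h3
    have h4 : ‖z.2‖ ≤ max 1 K := by
      have := usub (h1 φ hφ) (s2 _ _ ((norm_fst_le z).trans h3) h0)
      rw [add_sub_cancel_left] at this
      exact (e _ _ this).trans (by simp)
    refine norm_prod_le_iff.2 ⟨hl _ fun g hg => ?_, h4.trans hs'⟩
    have := usub ((h1 g hg).trans (le_max_left _ _)) (usub ((hr.le g _).trans h4) h4)
    rwa [add_sub_cancel_right] at this
  have := fin.to_subtype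
  have := hB.fin
  have inj : Function.Injective fun p => (Φ p, πB (σA p - σA (Function.invFun Φ (Φ p)))) := by
    intro p q e1
    obtain ⟨e2, e3⟩ := Prod.mk.inj e1
    rw [hB.eq _ _ (fb _ _ (Function.invFun_eq ⟨p, rfl⟩).symm)
      (fb _ _ (Function.invFun_eq ⟨q, rfl⟩).symm), e2, sub_sub_sub_cancel_right] at e3
    exact hA.inj e3
  have := Nat.card_le_card_of_injective _ inj
  rw [Nat.card_prod, hA.card, hB.card, Nat.card_coe_set_eq, finrank_prod, finrank_pi] at this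
  refine this.trans (Nat.mul_le_mul_right _ (hZ.trans ?_))
  rw [h.card]
  exact Nat.mul_le_mul_left _ (hN _ M π σ ρ h hρ)

end JKLD

open JKLD in
/-- local duality and the Euler characteristic -/
theorem kld [IsUltrametricDist W] [IsUltrametricDist W'] (hG : G = w.D ⊓ GK) (h2 : w.p = 2)
    (hr : Rep G r) (hr' : Rep G r') (hi : ∀ x, (∀ y, β x y = 0) → x = 0)
    (hi' : ∀ y, (∀ x, β x y = 0) → y = 0)
    (hβ : ∀ g ∈ G, ∀ x y, β (r g x) (r' g y) = cq g * β x y) (hφ : φ ∈ G)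
    (hs : ∀ v, r φ v = v → v = 0) (hs' : ∀ v, r' φ v = v → v = 0) :
    (∀ x, PZ (fun _ => G) r x → x (cs φ) = 0 → (∀ y, PZ (fun _ => G) r' y → y (cs φ) = 0 →
      PI (fun _ => w) (fun _ => G) (cupS β r' x y) = 0) → ∀ g ∈ S1 G, x g = 0) ∧
    ∀ M : Submodule ℚ_[2] (GS → W), FiniteDimensional ℚ_[2] M →
      (∀ x ∈ M, PZ (fun _ => G) r x ∧ x (cs φ) = 0 ∧ ∀ g, g ∉ S1 G → x g = 0) →
      finrank ℚ_[2] M ≤ 2 * finrank ℚ_[2] W := by
  obtain ⟨⟨K, e⟩, -⟩ := ex_inv _ hs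
  obtain ⟨⟨K', e'⟩, e''⟩ := ex_inv _ hs'
  refine ⟨fun x => partA (hG ▸ loc_K w) (hG ▸ fun _ => inj_two h2) hr hr' hi hi' hβ hφ e e'',
    fun M _ hM => ?_⟩
  by_contra hn
  obtain ⟨x, hx⟩ := exists_linearIndependent_of_le_finrank (not_le.1 hn : _ + 1 ≤ _)
  choose c hc using fun j => (hM _ (x j).2).1.1
  choose B hB using fun j => (hc j).bd
  obtain ⟨t, ht⟩ := ex2 ‖B‖
  obtain ⟨N, hN⟩ := inv_le hr hi hi' hβ hφ e'
  obtain ⟨u, hu⟩ := sep hc (fun a ha => funext (Fintype.linearIndependent_iff.1 hx a (by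
    ext g
    by_cases hg : g ∈ S1 G
    · simpa using ha g hg
    · exact (hM _ (Subtype.property _)).2.2 g hg))) (max 1 K)
  obtain ⟨u', hu'⟩ := ex2 (max 1 K)
  obtain ⟨n, hn⟩ : ∃ n, finrank ℚ_[2] W = n := ⟨_, rfl⟩
  let i := 2 ^ (3 * t * n) * N * 2 ^ ((u + u') * (2 * n + 1 + n))
  have p : (0 : ℝ) < (2 ^ i)⁻¹ := by positivity
  obtain ⟨k, k1, k2, k3⟩ := (hu.and ((eventually_all.2 fun j => (hM _ (x j).2).1.ac hr (hc j) p).and
    (eventually_all.2 fun j => ((hc j).lim _ (cs_mem.2 hφ)).norm.eventually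
      (ge_mem_nhds (by rw [(hM _ (x j).2).2.1, norm_zero]; exact p))))).exists
  have := coreB hG h2 hr hφ e hN (c := fun j => c j k) (t := t) (u := u + u') (i := i)
    (fun j => (hc j).uc k)
    (fun j g => (hB j k g).trans ((le_abs_self _).trans ((norm_le_pi_norm B j).trans ht))) k2 k3
    (hu'.trans (pow_le_pow_right₀ one_le_two (Nat.le_add_left _ _)))
    fun a ha => (k1 a ha).trans (pow_le_pow_right₀ one_le_two (Nat.le_add_right _ _))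
  rw [Fintype.card_fin, hn, Nat.succ_eq_add_one] at this
  have h3 : 2 ^ (3 * i * n) * 2 ^ i ≤ 2 ^ (3 * i * n) * i := by
    refine le_of_eq_of_le (by ring) (this.trans_eq ?_)
    conv_rhs => enter [2]; unfold i
    ring
  exact absurd (Nat.le_of_mul_le_mul_left h3 (by positivity)) (not_le.2 Nat.lt_two_pow_self)

end Pool.Agent.P.MP_8b7eba_nt.CG
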