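import Pool.Agent.P.MP_8b7eba_nt.CG.JC

/-! Local terms and the reciprocity law. -/

namespace Pool.Agent.P.MP_8b7eba_nt.CG

open R2 Filter Topology Module

variable {D : Dat} {E : ES D}

theorem loc_K' (w : Pl) : w.Loc (w.D ⊓ GK) := w.loc_inf GK_open

theorem idx (w : Pl) : 1 * w.D.relIndex w.I = w.D.relIndex w.D := by
  rw [Subgroup.relIndex_self, Subgroup.relIndex_eq_one.2 w.I_le_D]

theorem Kp.loc (l : Kp E) (k : ℕ) : ∀ g ∈ (l.w k).D, 2 ^ k ∣ (cyc g : ℤ_[2]) - 1 := fun g hg => by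
  obtain ⟨N, h8, h9⟩ := a_EC.2.2.2.2.1 k
  obtain ⟨m, i, hi, n, hn, rfl⟩ :=
    TUPERPA.frob a_FROB (Pl.loc_D _) (l.fr k).1 (l.fr k) (idx _) h8 hg
  refine (h9 _).1 (mul_mem (mul_mem (pow_mem ((h9 _).2 (E.cyc (l.FN k))) m) ((h9 _).2 ?_)) hn.1)
  simp [cyc_I (l.ne2 k) hi.1]

theorem p4 {w : Pl} {φ : GQ} (h2 : w.p ≠ 2) (h : w.IsFrob 1 φ) {k : ℕ}
    (e : 2 ^ k ∣ (cyc φ : ℤ_[2]) - 1) : 2 ^ k ∣ w.p - 1 := by
  rw [cyc_frob h2 h, pow_one] at e
  have := (PadicInt.pow_p_dvd_int_iff (p := 2) k (w.p - 1)).1 (by simpa using e)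
  rw [← Int.natCast_dvd_natCast, Nat.cast_sub w.prime.one_le]
  simpa using this

theorem Kp.DK (l : Kp E) (k : ℕ) : (l.w k).D ≤ GK := D_le_GK (by
  have := p4 (k := 2) (l.ne2 k) (l.fr k) (by convert GK_cyc.1 (l.FK k) using 1; norm_num)
  have := (l.w k).prime.one_le
  omega)

open TPKOL in
/-- the local pairing at a Kolyvagin prime, trivial coefficients -/
theorem Kp.pair (l : Kp E) : (∀ g ∈ St fun k => (l.w k).D, cS g = 1) ∧
    ∃ (d : GS → ℚ_[2]) (u : ℚ_[2]), u ≠ 0 ∧ PZ (fun k => (l.w k).D) (fun _ => LinearMap.id) d ∧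
      d l.t = 1 ∧ ∀ y : GS → ℚ_[2], PZ (fun k => (l.w k).D) (fun _ => LinearMap.id) y →
        (∀ g ∈ St fun k => (l.w k).I, y g = 0) →
        PI l.w (fun k => (l.w k).D) (fun g h => d g * y h) = u * y l.F := by
  have hA := a_CA
  have hE := hA.ec.1
  have hPIX := a_PIX
  have l1 := l.ne2
  have l7 := l.loc
  have un : ∀ k, (l.w k).Unif (l.w k).D (l.w k).p := fun k =>
    (hA.res _ _ (Pl.loc_D _)).2.2.2.1
  set H := fun k => (l.w k).D with hH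
  have hw : ∀ k, (l.w k).Loc (H k) := fun k => Pl.loc_D _
  have hph : ∀ k, l.F k ∈ H k := fun k => (l.fr k).1
  have mt : l.t ∈ St H := Eventually.of_forall fun k => Pl.I_le_D _ (l.tI k)
  have h1 : ∀ g ∈ St H, cS g = 1 := fun g hg => by
    refine tendsto_nhds_unique (tendsto_cS g) (Metric.tendsto_nhds.2 fun ε e => ?_)
    filter_upwards [hg, ev_small (half_pos e)] with k a1 a2
    rw [dist_eq_norm]
    exact ((TPKOL.small (by simpa [cq] using TTATE.co (m := 1) (by simpa using l7 k _ a1))).trans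
      a2).trans_lt (half_lt_self e)
  have fx : ∀ k, ∀ g ∈ H k, ∀ z : Om, z ^ 2 ^ k = 1 → g z = z := fun k g hg z e => by
    simpa using hA.ec.2.2.1 g k 1 z e (by simpa using l7 k g hg)
  have q0 : ∀ k, ((l.w k).p : Om) ≠ 0 := fun k => (un k).2.1
  choose χ c1 c2 c3 using fun k =>
    TUPERPA.chi hA.frob (hw k) (hph k) (l.fr k) (idx _) hA.uch k
  have ga := gd_val c1
  obtain ⟨b, gb, hb⟩ := TPKOL.kum hE q0 (fun _ => fix_nat _) fx
  have ab : PI l.w H (fun g g' => TPKOL.X (fun k g => (χ k g).val) g * TPKOL.X b g') = 1 := by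
    have h2 := (hPIX _ H hw _ (ga.pz2 gb h1)).1 _ (ga.ap2 gb)
    generalize PI l.w H _ = t at h2
    refine sub_eq_zero.1 (norm_le_zero_iff.1 (le_of_forall_pos_le_add fun ε e => ?_))
    obtain ⟨i, hi⟩ := (ev_small e).exists
    obtain ⟨k, h3, h4⟩ := ((h2 i).and (ev_ge i)).exists
    obtain ⟨j, rfl⟩ := Nat.exists_eq_add_of_le h4
    obtain ⟨β, b1, b2⟩ := hb i j
    let χ' := fun g => ZMod.castHom (pow_dvd_pow 2 h4) (ZMod (2 ^ i)) (χ _ g)
    have d1 : IsCh (H (i + j)) χ' :=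
      ⟨(c1 _).1.comp _, fun g hg g' hg' => by simp only [χ', (c1 _).2 g hg g' hg', map_add]⟩
    obtain ⟨d2, d3, -, -, -, -, d4⟩ :=
      hA.cup (H (i + j)) _ (fix_nat _) (q0 (i + j)) _ χ' (by positivity) d1
    have d5 := (d4 β b1).2.congr (f' := cup χ' (l.w (i + j)).p / fun g h =>
        ec ((χ (i + j) g).val * b (i + j) h / 2 ^ i)) fun g hg h _ => by
      have d6 : (h β / β) ^ 2 ^ i = 1 := by rw [div_pow, ← map_pow, b1, map_natCast, div_self (q0 _)]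
      simp only [Pi.div_apply, χ', ZMod.castHom_apply, ZMod.cast_eq_val, ZMod.val_natCast]
      rw [mul_div_assoc, ec_nat hE, b2, ← pow_eq_pow_mod _ (by rw [← map_pow, d6, map_one]),
        fx _ g hg _ (by rw [pow_add, pow_mul, d6, one_pow])]
    rw [← hA.inv2.1 _ _ _ _ (hw _) ⟨d2, i, d3⟩ ((d2.div d5.co2).congr fun g hg h hh =>
        (div_div_cancel₀ (d2.ne g hg h hh)).symm) d5,
      a_LOCV _ _ i 1 χ' _ _ _ 1 (l1 _) (hw _) d1 (fun g hg => by simp only [χ', c2 _ g hg, map_zero])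
        (hph _) (l.fr _) (idx _) (un _) (fix_nat _) (q0 _)
        (zpow_one _).symm, ec_eq hE, ← sub_div] at h3
    have d7 := (TEC.norm_iff i (1 - (χ' (l.F (i + j))).val * 1)).2
      ((ZMod.intCast_zmod_eq_zero_iff_dvd _ _).1 (by simp only [χ', c3, map_one]; simp))
    rw [zero_add, ← norm_neg]
    refine (TPKOL.small (k := i) ?_).trans hi
    have d8 := TTATE.ultra h3 d7
    rwa [← add_div, Int.cast_sub, sub_add_sub_cancel', Int.cast_one, ← neg_sub] at d8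
  have a1 : TPKOL.X (fun k g => (χ k g).val) l.F = 1 :=
    ul_eq (tendsto_const_nhds.congr' ((ev_ge 1).mono fun k hk => by
      simp only [c3]
      rw [ZMod.val_one_eq_one_mod, Nat.mod_eq_of_lt (Nat.one_lt_two_pow (by omega)), Nat.cast_one]))
  have a2 : ∀ g ∈ St fun k => (l.w k).I, TPKOL.X (fun k g => (χ k g).val) g = 0 := fun g hg =>
    ul_eq (tendsto_const_nhds.congr' (Eventually.mono hg fun k hk => by
      simp [c2 k _ ⟨hk, Pl.I_le_D _ hk⟩]))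
  have u0 : TPKOL.X b l.t ≠ 0 := by
    refine norm_pos_iff.1 (lt_of_lt_of_le (by norm_num : (0 : ℝ) < 2⁻¹)
      (ge_of_tendsto (gb.ap.lim _ mt).norm ((ev_ge 1).mono fun k hk => ?_)))
    obtain ⟨j, rfl⟩ := Nat.exists_eq_add_of_le hk
    obtain ⟨β, b1, b2⟩ := hb 1 j
    refine not_lt.1 fun e => ?_
    have h2 := (hE.eq_one (b (1 + j) (l.t (1 + j)) / 2 ^ 1)).2 (by
      rw [norm_div, TTATE.n2, div_le_one (by positivity), pow_one]; exact e.le)
    rw [b2, l.mov _ β b1, neg_div_self fun e => q0 _ (by rw [← b1, e]; simp)] at h2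
    norm_num at h2
  generalize (fun k g => ((χ k g).val : ℚ_[2])) = a at *
  refine ⟨h1, (TPKOL.X b l.t)⁻¹ • TPKOL.X b, -(TPKOL.X b l.t)⁻¹, neg_ne_zero.2 (inv_ne_zero u0),
    gb.pz.smul (G := ⊤) rep_id _, by simp [u0], fun y hy hu => ?_⟩
  have key : ∀ g ∈ St H, y g = y l.F * TPKOL.X a g := by
    intro g hg
    have z := hy.sub (G := ⊤) rep_id (ga.pz.smul (G := ⊤) rep_id (y l.F))
    rw [← sub_eq_zero]
    exact a_PFROB ℚ_[2] ⊤ _ l.w l.F (fun _ => 1) _ isOpen_univ ⟨⊤, rep_id, fun _ => le_top⟩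
      (.of_forall fun k => ⟨trivial, l.fr k, by simp⟩) (z.mono fun _ => inf_le_left)
      (by simp [a1]) (fun g hg => by
        have hg' : g ∈ St fun k => (l.w k).I := Eventually.mono hg fun _ h => h.1
        simp [hu g hg', a2 g hg']) g (Eventually.mono hg fun _ h => ⟨h, trivial⟩)
  have p3 := gb.pz2 ga h1
  rw [(hPIX _ H hw _ (p3.smul ((TPKOL.X b l.t)⁻¹ * y l.F))).2.2.1 _ fun g hg h hh => by
      simp only [key h hh, Pi.smul_apply, smul_eq_mul]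
      ring,
    (hPIX _ H hw _ p3).2.2.2.2.1, ga.sym hPIX hw gb h1, ab]
  ring

variable {A : Type} [NormedCommRing A] [NormedAlgebra ℚ_[2] A] {ι : A} {ψ : ℤ_[2] → A}
  {s : Finset (Kp E)} {x y : GS → A} {g : GS}

/-- the pairing attached to a linear form -/
noncomputable def bt (t : A →ₗ[ℚ_[2]] ℚ_[2]) : A →ₗ[ℚ_[2]] A →ₗ[ℚ_[2]] ℚ_[2] :=
  (LinearMap.mul ℚ_[2] A).compr₂ t

theorem bt_apply (t : A →ₗ[ℚ_[2]] ℚ_[2]) (a b : A) : bt t a b = t (a * b) := rfl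

theorem Dat.bt_r (D : Dat) (h : Cf ι ψ) (t : A →ₗ[ℚ_[2]] ℚ_[2]) : ∀ g ∈ GK, ∀ a b,
    bt t (D.r (-ι) (bar ψ) g a) (D.r ι ψ g b) = cq g * bt t a b := fun g hg a b => by
  rw [bt_apply, bt_apply, Dat.r_apply, Dat.r_apply, mul_mul_mul_comm, Dat.xi_dual h hg,
    smul_mul_assoc, one_mul, map_smul, smul_eq_mul]

theorem Dat.rS_of (h : Cf ι ψ) (e : ∀ᶠ k in UF, g k ∈ GK ∧ D.ρ (g k) = 1) (v : A) :
    rS (D.r ι ψ) g v = v :=
  ul_eq (tendsto_const_nhds.congr' (e.mono fun k a => by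
    simp only [Dat.r_apply, Dat.xi_of h a.1 a.2, one_mul]))

theorem Dat.rS_unr (h : Cf ι ψ) {w : ℕ → Pl} (e : ∀ᶠ k in UF, g k ∈ (w k).I ∧ ¬ (w k).p ∣ 2 * D.n)
    (v : A) : rS (D.r ι ψ) g v = v :=
  Dat.rS_of h (e.mono fun _ a => ⟨I_le_GK (ne_two a.2) a.1, D.unr _ a.2 _ a.1⟩) v

variable [IsUltrametricDist A] [FiniteDimensional ℚ_[2] A]

theorem Dat.pz2 (h : Cf ι ψ) (t : A →ₗ[ℚ_[2]] ℚ_[2]) {H : ℕ → Subgroup GQ} (hH : ∀ k, H k ≤ GK)
    (hy : PZ H (D.r (-ι) (bar ψ)) y) (hx : PZ H (D.r ι ψ) x) :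
    PZ2 H (cupS (bt t) (D.r ι ψ) y x) :=
  pz2_cup (D.rep h.dual) (D.rep h) hH (D.bt_r h t) hy hx

theorem tame_zero (h : Cf ι ψ) {w : ℕ → Pl} {t : GS} (h2 : ∀ k, (w k).p ≠ 2)
    (ht : ∀ k, t k ∈ (w k).I) (mov : ∀ k (β : Om), β ^ 2 = (w k).p → t k β = -β)
    (hx : PZ (fun k => (w k).I) (D.r ι ψ) x) (h1 : x t = 0) :
    ∀ g ∈ St fun k => (w k).I, x g = 0 := by
  have := a_PTAME A ⊤ _ w t (fun k => (w k).p) x isOpen_univ
    ⟨GK, D.rep h, fun k => inf_le_left.trans (I_le_GK (h2 k))⟩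
  simp only [inf_top_eq] at this
  exact this (.of_forall fun k => ⟨h2 k, (a_RES _ _ (Pl.loc_D _)).2.2.2.2.1, ht k, mov k⟩) hx h1

theorem Kp.fix (l : Kp E) (h : Cf ι ψ) (hg : g ∈ St fun k => (l.w k).D) (v : A) :
    rS (D.r ι ψ) g v = v := by
  have := a_PFROB A ⊤ _ l.w l.F (fun _ => 1) (fun g => rS (D.r ι ψ) g v - v) isOpen_univ
    ⟨GK, D.rep h, fun k => inf_le_left.trans (l.DK k)⟩
    (.of_forall fun k => ⟨trivial, l.fr k, by simp⟩)
  simp only [inf_top_eq] at this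
  refine sub_eq_zero.1 (this (pz_cob (D.rep h) l.DK v) ?_
    (fun g hg => sub_eq_zero.2 (Dat.rS_unr h (hg.mono fun k a => ⟨a, l.big k⟩) v)) g hg)
  refine PatB.zero_of ((PatB.t0 (D.rep h) l.F v).sub_const v) fun ε hε => ?_
  have p : 0 < ‖v‖ + 1 := by positivity
  refine (E.xi_near h (div_pos hε p)).mono fun k a => ?_
  rw [Dat.r_apply, ← sub_one_mul]
  refine (norm_mul_le _ _).trans ((mul_le_mul (a _ (l.FN k)) (le_add_of_nonneg_right zero_le_one)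
    (norm_nonneg _) (div_pos hε p).le).trans_eq (div_mul_cancel₀ _ p.ne'))

/-- the local term at a Kolyvagin prime -/
theorem Kp.term (l : Kp E) : ∃ u : ℚ_[2], u ≠ 0 ∧ ∀ (ι : A) ψ, Cf ι ψ →
    ∀ (t : A →ₗ[ℚ_[2]] ℚ_[2]) x y, D.Rel ι ψ x → PZ (fun _ => GK) (D.r (-ι) (bar ψ)) y →
      PI l.w (fun k => (l.w k).D) (cupS (bt t) (D.r ι ψ) y x) = u * t (y l.t * x l.F) := by
  obtain ⟨-, d, u, u0, hd, d1, hu⟩ := l.pair
  refine ⟨u, u0, fun ι ψ h t x y hx hy => ?_⟩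
  have hI : ∀ g ∈ St fun k => (l.w k).I, x g = 0 := fun g hg =>
    hx.unr l.w g (hg.mono fun k a => ⟨a, l.big k⟩)
  have hx := hx.pz.mono l.DK
  have hy := hy.mono l.DK
  obtain ⟨b, hb⟩ : ∃ b, y l.t = b := ⟨_, rfl⟩
  have hw : ∀ k, (l.w k).Loc (l.w k).D := fun k => Pl.loc_D _
  have h3 : PZ (fun k => (l.w k).D) (D.r (-ι) (bar ψ)) fun g => d g • b :=
    hd.map (LinearMap.toSpanSingleton _ _ b) fun g hg g' _ => by
      simp only [rS_id, LinearMap.toSpanSingleton_apply, l.fix h.dual hg]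
  have h4 := hy.sub (D.rep h.dual) h3
  have h5 := tame_zero h.dual l.ne2 l.tI l.mov (h4.mono fun _ => Pl.I_le_D _) (by simp [hb, d1])
  have h6 : PZ (fun k => (l.w k).D) (fun _ => LinearMap.id) fun g => bt t b (x g) :=
    hx.map (bt t b) fun g hg g' _ => by rw [rS_id, l.fix h hg]
  have p1 := Dat.pz2 h t l.DK h4 hx
  have p2 := Dat.pz2 h t l.DK h3 hx
  have q1 := (a_PIX _ _ hw _ p1).2.2.2.2.2.2 (.of_forall l.ne2) fun g hg g' hg' i hi => by
    have hi' : i ∈ St fun k => (l.w k).I := hi.mono fun _ e => e.1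
    have hi2 : i ∈ St fun k => (l.w k).D := hi.mono fun _ e => e.2
    simp only [cupS]
    rw [h4.2 g hg i hi2, hx.2 g' hg' i hi2, h5 i hi', hI i hi', rS_zero, rS_zero, add_zero,
      add_zero, l.fix h (mul_mem hg hi2), l.fix h hg]
    exact ⟨rfl, rfl⟩
  have q2 := hu _ h6 fun g hg => by rw [hI g hg, map_zero]
  rw [hb, ← bt_apply, ← q2, (a_PIX _ _ hw _ (p1.add p2)).2.2.1 _ fun g _ g' _ => by
      simp only [cupS, Pi.add_apply, Pi.sub_apply, map_sub, LinearMap.sub_apply, sub_add_cancel],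
    (a_PIX _ _ hw _ p1).2.2.2.1 _ p2, q1, zero_add]
  refine ((a_PIX _ _ hw _ p2).2.2.1 _ fun g hg g' _ => ?_).symm
  simp only [cupS, map_smul, LinearMap.smul_apply, smul_eq_mul, l.fix h hg]

/-- local cohomology vanishes at the odd primes of the conductor -/
theorem Dat.cob_bad (h : Cf ι ψ) {w : Pl} (h2 : w.p ≠ 2) (hw : w.p ∣ D.n)
    (hx : PZ (fun _ => GK) (D.r ι ψ) x) : Cob (S1 (w.D ⊓ GK)) (D.r ι ψ) x := by
  obtain ⟨t, ht, mov⟩ := Pl.exists_gen a_TAME a_RES h2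
  have R := D.rep h
  have le : ∀ _ : ℕ, w.I ≤ GK := fun _ => I_le_GK h2
  have key := fun x hx h1 => tame_zero (D := D) (x := x) (w := fun _ => w) (t := cs t) h
    (fun _ => h2) (fun _ => ht) (fun _ => mov) hx h1
  have hu : IsUnit (D.xi ι ψ t - 1) := by
    by_cases e : D.ρ t = 1
    · obtain ⟨g, hg, h1⟩ := D.ram w h2 hw
      have h3 := key _ (pz_cob R le 1) (by
        rw [rS_cs, Dat.r_apply, Dat.xi_of h (le 0 ht) e, one_mul, sub_self]) _ (cs_mem.2 hg)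
      rw [rS_cs, Dat.r_apply, mul_one] at h3
      have := subsingleton_of_zero_eq_one (isUnit_zero_iff.1 (h3 ▸ Dat.xi_unit h (cyc_I h2 hg) h1))
      exact isUnit_of_subsingleton _
    · exact Dat.xi_unit h (cyc_I h2 ht) e
  obtain ⟨v, hv⟩ := hu.dvd (a := x (cs t))
  refine ⟨v, fun g hg => ?_⟩
  have h3 := hx.sub R (pz_cob R (fun _ => le_rfl) v)
  have h0 := key _ (h3.mono le) (by
    rw [Pi.sub_apply, rS_cs, Dat.r_apply, hv, sub_one_mul, sub_self])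
  have h1 : g⁻¹ * cs t * g ∈ S1 w.I := hg.mono fun k hk => by
    have := Pl.conj_mem_I (w.D.inv_mem hk.1) ht
    rwa [inv_inv] at this
  have h4 := h3.conj R (fun _ => le_rfl) (S1_mono inf_le_right hg) (S1_mono (le 0) h1)
  rw [show g * (g⁻¹ * cs t * g) * g⁻¹ = cs t by group, h0 _ h1, h0 _ (cs_mem.2 ht), rS_zero,
    add_zero, rS_cs, Dat.r_apply, eq_comm, ← neg_eq_zero, neg_sub, ← sub_one_mul,
    hu.mul_right_eq_zero] at h4
  exact sub_eq_zero.1 h4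

theorem at_out (h : Cf ι ψ) (t : A →ₗ[ℚ_[2]] ℚ_[2]) (hx : D.Rel ι ψ x) (hy : Rs (-ι) (bar ψ) s y)
    {w : ℕ → Pl} (hw : ∀ᶠ k in UF, ¬ (w k).p ∣ 2 * D.n ∧ ∀ l ∈ s, (w k).v (gi (l.lam k)) = 1) :
    PI w (fun k => (w k).D ⊓ GK) (cupS (bt t) (D.r ι ψ) y x) = 0 := by
  have le : ∀ k, (w k).D ⊓ GK ≤ GK := fun _ => inf_le_right
  refine (a_PIX _ _ (fun k => loc_K' (w k)) _ (Dat.pz2 h t le (hy.pz.mono le)
    (hx.pz.mono le))).2.2.2.2.2.2 (hw.mono fun k hk => ne_two hk.1) fun g hg g' hg' i hi => ?_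
  have h1 : y i = 0 := hy.unr w i ((hi.and hw).mono fun k e => ⟨e.1.1, e.2⟩)
  have h2 : x i = 0 := hx.unr w i ((hi.and hw).mono fun k e => ⟨e.1.1, e.2.1⟩)
  have h3 : i ∈ S1 GK := hi.mono fun _ a => a.2.2
  simp only [cupS]
  rw [hy.pz.2 g (PatB.st_le le hg) i h3, hx.pz.2 g' (PatB.st_le le hg') i h3, h1, h2, rS_zero,
    rS_zero, add_zero, add_zero, (D.rep h).rS_mul (PatB.st_le le hg) h3,
    Dat.rS_unr h (w := w) ((hi.and hw).mono fun k e => ⟨e.1.1, e.2.1⟩)]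
  exact ⟨rfl, rfl⟩

/-- the reciprocity law -/
theorem glob (h : Cf ι ψ) (ok : Ok s) : ∃ u : Kp E → ℚ_[2], (∀ l, u l ≠ 0) ∧
    ∀ (t : A →ₗ[ℚ_[2]] ℚ_[2]) x y, D.Rel ι ψ x → Rs (-ι) (bar ψ) s y →
      PI (fun _ => D.w) (fun _ => D.w.D ⊓ GK) (cupS (bt t) (D.r ι ψ) y x) +
        ∑ l ∈ s, u l * t (y l.t * x l.F) = 0 := by
  choose u u0 hu using fun l : Kp E => l.term (A := A)
  refine ⟨u, u0, fun t x y hx hy => ?_⟩
  obtain ⟨R, r1, r2⟩ := (a_ORB GK GK_open).2.1 (D.n.primeFactors.erase 2)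
  have hR : ∀ w : R, w.1.p ≠ 2 ∧ w.1.p ∣ D.n := fun w => by
    have := Finset.mem_erase.1 (not_not.1 fun e => (r2 w).2 e 1 (one_mem _) (by simp))
    exact ⟨this.1, Nat.dvd_of_mem_primeFactors this.2⟩
  have hl : ∀ (l : Kp E) k (w : R), w.1.p ≠ (l.w k).p := fun l k w e => l.big k
    (e ▸ (hR w).2.mul_left _)
  have hB := Dat.pz2 h t (fun _ => le_rfl) hy.pz hx.pz
  have h1 := a_PREC GK _ (Option (R ⊕ s))
    (fun o => o.elim (fun _ => D.w) (Sum.elim (fun w _ => w.1) fun l => l.1.w)) GK_open GK_tc hB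
    (Eventually.of_forall fun k => ⟨?_, fun w' e => ⟨none, exists_two D.w2 e⟩⟩) fun w hw => ?_
  · rw [Fintype.sum_option, Fintype.sum_sum_type, Finset.sum_eq_zero, zero_add] at h1
    · rw [← Finset.sum_coe_sort, ← h1]
      refine congrArg₂ _ rfl (Finset.sum_congr rfl fun l _ => ?_)
      rw [← hu l ι ψ h t x y hx hy.pz]
      exact congrArg (PI _ · _) (funext fun k => (inf_eq_left.2 (l.1.DK k)).symm)
    · intro w _
      exact (a_PIX _ _ (fun _ => loc_K' w.1) _ (hB.mono fun _ => inf_le_right)).2.2.2.2.2.1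
        (cob2_cup_right (D.rep h.dual) (D.rep h) (fun _ => inf_le_right) (D.bt_r h t)
          (hy.pz.mono fun _ => inf_le_right) (Dat.cob_bad h (hR w).1 (hR w).2 hx.pz))
  · rintro (_ | i | i) (_ | j | j) u hu e <;> have e' := congrArg Pl.p e
    · rfl
    · exact ((hR j).1 (e'.symm.trans D.w2)).elim
    · exact (j.1.ne2 k (e'.symm.trans D.w2)).elim
    · exact ((hR i).1 (e'.trans D.w2)).elim
    · change u • i.1 = j.1 at e
      rw [Subtype.ext ((r1 _ i.2 u hu (e ▸ j.2 :)).symm.trans e)]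
    · exact (hl _ k i e').elim
    · exact (i.1.ne2 k (e'.trans D.w2)).elim
    · exact (hl _ k j e'.symm).elim
    · by_contra c
      exact ok _ i.2 _ j.2 (fun a => c (by rw [Subtype.ext a])) k e'
  · refine at_out h t hx hy (hw.mono fun k hk => ⟨fun e => ?_, fun l hl => not_not.1 fun e => ?_⟩)
    · have h2 : (w k).p ≠ 2 := fun a =>
        let ⟨u, hu, e⟩ := exists_two D.w2 a; hk none u hu e
      refine (r2 (w k)).1 (fun u hu a => hk (some (.inl ⟨_, a⟩)) u hu rfl) (Finset.mem_erase.2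
        ⟨h2, Nat.mem_primeFactors.2 ⟨(w k).prime, ?_, D.n0⟩⟩)
      exact ((Nat.coprime_primes (w k).prime Nat.prime_two).2 h2).dvd_of_dvd_mul_left e
    · obtain ⟨u, hu, a⟩ := exists_conj (l.ne2 k) (l.nm k) (l.vl k) e
      exact hk (some (.inr ⟨l, hl⟩)) u hu a

/-- duality for strict classes -/
theorem dual (h : Cf ι ψ) {l : Kp E} {h0 : l ∉ s} (ok : Ok (s.cons l h0)) (hx : D.Str ι ψ x)
    (h1 : ∀ l' ∈ s, x l'.F = 0) (hy : Rs (-ι) (bar ψ) (s.cons l h0) y) : y l.t * x l.F = 0 := by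
  obtain ⟨u, u0, hu⟩ := glob h ok
  refine (Module.forall_dual_apply_eq_zero_iff ℚ_[2] _).1 fun t => ?_
  have h2 := hu t x y hx.1 hy
  have le : ∀ _ : ℕ, D.w.D ⊓ GK ≤ GK := fun _ => inf_le_right
  rw [(a_PIX _ _ (fun _ => loc_K' D.w) _ (Dat.pz2 h t le (hy.pz.mono le)
    (hx.1.pz.mono le))).2.2.2.2.2.1 (cob2_zero.congr fun g _ g' hg' => by
      rw [cupS, hx.2 g' hg', rS_zero, map_zero]; rfl), zero_add, Finset.sum_cons,
    Finset.sum_eq_zero fun l' hl' => by rw [h1 l' hl', mul_zero, map_zero, mul_zero], add_zero] at h2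
  exact (mul_eq_zero.1 h2).resolve_left (u0 l)

end Pool.Agent.P.MP_8b7eba_nt.CG
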