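import Pool.Agent.P.MP_8b7eba_nt.CG.JA

/-! Kummer exponents and the measures attached to a system of units. -/

namespace Pool.Agent.P.MP_8b7eba_nt.CG

open R2 Filter Topology
open TKLD (ec_eq ec_ne ec0 n2 p0 usum)

variable {c c' g h : GQ} {v v' : Om} {k : ℕ}

/-! ### Kummer exponents -/

/-- `c` fixes the roots of unity -/
def Rf (c : GQ) : Prop := ∀ r : Om, IsOfFinOrder r → c r = r

theorem fo_map (s : GQ) {r : Om} (h : IsOfFinOrder r) : IsOfFinOrder (s r) :=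
  (s : Om →* Om).isOfFinOrder h

theorem ab_cm (g h : GQ) : Rf (cm g h) := fun r hr => by
  have k : ∀ (s : GQ) (r : Om), IsOfFinOrder r → ∃ i : ℕ, s r = r ^ i := fun s r hr => by
    have : NeZero (orderOf r) := ⟨hr.orderOf_pos.ne'⟩
    obtain ⟨i, -, e⟩ := (IsPrimitiveRoot.orderOf r).eq_pow_of_pow_eq_one (ξ := s r)
      (by rw [← map_pow, pow_orderOf_eq_one, map_one])
    exact ⟨i, e.symm⟩
  obtain ⟨u, rfl⟩ : ∃ u, r = h (g u) := ⟨g⁻¹ (h⁻¹ r), by simp only [BasicP.apply_inv]⟩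
  have hu : IsOfFinOrder u := by
    simpa only [BasicP.inv_apply] using fo_map g⁻¹ (fo_map h⁻¹ hr)
  obtain ⟨i, hi⟩ := k g u hu
  obtain ⟨j, hj⟩ := k h u hu
  simp only [cm, AlgEquiv.mul_apply, BasicP.inv_apply]
  rw [hj, hi, map_pow, map_pow, hi, hj, pow_right_comm]

theorem Rf.mul (h : Rf c) (h' : Rf c') : Rf (c * c') := fun r hr => by
  rw [AlgEquiv.mul_apply, h' r hr, h r hr]

theorem Rf.conj (h : Rf c) (s : GQ) : Rf (s * c * s⁻¹) := fun r hr => by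
  rw [AlgEquiv.mul_apply, AlgEquiv.mul_apply, h _ (fo_map _ hr), BasicP.apply_inv]

theorem Rf.ec (h : Rf c) (x : ℚ_[2]) : c (ec x) = ec x := by
  obtain ⟨t, ht⟩ := TKLD.ex2 ‖x‖
  refine h _ (isOfFinOrder_iff_pow_eq_one.2 ⟨2 ^ t, by positivity, ?_⟩)
  rw [← TKLD.ec_nat a_EC.1, a_EC.1.eq_one, Nat.cast_pow, Nat.cast_ofNat, ← smul_eq_mul]
  exact TKLD.ble.2 ht

theorem root_ne {r : Om} (h0 : v ≠ 0) (hr : r ^ 2 ^ k = v) : r ≠ 0 := fun e =>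
  h0 (by rw [← hr, e, zero_pow (by positivity)])

theorem kum_spec (hc : Rf c) (hv : c v = v) (h0 : v ≠ 0) (k : ℕ) :
    ‖kum k c v‖ ≤ 1 ∧ ∀ r, r ^ 2 ^ k = v → c r = ec (kum k c v / 2 ^ k) * r := by
  refine Classical.epsilon_spec
    (p := fun a => ‖a‖ ≤ 1 ∧ ∀ r, r ^ 2 ^ k = v → c r = ec (a / 2 ^ k) * r) ?_
  obtain ⟨u, hu⟩ := exists_root v (n := 2 ^ k) (by positivity)
  have u0 := root_ne h0 hu
  obtain ⟨m, hm⟩ := a_EC.1.surj k (c u / u) (by rw [div_pow, ← map_pow, hu, hv, div_self h0])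
  refine ⟨m, Padic.norm_int_le_one _, fun r hr => ?_⟩
  have := hc (r / u) (isOfFinOrder_iff_pow_eq_one.2 ⟨2 ^ k, by positivity, by
    rw [div_pow, hr, hu, div_self h0]⟩)
  rw [map_div₀, div_eq_iff ((map_ne_zero c).2 u0)] at this
  rw [this, ← hm]
  ring

theorem kum_near (hc : Rf c) (hv : c v = v) (h0 : v ≠ 0) {a : ℚ_[2]} {r : Om} (hr : r ^ 2 ^ k = v)
    (e : c r = ec (a / 2 ^ k) * r) : ‖kum k c v - a‖ ≤ (2 ^ k)⁻¹ := by
  have h1 := (ec_eq a_EC.1).1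
    (mul_right_cancel₀ (root_ne h0 hr) (((kum_spec hc hv h0 k).2 r hr).symm.trans e))
  rw [← sub_div, norm_div, n2, div_le_one (by positivity)] at h1
  exact h1

theorem kum_mul (hc : Rf c) (hv : c v = v) (h0 : v ≠ 0) (hv' : c v' = v') (h0' : v' ≠ 0) :
    ‖kum k c (v * v') - (kum k c v + kum k c v')‖ ≤ (2 ^ k)⁻¹ := by
  obtain ⟨r, hr⟩ := exists_root v (n := 2 ^ k) (by positivity)
  obtain ⟨r', hr'⟩ := exists_root v' (n := 2 ^ k) (by positivity)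
  refine kum_near hc (by rw [map_mul, hv, hv']) (mul_ne_zero h0 h0') (r := r * r')
    (by rw [mul_pow, hr, hr']) ?_
  rw [map_mul, (kum_spec hc hv h0 k).2 r hr, (kum_spec hc hv' h0' k).2 r' hr', add_div, a_EC.1.add]
  ring

theorem kum_mul' (hc : Rf c) (hc' : Rf c') (hv : c v = v) (hv' : c' v = v) (h0 : v ≠ 0) :
    ‖kum k (c * c') v - (kum k c v + kum k c' v)‖ ≤ (2 ^ k)⁻¹ := by
  obtain ⟨r, hr⟩ := exists_root v (n := 2 ^ k) (by positivity)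
  refine kum_near (hc.mul hc') (by rw [AlgEquiv.mul_apply, hv', hv]) h0 hr ?_
  rw [AlgEquiv.mul_apply, (kum_spec hc' hv' h0 k).2 r hr, map_mul, hc.ec,
    (kum_spec hc hv h0 k).2 r hr, add_div, a_EC.1.add]
  ring

theorem kum_conj (hc : Rf c) (hv : c v = v) (h0 : v ≠ 0) (s : GQ) :
    ‖kum k (s * c * s⁻¹) (s v) - cq s * kum k c v‖ ≤ (2 ^ k)⁻¹ := by
  obtain ⟨r, hr⟩ := exists_root v (n := 2 ^ k) (by positivity)
  have e : ∀ x, (s * c * s⁻¹) (s x) = s (c x) := fun x => by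
    rw [AlgEquiv.mul_apply, AlgEquiv.mul_apply, BasicP.inv_apply]
  refine kum_near (hc.conj s) (by rw [e, hv]) ((map_ne_zero s).2 h0) (r := s r)
    (by rw [← map_pow, hr]) ?_
  rw [e, (kum_spec hc hv h0 k).2 r hr, map_mul, a_EC.1.gal, mul_div_assoc]
  rfl

theorem kum_root (hc : Rf c) (hv : IsOfFinOrder v) : ‖kum k c v‖ ≤ (2 ^ k)⁻¹ := by
  obtain ⟨r, hr⟩ := exists_root v (n := 2 ^ k) (by positivity)
  simpa using kum_near hc (hc v hv) hv.isUnit.ne_zero (a := 0) hr (by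
    rw [zero_div, ec0 a_EC.1, one_mul]
    exact hc r (IsOfFinOrder.of_pow (hr ▸ hv) (by positivity)))

theorem kum_one (h0 : v ≠ 0) : ‖kum k 1 v‖ ≤ (2 ^ k)⁻¹ := by
  obtain ⟨r, hr⟩ := exists_root v (n := 2 ^ k) (by positivity)
  simpa using kum_near (fun _ _ => rfl) rfl h0 (a := 0) hr (by
    rw [zero_div, ec0 a_EC.1, one_mul]; rfl)

theorem kum_prod (hc : Rf c) {ι : Type} (s : Finset ι) (f : ι → Om) (hv : ∀ i, c (f i) = f i)
    (h0 : ∀ i, f i ≠ 0) : ‖kum k c (∏ i ∈ s, f i) - ∑ i ∈ s, kum k c (f i)‖ ≤ (2 ^ k)⁻¹ := by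
  induction s using Finset.cons_induction with
  | empty => simpa using kum_root hc IsOfFinOrder.one
  | cons i s hi ih =>
    rw [Finset.prod_cons, Finset.sum_cons]
    refine el (ua (kum_mul (v' := ∏ i ∈ s, f i) hc (hv i) (h0 i) (by simp only [map_prod, hv])
      (Finset.prod_ne_zero_iff.2 fun i _ => h0 i)) ih) ?_
    ring

theorem kum_bd : ∃ B : ℝ, 0 ≤ B ∧ ∀ k c v, ‖kum k c v‖ ≤ B := by
  refine ⟨max 1 ‖Classical.epsilon fun _ : ℚ_[2] => False‖, by positivity, fun k c v => ?_⟩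
  by_cases e : ∃ a : ℚ_[2], ‖a‖ ≤ 1 ∧ ∀ r, r ^ 2 ^ k = v → c r = ec (a / 2 ^ k) * r
  · exact (Classical.epsilon_spec e).1.trans (le_max_left _ _)
  · rw [kum, funext fun a => eq_false fun h => e ⟨a, h⟩]
    exact le_max_right _ _

theorem kum_congr (e : ∀ r, r ^ 2 ^ k = v → c r = c' r) : kum k c v = kum k c' v :=
  congrArg _ (funext fun _ => propext (and_congr_right fun _ =>
    forall₂_congr fun r hr => by rw [e r hr]))

theorem cm_mul (z g h : GQ) : cm z (g * h) = cm z g * (g * cm z h * g⁻¹) := by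
  simp only [cm]; group

theorem kum_sm (k : ℕ) (z : GQ) (v : Om) : Sm ⊤ fun g => kum k (cm z g) v := by
  have f : {r : Om | r ^ 2 ^ k = v}.Finite := (Polynomial.nthRoots (2 ^ k) v).finite_toSet.subset
    fun r hr => (Polynomial.mem_nthRoots (by positivity)).2 hr
  obtain ⟨N, hN, h1⟩ := exists_ON_fix f.toFinset
  refine ⟨N, hN, fun g _ n _ hn => kum_congr fun r hr => ?_⟩
  rw [cm_mul, AlgEquiv.mul_apply, h1 r (f.mem_toFinset.2 hr) _ (hN.1.conj_mem (cm z n)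
    (mul_mem (hN.1.conj_mem _ hn z) (inv_mem hn)) g)]

/-! ### Weights and measures -/

variable {W W' : Type} [NormedAddCommGroup W] [NormedSpace ℚ_[2] W] [NormedAddCommGroup W']
  [NormedSpace ℚ_[2] W'] {N N' : Subgroup GQ} {F F' : GQ → W} {D : Dat} {E : ES D}
  {m m' : GaussianInt} {ε : ℝ}

/-- integral weights of level `N` -/
def Wi {W : Type} [Norm W] (N : Subgroup GQ) (F : GQ → W) : Prop :=
  (∀ σ, ‖F σ‖ ≤ 1) ∧ ∀ σ, ∀ n ∈ N, F (σ * n) = F σ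

/-- translation -/
noncomputable def tl {W : Type} (F : GQ → W) (g : GQ) : GQ → W := fun σ => F (σ * g)

/-- levels -/
def Lv (m : GaussianInt) : Prop := m ≠ 0 ∧ 4 ∣ m

/-- the measures as linear maps -/
noncomputable def ES.ml (E : ES D) (k : ℕ) (m : GaussianInt) (g : GQ) : (GQ → W) →ₗ[ℚ_[2]] W :=
  csum GK (E.N m) fun σ => kum k (cm D.z g) (σ (E.th m)) • LinearMap.proj σ

theorem ES.ri (E : ES D) (h : m ≠ 0) (H : Subgroup GQ) : (E.N m).relIndex H ≠ 0 :=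
  relIndex_ne_zero (E.op m h) H

theorem ES.ml_apply (h : m ≠ 0) (F : GQ → W) : E.ml k m g F = E.mu k m (cm D.z g) F :=
  map_csum (E.ri h GK) (LinearMap.evalAddMonoidHom F)
    fun σ => kum k (cm D.z g) (σ (E.th m)) • (LinearMap.proj σ : (GQ → W) →ₗ[ℚ_[2]] W)

theorem ES.conj (E : ES D) (hg : g ∈ GK) (hh : h ∈ E.N m) : g * h * g⁻¹ ∈ E.N m := by
  simpa [cm] using mul_mem (E.ab m g hg h (E.le m hh)) hh

theorem ES.comm (E : ES D) (hF : Wi (E.N m) F) (hg : g ∈ GK) (hh : h ∈ GK) :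
    F (g * h) = F (h * g) := by
  rw [← hF.2 (h * g) _ (E.ab m _ (inv_mem hg) _ (inv_mem hh))]
  simp [cm, mul_assoc]

theorem Lv.mul (h : Lv m) (h' : m' ≠ 0) : Lv (m * m') := ⟨mul_ne_zero h.1 h', h.2.mul_right _⟩

theorem ES.fx (E : ES D) (hm : Lv m) (hc : c ∈ E.N m) (hg : g ∈ GK) :
    c (g (E.th m)) = g (E.th m) := by
  have := congrArg g ((E.fix m hm.1 hm.2).2 _ (E.conj (inv_mem hg) hc))
  rwa [inv_inv, AlgEquiv.mul_apply, AlgEquiv.mul_apply, BasicP.apply_inv] at this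

theorem ES.ne (E : ES D) (hm : Lv m) (g : GQ) : g (E.th m) ≠ 0 :=
  (map_ne_zero g).2 (E.fix m hm.1 hm.2).1

theorem tl_tl (F : GQ → W) (g h : GQ) : tl (tl F g) h = tl F (h * g) :=
  funext fun σ => congrArg F (mul_assoc σ h g)

theorem tl_one (F : GQ → W) : tl F 1 = F := funext fun σ => congrArg F (mul_one σ)

theorem tl_smul (d : GQ → ℚ_[2]) (F : GQ → W) (g : GQ) : tl (d • F) g = tl d g • tl F g := rfl

theorem Wi.tl (hF : Wi (E.N m) F) (hg : g ∈ GK) : Wi (E.N m) (tl F g) :=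
  ⟨fun _ => hF.1 _, fun σ n hn => by
    have := hF.2 (σ * g) _ (E.conj (inv_mem hg) hn)
    rwa [show σ * g * (g⁻¹ * n * g⁻¹⁻¹) = σ * n * g by group] at this⟩

theorem Wi.tl_eq (hF : Wi N F) (hg : g ∈ N) : CG.tl F g = F := funext fun σ => hF.2 σ g hg

theorem Wi.mono (hF : Wi N F) (h : N' ≤ N) : Wi N' F := ⟨hF.1, fun σ n hn => hF.2 σ n (h hn)⟩

theorem sm_le {a : ℚ_[2]} {x : W} (ha : ‖a‖ ≤ ε) (hx : ‖x‖ ≤ 1) : ‖a • x‖ ≤ ε := by
  rw [norm_smul]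
  exact (mul_le_of_le_one_right (norm_nonneg _) hx).trans ha

theorem le_sm {a : ℚ_[2]} {x : W} (ha : ‖a‖ ≤ 1) (hx : ‖x‖ ≤ ε) : ‖a • x‖ ≤ ε := by
  rw [norm_smul]
  exact (mul_le_of_le_one_left (norm_nonneg _) ha).trans hx

theorem Wi.smul {d : GQ → ℚ_[2]} (hd : Wi N d) (hF : Wi N F) : Wi N (d • F) :=
  ⟨fun σ => le_sm (hd.1 σ) (hF.1 σ), fun σ n hn => by
    rw [Pi.smul_apply', Pi.smul_apply', hd.2 σ n hn, hF.2 σ n hn]⟩

theorem wi_one : Wi N (1 : GQ → ℚ_[2]) := ⟨fun _ => norm_one.le, fun _ _ _ => rfl⟩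

theorem ES.ri' (hm : Lv m) (hF : Wi (E.N m) F) (c : GQ) :
    RI GK (E.N m) fun σ => kum k c (σ (E.th m)) • F σ := fun s _ n _ hn => by
  simp only [AlgEquiv.mul_apply, (E.fix m hm.1 hm.2).2 n hn, hF.2 s n hn]

theorem ES.ml_sm (E : ES D) (k : ℕ) (hm : m ≠ 0) : Sm ⊤ (E.ml (W := W) k m) := by
  have := Nrm.ft (E.ri hm GK)
  choose M h1 h2 using fun q => kum_sm k D.z (Nrm.ro GK (E.N m) q (E.th m))
  obtain ⟨N, h3, h4⟩ := exists_ON_forall h1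
  refine ⟨N, h3, fun g _ n _ hn => finsum_congr fun q => ?_⟩
  exact congrArg (· • _) (h2 q g trivial n trivial (h4 q hn))

theorem ES.ml_map (hm : m ≠ 0) (L : W →ₗ[ℚ_[2]] W') (F : GQ → W) :
    L (E.ml k m g F) = E.ml k m g fun σ => L (F σ) := by
  rw [ES.ml_apply hm, ES.ml_apply hm]
  exact (map_csum (E.ri hm _) L.toAddMonoidHom _).trans (csum_congr fun s _ => map_smul L _ _)

variable [IsUltrametricDist W]

omit [NormedSpace ℚ_[2] W] in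
theorem csum_le {H H' : Subgroup GQ} (h0 : 0 ≤ ε) (h : ∀ s ∈ H, ‖F s‖ ≤ ε) : ‖csum H H' F‖ ≤ ε :=
  finsum_induction (fun x => ‖x‖ ≤ ε) (by simpa using h0) (fun _ _ => ua)
    fun q => h _ (Nrm.ro_mem q)

theorem ES.mu_bd (E : ES D) : ∃ B : ℝ, ∀ k m c (F : GQ → W), (∀ σ, ‖F σ‖ ≤ 1) →
    ‖E.mu k m c F‖ ≤ B := by
  obtain ⟨B, h0, hB⟩ := kum_bd
  exact ⟨B, fun k m c F h => csum_le h0 fun s _ => sm_le (hB _ _ _) (h s)⟩

theorem ES.le' (hm : Lv m) (hg : g ∈ GK) (h : ∀ σ ∈ GK, ‖F σ‖ ≤ ε) : ‖E.ml k m g F‖ ≤ ε := by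
  rw [ES.ml_apply hm.1]
  exact csum_le ((norm_nonneg _).trans (h 1 (one_mem _))) fun s hs => le_sm
    (kum_spec (ab_cm _ _) (E.fx hm (E.ab m _ D.zK _ hg) hs) (E.ne hm s) k).1 (h s hs)

theorem ES.near (hm : Lv m) (hg : g ∈ GK) (h : ∀ σ ∈ GK, ‖F σ - F' σ‖ ≤ ε) :
    ‖E.ml k m g F - E.ml k m g F'‖ ≤ ε := by
  rw [← map_sub]; exact ES.le' hm hg h

theorem ES.nz (hm : Lv m) (h : ∀ σ, ‖F σ‖ ≤ 1) (e : cm D.z g = 1) :
    ‖E.ml k m g F‖ ≤ (2 ^ k)⁻¹ := by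
  rw [ES.ml_apply hm.1, e]
  exact csum_le (by positivity) fun s _ => sm_le (kum_one (E.ne hm s)) (h s)

theorem ES.one (hm : Lv m) (hF : Wi N F) : ‖E.ml k m 1 F‖ ≤ (2 ^ k)⁻¹ :=
  ES.nz hm hF.1 (by simp [cm])

/-- the cocycle relation -/
theorem ES.co (hm : Lv m) (hg : g ∈ GK) (hh : h ∈ GK) (hF : Wi (E.N m) F) :
    ‖E.ml k m (g * h) F - E.ml k m g F - cq g • E.ml k m h (tl F g)‖ ≤ (2 ^ k)⁻¹ := by
  have r := E.ri hm.1 GK
  rw [ES.ml_apply hm.1, ES.ml_apply hm.1, ← map_smul, ES.ml_apply hm.1, ES.mu, ES.mu, ES.mu,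
    ← csum_left (ES.ri' hm hF _) hg, ← csum_left (ES.ri' hm hF (cm D.z g)) hg, ← csum_sub r,
    ← csum_sub r]
  refine csum_le (by positivity) fun s hs => ?_
  have h1 := E.ab m _ D.zK _ hh
  have h2 := kum_mul' (k := k) (ab_cm D.z g) ((ab_cm D.z h).conj g)
    (E.fx hm (E.ab m _ D.zK _ hg) (mul_mem hg hs)) (E.fx hm (E.conj hg h1) (mul_mem hg hs))
    (E.ne hm _)
  have h3 := kum_conj (k := k) (ab_cm D.z h) (E.fx hm h1 hs) (E.ne hm _) g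
  refine el (sm_le (ua h2 h3) (hF.1 (g * s))) ?_
  rw [cm_mul, Pi.smul_apply, tl, ← E.comm hF hg hs, AlgEquiv.mul_apply]
  module

/-- passage to a lower level -/
theorem ES.down (hm : Lv m) (hm' : m' ≠ 0) (hg : g ∈ GK) (hF : Wi (E.N m) F) :
    ‖E.ml k (m * m') g F - csum GK (E.N m) fun σ => kum k (cm D.z g)
      (σ (nrm (E.N m) (E.N (m * m')) (E.th (m * m')))) • F σ‖ ≤ (2 ^ k)⁻¹ := by
  have l := hm.mul hm'
  have a := E.anti m _ (dvd_mul_right _ _) l.1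
  rw [ES.ml_apply l.1, ES.mu, csum_trans (E.le m) a (E.ri l.1 _) (ES.ri' l (hF.mono a) _),
    ← csum_sub (E.ri hm.1 _)]
  refine csum_le (by positivity) fun s hs => ?_
  have := Nrm.ft (E.ri l.1 (E.N m))
  have h1 := kum_prod (k := k) (ab_cm D.z g) Finset.univ
    (fun q => (s * Nrm.ro (E.N m) (E.N (m * m')) q) (E.th (m * m')))
    (fun q => E.fx l (E.ab _ _ D.zK _ hg) (mul_mem hs (E.le m (Nrm.ro_mem q)))) fun q => E.ne l _
  rw [norm_sub_rev] at h1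
  refine el (sm_le h1 (hF.1 s)) ?_
  rw [Csum.sum, Nrm.prod, map_prod, sub_smul, Finset.sum_smul]
  simp only [hF.2 s _ (Nrm.ro_mem _), AlgEquiv.mul_apply]

/-- compatibility in the 2-power direction -/
theorem ES.two' (hm : Lv m) (hg : g ∈ GK) (hF : Wi (E.N m) F) :
    ‖E.ml k (m * 2) g F - E.ml k m g F‖ ≤ (2 ^ k)⁻¹ := by
  obtain ⟨u, hu, e⟩ := E.two m hm.1 hm.2
  have h1 := ES.down (k := k) hm (m' := 2) (by decide) hg hF
  rw [e] at h1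
  rw [← sub_add_sub_cancel, ES.ml_apply hm.1 F, ES.mu]
  refine ua h1 ?_
  rw [← csum_sub (E.ri hm.1 _)]
  refine csum_le (by positivity) fun s hs => ?_
  have h2 := fo_map s hu
  refine el (sm_le (ua (kum_mul (ab_cm D.z g) (ab_cm _ _ _ h2) h2.isUnit.ne_zero
    (E.fx hm (E.ab _ _ D.zK _ hg) hs) (E.ne hm s)) (kum_root (ab_cm D.z g) h2)) (hF.1 s)) ?_
  rw [map_mul]
  module

/-- the Euler factor -/
theorem ES.hec (hm : Lv m) (hm' : m' ≠ 0) (hg : g ∈ GK) (hh : h ∈ GK) (hF : Wi (E.N m) F)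
    (e : ∃ u, IsOfFinOrder u ∧
      nrm (E.N m) (E.N (m * m')) (E.th (m * m')) * h⁻¹ (E.th m) = u * E.th m) :
    ‖E.ml k (m * m') g F - (E.ml k m g F - E.ml k m g (tl F h))‖ ≤ (2 ^ k)⁻¹ := by
  obtain ⟨u, hu, e⟩ := e
  have r := E.ri hm.1 GK
  have l := hm.mul hm'
  rw [← sub_add_sub_cancel, ES.ml_apply hm.1 F, ES.ml_apply hm.1 (tl F h), ES.mu, ES.mu]
  refine ua (ES.down hm hm' hg hF) ?_
  rw [← csum_right (ES.ri' hm (hF.tl hh) _) (inv_mem hh) fun s hs n => E.conj hs, ← csum_sub r,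
    ← csum_sub r]
  refine csum_le (by positivity) fun s hs => ?_
  have h2 := fo_map s hu
  have h3 := E.ab m _ D.zK _ hg
  have h4 := kum_mul (k := k) (v := s (nrm (E.N m) (E.N (m * m')) (E.th (m * m')))) (ab_cm D.z g)
    (by
      have := congrArg s ((E.fix _ l.1 l.2).2.nrm (E.ri l.1 _) _ (E.conj (inv_mem hs) h3))
      rwa [inv_inv, AlgEquiv.mul_apply, AlgEquiv.mul_apply, BasicP.apply_inv] at this)
    ((map_ne_zero s).2 (mt (nrm_eq_zero (E.ri l.1 _)).1 (E.fix _ l.1 l.2).1))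
    (E.fx hm h3 (mul_mem hs (inv_mem hh))) (E.ne hm _)
  rw [AlgEquiv.mul_apply, ← map_mul, e, map_mul] at h4
  refine el (sm_le (us (ua (kum_mul (ab_cm D.z g) (ab_cm _ _ _ h2) h2.isUnit.ne_zero
    (E.fx hm h3 hs) (E.ne hm s)) (kum_root (ab_cm D.z g) h2)) h4) (hF.1 s)) ?_
  rw [tl, inv_mul_cancel_right, AlgEquiv.mul_apply]
  module

end Pool.Agent.P.MP_8b7eba_nt.CG
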