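import Pool.Agent.P.MP_8b7eba_nt.CG.JM

/-! Norm compatible families of invariant measures vanish; the measures are unramified. -/

namespace Pool.Agent.P.MP_8b7eba_nt.CG

open R2 Filter Topology

theorem dvd_Ps (k : ℕ) (g : GQ) : 2 ^ k ∣ la g - (Ps k g).val := by
  have h : PadicInt.toZModPow k (la g - ((Ps k g).val : ℤ_[2])) = 0 := by
    rw [map_sub, map_natCast, ZMod.natCast_zmod_val]
    exact sub_self _
  rwa [← RingHom.mem_ker, PadicInt.ker_toZModPow, Ideal.mem_span_singleton] at h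

/-- the approximate logarithm divided by a power of two -/
noncomputable def yy (v k : ℕ) : GQ → ℚ_[2] := fun σ => ((Ps (v + k) σ).val / 2 ^ v : ℕ)

theorem yy_wi (v k : ℕ) : Wi (KP (v + k)) (yy v k) :=
  ⟨fun _ => IsUltrametricDist.norm_natCast_le_one _ _, fun σ n hn => by
    obtain ⟨h1, -, h2, -⟩ := a_LG.2.2.2.1 (v + k)
    rw [yy, yy, h1.2 σ trivial n trivial, ((h2 n).1 hn).2, add_zero]⟩

theorem yy_add {v k : ℕ} {q : GQ} {u : ℤ_[2]} (h : la q = u * 2 ^ v) (σ : GQ) :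
    ‖yy v k (σ * q) - yy v k σ - u‖ ≤ (2 ^ k)⁻¹ := by
  have h1 := dvd_sub (dvd_Ps (v + k) σ) (dvd_Ps (v + k) (σ * q))
  rw [la_mul, h] at h1
  unfold yy
  generalize (Ps (v + k) σ).val = a at *
  generalize (Ps (v + k) (σ * q)).val = b at *
  have h2 : (2 : ℤ_[2]) ^ v ∣ ((b - a : ℤ) : ℤ_[2]) := by
    have := dvd_add ((pow_dvd_pow 2 (Nat.le_add_right v k)).trans h1) (Dvd.intro_left u rfl)
    convert this using 1
    push_cast
    ring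
  have h3 : a % 2 ^ v = b % 2 ^ v := Nat.modEq_iff_dvd.2 (by
    exact_mod_cast (PadicInt.pow_p_dvd_int_iff (p := 2) v (b - a)).1 (by exact_mod_cast h2))
  have h4 := congrArg (Nat.cast : ℕ → ℤ_[2]) (Nat.div_add_mod a (2 ^ v))
  have h5 := congrArg (Nat.cast : ℕ → ℤ_[2]) (Nat.div_add_mod b (2 ^ v))
  rw [h3] at h4
  rw [Nat.cast_add, Nat.cast_mul, Nat.cast_pow, Nat.cast_ofNat] at h4 h5
  have h6 : (2 : ℤ_[2]) ^ k ∣ ((b / 2 ^ v : ℕ) : ℤ_[2]) - (a / 2 ^ v : ℕ) - u := by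
    refine (mul_dvd_mul_iff_left (pow_ne_zero v two_ne_zero)).1 ?_
    rw [← pow_add]
    convert h1 using 1
    linear_combination h5 - h4
  simpa only [PadicInt.coe_sub, PadicInt.coe_natCast] using norm_dvd h6

variable {W W' : Type} [NormedAddCommGroup W] [NormedSpace ℚ_[2] W] [NormedAddCommGroup W']
  [NormedSpace ℚ_[2] W'] [IsUltrametricDist W'] {D : Dat} {E : ES D} {k : ℕ} {φ t g : GQ} {w : Pl}
  {m : GaussianInt} {F : GQ → W} {ε : ℝ}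

theorem pow2_ne (k : ℕ) : (2 : GaussianInt) ^ k ≠ 0 := pow_ne_zero _ (by decide)

theorem ES.cyc (E : ES D) (hg : g ∈ E.N (2 ^ (k + 2))) : 2 ^ k ∣ (cyc g : ℤ_[2]) - 1 :=
  D.cyc_near (E.le _ hg) (E.rho k g hg)

/-- norm compatible families of invariant measures vanish -/
theorem ES.push (E : ES D) (k : ℕ) (P : GaussianInt → Prop)
    (C : GaussianInt → (GQ → W) →ₗ[ℚ_[2]] W') (hK : φ ∈ GK) (hφ : la φ ≠ 0)
    (hP : ∀ m, P m → m ≠ 0 ∧ P (m * 2))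
    (hb : ∀ m F (ε : ℝ), P m → (∀ σ, ‖F σ‖ ≤ ε) → ‖C m F‖ ≤ ε)
    (h2 : ∀ m F, P m → Wi (E.N m) F → ‖C (m * 2) F - C m F‖ ≤ (2 ^ k)⁻¹)
    (hf : ∀ m F, P m → Wi (E.N m) F → ‖C m F - C m (tl F φ)‖ ≤ (2 ^ k)⁻¹)
    (hm : P m) (hF : Wi (E.N m) F) : ‖C m F‖ ≤ (2 ^ k)⁻¹ := by
  have it : ∀ m F, P m → Wi (E.N m) F → ∀ b, ‖C m F - C m (tl F (φ ^ b))‖ ≤ (2 ^ k)⁻¹ := by
    intro m F hm hF b
    induction b with
    | zero => simp [tl_one]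
    | succ b ih =>
      have h1 := hf m _ hm (hF.tl (pow_mem hK b))
      rw [tl_tl, ← pow_succ'] at h1
      simpa using ua ih h1
  have up : ∀ J, P (m * 2 ^ J) ∧ ‖C (m * 2 ^ J) F - C m F‖ ≤ (2 ^ k)⁻¹ := by
    intro J
    induction J with
    | zero => simpa using hm
    | succ J ih =>
      rw [pow_succ, ← mul_assoc]
      refine ⟨(hP _ ih.1).2, ?_⟩
      simpa using ua (h2 _ F ih.1 (hF.mono (E.anti _ _ (dvd_mul_right _ _) (hP _ ih.1).1))) ih.2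
  obtain ⟨n, n0, -, q1⟩ := Subgroup.exists_pow_mem_of_index_ne_zero
    (Basic.fi (E.op m (hP m hm).1)).index_ne_zero φ
  have q2 : la (φ ^ n) ≠ 0 := by
    rw [la_pow]
    exact mul_ne_zero (Nat.cast_ne_zero.2 n0.ne') hφ
  have q3 := PadicInt.unitCoeff_spec q2
  rw [Nat.cast_ofNat] at q3
  generalize PadicInt.unitCoeff q2 = u at q3
  generalize (la (φ ^ n)).valuation = v at q3
  obtain ⟨hN, h3⟩ := up (v + k + 2 + 2)
  have N0 := (hP _ hN).1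
  have h4 := it _ _ hN (((yy_wi v k).mono fun g hg => ((a_LG.2.2.2.1 _).2.2.2.2.1 g).2
    ((a_LG.1.dvd _ _).2 (.inl (E.cyc (E.anti _ _ (dvd_mul_left _ _) N0 hg))))).smul
    (hF.mono (E.anti _ _ (dvd_mul_right _ _) N0))) n
  have h5 := hb _ (tl (yy v k • F) (φ ^ n) - yy v k • F - ((u : ℤ_[2]) : ℚ_[2]) • F) _ hN
    fun σ => el (sm_le (yy_add (k := k) q3 σ) (hF.1 σ)) (by
      rw [tl_smul, hF.tl_eq q1]
      simp only [Pi.sub_apply, Pi.smul_apply', Pi.smul_apply, tl, sub_smul])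
  have h6 := ua h4 h5
  rw [map_sub, map_sub, show ∀ a b c : W', a - b + (b - a - c) = -c by
    intros; abel, norm_neg, map_smul, norm_smul, PadicInt.padic_norm_e_of_padicInt, PadicInt.norm_units,
    one_mul] at h6
  simpa using us h6 h3

theorem odd_smul {r : ℕ} (hr : Odd r) (v : W) : ‖(r : ℚ_[2]) • v‖ = ‖v‖ := by
  rw [norm_smul, Padic.norm_natCast_eq_one_iff.2 (Nat.coprime_two_left.2 hr), one_mul]

theorem unif_p (w : Pl) : w.Unif (w.I ⊓ w.D) w.p := by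
  rw [inf_eq_left.2 w.I_le_D]; exact (a_RES _ _ w.loc_D).2.2.2.2.1

theorem tame2 (h2 : w.p ≠ 2) (ht : t ∈ w.I) (mov : ∀ β : Om, β ^ 2 = w.p → t β = -β)
    {N : Subgroup GQ} (hN : ON N) : (∀ g ∈ w.I, ∃ m r : ℕ, Odd r ∧ (g * (t ^ m)⁻¹) ^ r ∈ N) ∧
      ∀ f φ, w.IsFrob f φ → ∃ r : ℕ, Odd r ∧ (φ * t * φ⁻¹ * (t ^ w.p ^ f)⁻¹) ^ r ∈ N := by
  obtain ⟨h3, h4⟩ := a_TAME2 w _ w.p t h2 w.loc_D (unif_p w) ⟨ht, ht.1⟩ mov N hN
  exact ⟨fun g hg => h3 g ⟨hg, hg.1⟩, fun f φ hφ => h4 f φ hφ (map_natCast _ _)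
    fun g hg => mul_mem (mul_mem hφ.1 hg) (inv_mem hφ.1)⟩

/-- approximate homomorphisms on tame inertia -/
theorem tame_add {a : GQ → W'} (h2 : w.p ≠ 2) (ht : t ∈ w.I)
    (mov : ∀ β : Om, β ^ 2 = w.p → t β = -β) (hs : Sm ⊤ a)
    (ha : ∀ g ∈ w.I, ∀ g' ∈ w.I, ‖a (g * g') - a g - a g'‖ ≤ ε) :
    (∀ g ∈ w.I, ∃ m : ℕ, ‖a g - (m : ℚ_[2]) • a t‖ ≤ ε) ∧
      ∀ f φ, w.IsFrob f φ → ‖a (φ * t * φ⁻¹) - ((w.p ^ f : ℕ) : ℚ_[2]) • a t‖ ≤ ε := by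
  have h1 : ‖a 1‖ ≤ ε := by simpa using ha 1 (one_mem _) 1 (one_mem _)
  have pw : ∀ g ∈ w.I, ∀ m : ℕ, ‖a (g ^ m) - (m : ℚ_[2]) • a g‖ ≤ ε := fun g hg m => by
    induction m with
    | zero => simpa using h1
    | succ m ih =>
      refine el (ua (ha _ (pow_mem hg m) g hg) ih) ?_
      rw [pow_succ, Nat.cast_succ]
      module
  obtain ⟨N, hN, h3⟩ := hs
  have gen : ∀ g ∈ w.I, ∀ m r : ℕ, Odd r → (g * (t ^ m)⁻¹) ^ r ∈ N →
      ‖a g - (m : ℚ_[2]) • a t‖ ≤ ε := fun g hg m r hr e => by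
    have hs : g * (t ^ m)⁻¹ ∈ w.I := mul_mem hg (inv_mem (pow_mem ht m))
    have h4 := pw _ hs r
    rw [← one_mul (_ ^ r), h3 1 trivial _ trivial e] at h4
    have h5 := us h1 h4
    rw [sub_sub_cancel, odd_smul hr] at h5
    have h6 := ha _ hs _ (pow_mem ht m)
    rw [inv_mul_cancel_right] at h6
    exact el (ua (ua h6 h5) (pw t ht m)) (by abel)
  obtain ⟨h4, h5⟩ := tame2 h2 ht mov hN
  exact ⟨fun g hg => let ⟨m, r, hr, e⟩ := h4 g hg; ⟨m, gen g hg m r hr e⟩,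
    fun f φ hφ => let ⟨r, hr, e⟩ := h5 f φ hφ; gen _ (Pl.conj_mem_I hφ.1 ht) _ r hr e⟩

theorem cyc_frob (h2 : w.p ≠ 2) {f : ℕ} (h : w.IsFrob f φ) : (cyc φ : ℤ_[2]) = w.p ^ f :=
  a_EC.2.2.2.2.2.1 w f φ h2 h

theorem cq_frob (h2 : w.p ≠ 2) {f : ℕ} (h : w.IsFrob f φ) : cq φ = (w.p ^ f : ℕ) := by
  rw [cq, cyc_frob h2 h, PadicInt.coe_pow, PadicInt.coe_natCast, Nat.cast_pow]

theorem la_frob (h2 : w.p ≠ 2) {f : ℕ} (f0 : 0 < f) (h : w.IsFrob f φ) : la φ ≠ 0 := fun e => by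
  have h1 := (a_LG.1.dvd (w.p ^ f) (cyc φ)).1 (by rw [← la, e]; exact dvd_zero _)
  rw [cyc_frob h2 h, ← Nat.cast_pow] at h1
  have h3 := Nat.one_lt_pow f0.ne' w.prime.one_lt
  generalize w.p ^ f = q at h1 h3
  have h4 : (q : ℤ) < 2 ^ q := by exact_mod_cast Nat.lt_two_pow_self
  have h5 : (1 : ℤ) < q := by exact_mod_cast h3
  rcases h1 with a | a
  · have := Int.le_of_dvd (by omega) ((PadicInt.pow_p_dvd_int_iff (p := 2) (q + 2) (q - 1)).1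
      (by simpa using a))
    rw [pow_add] at this
    push_cast at this
    omega
  · have := Int.le_of_dvd (by omega) ((PadicInt.pow_p_dvd_int_iff (p := 2) (q + 2) (q + 1)).1
      (by simpa using a))
    rw [pow_add] at this
    push_cast at this
    omega

theorem ne_two {n : ℕ} (h : ¬ w.p ∣ 2 * n) : w.p ≠ 2 := fun e => h (e ▸ dvd_mul_right _ _)

theorem v_mul_two (h2 : w.p ≠ 2) (h : w.v (gi m) = 1) : w.v (gi (m * 2)) = 1 := by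
  rw [gi_mul, gi_two, map_mul, h, Pl.v_two h2, one_mul]

variable [IsUltrametricDist W]

theorem ES.coI (hm : Lv m) (h2 : w.p ≠ 2) (hg : g ∈ w.I) (hN : g ∈ E.N m) (ht : t ∈ GK)
    (hF : Wi (E.N m) F) :
    ‖E.ml k m (g * t) F - E.ml k m g F - E.ml k m t F‖ ≤ (2 ^ k)⁻¹ := by
  simpa only [cq_of (cyc_I h2 hg), hF.tl_eq hN, one_smul] using
    ES.co (k := k) hm (I_le_GK h2 hg) ht hF

/-- the measures are unramified outside the level -/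
theorem ES.unrf (hm : Lv m) (hw : ¬ w.p ∣ 2 * D.n) (hv : w.v (gi m) = 1) (hF : Wi (E.N m) F)
    (hg : g ∈ w.I) : ‖E.ml k m g F‖ ≤ (2 ^ k)⁻¹ := by
  have h2 := ne_two hw
  obtain ⟨t, ht, mov⟩ := Pl.exists_gen a_TAME a_RES h2
  obtain ⟨f, φ, f0, hφ, h1, -⟩ := a_FROB w _ (w.loc_inf GK_open)
  have tK := I_le_GK h2 ht
  have key : ∀ m (F : GQ → W), Lv m ∧ w.v (gi m) = 1 → Wi (E.N m) F → _ := fun m F hm hF =>
    tame_add (a := fun g => E.ml k m g F) h2 ht mov ((E.ml_sm k hm.1.1).comp fun L => L F)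
      fun g hg g' hg' => ES.coI hm.1 h2 hg (E.unr m w hw hm.2 hg) (I_le_GK h2 hg') hF
  obtain ⟨n, hn⟩ := (key m F ⟨hm, hv⟩ hF).1 g hg
  have h3 := E.push k (fun m => Lv m ∧ w.v (gi m) = 1) (fun m => E.ml k m t) hφ.2 (la_frob h2 f0 h1)
    (fun m h => ⟨h.1.1, h.1.mul (by decide), v_mul_two h2 h.2⟩)
    (fun m F ε h e => ES.le' h.1 tK fun σ _ => e σ) (fun m F h e => ES.two' h.1 tK e)
    (fun m F h e => ?_) ⟨hm, hv⟩ hF
  · simpa using ua hn (le_sm (IsUltrametricDist.norm_natCast_le_one _ n) h3)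
  have c := Pl.conj_mem_I h1.1 ht
  have h4 := ES.coI (k := k) h.1 h2 c (E.unr m w hw h.2 c) hφ.2 e
  rw [inv_mul_cancel_right] at h4
  have h5 := ES.co (k := k) h.1 hφ.2 tK e
  rw [cq_frob h2 h1] at h5
  rw [← odd_smul ((w.prime.odd_of_ne_two h2).pow (n := f))]
  exact el (us (us h5 h4) ((key m F h e).2 f φ h1)) (by module)

end Pool.Agent.P.MP_8b7eba_nt.CG
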