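import Pool.Agent.P.MP_8b7eba_nt.CG.JB
import Pool.Agent.P.MP_8b7eba_nt.CG.JKLD

/-! The upper bound for the Selmer groups. -/

namespace Pool.Agent.P.MP_8b7eba_nt.CG

open R2 Filter Topology Module

variable {D : Dat} {A A' : Type} [NormedCommRing A] [NormedAlgebra ℚ_[2] A] [IsUltrametricDist A]
  [FiniteDimensional ℚ_[2] A] [NormedCommRing A'] [NormedAlgebra ℚ_[2] A'] [IsUltrametricDist A']
  [FiniteDimensional ℚ_[2] A'] {φ : A →ₐ[ℚ_[2]] A'} {ι π : A} {ψ : ℤ_[2] → A} {j m e : ℕ}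
  {x y : GS → A}

/-- normalised local cocycles -/
def Hp (D : Dat) (h : Cf ι ψ) : Submodule ℚ_[2] (GS → A) where
  carrier := {x | PZ (fun _ => D.w.D ⊓ GK) (D.r ι ψ) x ∧ x (cs D.z) = 0 ∧
    ∀ g, g ∉ S1 (D.w.D ⊓ GK) → x g = 0}
  add_mem' := fun hx hy => ⟨hx.1.add (D.rep h) hy.1, by simp [hx.2.1, hy.2.1],
    fun g hg => by simp [hx.2.2 g hg, hy.2.2 g hg]⟩
  zero_mem' := ⟨pz_zero, rfl, fun _ _ => rfl⟩
  smul_mem' := fun a _ hx => ⟨hx.1.smul (D.rep h) a, by simp [hx.2.1],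
    fun g hg => by simp [hx.2.2 g hg]⟩

open Classical in
/-- localisation -/
noncomputable def lp (D : Dat) : (GS → A) →ₗ[A] GS → A where
  toFun y g := if g ∈ S1 (D.w.D ⊓ GK) then y g else 0
  map_add' x y := funext fun g => by by_cases hg : g ∈ S1 (D.w.D ⊓ GK) <;> simp [hg]
  map_smul' a x := funext fun g => by by_cases hg : g ∈ S1 (D.w.D ⊓ GK) <;> simp [hg]

theorem lp_in (y : GS → A) {g : GS} (hg : g ∈ S1 (D.w.D ⊓ GK)) : lp D y g = y g := if_pos hg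

theorem lp_mem (h : Cf ι ψ) (hy : PZ (fun _ => D.w.D ⊓ GK) (D.r ι ψ) y) (h0 : y (cs D.z) = 0) :
    lp D y ∈ Hp D h :=
  ⟨hy.congr fun _ hg => lp_in y hg, (lp_in y (cs_mem.2 D.zD)).trans h0, fun _ hg => if_neg hg⟩

theorem Dat.Rel.lp (h : Cf ι ψ) (hy : D.Rel ι ψ y) : lp D y ∈ Hp D h :=
  lp_mem h (hy.pz.mono fun _ => inf_le_right) hy.nz

/-- the local term at two -/
noncomputable def P2 (D : Dat) (ι : A) (ψ : ℤ_[2] → A) (t : A →ₗ[ℚ_[2]] ℚ_[2]) (y x : GS → A) :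
    ℚ_[2] := PI (fun _ => D.w) (fun _ => D.w.D ⊓ GK) (cupS (bt t) (D.r ι ψ) y x)

theorem p2_zero (h : Cf ι ψ) (t : A →ₗ[ℚ_[2]] ℚ_[2]) (hx : D.Rel ι ψ x)
    (hy : D.Rel (-ι) (bar ψ) y) (E : ES D) : P2 D ι ψ t y x = 0 := by
  obtain ⟨u, -, hu⟩ := glob (E := E) (s := ∅) h (by simp [Ok])
  simpa [P2] using hu t x y hx (hy.rs _)

theorem fix_z (h : Cf ι ψ) (v : A) (e : D.r ι ψ D.z v = v) : v = 0 := by
  rwa [Dat.r_apply, ← sub_eq_zero, ← sub_one_mul,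
    (Dat.xi_unit h D.zc D.zr).mul_right_eq_zero] at e

theorem dim3 {F P Q R V W : Type} [Field F] [AddCommGroup P] [Module F P] [AddCommGroup Q]
    [Module F Q] [AddCommGroup R] [Module F R] [AddCommGroup V] [Module F V] [AddCommGroup W]
    [Module F W] [FiniteDimensional F P] [FiniteDimensional F Q] [FiniteDimensional F W]
    (f : P →ₗ[F] Q) (g : Q →ₗ[F] R) (hf : ∀ p, g (f p) = 0) (k : V →ₗ[F] R)
    (hk : Function.Injective k) (hV : ∀ v, ∃ q, g q = k v) (i : W →ₗ[F] P)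
    (hi : ∀ p, f p = 0 → ∃ w, i w = p) : finrank F P + finrank F V ≤ finrank F Q + finrank F W := by
  have d1 := LinearMap.finrank_range_add_finrank_ker f
  have d2 := TSB.dim1 (LinearMap.range f).subtype (LinearMap.range f).injective_subtype g
    (by rintro ⟨_, x, rfl⟩; exact hf x) k hk hV
  have d3 : finrank F (LinearMap.ker f) ≤ finrank F W :=
    (Submodule.finrank_mono (t := LinearMap.range i) fun q hq => hi q hq).trans
      (LinearMap.finrank_range_le i)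
  omega

/-- comparison of the Selmer group and of the strict Selmer group -/
theorem sel_le (E : ES D) (h : Cf ι ψ) (hC : Chain π j e) {κ u : GS → A}
    (hκ : D.Rel (-ι) (bar ψ) κ) (hu : PZ (fun _ => D.w.D ⊓ GK) (D.r ι ψ) u) (u0 : u (cs D.z) = 0)
    (pp : ∀ t (a b : A), P2 D ι ψ t (a • κ) (b • u) = 0) {b c R : ℕ}
    (hb : ∃ g ∈ S1 (D.w.D ⊓ GK), π ^ (j - b - 1) * κ g ≠ 0) (hc : π ^ (j - c - 1) * u (cs D.h) ≠ 0)
    (hB : ∀ M : Submodule A (GS → A), FiniteDimensional ℚ_[2] M → (∀ x ∈ M, D.Str ι ψ x) →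
      finrank ℚ_[2] M ≤ R) (M : Submodule A (GS → A)) (hM : FiniteDimensional ℚ_[2] M)
    (hMs : ∀ x ∈ M, D.Sel ι ψ x) : finrank ℚ_[2] M ≤ R + e * (b + c) := by
  obtain ⟨t, ht⟩ := hC.exists_form
  have le : ∀ _ : ℕ, D.w.D ⊓ GK ≤ GK := fun _ => inf_le_right
  have r1 := (D.rep h).mono (le 0)
  have r2 := (D.rep h.dual).mono (le 0)
  have ht' : ∀ y, (∀ x, bt t x y = 0) → y = 0 := fun y hy => ht y fun x => by
    rw [mul_comm]; exact hy x
  have K1 := (kld rfl D.w2 r2 r1 ht ht' (fun g hg => D.bt_r h t g hg.2) D.zD (fix_z h.dual)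
    (fix_z h)).1
  have K2 := (kld (β := bt t) rfl D.w2 r1 r2 ht ht' (fun g hg x y => by
    rw [bt_apply, bt_apply, mul_comm, mul_comm x]; exact D.bt_r h t g hg.2 y x) D.zD (fix_z h)
    (fix_z h.dual)).2
  have hfin : FiniteDimensional ℚ_[2] (Hp D h) :=
    TSB.fin_of_bdd _ _ fun N hN hf => K2 N hf fun x hx => hN hx
  have hHp : finrank ℚ_[2] (Hp D h) ≤ 2 * (e * j) := hC.finrank ▸ K2 _ hfin fun x hx => hx
  have hP := a_PIX (fun _ => D.w) (fun _ => D.w.D ⊓ GK) fun _ => loc_K D.w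
  have hcup := fun {y x : GS → A} hy hx => Dat.pz2 (D := D) (x := x) (y := y) h t le hy hx
  let L : Hp D h.dual →ₗ[ℚ_[2]] Dual ℚ_[2] (Hp D h) := LinearMap.mk₂ ℚ_[2]
    (fun x y => PI (fun _ => D.w) (fun _ => D.w.D ⊓ GK) (cupS (bt t) (D.r ι ψ) x.1 y.1))
    (fun x x' y => by
      rw [← (hP _ (hcup x.2.1 y.2.1)).2.2.2.1 _ (hcup x'.2.1 y.2.1)]
      refine congrArg _ (funext fun g => funext fun g' => ?_)
      simp [cupS])
    (fun c x y => by
      rw [smul_eq_mul, ← (hP _ (hcup x.2.1 y.2.1)).2.2.2.2.1]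
      refine congrArg _ (funext fun g => funext fun g' => ?_)
      simp [cupS])
    (fun x y y' => by
      rw [← (hP _ (hcup x.2.1 y.2.1)).2.2.2.1 _ (hcup x.2.1 y'.2.1)]
      refine congrArg _ (funext fun g => funext fun g' => ?_)
      simp [cupS, r1.rS_add])
    (fun c x y => by
      rw [smul_eq_mul, ← (hP _ (hcup x.2.1 y.2.1)).2.2.2.2.1]
      refine congrArg _ (funext fun g => funext fun g' => ?_)
      simp [cupS, r1.rS_smul])
  have eL : ∀ x y (hx : lp D x ∈ Hp D h.dual) (hy : lp D y ∈ Hp D h),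
      L ⟨_, hx⟩ ⟨_, hy⟩ = P2 D ι ψ t x y := fun x y hx hy =>
    ((hP _ (hcup hx.1 hy.1)).2.2.1 _ fun g hg g' hg' => by
      simp only [cupS, lp_in _ hg, lp_in _ hg']).symm
  have c1 : ∀ x, L x = 0 → x = 0 := fun x hx => by
    have h1 := K1 x.1 x.2.1 x.2.2.1 fun y hy h0 => by
      refine ((hP _ (hcup x.2.1 (lp_mem h hy h0).1)).2.2.1 _ fun g _ g' hg' => ?_).trans
        (LinearMap.congr_fun hx ⟨_, lp_mem h hy h0⟩)
      simp only [cupS, lp_in _ hg']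
    exact Subtype.ext (funext fun g => (em (g ∈ S1 (D.w.D ⊓ GK))).elim (h1 g) (x.2.2.2 g))
  have lo : ∀ {X : Type} [AddCommGroup X] [Module A X] [Module ℚ_[2] X] [IsScalarTower ℚ_[2] A X]
      (v : X) (b : ℕ), π ^ (j - b - 1) • v ≠ 0 →
      e * j ≤ finrank ℚ_[2] (Submodule.span A {v}) + e * b := fun v b hv => by
    obtain ⟨-, i, -, hi, -, hVd⟩ := hC.finrank_span v
    rw [hVd, ← mul_add]
    refine Nat.mul_le_mul_left _ (not_lt.1 fun hlt => hv ?_)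
    rw [show j - b - 1 = j - b - 1 - i + i by omega, pow_add, mul_smul, hi, smul_zero]
  have hV := (hC.finrank_span (lp D κ)).1
  have d5 := lo (lp D κ) b fun e0 => let ⟨g, hg, a⟩ := hb; a (by
    simpa only [Pi.smul_apply, lp_in _ hg, smul_eq_mul, Pi.zero_apply] using congrFun e0 g)
  have d6 := lo (u (cs D.h)) c hc
  have m1 : ∀ a : A, lp D (a • κ) ∈ Hp D h.dual := fun a => (hκ.smul h.dual a).lp h.dual
  have m0 : ∀ x : M, lp D x.1 ∈ Hp D h := fun x => (hMs _ x.2).1.lp h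
  have m2 : ∀ a : A, lp D (a • u) ∈ Hp D h := fun a => lp_mem h (pz_smul h hu a) (by simp [u0])
  let T : Submodule ℚ_[2] (Hp D h) := ⨅ a : A, LinearMap.ker (L ⟨_, m1 a⟩)
  have hVm : ∀ v ∈ Submodule.span A {lp D κ}, ∃ a : A, lp D (a • κ) = v := fun v hv => by
    obtain ⟨a, rfl⟩ := Submodule.mem_span_singleton.1 hv
    exact ⟨a, map_smul _ _ _⟩
  have c2 : ∀ v ∈ Submodule.span A {lp D κ}, v ∈ Hp D h.dual := fun v hv => by
    obtain ⟨a, ha⟩ := hVm v hv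
    exact ha ▸ m1 a
  have d2 := TSB.dim2 (V := T) (L ∘ₗ ((Submodule.span A {lp D κ}).subtype.restrictScalars
    ℚ_[2]).codRestrict (Hp D h.dual) fun v => c2 v.1 v.2) (0 : Unit →ₗ[ℚ_[2]] _)
    (fun v hv => ⟨0, Subtype.ext (congrArg (fun x : Hp D h.dual => x.1) (c1 _ hv)).symm⟩)
    T.subtype T.injective_subtype (by
      rintro ⟨v, hv⟩ ⟨y, hy⟩
      obtain ⟨a, rfl⟩ := hVm v hv
      exact (Submodule.mem_iInf _).1 hy a)
  let f : M →ₗ[ℚ_[2]] T := ((((lp D).domRestrict M).restrictScalars ℚ_[2]).codRestrict (Hp D h)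
    m0).codRestrict T fun x => (Submodule.mem_iInf _).2 fun a =>
      (eL _ _ _ (m0 x)).trans (p2_zero h t (hMs _ x.2).1 (hκ.smul h.dual a) E)
  have f0 : FiniteDimensional ℚ_[2] ↥(M ⊓ DS (E := E) h ∅) := Module.Finite.of_injective
    ((Submodule.inclusion (inf_le_left : M ⊓ DS (E := E) h ∅ ≤ M)).restrictScalars ℚ_[2])
    (Submodule.inclusion_injective inf_le_left)
  have d3 := hB _ f0 fun x hx => hx.2.1
  have d7 := dim3 (P := M) (Q := T) (V := Submodule.span A {u (cs D.h)})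
    (W := ↥(M ⊓ DS (E := E) h ∅)) f
    (LinearMap.proj (cs D.h) ∘ₗ (Hp D h).subtype ∘ₗ T.subtype : T →ₗ[ℚ_[2]] A)
    (fun x => (lp_in _ (cs_mem.2 D.hD)).trans (hMs _ x.2).2)
    ((Submodule.span A {u (cs D.h)}).subtype.restrictScalars ℚ_[2]) Subtype.val_injective
    (fun ⟨v, hv⟩ => by
      obtain ⟨a, rfl⟩ := Submodule.mem_span_singleton.1 hv
      exact ⟨⟨⟨_, m2 a⟩, (Submodule.mem_iInf _).2 fun a' => (eL _ _ _ (m2 a)).trans (pp t a' a)⟩,
        lp_in _ (cs_mem.2 D.hD)⟩)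
    ((Submodule.inclusion (inf_le_left : M ⊓ DS (E := E) h ∅ ≤ M)).restrictScalars ℚ_[2])
    fun x hx => ⟨⟨x.1, x.2, ⟨(hMs _ x.2).1, fun g hg => (lp_in _ hg).symm.trans
      (congrFun (congrArg (fun y : T => y.1.1) hx) g)⟩, by simp⟩, rfl⟩
  rw [finrank_zero_of_subsingleton (M := Unit)] at d2
  rw [mul_add]
  omega

/-- the bound for one of the two Selmer groups -/
theorem half (E : ES D) (h : Cf ι ψ) (h' : Cf (φ ι) (φ ∘ ψ)) (hφ : Function.Surjective φ)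
    (c : Chain π (j + m) e) (c' : Chain (φ π) j e) {κ κ' : GS → A} (hκ : D.Rel ι ψ κ)
    (hκ' : D.Rel (-ι) (bar ψ) κ') {a β α' β' R : ℕ} (h1 : β ≤ a) (h2 : α' ≤ β') (h3 : a + β' < m)
    (hm : m ≤ j) (k1 : π ^ (j + m - a - 1) * κ (cs D.h) ≠ 0)
    (k2 : π ^ (j + m - β) • lp D κ = 0) (k3 : π ^ (j + m - α') • κ' = 0)
    (k4 : π ^ (j + m - β' - 1) • lp D κ' ≠ 0)
    (hB : ∀ M : Submodule A' (GS → A'), FiniteDimensional ℚ_[2] M →
      (∀ x ∈ M, D.Str (φ ι) (φ ∘ ψ) x) → finrank ℚ_[2] M ≤ R) (M : Submodule A' (GS → A'))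
    (hM : FiniteDimensional ℚ_[2] M) (hS : ∀ x ∈ M, D.Sel (φ ι) (φ ∘ ψ) x) :
    finrank ℚ_[2] M + e * (α' + β) ≤ R + e * (β' + a) := by
  obtain ⟨μ, hμ⟩ := ex_dv c c'
  have le : ∀ _ : ℕ, D.w.D ⊓ GK ≤ GK := fun _ => inf_le_right
  have v1 : ∀ g ∈ S1 (D.w.D ⊓ GK), π ^ β ∣ κ g := fun g hg =>
    dvd_of c (by omega) (lp_in κ hg ▸ congrFun k2 g)
  have v2 : ∀ g, π ^ α' ∣ κ' g := fun g => dvd_of c (by omega) (congrFun k3 g)
  have r1 := (Rs.dv h.dual (cf_dual h') (hμ α' (by omega)) (hκ'.rs (E := E) ∅) v2).rel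
  rw [map_neg] at r1
  have r2 := pz_dv h h' (hμ β (by omega)) (hκ.pz.mono le) v1
  have := sel_le E h' c' r1 r2 (by simp [hκ.nz]) (fun t x y => ?_) (b := β' - α') (c := a - β) ?_
    (fun e => k1 ?_) hB M hM hS
  · have e1 : e * (β' + a) = e * (β' - α' + (a - β)) + e * (α' + β) := by
      rw [← mul_add]; congr 1; omega
    omega
  · obtain ⟨x, rfl⟩ := hφ x
    obtain ⟨y, rfl⟩ := hφ y
    refine Eq.trans ?_ (p2_zero h (t ∘ₗ μ (α' + β)) (hκ.smul h y) (hκ'.smul h.dual x) E)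
    refine (a_PIX _ _ (fun _ => loc_K D.w) _ (Dat.pz2 h _ le ((hκ'.smul h.dual x).pz.mono le)
      ((hκ.smul h y).pz.mono le))).2.2.1 _ fun g _ g' hg' => ?_
    obtain ⟨p, hp⟩ := v2 g
    obtain ⟨q, hq⟩ := v1 g' hg'
    simp only [cupS, bt_apply, Pi.smul_apply, smul_eq_mul, LinearMap.comp_apply]
    rw [Dat.rS_eq h, Dat.rS_eq h', hp, hq, hμ _ (by omega), hμ _ (by omega), ← Dat.rS_phi h,
      show x * (π ^ α' * p) * (rS (D.r ι ψ) g 1 * (y * (π ^ β * q))) =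
        π ^ (α' + β) * (x * p * (rS (D.r ι ψ) g 1 * (y * q))) by ring, hμ _ (by omega)]
    simp only [map_mul]
  · obtain ⟨g, hg⟩ := Function.ne_iff.1 k4
    have h4 : g ∈ S1 (D.w.D ⊓ GK) := not_not.1 fun a => hg (by
      rw [Pi.smul_apply, show lp D κ' g = 0 from if_neg a, smul_zero, Pi.zero_apply])
    refine ⟨g, h4, fun e => hg ?_⟩
    rw [(hμ α' (by omega)).zero c c' (by omega) (v2 g)] at e
    rw [Pi.smul_apply, lp_in _ h4, smul_eq_mul, Pi.zero_apply, ← e]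
    congr 2
    omega
  · rw [(hμ β (by omega)).zero c c' (by omega) (v1 _ (cs_mem.2 D.hD))] at e
    rw [← e]
    congr 2
    omega

theorem bar_bar (ψ : ℤ_[2] → A) : bar (bar ψ) = ψ := funext fun a => by simp [bar]

theorem t_UB : UB := by
  intro D E A _ _ _ _ A' _ _ _ _ φ ι π ψ j m e a b h h' hφ c c' hab hm k1 k2 M M' f1 f2 s1 s2
  have r1 := (t_KAP D E A ι ψ h).2
  have r2 := (t_KAP D E A _ _ h.dual).2
  have hh := cs_mem.2 D.hD
  have ex : ∀ (κ : GS → A) a, π ^ (j + m - a - 1) * κ (cs D.h) ≠ 0 → ∃ α β, α ≤ β ∧ β ≤ a ∧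
      π ^ (j + m - β) • lp D κ = 0 ∧ π ^ (j + m - β - 1) • lp D κ ≠ 0 ∧
      π ^ (j + m - α) • κ = 0 ∧ π ^ (j + m - α - 1) • κ ≠ 0 := fun κ a k => by
    obtain ⟨β, b1, b2, b3⟩ := THB.ex_min c.nil (lp D κ) a fun e => k (lp_in κ hh ▸ congrFun e _)
    obtain ⟨α, a1, a2⟩ := THB.ex_min c.nil κ β fun e => b3 (by rw [← map_smul, e, map_zero])
    exact ⟨α, β, a1, b1, b2, b3, a2⟩
  obtain ⟨α, β, a1, a2, a3, a4, a5, a6⟩ := ex _ a k1
  obtain ⟨α', β', b1, b2, b3, b4, b5, b6⟩ := ex _ b k2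
  have key := fun R => half (R := R) E h h' hφ c c' r1 r2 a2 b1 (by omega) hm k1 a3 b5 b4
  have q2 := half E h.dual (cf_dual h') hφ c c' r2 (by rwa [neg_neg, bar_bar]) b2 a1 (by omega) hm
    k2 b3 a5 a4 (str_le E h.dual (cf_dual h') c c' (by omega) (α := α) (by omega)
      (by rwa [neg_neg, bar_bar])) M' f2 (by rwa [map_neg])
  have q1 := key _ (str_le E h h' c c' (by omega) (α := α') (by omega) b6) M f1 s1
  simp only [mul_add] at q1 q2 ⊢
  refine ⟨by omega, fun h3 h4 => ?_⟩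
  have q3 := key 0 (fun N _ hN => ?_) M f1 s1
  · have h5 : 1 ≤ α' := Nat.pos_of_ne_zero fun e => b6 (by rwa [e, Nat.sub_zero])
    have h6 := Nat.mul_le_mul_left e h5
    simp only [mul_add] at q3
    omega
  have z : ∀ i, ∀ x ∈ N, φ π ^ i • x = 0 → x = 0 := fun i => by
    induction i with
    | zero => exact fun x _ e => by simpa using e
    | succ i ih => exact fun x hx e => ih x hx (h3 _ (hN _ (N.smul_mem _ hx)) (by
        rwa [smul_smul, ← pow_succ']))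
  obtain rfl : N = ⊥ := (Submodule.eq_bot_iff _).2 fun x hx => z j x hx (by rw [c'.nil, zero_smul])
  exact Module.finrank_zero_of_subsingleton.le

end Pool.Agent.P.MP_8b7eba_nt.CG
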