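import Pool.Agent.P.MP_8b7eba_nt.R2.AllL

/-! The cyclotomic tower over the Gaussian numbers: basic facts. -/

namespace Pool.Agent.P.MP_8b7eba_nt.CG.K

open R2

noncomputable section

/-- the cyclotomic logarithm -/
def la (g : GQ) : ℤ_[2] := lg (cyc g)

/-- the Galois group of the cyclotomic field of conductor `2 ^ (k + 2)` -/
def KC (k : ℕ) : Subgroup GQ := KP k ⊓ MulAction.stabilizer GQ (rt (-1))

/-- the Galois group of the top of the tower -/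
def KJ : Subgroup GQ := ⨅ k, KC k

end

variable {g h s γ : GQ} {k m : ℕ} {w : Pl} {H H' : Subgroup GQ} {χ χ' : GQ → ZMod 2}

theorem la_mul (g h : GQ) : la (g * h) = la g + la h := by
  rw [la, a_EC.2.1, a_LG.1.mul, la, la]

theorem la_one : la 1 = 0 := by simpa using la_mul 1 1

theorem la_inv (g : GQ) : la g⁻¹ = -la g := by
  have := la_mul g g⁻¹
  rw [mul_inv_cancel, la_one] at this
  linear_combination -this

theorem la_pow (g : GQ) (m : ℕ) : la (g ^ m) = m * la g := by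
  induction m with
  | zero => rw [pow_zero, la_one, Nat.cast_zero, zero_mul]
  | succ m ih => rw [pow_succ, la_mul, ih]; push_cast; ring

theorem la_conj (s g : GQ) : la (s * g * s⁻¹) = la g := by
  rw [la_mul, la_mul, la_inv]; ring

theorem la_of_cyc (h : cyc g = 1) : la g = 0 := by rw [la, h, TABHN.lg_one a_LG.1]

theorem mem_KP : g ∈ KP k ↔ 2 ^ k ∣ la g := (a_LG.2.2.2.1 k).2.2.2.2.1 g

theorem on_KP (k : ℕ) : ON (KP k) := (a_LG.2.2.2.1 k).2.2.2.1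

theorem Ps_eq_zero : Ps k g = 0 ↔ g ∈ KP k := by
  simpa using ((a_LG.2.2.2.1 k).2.2.1 g).symm

theorem Ps_mul (k : ℕ) (g h : GQ) : Ps k (g * h) = Ps k g + Ps k h :=
  (a_LG.2.2.2.1 k).1.2 g trivial h trivial

theorem KP_le (h : m ≤ k) : KP k ≤ KP m :=
  fun _ hg => mem_KP.2 ((pow_dvd_pow 2 h).trans (mem_KP.1 hg))

theorem mem_KC : g ∈ KC k ↔ 2 ^ k ∣ la g ∧ g (rt (-1)) = rt (-1) := and_congr mem_KP Iff.rfl

theorem mem_KC0 : g ∈ KC 0 ↔ g (rt (-1)) = rt (-1) := mem_KC.trans (and_iff_right (by simp))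

theorem mem_KC0' : g ∈ KC 0 ↔ qz (-1) g = 0 := mem_KC0.trans (qz_eq_zero (rt_sq _)).symm

theorem mem_KC' : g ∈ KC k ↔ 2 ^ (k + 2) ∣ (cyc g : ℤ_[2]) - 1 := by
  have h4 : (4 : ℤ_[2]) ∣ 2 ^ (k + 2) := LA.c4 ▸ pow_dvd_pow 2 (Nat.le_add_left 2 k)
  rw [mem_KC, la, a_LG.1.dvd, ← qz_eq_zero (rt_sq _), qz_neg_one a_EC]
  refine ⟨fun h => h.1.resolve_right fun e => ?_, fun h => ⟨Or.inl h, h4.trans h⟩⟩
  have h1 := dvd_sub (h4.trans e) h.2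
  rw [show (cyc g : ℤ_[2]) + 1 - (cyc g - 1) = ((2 : ℤ) : ℤ_[2]) by push_cast; ring, ← LA.c4] at h1
  have := (PadicInt.pow_p_dvd_int_iff (p := 2) 2 2).1 h1
  norm_num at this

theorem on_KC (k : ℕ) : ON (KC k) := by
  obtain ⟨N, hN, e⟩ := a_EC.2.2.2.2.1 (k + 2)
  rwa [show KC k = N from Subgroup.ext fun g => mem_KC'.trans (e g).symm]

theorem cl_KC (k : ℕ) : IsClosed (KC k : Set GQ) := closed_of_open (on_KC k).2

theorem KC_le (h : m ≤ k) : KC k ≤ KC m := inf_le_inf_right _ (KP_le h)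

theorem KC_le0 : KC k ≤ KC 0 := KC_le k.zero_le

theorem KJ_le (k : ℕ) : KJ ≤ KC k := iInf_le _ k

theorem eq_zero {a : ℤ_[2]} (h : ∀ k, 2 ^ k ∣ a) : a = 0 :=
  PadicInt.ext_of_toZModPow.1 fun k => by
    rw [map_zero, ← RingHom.mem_ker, PadicInt.ker_toZModPow, Ideal.mem_span_singleton]
    exact h k

theorem mem_KJ : g ∈ KJ ↔ la g = 0 ∧ g ∈ KC 0 := by
  rw [KJ, Subgroup.mem_iInf]
  exact ⟨fun h => ⟨eq_zero fun k => (mem_KC.1 (h k)).1, h 0⟩,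
    fun h k => mem_KC.2 ⟨by simp [h.1], h.2.2⟩⟩

theorem mem_KJ' : g ∈ KJ ↔ cyc g = 1 := by
  rw [KJ, Subgroup.mem_iInf]
  exact ⟨fun h => Units.ext (sub_eq_zero.1 (eq_zero fun k =>
    (pow_dvd_pow 2 (Nat.le_add_right k 2)).trans (mem_KC'.1 (h k)))),
    fun h k => mem_KC'.2 (by simp [h])⟩

theorem conj_KC (s : GQ) (hg : g ∈ KC k) : s * g * s⁻¹ ∈ KC k := (on_KC k).1.conj_mem g hg s

theorem conj_KJ (s : GQ) (hg : g ∈ KJ) : s * g * s⁻¹ ∈ KJ :=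
  Subgroup.mem_iInf.2 fun k => conj_KC s (KJ_le k hg)

theorem normal_KJ : KJ.Normal := ⟨fun _ h s => conj_KJ s h⟩

theorem div_KJ (hg : g ∈ KC 0) (hs : s ∈ KC 0) (e : la g = la s) : g * s⁻¹ ∈ KJ :=
  mem_KJ.2 ⟨by rw [la_mul, la_inv, e, add_neg_cancel], mul_mem hg (inv_mem hs)⟩

theorem I_le (hw : w.p ≠ 2) : w.I ≤ KJ := fun g hg => mem_KJ'.2 (a_EC.2.2.2.2.2.2.1 w hw g hg)

theorem IK (hw : w.p ≠ 2) (k : ℕ) : w.I ≤ KC k := (I_le hw).trans (KJ_le k)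

theorem conj_I (s : GQ) (hg : g ∈ w.I) : s * g * s⁻¹ ∈ (s • w).I :=
  Pl.mem_I_smul.2 (by simpa [mul_assoc] using hg)

theorem tau_not (s : GQ) : s * tau * s⁻¹ ∉ KC k := fun h => by
  have := (qz_tau a_TAU (by norm_num)).1 ((qz_conj _ _ _).symm.trans (mem_KC0'.1 (KC_le0 h)))
  omega

theorem tc_KC (k : ℕ) : TC (KC k) := tau_not

theorem mul_KC0 (hg : g ∉ KC 0) (hh : h ∉ KC 0) : g * h ∈ KC 0 := by
  rw [mem_KC0'] at *
  rw [(isCh_qz (H := ⊤) (-1)).2 g trivial h trivial, (LA.cases _).resolve_left hg,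
    (LA.cases _).resolve_left hh]
  rfl

theorem surj (hw : w.p = 2) (a : ℤ_[2]) : ∃ s ∈ w.I ⊓ KC 0, la s = a := by
  obtain ⟨u, h1, h2⟩ := a_LG.2.2.1 a
  obtain ⟨s, hs, rfl⟩ := a_EC2 w hw u
  refine ⟨s, ⟨hs, mem_KC'.2 (by_contra fun h => ?_)⟩, h1⟩
  rw [ep, if_neg (by simpa [LA.c4] using h)] at h2
  exact one_ne_zero h2

theorem surjI (hw : w.p = 2) (g : GQ) : ∃ s ∈ w.I, g * s⁻¹ ∈ KJ := by
  obtain ⟨s, hs, e⟩ := a_EC2 w hw (cyc g)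
  refine ⟨s, hs, mem_KJ'.2 ?_⟩
  have := a_EC.2.1 (g * s⁻¹) s
  rwa [inv_mul_cancel_right, e, right_eq_mul] at this

theorem small {N : Subgroup GQ} (hN : ON N) : ∃ m, ∀ g ∈ KC m, ∃ s ∈ N, g * s⁻¹ ∈ KJ := by
  have := hN.1
  obtain ⟨w, hw⟩ := a_PL.1 2 Nat.prime_two
  have h0 : (N.index : ℤ_[2]) ≠ 0 := Nat.cast_ne_zero.2 (Basic.fi hN.2).index_ne_zero
  refine ⟨(N.index : ℤ_[2]).valuation, fun g hg => ?_⟩
  obtain ⟨b, hb⟩ : (N.index : ℤ_[2]) ∣ la g := by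
    rw [PadicInt.unitCoeff_spec h0]
    exact Units.mul_left_dvd.2 (mem_KC.1 hg).1
  obtain ⟨s, h1, h2⟩ := surj hw b
  exact ⟨s ^ N.index, N.pow_index_mem s,
    div_KJ (KC_le0 hg) (pow_mem h1.2 _) (by rw [la_pow, h2, hb])⟩

theorem Ps_pow (hγ : la γ = 1) (k m : ℕ) : Ps k (γ ^ m) = m := by
  rw [show Ps k (γ ^ m) = PadicInt.toZModPow k (la (γ ^ m)) from rfl, la_pow, hγ, mul_one,
    map_natCast]

theorem pow_mem_KC (h0 : γ ∈ KC 0) (hγ : la γ = 1) : γ ^ m ∈ KC k ↔ 2 ^ k ∣ m := by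
  rw [← ZMod.natCast_eq_zero_iff, ← Ps_pow hγ, Ps_eq_zero]
  exact and_iff_left (pow_mem h0 m).2

theorem dec (h0 : γ ∈ KC 0) (hγ : la γ = 1) (k : ℕ) (hg : g ∈ KC 0) :
    g * (γ ^ (Ps k g).val)⁻¹ ∈ KC k := by
  have := Ps_mul k (g * (γ ^ (Ps k g).val)⁻¹) (γ ^ (Ps k g).val)
  rw [inv_mul_cancel_right, Ps_pow hγ, ZMod.natCast_zmod_val, right_eq_add] at this
  exact ⟨Ps_eq_zero.1 this, (mul_mem hg (inv_mem (pow_mem h0 _))).2⟩

theorem pow_not (h0 : γ ∈ KC 0) (hγ : la γ = 1) (k : ℕ) : γ ^ 2 ^ k ∉ KC (k + 1) := fun e =>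
  (Nat.pow_lt_pow_right one_lt_two k.lt_succ_self).not_ge
    (Nat.le_of_dvd (by positivity) ((pow_mem_KC h0 hγ).1 e))

theorem mul_succ (hg : g ∈ KC k) (hh : h ∈ KC k) (hg' : g ∉ KC (k + 1)) (hh' : h ∉ KC (k + 1)) :
    g * h ∈ KC (k + 1) := by
  refine mem_KC.2 ⟨?_, (mul_mem hg hh).2⟩
  have key : ∀ g ∈ KC k, g ∉ KC (k + 1) → 2 ^ (k + 1) ∣ la g - 2 ^ k := fun g hg hg' => by
    obtain ⟨c, hc⟩ := (mem_KC.1 hg).1
    have h1 : ¬ (2 : ℤ_[2]) ∣ c := fun e => hg' (mem_KC.2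
      ⟨by rw [hc, pow_succ]; exact mul_dvd_mul_left _ e, hg.2⟩)
    rw [hc, pow_succ, ← mul_sub_one]
    refine mul_dvd_mul_left _ ?_
    have h2 : ∀ a : ℤ_[2], (2 : ℤ_[2]) ∣ a ↔ PadicInt.toZMod a = 0 := fun a => by
      rw [← RingHom.mem_ker, PadicInt.ker_toZMod, PadicInt.maximalIdeal_eq_span_p,
        Ideal.mem_span_singleton]
      rfl
    rw [h2] at h1 ⊢
    rw [map_sub, map_one, (LA.cases _).resolve_left h1, sub_self]
  rw [la_mul, show la g + la h = la g - 2 ^ k + (la h - 2 ^ k) + 2 ^ (k + 1) by ring]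
  exact ((key g hg hg').add (key h hh hh')).add dvd_rfl

theorem rel_two (hs : s ∈ H) (hs' : s ∉ H')
    (h : ∀ g ∈ H, ∀ k ∈ H, g ∉ H' → k ∉ H' → g * k ∈ H') : H'.relIndex H = 2 :=
  Subgroup.index_eq_two_iff.2 ⟨⟨s, hs⟩, fun b => by
    by_cases hb : (b : GQ) ∈ H'
    · exact Or.inr ⟨hb, fun e => hs' ((H'.mul_mem_cancel_left hb).1 e)⟩
    · exact Or.inl ⟨h b b.2 s hs hb hs', hb⟩⟩

theorem index_KC (k : ℕ) : (KC k).index = 2 ^ (k + 1) := by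
  induction k with
  | zero =>
    rw [← Subgroup.relIndex_top_right]
    exact rel_two (s := tau) trivial (by simpa using tau_not 1) fun g _ k _ => mul_KC0
  | succ k ih =>
    obtain ⟨w, hw⟩ := a_PL.1 2 Nat.prime_two
    obtain ⟨γ, h0, hγ⟩ := surj hw 1
    rw [← Subgroup.relIndex_mul_index (KC_le k.le_succ), ih,
      rel_two ((pow_mem_KC h0.2 hγ).2 dvd_rfl) (pow_not h0.2 hγ k)
        fun g hg k hk => mul_succ hg hk, ← pow_succ']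

/-! ### Quadratic characters -/

theorem exists_qc (hH : IsClosed (H : Set GQ)) (h : IsCh H χ) :
    ∃ β : Om, β ≠ 0 ∧ Fix H (β ^ 2) ∧ ∀ g ∈ H, χ g = qc β g := by
  by_cases h0 : ∀ g ∈ H, χ g = 0
  · exact ⟨1, one_ne_zero, by simpa using fix_one, fun g hg => by simp [h0 g hg, qc]⟩
  push Not at h0
  obtain ⟨g₀, hg₀, h1⟩ := h0
  obtain ⟨V, hV, hk⟩ := h.exists_ker
  have h2 : V.relIndex H = 2 := by
    rw [← Subgroup.inf_relIndex_left, hk.relIndex h,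
      Set.eq_univ_of_forall (s := χ '' H) fun a => ?_, Set.ncard_univ, Nat.card_zmod]
    rcases LA.cases a with rfl | rfl
    exacts [⟨1, H.one_mem, h.one⟩, ⟨g₀, hg₀, (LA.cases _).resolve_left h1⟩]
  obtain ⟨β, b0, bf, hb⟩ := (a_GAL H hH).2.2.2.1 V hV h2
  refine ⟨β, b0, bf, fun g hg => LA.ext ⟨fun e => if_pos ((hb g hg).1 ((hk g).2 ⟨hg, e⟩).2),
    fun e => by_contra fun h3 => ?_⟩⟩
  rw [qc, if_neg fun e' => b0 (self_eq_neg.1
    (e'.symm.trans ((hb g hg).2 fun h4 => h3 ((hk g).1 ⟨hg, h4⟩).2)))] at e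
  exact one_ne_zero e

theorem qc_eq_zero {β : Om} : qc β g = 0 ↔ g β = β := by simp [qc]

theorem isCh_qc (hH : IsClosed (H : Set GQ)) {β : Om} (h0 : β ≠ 0) (h : Fix H (β ^ 2)) :
    IsCh H (qc β) := (a_SYM H _ β hH h0 h (isKer_qc H β)).1

theorem qc_mul {β β' : Om} (h0 : β ≠ 0) (h0' : β' ≠ 0) (h : g (β ^ 2) = β ^ 2)
    (h' : g (β' ^ 2) = β' ^ 2) : qc (β * β') g = qc β g + qc β' g := by
  rw [map_pow, sq_eq_sq_iff_eq_or_eq_neg] at h h'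
  have n : ∀ {x : Om}, x ≠ 0 → ¬ -x = x := fun hx e => hx (neg_eq_self.1 e)
  rcases h with h | h <;> rcases h' with h' | h' <;>
    simp [qc, h, h', n h0, n h0', n (mul_ne_zero h0 h0'), LC.two]

theorem ev_iff (hw : w.p ≠ 2) {β : Om} (h0 : β ≠ 0) (h : Fix (KC k) (β ^ 2)) :
    w.Ev (w.D ⊓ KC k) (β ^ 2) ↔ Fix w.I β :=
  ⟨fun e => (TZONE.fix_of_ev a_CA (on_KC k).2 hw h0 h e).mono (le_inf le_rfl (IK hw k)),
    fun e => TZONE.ev_of_fix a_CA (on_KC k).2 h0 (e.mono inf_le_left)⟩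

theorem ch_conj (h : IsCh H χ) (hs : s ∈ H) (hg : g ∈ H) : χ (s * g * s⁻¹) = χ g := by
  rw [h.2 _ (mul_mem hs hg) _ (inv_mem hs), h.2 _ hs _ hg, h.inv hs]
  ring

theorem ch_add (h : IsCh H χ) (h' : IsCh H χ') (c : ZMod 2) : IsCh H fun g => χ g + c * χ' g :=
  ⟨h.1.comp₂ h'.1 fun a b => a + c * b, fun g hg k hk => by
    beta_reduce
    rw [h.2 g hg k hk, h'.2 g hg k hk]
    ring⟩

theorem ch_cj (hH : H.Normal) (h : IsCh H χ) (s : GQ) : IsCh H fun g => χ (s * g * s⁻¹) := by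
  obtain ⟨N, hN, e⟩ := h.1
  have k : ∀ g k : GQ, s * (g * k) * s⁻¹ = s * g * s⁻¹ * (s * k * s⁻¹) := fun g k => by group
  exact ⟨⟨N, hN, fun g hg n hn m => by
    beta_reduce
    rw [k, e _ (hH.conj_mem g hg s) _ (hH.conj_mem n hn s) (hN.1.conj_mem n m s)]⟩,
    fun g hg n hn => by
      beta_reduce
      rw [k, h.2 _ (hH.conj_mem g hg s) _ (hH.conj_mem n hn s)]⟩

/-- a generator of tame inertia -/
theorem exists_t (hw : w.p ≠ 2) : ∃ t ∈ w.I, qz w.p t = 1 ∧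
    ∀ χ : GQ → ZMod 2, IsCh w.I χ → ∀ j ∈ w.I, χ j = χ t * qz w.p j := by
  obtain ⟨t, ht, hβ⟩ := Pl.exists_gen a_TAME a_RES hw
  refine ⟨t, ht, (qz_eq_one (rt_sq _)).2 fun e => ?_, fun χ h => ch_tame a_CA hw h ht hβ⟩
  rw [hβ _ (by rw [rt_sq]; push_cast; rfl)] at e
  exact LC.rt_ne (by exact_mod_cast w.prime.ne_zero) (neg_eq_self.1 e)

/-- extension of an invariant character from a subgroup of index two -/
theorem ext_two (hH : ON H') (hs : s ∈ H) (hs' : s ∉ H')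
    (h2 : ∀ g ∈ H, ∀ k ∈ H, g ∉ H' → k ∉ H' → g * k ∈ H') (h : IsCh H' χ)
    (inv : ∀ g ∈ H', χ (s * g * s⁻¹) = χ g) (sq : χ (s * s) = 0) :
    ∃ χ' : GQ → ZMod 2, IsCh H χ' ∧ ∀ g ∈ H', χ' g = χ g := by
  classical
  have m : ∀ g ∈ H, g ∉ H' → g * s⁻¹ ∈ H' := fun g hg hg' =>
    h2 g hg _ (inv_mem hs) hg' (by simpa using hs')
  have add : ∀ g ∈ H, ∀ k ∈ H, (if g * k ∈ H' then χ (g * k) else χ (g * k * s⁻¹)) =
      (if g ∈ H' then χ g else χ (g * s⁻¹)) + if k ∈ H' then χ k else χ (k * s⁻¹) := by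
    intro g hg k hk
    by_cases a : g ∈ H' <;> by_cases b : k ∈ H'
    · rw [if_pos a, if_pos b, if_pos (mul_mem a b), h.2 g a k b]
    · rw [if_pos a, if_neg b, if_neg fun e => b ((H'.mul_mem_cancel_left a).1 e), mul_assoc,
        h.2 g a _ (m k hk b)]
    · rw [if_neg a, if_pos b, if_neg fun e => a ((H'.mul_mem_cancel_right b).1 e), ← inv k b,
        ← h.2 _ (m g hg a) _ (hH.1.conj_mem k b s)]
      congr 1
      group
    · have c := hH.1.conj_mem _ (m k hk b) s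
      rw [if_neg a, if_neg b, if_pos (h2 g hg k hk a b), ← inv _ (m k hk b),
        ← h.2 _ (m g hg a) _ c, ← add_zero (χ (_ * (s * _ * _))), ← sq,
        ← h.2 _ (mul_mem (m g hg a) c) _ (h2 s hs s hs hs' hs')]
      congr 1
      group
  obtain ⟨N, hN, e⟩ := h.1
  refine ⟨fun g => if g ∈ H' then χ g else χ (g * s⁻¹), ⟨⟨_, hN.inf hH, fun g hg n hn m => ?_⟩,
    add⟩, fun g hg => if_pos hg⟩
  have := e 1 (one_mem _) n m.2 m.1
  rw [one_mul, h.one] at this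
  beta_reduce
  rw [add g hg n hn, if_pos (show n ∈ H' from m.2), this, add_zero]

/-- extension of a character from the top of the tower to a layer -/
theorem ext_top (h1 : IsCh KJ χ) : ∃ m, ∃ χ' : GQ → ZMod 2, IsCh (KC m) χ' ∧ ∀ g ∈ KJ, χ' g = χ g := by
  obtain ⟨N, hN, h5⟩ := h1.1
  obtain ⟨m, hm⟩ := small hN
  choose! t ht h0 using hm
  have key : ∀ g ∈ KC m, ∀ s ∈ N, g * s⁻¹ ∈ KJ → χ (g * (t g)⁻¹) = χ (g * s⁻¹) :=
    fun g hg s hs h => by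
      have e : g * (t g)⁻¹ = g * s⁻¹ * (s * (t g)⁻¹) := by group
      rw [e, h5 _ h _ (KJ.mul_mem_cancel_left h |>.1 (e ▸ h0 g hg)) (mul_mem hs (inv_mem (ht g hg)))]
  have add : ∀ g ∈ KC m, ∀ k ∈ KC m,
      χ (g * k * (t (g * k))⁻¹) = χ (g * (t g)⁻¹) + χ (k * (t k)⁻¹) := fun g hg k hk => by
    have e : g * k * (t g * t k)⁻¹ = g * (t g)⁻¹ * (t g * (k * (t k)⁻¹) * (t g)⁻¹) := by group
    have e' : t g * (k * (t k)⁻¹) * (t g)⁻¹ =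
      k * (t k)⁻¹ * ((k * (t k)⁻¹)⁻¹ * t g * (k * (t k)⁻¹) * (t g)⁻¹) := by group
    have m1 := conj_KJ (t g) (h0 k hk)
    rw [key _ (mul_mem hg hk) _ (mul_mem (ht g hg) (ht k hk)) (e ▸ mul_mem (h0 g hg) m1), e,
      h1.2 _ (h0 g hg) _ m1, e', h5 _ (h0 k hk) _
        (KJ.mul_mem_cancel_left (h0 k hk) |>.1 (e' ▸ m1))
        (mul_mem (hN.1.conj_mem' _ (ht g hg) _) (inv_mem (ht g hg)))]
  refine ⟨m, fun g => χ (g * (t g)⁻¹), ⟨⟨N, hN, fun g hg k hk m => ?_⟩, add⟩, fun g hg => ?_⟩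
  · have := h5 1 (one_mem _) _ (h0 k hk) (mul_mem m (inv_mem (ht k hk)))
    rw [one_mul, h1.one] at this
    beta_reduce
    rw [add g hg k hk, this, add_zero]
  · beta_reduce
    rw [key g (KJ_le m hg) 1 (one_mem _) (by simpa using hg), inv_one, mul_one]

end Pool.Agent.P.MP_8b7eba_nt.CG.K
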