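import Pool.Agent.P.MP_8b7eba_nt.CG.KA

/-! Quadratic characters of the layers which are unramified at the odd places. -/

namespace Pool.Agent.P.MP_8b7eba_nt.CG.K

open R2

/-- the two elements -/
structure GF (γ f : GQ) : Prop where
  gc : (cyc γ : ℤ_[2]) = 5
  fc : cyc f = 1
  fb : ∀ β : Om, β ^ 2 = 1 + rt (-1) → f β = -β

/-- the conjugates of the second element -/
noncomputable def fn (γ f : GQ) (n : ℕ) : GQ := γ ^ n * f * (γ ^ n)⁻¹

/-- characters which are unramified at the odd places -/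
def Ch0 (H : Subgroup GQ) (χ : GQ → ZMod 2) : Prop :=
  IsCh H χ ∧ ∀ w : Pl, w.p ≠ 2 → ∀ j ∈ w.I, χ j = 0

/-- units away from two -/
def U2 (U : Subgroup GQ) (x : Om) : Prop := Fix U x ∧ x ≠ 0 ∧ ∀ w : Pl, w.p ≠ 2 → w.v x = 1

variable {g s γ f : GQ} {k n : ℕ} {w : Pl} {H : Subgroup GQ} {χ χ' : GQ → ZMod 2} {β : Om}

theorem GF.g0 (h : GF γ f) : γ ∈ KC 0 := mem_KC'.2 (by rw [h.gc]; exact ⟨1, by norm_num⟩)

theorem GF.la (h : GF γ f) : la γ = 1 := a_LG.1.five _ h.gc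

theorem GF.mem (h : GF γ f) (n : ℕ) : fn γ f n ∈ KJ := conj_KJ _ (mem_KJ'.2 h.fc)

theorem GF.pw (h : GF γ f) (k : ℕ) : γ ^ 2 ^ k ∈ KC k := (pow_mem_KC h.g0 h.la).2 dvd_rfl

theorem fn_add (m n : ℕ) : fn γ f (m + n) = γ ^ m * fn γ f n * (γ ^ m)⁻¹ := by
  rw [fn, fn, pow_add]
  group

theorem Ch0.add (h : Ch0 H χ) (h' : Ch0 H χ') (c : ZMod 2) : Ch0 H fun g => χ g + c * χ' g :=
  ⟨ch_add h.1 h'.1 c, fun w hw j hj => by simp [h.2 w hw j hj, h'.2 w hw j hj]⟩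

theorem Ch0.cj (hH : H.Normal) (h : Ch0 H χ) (s : GQ) : Ch0 H fun g => χ (s * g * s⁻¹) :=
  ⟨ch_cj hH h.1 s, fun w hw _ hj => h.2 (s • w) hw _ (conj_I s hj)⟩

theorem unit (hw : w.p ≠ 2) (h0 : β ≠ 0) (h : Fix (KC k) (β ^ 2)) (e : w.v (β ^ 2) = 1)
    {j : GQ} (hj : j ∈ w.I) : qc β j = 0 :=
  qc_eq_zero.2 ((ev_iff hw h0 h).1 ⟨1, fix_one, by rw [e]; simp⟩ j hj)

theorem U2.ch0 (h : U2 (KC k) (β ^ 2)) : β ≠ 0 ∧ Ch0 (KC k) (qc β) :=
  have h0 : β ≠ 0 := fun e => h.2.1 (by simp [e])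
  ⟨h0, isCh_qc (cl_KC k) h0 h.1, fun w hw _ hj => unit hw h0 h.1 (h.2.2 w hw) hj⟩

theorem four {m : ℤ} (hm : Squarefree m) (h : ∀ p : ℕ, p.Prime → (p : ℤ) ∣ m → p = 2) :
    m = 1 ∨ m = -1 * 1 ∨ m = 2 ∨ m = -1 * 2 := by
  have h0 : m.natAbs ≠ 0 := Int.natAbs_ne_zero.2 hm.ne_zero
  have h1 := Nat.eq_prime_pow_of_unique_prime_dvd h0 (p := 2)
    (fun hd e => h _ hd (Int.natCast_dvd.2 e))
  generalize m.natAbs.primeFactorsList.length = j at h1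
  match j, h1 with
  | 0, h1 => omega
  | 1, h1 => omega
  | j + 2, h1 =>
    have h2 : (2 : ℤ) * 2 ∣ m := by
      have : ((2 * 2 : ℕ) : ℤ) ∣ m := Int.natCast_dvd.2 ⟨2 ^ j, by rw [h1]; ring⟩
      simpa using this
    rcases Int.isUnit_iff.1 (hm 2 h2) with e | e <;> omega

theorem tau2 (g : GQ) : tau * (tau * g * tau⁻¹) * tau⁻¹ = g := by
  rw [show tau * (tau * g * tau⁻¹) * tau⁻¹ = tau * tau * g * (tau * tau)⁻¹ by group, a_TAU.2.1]
  group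

theorem down0 (h : Ch0 (KC 0) χ) (inv : ∀ g ∈ KC 0, χ (tau * g * tau⁻¹) = χ g) :
    ∃ c, ∀ g ∈ KC 0, χ g = c * qz 2 g := by
  obtain ⟨χ', h1, h2⟩ := ext_two (H := ⊤) (on_KC 0) trivial (by simpa using tau_not 1)
    (fun g _ k _ => mul_KC0) h.1 inv (by rw [a_TAU.2.1, h.1.one])
  obtain ⟨m, hm, rfl⟩ := exists_qz a_CA h1
  have h3 := four hm fun p hp hd => by_contra fun h3 => by
    obtain ⟨w, rfl⟩ := a_PL.1 p hp
    obtain ⟨s, hs, hβ⟩ := Pl.exists_gen a_TAME a_RES h3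
    exact (qz_gen a_CA h3 hs hβ hm).1 ((h2 s (IK h3 0 hs)).trans (h.2 w h3 s hs)) hd
  rcases h3 with rfl | rfl | rfl | rfl
  · exact ⟨0, fun g hg => by simp [← h2 g hg, qz_one]⟩
  · exact ⟨0, fun g hg => by simp [← h2 g hg, mem_KC0'.1 hg]⟩
  · exact ⟨1, fun g hg => by simp [← h2 g hg]⟩
  · exact ⟨1, fun g hg => by
      rw [← h2 g hg, qz_mul (by norm_num) (by norm_num), Pi.add_apply, mem_KC0'.1 hg]; simp⟩

theorem qz2 (hg : g ∈ KC 1) : qz 2 g = 0 :=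
  (qz_two a_EC).2 (Or.inl (by simpa [show (2 : ℤ_[2]) ^ 3 = 8 by norm_num] using mem_KC'.1 hg))

theorem base (H : GF γ f) (h : Ch0 (KC 0) χ) (h0 : χ f = 0) : ∀ g ∈ KC 1, χ g = 0 := by
  have n0 := (on_KC 0).1
  have ri : rt (-1) ^ 2 = -1 := by simpa using rt_sq (-1)
  obtain ⟨β, hβ⟩ := exists_root (1 + rt (-1)) two_ne_zero
  have b4 : (β ^ 2) ^ 4 = ((-4 : ℤ) : Om) := by
    rw [hβ]
    push_cast
    linear_combination (rt (-1) ^ 2 + 4 * rt (-1) + 5) * ri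
  have hu : U2 (KC 0) (β ^ 2) := ⟨hβ ▸ fix_one.add fun _ hg => hg.2, fun e => by
    rw [e] at b4
    norm_num at b4, fun w hw => (pow_eq_one_iff_of_nonneg zero_le four_ne_zero).1 (by
      rw [← map_pow, b4, Pl.v_int_eq_one]
      exact fun e => hw ((Nat.prime_dvd_prime_iff_eq w.prime Nat.prime_two).1
        (w.prime.dvd_of_dvd_pow (n := 2) (by exact_mod_cast dvd_neg.1 e))))⟩
  obtain ⟨b0, hη⟩ := hu.ch0
  have t1 : tau⁻¹ (rt (-1)) = -rt (-1) := (GrpA.pm (rt_sq _) _).resolve_left fun e =>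
    tau_not (k := 0) 1 (by simpa using inv_mem (mem_KC0.2 e))
  have t2 : (tau⁻¹ β) ^ 2 = 1 - rt (-1) := by rw [← map_pow, hβ, map_add, map_one, t1]; ring
  have e1 : ∀ g ∈ KC 0, qc β g + 1 * qc β (tau * g * tau⁻¹) = qz 2 g := fun g hg => by
    rw [← qc_eq_qz (δ := β * tau⁻¹ β) (by rw [mul_pow, hβ, t2]; push_cast; linear_combination -ri),
      qc_mul b0 ((_root_.map_ne_zero _).2 b0) (hu.1 g hg)
        (by rw [t2, map_sub, map_one, mem_KC0.1 hg]), one_mul]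
    refine congrArg _ (LA.ext ?_)
    rw [qc_eq_zero, qc_eq_zero, AlgEquiv.mul_apply, AlgEquiv.mul_apply]
    exact ⟨fun e => by rw [← BasicP.inv_apply tau (g _), e], fun e => by rw [e, BasicP.apply_inv]⟩
  obtain ⟨c, hc⟩ := down0 (h.add (h.cj n0 tau) 1) fun g _ => by rw [tau2]; ring
  obtain ⟨c', hc'⟩ := down0 (h.add hη c) fun g hg => by
    have h1 := hc g hg
    rw [← e1 g hg] at h1
    exact (by decide : ∀ c a a' b b' : ZMod 2, a + 1 * a' = c * (b + 1 * b') →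
      a' + c * b' = a + c * b) _ _ _ _ _ h1
  have f1 : f ∈ KC 1 := KJ_le 1 (mem_KJ'.2 H.fc)
  have h1 := hc' f (KC_le0 f1)
  rw [h0, qz2 f1, qc, if_neg fun e => b0 (self_eq_neg.1 (e.symm.trans (H.fb β hβ))), mul_zero,
    zero_add, mul_one] at h1
  intro g hg
  simpa [h1, qz2 hg] using hc' g (KC_le0 hg)

open Classical in
theorem ch_next (k : ℕ) : Ch0 (KC k) fun g => if g ∈ KC (k + 1) then 0 else 1 := by
  refine ⟨⟨⟨_, on_KC (k + 1), fun g _ n _ m => by simp only [Subgroup.mul_mem_cancel_right _ m]⟩,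
    fun g hg h hh => ?_⟩, fun w hw j hj => if_pos (IK hw _ hj)⟩
  by_cases a : g ∈ KC (k + 1) <;> by_cases b : h ∈ KC (k + 1)
  · simp [a, b, mul_mem a b]
  · simp [a, b, Subgroup.mul_mem_cancel_left _ a]
  · simp [a, b, Subgroup.mul_mem_cancel_right _ b]
  · simp [a, b, mul_succ hg hh a b, LC.two]

theorem inj (H : GF γ f) (k : ℕ) : ∀ χ, Ch0 (KC k) χ → (∀ n, χ (fn γ f n) = 0) →
    ∀ g ∈ KC (k + 1), χ g = 0 := by
  classical
  induction k with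
  | zero => exact fun χ h h0 => base H h (by simpa [fn] using h0 0)
  | succ k ih =>
    intro χ h h0 g hg
    have n1 := (on_KC (k + 1)).1
    have e2 : γ ^ 2 ^ k * γ ^ 2 ^ k = γ ^ 2 ^ (k + 1) := by rw [← pow_add, pow_succ, mul_two]
    have down : ∀ χ, Ch0 (KC (k + 1)) χ → (∀ n, χ (fn γ f n) = 0) →
        (∀ g ∈ KC (k + 1), χ (γ ^ 2 ^ k * g * (γ ^ 2 ^ k)⁻¹) = χ g) → χ (γ ^ 2 ^ (k + 1)) = 0 →
        ∀ g ∈ KC (k + 1), χ g = 0 := fun χ h h0 h1 h2 g hg => by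
      obtain ⟨χ', a, b⟩ := ext_two (on_KC (k + 1)) (H.pw k) (pow_not H.g0 H.la k)
        (fun g hg k hk => mul_succ hg hk) h.1 h1 (e2 ▸ h2)
      exact (b g hg).symm.trans (ih χ' ⟨a, fun w hw j hj => (b j (IK hw _ hj)).trans
        (h.2 w hw j hj)⟩ (fun n => (b _ (KJ_le _ (H.mem n))).trans (h0 n)) g hg)
    have h1 := down _ (h.add (h.cj n1 (γ ^ 2 ^ k)) 1) (fun n => by simp [← fn_add, h0])
      (fun g hg => by
        rw [show ∀ s : GQ, s * (s * g * s⁻¹) * s⁻¹ = s * s * g * (s * s)⁻¹ from fun s => by group,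
          e2, ch_conj h.1 (H.pw _) hg]
        ring) (by
        rw [← e2, show ∀ s : GQ, s * (s * s) * s⁻¹ = s * s from fun s => by group, one_mul]
        exact CharTwo.add_self_eq_zero _)
    have h2 := down _ (h.add (ch_next (k + 1)) (χ (γ ^ 2 ^ (k + 1))))
      (fun n => by simp [h0, KJ_le _ (H.mem n)]) (fun g hg => by
        have h3 := h1 g hg
        rw [one_mul, CharTwo.add_eq_zero] at h3
        have h4 : γ ^ 2 ^ k * g * (γ ^ 2 ^ k)⁻¹ ∈ KC (k + 1 + 1) ↔ g ∈ KC (k + 1 + 1) := by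
          rw [(on_KC _).1.mem_comm_iff, inv_mul_cancel_left]
        simp only [h4, ← h3]) (by
        rw [if_neg (pow_not H.g0 H.la _), mul_one]
        exact CharTwo.add_self_eq_zero _) g (KC_le (Nat.le_succ _) hg)
    simpa [hg] using h2

theorem injJ (H : GF γ f) (h : Ch0 KJ χ) (h0 : ∀ n, χ (fn γ f n) = 0) : ∀ g ∈ KJ, χ g = 0 := by
  obtain ⟨m, χ', a, b⟩ := ext_top h.1
  exact fun g hg => (b g hg).symm.trans (inj H m χ' ⟨a, fun w hw j hj => (b j (I_le hw hj)).trans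
    (h.2 w hw j hj)⟩ (fun n => (b _ (H.mem n)).trans (h0 n)) g (KJ_le _ hg))

theorem per (H : GF γ f) (h : IsCh (KC k) χ) (n : ℕ) : χ (fn γ f n) = χ (fn γ f (n % 2 ^ k)) := by
  conv_lhs => rw [← Nat.div_add_mod n (2 ^ k), fn_add]
  exact ch_conj h ((pow_mem_KC H.g0 H.la).2 (dvd_mul_right _ _)) (KJ_le k (H.mem _))

/-- the test elements -/
noncomputable def te (γ f : GQ) (k : ℕ) : Option (Fin (2 ^ k)) → GQ
  | none => γ ^ 2 ^ k
  | some j => fn γ f j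

theorem GF.te (H : GF γ f) (o : Option (Fin (2 ^ k))) : te γ f k o ∈ KC k := by
  cases o
  exacts [H.pw k, KJ_le k (H.mem _)]

theorem zero_of (H : GF γ f) (h : Ch0 (KC k) χ) (h0 : ∀ o, χ (te γ f k o) = 0) :
    ∀ g ∈ KC k, χ g = 0 := fun g hg => by
  have h1 := inj H k χ h fun n =>
    (per H h.1 n).trans (h0 (some ⟨_, Nat.mod_lt _ (Nat.two_pow_pos k)⟩))
  by_cases a : g ∈ KC (k + 1)
  · exact h1 g a
  · have h2 := h1 _ (mul_succ hg (H.pw k) a (pow_not H.g0 H.la k))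
    rwa [h.1.2 g hg _ (H.pw k), show χ (γ ^ 2 ^ k) = 0 from h0 none, add_zero] at h2

theorem qc_sq {β' : Om} (h : β ^ 2 = β' ^ 2) : qc β = qc β' := by
  rcases sq_eq_sq_iff_eq_or_eq_neg.1 h with rfl | rfl
  · rfl
  · exact funext fun g => LA.ext (by rw [qc_eq_zero, qc_eq_zero, map_neg, neg_inj])

theorem units (H : GF γ f) (k : ℕ) (ε : Option (Fin (2 ^ k)) → ZMod 2) :
    ∃ β, U2 (KC k) (β ^ 2) ∧ ∀ o, qc β (te γ f k o) = ε o := by
  obtain ⟨R, -, r2, -, -, r5⟩ := TLAY.orb a_CA (on_KC k).2 {2}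
  obtain ⟨w, hw⟩ := a_PL.1 2 Nat.prime_two
  have r6 : nOrb (KC k) R = 1 := by
    rw [r5, nOrb, Set.ncard_eq_one]
    refine ⟨MulAction.orbit (KC k) w, Set.eq_singleton_iff_unique_mem.2 ⟨⟨w, by simp [hw], rfl⟩, ?_⟩⟩
    rintro _ ⟨w', h, rfl⟩
    obtain ⟨σ, rfl⟩ := a_PL.2.1 w w' (hw.trans (Finset.mem_singleton.1 h).symm)
    obtain ⟨s, h1, h2⟩ := surjI hw σ
    exact TZONE.orb_eq.2 ⟨_, KJ_le k h2, by rw [mul_smul, show s⁻¹ • w = w from inv_mem h1.1]⟩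
  have s1 := (a_SUN _ R (on_KC k).2 (tc_KC k) R.finite_toSet).2.2
  rw [r6, index_KC, pow_succ 2 k, Nat.mul_div_cancel _ two_pos] at s1
  choose r hr using fun x : Om => exists_root x two_ne_zero
  have hu : ∀ u : SU (KC k) R, U2 (KC k) (r u.1 ^ 2) := fun u => hr _ ▸
    ⟨u.2.1, u.1.ne_zero, fun w hw => u.2.2 w ((r2 w).2 (by simpa using hw))⟩
  let φ : SU (KC k) R →* Multiplicative (Option (Fin (2 ^ k)) → ZMod 2) :=
    MonoidHom.mk' (fun u => .ofAdd fun o => qc (r u.1) (te γ f k o)) fun u v => by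
      rw [← ofAdd_add]
      refine congrArg _ (funext fun o => ?_)
      rw [Pi.add_apply, ← qc_mul (hu u).ch0.1 (hu v).ch0.1 ((hu u).1 _ (H.te o))
        ((hu v).1 _ (H.te o)), qc_sq (β' := r u.1 * r v.1) (by rw [mul_pow, hr, hr, hr]; rfl)]
  have hk : φ.ker = ((SU (KC k) R).map (powMonoidHom 2)).subgroupOf _ := by
    ext u
    refine ⟨fun h => ⟨Units.mk0 _ (hu u).ch0.1, ⟨fun g hg => qc_eq_zero.1 (zero_of H (hu u).ch0.2
      (fun o => congrFun (congrArg Multiplicative.toAdd h) o) g hg), fun w hw => TVN.v_one ?_⟩,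
      Units.ext (hr _)⟩, fun ⟨x, hx, e⟩ => congrArg Multiplicative.ofAdd (funext fun o => ?_)⟩
    · rw [Units.val_mk0, hr, u.2.2 w hw]
    · exact (congrFun (qc_sq ((hr _).trans (congrArg Units.val e).symm)) _).trans
        (qc_eq_zero.2 (hx.1 _ (H.te o)))
  have h1 : φ.range = ⊤ := Subgroup.eq_top_of_card_eq _ (by
    rw [← Subgroup.index_ker, hk]
    exact s1.trans (by simp))
  obtain ⟨u, e⟩ := MonoidHom.range_eq_top.1 h1 (.ofAdd ε)
  exact ⟨_, hu u, congrFun (congrArg Multiplicative.toAdd e)⟩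

/-- characters with prescribed values -/
theorem chi (H : GF γ f) (k : ℕ) (ε : ℕ → ZMod 2) (hε : ∀ n, ε n = ε (n % 2 ^ k)) (c : ZMod 2) :
    ∃ χ, Ch0 (KC k) χ ∧ (∀ n, χ (fn γ f n) = ε n) ∧ χ (γ ^ 2 ^ k) = c := by
  obtain ⟨β, h1, h2⟩ := units H k fun o => o.elim c fun j => ε j
  exact ⟨_, h1.ch0.2, fun n => (per H h1.ch0.2.1 n).trans
    ((h2 (some ⟨_, Nat.mod_lt _ (Nat.two_pow_pos k)⟩)).trans (hε n).symm), h2 none⟩

theorem even (H : GF γ f) {x : Om} (hx : Fix (KC k) x) (h0 : x ≠ 0)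
    (hw : ∀ w : Pl, w.p ≠ 2 → w.Ev (w.D ⊓ KC k) x) : ∃ u, U2 (KC k) u ∧ Sq (KC k) (u * x) := by
  obtain ⟨a, rfl⟩ := exists_root x two_ne_zero
  have a0 : a ≠ 0 := fun e => h0 (by simp [e])
  obtain ⟨β, h1, h2⟩ := units H k fun o => qc a (te γ f k o)
  have h3 : ∀ g ∈ KC k, qc β g + 1 * qc a g = 0 := zero_of H (h1.ch0.2.add
    ⟨isCh_qc (cl_KC k) a0 hx, fun w h j hj => qc_eq_zero.2 ((ev_iff h a0 hx).1 (hw w h) j hj)⟩ 1)
    fun o => by rw [h2, one_mul]; exact CharTwo.add_self_eq_zero _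
  exact ⟨_, h1, β * a, fun g hg => qc_eq_zero.1 (by
    rw [qc_mul h1.ch0.1 a0 (h1.1 g hg) (hx g hg), ← h3 g hg, one_mul]), (mul_pow _ _ _).symm⟩

/-- the class number is odd -/
theorem gen (H : GF γ f) (n : ℕ) (hw : w.p ≠ 2) : ∃ x, Fix (KC n) x ∧ x ≠ 0 ∧
    ¬ w.Ev (w.D ⊓ KC n) x ∧ ∀ w' : Pl, w'.p ≠ 2 → Out (KC n) {w} w' → w'.v x = 1 := by
  have hU := on_KC n
  obtain ⟨π, p0, p1, -⟩ := a_UNIF w _ hU.2
  obtain ⟨h, h0, hh⟩ := (a_CLS _ hU.2).1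
  obtain ⟨x, x1, x2, x3⟩ := hh w π p1
  replace x3 : ∀ w' : Pl, w'.p ≠ 2 → Out (KC n) {w} w' → w'.v x = 1 := fun w' _ => x3 w'
  clear hh
  induction h using Nat.strong_induction_on generalizing x with
  | _ h ih =>
    have x0 : x ≠ 0 := fun e => p1.2.1 (by
      rw [e, map_zero] at x2
      exact w.v.zero_iff.1 (pow_eq_zero_iff h0.ne' |>.1 x2.symm))
    obtain ⟨k, rfl | rfl⟩ := Nat.even_or_odd' h
    · obtain ⟨u, ⟨u1, u2, u3⟩, s, s1, s2⟩ := even H x1 x0 fun w' h' => by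
        by_cases ho : Out (KC n) {w} w'
        · exact ⟨1, fix_one, by rw [x3 w' h' ho, map_one, one_pow]⟩
        · simp only [Out, not_forall, Set.mem_singleton_iff, not_not] at ho
          obtain ⟨g, hg, rfl⟩ := ho
          refine ⟨π ^ k, (p0.pow k).mono inf_le_right, ?_⟩
          rw [← x1 g hg, ← p0 g hg, Pl.smul_v_apply, Pl.smul_v_apply] at x2
          rw [x2, map_pow, ← pow_mul, mul_comm]
      refine ih k (by omega) (by omega) s s1 ?_ fun w' h' ho =>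
        TVN.v_one (by rw [← s2, map_mul, u3 w' h', x3 w' h' ho, one_mul])
      refine (pow_left_inj₀ zero_le zero_le two_ne_zero).1 ?_
      rw [← map_pow, ← s2, map_mul, u3 w hw, one_mul, x2, ← pow_mul, mul_comm]
    · refine ⟨x, x1, x0, ?_, x3⟩
      rintro ⟨y, y1, y2⟩
      have y0 : y ≠ 0 := fun e => x0 (w.v.zero_iff.1 (by simp [y2, e]))
      obtain ⟨j, hj⟩ := p1.2.2.2 y y1 y0
      rw [x2, hj, ← zpow_natCast, ← zpow_natCast, ← zpow_mul] at y2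
      have := p1.zpow_inj y2
      omega

theorem isCh_sum {ι : Type} (s : Finset ι) (c : ι → ZMod 2) {χ : ι → GQ → ZMod 2}
    (h : ∀ i, IsCh H (χ i)) : IsCh H fun g => ∑ i ∈ s, c i * χ i g := by
  classical
  induction s using Finset.induction_on with
  | empty => exact ⟨by simpa using Sm.const 0, by simp⟩
  | insert a s ha ih => simpa only [Finset.sum_insert ha, add_comm] using ch_add ih (h a) (c a)

theorem one_place (H : GF γ f) (k : ℕ) (w₀ : Pl) : ∃ χ, IsCh (KC k) χ ∧ ∀ w : Pl, w.p ≠ 2 →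
    ∀ j ∈ w.I, (Out (KC k) {w₀} w → χ j = 0) ∧ ∀ u ∈ KC k, u • w = w₀ → χ j = qz w.p j := by
  by_cases h2 : w₀.p = 2
  · refine ⟨fun _ => 0, ⟨Sm.const 0, fun _ _ _ _ => (add_zero _).symm⟩, fun w hw j _ =>
      ⟨fun _ => rfl, ?_⟩⟩
    rintro u - rfl
    exact absurd h2 hw
  obtain ⟨x, hx, x0, xe, xv⟩ := gen H k h2
  obtain ⟨δ, rfl⟩ := exists_root x two_ne_zero
  have d0 : δ ≠ 0 := fun e => x0 (by simp [e])
  have hc := isCh_qc (cl_KC k) d0 hx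
  refine ⟨_, hc, fun w hw j hj => ⟨fun h => unit hw d0 hx (xv w hw h) hj, ?_⟩⟩
  rintro u hu rfl
  obtain ⟨t, -, -, ht⟩ := exists_t h2
  have h3 := ht _ (hc.mono (IK h2 k))
  have h4 : qc δ t = 1 := (LA.cases _).resolve_left fun e =>
    xe ((ev_iff h2 d0 hx).2 fun g hg => qc_eq_zero.1 (by rw [h3 g hg, e, zero_mul]))
  rw [← ch_conj hc hu (IK hw k hj), h3 _ (conj_I u hj), h4, one_mul, qz_conj, Pl.smul_p]

/-- characters with prescribed ramification -/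
theorem ram (H : GF γ f) (k : ℕ) (c : Pl → ZMod 2) (B : ℕ) (hc : ∀ u ∈ KC k, ∀ w, c (u • w) = c w)
    (hB : ∀ w : Pl, B < w.p → c w = 0) :
    ∃ χ, IsCh (KC k) χ ∧ ∀ w : Pl, w.p ≠ 2 → ∀ j ∈ w.I, χ j = c w * qz w.p j := by
  obtain ⟨R, hR, hP⟩ := (a_ORB _ (on_KC k).2).2.1 (Finset.range (B + 1))
  choose χ h1 h2 using one_place H k
  refine ⟨_, isCh_sum R c h1, fun w hw j hj => ?_⟩
  by_cases h : Out (KC k) R w
  · rw [hB w (by simpa using (hP w).1 h), zero_mul]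
    exact Finset.sum_eq_zero fun w' hw' => by
      rw [(h2 w' w hw j hj).1 (h.mono (by simpa using hw')), mul_zero]
  · obtain ⟨u, hu, h⟩ : ∃ u ∈ KC k, u • w ∈ R := by simpa [Out] using h
    rw [Finset.sum_eq_single_of_mem _ h fun w' hw' ne => ?_, (h2 _ w hw j hj).2 u hu rfl, hc u hu]
    rw [(h2 w' w hw j hj).1 fun u' hu' q => ?_, mul_zero]
    have q' : (u' * u⁻¹) • u • w = w' := by rw [smul_smul, inv_mul_cancel_right]; exact q
    exact ne (q'.symm.trans (hR _ h _ (mul_mem hu' (inv_mem hu)) (q' ▸ hw')))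

end Pool.Agent.P.MP_8b7eba_nt.CG.K
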