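import Pool.Agent.P.MP_8b7eba_nt.CG.KL
import Pool.Agent.P.MP_8b7eba_nt.QT.BasZ

/-! The lattice of the cocycles at the top of the tower. -/

namespace Pool.Agent.P.MP_8b7eba_nt.CG.K

open R2 QT Filter Polynomial

variable {g s γ f : GQ} {k n i : ℕ} {S : Finset ℕ} {ρ c : GQ → O} {U : Subgroup GQ}

theorem ar (hg : g ∈ KC 0) (a : O) : QT.ac ρ g a = ρ g * a := by rw [QT.ac, cj_of (mem_KC0'.1 hg)]

/-- the elements at which an approximate cocycle vanishes -/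
def zs (hρ : Cy ρ) (h : Zn ρ U i c) : Subgroup GQ where
  carrier := {g | g ∈ U ∧ Dv i (c g)}
  one_mem' := ⟨one_mem _, h.one hρ⟩
  mul_mem' := fun {g s} a b => ⟨mul_mem a.1 b.1,
    of_eq (((h.co g a.1 s b.1).add a.2).add (b.2.ac ρ g)) (by ring)⟩
  inv_mem' := fun {g} a => ⟨inv_mem a.1, (hρ.dv_ac (g := g)).1 (of_eq (((h.one hρ).sub a.2).sub
    (h.co g a.1 _ (inv_mem a.1))) (by rw [mul_inv_cancel]; ring))⟩

/-- approximate cocycles on a layer -/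
structure Zm (ρ : GQ → O) (γ f : GQ) (S : Finset ℕ) (k i : ℕ) (c : GQ → O) : Prop where
  zn : Zn ρ (KC k) i c
  unr : ∀ w, Gd S w → ∀ j ∈ w.I, Dv i (c j)
  ev : ∀ o, Dv i (c (te γ f k o))

theorem Zm.fn (h : Zm ρ γ f S k i c) (hρ : Cy ρ) (H : GF γ f) (n : ℕ) : Dv i (c (fn γ f n)) := by
  have a := pow_mem (show γ ^ 2 ^ k ∈ zs hρ h.zn from ⟨H.pw k, h.ev none⟩) (n / 2 ^ k)
  rw [← Nat.div_add_mod n (2 ^ k), fn_add, pow_mul]
  exact (mul_mem (mul_mem a ⟨KJ_le k (H.mem _),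
    h.ev (some ⟨_, Nat.mod_lt _ (Nat.two_pow_pos k)⟩)⟩) (inv_mem a)).2

theorem Zm.up (h : Zm ρ γ f S k i c) (hρ : Cy ρ) (H : GF γ f) :
    ∀ o, Dv i (c (te γ f (k + 1) o))
  | none => by
    have a := pow_mem (show γ ^ 2 ^ k ∈ zs hρ h.zn from ⟨H.pw k, h.ev none⟩) 2
    exact (pow_mul γ _ _ ▸ a).2
  | some j => h.fn hρ H j

theorem Zm.lift (h : Zm ρ γ f S k i c) (hρ : Cy ρ) (hu : ∀ w, Gd S w → ∀ j ∈ w.I, ρ j = 1)
    (H : GF γ f) (hB : ∀ w, ¬ Gd S w → Big k w) :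
    ∃ c', Zm ρ γ f S (k + 1) (i + 1) c' ∧ ∀ g, Dv i (c' g - c g) := by
  have k1 := h.zn.sm_lv
  have k3 := fun g => dv_lv i (c g)
  have k4 := (h.zn.congr fun g _ => k3 g).co
  have k5 : ∀ w, Gd S w → ∀ j ∈ w.I, lv i (c j) = 0 ∧ ∀ g ∈ KC k,
      lv i (c (g * j)) = lv i (c g) ∧ lv i (c (j * g)) = lv i (c g) := fun w hw j hj =>
    have a := h.unr w hw j hj
    have b := IK hw.1 k hj
    ⟨lv_zero a, fun g hg => ⟨lv_eq.2 (of_eq ((h.zn.co g hg j b).add (a.ac ρ g)) (by ring)),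
      lv_eq.2 (of_eq ((h.zn.co j b g hg).add a) (by rw [ar (KC_le0 b), hu w hw j hj]; ring))⟩⟩
  have k6 := fun o => lv_zero (h.up hρ H o)
  generalize hk : (fun g => lv i (c g)) = kk at k1
  simp only [congrFun hk] at k3 k4 k5 k6
  choose! u hu' using fun a => (dv_iff (n := i) (u := a)).1
  obtain ⟨o, ho⟩ : ∃ o : GQ → GQ → O, ∀ g ∈ KC k, ∀ s ∈ KC k,
      om ^ i * o g s = kk (g * s) - kk g - ρ g * kk s :=
    ⟨fun g s => u _, fun g hg s hs => ar (KC_le0 hg) (kk s) ▸ (hu' _ (k4 g hg s hs)).symm⟩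
  have m := fun g (hg : g ∈ KC k) s => hρ.co g s |>.trans (ar (KC_le0 hg) _)
  have z : ∀ g ∈ KC k, ∀ s ∈ KC k, kk (g * s) - kk g - ρ g * kk s = 0 → rd (o g s) = 0 :=
    fun g hg s hs e => by
      rw [← ho g hg s hs, mul_eq_zero_iff_left (pow_ne_zero _ om_ne)] at e
      rw [e, rd_zero]
  obtain ⟨θ, b1, b2⟩ := gtk H (fun g s => rd (o g s)) hB (co2_sgn.2 ⟨by
      obtain ⟨N, hN, a⟩ := k1.left
      obtain ⟨N', hN', a'⟩ := hρ.sm (i + 1)
      obtain ⟨N'', hN'', a''⟩ := k1.mul2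
      refine ⟨_, (hN.inf hN').inf hN'', fun g hg s hs j hj e => ?_⟩
      obtain ⟨p, q⟩ := a'' g hg s hs j hj e.2
      beta_reduce at p q ⊢
      refine ⟨rd_of (n := i) ?_, rd_of (n := i) ?_⟩
      · rw [ho _ (mul_mem hg hj) s hs, ho g hg s hs, p, (a g hg j hj e.1.1).1, m g hg]
        exact of_eq (((a' j e.1.2).mul_left (-ρ g)).mul_right (kk s)) (by ring)
      · rw [ho g hg _ (mul_mem hs hj), ho g hg s hs, q, (a s hs j hj e.1.1).1]
        exact dv_refl _, fun g hg s hs l hl => by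
      rw [← one_mul (rd (o s l)), ← hρ.rd g, ← rd_mul, ← rd_add, ← rd_add]
      refine congrArg rd (mul_left_cancel₀ (pow_ne_zero i om_ne) ?_)
      rw [mul_add, mul_add, mul_left_comm, ho s hs l hl, ho g hg _ (mul_mem hs hl),
        ho _ (mul_mem hg hs) l hl, ho g hg s hs, m g hg, mul_assoc g]
      ring⟩) fun w hw j hj g hg => by
    obtain ⟨p, q⟩ := k5 w hw j hj
    exact ⟨z g hg j (IK hw.1 k hj) (by simp [p, (q g hg).1]),
      z j (IK hw.1 k hj) g hg (by simp [p, (q g hg).2, hu w hw j hj])⟩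
  obtain ⟨β, d1, d2⟩ := units H (k + 1) fun o => θ (te γ f (k + 1) o)
  obtain ⟨-, d3, d4⟩ := d1.ch0
  have le : KC (k + 1) ≤ KC k := KC_le k.le_succ
  obtain ⟨N, hN, a⟩ := (k1.mono le).comp₂ (b1.1.comp₂ d3.1 (· + ·)) fun x y => x + om ^ i * lf y
  refine ⟨fun g => kk g + om ^ i * lf (θ g + qc β g), ⟨⟨⟨N, hN, fun g hg s hs e =>
    of_eq dv_zero (sub_eq_zero.2 (a g hg s hs e))⟩, fun g hg s hs => ?_⟩, fun w hw j hj => ?_,
    fun o => ?_⟩, fun g => of_eq ((k3 g).add (dv_om i _)) (add_sub_right_comm ..)⟩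
  · refine of_eq (dv_pow.2 (rd_eq_zero.1 (?_ : rd (o g s + lf (θ (g * s) + qc β (g * s)) -
      lf (θ g + qc β g) - ρ g * lf (θ s + qc β s)) = 0))) ?_
    · rw [rd_sub, rd_sub, rd_add, rd_mul, rd_lf, rd_lf, rd_lf, hρ.rd, b1.2 g hg s hs, d3.2 g hg s hs]
      exact (by decide : ∀ a b c d e : ZMod 2,
        a + (b + c + a + (d + e)) + (b + d) + 1 * (c + e) = 0) _ _ _ _ _
    · rw [ar (KC_le0 hg)]
      linear_combination -ho g (le hg) s (le hs)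
  · simp [(k5 w hw j hj).1, b2 w hw j hj, d4 w hw.1 j hj, lf_zero, dv_zero]
  · simp [k6, d2, CharTwo.add_self_eq_zero, lf_zero, dv_zero]

/-- cocycles at the top of the tower -/
structure XC (ρ : GQ → O) (γ f : GQ) (S : Finset ℕ) (c : GQ → O) : Prop where
  zn : ∀ n, Zn ρ KJ n c
  unr : ∀ w, Gd S w → ∀ j ∈ w.I, c j = 0
  ev : ∀ n, c (fn γ f n) = 0

theorem Zm.lim (h : Zm ρ γ f S k 1 c) (hρ : Cy ρ) (hu : ∀ w, Gd S w → ∀ j ∈ w.I, ρ j = 1)
    (H : GF γ f) (hB : ∀ w, ¬ Gd S w → Big k w) : ∃ x, XC ρ γ f S x ∧ ∀ g, rd (x g) = rd (c g) := by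
  choose! F h1 h2 using fun i c (h : Zm ρ γ f S (k + i) (1 + i) c) =>
    h.lift hρ hu H fun w hw n hn => hB w hw n ((Nat.le_add_right k i).trans hn)
  let u : ℕ → GQ → O := fun i => Nat.rec c F i
  have h3 : ∀ i, Zm ρ γ f S (k + i) (1 + i) (u i) := fun i => by
    induction i with
    | zero => exact h
    | succ i ih => exact h1 i _ ih
  have h4 : ∀ g i d, Dv (1 + i) (u (i + d) g - u i g) := fun g i d => by
    induction d with
    | zero => exact dv_refl _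
    | succ d ih => exact ((h2 _ _ (h3 (i + d)) g).mono (by omega)).trans ih
  choose x hx using fun g => exists_lim (hyperfilter ℕ) fun i => u i g
  have h5 : ∀ g i, Dv (1 + i) (x g - u i g) := fun g i => by
    obtain ⟨j, a, b⟩ := ((hx g (1 + i)).and
      (Nat.hyperfilter_le_atTop (eventually_ge_atTop i))).exists
    obtain ⟨d, rfl⟩ := Nat.exists_eq_add_of_le b
    exact a.symm.trans (h4 g i d)
  have h6 : ∀ g, (∀ i, Dv (1 + i) (u i g)) → x g = 0 := fun g a => eq_zero_of_dv fun i =>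
    (of_eq ((h5 g i).add (a i)) (sub_add_cancel _ _).symm).mono (Nat.le_add_left i 1)
  exact ⟨x, ⟨fun n => ((h3 n).zn.congr fun g _ => h5 g n).mono (KJ_le _) (Nat.le_add_left n 1),
    fun w hw j hj => h6 j fun i => (h3 i).unr w hw j hj, fun n => h6 _ fun i => (h3 i).fn hρ H n⟩,
    fun g => rd_eq.2 (h5 g 0)⟩

/-- the lattice -/
def LL (ρ : GQ → O) (γ f : GQ) (S : Finset ℕ) : Submodule O (GQ → O) where
  carrier := {c | XC ρ γ f S c}
  zero_mem' := ⟨fun _ => zn_zero, fun _ _ _ _ => rfl, fun _ => rfl⟩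
  add_mem' := fun a b => ⟨fun n => (a.zn n).add (b.zn n), fun w hw j hj => by
    simp [a.unr w hw j hj, b.unr w hw j hj], fun n => by simp [a.ev, b.ev]⟩
  smul_mem' := fun a c h => ⟨fun n => by
      obtain ⟨⟨N, hN, b⟩, d⟩ := h.zn n
      exact ⟨⟨N, hN, fun g hg s hs e => of_eq ((b g hg s hs e).mul_left a) (by simp [mul_sub])⟩,
        fun g hg s hs => of_eq ((d g hg s hs).mul_left a) (by
          simp only [ar (KJ_le 0 hg), Pi.smul_apply, smul_eq_mul]; ring)⟩,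
    fun w hw j hj => by simp [h.unr w hw j hj], fun n => by simp [h.ev]⟩

theorem rho_conj (hρ : Cy ρ) (hs : s ∈ KC 0) (hg : g ∈ KC 0) : ρ (s * g * s⁻¹) = ρ g := by
  rw [hρ.conj (mem_KC0'.1 hg), cj_of (mem_KC0'.1 hs)]

theorem XC.cj (h : XC ρ γ f S c) (hρ : Cy ρ) (H : GF γ f) :
    XC ρ γ f S fun g => c (γ * g * γ⁻¹) := by
  have e : ∀ g k, γ * (g * k) * γ⁻¹ = γ * g * γ⁻¹ * (γ * k * γ⁻¹) := fun g k => by group
  refine ⟨fun n => ?_, fun w hw j hj => h.unr (γ • w) hw _ (conj_I γ hj),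
    fun n => by simpa [fn_add] using h.ev (1 + n)⟩
  obtain ⟨⟨N, hN, b⟩, d⟩ := h.zn n
  refine ⟨⟨N, hN, fun g hg s hs m => ?_⟩, fun g hg s hs => ?_⟩
  · rw [e]
    exact b _ (conj_KJ γ hg) _ (conj_KJ γ hs) (hN.1.conj_mem s m γ)
  · have := d _ (conj_KJ γ hg) _ (conj_KJ γ hs)
    rwa [ar (KJ_le 0 (conj_KJ γ hg)), rho_conj hρ H.g0 (KJ_le 0 hg), ← ar (KJ_le 0 hg), ← e] at this

/-- a basis of the lattice and the matrix of the generator -/
theorem basis (hρ : Cy ρ) (hu : ∀ w, Gd S w → ∀ j ∈ w.I, ρ j = 1) (H : GF γ f) (v : ℕ → ℕ)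
    (hS : ∀ p ∈ S, p.Prime ∧ p ≠ 2 ∧ ∀ u : ℤ_[2]ˣ, (u : ℤ_[2]) = p → (lg u).valuation = v p) :
    ∃ (σ : ℕ) (t : Fin σ → GQ) (e : Fin σ → GQ → O) (M : Matrix (Fin σ) (Fin σ) O),
      σ = ∑ p ∈ S, 2 ^ (v p + 1) ∧ (∀ i, t i ∈ KJ ∧ XC ρ γ f S (e i)) ∧
      (∀ i j, e i (t j) = if j = i then 1 else 0) ∧ M.charpoly.map rdH = X ^ σ ∧
      ∀ i, ∀ g ∈ KJ, e i (γ * g * γ⁻¹) = ρ γ * ∑ j, (M + 1) j i * e j g := by
  obtain ⟨k, t, hB, ht, h1, h2⟩ := res H v hS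
  generalize hσ : ∑ p ∈ S, 2 ^ (v p + 1) = σ at t ht h1 h2
  have inj : ∀ c, XC ρ γ f S c → (∀ i, c (t i) = 0) → ∀ g ∈ KJ, c g = 0 := fun c h h0 g hg =>
    eq_zero_of_dv fun n => (h.zn n).zero_of hρ {g | c g = 0} (fun φ a b => (h1 φ a).2
      (fun w hw j hj => b j (h.unr w hw j hj)) (fun n => b _ (h.ev n)) fun i => b _ (h0 i))
      (fun g a => of_eq dv_zero a) hg
  have h3 : ∀ i, ∃ x, XC ρ γ f S x ∧ ∀ j, rd (x (t j)) = if j = i then 1 else 0 := fun i => by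
    obtain ⟨χ, a, b, c, d⟩ := h2 fun j => if j = i then 1 else 0
    obtain ⟨x, hx, e⟩ := Zm.lim (k := k) ⟨zn_lf (n := 0) hρ a, fun w hw j hj => by
      simp [b w hw j hj, lf_zero, dv_zero], fun o => by simp [c, lf_zero, dv_zero]⟩ hρ hu H hB
    exact ⟨x, hx, fun j => by rw [e, pow_zero, one_mul, rd_lf, d]⟩
  choose x hx hx' using h3
  let E : Matrix (Fin σ) (Fin σ) O := .of fun j i => x i (t j)
  have hE : IsUnit E.det := unit_iff.2 (by
    rw [show rd E.det = _ from rdH.map_det E, show rdH.mapMatrix E = 1 from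
      Matrix.ext fun j i => (hx' i j).trans Matrix.one_apply.symm, Matrix.det_one])
  obtain ⟨e, he, he'⟩ : ∃ e : Fin σ → GQ → O, (∀ i, XC ρ γ f S (e i)) ∧
      ∀ i j, e i (t j) = if j = i then 1 else 0 :=
    ⟨fun i => ∑ l, E⁻¹ l i • x l, fun i => (LL ρ γ f S).sum_mem fun l _ =>
      (LL ρ γ f S).smul_mem _ (hx l), fun i j => by
      rw [← Matrix.one_apply, ← E.mul_nonsing_inv hE, Matrix.mul_apply]
      simp [E, mul_comm]⟩
  let Q : Matrix (Fin σ) (Fin σ) O := .of fun j i => e i (γ * t j * γ⁻¹)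
  have hQ : ∀ i, ∀ g ∈ KJ, e i (γ * g * γ⁻¹) = ∑ j, Q j i * e j g := fun i g hg => by
    have := inj _ ((LL ρ γ f S).sub_mem ((he i).cj hρ H) ((LL ρ γ f S).sum_mem
      (t := Finset.univ) fun j _ => (LL ρ γ f S).smul_mem (Q j i) (he j)))
      (fun l => by simp [he', Q]) g hg
    simpa [sub_eq_zero] using this
  have hP : ∀ m i, ∀ g ∈ KJ, e i (γ ^ m * g * (γ ^ m)⁻¹) = ∑ j, (Q ^ m) j i * e j g := fun m => by
    induction m with
    | zero => simp [Matrix.one_apply]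
    | succ m ih =>
      intro i g hg
      rw [show γ ^ (m + 1) * g * (γ ^ (m + 1))⁻¹ = γ * (γ ^ m * g * (γ ^ m)⁻¹) * γ⁻¹ by group,
        hQ i _ (conj_KJ _ hg), pow_succ]
      simp only [fun j => ih j g hg, Matrix.mul_apply, Finset.mul_sum, Finset.sum_mul]
      rw [Finset.sum_comm]
      exact Finset.sum_congr rfl fun _ _ => Finset.sum_congr rfl fun _ _ => by ring
  have inv : ρ γ * ρ γ⁻¹ = 1 := by rw [← ar H.g0, ← hρ.one, ← mul_inv_cancel γ, hρ.co]; rfl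
  refine ⟨σ, t, e, ρ γ⁻¹ • Q - 1, rfl, fun i => ⟨ht i, he i⟩, he', ?_, fun i g hg => by
    simp only [hQ i g hg, sub_add_cancel, Matrix.smul_apply, smul_eq_mul, Finset.mul_sum,
      ← mul_assoc, inv, one_mul]⟩
  have h4 : rdH.mapMatrix Q ^ 2 ^ k = 1 := by
    rw [← map_pow]
    ext j i
    have := (h1 _ (((he i).zn 1).isCh hρ)).1 j
    rw [hP _ i _ (ht j), he'] at this
    simp only [he', mul_ite, mul_one, mul_zero, Finset.sum_ite_eq, Finset.mem_univ, if_true] at this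
    refine this.trans ?_
    rw [Matrix.one_apply, apply_ite rd, rd_one, rd_zero]
  have h5 : (ρ γ⁻¹ • Q - 1).map rdH = rdH.mapMatrix Q - 1 := by
    rw [← map_one rdH.mapMatrix, ← map_sub]
    ext j i
    simp [show rdH (ρ γ⁻¹) = 1 from hρ.rd _]
  have h6 : IsNilpotent (rdH.mapMatrix Q - 1) := ⟨2 ^ k, by
    have := congrArg (aeval (rdH.mapMatrix Q)) (sub_pow_char_pow (X : (ZMod 2)[X]) 1 (p := 2) k)
    rwa [map_pow, map_sub, one_pow, map_sub, map_pow, aeval_X, map_one, h4, sub_self] at this⟩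
  rw [← Matrix.charpoly_map, h5, ← sub_eq_zero]
  simpa using (Matrix.isNilpotent_charpoly_sub_pow_of_isNilpotent h6).eq_zero

end Pool.Agent.P.MP_8b7eba_nt.CG.K
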