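import Pool.Agent.P.MP_8b7eba_nt.CG.KD
import Pool.Agent.P.MP_8b7eba_nt.CG.IfK
import Pool.Agent.P.MP_8b7eba_nt.R2.SelA

/-! Descent from the top of the tower to the Gaussian field. -/

namespace Pool.Agent.P.MP_8b7eba_nt.CG.K

open R2 QT Filter Topology Polynomial
open scoped Matrix

variable {A : Type} [NormedCommRing A] [NormedAlgebra ℚ_[2] A] {ι : A} {ψ : ℤ_[2] → A}
  {γ f g s t : GQ} {χ ξ : GQ → A}

theorem jo_eq (ι : A) (a : O) : jo ι a = ((algebraMap ℚ_[2] A).comp PadicInt.Coe.ringHom) a.re +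
    ((algebraMap ℚ_[2] A).comp PadicInt.Coe.ringHom) a.im * ι := by
  rw [jo, Algebra.smul_def, Algebra.smul_def, mul_one]
  rfl

/-- the image of the Gaussian integers as a homomorphism -/
noncomputable def jH (h : ι * ι = -1) : O →+* A where
  toFun := jo ι
  map_one' := by simp [jo_eq, QuadraticAlgebra.re_one, QuadraticAlgebra.im_one]
  map_mul' a b := by
    simp only [jo_eq, QuadraticAlgebra.re_mul, QuadraticAlgebra.im_mul, map_add, map_mul, map_neg,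
      map_one, map_zero]
    generalize (algebraMap ℚ_[2] A).comp PadicInt.Coe.ringHom = φ
    linear_combination -(φ a.im * φ b.im) * h
  map_zero' := by simp [jo_eq]
  map_add' a b := by
    simp only [jo_eq, QuadraticAlgebra.re_add, QuadraticAlgebra.im_add, map_add]
    ring

theorem KC_GK : KC 0 = GK := Subgroup.ext fun _ => mem_KC0

omit [NormedAlgebra ℚ_[2] A] in
theorem uc_conj (u : Uc KJ ξ) (hg : g ∈ KJ) : Uc (KC 0) fun s => ξ (s * g * s⁻¹) := fun ε hε => by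
  obtain ⟨N, hN, a⟩ := u ε hε
  refine ⟨N, hN, fun s _ n _ m => ?_⟩
  beta_reduce
  rw [show s * n * g * (s * n)⁻¹ = s * g * s⁻¹ * (s * (g⁻¹ * (n * g * n⁻¹)) * s⁻¹) by group]
  refine a _ (conj_KJ s hg) _ (conj_KJ s (mul_mem (inv_mem hg) (conj_KJ n hg)))
    (hN.1.conj_mem _ ?_ s)
  rw [show g⁻¹ * (n * g * n⁻¹) = g⁻¹ * n * g⁻¹⁻¹ * n⁻¹ by group]
  exact mul_mem (hN.1.conj_mem n m _) (inv_mem m)

omit [NormedAlgebra ℚ_[2] A] in
theorem dense (h0 : γ ∈ KC 0) (h1 : la γ = 1) (u : Uc (KC 0) ξ)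
    (e : ∀ g ∈ KJ, ∀ a : ℕ, ξ (g * γ ^ a) = 0) (hs : s ∈ KC 0) : ξ s = 0 :=
  norm_le_zero_iff.1 (le_of_forall_pos_le_add fun ε hε => by
    obtain ⟨N, hN, a⟩ := u ε hε
    obtain ⟨m, hm⟩ := small hN
    have b := dec h0 h1 m hs
    obtain ⟨n, c, d⟩ := hm _ b
    generalize (Ps m s).val = i at b d
    have p := pow_mem h0 i
    have q : n ∈ KC 0 := inv_mem_iff.1 ((mul_mem_cancel_left (KC_le0 b)).1 (KJ_le 0 d))
    have := a _ (mul_mem (KJ_le 0 d) p) _ (mul_mem (mul_mem (inv_mem p) q) p)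
      (by simpa using hN.1.conj_mem n c (γ ^ i)⁻¹)
    rw [e _ d, sub_zero, show s * (γ ^ i)⁻¹ * n⁻¹ * γ ^ i * ((γ ^ i)⁻¹ * n * γ ^ i) = s by group]
      at this
    rwa [zero_add])

theorem chi_mul (hr : Rep (KC 0) fun g => LinearMap.mul ℚ_[2] A (χ g)) (hs : s ∈ KC 0)
    (ht : t ∈ KC 0) : χ (s * t) = χ s * χ t := by simpa using hr.mul s hs t ht 1

theorem chi_conj (hr : Rep (KC 0) fun g => LinearMap.mul ℚ_[2] A (χ g)) (hs : s ∈ KC 0)
    (ht : t ∈ KC 0) : χ (s * t * s⁻¹) = χ t := by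
  have h1 : χ 1 = 1 := by simpa using hr.one 1
  rw [chi_mul hr (mul_mem hs ht) (inv_mem hs), chi_mul hr hs ht, mul_right_comm,
    ← chi_mul hr hs (inv_mem hs), mul_inv_cancel, h1, one_mul]

theorem co_conj (hr : Rep (KC 0) fun g => LinearMap.mul ℚ_[2] A (χ g))
    (co : ∀ g ∈ KJ, ∀ h ∈ KJ, ξ (g * h) = ξ g + χ g * ξ h) (hs : s ∈ KJ) (hg : g ∈ KJ) :
    ξ (s * g * s⁻¹) = χ s * ξ g + (1 - χ g) * ξ s := by
  have := co _ (conj_KJ s hg) s hs
  rw [inv_mul_cancel_right, co s hs g hg, chi_conj hr (KJ_le 0 hs) (KJ_le 0 hg)] at this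
  linear_combination -this

theorem descent [FiniteDimensional ℚ_[2] A] (hr : Rep (KC 0) fun g => LinearMap.mul ℚ_[2] A (χ g))
    (h0 : γ ∈ KC 0) (h1 : la γ = 1) (hf : f ∈ KJ) (hu : IsUnit (1 - χ f)) (u : Uc KJ ξ)
    (co : ∀ g ∈ KJ, ∀ h ∈ KJ, ξ (g * h) = ξ g + χ g * ξ h)
    (cj : ∀ g ∈ KJ, ξ (γ * g * γ⁻¹) = χ γ * ξ g) (z : ξ f = 0) (hs : s ∈ KC 0) (ht : t ∈ KC 0) :
    ξ (s * t * f * (s * t)⁻¹) = ξ (s * f * s⁻¹) + χ s * ξ (t * f * t⁻¹) := by
  let P : GQ → Prop := fun s => ∀ g ∈ KJ, (1 - χ f) * ξ (s * g * s⁻¹) =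
    (1 - χ f) * (χ s * ξ g) + (1 - χ g) * ξ (s * f * s⁻¹)
  have e : ∀ s t g : GQ, s * t * g * (s * t)⁻¹ = s * (t * g * t⁻¹) * s⁻¹ := fun s t g => by group
  have k1 : ∀ s, P s → ∀ t ∈ KC 0,
      ξ (s * t * f * (s * t)⁻¹) = ξ (s * f * s⁻¹) + χ s * ξ (t * f * t⁻¹) := fun s a t ht =>
    hu.mul_left_cancel (by rw [e, a _ (conj_KJ t hf), chi_conj hr ht (KJ_le 0 hf)]; ring)
  have k2 : ∀ s ∈ KC 0, ∀ t ∈ KC 0, P s → P t → P (s * t) := fun s hs t ht a b g hg => by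
    rw [k1 s a t ht, e, a _ (conj_KJ t hg), chi_conj hr ht (KJ_le 0 hg), chi_mul hr hs ht]
    linear_combination χ s * b g hg
  have k3 : ∀ s ∈ KJ, P s := fun s hs g hg => by
    rw [co_conj hr co hs hg, co_conj hr co hs hf, z]
    ring
  have k4 : ∀ a : ℕ, P (γ ^ a) := fun a => by
    induction a with
    | zero => exact k3 _ (one_mem _)
    | succ a ih =>
      exact pow_succ γ a ▸ k2 _ (pow_mem h0 a) _ h0 ih fun g hg => by
        rw [cj g hg, cj f hf, z]; ring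
  refine k1 s (fun g hg => sub_eq_zero.1 ?_) t ht
  refine dense (ξ := fun s => (1 - χ f) * ξ (s * g * s⁻¹) -
    ((1 - χ f) * (χ s * ξ g) + (1 - χ g) * ξ (s * f * s⁻¹))) h0 h1 ?_ (fun v hv a =>
      sub_eq_zero.2 (k2 _ (KJ_le 0 hv) _ (pow_mem h0 a) (k3 v hv) (k4 a) g hg)) hs
  exact ((((uc_conj u hg).map (.mul ℚ_[2] A (1 - χ f))).add
    ((hr.uc (PatB.uc_const (ξ g))).map (.mul ℚ_[2] A (χ f - 1)))).add
    ((uc_conj u hf).map (.mul ℚ_[2] A (χ g - 1)))).congr fun s _ => by simp; ring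

variable [IsUltrametricDist A]

theorem jo_le (h : Cf ι ψ) (a : O) : ‖jo ι a‖ ≤ 1 := by
  have k : ∀ (b : ℤ_[2]) (x : A), ‖x‖ ≤ 1 → ‖(b : ℚ_[2]) • x‖ ≤ 1 := fun b x hx => by
    rw [norm_smul]
    exact mul_le_one₀ b.2 (norm_nonneg _) hx
  exact SelA.add (k _ _ (h.zero ▸ h.le 0)) (k _ _ h.le1)

theorem jo_small (h : Cf ι ψ) {ε : ℝ} (hε : 0 < ε) : ∃ n, ∀ a, Dv n a → ‖jH h.sq a‖ ≤ ε := by
  obtain ⟨m, hm⟩ := exists_pow_lt_of_lt_one hε (show (2⁻¹ : ℝ) < 1 by norm_num)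
  refine ⟨2 * m, fun a ha => ?_⟩
  obtain ⟨b, rfl⟩ := dv_two.1 ha
  have h3 : ‖(2 : ℚ_[2])‖ = 2⁻¹ := by simpa using Padic.norm_p (p := 2)
  rw [map_mul, map_pow, map_ofNat, ← map_ofNat (algebraMap ℚ_[2] A), ← map_pow,
    ← Algebra.smul_def, norm_smul, norm_pow, h3]
  exact (mul_le_of_le_one_right (by positivity) (jo_le h b)).trans hm.le

theorem rep (D : Dat) (h : Cf ι ψ) : Rep (KC 0) (D.r ι ψ) := by
  have m : ∀ g ∈ KC 0, ∀ s, D.ρ (g * s) = D.ρ g * D.ρ s := fun g hg s =>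
    (D.cy.co g s).trans (ar hg _)
  have x : ∀ g, D.xi ι ψ g = ψ (la g) * jH h.sq (D.ρ g) := fun _ => rfl
  have k : ∀ ε : ℝ, 0 < ε → ∃ n, ∀ g, 2 ^ n ∣ la g → Dv n (D.ρ g - 1) →
      ∀ v, ‖D.r ι ψ g v - v‖ ≤ ε * ‖v‖ := fun ε hε => by
    obtain ⟨a, ha⟩ := h.toIsPsi.near hε
    obtain ⟨b, hb⟩ := jo_small h hε
    refine ⟨a + b, fun g p q v => ?_⟩
    rw [show D.r ι ψ g v - v = ((ψ (la g) - ψ 0) * jH h.sq (D.ρ g) + jH h.sq (D.ρ g - 1)) * v by
      simp only [Dat.r, x, LinearMap.mul_apply', h.zero, map_sub, map_one]; ring]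
    refine (norm_mul_le _ _).trans (mul_le_mul_of_nonneg_right (SelA.add ((norm_mul_le _ _).trans
      ((mul_le_of_le_one_right (norm_nonneg _) (jo_le h _)).trans (ha _ _ ?_)))
      (hb _ (q.mono (by omega)))) (norm_nonneg _))
    exact (sub_zero (la g)).symm ▸ (pow_dvd_pow 2 (Nat.le_add_right a b)).trans p
  refine ⟨fun v => by simp [Dat.r, x, la_one, h.zero, D.cy.one], fun g hg s _ v => ?_,
    fun g v => ?_, fun ε hε => ?_, fun g hg ε hε => ?_⟩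
  · simp only [Dat.r, x, LinearMap.mul_apply', la_mul, h.add, m g hg, map_mul]
    ring
  · exact (norm_mul_le _ _).trans (mul_le_of_le_one_left (norm_nonneg _) ((norm_mul_le _ _).trans
      (mul_le_one₀ (h.le _) (norm_nonneg _) (jo_le h _))))
  · obtain ⟨n, hn⟩ := k ε hε
    obtain ⟨N, hN, a⟩ := D.cy.sm n
    exact ⟨_, hN.inf (on_KC n), fun g _ e => hn g (mem_KC.1 e.2).1 (a g e.1)⟩
  · obtain ⟨n, hn⟩ := k ε hε
    refine ⟨n, hn _ (by rw [la_pow]; push_cast; exact dvd_mul_right _ _) ?_⟩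
    clear hn
    induction n with
    | zero => exact dv_nil _
    | succ n ih =>
      rw [pow_succ, pow_mul, sq, m _ (pow_mem hg _)]
      exact of_eq (ih.mul (QT.rd_eq_zero.1 (show rd (D.ρ (g ^ 2 ^ n) + 1) = 0 by
        rw [rd_add, D.cy.rd, rd_one]; rfl))) (by ring)

theorem a_LBK : LBK := fun D v h5 hb hv => by
  classical
  have H : GF D.h D.z := ⟨h5, D.zc, hb⟩
  have gd : ∀ w : Pl, Gd (D.n.primeFactors.erase 2) w ↔ ¬ w.p ∣ 2 * D.n := fun w => by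
    simp [Gd, w.prime.dvd_mul, Nat.prime_dvd_prime_iff_eq w.prime Nat.prime_two, w.prime, D.n0]
    tauto
  obtain ⟨σ, t, e, M, h1, h2, h3, h4, h6⟩ := basis D.cy (fun w hw => D.unr w ((gd w).1 hw)) H v
    fun p hp => ⟨Nat.prime_of_mem_primeFactors (Finset.mem_of_mem_erase hp),
      Finset.ne_of_mem_erase hp, hv p hp⟩
  refine ⟨σ, M, h1, h4, fun A _ _ _ _ ι ψ h => ?_⟩
  have hr := rep D h
  have hf : D.z ∈ KJ := mem_KJ'.2 D.zc
  have x1 : ∀ g ∈ KJ, D.xi ι ψ g = jH h.sq (D.ρ g) := fun g hg => by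
    rw [Dat.xi, show CG.la g = 0 from (mem_KJ.1 hg).1, h.zero, one_mul]; rfl
  have hu : IsUnit (1 - D.xi ι ψ D.z) := by
    obtain ⟨i, c, hc⟩ := exists_two (sub_ne_zero.2 D.zr.symm)
    have := congrArg (jH h.sq) hc
    rw [map_mul, map_sub, map_one, map_pow, map_ofNat, ← x1 _ hf] at this
    exact isUnit_of_mul_isUnit_left (this ▸ IsUnit.pow i (map_ofNat (algebraMap ℚ_[2] A) 2 ▸
      (IsUnit.mk0 (2 : ℚ_[2]) two_ne_zero).map (algebraMap ℚ_[2] A)))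
  let ξ : (Fin σ → A) → GQ → A := fun x g => ∑ i, x i * jH h.sq (e i g)
  have co : ∀ x, ∀ g ∈ KJ, ∀ s ∈ KJ, ξ x (g * s) = ξ x g + D.xi ι ψ g * ξ x s :=
    fun x g hg s hs => by
      simp only [ξ, fun i => Zn.exact (h2 i).2.zn hg hs, ar (KJ_le 0 hg), map_add, map_mul,
        x1 g hg, mul_add, Finset.sum_add_distrib, Finset.mul_sum, mul_left_comm]
  have z : ∀ x, ξ x D.z = 0 := fun x => by
    simp [ξ, fun i => show e i D.z = 0 by simpa [fn] using (h2 i).2.ev 0]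
  have k0 : ∀ x, ∀ g ∈ KJ, ξ x (g * D.z * g⁻¹) = (1 - D.xi ι ψ D.z) * ξ x g := fun x g hg => by
    rw [co_conj hr (co x) hg hf, z, mul_zero, zero_add]
  let E : Fin σ → GS → A := fun i g =>
    if g ∈ S1 GK then ul fun k => jH h.sq (e i (g k * D.z * (g k)⁻¹)) else 0
  have k1 : ∀ x, ∀ g ∈ S1 GK, Fintype.linearCombination A E x g =
      ul fun k => ξ x (g k * D.z * (g k)⁻¹) := fun x g hg => by
    simp only [Fintype.linearCombination_apply, Finset.sum_apply, Pi.smul_apply, smul_eq_mul, E,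
      if_pos hg]
    exact (ul_eq (tendsto_finsetSum _ fun i _ =>
      (tendsto_ul (.of_forall fun k => jo_le h _)).const_mul _)).symm
  have k2 : ∀ x, ∀ g ∈ KC 0, Fintype.linearCombination A E x (R2.cs g) = ξ x (g * D.z * g⁻¹) :=
    fun x g hg => (k1 x _ (cs_mem.2 (KC_GK ▸ hg))).trans (ul_eq tendsto_const_nhds)
  refine ⟨Fintype.linearCombination A E, (injective_iff_map_eq_zero _).2 fun x hx =>
    funext fun i => ?_, fun x hx => ?_⟩
  · have := k2 x _ (KJ_le 0 (h2 i).1)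
    rw [hx, k0 x _ (h2 i).1, Pi.zero_apply, eq_comm, hu.mul_right_eq_zero] at this
    simpa [ξ, h3, apply_ite (jH h.sq)] using this
  have cj : ∀ g ∈ KJ, ξ x (D.h * g * D.h⁻¹) = D.xi ι ψ D.h * ξ x g := fun g hg => by
    have k : ∀ l, ∑ i, x i * jH h.sq ((M + 1) l i) = ψ 1 * x l := fun l => by
      have := congrFun hx l
      simp only [Matrix.mulVec, dotProduct, Matrix.map_apply, Pi.smul_apply, smul_eq_mul] at this
      simp only [Matrix.add_apply, map_add, add_mul, Finset.sum_add_distrib, Matrix.one_apply,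
        apply_ite (jH h.sq), map_one, map_zero, ite_mul, one_mul, zero_mul, Finset.sum_ite_eq,
        Finset.mem_univ, if_true, mul_comm (x _)]
      exact eq_sub_iff_add_eq.1 (this.trans (sub_one_mul _ _))
    simp only [ξ, fun i => h6 i g hg, map_mul, map_sum, Finset.mul_sum]
    rw [Finset.sum_comm]
    refine Finset.sum_congr rfl fun l _ => ?_
    rw [Dat.xi, show CG.la D.h = 1 from H.la, mul_right_comm, ← mul_assoc, ← k, Finset.sum_mul,
      Finset.sum_mul]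
    exact Finset.sum_congr rfl fun i _ => by change _ = _ * _ * jH h.sq _; ring
  have u : Uc KJ (ξ x) := by
    refine (Finset.sum_induction (s := .univ) (fun i g => x i * jH h.sq (e i g)) (Uc KJ)
      (fun _ _ => Uc.add) (PatB.uc_const 0) fun i _ => Uc.map (fun ε hε => ?_)
        (.mul ℚ_[2] A (x i))).congr fun g _ => by rw [Finset.sum_apply]
    obtain ⟨n, hn⟩ := jo_small h hε
    obtain ⟨N, hN, b⟩ := ((h2 i).2.zn n).sm
    exact ⟨N, hN, fun g hg s hs m => map_sub (jH h.sq) _ _ ▸ hn _ (b g hg s hs m)⟩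
  have pz := (pz_const hr (uc_conj u hf) fun s hs t ht =>
    descent hr H.g0 H.la hf hu u (co x) cj (z x) hs ht).1
  rw [KC_GK] at pz
  refine ⟨⟨pz.congr (k1 x), fun g hg => by simp [Fintype.linearCombination_apply, E, hg],
    by rw [k2 x _ (KJ_le 0 hf), mul_inv_cancel_right, z], fun w g a => ?_⟩,
    by rw [k2 x _ H.g0, cj _ hf, z, mul_zero]⟩
  rw [k1 x g (a.mono fun k b => KC_GK ▸ IK ((gd _).2 b.2).1 0 b.1)]
  refine ul_eq (tendsto_const_nhds.congr' (a.mono fun k b => ?_))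
  have c := (gd _).2 b.2
  simp [k0 x _ (I_le c.1 b.1), ξ, fun i => (h2 i).2.unr _ c _ b.1]

end Pool.Agent.P.MP_8b7eba_nt.CG.K
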