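import Pool.Agent.P.MP_8b7eba_nt.CG.KE

/-! The two elements of the inertia group at two. -/

namespace Pool.Agent.P.MP_8b7eba_nt.CG.K

open R2 QT

variable {γ s : GQ} {ρ : GQ → O}

theorem m8 {a : ℤ_[2]} (h : (8 : ℤ_[2]) ∣ a) : PadicInt.toZModPow 3 a = 0 := by
  obtain ⟨b, rfl⟩ := h
  rw [map_mul, map_ofNat, show (8 : ZMod (2 ^ 3)) = 0 from rfl, zero_mul]

theorem gf (h5 : (cyc γ : ℤ_[2]) = 5) (hs : s ∉ KC 0) : GF γ (cm s γ) := by
  have g0 : γ ∈ KC 0 := mem_KC'.2 (by rw [h5]; exact ⟨1, by norm_num⟩)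
  refine ⟨h5, mem_KJ'.1 (div_KJ (conj_KC s g0) g0 (la_conj s γ)), fun β hβ => ?_⟩
  have ri : rt (-1) ^ 2 = -1 := by simpa using rt_sq (-1)
  have t1 : s⁻¹ (rt (-1)) = -rt (-1) := (GrpA.pm (rt_sq _) _).resolve_left fun e =>
    hs (inv_mem_iff.1 (mem_KC0.2 e))
  have t2 : (β * s⁻¹ β) ^ 2 = ((2 : ℤ) : Om) := by
    rw [mul_pow, ← map_pow, hβ, map_add, map_one, t1]
    push_cast
    linear_combination -ri
  have b0 : β ≠ 0 := fun e => by simp [e] at t2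
  have t3 : γ β * γ (s⁻¹ β) = -(β * s⁻¹ β) :=
    (map_mul γ _ _).symm.trans ((GrpA.pm t2 γ).resolve_left fun e => by
      have := (qz_two a_EC).1 ((qz_eq_zero t2).2 e)
      rw [h5] at this
      rcases this with e | e <;>
      · have := m8 e
        simp only [map_sub, map_add, map_ofNat, map_one] at this
        revert this
        decide)
  have t4 : γ β = β ∨ γ β = -β := sq_eq_sq_iff_eq_or_eq_neg.1 (by
    rw [← map_pow, hβ, map_add, map_one, mem_KC0.1 g0])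
  rw [cm, AlgEquiv.mul_apply, AlgEquiv.mul_apply, AlgEquiv.mul_apply]
  rcases t4 with e | e
  · rw [e, ← mul_neg, mul_right_inj' b0] at t3
    rw [show γ⁻¹ β = β from (congrArg _ e.symm).trans (BasicP.inv_apply γ β), t3, map_neg,
      BasicP.apply_inv]
  · rw [e, neg_mul, neg_inj, mul_right_inj' b0] at t3
    rw [show γ⁻¹ β = -β by rw [eq_neg_iff_add_eq_zero, ← neg_eq_iff_add_eq_zero, ← map_neg, ← e,
      BasicP.inv_apply], map_neg, map_neg, t3, map_neg, BasicP.apply_inv]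

theorem rho_cm (hρ : Cy ρ) (h5 : (cyc γ : ℤ_[2]) = 5) (hs : s ∉ KC 0) : ρ (cm s γ) ≠ 1 := fun e => by
  have H := gf h5 hs
  have g0 := mem_KC0'.1 H.g0
  have h1 := hρ.co (cm s γ) γ
  rw [cj_of (mem_KC0'.1 (KJ_le 0 (mem_KJ'.2 H.fc))), e, one_mul, cm, inv_mul_cancel_right,
    hρ.conj g0, cj, (f2 _).resolve_left (mt mem_KC0'.2 hs), QT.cs_one] at h1
  have h2 : (ρ γ).im = 0 := by
    have := congrArg QuadraticAlgebra.im h1
    simpa [neg_eq_self] using this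
  have h3 := congrArg (PadicInt.toZModPow 3) (hρ.nm γ)
  rw [g0, nr, h2, h5] at h3
  simp only [SM.sg, map_mul, map_add, map_pow, map_ofNat, map_zero, ZMod.val_zero, pow_zero,
    map_one] at h3
  revert h3
  generalize PadicInt.toZModPow 3 (ρ γ).re = a
  revert a
  decide

theorem a_EXK : EXK := fun ρ w hρ hw => by
  have h5 : IsUnit (5 : ℤ_[2]) := by
    rw [PadicInt.isUnit_iff]
    exact_mod_cast (PadicInt.norm_natCast_eq_one_iff (p := 2) (n := 5)).2 (by norm_num)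
  obtain ⟨γ, a, b⟩ := a_EC2 w hw h5.unit
  obtain ⟨s, c, d⟩ := a_EC2 w hw (-1)
  have e : (cyc γ : ℤ_[2]) = 5 := b ▸ h5.unit_spec
  have hs : s ∉ KC 0 := fun h => by
    have := m8 ((by norm_num : (2 : ℤ_[2]) * 2 ^ (0 + 2) = 8) ▸ mul_dvd_mul_left 2 (mem_KC'.1 h))
    rw [d] at this
    simp only [map_mul, map_sub, map_ofNat, map_one, Units.val_neg, Units.val_one, map_neg] at this
    revert this
    decide
  have H := gf e hs
  exact ⟨γ, ⟨a, KC_GK ▸ H.g0⟩, cm s γ,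
    ⟨w.I_le_D (mul_mem (mul_mem (mul_mem c a) (inv_mem c)) (inv_mem a)),
      KC_GK ▸ KJ_le 0 (mem_KJ'.2 H.fc)⟩, e, H.fc, H.fb, rho_cm hρ e hs⟩

end Pool.Agent.P.MP_8b7eba_nt.CG.K
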