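import Pool.Agent.P.MP_8b7eba_nt.CG.KB

/-! Places of the layers, embedding problems and the residual characters. -/

namespace Pool.Agent.P.MP_8b7eba_nt.CG.K

open R2

variable {g s γ f : GQ} {k n : ℕ} {w : Pl} {χ : GQ → ZMod 2} {S : Finset ℕ}

/-- the place is inert or ramified above the layer `k` -/
def Big (k : ℕ) (w : Pl) : Prop := ∀ n, k ≤ n → ∃ s ∈ w.D ⊓ KC n, s ∉ KC (n + 1)

/-- good places -/
def Gd (S : Finset ℕ) (w : Pl) : Prop := w.p ≠ 2 ∧ w.p ∉ S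

theorem Big.lim (h : Big k w) (hg : g ∈ KC k) : ∃ u ∈ KJ, u • w = g • w := by
  have appr : ∀ n, ∃ d ∈ w.D, g * d⁻¹ ∈ KC (k + n) := fun n => by
    induction n with
    | zero => exact ⟨1, one_mem _, by simpa using hg⟩
    | succ n ih =>
      obtain ⟨d, h1, h2⟩ := ih
      by_cases a : g * d⁻¹ ∈ KC (k + n + 1)
      · exact ⟨d, h1, a⟩
      · obtain ⟨s, h3, h4⟩ := h (k + n) (Nat.le_add_right k n)
        exact ⟨s⁻¹ * d, mul_mem (inv_mem h3.1) h1, by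
          simpa [mul_assoc, add_assoc] using mul_succ h2 h3.2 a h4⟩
  have hc : ∀ n, IsClosed ((w.D : Set GQ) ∩ (fun d => g * d⁻¹) ⁻¹' (KC (k + n))) := fun n =>
    w.closed_D.inter ((cl_KC _).preimage (by fun_prop))
  obtain ⟨d, hd⟩ := IsCompact.nonempty_iInter_of_sequence_nonempty_isCompact_isClosed
    (fun n => (w.D : Set GQ) ∩ (fun d => g * d⁻¹) ⁻¹' (KC (k + n)))
    (fun n d hd => ⟨hd.1, KC_le (k + n).le_succ hd.2⟩) appr (hc 0).isCompact hc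
  rw [Set.mem_iInter] at hd
  exact ⟨g * d⁻¹, Subgroup.mem_iInf.2 fun n => KC_le (Nat.le_add_left n k) (hd n).2,
    by rw [mul_smul, show d⁻¹ • w = w from inv_mem (hd 0).1]⟩

theorem big_two (h : w.p = 2) (k : ℕ) : Big k w := fun n _ => by
  obtain ⟨γ, h0, hγ⟩ := surj h 1
  exact ⟨_, ⟨pow_mem h0.1.1 _, (pow_mem_KC h0.2 hγ).2 dvd_rfl⟩, pow_not h0.2 hγ n⟩

theorem odd {v : ℕ} (h : w.p ≠ 2) (hv : ∀ u : ℤ_[2]ˣ, (u : ℤ_[2]) = w.p → (lg u).valuation = v) :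
    Big (v + 1) w ∧ ∀ d, (KC (v + 1 + d)).relIndex w.D = 2 ^ (d + 1) := by
  obtain ⟨f, φ, -, -, hφ, hf, -, hd⟩ := a_FROB w w.D w.loc_D
  obtain rfl := hf rfl
  have h1 := hv _ ((a_EC.2.2.2.2.2.1 w 1 φ h hφ).trans (pow_one _))
  have h2 : ∀ k, ∀ g ∈ w.D, ∃ m : ℕ, (φ ^ m)⁻¹ * g ∈ KC k := fun k g hg => by
    obtain ⟨m, i, hi, n, hn, rfl⟩ := hd _ (on_KC k) g hg
    exact ⟨m, by simpa [mul_assoc] using mul_mem (IK h k hi.1) hn.1⟩
  have h3 : la φ ≠ 0 := fun e => by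
    obtain ⟨g, hg, h3⟩ := a_LG.2.2.2.2 w w.D w.loc_D
    refine h3 (eq_zero fun k => ?_)
    obtain ⟨m, hm⟩ := h2 k g hg
    have := (mem_KC.1 hm).1
    rwa [la_mul, la_inv, la_pow, e, mul_zero, neg_zero, zero_add] at this
  have h4 := PadicInt.unitCoeff_spec h3
  rw [show (la φ).valuation = v from h1] at h4
  generalize PadicInt.unitCoeff h3 = u at h4
  have e : ∀ d, la (φ ^ 2 ^ d) = u * 2 ^ (v + d) := fun d => by
    rw [la_pow, h4]
    push_cast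
    ring
  have h5 : ∀ d, φ ^ 2 ^ (d + 1) ∈ KC (v + 1 + d) := fun d => mem_KC.2
    ⟨by rw [e, add_assoc, add_comm 1]; exact Dvd.intro_left _ rfl, by
      rw [← mem_KC0, pow_succ', pow_mul, sq]
      exact pow_mem (by_cases (fun a => mul_mem a a) fun a => mul_KC0 a a) _⟩
  have h6 : ∀ d, φ ^ 2 ^ d ∉ KC (v + d + 1) := fun d a => by
    have h2 := (mem_KC.1 a).1
    rw [e, pow_succ', mul_dvd_mul_iff_right (pow_ne_zero _ two_ne_zero)] at h2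
    exact PadicInt.prime_p.not_isUnit (isUnit_of_dvd_unit h2 u.isUnit)
  refine ⟨fun n hn => ?_, fun d => ?_⟩
  · obtain ⟨d, rfl⟩ := Nat.exists_eq_add_of_le hn
    exact ⟨_, ⟨pow_mem hφ.1 _, h5 d⟩, by simpa [add_assoc, add_comm 1] using h6 (d + 1)⟩
  · have := (on_KC (v + 1 + d)).1
    rw [← QuotientGroup.ker_mk' (KC (v + 1 + d)), Subgroup.relIndex_ker,
      show w.D.map (QuotientGroup.mk' (KC (v + 1 + d))) = Subgroup.zpowers (QuotientGroup.mk' _ φ)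
        from le_antisymm ?_ (Subgroup.zpowers_le.2 ⟨φ, hφ.1, rfl⟩), Nat.card_zpowers]
    · refine orderOf_eq_prime_pow (fun a => h6 d ?_) ?_
      · rwa [← map_pow, QuotientGroup.mk'_apply, QuotientGroup.eq_one_iff, add_right_comm] at a
      · rw [← map_pow, QuotientGroup.mk'_apply, QuotientGroup.eq_one_iff]
        exact h5 d
    · rintro _ ⟨g, hg, rfl⟩
      obtain ⟨m, hm⟩ := h2 _ g hg
      exact Subgroup.mem_zpowers_iff.2
        ⟨m, by rw [zpow_natCast, ← map_pow]; exact QuotientGroup.eq.2 hm⟩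

theorem places (v : ℕ → ℕ) (hS : ∀ p ∈ S, p.Prime ∧ p ≠ 2 ∧
    ∀ u : ℤ_[2]ˣ, (u : ℤ_[2]) = p → (lg u).valuation = v p) :
    ∃ (k : ℕ) (R : Finset Pl), (∀ w, ¬ Gd S w → Big k w) ∧ Sep (KC k) R ∧
      (∀ w, Out (KC k) R w ↔ w.p ∉ S) ∧ (∀ w ∈ R, w.p ∈ S) ∧ R.card = ∑ p ∈ S, 2 ^ (v p + 1) := by
  classical
  have hU := (on_KC (S.sup v + 1)).2
  obtain ⟨R, h1, h2, h3, -, -⟩ := TLAY.orb a_CA hU S
  have o := fun (w : Pl) (hw : w.p ∈ S) => odd (hS _ hw).2.1 (hS _ hw).2.2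
  refine ⟨_, R, fun w hw => ?_, h1, h2, h3, ?_⟩
  · by_cases a : w.p = 2
    · exact big_two a _
    · have b : w.p ∈ S := by_contra fun b => hw ⟨a, b⟩
      exact fun n hn => (o w b).1 n ((Nat.succ_le_succ (Finset.le_sup b)).trans hn)
  rw [Finset.card_eq_sum_card_fiberwise (f := Pl.p) (t := S) h3]
  refine Finset.sum_congr rfl fun p hP => ?_
  obtain ⟨w₀, rfl⟩ := a_PL.1 p (hS p hP).1
  choose! s hs using fun w : Pl => a_PL.2.1 w w₀
  have h6 := ((a_ORB _ hU).2.2 w₀ (R.filter fun w => w.p = w₀.p) s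
    (fun w hw u hu m => h1 w (Finset.mem_filter.1 hw).1 u hu (Finset.mem_filter.1 m).1)
    (fun w => ⟨fun a e => (h2 w).1 (fun u hu m => a u hu (Finset.mem_filter.2 ⟨m, e⟩)) (e ▸ hP),
      fun a u _ m => a (Finset.mem_filter.1 m).2⟩)
    fun w hw => hs w (Finset.mem_filter.1 hw).2).1
  obtain ⟨d, hd⟩ := Nat.exists_eq_add_of_le (Nat.succ_le_succ (Finset.le_sup (f := v) hP))
  rw [show S.sup v + 1 = v w₀.p + 1 + d from hd, Finset.sum_congr rfl fun w hw => by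
    have e := (Finset.mem_filter.1 hw).2
    rw [← e, (o w (e ▸ hP)).2 d], Finset.sum_const, smul_eq_mul, index_KC, add_assoc _ d,
    pow_add 2 (_ + 1)] at h6
  exact Nat.eq_of_mul_eq_mul_right (Nat.two_pow_pos _) h6

theorem triv (κ : GQ → GQ → ZMod 2) (hB : ∀ w, ¬ Gd S w → Big k w) (hκ : Co2 (KC k) (sgn κ))
    (hI : ∀ w, Gd S w → ∀ j ∈ w.I, ∀ g ∈ KC k, κ g j = 0 ∧ κ j g = 0) :
    Triv (KC (k + 1)) (sgn κ) := by
  have le : KC (k + 1) ≤ KC k := KC_le k.le_succ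
  have oG := (on_KC k).2
  have oU := (on_KC (k + 1)).2
  have co := (co2_sgn.1 hκ).2
  have r1 : ∀ w, Gd S w → ∀ j ∈ w.I, ∀ g ∈ KC k, ∀ h ∈ KC k,
      κ g (h * j) = κ g h := fun w hw j hj g hg h hh => by
    have := co g hg h hh j (IK hw.1 k hj)
    rwa [(hI w hw j hj h hh).1, (hI w hw j hj _ (mul_mem hg hh)).1, zero_add, zero_add] at this
  have r2 : ∀ w, Gd S w → ∀ j ∈ w.I, ∀ g ∈ KC k, ∀ h ∈ KC k,
      κ (g * j) h = κ g h := fun w hw j hj g hg h hh => by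
    have h1 := co g hg j (IK hw.1 k hj) h hh
    have h3 := r1 (h⁻¹ • w) hw _ (conj_I h⁻¹ hj) g hg h hh
    rw [show h * (h⁻¹ * j * h⁻¹⁻¹) = j * h by group] at h3
    rw [(hI w hw j hj h hh).2, (hI w hw j hj g hg).1, zero_add, add_zero, h3] at h1
    exact h1.symm
  have fU := hκ.mono le
  refine a_ABHN _ _ oU (tc_KC _) fU.sgnT fun w => ?_
  by_cases hw : Gd S w
  · refine a_UNR w _ (w.loc_inf oU) 1 _ (fU.mono inf_le_right)
      (fun g _ h _ => congrFun (congrFun (sgn_sq κ) g) h) fun g hg h hh j hj => ⟨?_, ?_, ?_⟩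
    · rw [sgn, r2 w hw j hj.1 g (le hg.2) h (le hh.2), sgn]
    · rw [sgn, r1 w hw j hj.1 g (le hg.2) h (le hh.2), sgn]
    · rw [sgn, map_pow, map_neg, map_one]
  · obtain ⟨s, h1, h2⟩ := hB w hw k le_rfl
    exact (a_DIE w _ _ (w.loc_inf oG) (hκ.mono inf_le_right)
      (by rw [sgn_sq]; exact Triv.one)).1 _ (w.loc_inf oU) (inf_le_inf_left _ le)
      (rel_two h1 (fun e => h2 e.2) fun g hg h hh a b => ⟨mul_mem hg.1 hh.1,
        mul_succ hg.2 hh.2 (fun e => a ⟨hg.1, e⟩) fun e => b ⟨hh.1, e⟩⟩)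

/-- central embedding problems are solved in the next layer -/
theorem gtk (H : GF γ f) (κ : GQ → GQ → ZMod 2) (hB : ∀ w, ¬ Gd S w → Big k w)
    (hκ : Co2 (KC k) (sgn κ))
    (hI : ∀ w, Gd S w → ∀ j ∈ w.I, ∀ g ∈ KC k, κ g j = 0 ∧ κ j g = 0) :
    ∃ θ, Bd (KC (k + 1)) κ θ ∧ ∀ w, Gd S w → ∀ j ∈ w.I, θ j = 0 := by
  classical
  have le : KC (k + 1) ≤ KC k := KC_le k.le_succ
  obtain ⟨θ, hs, hθ⟩ := exists_bd a_GAL (cl_KC _) (triv κ hB hκ hI)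
  have mI : ∀ w, Gd S w → w.I ≤ KC (k + 1) := fun w hw => IK hw.1 _
  have hc : ∀ w, Gd S w → IsCh w.I θ := fun w hw =>
    ⟨hs.mono (mI w hw), fun g hg h hh => by
      rw [hθ g (mI w hw hg) h (mI w hw hh), (hI w hw h hh g (le (mI w hw hg))).1, add_zero]⟩
  have cj : ∀ w, Gd S w → ∀ u ∈ KC (k + 1), ∀ j ∈ w.I,
      θ (u * j * u⁻¹) = θ j := fun w hw u hu j hj => by
    have hj' := conj_I u hj
    have h1 := hθ u hu j (mI w hw hj)
    have h3 := hθ _ (mI (u • w) hw hj') u hu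
    rw [inv_mul_cancel_right, h1, (hI w hw j hj u (le hu)).1,
      (hI (u • w) hw _ hj' u (le hu)).2, add_zero, add_zero, add_comm, add_left_inj] at h3
    exact h3.symm
  have key : ∀ w : Pl, ∃ c : ZMod 2, (¬ Gd S w → c = 0) ∧ (Gd S w →
      (∀ j ∈ w.I, θ j = c * qz w.p j) ∧ ∃ t ∈ w.I, qz w.p t = 1) := fun w => by
    by_cases hw : Gd S w
    · obtain ⟨t, ht, h1, h2⟩ := exists_t hw.1
      exact ⟨θ t, fun h => (h hw).elim, fun _ => ⟨h2 θ (hc w hw), t, ht, h1⟩⟩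
    · exact ⟨0, fun _ => rfl, fun h => (hw h).elim⟩
  choose c c0 c1 using key
  obtain ⟨N, hN, hN'⟩ := id hs
  obtain ⟨B, hB'⟩ := a_GENP.2.1 N hN
  obtain ⟨χ, hχ, hv⟩ := ram H (k + 1) c B (fun u hu w => by
      by_cases hw : Gd S w
      · obtain ⟨h1, t, ht, h2⟩ := c1 w hw
        have h3 := (c1 (u • w) hw).1 _ (conj_I u ht)
        rw [cj w hw u hu t ht, h1 t ht, qz_conj, Pl.smul_p, h2, mul_one, mul_one] at h3
        exact h3.symm
      · rw [c0 w hw, c0 (u • w) hw]) (fun w hw' => by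
      by_cases hw : Gd S w
      · obtain ⟨h1, t, ht, h2⟩ := c1 w hw
        have h3 := hN' 1 (one_mem _) t (mI w hw ht) (hB' w hw' ht)
        rwa [one_mul, (hc w hw).one, h1 t ht, h2, mul_one] at h3
      · exact c0 w hw)
  refine ⟨fun g => θ g + χ g, ⟨hs.comp₂ hχ.1 (· + ·), fun g hg h hh => ?_⟩, fun w hw j hj => ?_⟩
  · beta_reduce
    rw [hχ.2 g hg h hh, hθ g hg h hh]
    ring
  · beta_reduce
    rw [hv w hw.1 j hj, (c1 w hw).1 j hj]
    exact CharTwo.add_self_eq_zero _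

/-- the residual characters are described by their values at finitely many elements -/
theorem res (H : GF γ f) (v : ℕ → ℕ) (hS : ∀ p ∈ S, p.Prime ∧ p ≠ 2 ∧
    ∀ u : ℤ_[2]ˣ, (u : ℤ_[2]) = p → (lg u).valuation = v p) :
    ∃ (k : ℕ) (t : Fin (∑ p ∈ S, 2 ^ (v p + 1)) → GQ), (∀ w, ¬ Gd S w → Big k w) ∧
      (∀ i, t i ∈ KJ) ∧ (∀ χ : GQ → ZMod 2, IsCh KJ χ → (∀ i,
        χ (γ ^ 2 ^ k * t i * (γ ^ 2 ^ k)⁻¹) = χ (t i)) ∧ ((∀ w, Gd S w → ∀ j ∈ w.I, χ j = 0) →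
        (∀ n, χ (fn γ f n) = 0) → (∀ i, χ (t i) = 0) → ∀ g ∈ KJ, χ g = 0)) ∧
      ∀ c : _ → ZMod 2, ∃ χ : GQ → ZMod 2, IsCh (KC k) χ ∧ (∀ w, Gd S w → ∀ j ∈ w.I, χ j = 0) ∧
        (∀ o, χ (te γ f k o) = 0) ∧ ∀ i, χ (t i) = c i := by
  classical
  obtain ⟨k, R, hB, h1, h2, h3, h4⟩ := places v hS
  choose! t ht hq hχ using fun (w : Pl) (hw : w.p ≠ 2) => exists_t hw
  have o : ∀ w : Pl, w.p ∈ S → w.p ≠ 2 := fun w hw => (hS _ hw).2.1
  have inv : ∀ χ : GQ → ZMod 2, IsCh KJ χ → ∀ w : Pl, w.p ∈ S → ∀ u ∈ KC k,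
      χ (t (u • w)) = χ (t w) := fun χ h w hw u hu => by
    obtain ⟨u', hu', e⟩ := (hB w fun a => a.2 hw).lim hu
    have h1 := hχ (u' • w) (o w hw) χ (h.mono (I_le (o w hw))) _ (conj_I u' (ht w (o w hw)))
    rw [ch_conj h hu' (I_le (o w hw) (ht w (o w hw))), qz_conj, Pl.smul_p, hq w (o w hw), mul_one,
      e] at h1
    exact h1.symm
  let e := R.equivFinOfCardEq h4
  have oe := fun i => h3 _ (e.symm i).2
  refine ⟨k, fun i => t (e.symm i), hB, fun i => I_le (o _ (oe i)) (ht _ (o _ (oe i))),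
    fun χ h => ⟨fun i => ?_, fun a b c => injJ H ⟨h, fun w hw j hj => ?_⟩ b⟩, fun c => ?_⟩
  · rw [hχ (γ ^ 2 ^ k • _) (o _ (oe i)) χ (h.mono (I_le (o _ (oe i)))) _
      (conj_I _ (ht _ (o _ (oe i)))), qz_conj, Pl.smul_p, hq _ (o _ (oe i)), mul_one,
      inv χ h _ (oe i) _ (H.pw k)]
  · by_cases d : w.p ∈ S
    · obtain ⟨u, hu, m⟩ : ∃ u ∈ KC k, u • w ∈ R := by simpa [Out] using mt (h2 w).1 (not_not.2 d)
      rw [hχ w hw χ (h.mono (I_le hw)) j hj, ← inv χ h w d u hu]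
      simpa using Or.inl (by simpa using c (e ⟨_, m⟩))
    · exact a w ⟨hw, d⟩ j hj
  · let c' : Pl → ZMod 2 := fun w => ∑ i, if Out (KC k) {(e.symm i).1} w then 0 else c i
    have c0 : ∀ w : Pl, w.p ∉ S → c' w = 0 := fun w hw => Finset.sum_eq_zero fun i _ =>
      if_pos (((h2 w).2 hw).mono (by simp))
    obtain ⟨χ, a, b⟩ := ram H k c' (S.sup id) (fun u hu w => by simp only [c', Out.smul hu])
      fun w hw => c0 w fun m => hw.not_ge (Finset.le_sup (f := id) m)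
    obtain ⟨β, d1, d2⟩ := units H k fun o => χ (te γ f k o)
    refine ⟨_, ch_add a d1.ch0.2.1 1, fun w hw j hj => ?_, fun o => ?_, fun i => ?_⟩
    · rw [b w hw.1 j hj, c0 w hw.2, d1.ch0.2.2 w hw.1 j hj]
      simp
    · rw [d2, one_mul]
      exact CharTwo.add_self_eq_zero _
    · have oi := o _ (oe i)
      rw [b _ oi _ (ht _ oi), d1.ch0.2.2 _ oi _ (ht _ oi), hq _ oi, mul_zero, add_zero, mul_one]
      refine (Finset.sum_eq_single i (fun j _ ne => if_pos fun u hu m => ne ?_) (by simp)).trans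
        (if_neg fun m => m 1 (one_mem _) (by simp))
      have m' : u • (e.symm i).1 = (e.symm j).1 := m
      exact e.symm.injective (Subtype.ext
        (m'.symm.trans (h1 _ (e.symm i).2 u hu (m' ▸ (e.symm j).2))))

end Pool.Agent.P.MP_8b7eba_nt.CG.K
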