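import Pool.Agent.P.MP_8b7eba_nt.CG.LEuler

/-! The quartic residue character, its Jacobi sum, and the number of points of
`y² = x³ - D x` modulo a prime. -/

namespace Pool.Agent.P.MP_8b7eba_nt.CG.L

open Finset

theorem norm_one {u : GaussianInt} (h : u ^ 4 = 1) : u.norm = 1 := by
  have h1 : u.norm ^ 4 = 1 := by
    simpa [Zsqrtd.normMonoidHom, h] using (map_pow Zsqrtd.normMonoidHom u 4).symm
  exact (pow_eq_one_iff_of_nonneg (GaussianInt.norm_nonneg u) four_ne_zero).1 h1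

theorem star_eq {u : GaussianInt} (h : u ^ 4 = 1) : star u = u ^ 3 := by
  have : ∀ u ∈ ({1, -1, ⟨0, 1⟩, ⟨0, -1⟩} : Finset GaussianInt), star u = u ^ 3 := by decide
  exact this u (units4 (norm_one h))

theorem root_inj {F : Type} [Field F] (h2 : (2 : F) ≠ 0) (r : GaussianInt →+* F)
    {u v : GaussianInt} (hu : u ^ 4 = 1) (hv : v ^ 4 = 1) (e : r u = r v) : u = v := by
  have h : ∀ u ∈ ({1, -1, ⟨0, 1⟩, ⟨0, -1⟩} : Finset GaussianInt),
      ∀ v ∈ ({1, -1, ⟨0, 1⟩, ⟨0, -1⟩} : Finset GaussianInt), u = v ∨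
        (u - v) * star (u - v) = 2 ∨ (u - v) * star (u - v) = 2 * 2 := by decide
  rcases h u (units4 (norm_one hu)) v (units4 (norm_one hv)) with h | h | h
  · exact h
  all_goals
    have h3 := congrArg r h
    rw [map_mul, map_sub, e, sub_self, zero_mul] at h3
    simp [map_ofNat, h2, h2.symm] at h3

theorem rc_ne {F : Type} [Field F] (h2 : (2 : F) ≠ 0) : ringChar F ≠ 2 := fun h =>
  h2 (by exact_mod_cast h ▸ ringChar.Nat.cast_ringChar (R := F))

theorem exists_chi {F : Type} [Field F] [Fintype F] {k : ℕ} (hk : Fintype.card F = 4 * k + 1)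
    (r : GaussianInt →+* F) : (2 : F) ≠ 0 ∧ ∃ χ : MulChar F GaussianInt,
      (∀ x, r (χ x) = x ^ k) ∧ ∀ x ≠ 0, χ x ^ 4 = 1 := by
  classical
  have h2 : (2 : F) ≠ 0 := fun h => by
    have h1 := FiniteField.cast_card_eq_zero F
    rw [hk] at h1
    push_cast at h1
    exact one_ne_zero (α := F) (by linear_combination h1 - 2 * k * h)
  have k0 : k ≠ 0 := by
    have := Fintype.one_lt_card (α := F)
    omega
  have ex : ∀ x : F, ∃ u : GaussianInt, r u = x ^ k ∧ (x ≠ 0 → u ^ 4 = 1) ∧ (x = 0 → u = 0) := by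
    intro x
    by_cases hx : x = 0
    · exact ⟨0, by simp [hx, k0], fun h => (h hx).elim, fun _ => rfl⟩
    have h1 := FiniteField.pow_card_sub_one_eq_one x hx
    rw [hk, Nat.add_sub_cancel, pow_mul'] at h1
    have hj : r ⟨0, 1⟩ * r ⟨0, 1⟩ = -1 := by
      rw [← map_mul, show (⟨0, 1⟩ * ⟨0, 1⟩ : GaussianInt) = -1 by decide]; simp
    have h3 : (r 1 - x ^ k) * (r (-1) - x ^ k) * (r ⟨0, 1⟩ - x ^ k) * (r (-⟨0, 1⟩) - x ^ k) = 0 := by
      rw [map_neg, map_neg, map_one]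
      linear_combination h1 - ((x ^ k) ^ 2 - 1) * hj
    simp only [mul_eq_zero, sub_eq_zero] at h3
    rcases h3 with ((h | h) | h) | h <;> exact ⟨_, h, fun _ => by decide, fun h => (hx h).elim⟩
  choose c c1 c2 c3 using ex
  refine ⟨h2, ⟨⟨⟨c, root_inj h2 r (c2 1 one_ne_zero) (one_pow _) (by simp [c1])⟩, fun x y => ?_⟩,
    fun x hx => c3 x (by simpa using hx)⟩, c1, c2⟩
  by_cases hx : x = 0
  · simp [hx, c3 0 rfl]
  by_cases hy : y = 0
  · simp [hy, c3 0 rfl]
  exact root_inj h2 r (c2 _ (mul_ne_zero hx hy)) (by rw [mul_pow, c2 x hx, c2 y hy, one_mul])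
    (by rw [map_mul, c1, c1, c1, mul_pow])

section
variable {F : Type} [Field F] [Fintype F] [DecidableEq F] {k : ℕ}
  (hk : Fintype.card F = 4 * k + 1) {r : GaussianInt →+* F} {χ : MulChar F GaussianInt}
  (h1 : ∀ x, r (χ x) = x ^ k) (h4 : ∀ x ≠ 0, χ x ^ 4 = 1)
include hk h1 h4

theorem chi_sq (x : F) : χ x ^ 2 = (quadraticChar F x : ℤ) := by
  have h2 := (exists_chi hk r).1
  by_cases hx : x = 0
  · simp [hx, MulChar.map_zero]
  refine root_inj h2 r (by rw [← pow_mul, mul_comm, pow_mul, h4 x hx, one_pow]) ?_ ?_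
  · rcases quadraticChar_dichotomy hx with h | h <;> rw [h] <;> decide
  · rw [map_pow, h1, map_intCast, quadraticChar_eq_pow_of_char_ne_two' (rc_ne h2),
      ← pow_mul, hk]
    congr 1
    omega

theorem chi_ne : χ ≠ 1 ∧ χ ^ 2 ≠ 1 ∧ χ * χ ^ 2 ≠ 1 := by
  obtain ⟨x, hx⟩ := quadraticChar_exists_neg_one (rc_ne (exists_chi hk r).1)
  have h := chi_sq hk h1 h4 x
  have hu : IsUnit x := isUnit_iff_ne_zero.2 (by rintro rfl; simp at hx)
  rw [hx] at h
  refine ⟨fun e => ?_, fun e => ?_, fun e => ?_⟩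
  · rw [e, MulChar.one_apply hu] at h
    exact absurd h (by decide)
  · rw [← MulChar.pow_apply' _ two_ne_zero, e, MulChar.one_apply hu] at h
    exact absurd h (by decide)
  · have h3 := DFunLike.congr_fun e x
    rw [MulChar.mul_apply, MulChar.pow_apply' _ two_ne_zero, MulChar.one_apply hu, h] at h3
    rw [show χ x = -1 by push_cast at h3; linear_combination -h3] at h
    exact absurd h (by decide)

theorem jac_norm : (jacobiSum χ (χ ^ 2)).norm = Fintype.card F := by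
  obtain ⟨a, b, c⟩ := chi_ne hk h1 h4
  have hi := GaussianInt.toComplex_injective
  have h := jacobiSum_mul_jacobiSum_inv (F' := ℂ) (χ := χ.ringHomComp GaussianInt.toComplex)
    (φ := (χ ^ 2).ringHomComp GaussianInt.toComplex)
    (by rw [ringChar.eq_zero]; exact (CharP.ringChar_ne_zero_of_finite F).symm)
    ((MulChar.ringHomComp_ne_one_iff hi).2 a) ((MulChar.ringHomComp_ne_one_iff hi).2 b)
    (by rw [← MulChar.ringHomComp_mul]; exact (MulChar.ringHomComp_ne_one_iff hi).2 c)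
  have h2 : jacobiSum (χ.ringHomComp GaussianInt.toComplex)⁻¹
      ((χ ^ 2).ringHomComp GaussianInt.toComplex)⁻¹ = star (jacobiSum (χ.ringHomComp
      GaussianInt.toComplex) ((χ ^ 2).ringHomComp GaussianInt.toComplex)) := by
    simp only [jacobiSum, star_sum, star_mul', MulChar.star_apply']
  rw [h2, jacobiSum_ringHomComp, RCLike.star_def, Complex.mul_conj,
    ← GaussianInt.intCast_real_norm] at h
  exact_mod_cast h

omit h4 [DecidableEq F] in
theorem jac_zero : r (jacobiSum χ (χ ^ 2)) = 0 := by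
  have := Fintype.one_lt_card (α := F)
  simp only [jacobiSum, map_sum, map_mul, MulChar.pow_apply' _ two_ne_zero, map_pow, h1, ← pow_mul]
  simp only [sub_eq_neg_add (1 : F), add_pow, mul_sum, one_pow, mul_one]
  rw [sum_comm]
  refine sum_eq_zero fun j hj => ?_
  have := FiniteField.sum_pow_lt_card_sub_one F (k + j) (by rw [mem_range] at hj; omega)
  rw [← mul_zero ((-1) ^ j * ((k * 2).choose j : F)), ← this, mul_sum]
  exact sum_congr rfl fun x _ => by rw [neg_pow x]; ring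

theorem jac_prim : (⟨2, 2⟩ : GaussianInt) ∣ -jacobiSum χ (χ ^ 2) - 1 := by
  obtain ⟨a, b, -⟩ := chi_ne hk h1 h4
  have h : (⟨2, 2⟩ : GaussianInt) ∣ ∑ v, (χ v - 1) * ((χ ^ 2) (1 - v) - 1) :=
    dvd_sum fun v _ => by
      by_cases h0 : v = 0
      · simp [h0, MulChar.map_zero]
      by_cases h0' : 1 - v = 0
      · simp [← sub_eq_zero.1 h0']
      rw [show (⟨2, 2⟩ : GaussianInt) = ⟨1, 1⟩ * 2 by decide, MulChar.pow_apply' _ two_ne_zero,
        chi_sq hk h1 h4]
      refine mul_dvd_mul ?_ ?_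
      · have : ∀ u ∈ ({1, -1, ⟨0, 1⟩, ⟨0, -1⟩} : Finset GaussianInt), ∃ w ∈
          ({0, -1, ⟨0, 1⟩, ⟨-1, 1⟩} : Finset GaussianInt), u - 1 = ⟨1, 1⟩ * w := by decide
        exact (this _ (units4 (norm_one (h4 v h0)))).imp fun _ h => h.2
      · rcases quadraticChar_dichotomy h0' with h | h <;> rw [h] <;> simp [show (-1 - 1 : GaussianInt) = -2 by decide]
  have h3 : ∑ v, (χ ^ 2) (1 - v) = 0 :=
    ((Equiv.subLeft (1 : F)).sum_comp fun v => (χ ^ 2) v).trans (MulChar.sum_eq_zero_of_ne_one b)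
  simp only [sub_mul, mul_sub, sum_sub_distrib, mul_one, one_mul, h3, sum_const, card_univ, hk,
    MulChar.sum_eq_zero_of_ne_one a] at h
  obtain ⟨w, h⟩ := h
  refine ⟨⟨1, -1⟩ * k - w, ?_⟩
  rw [mul_sub, ← h, ← mul_assoc, show (⟨2, 2⟩ * ⟨1, -1⟩ : GaussianInt) = 4 by decide, jacobiSum]
  simp only [nsmul_eq_mul]
  push_cast
  ring

theorem char_sum (d : F) (hd : d ≠ 0) : ∑ x, ((quadraticChar F (x ^ 3 + -d * x + 0) : ℤ) : GaussianInt)
    = χ d * star (jacobiSum χ (χ ^ 2)) + star (χ d) * jacobiSum χ (χ ^ 2) := by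
  have h2 := rc_ne (exists_chi hk r).1
  have e1 : ∀ x, ((quadraticChar F (x ^ 3 + -d * x + 0) : ℤ) : GaussianInt) =
      χ (x ^ 2) * χ (x ^ 2 - d) ^ 2 := fun x => by
    rw [← chi_sq hk h1 h4, show x ^ 3 + -d * x + 0 = x * (x ^ 2 - d) by ring, map_mul, map_pow]
    ring
  have e2 : ∑ x, χ (x ^ 2) * χ (x ^ 2 - d) ^ 2 = ∑ u, (χ u ^ 2 + 1) * (χ u * χ (u - d) ^ 2) := by
    rw [← sum_fiberwise_of_maps_to (g := fun x : F => x ^ 2) (t := univ) fun _ _ => mem_univ _]
    refine sum_congr rfl fun u _ => ?_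
    rw [sum_congr rfl (g := fun _ => χ u * χ (u - d) ^ 2) fun x hx => by rw [(mem_filter.1 hx).2],
      sum_const, nsmul_eq_mul, chi_sq hk h1 h4 u]
    have := quadraticChar_card_sqrts h2 u
    rw [Set.toFinset_ofPred] at this
    exact congrArg (· * _) (by exact_mod_cast congrArg (Int.cast : ℤ → GaussianInt) this)
  have st : ∀ x, star (χ x) = χ x ^ 3 := fun x => by
    by_cases hx : x = 0
    · simp [hx, MulChar.map_zero]
    · exact star_eq (h4 x hx)
  simp only [e1, e2, jacobiSum, star_sum, star_mul', mul_sum, ← sum_add_distrib,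
    MulChar.pow_apply' _ two_ne_zero, star_pow, st]
  refine (Fintype.sum_equiv (Equiv.mulLeft₀ d hd) _ _ fun v => ?_).symm
  have e3 : χ (-1) ^ 2 = 1 := by rw [← map_pow]; simp
  have e4 : χ (1 - v) ^ 6 = χ (1 - v) ^ 2 := by
    by_cases h : 1 - v = 0
    · simp [h, MulChar.map_zero]
    · linear_combination χ (1 - v) ^ 2 * h4 _ h
  rw [Equiv.mulLeft₀_apply, show d * v - d = -1 * (d * (1 - v)) by ring]
  simp only [map_mul, mul_pow, e3, ← pow_mul, e4]
  linear_combination -χ d * χ v ^ 3 * χ (1 - v) ^ 2 * h4 d hd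

end

theorem card_pts {F : Type} [Field F] [Fintype F] [DecidableEq F] (h2 : ringChar F ≠ 2)
    (f : F → F) : (Nat.card {q : F × F // q.2 ^ 2 = f q.1} : ℤ) =
      Fintype.card F + ∑ x, quadraticChar F (f x) := by
  rw [Nat.card_eq_fintype_card, Fintype.card_subtype, card_filter, Fintype.sum_prod_type,
    ← card_univ, card_eq_sum_ones]
  push_cast
  rw [← sum_add_distrib]
  refine sum_congr rfl fun x _ => ?_
  rw [add_comm, ← quadraticChar_card_sqrts h2, Set.toFinset_ofPred, card_filter]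
  simp

end Pool.Agent.P.MP_8b7eba_nt.CG.L
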