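import Mathlib

/-! The Euler sieve over the Gaussian integers. -/

namespace Pool.Agent.P.MP_8b7eba_nt.CG.L

open Filter Topology

open Classical in
theorem sieve {ψ : GaussianInt → ℂ} {Z c : ℂ} {π : GaussianInt} (hs : HasSum ψ Z) (hπ : π ≠ 0)
    (h : ∀ α, ψ (π * α) = c * ψ α) :
    HasSum (fun α => if π ∣ α then 0 else ψ α) ((1 - c) * Z) := by
  have h1 : HasSum (fun α => if π ∣ α then ψ α else 0) (c * Z) := by
    rw [← (mul_right_injective₀ hπ).hasSum_iff]
    · exact (hs.mul_left c).congr_fun fun α => by simp [h]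
    · exact fun α hα => if_neg fun ⟨β, e⟩ => hα ⟨β, e.symm⟩
  rw [sub_mul, one_mul]
  exact (hs.sub h1).congr_fun fun α => by split_ifs <;> simp

theorem norm_dvd {α β : GaussianInt} (h : α ∣ β) : α.norm ∣ β.norm := by
  obtain ⟨γ, rfl⟩ := h
  exact ⟨γ.norm, Zsqrtd.norm_mul _ _⟩

theorem star_dvd {α β : GaussianInt} (h : α ∣ star β) : star α ∣ β := by
  obtain ⟨γ, e⟩ := h
  exact ⟨star γ, by rw [← star_mul', ← e, star_star]⟩

theorem dvd_norm_iff {p : ℕ} {π α : GaussianInt} (hπ : Prime π) (h1 : π ∣ p)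
    (h2 : (p : ℤ) ∣ π.norm) : (p : ℤ) ∣ α.norm ↔ π ∣ α ∨ star π ∣ α := by
  constructor
  · intro h
    have h3 : π ∣ α * star α := by
      rw [← Zsqrtd.norm_eq_mul_conj]
      exact h1.trans (by exact_mod_cast Int.cast_dvd_cast (α := GaussianInt) _ _ h)
    exact (hπ.dvd_or_dvd h3).imp_right star_dvd
  · rintro (h | h)
    · exact h2.trans (norm_dvd h)
    · exact h2.trans (by simpa using norm_dvd h)

theorem units4 {α : GaussianInt} (h : α.norm = 1) :
    α ∈ ({1, -1, ⟨0, 1⟩, ⟨0, -1⟩} : Finset GaussianInt) := by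
  obtain ⟨a, b⟩ := α
  rw [Zsqrtd.norm_def] at h
  dsimp only at h
  have h1 : a ≤ 1 := by nlinarith [sq_nonneg b]
  have h2 : -1 ≤ a := by nlinarith [sq_nonneg b]
  have h3 : b ≤ 1 := by nlinarith [sq_nonneg a]
  have h4 : -1 ≤ b := by nlinarith [sq_nonneg a]
  interval_cases a <;> interval_cases b <;> simp_all <;> decide

theorem tsum_units : ∑' α : GaussianInt, (if α.norm = 1 then (1 : ℂ) else 0) = 4 := by
  have h : ∀ α ∈ ({1, -1, ⟨0, 1⟩, ⟨0, -1⟩} : Finset GaussianInt), α.norm = 1 := by decide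
  have h4 : ({1, -1, ⟨0, 1⟩, ⟨0, -1⟩} : Finset GaussianInt).card = 4 := by decide
  rw [tsum_eq_sum fun α hα => if_neg fun h => hα (units4 h),
    Finset.sum_congr rfl fun α hα => if_pos (h α hα), Finset.sum_const, h4]
  simp

theorem euler {φ : GaussianInt → ℂ} {Z : ℂ} (hs : HasSum φ Z)
    (hm : ∀ α β, φ (α * β) = φ α * φ β) (hu : ∀ α, α.norm = 1 → φ α = 1)
    {bad : ℕ → Prop} (hb : ∀ p : ℕ, p.Prime → bad p → ∀ α, (p : ℤ) ∣ α.norm → φ α = 0)
    {g : {p : ℕ // p.Prime ∧ ¬ bad p} → ℂ}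
    (hg : ∀ p, (Prime (p.1 : GaussianInt) ∧ g p = 1 - φ p.1) ∨ ∃ π : GaussianInt, Prime π ∧
      π.norm = p.1 ∧ ¬ star π ∣ π ∧ g p = (1 - φ π) * (1 - φ (star π))) :
    HasProd (fun p => (g p)⁻¹) (Z / 4) := by
  classical
  have key : ∀ S : Finset {p : ℕ // p.Prime ∧ ¬ bad p}, HasSum
      (fun α => if ∀ p ∈ S, ¬ (p.1 : ℤ) ∣ α.norm then φ α else 0) ((∏ p ∈ S, g p) * Z) := by
    intro S
    induction S using Finset.induction_on with
    | empty => simpa using hs
    | insert p S hp ih =>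
      have st : ∀ π : GaussianInt, π.norm ∣ p.1 ^ 2 → ∀ α : GaussianInt,
          (if ∀ q ∈ S, ¬ (q.1 : ℤ) ∣ (π * α).norm then φ (π * α) else 0) =
          φ π * if ∀ q ∈ S, ¬ (q.1 : ℤ) ∣ α.norm then φ α else 0 := fun π hπ α => by
        rw [mul_ite, mul_zero, hm]
        refine if_congr (forall₂_congr fun q hq => not_congr ?_) rfl rfl
        have hq' := Nat.prime_iff_prime_int.1 q.2.1
        rw [Zsqrtd.norm_mul, hq'.dvd_mul, or_iff_right]
        intro h
        have h1 := Int.natCast_dvd_natCast.1 (hq'.dvd_of_dvd_pow (h.trans hπ))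
        exact hp (Subtype.ext ((Nat.prime_dvd_prime_iff_eq q.2.1 p.2.1).1 h1) ▸ hq)
      rw [Finset.prod_insert hp, mul_assoc]
      rcases hg p with ⟨h1, h2⟩ | ⟨π, h1, h2, h3, h4⟩
      · rw [h2]
        refine (sieve ih h1.ne_zero (st _ (by simp [sq]))).congr_fun fun α => ?_
        have := dvd_norm_iff (α := α) h1 dvd_rfl (by simp)
        rw [star_natCast, or_self] at this
        simp only [Finset.forall_mem_insert, this, ite_and, ite_not]
      · have h5 : π.norm ∣ p.1 ^ 2 := h2 ▸ dvd_pow_self _ two_ne_zero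
        have h6 := sieve (sieve ih h1.ne_zero (st _ h5)) (star_ne_zero.2 h1.ne_zero)
          (c := φ (star π)) fun α => by
            rw [st _ (by simpa using h5), mul_ite (π ∣ α), mul_zero]
            exact if_congr (by rw [h1.dvd_mul, or_iff_right fun h => h3 (star_dvd h)]) rfl rfl
        rw [h4, mul_comm (1 - φ π), mul_assoc]
        refine h6.congr_fun fun α => ?_
        have := dvd_norm_iff (α := α) (p := p.1) h1
          ⟨star π, by rw [← Zsqrtd.norm_eq_mul_conj, h2, Int.cast_natCast]⟩ h2.symm.dvd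
        simp only [Finset.forall_mem_insert, this, not_or]
        by_cases h : π ∣ α <;> by_cases h' : star π ∣ α <;>
          simp only [h, h', not_true, not_false_iff, false_and, true_and, and_false, if_true, if_false]
  have lim : Tendsto (fun S : Finset {p : ℕ // p.Prime ∧ ¬ bad p} => (∏ p ∈ S, g p) * Z) atTop
      (𝓝 4) := by
    have h4 : ∑' α : GaussianInt, (if α.norm = 1 then φ α else 0) = 4 :=
      (tsum_congr fun α => by split_ifs with h <;> simp [h, hu]).trans tsum_units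
    simp only [← h4, fun S => (key S).tsum_eq.symm]
    refine tendsto_tsum_of_dominated_convergence hs.summable.norm (fun α => ?_)
      (.of_forall fun S α => by split_ifs <;> simp)
    refine tendsto_const_nhds.congr' ?_
    by_cases h1 : α.norm = 1
    · refine .of_forall fun S => ?_
      refine (if_pos h1).trans (if_pos fun p _ h => p.2.1.one_lt.ne' ?_).symm
      exact_mod_cast Int.eq_one_of_dvd_one (by positivity) (h1 ▸ h)
    obtain ⟨p, hp, hd⟩ := Nat.exists_prime_and_dvd (n := α.norm.natAbs) fun h => h1 (by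
      have := GaussianInt.norm_nonneg α
      omega)
    rw [← Int.natCast_dvd] at hd
    by_cases hbp : bad p
    · exact .of_forall fun S => by simp [hb p hp hbp α hd]
    filter_upwards [eventually_ge_atTop {⟨p, hp, hbp⟩}] with S hS
    rw [if_neg h1, if_neg fun h => h ⟨p, hp, hbp⟩ (hS (Finset.mem_singleton_self _)) hd]
  have hZ : Z ≠ 0 := by
    rintro rfl
    simp at lim
  have h2 := ((lim.mul_const Z⁻¹).inv₀ (by simpa using hZ))
  simp only [mul_inv_cancel_right₀ hZ, ← Finset.prod_inv_distrib] at h2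
  rw [div_eq_mul_inv]
  simpa [HasProd] using h2

end Pool.Agent.P.MP_8b7eba_nt.CG.L
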