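import Mathlib

/-! Analytic continuation of periodic Hecke series over the Gaussian integers, and the value at
one as a limit of Gaussian sums. -/

namespace Pool.Agent.P.MP_8b7eba_nt.CG.L

open Complex Filter Topology Set Asymptotics HurwitzZeta MeasureTheory
open scoped Real ComplexConjugate

/-- `r c`, `c ∈ R`, are incongruent modulo `m` and represent the elements which satisfy `P` -/
structure Reps {ι : Type} (P : GaussianInt → Prop) (m : GaussianInt) (R : Finset ι)
    (r : ι → GaussianInt) : Prop where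
  ex : ∀ α, P α → ∃ c ∈ R, m ∣ α - r c
  inj : ∀ c ∈ R, ∀ c' ∈ R, m ∣ r c - r c' → c = c'

/-- real and imaginary part -/
def eqv : ℤ × ℤ ≃+ GaussianInt where
  toFun p := ⟨p.1, p.2⟩
  invFun α := (α.re, α.im)
  left_inv _ := rfl
  right_inv _ := rfl
  map_add' _ _ := rfl

instance : Countable GaussianInt := eqv.symm.injective.countable

theorem exists_reps {m : GaussianInt} (hm : m ≠ 0) :
    ∃ R : Finset GaussianInt, Reps (fun _ => True) m R id := by
  classical
  have := Module.Free.of_equiv eqv.toIntLinearEquiv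
  have := Module.Finite.equiv eqv.toIntLinearEquiv
  have : Finite (GaussianInt ⧸ Ideal.span {m}) :=
    Ideal.finiteQuotientOfFreeOfNeBot _ (by simpa using hm)
  have := Fintype.ofFinite (GaussianInt ⧸ Ideal.span {m})
  refine ⟨Finset.univ.image (fun q : GaussianInt ⧸ Ideal.span {m} => q.out), fun α _ =>
    ⟨(Ideal.Quotient.mk (Ideal.span {m}) α).out, by simp, ?_⟩, fun c hc c' hc' h => ?_⟩
  · rw [← Ideal.mem_span_singleton, ← Ideal.Quotient.eq, id, Ideal.Quotient.mk_out]
  · obtain ⟨q, -, rfl⟩ := Finset.mem_image.1 hc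
    obtain ⟨q', -, rfl⟩ := Finset.mem_image.1 hc'
    rw [← Ideal.mem_span_singleton, ← Ideal.Quotient.eq, id, id, Ideal.Quotient.mk_out,
      Ideal.Quotient.mk_out] at h
    rw [h]

theorem Reps.hasSum {ι : Type} {P : GaussianInt → Prop} {m : GaussianInt} {R : Finset ι}
    {r : ι → GaussianInt} (hR : Reps P m R r) (hm : m ≠ 0) {f : GaussianInt → ℂ} {a : ι → ℂ}
    (hf : ∀ α, ¬ P α → f α = 0) (h : ∀ c ∈ R, HasSum (fun β => f (r c + m * β)) (a c)) :
    HasSum f (∑ c ∈ R, a c) := by
  classical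
  have h1 : ∀ c ∈ R, HasSum (fun α => if m ∣ α - r c then f α else 0) (a c) := fun c hc => by
    have hi : Function.Injective fun β => r c + m * β :=
      fun x y e => mul_left_cancel₀ hm (add_left_cancel e)
    rw [← hi.hasSum_iff]
    · simpa [Function.comp_def] using h c hc
    · intro α hα
      rw [if_neg]
      rintro ⟨β, e⟩
      exact hα ⟨β, by simp only [← e]; ring⟩
  refine (hasSum_sum h1).congr_fun fun α => ?_
  by_cases hα : P α
  · obtain ⟨c, hc, hd⟩ := hR.ex α hα
    rw [Finset.sum_eq_single c (fun b hb hbc => if_neg fun h => hbc (hR.inj b hb c hc (by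
      simpa using hd.sub h))) (fun h => (h hc).elim), if_pos hd]
  · simp [hf α hα]

/-- the theta kernel of weight two -/
noncomputable def th (z : ℂ) (t : ℝ) : ℂ :=
  oddKernel z.re t * evenKernel z.im t - I * (evenKernel z.re t * oddKernel z.im t)

theorem hasSum_th (z : ℂ) {t : ℝ} (ht : 0 < t) :
    HasSum (fun β : GaussianInt => conj (z + β) * rexp (-π * normSq (z + β) * t)) (th z t) := by
  rw [← eqv.toEquiv.hasSum_iff]
  have k : ∀ {f g : ℤ → ℝ} {a b : ℝ}, HasSum f a → HasSum g b →
      HasSum (fun p : ℤ × ℤ => ((f p.1 * g p.2 : ℝ) : ℂ)) (a * b) := fun hf hg => by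
    rw [← ofReal_mul, hasSum_ofReal]
    exact hf.mul hg (summable_mul_of_summable_norm hf.summable.norm hg.summable.norm)
  refine ((k (hasSum_int_oddKernel z.re ht) (hasSum_int_evenKernel z.im ht)).sub
    ((k (hasSum_int_evenKernel z.re ht) (hasSum_int_oddKernel z.im ht)).mul_left I)).congr_fun
    fun p => ?_
  have e1 : normSq (z + (eqv.toEquiv p : GaussianInt)) = (p.1 + z.re) ^ 2 + (p.2 + z.im) ^ 2 := by
    simp [normSq_apply, eqv, GaussianInt.toComplex_def]; ring
  have e2 : conj (z + (eqv.toEquiv p : GaussianInt)) = ((p.1 + z.re : ℝ) : ℂ) - I * (p.2 + z.im : ℝ) := by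
    apply Complex.ext <;> simp [eqv, GaussianInt.toComplex_def, add_comm]
  simp only [Function.comp_apply, e1, e2]
  rw [show -π * ((p.1 + z.re) ^ 2 + (p.2 + z.im) ^ 2) * t =
    -π * (p.1 + z.re) ^ 2 * t + -π * (p.2 + z.im) ^ 2 * t by ring, Real.exp_add]
  push_cast
  ring

/-- continuous on the half line with rapid decay at both ends -/
structure Rap (f : ℝ → ℂ) : Prop where
  cont : ContinuousOn f (Ioi 0)
  top : ∀ r : ℝ, f =O[atTop] (· ^ r)
  bot : ∀ r : ℝ, f =O[𝓝[>] 0] (· ^ r)

theorem rap_mul (a b : UnitAddCircle) : Rap fun t => oddKernel a t * evenKernel b t := by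
  have ho := isStrong_hurwitzOddFEPair a
  refine ⟨(continuous_ofReal.comp_continuousOn (continuousOn_oddKernel a)).mul
    (continuous_ofReal.comp_continuousOn (continuousOn_evenKernel b)), fun r => ?_, fun r => ?_⟩
  · have h1 := ((hurwitzEvenFEPair b).hf_top 0).add
      (isBigO_const_const (hurwitzEvenFEPair b).f₀ (one_ne_zero (α := ℝ)) atTop |>.congr_right
        fun x : ℝ => (Real.rpow_zero x).symm)
    exact ((ho.hf_top r).mul h1).congr (fun x => by simp [hurwitzEvenFEPair]) fun x => by simp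
  · have h1 := (hurwitzEvenFEPair b).hf_zero'
    have h2 : (fun _ : ℝ => (hurwitzEvenFEPair b).f₀) =O[𝓝[>] 0]
        fun x : ℝ => x ^ (-(hurwitzEvenFEPair b).k) := by
      refine (isBigO_const_const _ (one_ne_zero (α := ℝ)) _).trans (IsBigO.of_bound 1 ?_)
      filter_upwards [Ioo_mem_nhdsGT one_pos] with x hx
      rw [one_mul, norm_one, Real.norm_of_nonneg (Real.rpow_nonneg hx.1.le _)]
      exact Real.one_le_rpow_of_pos_of_le_one_of_nonpos hx.1 hx.2.le
        (neg_nonpos.2 (hurwitzEvenFEPair b).hk.le)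
    refine ((ho.hf_zero (r + (hurwitzEvenFEPair b).k)).mul (h1.add h2)).congr' ?_ ?_
    · exact .of_forall fun x => by simp [hurwitzEvenFEPair]
    · filter_upwards [self_mem_nhdsWithin] with x hx
      rw [← Real.rpow_add hx, add_neg_cancel_right]

theorem Rap.cmul {f : ℝ → ℂ} (h : Rap f) (c : ℂ) : Rap fun t => c * f t :=
  ⟨continuousOn_const.mul h.1, fun r => (h.2 r).const_mul_left c, fun r => (h.3 r).const_mul_left c⟩

theorem rap_th (z : ℂ) : Rap (th z) := by
  have h1 := rap_mul z.re z.im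
  have h2 := (rap_mul z.im z.re).cmul I
  have e : th z = fun t => oddKernel z.re t * evenKernel z.im t -
      I * (oddKernel z.im t * evenKernel z.re t) := funext fun t => by rw [th]; ring
  rw [e]
  exact ⟨h1.1.sub h2.1, fun r => (h1.2 r).sub (h2.2 r), fun r => (h1.3 r).sub (h2.3 r)⟩

theorem rap_sum {ι : Type} (R : Finset ι) {f : ι → ℝ → ℂ} (h : ∀ c, Rap (f c)) :
    Rap fun t => ∑ c ∈ R, f c t :=
  ⟨continuousOn_finsetSum _ fun c _ => (h c).1, fun r => .fun_sum fun c _ => (h c).2 r,
    fun r => .fun_sum fun c _ => (h c).3 r⟩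

/-- the lattice `Ω ℤ[i]` -/
noncomputable def latE {L : PeriodPair} {Ω : ℂ} (hΩ : Ω ≠ 0)
    (hL : ∀ x, x ∈ L.lattice ↔ ∃ α : GaussianInt, Ω * α = x) : GaussianInt ≃ L.lattice :=
  Equiv.ofBijective (fun α => ⟨Ω * α, (hL _).2 ⟨α, rfl⟩⟩) ⟨fun _ _ e =>
    GaussianInt.toComplex_injective (mul_left_cancel₀ hΩ (congrArg Subtype.val e)), fun x =>
    ((hL _).1 x.2).imp fun _ h => Subtype.ext h⟩

/-- the periods `1, i` -/
noncomputable def gp : PeriodPair where
  ω₁ := 1
  ω₂ := I
  indep := by simpa using basisOneI.linearIndependent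

theorem mem_gp (x : ℂ) : x ∈ gp.lattice ↔ ∃ α : GaussianInt, 1 * α = x := by
  rw [PeriodPair.mem_lattice]
  exact ⟨fun ⟨a, b, h⟩ => ⟨⟨a, b⟩, by simpa [gp, GaussianInt.toComplex_def] using h⟩,
    fun ⟨α, h⟩ => ⟨α.re, α.im, by simpa [gp, GaussianInt.toComplex_def] using h⟩⟩

theorem summable_rpow {r : ℝ} (hr : r < -2) : Summable fun α : GaussianInt => ‖(α : ℂ)‖ ^ r := by
  have h := ZLattice.summable_norm_rpow gp.lattice r (by simpa [ZLattice.rank ℝ gp.lattice] using hr)
  rw [← (latE one_ne_zero mem_gp).summable_iff] at h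
  exact h.congr fun α => by simp [latE]

theorem coe_ne {α : GaussianInt} (h : α ≠ 0) : (α : ℂ) ≠ 0 := by simpa using h

theorem exists_cont {m : GaussianInt} (hm : m ≠ 0) {η : GaussianInt → ℂ}
    (hper : ∀ α β, η (α + m * β) = η α) (hb : ∀ α, ‖η α‖ ≤ 1) :
    ∃ Z : ℂ → ℂ, Differentiable ℂ Z ∧
      (∀ s : ℂ, 3 / 2 < s.re →
        HasSum (fun α : GaussianInt => η α * conj (α : ℂ) / (normSq (α : ℂ) : ℂ) ^ s) (Z s)) ∧
      Tendsto (fun t : ℝ => ∑' α : GaussianInt, η α * (rexp (-t * normSq (α : ℂ)) / α))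
        (𝓝[>] 0) (𝓝 (Z 1)) := by
  obtain ⟨R, hR⟩ := exists_reps hm
  have hN : 0 < normSq (m : ℂ) := normSq_pos.2 (coe_ne hm)
  set N := normSq (m : ℂ) with hNd
  set F : ℝ → ℂ := fun t => ∑ c ∈ R, η c * conj (m : ℂ) * th (c / m) (N * t) with hF
  have hr : Rap F := rap_sum R fun c => Rap.cmul ⟨(rap_th (c / m)).1.comp (by fun_prop)
      fun x hx => mul_pos hN hx, fun r => ?_, fun r => ?_⟩ _
  rotate_left
  · refine (((rap_th (c / m)).2 r).comp_tendsto (tendsto_id.const_mul_atTop hN)).trans
      (IsBigO.of_bound (N ^ r) ?_)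
    filter_upwards [eventually_gt_atTop 0] with x hx
    simp [Real.mul_rpow hN.le hx.le, abs_of_pos (Real.rpow_pos_of_pos hN r)]
  · have ht : Tendsto (fun x : ℝ => N * x) (𝓝[>] 0) (𝓝[>] 0) :=
      tendsto_nhdsWithin_iff.2 ⟨by
        simpa using (tendsto_id.const_mul N).mono_left (nhdsWithin_le_nhds (a := (0 : ℝ))),
        by filter_upwards [self_mem_nhdsWithin] with x hx using mul_pos hN hx⟩
    refine (((rap_th (c / m)).3 r).comp_tendsto ht).trans (IsBigO.of_bound (N ^ r) ?_)
    filter_upwards [self_mem_nhdsWithin] with x hx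
    simp [Real.mul_rpow hN.le (le_of_lt hx), abs_of_pos (Real.rpow_pos_of_pos hN r)]
  have hs : ∀ t ∈ Ioi (0 : ℝ), HasSum (fun α : GaussianInt =>
      η α * conj (α : ℂ) * rexp (-π * normSq (α : ℂ) * t)) (F t) := fun t ht =>
    hR.hasSum hm (fun _ h => (h trivial).elim) fun c _ =>
      ((hasSum_th (c / m) (mul_pos hN ht)).mul_left _).congr_fun fun β => by
      have e : ((c + m * β : GaussianInt) : ℂ) = m * (c / m + β) := by
        have := coe_ne hm
        simp only [map_add, map_mul]; field_simp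
      rw [id, hper, e, map_mul, normSq_mul, ← hNd]
      rw [show -π * (N * normSq ((c : ℂ) / m + β)) * t = -π * normSq ((c : ℂ) / m + β) * (N * t)
        by ring]
      ring
  have hli := hr.1.locallyIntegrableOn measurableSet_Ioi (μ := volume)
  have hq : ∀ α : GaussianInt, η α * conj (α : ℂ) = 0 ∨ 0 < normSq (α : ℂ) := fun α => by
    by_cases h : α = 0
    · simp [h]
    · exact Or.inr (normSq_pos.2 (coe_ne h))
  have hbd : ∀ (α : GaussianInt) (r : ℝ), 1 / 2 < r →
      ‖η α * conj (α : ℂ)‖ / normSq (α : ℂ) ^ r ≤ ‖(α : ℂ)‖ ^ (1 - 2 * r) := fun α r hr => by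
    by_cases h : α = 0
    · simp [h]; positivity
    have h0 := norm_pos_iff.2 (coe_ne h)
    rw [norm_mul, norm_conj, normSq_eq_norm_sq, Real.rpow_sub h0, Real.rpow_one,
      Real.rpow_mul h0.le, Real.rpow_two]
    gcongr
    exact mul_le_of_le_one_left h0.le (hb α)
  refine ⟨fun s => π ^ s * (Gamma s)⁻¹ * mellin F s, fun s => ?_, fun s h => ?_, ?_⟩
  · refine .mul (.mul (.const_cpow differentiableAt_id (.inl (by simp)))
      (differentiable_one_div_Gamma s)) ?_
    exact mellin_differentiableAt_of_isBigO_rpow hli (hr.2 _) (lt_add_one _) (hr.3 _) (sub_one_lt _)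
  · have h0 : 0 < s.re := by linarith
    refine ((hasSum_mellin_pi_mul hq h0 hs (.of_nonneg_of_le (fun α => ?_)
      (fun α => hbd α _ (by linarith)) (summable_rpow (by linarith)))).mul_left _).congr_fun
      fun α => ?_
    · exact div_nonneg (norm_nonneg _) (Real.rpow_nonneg (normSq_nonneg _) _)
    · have := Gamma_ne_zero_of_re_pos h0
      have : (π : ℂ) ^ s ≠ 0 := by simp [Real.pi_ne_zero]
      rw [cpow_neg]; field_simp
  · have hi : IntegrableOn F (Ioi 0) := by
      simpa [MellinConvergent] using mellinConvergent_of_isBigO_rpow (s := 1) hli (hr.2 _)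
        (lt_add_one _) (hr.3 _) (sub_one_lt _)
    have h1 : Tendsto (fun t : ℝ => t / π) (𝓝[>] 0) (𝓝[≥] 0) :=
      tendsto_nhdsWithin_iff.2 ⟨by
        simpa using (tendsto_id.div_const π).mono_left (nhdsWithin_le_nhds (a := (0 : ℝ))),
        by filter_upwards [self_mem_nhdsWithin] with x hx using (div_pos hx Real.pi_pos).le⟩
    have h2 := (hi.continuousWithinAt_Ici_primitive_Ioi.tendsto.comp h1).const_mul (π : ℂ)
    simp only [cpow_one, Gamma_one, inv_one, mul_one, mellin, sub_self, cpow_zero, one_smul]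
    refine h2.congr' ?_
    filter_upwards [self_mem_nhdsWithin] with t ht
    have hT : 0 < t / π := div_pos ht Real.pi_pos
    have h3 := hasSum_mellin_pi_mul (s := 1) (F := fun x => F (x + t / π))
      (a := fun α : GaussianInt => η α * conj (α : ℂ) * rexp (-π * normSq (α : ℂ) * (t / π)))
      (fun α => (hq α).imp_left fun h => by rw [h, zero_mul]) (by simp)
      (fun x hx => (hs _ (add_pos hx hT)).congr_fun fun α => by
        rw [mul_add, Real.exp_add]; push_cast; ring) ?_
    · have h4 : mellin (fun x => F (x + t / π)) 1 = ∫ x in Ioi (t / π), F x := by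
        simp only [mellin, sub_self, cpow_zero, one_smul]
        rw [← integral_indicator measurableSet_Ioi, ← integral_indicator measurableSet_Ioi,
          ← integral_add_right_eq_self (indicator (Ioi (t / π)) F) (t / π)]
        congr 1 with x
        simp [indicator]
      rw [h4] at h3
      refine ((h3.mul_left (π : ℂ)).congr_fun fun α => ?_).tsum_eq.symm
      rw [show -π * normSq (α : ℂ) * (t / π) = -t * normSq (α : ℂ) by field_simp,
        cpow_one, Gamma_one, cpow_neg_one, normSq_eq_conj_mul_self]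
      by_cases h : α = 0
      · simp [h]
      have := coe_ne h
      have : conj (α : ℂ) ≠ 0 := by simpa using h
      have : (π : ℂ) ≠ 0 := by simp
      field_simp
    · refine .of_nonneg_of_le (fun α => div_nonneg (norm_nonneg _)
        (Real.rpow_nonneg (normSq_nonneg _) _)) (fun α => ?_) (hs _ hT).summable.norm
      rw [one_re, Real.rpow_one]
      by_cases h : α = 0
      · simp [h]
      refine div_le_self (norm_nonneg _) ?_
      rw [← GaussianInt.intCast_real_norm]
      exact_mod_cast GaussianInt.norm_pos.2 h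

end Pool.Agent.P.MP_8b7eba_nt.CG.L
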