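import Pool.Agent.P.MP_8b7eba_nt.CG.LCount
import Pool.Agent.P.MP_8b7eba_nt.CG.LTheta
import Pool.Agent.P.MP_8b7eba_nt.BSD15.Defs

/-! The Euler product of `y² = x³ - D x` is a Hecke series over the Gaussian integers. -/

namespace Pool.Agent.P.MP_8b7eba_nt.CG.L

open Finset Complex Filter Topology
open scoped ComplexConjugate

theorem prime_of_norm {π : GaussianInt} {p : ℕ} (hp : p.Prime) (h : π.norm = p) : Prime π := by
  have h1 : π.norm.natAbs = p := by rw [h, Int.natAbs_natCast]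
  refine Irreducible.prime ⟨fun u => hp.one_lt.ne' (h1 ▸ Zsqrtd.norm_eq_one_iff.2 u), ?_⟩
  rintro a b rfl
  rw [Zsqrtd.norm_mul, Int.natAbs_mul] at h1
  exact (hp.isUnit_or_isUnit h1.symm).imp
    (fun h => Zsqrtd.norm_eq_one_iff.1 (Nat.isUnit_iff.1 h))
    fun h => Zsqrtd.norm_eq_one_iff.1 (Nat.isUnit_iff.1 h)

theorem exists_hom {π : GaussianInt} {p : ℕ} [hp : Fact p.Prime] (h : π.norm = p) :
    ∃ r : GaussianInt →+* ZMod p, ∀ α, r α = 0 ↔ π ∣ α := by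
  have hπ := prime_of_norm hp.out h
  obtain ⟨a, b⟩ := π
  have h1 : (a : ZMod p) * a + b * b = 0 := by
    have := congrArg (Int.cast : ℤ → ZMod p) h
    simpa [Zsqrtd.norm_def] using this
  have hb : (b : ZMod p) ≠ 0 := fun hb => by
    rw [hb, mul_zero, add_zero, mul_self_eq_zero] at h1
    rw [ZMod.intCast_zmod_eq_zero_iff_dvd] at h1 hb
    have h2 := norm_dvd (α := ((p : ℤ) : GaussianInt)) (β := ⟨a, b⟩)
      ((Zsqrtd.intCast_dvd _ _).2 ⟨h1, hb⟩)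
    rw [h, Zsqrtd.norm_intCast] at h2
    have := Int.le_of_dvd (by exact_mod_cast hp.out.pos) h2
    have := hp.out.one_lt
    nlinarith
  let r : GaussianInt →+* ZMod p := Zsqrtd.lift ⟨-a / b, by
    push_cast; field_simp; linear_combination h1⟩
  have h0 : r ⟨a, b⟩ = 0 := by
    simp only [r, Zsqrtd.lift_apply_apply]; field_simp; ring
  refine ⟨r, fun α => ⟨fun hα => by_contra fun hn => ?_, fun ⟨β, e⟩ => by
    rw [e, map_mul, h0, zero_mul]⟩⟩
  obtain ⟨u, v, e⟩ := hπ.coprime_iff_not_dvd.2 hn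
  simpa [h0, hα] using congrArg r e

theorem prim_norm {π : GaussianInt} (h : (⟨2, 2⟩ : GaussianInt) ∣ π - 1) : π.norm % 4 = 1 := by
  obtain ⟨⟨a, b⟩, e⟩ := h
  rw [eq_add_of_sub_eq e, show Zsqrtd.norm ((⟨2, 2⟩ : GaussianInt) * ⟨a, b⟩ + 1) =
    1 + 4 * (2 * a ^ 2 + 2 * b ^ 2 + a - b) by simp [Zsqrtd.norm_def]; ring]
  omega

theorem prim_unique {α β : GaussianInt} (ha : (⟨2, 2⟩ : GaussianInt) ∣ α - 1)
    (hb : (⟨2, 2⟩ : GaussianInt) ∣ β - 1) (h : α ∣ β) (hn : β.norm = α.norm) : β = α := by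
  obtain ⟨w, rfl⟩ := h
  have h0 := prim_norm ha
  rw [Zsqrtd.norm_mul, mul_eq_left₀ (by omega)] at hn
  have h1 : (⟨2, 2⟩ : GaussianInt) ∣ w - 1 := by
    rw [show w - 1 = α * w - 1 - (α - 1) * w by ring]
    exact hb.sub (ha.mul_right _)
  have h2 : ∀ w ∈ ({1, -1, ⟨0, 1⟩, ⟨0, -1⟩} : Finset GaussianInt),
      Zsqrtd.norm (⟨2, 2⟩ : GaussianInt) ∣ (w - 1).norm → w = 1 := by decide
  rw [h2 w (units4 hn) (norm_dvd h1), mul_one]

theorem exists_prim {α : GaussianInt} (h : α.norm % 2 = 1) :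
    ∃ u : GaussianInt, u.norm = 1 ∧ (⟨2, 2⟩ : GaussianInt) ∣ u * α - 1 := by
  have h1 : ∀ a ∈ Ico (0 : ℤ) 4, ∀ b ∈ Ico (0 : ℤ) 4, (a + b) % 2 = 1 →
      ∃ u ∈ ({1, -1, ⟨0, 1⟩, ⟨0, -1⟩} : Finset GaussianInt), u.norm = 1 ∧
        (u * ⟨a, b⟩ - 1) % ⟨2, 2⟩ = 0 := by decide +kernel
  obtain ⟨a, b⟩ := α
  obtain ⟨u, -, hu, h2⟩ := h1 (a % 4) (by rw [mem_Ico]; omega) (b % 4) (by rw [mem_Ico]; omega) (by
    simp only [Zsqrtd.norm_def] at h
    rcases Int.emod_two_eq_zero_or_one a with h1 | h1 <;>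
      rcases Int.emod_two_eq_zero_or_one b with h2 | h2 <;>
      simp [Int.add_emod, Int.mul_emod, h1, h2] at h <;> omega)
  refine ⟨u, hu, ?_⟩
  rw [show u * ⟨a, b⟩ - 1 = u * ⟨a % 4, b % 4⟩ - 1 + ⟨2, 2⟩ * (u * ⟨1, -1⟩ * ⟨a / 4, b / 4⟩) by
    rw [show (⟨a, b⟩ : GaussianInt) = ⟨a % 4, b % 4⟩ + ⟨2, 2⟩ * ⟨1, -1⟩ * ⟨a / 4, b / 4⟩ by
      ext <;> simp <;> omega]
    simp only [Zsqrtd.ext_iff, Zsqrtd.re_add, Zsqrtd.im_add, Zsqrtd.re_mul, Zsqrtd.im_mul,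
      Zsqrtd.re_sub, Zsqrtd.im_sub]
    constructor <;> ring]
  exact (EuclideanDomain.mod_eq_zero.1 h2).add (dvd_mul_right _ _)

theorem jac_eq {π : GaussianInt} {p k : ℕ} [Fact p.Prime] (h : π.norm = p)
    (hπ : (⟨2, 2⟩ : GaussianInt) ∣ π - 1) (hk : Fintype.card (ZMod p) = 4 * k + 1)
    {r : GaussianInt →+* ZMod p} (hr : ∀ α, r α = 0 ↔ π ∣ α) {χ : MulChar (ZMod p) GaussianInt}
    (h1 : ∀ x, r (χ x) = x ^ k) (h4 : ∀ x ≠ 0, χ x ^ 4 = 1) : jacobiSum χ (χ ^ 2) = -π :=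
  neg_eq_iff_eq_neg.1 (prim_unique hπ (jac_prim hk h1 h4) (((hr _).1 (jac_zero hk h1)).neg_right)
    (by rw [Zsqrtd.norm_neg, jac_norm hk h1 h4, h, ZMod.card]))

/-- the trace of Frobenius -/
noncomputable def ap (D : ℤ) (p : ℕ) : ℤ := (p : ℤ) - (Nat.card {q : ZMod p × ZMod p //
  q.2 ^ 2 = q.1 ^ 3 + ((-D : ℤ) : ZMod p) * q.1 + ((0 : ℤ) : ZMod p)} : ℤ)

theorem ap_eq (D : ℤ) (p : ℕ) [Fact p.Prime] (h2 : p ≠ 2) :
    ap D p = -∑ x : ZMod p, quadraticChar (ZMod p) (x ^ 3 + -(D : ZMod p) * x + 0) := by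
  rw [ap, card_pts (by rwa [ZMod.ringChar_zmod_n])
    fun x => x ^ 3 + ((-D : ℤ) : ZMod p) * x + ((0 : ℤ) : ZMod p)]
  simp

theorem ap_split {π e : GaussianInt} {p : ℕ} {D : ℤ} (hp : p.Prime) (h : π.norm = p)
    (hπ : (⟨2, 2⟩ : GaussianInt) ∣ π - 1) (hD : ¬ (p : ℤ) ∣ D) (he : e ^ 4 = 1)
    (hd : π ∣ e - D ^ (p / 4)) : (ap D p : GaussianInt) = e * star π + star e * π := by
  have := Fact.mk hp
  have h0 := prim_norm hπ
  have hk : Fintype.card (ZMod p) = 4 * (p / 4) + 1 := by rw [ZMod.card]; omega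
  obtain ⟨r, hr⟩ := exists_hom h
  obtain ⟨h2, χ, h1, h4⟩ := exists_chi hk r
  have hD' : (D : ZMod p) ≠ 0 := by rwa [Ne, ZMod.intCast_zmod_eq_zero_iff_dvd]
  have h5 : χ D = e := root_inj h2 r (h4 _ hD') he (by
    have := (hr _).2 hd
    rw [map_sub, map_pow, map_intCast, sub_eq_zero] at this
    rw [h1, this])
  rw [ap_eq D p (by omega), Int.cast_neg, Int.cast_sum, char_sum hk h1 h4 _ hD', h5,
    jac_eq h hπ hk hr h1 h4, star_neg]
  ring

theorem ap_inert (D : ℤ) {p : ℕ} (hp : p.Prime) (h : p % 4 = 3) : ap D p = 0 := by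
  have := Fact.mk hp
  have h1 : quadraticChar (ZMod p) (-1) = -1 := by
    rw [quadraticChar_neg_one_iff_not_isSquare, ZMod.exists_sq_eq_neg_one_iff]
    exact not_not.2 h
  have h2 := Equiv.sum_comp (Equiv.neg (ZMod p))
    fun x => quadraticChar (ZMod p) (x ^ 3 + -(D : ZMod p) * x + 0)
  have h3 : ∀ x : ZMod p, (-x) ^ 3 + -(D : ZMod p) * -x + 0 = -1 * (x ^ 3 + -D * x + 0) :=
    fun x => by ring
  simp only [Equiv.neg_apply, h3, map_mul, h1, ← mul_sum] at h2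
  rw [ap_eq D p (by omega)]
  omega

/-- `η α * conj α` is the Hecke character of the curve -/
structure IsHC (D : ℤ) (η : GaussianInt → GaussianInt) : Prop where
  mul : ∀ α β, η (α * β) = η α * η β
  unit : ∀ u, u.norm = 1 → η u = u
  zero : ∀ α : GaussianInt, ¬ IsCoprime α (2 * D) → η α = 0
  val : ∀ α : GaussianInt, IsCoprime α (2 * D) → η α ^ 4 = 1
  frob : ∀ π, Prime π → (⟨2, 2⟩ : GaussianInt) ∣ π - 1 → ¬ π ∣ D →
    π ∣ η π - D ^ (π.norm.natAbs / 4)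

theorem isL_unique {A B : ℤ} {f g : ℂ → ℂ} (hf : BSD15.IsL A B f) (hg : BSD15.IsL A B g) :
    f = g := by
  refine (hf.1.differentiableOn.analyticOnNhd isOpen_univ).eq_of_eventuallyEq
    (hg.1.differentiableOn.analyticOnNhd isOpen_univ) (z₀ := 2) ?_
  filter_upwards [(isOpen_lt continuous_const continuous_re).mem_nhds
    (show (3 : ℝ) / 2 < (2 : ℂ).re by norm_num)] with s hs
  exact (hf.2 s hs).unique (hg.2 s hs)

theorem root_eq {u v π : GaussianInt} (hu : u ^ 4 = 1) (hv : v ^ 4 = 1) (h : π ∣ u - v)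
    (hπ : 4 < π.norm) : u = v := by
  have h1 : ∀ u ∈ ({1, -1, ⟨0, 1⟩, ⟨0, -1⟩} : Finset GaussianInt),
      ∀ v ∈ ({1, -1, ⟨0, 1⟩, ⟨0, -1⟩} : Finset GaussianInt), (u - v).norm ≤ 4 := by decide
  by_contra hne
  have := Int.le_of_dvd (GaussianInt.norm_pos.2 (sub_ne_zero.2 hne)) (norm_dvd h)
  have := h1 u (units4 (norm_one hu)) v (units4 (norm_one hv))
  omega

theorem prim_star {π : GaussianInt} (h : (⟨2, 2⟩ : GaussianInt) ∣ π - 1) :
    (⟨2, 2⟩ : GaussianInt) ∣ star π - 1 :=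
  (show (⟨2, 2⟩ : GaussianInt) ∣ star ⟨2, -2⟩ from dvd_rfl).trans (by
    obtain ⟨w, e⟩ := h
    refine ⟨star (⟨0, 1⟩ * w), ?_⟩
    rw [← star_mul', ← mul_assoc, show (⟨2, -2⟩ * ⟨0, 1⟩ : GaussianInt) = ⟨2, 2⟩ by decide, ← e]
    simp)

theorem cop_of_prime {π : GaussianInt} {D : ℤ} (hp : Prime π) (h : π.norm % 2 = 1) (hD : ¬ π ∣ D) :
    IsCoprime π (2 * D) := by
  rw [hp.coprime_iff_not_dvd, hp.dvd_mul, not_or]
  refine ⟨fun h2 => hp.not_isUnit ((Zsqrtd.norm_eq_one_iff' (by norm_num) _).1 ?_), hD⟩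
  have h3 : π.norm ∣ 4 := norm_dvd h2
  have := Int.le_of_dvd (by norm_num) h3
  have := GaussianInt.norm_nonneg π
  generalize π.norm = n at *
  interval_cases n <;> omega

theorem IsHC.inert {D : ℤ} {η : GaussianInt → GaussianInt} (h : IsHC D η) {p : ℕ} (hp : p.Prime)
    (h3 : p % 4 = 3) (hD : ¬ (p : ℤ) ∣ D) : η p = -1 := by
  have := Fact.mk hp
  have hq := (GaussianInt.prime_of_nat_prime_of_mod_four_eq_three p h3).neg
  have hn : (-p : GaussianInt).norm = p * p := by simp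
  have hd : ¬ (-p : GaussianInt) ∣ D := by
    rw [neg_dvd, ← Int.cast_natCast, Zsqrtd.intCast_dvd_intCast]; exact hD
  obtain ⟨k, hk⟩ : ∃ k, p = 4 * k + 3 := ⟨p / 4, by omega⟩
  have h1 := h.frob _ hq ⟨⟨1, -1⟩ * -(k + 1), by
    rw [← mul_assoc, show (⟨2, 2⟩ * ⟨1, -1⟩ : GaussianInt) = 4 by decide, hk]; push_cast; ring⟩ hd
  have h2 : (p : ℤ) ∣ D ^ ((-p : GaussianInt).norm.natAbs / 4) - 1 := by
    rw [← ZMod.intCast_zmod_eq_zero_iff_dvd, hn, show ((p : ℤ) * p).natAbs / 4 = (p - 1) * (k + 1) by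
      rw [← Int.natCast_mul, Int.natAbs_natCast, hk, show (4 * k + 3) * (4 * k + 3) =
        4 * ((4 * k + 2) * (k + 1)) + 1 by ring]
      simp [Nat.add_div]]
    push_cast
    rw [pow_mul, ZMod.pow_card_sub_one_eq_one (by rwa [Ne, ZMod.intCast_zmod_eq_zero_iff_dvd]),
      one_pow, sub_self]
  have h4 : η (-p) = 1 := root_eq (h.val _ (cop_of_prime hq (by
    rw [hn, hk]; push_cast; simp [Int.add_emod, Int.mul_emod]) hd)) (one_pow 4) (π := -p) (by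
      have h5 := Int.cast_dvd_cast (α := GaussianInt) _ _ h2
      push_cast at h5
      simpa using h1.add (neg_dvd.2 h5)) (by rw [hn, hk]; push_cast; nlinarith)
  rw [← neg_neg (p : GaussianInt), neg_eq_neg_one_mul, h.mul, h4, h.unit _ (by decide), mul_one]

theorem IsHC.norm_le {D : ℤ} {η : GaussianInt → GaussianInt} (h : IsHC D η)
    (α : GaussianInt) :
    ‖(η α : ℂ)‖ ≤ 1 := by
  by_cases hc : IsCoprime α (2 * D)
  · rw [← sq_le_one_iff₀ (norm_nonneg _), ← normSq_eq_norm_sq, ← GaussianInt.intCast_real_norm,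
      norm_one (h.val α hc), Int.cast_one]
  · simp [h.zero α hc]

theorem exists_L {D : ℤ} {η : GaussianInt → GaussianInt} (h : IsHC D η) {m : GaussianInt}
    (hm : m ≠ 0) (hper : ∀ α β, η (α + m * β) = η α) : ∃ f, BSD15.IsL (-D) 0 f ∧
      Tendsto (fun t : ℝ => ∑' α : GaussianInt, η α * (Real.exp (-t * normSq (α : ℂ)) / α : ℂ))
        (𝓝[>] 0) (𝓝 (4 * f 1)) := by
  obtain ⟨Z, h1, h2, h3⟩ := exists_cont hm (η := fun α => η α) (fun α β => by rw [hper]) h.norm_le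
  refine ⟨fun s => Z s / 4, ⟨h1.div_const 4, fun s hs => ?_⟩, by
    rwa [mul_div_cancel₀ _ (by norm_num)]⟩
  refine euler (h2 s hs) (fun α β => ?_) (fun u hu => ?_) (fun p hp hb α hα => ?_) fun p => ?_
  · rw [h.mul, map_mul, map_mul, map_mul, normSq_mul, ofReal_mul,
      mul_cpow_ofReal_nonneg (normSq_nonneg _) (normSq_nonneg _)]
    ring
  · rw [h.unit u hu, mul_conj, ← GaussianInt.intCast_real_norm, hu]
    simp
  · rw [h.zero α fun hc => ?_]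
    · simp
    have hq := Nat.prime_iff_prime_int.1 hp
    have h4 : (p : ℤ) ∣ 2 * D := hq.dvd_of_dvd_pow (n := 3) (by
      rw [show (2 * D) ^ 3 = -(2 * (4 * (-D) ^ 3 + 27 * 0 ^ 2)) by ring]; exact hb.neg_right)
    have h5 : IsCoprime (star α) (2 * D : GaussianInt) := by
      obtain ⟨u, v, e⟩ := hc
      exact ⟨star u, star v, by simpa using congrArg star e⟩
    have h6 := (hc.mul_left h5).isUnit_of_dvd' (x := ((p : ℤ) : GaussianInt))
      (by rw [← Zsqrtd.norm_eq_mul_conj]; exact Int.cast_dvd_cast _ _ hα)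
      (by exact_mod_cast Int.cast_dvd_cast (α := GaussianInt) _ _ h4)
    rw [Zsqrtd.isUnit_iff_norm_isUnit, Zsqrtd.norm_intCast] at h6
    exact hq.not_isUnit (isUnit_of_mul_isUnit_left h6)
  obtain ⟨p, hp, hb⟩ := p
  have hD : ¬ (p : ℤ) ∣ D := fun hd => hb (by
    rw [show 2 * (4 * (-D) ^ 3 + 27 * 0 ^ 2) = D * (-8 * D ^ 2) by ring]; exact hd.mul_right _)
  have hp2 : p % 2 = 1 := hp.eq_two_or_odd.resolve_left (by rintro rfl; exact hb (dvd_mul_right _ _))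
  have p0 : (p : ℂ) ≠ 0 := by exact_mod_cast hp.ne_zero
  have e0 : (p : ℂ) ^ (1 - 2 * s) = p / (p ^ s * p ^ s) := by
    rw [cpow_sub _ _ p0, cpow_one, two_mul, cpow_add _ _ p0]
  have := Fact.mk hp
  change _ ∧ 1 - (ap D p : ℂ) * _ + _ = _ ∨ ∃ π, _ ∧ _ ∧ _ ∧ 1 - (ap D p : ℂ) * _ + _ = _
  by_cases h3 : p % 4 = 3
  · refine .inl ⟨GaussianInt.prime_of_nat_prime_of_mod_four_eq_three p h3, ?_⟩
    rw [ap_inert D hp h3, h.inert hp h3 hD, e0, map_natCast, normSq_natCast, ofReal_mul,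
      mul_cpow_ofReal_nonneg p.cast_nonneg p.cast_nonneg]
    simp [neg_div]
  obtain ⟨a, b, hab⟩ := Nat.Prime.sq_add_sq h3
  have hn0 : Zsqrtd.norm (⟨a, b⟩ : GaussianInt) = p := by
    rw [← hab]; simp [Zsqrtd.norm_def, sq]
  obtain ⟨u, hu, hπ⟩ := exists_prim (α := ⟨a, b⟩) (by omega)
  have hn : (u * ⟨a, b⟩).norm = p := by rw [Zsqrtd.norm_mul, hu, hn0, one_mul]
  generalize u * ⟨a, b⟩ = π at hπ hn
  have hn' : (star π).norm = p := by rwa [Zsqrtd.norm_conj]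
  have nd : ∀ π : GaussianInt, π.norm = p → ¬ π ∣ D := fun π hn hd =>
    hD ((Nat.prime_iff_prime_int.1 hp).dvd_of_dvd_pow (n := 2) (by
      simpa [hn, sq] using norm_dvd hd))
  have v := fun (π : GaussianInt) (hn : π.norm = p) =>
    h.val π (cop_of_prime (prime_of_norm hp hn) (by omega) (nd π hn))
  have f1 := h.frob π (prime_of_norm hp hn) hπ (nd π hn)
  have f2 := h.frob _ (prime_of_norm hp hn') (prim_star hπ) (nd _ hn')
  rw [hn, Int.natAbs_natCast] at f1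
  rw [hn', Int.natAbs_natCast] at f2
  have f3 : η (star π) = star (η π) := root_eq (v _ hn') (by rw [← star_pow, v _ hn, star_one])
    (π := star π) (by simpa using f2.sub (star_dvd (β := star (η π) - D ^ (p / 4)) (by simpa using f1)))
    (by have := hp.one_lt; omega)
  refine .inr ⟨π, prime_of_norm hp hn, hn, fun hd => ?_, ?_⟩
  · have h5 := prim_unique (prim_star hπ) hπ hd (hn.trans hn'.symm)
    have h6 : π.im = 0 := by
      have := congrArg Zsqrtd.im h5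
      rw [Zsqrtd.im_star] at this
      omega
    rw [Zsqrtd.norm_def, h6, mul_zero, sub_zero] at hn
    exact (Nat.prime_iff_prime_int.1 hp).not_isSquare ⟨_, hn.symm⟩
  · have h5 := congrArg GaussianInt.toComplex (ap_split hp hn hπ hD (v _ hn) f1)
    have h6 := mul_conj (π : ℂ)
    have h7 := mul_conj (η π : ℂ)
    rw [← GaussianInt.intCast_real_norm] at h6 h7
    rw [norm_one (v _ hn)] at h7
    rw [map_intCast] at h5
    rw [h5, f3, e0, cpow_neg, ← GaussianInt.intCast_real_norm, ← GaussianInt.intCast_real_norm,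
      hn', hn] at *
    simp only [map_add, map_mul, GaussianInt.toComplex_star, conj_conj]
    push_cast at h6 h7 ⊢
    linear_combination (-((p : ℂ) ^ s)⁻¹ ^ 2) * (h6 + π * conj (π : ℂ) * h7)

end Pool.Agent.P.MP_8b7eba_nt.CG.L
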