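import Pool.Agent.P.MP_8b7eba_nt.CG.LFun
import Pool.Agent.P.MP_8b7eba_nt.CG.LWp

/-! Vanishing of the central value in terms of the Weierstrass functions. -/

namespace Pool.Agent.P.MP_8b7eba_nt.CG.L

open Complex Filter Topology

theorem gs_mul (t : ℝ) (l w : ℂ) : gs t (l * w) = l⁻¹ * gs (t * normSq l) w := by
  rw [gs, gs, normSq_mul, show -t * (normSq l * normSq w) = -(t * normSq l) * normSq w by ring]
  ring

theorem gs_le {t : ℝ} (ht : 0 < t) (w : ℂ) : ‖gs t w‖ ≤ t⁻¹ * ‖w‖⁻¹ ^ 3 := by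
  by_cases hw : w = 0
  · simp [gs, hw]
  have h0 := norm_pos_iff.2 hw
  have h1 : Real.exp (-t * normSq w) ≤ (t * ‖w‖ ^ 2)⁻¹ := by
    rw [neg_mul, Real.exp_neg, normSq_eq_norm_sq]
    exact inv_anti₀ (by positivity) (by linarith [Real.add_one_le_exp (t * ‖w‖ ^ 2)])
  rw [gs, norm_div, norm_real, Real.norm_of_nonneg (Real.exp_pos _).le]
  calc _ ≤ (t * ‖w‖ ^ 2)⁻¹ / ‖w‖ := by gcongr
    _ = _ := by field_simp

variable {L : PeriodPair} {Ω : ℂ} (hΩ : Ω ≠ 0)
  (hL : ∀ x, x ∈ L.lattice ↔ ∃ α : GaussianInt, Ω * α = x)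

include hL in
theorem neg_lat (x : ℂ) : x ∈ L.lattice ↔ ∃ α : GaussianInt, -Ω * α = x :=
  (hL x).trans ⟨fun ⟨α, h⟩ => ⟨-α, by simpa using h⟩, fun ⟨α, h⟩ => ⟨-α, by simpa using h⟩⟩

include hΩ hL in
theorem summable_gs {t : ℝ} (ht : 0 < t) (z : ℂ) :
    Summable fun β : GaussianInt => ‖gs t (z + Ω * β)‖ := by
  have h := (ZLattice.summable_norm_sub_inv_pow L.lattice 3 (by simp) (-z)).mul_left t⁻¹
  rw [← (latE hΩ hL).summable_iff] at h
  refine h.of_nonneg_of_le (fun _ => norm_nonneg _) fun β => (gs_le ht _).trans_eq ?_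
  simp [latE, add_comm]

theorem summable_F {φ : GaussianInt → ℂ} (hb : ∀ α, ‖φ α‖ ≤ 1) {t : ℝ} (ht : 0 < t) :
    Summable fun α : GaussianInt => φ α * gs t α :=
  .of_norm_bounded (summable_gs one_ne_zero mem_gp ht 0) fun α => by
    rw [norm_mul, zero_add, one_mul]; exact mul_le_of_le_one_left (norm_nonneg _) (hb α)

theorem tsum_reps {ι : Type} {P : GaussianInt → Prop} {m : GaussianInt} {R : Finset ι}
    {r : ι → GaussianInt} (hR : Reps P m R r) (hm : m ≠ 0) {f : GaussianInt → ℂ}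
    (hf : ∀ α, ¬ P α → f α = 0) (hs : Summable f) :
    ∑' α, f α = ∑ c ∈ R, ∑' β, f (r c + m * β) :=
  (hR.hasSum hm hf fun c _ => (hs.comp_injective (i := fun β => r c + m * β)
    fun _ _ e => mul_left_cancel₀ hm (add_left_cancel e)).hasSum).tsum_eq

theorem scale_lim {c : ℝ} (hc : 0 < c) : Tendsto (fun t : ℝ => t * c) (𝓝[>] 0) (𝓝[>] 0) :=
  tendsto_nhdsWithin_iff.2 ⟨by
    simpa using (tendsto_id.mul_const c).mono_left (nhdsWithin_le_nhds (a := (0 : ℝ))),
    by filter_upwards [self_mem_nhdsWithin] with x hx using mul_pos hx hc⟩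

section
variable {ι κ : Type} {φ : GaussianInt → ℂ} {m a : GaussianInt} {k : ℂ} {R : Finset ι}
  {r : ι → GaussianInt} {T : Finset κ} {τ : κ → GaussianInt} (hb : ∀ α, ‖φ α‖ ≤ 1) (hm : m ≠ 0)
  (hper : ∀ α β, φ (α + m * β) = φ α)
  (lim : Tendsto (fun t => ∑' α : GaussianInt, φ α * gs t α) (𝓝[>] 0) (𝓝 0))
  (hR : Reps (φ · ≠ 0) m R r) (ha : a ≠ 0) (hc : IsCoprime a m) (hk : k ≠ 0)
  (hmul : ∀ α, φ (a * α) = k * φ α) (hT : Reps (fun _ => True) a T τ)
include hΩ hL hb hm hper lim hR ha hc hk hmul hT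

omit hL in
theorem dist_lim : Tendsto (fun t => ∑ d ∈ T, ∑ c ∈ R, φ (r c) *
    ∑' β : GaussianInt, gs t (Ω * r c / m + Ω * β + Ω * τ d / a)) (𝓝[>] 0) (𝓝 0) := by
  have m0 := coe_ne hm
  have a0 := coe_ne ha
  have hl : Ω / (a * m) ≠ 0 := by positivity
  have hR' : Reps (φ · ≠ 0) m R fun c => a * r c := ⟨fun α hα => by
      obtain ⟨u, v, e⟩ := hc
      have h1 : φ (u * α) ≠ 0 := fun h => hα (by
        rw [show α = a * (u * α) + m * (v * α) by linear_combination -α * e, hper, hmul, h, mul_zero])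
      obtain ⟨c, h2, w, h3⟩ := hR.ex _ h1
      exact ⟨c, h2, v * α + a * w, by linear_combination -α * e + a * h3⟩,
    fun c h c' h' e => hR.inj c h c' h' (hc.symm.dvd_of_dvd_mul_left (by rwa [mul_sub]))⟩
  have h1 := (lim.comp (scale_lim (normSq_pos.2 hl))).const_mul (k⁻¹ * (Ω / (a * m))⁻¹)
  rw [mul_zero] at h1
  refine h1.congr' ?_
  filter_upwards [self_mem_nhdsWithin] with t ht
  have ht' := mul_pos ht (normSq_pos.2 hl)
  rw [Function.comp_apply, tsum_reps hR' hm (fun α h => by rw [not_not.1 h, zero_mul])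
    (summable_F hb ht'), Finset.sum_comm, Finset.mul_sum]
  refine Finset.sum_congr rfl fun c _ => ?_
  have h2 : ∀ γ : GaussianInt, φ (a * r c + m * γ) * gs (t * normSq (Ω / (a * m)))
      (a * r c + m * γ : GaussianInt) = k * φ (r c) * (Ω / (a * m)) *
        gs t (Ω * r c / m + Ω / a * γ) := fun γ => by
    rw [hper, hmul, show Ω * r c / m + Ω / a * γ = Ω / (a * m) * (a * r c + m * γ : GaussianInt) by
      simp only [map_add, map_mul]; field_simp, gs_mul]
    field_simp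
  have h3 : Summable fun γ : GaussianInt => gs t (Ω * r c / m + Ω / a * γ) :=
    .of_norm (((summable_gs one_ne_zero mem_gp (mul_pos ht (normSq_pos.2 (div_ne_zero hΩ a0)))
      (a * r c / m)).mul_left ‖(Ω / a)⁻¹‖).congr fun γ => by
        rw [← norm_mul, ← gs_mul]; congr 2; field_simp)
  simp only [h2, tsum_mul_left]
  rw [tsum_reps hT ha (fun _ h => (h trivial).elim) h3, ← Finset.mul_sum, ← mul_assoc,
    show k⁻¹ * (Ω / (a * m))⁻¹ * (k * φ (r c) * (Ω / (a * m))) = φ (r c) by field_simp]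
  congr 1
  refine Finset.sum_congr rfl fun d _ => tsum_congr fun β => ?_
  congr 1
  simp only [map_add, map_mul]
  field_simp
  ring

open Classical in
theorem wp_van (hr : ∀ c ∈ R, ¬ m ∣ r c) : ∑ c ∈ R, φ (r c) * ∑ d ∈ T with ¬ a ∣ τ d,
    L.derivWeierstrassP (Ω * r c / m) /
      (L.weierstrassP (Ω * r c / m) - L.weierstrassP (Ω * τ d / a)) = 0 := by
  have m0 := coe_ne hm
  have a0 := coe_ne ha
  set A : ℝ → ℂ → ℂ := fun t u => ∑ c ∈ R, φ (r c) *
    ∑' β : GaussianInt, gs t (Ω * r c / m + Ω * β + u) with hA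
  have h1 : ∀ γ : GaussianInt, Tendsto (fun t => A t (Ω * γ)) (𝓝[>] 0) (𝓝 0) := fun γ => by
    simpa using dist_lim hΩ hb hm hper lim hR one_ne_zero isCoprime_one_left one_ne_zero
      (fun α => by simp) (T := {()}) (τ := fun _ => γ) ⟨fun _ _ => by simp, fun _ _ _ _ _ => rfl⟩
  have h2 := dist_lim hΩ hb hm hper lim hR ha hc hk hmul hT
  have h3 := dist_lim hΩ hb hm hper lim hR ha hc hk hmul (T := T) (τ := fun d => -τ d)
    ⟨fun α _ => (hT.ex (-α) trivial).imp fun c h => ⟨h.1, by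
      simpa [neg_sub', sub_neg_eq_add, add_comm] using h.2.neg_right⟩,
      fun c h c' h' e => hT.inj c h c' h' (by simpa [sub_eq_add_neg, add_comm] using e.neg_right)⟩
  have h4 := (h2.add h3).sub (tendsto_finsetSum T fun _ _ => (h1 0).const_mul 2)
  simp only [← Finset.sum_add_distrib (s := T), ← Finset.sum_sub_distrib, Finset.sum_const_zero,
    add_zero, sub_zero, mul_zero, map_zero] at h4
  have nl : ∀ {x y : GaussianInt} {z : ℂ}, y ≠ 0 → z = Ω * x / y → ¬ y ∣ x → z ∉ L.lattice :=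
    fun {x y z} hy e h hz => by
      obtain ⟨α, e'⟩ := (hL _).1 hz
      refine h ⟨α, GaussianInt.toComplex_injective ?_⟩
      have := coe_ne hy
      rw [e] at e'
      field_simp at e'
      rw [map_mul, ← e', mul_comm]
  simp only [Finset.sum_filter, Finset.mul_sum]
  rw [Finset.sum_comm]
  refine tendsto_nhds_unique (tendsto_finsetSum T fun d _ => ?_) h4
  by_cases hd : a ∣ τ d
  · obtain ⟨γ, e⟩ := hd
    have := ((h1 γ).add (h1 (-γ))).sub ((h1 0).const_mul 2)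
    simpa [e, hA, mul_left_comm Ω, a0, neg_div] using this
  simp only [hd, not_false_iff, if_true]
  have h5 := tendsto_finsetSum R fun c hc' => (lim_second (nl ha rfl hd) (nl hm rfl (hr c hc'))
    (nl (x := a * r c + m * τ d) (mul_ne_zero ha hm) (by simp only [map_add, map_mul]; field_simp)
      fun h => hr c hc' (hc.symm.dvd_of_dvd_mul_left ((dvd_add_left (dvd_mul_right _ _)).1
        ((dvd_mul_left _ _).trans h))))
    (nl (x := a * r c - m * τ d) (mul_ne_zero ha hm) (by simp only [map_sub, map_mul]; field_simp)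
      fun h => hr c hc' (hc.symm.dvd_of_dvd_mul_left ((dvd_sub_left (dvd_mul_right _ _)).1
        ((dvd_mul_left _ _).trans h))))).const_mul (φ (r c))
  refine h5.congr' ?_
  filter_upwards [self_mem_nhdsWithin] with t ht
  rw [Finset.mul_sum, ← Finset.sum_add_distrib, ← Finset.sum_sub_distrib]
  refine Finset.sum_congr rfl fun c _ => ?_
  have s : ∀ u, Summable fun β : GaussianInt => gs t (Ω * r c / m + Ω * β + u) := fun u =>
    (summable_gs hΩ hL ht (Ω * r c / m + u)).of_norm.congr fun β => by rw [add_right_comm]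
  rw [← (latE (neg_ne_zero.2 hΩ) (neg_lat hL)).tsum_eq, ← mul_add, mul_left_comm, ← mul_sub,
    ← tsum_mul_left (a := 2), ← (s _).tsum_add (s _),
    ← ((s _).add (s _)).tsum_sub ((s 0).mul_left 2)]
  congr 1
  refine tsum_congr fun β => ?_
  simp [latE, sub_eq_add_neg, neg_div]

end

theorem odd_norm {α : GaussianInt} (hc : IsCoprime α 2) : α.norm % 2 = 1 := by
  by_contra h2
  obtain ⟨x, ⟨p, q⟩, e⟩ := hc
  have h3 := congrArg Zsqrtd.norm (eq_sub_of_add_eq e)
  rw [Zsqrtd.norm_mul, show Zsqrtd.norm (1 - (⟨p, q⟩ : GaussianInt) * 2) =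
    1 + 2 * (2 * p ^ 2 + 2 * q ^ 2 - 2 * p) by simp [Zsqrtd.norm_def]; ring] at h3
  have : (2 : ℤ) ∣ x.norm * α.norm := Dvd.dvd.mul_left (by omega) _
  omega

open Classical in
theorem prim_lim {η : GaussianInt → GaussianInt} {D : ℤ} (h : IsHC D η)
    (lim : Tendsto (fun t => ∑' α : GaussianInt, η α * gs t α) (𝓝[>] 0) (𝓝 0)) :
    Tendsto (fun t => ∑' α : GaussianInt,
      (if (⟨2, 2⟩ : GaussianInt) ∣ α - 1 then (η α : ℂ) else 0) * gs t α) (𝓝[>] 0) (𝓝 0) := by
  have h1 := lim.div_const 4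
  rw [zero_div] at h1
  refine h1.congr' ?_
  filter_upwards [self_mem_nhdsWithin] with t ht
  have hR : Reps (fun α => η α ≠ 0) ⟨2, 2⟩ ({1, -1, ⟨0, 1⟩, ⟨0, -1⟩} : Finset GaussianInt) id := by
    refine ⟨fun α hα => ?_, fun c hc c' hc' e => ?_⟩
    · obtain ⟨u, hu, h2⟩ := exists_prim (odd_norm (by_contra fun hc =>
        hα (h.zero α fun h2 => hc h2.of_mul_right_left)))
      refine ⟨star u, units4 (by rwa [Zsqrtd.norm_conj]), ?_⟩
      have h3 := Zsqrtd.norm_eq_mul_conj u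
      rw [hu, Int.cast_one] at h3
      rw [show α - id (star u) = star u * (u * α - 1) by rw [id]; linear_combination α * h3]
      exact h2.mul_left _
    · have : ∀ c ∈ ({1, -1, ⟨0, 1⟩, ⟨0, -1⟩} : Finset GaussianInt),
        ∀ c' ∈ ({1, -1, ⟨0, 1⟩, ⟨0, -1⟩} : Finset GaussianInt),
          Zsqrtd.norm (⟨2, 2⟩ : GaussianInt) ∣ (c - c').norm → c = c' := by decide
      exact this c hc c' hc' (norm_dvd e)
  have hR1 : Reps (fun α => (⟨2, 2⟩ : GaussianInt) ∣ α - 1) ⟨2, 2⟩ {()} fun _ => 1 :=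
    ⟨fun α hα => ⟨(), by simp, hα⟩, fun _ _ _ _ _ => rfl⟩
  rw [tsum_reps hR (by decide) (fun α hα => by simp [not_not.1 hα]) (summable_F h.norm_le ht),
    tsum_reps hR1 (by decide) (fun α hα => by simp [hα])
      (summable_F (fun α => by split_ifs <;> simp [h.norm_le]) ht), Finset.sum_singleton,
    Finset.sum_congr rfl (g := fun _ => ∑' β : GaussianInt, (η (1 + ⟨2, 2⟩ * β) : ℂ) *
      gs t (1 + ⟨2, 2⟩ * β : GaussianInt)) fun u hu => ?_]
  · have h4 : ({1, -1, ⟨0, 1⟩, ⟨0, -1⟩} : Finset GaussianInt).card = 4 := by decide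
    simp [h4]
  have h5 : ∀ u ∈ ({1, -1, ⟨0, 1⟩, ⟨0, -1⟩} : Finset GaussianInt), u.norm = 1 := by decide
  have h6 := h5 u hu
  have h7 := (Zsqrtd.norm_eq_one_iff' (by norm_num) u).1 h6
  rw [← (h7.unit.mulLeft).tsum_eq]
  refine tsum_congr fun β => ?_
  have h8 := coe_ne h7.ne_zero
  rw [Units.mulLeft_apply, h7.unit_spec, id, show u + ⟨2, 2⟩ * (u * β) = u * (1 + ⟨2, 2⟩ * β) by ring,
    h.mul, h.unit u h6, map_mul, map_mul, gs_mul, ← GaussianInt.intCast_real_norm, h6]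
  simp only [Int.cast_one, mul_one]
  field_simp

end Pool.Agent.P.MP_8b7eba_nt.CG.L
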