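import Pool.Agent.P.MP_8b7eba_nt.CG.If

/-! Proof of BGK. -/

namespace Pool.Agent.P.MP_8b7eba_nt.QT.CG

open R2 SM Polynomial Filter Module
open MP_9c97e9_nt (Pt pm Is)

theorem bgk_qz (g : GQ) : g ∈ GK ↔ qz (-1) g = 0 := (qz_eq_zero (rt_sq _)).symm

theorem bgk_four (g : GQ) : g ∈ GK ↔ 4 ∣ (cyc g : ℤ_[2]) - 1 := (bgk_qz g).trans (qz_neg_one hA.ec)

theorem bgk_ep (u : ℤ_[2]ˣ) : ep u = 0 ↔ 4 ∣ (u : ℤ_[2]) - 1 := by
  unfold ep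
  split_ifs with h <;> simp [h]

theorem bgk_tau : qz (-1) tau = 1 :=
  (f2 _).resolve_left fun e => absurd ((qz_tau hA.tau (by norm_num)).1 e) (by norm_num)

theorem bgk_add (g h : GQ) : qz (-1) (g * h) = qz (-1) g + qz (-1) h :=
  (isCh_qz (H := ⊤) (-1)).2 g trivial h trivial

theorem bgk_two : ¬ (4 : ℤ_[2]) ∣ ((-1 : ℤ_[2]ˣ) : ℤ_[2]) - 1 := fun h => by
  have h1 : tau ∈ GK := (bgk_four _).2 (by rwa [hA.ec.2.2.2.2.2.2.2])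
  rw [bgk_qz, bgk_tau] at h1
  exact one_ne_zero h1

theorem bgk_eK (b : ZI) : eK b = b.re + b.im * iK := Zsqrtd.lift_apply_apply _ b

theorem bgk_eO (b : ZI) : eO b = b.re + b.im * ii := Zsqrtd.lift_apply_apply _ b

theorem bgk_ns (n : ℤ) : -1 ≠ n * n := fun h => by nlinarith [mul_self_nonneg n]

theorem p_BGK : S_BGK := by
  have h2 : w2.p = 2 := pl_p Nat.prime_two
  have hc : ∃ c ∈ w2.I, c ∉ GK := by
    obtain ⟨c, a, b⟩ := hA.ec2 w2 h2 (-1)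
    exact ⟨c, a, fun h => bgk_two (b ▸ (bgk_four c).1 h)⟩
  refine ⟨⟨⟨fun g hg u => ?_⟩, isOpen_stab _⟩, fun g h => ?_, ?_, bgk_qz,
    fun g => (bgk_four g).trans (bgk_ep _).symm, fun g hg b => ?_, fun g hg b => ?_,
    Zsqrtd.lift_injective _ bgk_ns, fun a b h => ?_, fun b => ?_, fun w hw => ?_, h2,
    w2.loc_inf (isOpen_stab _), hc, fun u hu => ?_, fun w hw g hg => ?_, fun g h => ?_,
    fun n g => ?_⟩
  · rwa [bgk_qz, qz_conj, ← bgk_qz]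
  · rw [bgk_qz, qz_conj, bgk_tau] at h
    exact one_ne_zero h
  · refine Subgroup.index_eq_two_iff.2 ⟨tau, fun b => ?_⟩
    rw [bgk_qz, bgk_qz, bgk_add, bgk_tau]
    rcases f2 (qz (-1) b) with e | e <;> rw [e] <;> decide
  · have e : g (rt (-1)) = rt (-1) := hg
    simp [bgk_eK, iK, e]
  · have e := gal_I g
    rw [if_neg fun h => hg ((bgk_qz g).2 h)] at e
    simp [bgk_eK, iK, e]
  · rw [bgk_eO, bgk_eO] at h
    have h1 := congrArg QuadraticAlgebra.re h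
    have h3 := congrArg QuadraticAlgebra.im h
    simp at h1 h3
    exact Zsqrtd.ext h1 h3
  · simp [bgk_eO, star_ii]
  · obtain ⟨σ, hσ⟩ := hA.pl.2.1 w w2 (hw.trans h2.symm)
    obtain ⟨c, a, b⟩ := hc
    by_cases h : σ ∈ GK
    · exact ⟨σ, h, hσ⟩
    refine ⟨c * σ, ?_, by rw [mul_smul, hσ]; exact a.1⟩
    rw [bgk_qz] at h b ⊢
    rw [bgk_add, (f2 _).resolve_left h, (f2 _).resolve_left b]
    rfl
  · obtain ⟨g, a, b⟩ := hA.ec2 w2 h2 u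
    exact ⟨g, ⟨a, (bgk_four g).2 (b ▸ (bgk_ep u).1 hu)⟩, b⟩
  · rw [bgk_four, hA.ec.2.2.2.2.2.2.1 w hw g hg]
    simp
  · rw [la, hA.ec.2.1, hA.lg.1.mul]
    rfl
  · have k : ∀ x : ℤ_[2], 2 ^ (n + 2) ∣ x → 4 ∣ x := fun x h =>
      Dvd.dvd.trans ⟨2 ^ n, by ring⟩ h
    rw [KC, Subgroup.mem_inf, (hA.lg.2.2.2.1 n).2.2.2.2.1, hA.lg.1.dvd, bgk_four]
    refine ⟨fun h => h.1.resolve_right fun e => bgk_two ?_, fun h => ⟨.inl h, k _ h⟩⟩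
    have := h.2.sub (k _ e)
    rwa [show (cyc g : ℤ_[2]) - 1 - (cyc g + 1) = ((-1 : ℤ_[2]ˣ) : ℤ_[2]) - 1 by simp; ring] at this

end Pool.Agent.P.MP_8b7eba_nt.QT.CG
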