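import Pool.Agent.P.MP_8b7eba_nt.CG.A2a
import Pool.Agent.P.MP_8b7eba_nt.CG.BasC

/-! Proof of CHI. -/

namespace Pool.Agent.P.MP_8b7eba_nt.QT.CG

open R2 SM Polynomial Filter Module A2
open MP_9c97e9_nt (Pt pm Is)

theorem chi_ku (δ : Om) (g : GQ) : ku δ g * star (ku δ g) = 1 := by
  rw [ku, star_pow, ← mul_pow, show iz * star iz = 1 by decide, one_pow]

theorem chi_congr {δ : Om} {g h : GQ} (e : g δ = h δ) : ku δ g = ku δ h := by
  simp only [ku, ke, e]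

theorem p_CHI (hBGK : S_BGK) (hBCH : S_BCH) (hGEN : S_GEN) (hLIN : S_LIN) (hLEV : S_LEV)
    (hFRB : S_FRB) (hQRT : S_QRT) : S_CHI := by
  classical
  intro D hD
  obtain ⟨hN, -, -, -, -, hK, hK', hI, -, -, -, -, -, ⟨c, -, hc⟩, -⟩ := hBGK
  obtain ⟨δ, hδ⟩ := exists_root (D : Om) four_ne_zero
  have n0 : ∀ {δ : Om}, δ ^ 4 = D → δ ≠ 0 := fun {δ} hδ e => hD (by
    rw [e, zero_pow four_ne_zero] at hδ
    exact_mod_cast hδ.symm)
  have hg : ∀ {δ : Om}, δ ^ 4 = D → ∀ g : GQ, g δ = eK (star (ku δ g)) * δ := fun {δ} hδ g =>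
    ((hBCH D δ hD hδ).2.1 g).2.2.1
  have ind : ∀ {δ' : Om}, δ' ^ 4 = D → ∀ g ∈ GK, ku δ' g = ku δ g := fun {δ'} h g hk => by
    have h1 : g (δ' / δ) = δ' / δ :=
      root4 (by rw [div_pow, h, hδ, div_self (Int.cast_ne_zero.2 hD)]) (gk_iK hk)
    rw [map_div₀, hg h, hg hδ, div_eq_div_iff (hg hδ g ▸ (map_ne_zero g).2 (n0 hδ)) (n0 hδ)] at h1
    exact star_injective (hI (mul_right_cancel₀ (mul_ne_zero (n0 h) (n0 hδ))
      (by linear_combination h1)))
  set M : ZI := 16 * D with hM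
  have M0 : M ≠ 0 := mul_ne_zero (by decide) (Int.cast_ne_zero.2 hD)
  have M3 : pz ^ 3 ∣ M := Dvd.dvd.mul_right ⟨⟨-4, -4⟩, by decide⟩ _
  have Ms : star M = M := by simp [hM]
  obtain ⟨L0, L⟩ := hLEV
  obtain ⟨-, -, -, L4, L5, -⟩ := L M M0
  have pr : ∀ g ∈ GK, ∀ b, Ar M g b → Prim b ∧ IsCoprime b M := fun g hk b h => by
    obtain ⟨b', p1, p2, p3⟩ := L4 g hk
    have g1 := (hGEN M M0).1.1
    have g2 := (g1 M).2 dvd_rfl
    obtain ⟨t, ht⟩ := (g1 (b - b')).1 (by rw [sub_smul, ← h _ g2, ← p3 _ g2, sub_self])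
    obtain rfl : b = b' + M * t := by linear_combination ht
    refine ⟨?_, p2.add_mul_left_left t⟩
    have := dvd_add p1 (M3.mul_right t)
    rwa [show b' - 1 + M * t = b' + M * t - 1 by ring] at this
  have ex : ∀ b, IsCoprime b M → ∃ u g, IsUnit u ∧ g ∈ GK ∧ Ar M g (u * b) := fun b h => by
    obtain ⟨u, h1, h2⟩ := exists_prim (b := b) fun e =>
      not_unit_pz (h.isUnit_of_dvd' e ((dvd_pow_self _ three_ne_zero).trans M3))
    obtain ⟨g, h3, h4⟩ := L5 _ h2 ((isCoprime_mul_unit_left_left h1 _ _).2 h)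
    exact ⟨u, g, h1, h3, h4⟩
  let R : ZI → ZI → Prop := fun b x =>
    ∃ u g, IsUnit u ∧ g ∈ GK ∧ Ar M g (u * b) ∧ x = u * ku δ g
  let χ : ZI → ZI := fun b => if IsCoprime b M then Classical.epsilon (R b) else 0
  have z : ∀ b, ¬ IsCoprime b M → χ b = 0 := fun b h => if_neg h
  have key : ∀ {b u g}, IsUnit u → g ∈ GK → Ar M g (u * b) → χ b = u * ku δ g := by
    intro b u g h1 h2 h3
    obtain ⟨p1, p2⟩ := pr g h2 _ h3
    obtain ⟨u', g', k1, k2, k3, k4⟩ := Classical.epsilon_spec (p := R b) ⟨_, u, g, h1, h2, h3, rfl⟩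
    obtain ⟨v, rfl⟩ := h1
    have h4 : u' * ↑v⁻¹ = 1 := prim_unit (k1.mul v⁻¹.isUnit) (prim_cancel p1 (by
      rw [mul_assoc, Units.inv_mul_cancel_left]
      exact (pr g' k2 _ k3).1))
    obtain rfl : u' = v := by rw [← one_mul (v : ZI), ← h4, Units.inv_mul_cancel_right]
    have h5 := hQRT D δ hD hδ (g⁻¹ * g') ⟨GK.mul_mem (GK.inv_mem h2) k2, fun P hP => by
      rw [ga_mul, k3 P hP, ← h3 P hP, inv_ga]⟩
    refine (if_pos p2.of_mul_left_right).trans (k4.trans ?_)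
    rw [chi_congr (h := g) (by rw [← mul_inv_cancel_left g g', AlgEquiv.mul_apply, h5])]
  refine ⟨χ, fun a b => ?_, fun a b => ?_, fun b h => z _ (mt cop_int16.1 h), fun b h => ?_,
    fun u hu => ?_, fun b => ?_,
    fun β h1 h2 h3 => ?_, fun δ' h g hk b h1 => ?_⟩
  · by_cases ha : IsCoprime a M
    swap
    · rw [z a ha, z _ fun h => ha h.of_mul_left_left, zero_mul]
    by_cases hb : IsCoprime b M
    swap
    · rw [z b hb, z _ fun h => hb h.of_mul_left_right, mul_zero]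
    obtain ⟨u, g, a1, a2, a3⟩ := ex a ha
    obtain ⟨v, h, b1, b2, b3⟩ := ex b hb
    rw [key a1 a2 a3, key b1 b2 b3, key (a1.mul b1) (GK.mul_mem a2 b2) fun P hP => by
      rw [ga_mul, b3 P hP, hLIN.1 g a2, a3 P hP, smul_smul]
      congr 1
      ring, ((hBCH D δ hD hδ).2.2.1 g a2 h).1]
    ring
  · by_cases ha : IsCoprime a M
    swap
    · rw [z a ha, z _ fun h => ha (IsCoprime.of_add_mul_left_left h)]
    obtain ⟨u, g, a1, a2, a3⟩ := ex a ha
    rw [key a1 a2 a3, key a1 a2 fun P hP => by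
      rw [a3 P hP, mul_add, add_smul, mul_comm M, ← mul_assoc, mul_smul _ M, hP, smul_zero,
        add_zero]]
  · obtain ⟨u, g, a1, a2, a3⟩ := ex b (cop_int16.2 h)
    rw [key a1 a2 a3, mul_pow, unit_four a1, ((hBCH D δ hD hδ).2.1 g).2.1, one_mul]
  · obtain ⟨v, rfl⟩ := hu
    rw [key v⁻¹.isUnit GK.one_mem fun P _ => by rw [ga_one, Units.inv_mul, one_smul],
      show ku δ 1 = 1 by simp [ku, ke], mul_one, Units.inv_mul]
  · by_cases hb : IsCoprime b M
    swap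
    · rw [z b hb, star_zero, z _ (mt cop_star16.1 hb)]
    obtain ⟨u, g, a1, a2, a3⟩ := ex b hb
    have h1 : (c⁻¹ δ) ^ 4 = D := by rw [← map_pow, hδ, map_intCast]
    have h2 : c (c⁻¹ δ) = δ := c.apply_symm_apply δ
    have h3 := hg hδ (c * g * c⁻¹)
    rw [AlgEquiv.mul_apply, AlgEquiv.mul_apply, hg h1, ind h1 g a2, map_mul, h2, hK' c hc,
      star_star] at h3
    rw [key a1 a2 a3, key a1.star (hN.1.conj_mem g a2 c) fun P hP => by
      rw [ga_mul, ga_mul, a3, hLIN.2.1 c hc, ga_inv, star_mul']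
      rw [← Ms, ← hLIN.2.1 _ fun h => hc ((inv_mem_iff (x := c)).1 h), hP, map_zero],
      star_mul', hI (mul_right_cancel₀ (n0 hδ) h3), star_star]
  · obtain ⟨w, f, φ, w1, w2, w3⟩ := hFRB.2.1 β h1
    obtain ⟨w4, w5⟩ := hFRB.1 β w f φ h1 h2 w1 w2 w3
    obtain ⟨k, hk⟩ := prim_norm h2
    have e1 : (β.norm.natAbs - 1) / 4 = k := by omega
    have e2 : w.p ^ f = 4 * k + 1 := by exact_mod_cast w3.trans hk
    have v1 : w.v δ = 1 := by
      have := v_cop h3.of_mul_right_right w1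
      rw [map_intCast, ← hδ, map_pow] at this
      exact (pow_eq_one_iff_of_nonneg zero_le four_ne_zero).1 this
    have v2 := w2.2 δ v1.le
    rw [e2, pow_succ, pow_mul, hδ, hg hδ, ← sub_mul, map_mul, v1, mul_one] at v2
    rw [key isUnit_one w4 (by rw [one_mul]; exact w5 M h3), one_mul, e1]
    by_contra h4
    have v3 := v_cop (h1.coprime_iff_not_dvd.2 h4) w1
    rw [← chi_ku δ φ, ← mul_sub, map_mul, map_mul, map_sub, map_pow, map_intCast,
      Valuation.map_sub_swap] at v3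
    exact ((mul_le_of_le_one_left zero_le (v_eK w _)).trans_lt v2).ne v3
  · rw [key isUnit_one hk (by rwa [one_mul]), one_mul, ind h g hk]

end Pool.Agent.P.MP_8b7eba_nt.QT.CG
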