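import Pool.Agent.P.MP_8b7eba_nt.QT.CE

/-! Points of the curve over the decomposition field at two. -/

namespace Pool.Agent.P.MP_8b7eba_nt.QT.PP

open R2 SM MP_9c97e9_nt Classical CA CB
open scoped NNReal

section

variable {K : Type} [Field K] {D : ℤ} {s : K} {P Q T : Pt (W D) K} {x η x' η' e : K}
  {v : Valuation K ℝ≥0} {r : ℝ≥0}

theorem v4 (h2 : v 2 = 2⁻¹) : v 4 = 4⁻¹ := by
  rw [show (4 : K) = 2 * 2 by norm_num, map_mul, h2, ← mul_inv]
  norm_num

theorem vD (h : Sp D s) : v D = v s ^ 2 := by rw [← h.sq, map_pow]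

theorem vs_pos (h : Sp D s) : 0 < v s := (v.pos_iff).2 (by simpa using h.n12)

theorem veta (h : Sp D s) (h2 : v 2 = 2⁻¹) (hP : Is P x η) :
    4 * v η ^ 2 = v x * v (x ^ 2 - D) := by
  rw [← map_pow, eqn h hP, show x ^ 3 - D * x = x * (x ^ 2 - D) by ring, map_mul, v4 h2, map_mul,
    mul_inv_cancel_left₀ (by norm_num)]

theorem vdbl (h : Sp D s) (h2 : v 2 = 2⁻¹) (hP : Is P x η) (h' : Is (P + P) x' η') :
    v x' * (v x * v (x ^ 2 - D)) = 4 * v (x ^ 2 + D) ^ 2 ∧ 0 < v x * v (x ^ 2 - D) := by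
  obtain ⟨m, x₃, a, b, -, c⟩ := add_line h hP hP h'.ne_zero
  obtain rfl := (a.inj h').1
  have e := eqn h hP
  have h0 := (v.pos_iff).2 ((hP.two_ne h).1 h'.ne_zero)
  have e1 : x₃ * η ^ 2 = (x ^ 2 + D) ^ 2 := mul_left_cancel₀ (pow_ne_zero 2 h.four) (by
    linear_combination 4 * η ^ 2 * b - 32 * x * e +
      (m * (η + η) + 4 * (x ^ 2 + x * x + x ^ 2 - D)) * c)
  rw [← veta h h2 hP, mul_left_comm, ← map_pow, ← map_mul, e1, map_pow, map_pow]
  exact ⟨rfl, by positivity⟩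

theorem vlt (h : Sp D s) (hx : v s < v x) : v (x ^ 2 - D) = v x ^ 2 ∧ v (x ^ 2 + D) = v x ^ 2 := by
  have : v D < v (x ^ 2) := by
    rw [map_pow, vD h]
    exact pow_lt_pow_left₀ hx zero_le two_ne_zero
  rw [Valuation.map_sub_eq_of_lt_left _ this, Valuation.map_add_eq_of_lt_left _ this, map_pow]
  exact ⟨rfl, rfl⟩

theorem is_dbl (h : Sp D s) (h2 : v 2 = 2⁻¹) (hP : Is P x η) (hx : v s < v x) :
    ∃ x' η', Is (P + P) x' η' ∧ v x' = 4 * v x := by
  have h0 : 0 < v x := zero_le.trans_lt hx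
  obtain ⟨x', η', h'⟩ := (zero_or_is (P + P)).resolve_left ((hP.two_ne h).2 fun e => by
    have := veta h h2 hP
    rw [(vlt h hx).1, e, map_zero] at this
    exact (by positivity : 0 < v x * v x ^ 2).ne (by simpa using this))
  refine ⟨x', η', h', mul_right_cancel₀ (pow_pos h0 3).ne' ?_⟩
  have := (vdbl h h2 hP h').1
  rw [(vlt h hx).1, (vlt h hx).2] at this
  linear_combination this

theorem is_pow (h : Sp D s) (h2 : v 2 = 2⁻¹) (hP : Is P x η) (hx : v s < v x) (n : ℕ) :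
    ∃ x' η', Is (2 ^ n • P) x' η' ∧ v x' = 4 ^ n * v x := by
  induction n with
  | zero => exact ⟨x, η, by simpa using hP, by simp⟩
  | succ n ih =>
    obtain ⟨x', η', a, b⟩ := ih
    obtain ⟨x'', η'', c, d⟩ := is_dbl h h2 a
      (hx.trans_le (b ▸ le_mul_of_one_le_left zero_le (one_le_pow₀ (by norm_num))))
    exact ⟨x'', η'', by rwa [pow_succ', mul_nsmul', two_nsmul], by rw [d, b]; ring⟩

/-- points which are close to the origin -/
def Dp (v : Valuation K ℝ≥0) (r : ℝ≥0) (P : Pt (W D) K) : Prop := ∀ x η, Is P x η → r ≤ v x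

theorem dp_zero : Dp v r (0 : Pt (W D) K) := fun _ _ h => absurd rfl h.ne_zero

theorem dp_of (hP : Is P x η) (hx : r ≤ v x) : Dp v r P := fun _ _ e => (hP.inj e).1 ▸ hx

theorem Dp.pow (hP : Dp v r P) (h : Sp D s) (h2 : v 2 = 2⁻¹) (hr : v s < r) (n : ℕ) :
    Dp v (4 ^ n * r) (2 ^ n • P) := by
  rcases zero_or_is P with rfl | ⟨x, η, a⟩
  · simpa using dp_zero
  obtain ⟨x', η', b, c⟩ := is_pow h h2 a (hr.trans_le (hP _ _ a)) n
  exact dp_of b (c ▸ mul_le_mul_right (hP _ _ a) _)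

theorem vlow (h : Sp D s) (h2 : v 2 = 2⁻¹) (hP : Is P x η) (h' : Is (P + P) x' η')
    (hx : v x < v s) : v s < v x' := by
  have h0 := vs_pos (v := v) h
  have : v (x ^ 2) < v D := by
    rw [map_pow, vD h]
    exact pow_lt_pow_left₀ hx zero_le two_ne_zero
  have h1 := (vdbl h h2 hP h').1
  rw [Valuation.map_sub_eq_of_lt_right _ this, Valuation.map_add_eq_of_lt_right _ this, vD h] at h1
  refine lt_of_not_ge fun e => ?_
  have h3 := mul_le_mul e (mul_le_mul_left hx.le (v s ^ 2)) zero_le zero_le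
  have h4 := pow_pos h0 4
  rw [h1] at h3
  nlinarith

theorem vtr (h : Sp D s) (hQ : Is Q x η) (hT : Is T e 0) (h' : Is (Q + T) x' η') :
    (x' - e) * (x - e) = 3 * e ^ 2 - D := by
  obtain ⟨m, x₃, a, b, c, d⟩ := add_line h hQ hT h'.ne_zero
  obtain rfl := (a.inj h').1
  exact mul_left_cancel₀ h.four (by linear_combination (x - e) * b + m * c + d)

theorem not_both (h : Sp D s) (hQ : Is Q x η) (hT : T + T = 0) (h' : Is (Q + T) x' η')
    (hx : v s < v x) (hx' : v s < v x') : T = 0 := by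
  have k : ∀ e, Is T e 0 → v e ≤ v s → False := fun e a b => by
    have h1 := congrArg v (vtr h hQ a h')
    rw [map_mul, Valuation.map_sub_eq_of_lt_left _ (b.trans_lt hx),
      Valuation.map_sub_eq_of_lt_left _ (b.trans_lt hx')] at h1
    have h3 : v (3 * e ^ 2 - D) ≤ v s * v s := by
      refine v.map_sub_le ?_ (by rw [vD h, sq])
      rw [map_mul, sq, map_mul]
      exact (mul_le_of_le_one_left zero_le (v_nat v 3)).trans (mul_le_mul' b b)
    exact (h1 ▸ h3).not_gt (mul_lt_mul'' hx' hx zero_le zero_le)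
  rcases two_torsion h hT with a | a | a | a
  exacts [a, (k _ a (by simp)).elim, (k _ a le_rfl).elim, (k _ a (by simp)).elim]

theorem deep_half (h : Sp D s) (h2 : v 2 = 2⁻¹) (h' : Is (Q + Q) x' η') (hx : 16 * v s < v x') :
    ∃ R x η, R + R = Q + Q ∧ Is R x η ∧ v s < v x := by
  by_contra h1
  push Not at h1
  obtain ⟨x, η, hQ⟩ := (zero_or_is Q).resolve_left fun e => h'.ne_zero (by rw [e, add_zero])
  have h3 := h1 Q x η rfl hQ
  have k : ∀ e, e * (e - s) * (e + s) = 0 → v e ≤ v s → v (3 * e ^ 2 - D) ≤ v s * v (x - e) :=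
    fun e a b => by
    obtain ⟨T, hT⟩ := h.exists_is (x := e) (η := 0) (by linear_combination -4 * a)
    have h4 : T + T = 0 := hT.add_eq_zero h (by simpa using hT)
    have h5 : Q + T + (Q + T) = Q + Q := by rw [add_add_add_comm, h4, add_zero]
    obtain ⟨y, ζ, h6⟩ := (zero_or_is (Q + T)).resolve_left fun e =>
      h'.ne_zero (by rw [← h5, e, add_zero])
    rw [← vtr h hQ hT h6, map_mul]
    exact mul_le_mul_left (v.map_sub_le (h1 _ _ _ h5 h6) b) _
  have k0 := k 0 (by ring) (by simp)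
  have k1 := k s (by ring) le_rfl
  have k2 := k (-s) (by ring) (by simp)
  rw [neg_sq] at k2
  rw [show 3 * s ^ 2 - D = 2 * s ^ 2 by linear_combination h.sq, map_mul, h2, map_pow] at k1 k2
  simp only [ne_eq, OfNat.ofNat_ne_zero, not_false_eq_true, zero_pow, mul_zero, zero_sub,
    Valuation.map_neg, vD h, sub_zero] at k0
  have h4 := (vdbl h h2 hQ h').1
  have h5 : v (x ^ 2 + D) ≤ v s ^ 2 :=
    v.map_add_le (by rw [map_pow]; exact pow_le_pow_left₀ zero_le h3 2) (vD h).le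
  rw [show x ^ 2 - D = (x - s) * (x - -s) by linear_combination h.sq, map_mul] at h4
  have h0 := vs_pos (v := v) h
  have h6 := mul_lt_mul_of_pos_left hx (by positivity : 0 < v s ^ 2 * (2⁻¹ * v s ^ 2 *
    (2⁻¹ * v s ^ 2)))
  have h7 := mul_le_mul_left (mul_le_mul' k0 (mul_le_mul' k1 k2)) (v x')
  have h8 := mul_le_mul_right (pow_le_pow_left₀ zero_le h5 2) (4 * v s ^ 3)
  refine (h6.trans_le h7).not_ge (((le_of_eq ?_).trans h8).trans_eq ?_)
  · linear_combination v s ^ 3 * h4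
  · field_simp
    norm_num

end

variable {D : ℤ} {P Q R : Pt (W D) Om} {x η x' η' : Om} {w : Pl} {r : ℝ≥0} {H : Subgroup GQ}

/-- points which are fixed by a group -/
noncomputable def Fp (D : ℤ) (H : Subgroup GQ) : AddSubgroup (Pt (W D) Om) where
  carrier := {P | ∀ g ∈ H, pm (W D) (g : Om →+* Om) P = P}
  zero_mem' := fun _ _ => map_zero _
  add_mem' := fun a b g hg => by rw [map_add, a g hg, b g hg]
  neg_mem' := fun a g hg => by rw [map_neg, a g hg]

theorem fp_fix (h : P ∈ Fp D H) (hP : Is P x η) : Fix H x ∧ Fix H η :=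
  have k := fun g hg => (h g hg ▸ hP.map (K := Om) (g : GQ) :).inj hP
  ⟨fun g hg => (k g hg).1, fun g hg => (k g hg).2⟩

theorem v2 (hw : w.p = 2) : w.v 2 = 2⁻¹ := by simpa [hw] using w.vp

theorem halve (hD : D ≠ 0) (hw : w.p = 2) (hr : 4 * w.v (rt D) < r) (hR : R ∈ Fp D w.D)
    (h : Dp w.v (4 * r) R) : ∃ Q ∈ Fp D w.D, Q + Q = R ∧ Dp w.v r Q := by
  have hs := sp hD
  rcases zero_or_is R with rfl | ⟨x', η', a⟩
  · exact ⟨0, zero_mem _, add_zero _, dp_zero⟩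
  obtain ⟨Q, rfl⟩ := exists_half hs R
  obtain ⟨R, x, η, b, c, d⟩ := deep_half hs (v2 hw) a
    (lt_of_lt_of_le (by linarith) (h _ _ a))
  rw [← b] at a h hR ⊢
  refine ⟨R, fun g hg => ?_, rfl, dp_of c ?_⟩
  · refine sub_eq_zero.1 (not_both (v := w.v) hs c ?_ (by simpa using c.map (K := Om) g) d ?_)
    · rw [sub_add_sub_comm, ← map_add, hR g hg, sub_self]
    · rwa [Pl.mem_D.1 hg]
  · obtain ⟨y, ζ, e, f⟩ := is_dbl hs (v2 hw) c d
    exact le_of_mul_le_mul_left (f ▸ h _ _ e) (by norm_num)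

theorem halve_pow (hD : D ≠ 0) (hw : w.p = 2) (hr : 4 * w.v (rt D) < r) (n : ℕ)
    (hR : R ∈ Fp D w.D) (h : Dp w.v (4 ^ n * r) R) : ∃ Q ∈ Fp D w.D, 2 ^ n • Q = R := by
  induction n generalizing R with
  | zero => exact ⟨R, hR, by simp⟩
  | succ n ih =>
    obtain ⟨Q, a, rfl, b⟩ := halve hD hw (r := 4 ^ n * r)
      (hr.trans_le (le_mul_of_one_le_left zero_le (one_le_pow₀ (by norm_num)))) hR
      (by rwa [← mul_assoc, ← pow_succ'])
    obtain ⟨U, c, rfl⟩ := ih a b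
    exact ⟨U, c, by rw [pow_succ', mul_nsmul', two_nsmul]⟩

variable [HA]

theorem fixv (hw : w.p = 2) (hx : Fix w.D x) (h1 : w.v x ≤ 1) :
    w.v x ≤ 2⁻¹ ∨ w.v (x - 1) ≤ 4⁻¹ ∨ w.v (x + 1) ≤ 4⁻¹ := by
  obtain ⟨m, hm⟩ := (hA.res w _ w.loc_D).2.2.2.2.2 x hx h1 2
  rw [hw, show (((2 : ℕ) : ℝ≥0) ^ 2)⁻¹ = 4⁻¹ by norm_num] at hm
  have k : ∀ (a : ℤ) (y : Om), y = x - m + 4 * a → w.v y ≤ 4⁻¹ := fun a y e => by
    rw [e]
    refine w.v.map_add_le hm ?_
    rw [map_mul, v4 (v2 hw)]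
    exact mul_le_of_le_one_right zero_le (v_int _ a)
  have e : (m : Om) = 4 * ((m / 4 : ℕ) : ℤ) + (m % 4 : ℕ) := by
    rw [Int.cast_natCast]
    exact_mod_cast (Nat.div_add_mod m 4).symm
  have h4 : (4⁻¹ : ℝ≥0) ≤ 2⁻¹ := inv_anti₀ two_pos (by norm_num)
  obtain h | h | h | h : m % 4 = 0 ∨ m % 4 = 1 ∨ m % 4 = 2 ∨ m % 4 = 3 := by omega
  all_goals rw [h] at e
  · exact .inl ((k (m / 4 : ℕ) x (by rw [e]; simp)).trans h4)
  · exact .inr (.inl (k (m / 4 : ℕ) _ (by rw [e]; push_cast; ring)))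
  · have := w.v.map_add_le ((k (m / 4 : ℕ) (x - 2) (by rw [e]; push_cast; ring)).trans h4)
      (v2 hw).le
    exact .inl (by simpa using this)
  · exact .inr (.inr (k ((m / 4 : ℕ) + 1) _ (by rw [e]; push_cast; ring)))

theorem fixu (hw : w.p = 2) (hx : Fix w.D x) (hy : Fix w.D x') (h : w.v x = w.v x') (h0 : x' ≠ 0) :
    w.v (x - x') ≤ 4⁻¹ * w.v x' ∨ w.v (x + x') ≤ 4⁻¹ * w.v x' := by
  have h1 := (w.v.ne_zero_iff).2 h0
  have h2 : w.v (x / x') = 1 := by rw [map_div₀, h, div_self h1]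
  have h3 := (fixv hw (hx.div hy) h2.le).resolve_left (by rw [h2]; norm_num)
  rwa [div_sub_one h0, div_add_one h0, map_div₀, map_div₀, div_le_iff₀ (zero_lt_iff.2 h1),
    div_le_iff₀ (zero_lt_iff.2 h1)] at h3

theorem fixu' (hw : w.p = 2) (hx : Fix w.D x) (hy : Fix w.D x') (h : w.v x = w.v x')
    (h0 : x' ≠ 0) : w.v (x - x') ≤ 2⁻¹ * w.v x' := by
  have h4 : 4⁻¹ * w.v x' ≤ 2⁻¹ * w.v x' := mul_le_mul_left (inv_anti₀ two_pos (by norm_num)) _
  rcases fixu hw hx hy h h0 with a | a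
  · exact a.trans h4
  · rw [show x - x' = x + x' - 2 * x' by ring]
    exact w.v.map_sub_le (a.trans h4) (by rw [map_mul, v2 hw])

theorem vmid (hD : D ≠ 0) (hw : w.p = 2) (hP : P ∈ Fp D w.D) (h' : Is (P + P) x' η') :
    w.v x' ≠ w.v (rt D) := by
  have hs := sp hD
  have h2 := v2 hw
  obtain ⟨x, η, a⟩ := (zero_or_is P).resolve_left fun e => h'.ne_zero (by rw [e, add_zero])
  have h0 := vs_pos (v := w.v) hs
  rcases lt_trichotomy (w.v x) (w.v (rt D)) with h | h | h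
  · exact (vlow hs h2 a h' h).ne'
  · intro e
    obtain ⟨h3, h4⟩ := vdbl hs h2 a h'
    have h5 : w.v (2 * D) = 2⁻¹ * w.v (rt D) ^ 2 := by rw [map_mul, h2, vD hs]
    have h6 : 4⁻¹ * w.v D < w.v (2 * D) := by
      rw [h5, vD hs]
      exact mul_lt_mul_of_pos_right (by norm_num) (by positivity)
    have h7 := pow_pos h0 4
    rcases fixu hw ((fp_fix hP a).1.pow 2) (fix_int D) (by rw [map_pow, h, vD hs])
      (Int.cast_ne_zero.2 hD) with b | b
    · rw [show x ^ 2 + D = x ^ 2 - D + 2 * D by ring,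
        Valuation.map_add_eq_of_lt_right _ (b.trans_lt h6), h5, e, h] at h3
      have := mul_le_mul_right b (w.v (rt D) * w.v (rt D))
      rw [mul_assoc, h3, vD hs] at this
      nlinarith
    · rw [show x ^ 2 - D = x ^ 2 + D - 2 * D by ring,
        Valuation.map_sub_eq_of_lt_right _ (b.trans_lt h6), h5, e, h] at h3
      have := mul_le_mul_right (pow_le_pow_left₀ zero_le b 2) 4
      rw [← h3, vD hs] at this
      nlinarith
  · obtain ⟨y, ζ, b, c⟩ := is_dbl hs h2 a h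
    rw [← (b.inj h').1, c]
    exact (h.trans_le (le_mul_of_one_le_left zero_le (by norm_num))).ne'

theorem dp_eight (hD : D ≠ 0) (hw : w.p = 2) (hP : P ∈ Fp D w.D) (n : ℕ) :
    Dp w.v (4 ^ n * w.v (rt D)) (2 ^ (n + 2) • P) := by
  have hs := sp hD
  have h2 := v2 hw
  rw [pow_add, mul_nsmul', show 2 ^ 2 = 2 * 2 from rfl, mul_nsmul', two_nsmul, two_nsmul]
  rcases zero_or_is (P + P + (P + P)) with e | ⟨x, η, a⟩
  · simpa [e] using dp_zero
  obtain ⟨y, ζ, b⟩ := (zero_or_is (P + P)).resolve_left fun e => a.ne_zero (by rw [e, add_zero])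
  have h3 : w.v (rt D) < w.v x := by
    rcases (vmid hD hw hP b).lt_or_gt with h | h
    · exact vlow hs h2 b a h
    · obtain ⟨y, ζ, b, c⟩ := is_dbl hs h2 b h
      rw [← (b.inj a).1, c]
      exact h.trans_le (le_mul_of_one_le_left zero_le (by norm_num))
  obtain ⟨x', η', c, d⟩ := is_pow hs h2 a h3 n
  exact dp_of c (d ▸ mul_le_mul_right h3.le _)

theorem chord (hD : D ≠ 0) (hw : w.p = 2) (hP : P ∈ Fp D w.D) (hR : R ∈ Fp D w.D) (a : Is P x η)
    (hx : w.v (rt D) < w.v x) (h : Dp w.v (w.v x) R) :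
    Dp w.v (4 * w.v x) R ∨ Dp w.v (4 * w.v x) (R - P) := by
  have hs := sp hD
  have h2 := v2 hw
  rcases zero_or_is R with rfl | ⟨y, ζ, b⟩
  · exact .inl dp_zero
  have h3 := h _ _ b
  have h0 : 0 < w.v x := zero_le.trans_lt hx
  have h0' := h0.trans_le h3
  have e1 := veta hs h2 a
  have e2 := veta hs h2 b
  rw [(vlt hs hx).1] at e1
  rw [(vlt hs (hx.trans_le h3)).1] at e2
  have n1 : 0 < w.v η := zero_lt_iff.2 fun e => by simp [e, h0.ne'] at e1
  have n2 : 0 < w.v ζ := zero_lt_iff.2 fun e => by simp [e, h0'.ne'] at e2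
  obtain ⟨f1, f2⟩ := fp_fix hP a
  obtain ⟨f3, f4⟩ := fp_fix hR b
  have e3 : w.v (η * y / (ζ * x)) ^ 2 * w.v y = w.v x := by
    rw [map_div₀, map_mul, map_mul]
    field_simp
    refine mul_left_cancel₀ (four_ne_zero' ℝ≥0) ?_
    linear_combination w.v y ^ 3 * e1 + w.v x ^ 3 * e2.symm
  rcases h3.eq_or_lt with h4 | h4
  swap
  · have h5 : w.v (η * y / (ζ * x)) < 1 := lt_of_not_ge fun e => by
      have := one_le_pow₀ (n := 2) e
      nlinarith
    have h6 : w.v (η * y / (ζ * x)) ≤ 2⁻¹ := by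
      refine (fixv hw ((f2.mul f3).div (f4.mul f1)) h5.le).elim id fun e => absurd e ?_
      rw [w.v.map_add_eq_of_lt_right (by simpa using h5),
        w.v.map_sub_eq_of_lt_right (by simpa using h5), map_one]
      norm_num
    have := mul_le_mul_left (pow_le_pow_left₀ zero_le h6 2) (w.v y)
    exact .inl (dp_of b (by nlinarith))
  refine .inr fun z ξ c => ?_
  rw [sub_eq_add_neg] at c
  obtain ⟨m, x₃, c1, c2, -, c3⟩ := add_line hs b a.neg c.ne_zero
  obtain rfl := (c1.inj c).1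
  have h5 := fixu' hw f3 f1 h4.symm ((w.v.pos_iff).1 h0)
  have h6 := fixu' hw f4 f2 ((pow_left_inj₀ zero_le zero_le two_ne_zero).1
    (mul_left_cancel₀ (four_ne_zero' ℝ≥0) (by rw [e1, e2, h4]))) ((w.v.pos_iff).1 n1)
  have h7 : w.v (y ^ 2 + y * x + x ^ 2 - D) = w.v x ^ 2 := by
    have t : w.v 3 = 1 := by
      rw [show (3 : Om) = 1 + 2 by norm_num, w.v.map_add_eq_of_lt_left (by
        rw [h2, map_one]; norm_num), map_one]
    have t' : w.v (3 * x ^ 2) = w.v x ^ 2 := by rw [map_mul, t, one_mul, map_pow]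
    rw [show y ^ 2 + y * x + x ^ 2 - D = 3 * x ^ 2 + ((y - x) * (y + 2 * x) - D) by ring,
      w.v.map_add_eq_of_lt_left, t']
    rw [t']
    refine w.v.map_sub_lt ?_ (by rw [vD hs]; exact pow_lt_pow_left₀ hx zero_le two_ne_zero)
    have : w.v (y + 2 * x) ≤ w.v x := w.v.map_add_le h4.ge (by rw [map_mul, h2]; nlinarith)
    have := mul_le_mul' h5 this
    rw [map_mul]
    nlinarith [pow_pos h0 2]
  have h8 := congrArg w.v c3
  rw [map_mul, map_mul, h7, v4 h2, ← sub_eq_add_neg] at h8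
  have h9 := congrArg w.v c2
  rw [map_mul, map_pow, v4 h2] at h9
  have h10 : w.v x ≤ w.v m ^ 2 := by
    have t := pow_le_pow_left₀ zero_le (h8 ▸ mul_le_mul_right h6 (w.v m) :) 2
    refine le_of_mul_le_mul_right ?_ (pow_pos h0 3)
    have t' : (w.v m * (2⁻¹ * w.v η)) ^ 2 = 16⁻¹ * (w.v m ^ 2 * w.v x ^ 3) := by
      rw [show w.v x ^ 3 = 4 * w.v η ^ 2 by rw [e1]; ring]
      field_simp
      ring
    rw [t'] at t
    nlinarith
  refine le_of_not_gt fun e => ?_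
  have h11 : w.v (y + x + x₃) < 4 * w.v x :=
    w.v.map_add_lt (w.v.map_add_lt (by linarith) (by linarith)) e
  nlinarith

end Pool.Agent.P.MP_8b7eba_nt.QT.PP
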