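import Pool.Agent.P.MP_8b7eba_nt.CG.PG
import Pool.Agent.P.MP_8b7eba_nt.CG.PH
import Pool.Agent.P.MP_8b7eba_nt.CG.Defs

/-! Kummer classes of local points. -/

set_option linter.unusedSectionVars false

namespace Pool.Agent.P.MP_8b7eba_nt.QT.PP

open R2 SM MP_9c97e9_nt Classical CA CB CE Filter
open QT.CG (Kum Zer xc)
open scoped NNReal

variable {D D' : ℤ} {ρ k κ X : GQ → O} {e : ℕ → O →+ Pt (W D) Om} {P P₀ : Pt (W D) Om}
  {H H' : Subgroup GQ} {u x η : Om} {S : Finset ℕ} {f : Pt (W D) Om →+ Pt (W D') Om}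

theorem chain {Q : ℕ → Pt (W D) Om} (h : ∀ n, 2 • Q (n + 1) = Q n) (n : ℕ) :
    2 ^ n • Q n = Q 0 := by
  induction n with
  | zero => simp
  | succ n ih => rw [pow_succ, mul_nsmul', h, ih]

theorem kum_mono (hk : Kum D e H P k) (h : H' ≤ H) : Kum D e H' P k :=
  let ⟨Q, a, b, c⟩ := hk
  ⟨Q, a, b, fun n g hg => c n g (h hg)⟩

theorem kum_fp (h : TM D ρ e) (hk : Kum D e H P k) : P ∈ Fp D H := by
  obtain ⟨Q, rfl, -, c⟩ := hk
  exact fun g hg => sub_eq_zero.1 ((c 0 g hg).symm.trans ((h.ker _ _).2 (dv_nil _)))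

theorem kum_zn (hD : D ≠ 0) (h : TM D ρ e) (hk : Kum D e H P k) (n : ℕ) : Zn ρ H n k := by
  obtain ⟨Q, -, -, c⟩ := hk
  obtain ⟨N, hN, h1⟩ := exists_ON hD (Q n)
  refine Zn.mono (n := 2 * n) ⟨⟨N, hN, fun g a u b hu => (inj h.toTM0).1 ?_⟩, fun g a u b => ?_⟩
    le_rfl (by omega)
  · rw [c n _ (mul_mem a b), c n g a, pm_mul, h1 u hu]
  · rw [sub_sub, ← inj h.toTM0, map_add, ← h.gal, c n _ (mul_mem a b), c n g a, c n u b, pm_mul,
      map_sub]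
    abel

theorem kum_ex (hD : D ≠ 0) (h : TM D ρ e) (hP : P ∈ Fp D H) : ∃ k, Kum D e H P k := by
  choose d hd using exists_half (sp hD)
  have h1 : ∀ n, 2 • d^[n + 1] P = d^[n] P := fun n => by
    rw [Function.iterate_succ_apply', two_nsmul, hd]
  have h2 : ∀ g ∈ H, ∃ b, ∀ n, e n b = cob (d^[n] P) g := fun g hg => by
    choose a ha using fun n => h.surj n (cob (d^[n] P) g) (by
      rw [← cob_nsmul, chain (Q := fun n => d^[n] P) h1]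
      exact sub_eq_zero.2 (hP g hg))
    obtain ⟨b, hb⟩ := exists_lim' a fun n => (inj h.toTM0).1 (by
      rw [← h.two, two_mul, map_add, ha, ha, ← two_nsmul, ← cob_nsmul, h1])
    exact ⟨b, fun n => ((inj h.toTM0).2 (hb n)).symm.trans (ha n)⟩
  choose! k hk using h2
  exact ⟨k, fun n => d^[n] P, rfl, h1, fun n g hg => hk g hg n⟩

theorem sc_comm (hD' : D' ≠ 0) (hf : IsSc u f) {g : GQ} (hg : g u = u) (P : Pt (W D) Om) :
    pm (W D') (g : Om →+* Om) (f P) = f (pm (W D) (g : Om →+* Om) P) := by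
  rcases zero_or_is P with rfl | ⟨x, η, a⟩
  · simp
  refine ((hf _ _ _ a).map (K := Om) g).unique (sp hD') ?_
  simpa [hg] using hf _ _ _ (a.map (K := Om) g)

theorem kum_sc (hD' : D' ≠ 0) (hb : Function.Bijective f) (hf : IsSc u f) (hu : Fix H u)
    (hk : Kum D' (fun n => f.comp (e n)) H (f P) k) : Kum D e H P k := by
  obtain ⟨Q, a, b, c⟩ := hk
  choose R hR using fun n => hb.2 (Q n)
  refine ⟨R, hb.1 (by rw [hR, a]), fun n => hb.1 (by rw [map_nsmul, hR, hR, b]),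
    fun n g hg => hb.1 ?_⟩
  rw [map_sub, ← sc_comm hD' hf (hu g hg), hR]
  exact c n g hg

theorem kum_map (hD' : D' ≠ 0) (hf : IsSc u f) (hu : Fix H u) (hk : Kum D e H P k) :
    Kum D' (fun n => f.comp (e n)) H (f P) k := by
  obtain ⟨Q, a, b, c⟩ := hk
  refine ⟨fun n => f (Q n), congrArg f a, fun n => by rw [← map_nsmul, b], fun n g hg => ?_⟩
  rw [sc_comm hD' hf (hu g hg), ← map_sub, ← c n g hg]
  rfl

theorem xc_of (h : Is P x η) : xc P = x := by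
  obtain ⟨y, a, rfl, -⟩ := h
  rfl

theorem fix4 (hD : D ≠ 0) (hu : u ^ 4 * D = D') : Fix ⊤ (u ^ 4) := by
  rw [eq_div_of_mul_eq (Int.cast_ne_zero.2 hD) hu]
  exact (fix_int _).div (fix_int _)

theorem ne4 (hD' : D' ≠ 0) (hu : u ^ 4 * D = D') : u ≠ 0 := fun e =>
  hD' (by simpa [e] using hu.symm)

theorem tw2 (h : TM D ρ e) (hc : Cm D e) (hD : D ≠ 0) (hD' : D' ≠ 0) (hu : u ^ 4 * D = D') :
    ∃ f : Pt (W D) Om →+ Pt (W D') Om, Function.Bijective f ∧ IsSc u f ∧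
      TM D' (fun g => ρ g * kd u g) (fun n => f.comp (e n)) ∧ Cm D' fun n => f.comp (e n) := by
  obtain ⟨f, hf, hs⟩ := exists_sc hD hD' hu
  refine ⟨f, hf, hs, ⟨⟨fun n a => ?_, fun n a => congrArg f (h.two n a), fun n P hP => ?_⟩,
    fun g n a => ?_⟩, fun n a x η hx => ?_⟩
  · exact (map_eq_zero_iff f hf.1).trans (h.ker n a)
  · obtain ⟨P, rfl⟩ := hf.2 P
    obtain ⟨a, rfl⟩ := h.surj n P (hf.1 (by rw [map_nsmul, hP, map_zero]))
    exact ⟨a, rfl⟩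
  · change pm (W D') (g : Om →+* Om) (f (e n a)) = f (e n _)
    rcases zero_or_is (e n a) with h0 | ⟨x, η, h0⟩
    · rw [h0, (h.ker _ _).2 (((h.ker _ _).1 h0).ac _ g), map_zero, map_zero]
    have h1 := (hs _ _ _ h0).map (K := Om) g
    have h2 := h0.map (K := Om) g
    rw [h.gal] at h2
    have h3 := hs _ _ _ (cm_pow hc (ke u g) h2)
    rw [show ii ^ (ke u g : ℕ) * ac ρ g a = ac (fun g => ρ g * kd u g) g a by
      simp only [ac, kd]; ring] at h3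
    refine h1.unique (sp hD') ?_
    convert h3 using 1 <;>
      simp only [map_mul, map_pow, RingHom.coe_coe, QT.ke_spec (fix4 hD hu) g] <;> ring
  · obtain ⟨y, ζ, h0⟩ := (zero_or_is (e n a)).resolve_left fun h0 =>
      hx.ne_zero (show f (e n a) = 0 by rw [h0, map_zero])
    obtain ⟨rfl, rfl⟩ := (hs _ _ _ h0).inj hx
    change Is (f _) _ _
    convert hs _ _ _ (hc _ _ _ _ h0) using 1 <;> ring

/-- the primes of the twist -/
def SD (D : ℤ) : Finset ℕ := D.natAbs.primeFactors.filter fun p => ¬ p ∣ 30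

theorem mem_SD (hD : D ≠ 0) {p : ℕ} : p ∈ SD D ↔ Gp p ∧ (p : ℤ) ∣ D := by
  rw [SD, Finset.mem_filter, Nat.mem_primeFactors, Int.natCast_dvd]
  exact ⟨fun h => ⟨⟨h.1.1, h.2⟩, h.1.2.1⟩, fun h => ⟨⟨h.1.1, h.2, Int.natAbs_ne_zero.2 hD⟩, h.1.2⟩⟩

theorem sd_out (hD : D ≠ 0) (w : Pl) (a : ¬ w.p ∣ 30) (b : w.p ∉ SD D) : ¬ (w.p : ℤ) ∣ 2 * D :=
  fun e => ((Nat.prime_iff_prime_int.1 w.prime).dvd_or_dvd e).elim
    (fun e => a ((Int.natCast_dvd.1 e).trans (by norm_num))) fun e =>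
      b ((mem_SD hD).2 ⟨⟨w.prime, a⟩, e⟩)

variable [HA]

theorem tw_of (hD : D ≠ 0) (h : TM D ρ e) (hρ : Cy ρ) : Tw ρ (SD D) :=
  ⟨hρ, fun _ hp => ((mem_SD hD).1 hp).1, fun w a b _ hg => CD.unr h (sd_out hD w a b) hg⟩

theorem kum_zu (hD : D ≠ 0) (h : TM D ρ e) (hk : Kum D e ⊤ P k) (n : ℕ) : Zu ρ (SD D) n k := by
  have h1 := kum_fp h hk
  obtain ⟨Q, rfl, b, c⟩ := hk
  obtain ⟨x, x1, x2⟩ := zu h (sd_out hD) (k := n) (cob_sha hD (Q n)) fun g => by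
    rw [← cob_nsmul, chain b]
    exact sub_eq_zero.2 (h1 g trivial)
  exact (x1.congr fun g => (inj h.toTM0).1 ((c n g trivial).trans (x2 g).symm)).mono (by omega)

theorem p2 : (pl 2).p = 2 := pl_p Nat.prime_two

theorem kum_tors (hD : D ≠ 0) (h : TM D ρ e) (hk : Kum D e (pl 2).D P k)
    (h0 : Ex false ρ (pl 2).D k) : 2 ^ 3 • P = 0 := by
  have h1 := dp_eight hD p2 (kum_fp h hk) 1
  obtain ⟨Q, rfl, b, c⟩ := hk
  obtain ⟨j, v, hv⟩ := h0.2 rfl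
  have s0 := vs_pos (v := (pl 2).v) (sp hD)
  by_contra h2
  obtain ⟨x, η, h3⟩ := (zero_or_is _).resolve_left h2
  obtain ⟨y, ζ, h4, -⟩ := is_pow (sp hD) (v2 p2) h3 (lt_of_lt_of_le (by linarith) (h1 _ _ h3)) j
  obtain ⟨n, hn⟩ := pow_unbounded_of_one_lt ((pl 2).v y / (pl 2).v (rt D)) (y := 4) (by norm_num)
  have h5 : 2 ^ 3 • (2 ^ j • Q (n + 2) - e (n + 2) v) ∈ Fp D (pl 2).D :=
    nsmul_mem (fun g hg => by
      rw [map_sub, map_nsmul, h.gal, sub_eq_sub_iff_sub_eq_sub, ← smul_sub, ← c _ g hg, ← map_sub,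
        ← map_nsmul, nsmul_eq_mul, Nat.cast_pow, Nat.cast_ofNat, hv g hg, bd]) _
  have h6 := dp_eight hD p2 h5 n
  rw [smul_comm, smul_sub, CB.tors h.toTM0, sub_zero, smul_comm (2 ^ (n + 2)), chain b,
    smul_comm] at h6
  exact (h6 _ _ h4).not_gt ((div_lt_iff₀ s0).1 hn)

theorem kum_line (hD : D ≠ 0) (h : TM D ρ e) (hρ : Cy ρ) (hκ : Kum D e (pl 2).D P₀ κ)
    (h0 : Is P₀ x η) (hx : 4 * (pl 2).v (rt D) < (pl 2).v x) (hk : Kum D e (pl 2).D P k) :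
    ∃ (j : ℕ) (c : Z2), Ex false ρ (pl 2).D fun g => 2 ^ j * k g - c • κ g := by
  have f0 := kum_fp h hκ
  have f1 := kum_fp h hk
  have s0 := vs_pos (v := (pl 2).v) (sp hD)
  obtain ⟨j, hj⟩ := pow_unbounded_of_one_lt ((pl 2).v x / (pl 2).v (rt D)) (y := 4) (by norm_num)
  have h1 : ∀ n, ∃ c : ℕ, Dp (pl 2).v (4 ^ n * (pl 2).v x) (2 ^ (j + 2) • P - c • P₀) := fun n => by
    induction n with
    | zero => exact ⟨0, fun y ζ a => by
        simpa using ((div_lt_iff₀ s0).1 hj).le.trans (dp_eight hD p2 f1 j y ζ (by simpa using a))⟩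
    | succ n ih =>
      obtain ⟨c, hc⟩ := ih
      obtain ⟨y, ζ, a, b⟩ := is_pow (sp hD) (v2 p2) h0 (by linarith) n
      rw [pow_succ', mul_assoc, ← b]
      refine (chord hD p2 (nsmul_mem f0 _) (sub_mem (nsmul_mem f1 _) (nsmul_mem f0 _)) a
        (b ▸ lt_of_lt_of_le (by linarith) (le_mul_of_one_le_left zero_le
          (one_le_pow₀ (by norm_num)))) (b ▸ hc)).elim (fun e => ⟨c, e⟩) fun e => ⟨c + 2 ^ n, ?_⟩
      rwa [add_smul, ← sub_sub]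
  obtain ⟨Q, rfl, b, c⟩ := hk
  obtain ⟨R, rfl, b', c'⟩ := hκ
  have h2 : ∀ n, ∃ (a : ℕ) (v : O), ∀ g ∈ (pl 2).D,
      Dv (2 * n) (2 ^ (j + 2) * k g - (a : Z2) • κ g - bd ρ v g) := fun n => by
    obtain ⟨a, ha⟩ := h1 n
    obtain ⟨U, h3, h4⟩ := halve_pow hD p2 hx n (sub_mem (nsmul_mem f1 _) (nsmul_mem f0 _)) ha
    obtain ⟨v, hv⟩ := h.surj n (2 ^ (j + 2) • Q n - a • R n - U) (by
      rw [smul_sub, smul_sub, smul_comm, chain b, smul_comm, chain b', h4, sub_self])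
    refine ⟨a, v, fun g hg => (inj h.toTM0).1 ?_⟩
    rw [bd, map_sub, map_sub, ← h.gal, hv, Nat.cast_smul_eq_nsmul, map_nsmul, c' n g hg,
      show 2 ^ (j + 2) * k g = 2 ^ (j + 2) • k g by simp, map_nsmul, c n g hg, map_sub, map_sub,
      map_nsmul, map_nsmul, h3 g hg, smul_sub, smul_sub]
    abel
  choose a v hv using h2
  obtain ⟨A, hA⟩ := exists_lim (hyperfilter ℕ) fun n => (⟨a n, 0⟩ : O)
  obtain ⟨V, hV⟩ := exists_lim (hyperfilter ℕ) v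
  refine ⟨j + 2, A.re, ex_of_bd hρ (e := 0) (v := V) fun g hg => ?_⟩
  rw [pow_zero, one_mul, ← sub_eq_zero]
  refine eq_zero_of_dv fun n => Dv.mono (n := 2 * n) ?_ (by omega)
  obtain ⟨m, h3, h4, h5⟩ := (((eventually_ge_atTop n).filter_mono Nat.hyperfilter_le_atTop).and
    ((hA (2 * n)).and (hV (2 * n)))).exists
  refine of_eq ((((hv m g hg).mono (by omega)).add (dv_smul (dv_two_iff.1 h4).1 (κ g))).add
    ((h5.ac ρ g).sub h5)) ?_
  simp only [bd, ac_sub, QuadraticAlgebra.re_sub, sub_smul]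
  ring

theorem hen4 (w : Pl) (hx : Fix w.D x) (h : w.v (x - 1) < w.v 8) : ∃ u, Fix w.D u ∧ u ^ 4 = x := by
  have e : w.v 8 = w.v 4 * w.v 2 := by rw [← map_mul]; norm_num
  obtain ⟨y, a, rfl, -, b⟩ := (hA.hens w _ le_rfl).1 x hx
    (h.trans_le (e ▸ mul_le_of_le_one_right zero_le (v_nat _ 2)))
  obtain ⟨u, c, rfl, -⟩ := (hA.hens w _ le_rfl).1 y a
    (lt_of_mul_lt_mul_right (by rwa [b, ← e]) zero_le)
  exact ⟨u, c, by ring⟩

theorem special (hD : D ≠ 0) (h : TM D ρ e) (hc : Cm D e) (hρ : Cy ρ) : ∃ P₀ x η κ,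
    Kum D e (pl 2).D P₀ κ ∧ Is P₀ x η ∧ 4 < (pl 2).v x ∧ Ot ρ (pl 2).D κ κ := by
  have h2 := v2 p2
  have h8 : (pl 2).v 8 = 8⁻¹ := by
    rw [show (8 : Om) = 2 ^ 3 by norm_num, map_pow, h2, inv_pow]
    norm_num
  have h3 : (pl 2).v (1 - 64 * D - 1) < (pl 2).v 8 := by
    rw [show (1 - 64 * D - 1 : Om) = -(8 * 8 * D) by ring, Valuation.map_neg, map_mul, map_mul, h8]
    exact (mul_le_of_le_one_right zero_le (v_int _ D)).trans_lt (by norm_num)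
  obtain ⟨u, h4, h5⟩ := hen4 (pl 2) (fix_one.sub ((fix_ofNat 64).mul (fix_int D))) h3
  have hD' : D * (1 - 64 * D) ≠ 0 := mul_ne_zero hD (by omega)
  have hu : u ^ 4 * D = (D * (1 - 64 * D) : ℤ) := by rw [h5]; push_cast; ring
  obtain ⟨f, f1, f2, f3, -⟩ := tw2 h hc hD hD' hu
  obtain ⟨P, hP⟩ := (sp hD').exists_is (x := (1 / 16 : Om)) (η := (1 - 128 * D) / 32) (by
    have := (sp hD').sq
    push_cast at this
    linear_combination this / 4)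
  have h6 : P ∈ Fp _ ⊤ := fun g _ =>
    (hP.map (K := Om) g).unique (sp hD') (by simpa [map_ofNat] using hP)
  obtain ⟨P, rfl⟩ := f1.2 P
  obtain ⟨k, hk⟩ := kum_ex hD' f3 h6
  obtain ⟨x, η, h7⟩ := (zero_or_is P).resolve_left fun e => hP.ne_zero (by rw [e, map_zero])
  refine ⟨P, x, η, k, kum_sc hD' f1 f2 h4 (kum_mono hk le_top), h7, ?_, Ot.congr_rho
    (iso_two (tw_of hD' f3 (hρ.mul_cr (cr_kd (ne4 hD' hu) (fix4 hD hu)))) (kum_zu hD' f3 hk)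
      (kum_zu hD' f3 hk)) fun g hg => by rw [kd_fix (h4 g hg), mul_one]⟩
  have h9 : (pl 2).v u = 1 := by
    rw [← pow_eq_one_iff_of_nonneg zero_le four_ne_zero, ← map_pow, h5,
      ← sub_add_cancel (1 - 64 * D : Om) 1, Valuation.map_add_eq_of_lt_right, map_one]
    rw [map_one]
    exact h3.trans_le (v_nat _ 8)
  have h10 := congrArg (pl 2).v ((f2 _ _ _ h7).inj hP).1
  rw [map_mul, map_pow, h9, one_pow, one_mul, map_div₀, show (16 : Om) = 2 ^ 4 by norm_num,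
    map_pow, h2, map_one] at h10
  rw [h10]
  norm_num

/-- a Kummer class which defines the local condition at two -/
structure Ka (D : ℤ) (ρ : GQ → O) (e : ℕ → O →+ Pt (W D) Om) (κ : GQ → O) : Prop where
  pt : ∃ P x η, Is P x η ∧ 1 < (pl 2).v x ∧ Kum D e (pl 2).D P κ
  kp : Kp ρ 2 κ
  ot : ∀ P k, Kum D e (pl 2).D P k → Ot ρ (pl 2).D κ k

theorem kappa (hD : D ≠ 0) (h : TM D ρ e) (hc : Cm D e) (hρ : Cy ρ) : ∃ κ, Ka D ρ e κ := by
  obtain ⟨P₀, x, η, κ, h1, h2, h3, h4⟩ := special hD h hc hρ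
  have h5 := kum_zn hD h h1
  have h6 : (pl 2).v (rt D) ≤ 1 :=
    (pow_le_one_iff_of_nonneg zero_le two_ne_zero).1 (vD (sp hD) ▸ v_int _ D)
  refine ⟨κ, ⟨P₀, x, η, h2, by linarith, h1⟩, kp_two hρ ⟨h5, h4⟩ fun a => ?_, fun P k hk => ?_⟩
  · obtain ⟨y, ζ, b, -⟩ := is_pow (sp hD) (v2 p2) h2 (by linarith) 3
    exact b.ne_zero (kum_tors hD h h1 a)
  · obtain ⟨j, c, a⟩ := kum_line hD h hρ h1 h2 (by linarith) hk
    exact Ot.half j (((ot_ex hρ h5 a).add (h4.smul c)).congr fun g _ => by simp)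

theorem Ka.sc (h : Ka D ρ e κ) (hD' : D' ≠ 0) (hb : Function.Bijective f) (hf : IsSc u f)
    (hu : Fix (pl 2).D u) (h1 : (pl 2).v u = 1) {ρ' : GQ → O} (h2 : ∀ g ∈ (pl 2).D, ρ' g = ρ g) :
    Ka D' ρ' (fun n => f.comp (e n)) κ := by
  obtain ⟨P, x, η, a, b, c⟩ := h.pt
  refine ⟨⟨_, _, _, hf _ _ _ a, by simpa [h1] using b, kum_map hD' hf hu c⟩, h.kp.congr_rho h2,
    fun P k hk => ?_⟩
  obtain ⟨P, rfl⟩ := hb.2 P
  exact (h.ot _ _ (kum_sc hD' hb hf hu hk)).congr_rho h2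

theorem zu_sd {n : ℕ} : Zu ρ D.natAbs.primeFactors n X ↔ Zu ρ (SD D) n X :=
  ⟨fun h => ⟨h.zn, fun w a b => h.unr w a fun e => b (Finset.mem_filter.2 ⟨e, a⟩)⟩,
    fun h => ⟨h.zn, fun w a b => h.unr w a fun e => b (Finset.mem_filter.1 e).1⟩⟩

theorem zer_of (hρ : Cy ρ) (hκ : Ka D ρ e κ)
    (hZ : ∀ X, (∀ n, Zu ρ (SD D) n X) → Ot ρ (pl 2).D κ X → Ex false ρ ⊤ X) : Zer D ρ e := by
  obtain ⟨P, x, η, a, b, c⟩ := hκ.pt
  exact ⟨P, κ, by rwa [xc_of a], c, fun X h1 h2 => hZ X (fun n => zu_sd.1 (h1 n))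
    (Ot.swap hρ (fun n => (h1 n).zn.res _) hκ.kp.lam.1 h2)⟩

theorem fin_of (hD : D ≠ 0) (h : TM D ρ e) (hκ : Ka D ρ e κ)
    (hZ : ∀ X, (∀ n, Zu ρ (SD D) n X) → Ot ρ (pl 2).D κ X → Ex false ρ ⊤ X) :
    {q : ℚ × ℚ | q.2 ^ 2 = q.1 ^ 3 + ((-D : ℤ) : ℚ) * q.1 + ((0 : ℤ) : ℚ)}.Finite := by
  refine (((finite_lv (2 * 3)).image (e 3)).image fun P =>
    Classical.epsilon fun q : ℚ × ℚ => Is P (q.1 : Om) (2 * q.2)).subset fun q hq => ?_
  obtain ⟨P, hP⟩ := (sp hD).exists_is (x := (q.1 : Om)) (η := 2 * q.2) (by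
    have := congrArg (Rat.cast : ℚ → Om) hq
    push_cast at this
    linear_combination 4 * this + 4 * q.1 * (sp hD).sq)
  have h1 : P ∈ Fp _ ⊤ := fun g _ =>
    (hP.map (K := Om) g).unique (sp hD) (by simpa [map_ofNat] using hP)
  obtain ⟨k, hk⟩ := kum_ex hD h h1
  have h2 := kum_mono hk (le_top : (pl 2).D ≤ ⊤)
  have h3 := hZ k (kum_zu hD h hk) (hκ.ot _ _ h2)
  obtain ⟨a, rfl⟩ := h.surj 3 P (kum_tors hD h h2 ⟨kum_zn hD h h2, fun e =>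
    (h3.2 e).imp fun j => Exists.imp fun v hv g _ => hv g trivial⟩)
  refine ⟨_, ⟨_, ⟨a, rfl⟩, (inj h.toTM0).2 (dv_lv _ _)⟩, ?_⟩
  have h4 := (Classical.epsilon_spec (p := fun q : ℚ × ℚ => Is (e 3 a) (q.1 : Om) (2 * q.2))
    ⟨q, hP⟩).inj hP
  exact Prod.ext (Rat.cast_injective h4.1)
    (Rat.cast_injective (mul_left_cancel₀ two_ne_zero h4.2))

end Pool.Agent.P.MP_8b7eba_nt.QT.PP
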