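import Pool.Agent.P.MP_8b7eba_nt.CG.IfM
import Pool.Agent.P.MP_8b7eba_nt.CG.HA
import Pool.Agent.P.MP_8b7eba_nt.CG.PI

/-! Proof of CONV. -/

namespace Pool.Agent.P.MP_8b7eba_nt.QT.PP

open R2 SM MP_9c97e9_nt CB
open QT.CG

theorem red4 (n : ℕ) : ∀ D : ℤ, D ≠ 0 → D.natAbs = n → ∃ D₀ m : ℤ, m ≠ 0 ∧ D = D₀ * m ^ 4 ∧
    ∀ p : ℕ, p.Prime → p ≠ 2 → ¬ (p : ℤ) ^ 4 ∣ D₀ := by
  induction n using Nat.strong_induction_on with
  | _ n ih =>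
    intro D hD hn
    by_cases h : ∀ p : ℕ, p.Prime → p ≠ 2 → ¬ (p : ℤ) ^ 4 ∣ D
    · exact ⟨D, 1, one_ne_zero, by simp, h⟩
    push Not at h
    obtain ⟨p, hp, -, c, rfl⟩ := h
    have hc : c ≠ 0 := right_ne_zero_of_mul hD
    obtain ⟨D₀, m, a, rfl, b⟩ := ih c.natAbs (by
      rw [← hn, Int.natAbs_mul, Int.natAbs_pow, Int.natAbs_natCast]
      exact lt_mul_of_one_lt_left (Int.natAbs_pos.2 hc) (Nat.one_lt_pow four_ne_zero hp.one_lt))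
      c hc rfl
    exact ⟨D₀, p * m, mul_ne_zero (Int.natCast_ne_zero.2 hp.ne_zero) a, by ring, b⟩

theorem iz_pow (k : ℕ) {P : EE} {x η : Om} (h : Is P x η) :
    Is (iz ^ k • P) ((rt (-1) ^ k) ^ 2 * x) ((rt (-1) ^ k) ^ 3 * η) := by
  induction k with
  | zero => simpa using h
  | succ k ih =>
    have := is_cmi ih
    rw [pow_succ' iz, mul_smul, smul_def iz]
    simp only [iz, zero_smul, one_smul, zero_add] at this ⊢
    convert this using 1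
    · linear_combination (rt (-1) ^ k) ^ 2 * x * I_sq
    · simp only [iK]
      linear_combination (rt (-1) ^ k) ^ 3 * rt (-1) * η * I_sq

theorem sc_tac {D : ℤ} {δ : Om} {f : EE →+ Pt (W D) Om} (hD : D ≠ 0) (h : δ ^ 4 = D)
    (hf : IsSc δ f) (g : GQ) (R : EE) : pm (W D) (g : Om →+* Om) (f R) = f (CG.tac δ g R) := by
  rcases zero_or_is R with rfl | ⟨x, η, a⟩
  · simp [CG.tac]
  refine ((hf _ _ _ a).map (K := Om) g).unique (sp hD) ?_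
  have := hf _ _ _ (iz_pow (ke δ g) (a.map (K := Om) g))
  change Is _ _ _
  refine (congrArg₂ (Is _) ?_ ?_).mp this <;>
    simp only [map_mul, map_pow, RingHom.coe_coe, CB.ke_spec h g] <;> ring

theorem sc_tm {D : ℤ} {δ : Om} {f : EE →+ Pt (W D) Om} (hD : D ≠ 0) (h : δ ^ 4 = D)
    (hf : IsSc δ f) : TM D (rho δ) fun n => f.comp (e1 n) := by
  obtain ⟨f', -, a, b, -⟩ := tw2 tm1.1 tm1.2 one_ne_zero hD (u := δ) (by simpa using h)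
  obtain rfl : f = f' := AddMonoidHom.ext fun R => by
    rcases zero_or_is R with rfl | ⟨x, η, c⟩
    · simp
    · exact (hf _ _ _ c).unique (sp hD) (a _ _ _ c)
  exact b

end Pool.Agent.P.MP_8b7eba_nt.QT.PP

namespace Pool.Agent.P.MP_8b7eba_nt.QT.CG

open R2 SM Filter MP_9c97e9_nt

theorem p_CONV (hBCH : S_BCH) (hGEN : S_GEN) (hLEX : S_LEX) (hLALG : S_LALG) (hLRED : S_LRED)
    (hERL : S_ERL) (hKZ : S_KZ) (hGLU : S_GLU) : S_CONV := by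
  rintro D F ⟨hD, -, δ, f, hδ, hb, hf, hZ⟩ hF h1
  obtain ⟨D₀, m, hm, e, hp⟩ := PP.red4 _ D hD rfl
  have h0 : D₀ ≠ 0 := left_ne_zero_of_mul (e ▸ hD)
  have hm' : (m : Om) ≠ 0 := Int.cast_ne_zero.2 hm
  obtain ⟨δ₀, e'⟩ : ∃ δ₀, δ = m * δ₀ := ⟨δ / m, by field_simp⟩
  have h4 : δ₀ ^ 4 = D₀ := mul_right_cancel₀ (pow_ne_zero 4 hm') (by
    rw [e', e] at hδ
    push_cast at hδ
    linear_combination hδ)
  have hk := (hBCH D₀ δ₀ h0 h4).2.2.2.2.2 m hm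
  rw [← e'] at hk
  have hr : rho δ = rho δ₀ := funext fun g => (hk g).2
  obtain ⟨F₀, hF₀⟩ := hLEX D₀ h0
  obtain ⟨a, d, E, ha, hn, hw, hE, hK⟩ := hGLU D₀ δ₀ h0 h4 hp
  have hs : D₀.natAbs ∣ D.natAbs := Int.natAbs_dvd_natAbs.2 ⟨_, e⟩
  refine hK (CG.K.z0_of_zer d hD hw (fun p _ b => Int.natCast_dvd.2 ((hn ▸ b).trans hs))
    (by rw [hE.1, ← hr]; exact hZ)) ?_
  obtain ⟨P, κ, hx, hκ, hZ⟩ := hZ
  have hz := PP.kum_zn hD (PP.sc_tm hD hδ hf) hκ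
  obtain ⟨Q, q0, q1, q2⟩ := hκ
  choose R hR using fun n => hb.2 (Q n)
  rw [hr] at hz hZ
  refine hKZ D₀ δ₀ a κ _ d E h0 h4 ha
    (Nat.primeFactors_mono hs (Int.natAbs_ne_zero.2 hD)) hz (hERL D₀ δ₀ a R κ h0 h4 ha
      (hLALG D₀ δ₀ a F₀ _ h0 h4 ha (hGEN _ (mul_ne_zero (by decide) (Int.cast_ne_zero.2 h0))).1
        hF₀ (hLRED D₀ m F F₀ h0 hm (e ▸ hF) hF₀ h1)) ?_
      (fun n => hb.1 (by rw [map_nsmul, hR, hR, q1])) (fun n g hg => hb.1 ?_) hz) hZ hE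
  · rw [← q0, ← hR] at hx
    rcases zero_or_is (R 0) with c | ⟨x, η, c⟩
    · rw [c, map_zero] at hx
      exact absurd hx (by simp [show xc (0 : Pt (W D) Om) = 0 from rfl])
    rw [PP.xc_of (hf _ _ _ c), map_mul, map_pow] at hx
    rw [PP.xc_of c]
    have : w2.v δ ≤ 1 := (pow_le_one_iff_of_nonneg zero_le four_ne_zero).1 (by
      rw [← map_pow, hδ]
      exact CA.v_int _ D)
    exact hx.trans_le (mul_le_of_le_one_left zero_le (pow_le_one₀ zero_le this))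
  · rw [map_sub, tac, ← (hk g).1, ← tac, ← PP.sc_tac hD hδ hf, hR]
    exact q2 n g hg

end Pool.Agent.P.MP_8b7eba_nt.QT.CG
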