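import Pool.Agent.P.MP_8b7eba_nt.CG.TDIST

/-! The relation between two elliptic functions. -/

namespace Pool.Agent.P.MP_8b7eba_nt.QT.CG

open R2 Finset Classical

open A1 in
theorem p_CROSS : S_CROSS := fun a a' P ha ha' _ hP => by
  obtain ⟨F, h1, h2, h3⟩ := ld_th ha
  obtain ⟨F', h1', h2', h3'⟩ := ld_th ha'
  obtain ⟨n, hn⟩ := Int.eq_ofNat_of_zero_le (GaussianInt.norm_nonneg a)
  obtain ⟨n', hn'⟩ := Int.eq_ofNat_of_zero_le (GaussianInt.norm_nonneg a')
  have h0 := mul_ne_zero (prim_ne ha) (prim_ne ha')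
  rw [hn] at h3
  rw [hn'] at h3'
  have ld : ∀ {a a' : ZI} {F F' : ℂ → ℂ} {n n' : ℕ},
      (LD {z | cK a * z ∉ LL.lattice} F fun z => cK a ^ 3 * pQ (cK a * z) - (n : ℤ) * pQ z) →
      (LD {z | cK a' * z ∉ LL.lattice} F' fun z => cK a' ^ 3 * pQ (cK a' * z) - (n' : ℤ) * pQ z) →
      LD {z | cK (a * a') * z + 0 ∉ LL.lattice} (fun z => F z ^ n' * F' (cK a * z + 0))
        fun z => cK (a * a') ^ 3 * pQ (cK (a * a') * z) - n * n' * pQ z := fun {a a' _ _ _ n'} h h' =>
    (LD.mul (U := {z | cK (a * a') * z + 0 ∉ LL.lattice})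
      ((h.pow n').mono (fun z hz e => hz (by simpa [mul_assoc, mul_left_comm] using mul_mem a' e))
        fun _ _ => rfl) ((h'.aff _ 0).mono
          (fun z hz e => hz (by simpa [mul_assoc, mul_left_comm] using e)) fun _ _ => rfl)).mono
      le_rfl fun z _ => by
        simp only [add_zero, map_mul, mul_assoc, mul_left_comm (cK a'), Int.cast_natCast]
        ring
  have l2 := ld h3' h3
  rw [mul_comm a', mul_comm (n' : ℂ)] at l2
  obtain ⟨κ, hκ⟩ := (gd_aff h0 0).uniq (ld h3 h3') l2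
    (fun z l hl => by rw [add_zero, add_zero, mul_add, h2 _ _ hl, h2' _ _ (mul_mem a hl)])
    fun z l hl => by rw [add_zero, add_zero, mul_add, h2' _ _ hl, h2 _ _ (mul_mem a' hl)]
  have key : ∀ P : EE, (a * a') • P ≠ 0 →
      io (th a P ^ n' * th a' (a • P)) = κ * io (th a' P ^ n * th a (a' • P)) := fun P hP => by
    have h4 := hκ (lg P) fun e => hP (((rep_lg P).smul _).zero_iff.2 (by simpa using e))
    rw [add_zero, add_zero] at h4
    rw [map_mul, map_mul, map_pow, map_pow, h1 _ _ (rep_lg P), h1' _ _ (rep_lg P),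
      h1 _ _ ((rep_lg P).smul a'), h1' _ _ ((rep_lg P).smul a), h4]
  have ne : ∀ {a a' : ZI} (n : ℕ) {P : EE}, Prim a → Prim a' → (a * a') • P ≠ 0 →
      io (th a' P ^ n * th a (a' • P)) ≠ 0 := fun n P ha ha' h =>
    (map_ne_zero io).2 (mul_ne_zero (pow_ne_zero _ (th_ne ha' fun e => h (by
      rw [mul_smul, e, smul_zero]))) (th_ne ha (by rwa [← mul_smul])))
  have mul : ∀ {a a' : ZI} (n : ℕ) {P : EE}, Prim a → Prim a' → (a * a' * pz) • P ≠ 0 →
      io (th a' P ^ n * th a (a' • P)) * io (th a' (P + T0) ^ n * th a (a' • (P + T0))) =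
        io (th a' (pz • P) ^ n * th a (a' • pz • P)) := fun n P ha ha' h => by
    rw [← map_mul, mul_mul_mul_comm, ← mul_pow, smul_add, prim_T0 ha',
      (th_spec ha').2 _ fun e => h (by rw [mul_assoc, mul_smul, e, smul_zero]),
      (th_spec ha).2 _ (by rwa [← mul_smul, mul_right_comm]), smul_comm]
  obtain ⟨Q, hQ⟩ := exists_div (mul_ne_zero h0 (show pz ≠ 0 by decide)) T0
  have q0 := hQ.trans_ne is_T0.ne_zero
  have q1 : (a * a') • pz • Q ≠ 0 := by rwa [← mul_smul]
  have e := key _ q1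
  rw [← mul n' ha' ha (by rwa [mul_comm a']), key Q fun e => q1 (by rw [smul_comm, e, smul_zero]),
    key (Q + T0) fun e => q1 (by
      simpa [smul_comm pz, pz_T0] using congrArg (pz • ·) e), mul_mul_mul_comm,
    mul n ha ha' q0, mul_left_inj' (ne n ha ha' q1)] at e
  have e1 := key P hP
  have h5 : κ ≠ 0 := fun e => ne n' (P := P) ha' ha (by rwa [mul_comm]) (by rw [e1, e, zero_mul])
  rw [(mul_eq_left₀ h5).1 e, one_mul] at e1
  rw [hn, hn', zpow_natCast, zpow_natCast]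
  exact io.injective e1

end Pool.Agent.P.MP_8b7eba_nt.QT.CG
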