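import Pool.Agent.P.MP_8b7eba_nt.CG.PK
import Pool.Agent.P.MP_8b7eba_nt.CG.If

/-! Half of the quartic twists are good. -/

namespace Pool.Agent.P.MP_8b7eba_nt.QT.CG

open Finset R2 SM Classical Filter PP FC

theorem p_DENSP : S_DENSP := by
  intro ε hε
  obtain ⟨y, hy⟩ := exists_nat_gt (max 5 (8 / ε))
  have y5 : 5 ≤ y := by exact_mod_cast ((le_max_left _ _).trans hy.le : (5 : ℝ) ≤ y)
  have hy' := (le_max_right _ _).trans_lt hy
  obtain ⟨M, hM⟩ : ∃ M, M = (y ^ 3).factorial * (8 * y.factorial) := ⟨_, rfl⟩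
  have M0 : 0 < M := by rw [hM]; positivity
  filter_upwards [rare2 tm1.1 tm1.2 y (half_pos hε),
    (tendsto_natCast_atTop_atTop (R := ℝ)).eventually
    (eventually_ge_atTop ((2 * (30 * y ^ 3 : ℕ) + 1 + M) / ε))] with X h2 h3
  let N := (Ioc 0 X).filter fun m => ∃ d, y < d ∧ d ^ 2 ∣ m
  let B := (Icc (-X : ℤ) X).filter fun D => 30 * y ^ 3 < D.natAbs ∧
    (∀ d, d ^ 2 ∣ D.natAbs → d ≤ y) ∧ ¬ Tw2 r1 D ∧ ¬ GoodP D
  have h4 : B.card ≤ X + M := half M0 (fun D hD => by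
    obtain ⟨a, b, -⟩ := mem_filter.1 hD
    rw [mem_Icc] at a
    omega) fun D hD D' hD' hd => by
    obtain ⟨-, a1, a2, a3, a4⟩ := mem_filter.1 hD
    obtain ⟨-, b1, b2, b3, b4⟩ := mem_filter.1 hD'
    obtain ⟨p, hp⟩ := exact a2 a1
    obtain ⟨p', hp'⟩ := exact b2 b1
    have k : ∀ {D : ℤ} {p : ℕ}, (∀ d, d ^ 2 ∣ D.natAbs → d ≤ y) → (p : ℤ) ^ 2 ∣ D → p ≤ y :=
      fun a b => a _ (Int.natCast_dvd.1 (by exact_mod_cast b))
    have k' : ∀ p : ℕ, p.Prime → p ≤ y → (p : ℤ) ^ 2 ∣ D' - D := fun p a b => by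
      refine Dvd.dvd.trans ?_ hd
      rw [hM, sq, ← Nat.cast_mul, Int.natCast_dvd_natCast]
      exact mul_dvd_mul (Nat.dvd_factorial a.pos (b.trans (Nat.le_self_pow three_ne_zero y)))
        ((Nat.dvd_factorial a.pos b).mul_left 8)
    refine pair (by omega) (by omega) (fun p a b => root (by omega) a2 a
      (b.elim (fun b => ?_) (k a2)) (hM ▸ hd)) (fun p a => ⟨fun b => ?_, fun b => ?_⟩)
      hp hp' a3 b3 a4 b4
    · have := mem_T30.2 ⟨a, b⟩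
      simp only [T30, mem_insert, mem_singleton] at this
      omega
    · simpa using (k' p a (k a2 b)).add b
    · simpa using b.sub (k' p a (k b2 b))
  have h5 : Icc (-X : ℤ) X ⊆ ((Icc (-X : ℤ) X).filter GoodP ∪ B) ∪
      ((Icc (-X : ℤ) X).filter (fun D => D ≠ 0 ∧ (∀ d, d ^ 2 ∣ D.natAbs → d ≤ y) ∧ Tw2 r1 D) ∪
      ((N.image (↑) ∪ N.image fun m : ℕ => -(m : ℤ)) ∪
        Icc (-(30 * y ^ 3 : ℕ) : ℤ) (30 * y ^ 3 : ℕ))) := fun D hD => by
    simp only [mem_union]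
    by_cases a : D.natAbs ≤ 30 * y ^ 3
    · exact .inr (.inr (.inr (mem_Icc.2 (by omega))))
    have h0 : D ≠ 0 := by omega
    by_cases b : ∃ d, y < d ∧ d ^ 2 ∣ D.natAbs
    · have h2 : D.natAbs ∈ N := mem_filter.2 ⟨mem_Ioc.2 ⟨Int.natAbs_pos.2 h0, by
        rw [mem_Icc] at hD; omega⟩, b⟩
      exact .inr (.inr (.inl ((Int.natAbs_eq D).imp
        (fun e => mem_image.2 ⟨_, h2, e.symm⟩) fun e => mem_image.2 ⟨_, h2, e.symm⟩)))
    have b' : ∀ d, d ^ 2 ∣ D.natAbs → d ≤ y := fun d e => not_lt.1 fun f => b ⟨d, f, e⟩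
    by_cases c : Tw2 r1 D
    · exact .inr (.inl (mem_filter.2 ⟨hD, h0, b', c⟩))
    by_cases d : GoodP D
    · exact .inl (.inl (mem_filter.2 ⟨hD, d⟩))
    · exact .inl (.inr (mem_filter.2 ⟨hD, not_le.1 a, b', c, d⟩))
  have h6 := (card_le_card h5).trans ((card_union_le _ _).trans (add_le_add
    ((card_union_le _ _).trans (add_le_add_right h4 _)) ((card_union_le _ _).trans
    (add_le_add_right ((card_union_le _ _).trans (add_le_add_left ((card_union_le _ _).trans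
      (add_le_add card_image_le card_image_le)) _)) _))))
  rw [Int.card_Icc, Int.card_Icc, show (X + 1 - -X : ℤ).toNat = 2 * X + 1 by omega,
    show ((30 * y ^ 3 : ℕ) + 1 - -(30 * y ^ 3 : ℕ) : ℤ).toNat = 2 * (30 * y ^ 3) + 1 by omega]
    at h6
  have h7 : (N.card : ℝ) ≤ X * (ε / 4) := (sqs X y).trans (mul_le_mul_of_nonneg_left (by
    rw [div_lt_iff₀ hε] at hy'
    rw [div_le_iff₀ (by positivity)]
    linarith) X.cast_nonneg)
  rw [show {D : ℤ | |D| ≤ X ∧ GoodP D} = ↑((Icc (-X : ℤ) X).filter GoodP) by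
    ext D
    simp [abs_le], Set.ncard_coe_finset]
  have h8 := (Nat.cast_le (α := ℝ)).2 h6
  rw [div_le_iff₀ hε] at h3
  push_cast at h8 h3
  linarith

end Pool.Agent.P.MP_8b7eba_nt.QT.CG
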