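import Pool.Agent.P.MP_8b7eba_nt.CG.TTH
import Pool.Agent.P.MP_8b7eba_nt.CG.ALog

/-! The distribution relation. -/

namespace Pool.Agent.P.MP_8b7eba_nt.QT.CG

open R2 Finset Classical

namespace A1

variable {P Q : EE} {a b c : ZI}

theorem LD.div {U : Set ℂ} {f h : ℂ → ℂ} (a : LD U f h) {c : ℂ} (hc : c ≠ 0) :
    LD U (fun z => c / f z) fun z => -h z := by
  obtain ⟨l, m, a⟩ := a
  refine ⟨fun z => -l z, fun z => -m z, fun z hz => ?_⟩
  obtain ⟨a0, a1, a2, a3⟩ := a z hz
  refine ⟨div_ne_zero hc a0, ((hasDerivAt_const z c).fun_div a1 a0).congr_deriv ?_, a2.fun_neg,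
    a3.fun_neg⟩
  field_simp
  ring

theorem lg_mem (h : b • P = 0) : cK b * lg P ∈ LL.lattice := ((rep_lg P).smul b).zero_iff.1 h

theorem tor_dist (hb : b ≠ 0) (hc : IsCoprime c b) [Fintype {R : EE // b • R = 0}] (z : ℂ) :
    ∑ R : {R : EE // b • R = 0}, pQ (z + cK c * lg R) = cK b ^ 3 * pQ (cK b * z) := by
  refine pQ_dist hb (fun R => ?_) (fun w hw => ?_) z
  · rw [mul_left_comm]
    exact mul_mem _ (lg_mem R.2)
  obtain ⟨Q, hQ⟩ := tor_rep hb hw
  obtain ⟨u, v, e⟩ := hc
  have h1 : ∀ R : EE, b • R = 0 → u • c • R = R := fun R h => by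
    rw [smul_smul, eq_sub_of_add_eq e, sub_smul, mul_smul, h, smul_zero, one_smul, sub_zero]
  have h2 := (hQ.smul b).zero_iff.2 hw
  simp only [← hQ.eq_iff ((rep_lg _).smul c)]
  exact ⟨⟨u • Q, by rw [smul_comm, h2, smul_zero]⟩, ((smul_comm c u Q).trans (h1 Q h2)).symm,
    fun R e => Subtype.ext ((h1 _ R.2).symm.trans (congrArg _ e.symm))⟩

theorem ld_th (ha : Prim a) : ∃ F : ℂ → ℂ, (∀ P z, Rep P z → io (th a P) = F z) ∧
    (∀ z, ∀ l ∈ LL.lattice, F (z + l) = F z) ∧ LD {z | cK a * z ∉ LL.lattice} F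
      fun z => cK a ^ 3 * pQ (cK a * z) - a.norm * pQ z := by
  obtain ⟨s, h1, h2⟩ := half ha
  have := fin_tor (prim_ne ha)
  have := Fintype.ofFinite {R : EE // a • R = 0}
  refine ⟨fun z => io (∏ ξ ∈ XF ha, -2 * iK * ξ) / ∏ ξ ∈ XF ha, (pP z - pP (lg (s ξ))),
    fun P z h => ?_, fun z l hl => by simp only [pP_add hl],
    ((LD.prod fun ξ hξ => (LD.base (mt (rep_lg _).zero_iff.2 (h1 ξ hξ).1.1)).mono
      (fun z hz => ?_) fun _ _ => rfl).div ((map_ne_zero io).2 (c0_ne ha))).mono le_rfl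
        fun z _ => ?_⟩
  · rw [(th_spec ha).1, map_div₀, map_prod io fun ξ => xc P - ξ]
    refine congrArg _ (prod_congr rfl fun ξ hξ => ?_)
    rw [map_sub, h.xc, ← (rep_lg _).xc, (h1 ξ hξ).2]
  · have h3 := lg_mem (h1 ξ hξ).1.2
    exact ⟨fun e => hz (mul_mem a e),
      fun e => hz (by simpa [mul_sub] using LL.lattice.add_mem (mul_mem a e) h3),
      fun e => hz (by simpa [mul_add] using LL.lattice.sub_mem (mul_mem a e) h3)⟩
  · have h3 := h2 fun R => pQ (z + lg R)
    have h4 := tor_dist (prim_ne ha) isCoprime_one_left z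
    simp only [map_one, one_mul] at h4
    have h5 : ∀ R, pQ (z + lg (-R)) = pQ (z - lg R) := fun R => pQ_eq (by
      simpa using ((rep_lg (-R)).eq_iff (rep_lg R).neg).1 rfl)
    simp only [h5] at h3
    rw [finsum_eq_sum_of_fintype, h4, pQ_add ((rep_lg 0).zero_iff.1 rfl), sum_add_distrib] at h3
    rw [sum_sub_distrib, sum_sub_distrib, sum_const, h3, card_XF ha, nsmul_eq_mul]
    push_cast
    ring

theorem dist0 (ha : Prim a) (hab : IsCoprime a b) (hb : b ≠ 0) : ∃ κ : ℂ, ∀ P : EE,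
    (a * b) • P ≠ 0 → io (∏ᶠ R : {R : EE // b • R = 0}, th a (P + R)) = κ * io (th a (b • P)) := by
  obtain ⟨F, h1, h2, h3⟩ := ld_th ha
  have := fin_tor hb
  have := Fintype.ofFinite {R : EE // b • R = 0}
  obtain ⟨κ, hκ⟩ := (gd_aff (mul_ne_zero (prim_ne ha) hb) 0).uniq
    (f := fun z => ∏ R : {R : EE // b • R = 0}, F (1 * z + lg R)) (g := fun z => F (cK b * z + 0))
    (LD.prod fun R _ => (h3.aff 1 (lg R)).mono (fun z hz e => hz (by
      have := LL.lattice.sub_mem (mul_mem b e) (mul_mem a (lg_mem R.2))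
      rw [map_mul]
      convert this using 1
      ring)) fun _ _ => rfl)
    ((h3.aff (cK b) 0).mono (fun z hz e => hz (by simpa [mul_assoc] using e)) fun z _ => by
      have h4 := tor_dist hb isCoprime_one_left z
      simp only [map_one, one_mul] at h4
      simp only [one_pow, one_mul, mul_add, sum_sub_distrib, ← mul_sum, h4, tor_dist hb hab,
        add_zero, mul_left_comm (cK a) (cK b)]
      ring)
    (fun z l hl => by simp only [one_mul, add_right_comm z l, h2 _ l hl])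
    fun z l hl => by rw [add_zero, add_zero, mul_add, h2 _ _ (mul_mem b hl)]
  refine ⟨κ, fun P hP => ?_⟩
  have h4 := hκ (lg P) fun e => hP (((rep_lg P).smul _).zero_iff.2 (by simpa using e))
  rw [add_zero, one_mul] at h4
  rw [finprod_eq_prod_of_fintype, map_prod, h1 _ _ ((rep_lg P).smul b), ← h4]
  exact prod_congr rfl fun R _ => h1 _ _ ((rep_lg P).add (rep_lg R))

theorem prod_comp {Y : Type} [CommMonoid Y] (hb : b ≠ 0) (hc : c ≠ 0) {F G : EE → Y}
    (h : ∀ S : EE, c • b • S = 0 → ∏ᶠ R : {R : EE // b • R = 0}, F (S + R) = G (b • S)) :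
    ∏ᶠ S : {R : EE // (b * c) • R = 0}, F S = ∏ᶠ T : {R : EE // c • R = 0}, G T := by
  choose σ hσ using exists_div hb
  have := fin_tor hb
  have := fin_tor hc
  have := Fintype.ofFinite {R : EE // b • R = 0}
  have := Fintype.ofFinite {R : EE // c • R = 0}
  rw [← finprod_eq_of_bijective (f := fun q : {R : EE // c • R = 0} × {R : EE // b • R = 0} =>
    F (σ q.1 + q.2)) (fun q => ⟨σ q.1 + q.2, by
      rw [mul_comm, mul_smul, smul_add, hσ, q.2.2, add_zero, q.1.2]⟩) ⟨?_, fun S => ?_⟩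
      fun _ => rfl, finprod_eq_prod_of_fintype, finprod_eq_prod_of_fintype, Fintype.prod_prod_type]
  · refine prod_congr rfl fun T _ => ?_
    rw [← finprod_eq_prod_of_fintype]
    exact (h _ (by rw [hσ, T.2])).trans (congrArg G (hσ _))
  · rintro ⟨T, R⟩ ⟨T', R'⟩ e
    have h1 : σ T + R = σ T' + R' := congrArg Subtype.val e
    obtain rfl : T = T' := Subtype.ext (by simpa [hσ, R.2, R'.2] using congrArg (b • ·) h1)
    rw [Subtype.ext (add_left_cancel h1)]
  · exact ⟨(⟨b • S, by rw [← mul_smul, mul_comm, S.2]⟩, ⟨S - σ (b • S), by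
      rw [smul_sub, hσ, sub_self]⟩), Subtype.ext (add_sub_cancel _ _)⟩

end A1

open A1 in
theorem p_DIST : S_DIST := fun a b P ha hab hb hP => by
  obtain ⟨κ, hκ⟩ := dist0 ha hab hb
  have h0 : pz ≠ 0 := by decide
  obtain ⟨Q, hQ⟩ := exists_div (mul_ne_zero (mul_ne_zero (prim_ne ha) hb) h0) T0
  have h1 : ∀ S : EE, (b * pz) • S = 0 → (a * b * pz) • (Q + S) ≠ 0 := fun S e => by
    rw [smul_add, hQ, mul_assoc, mul_smul, e, smul_zero, add_zero]
    exact is_T0.ne_zero
  have h2 : ∀ (f : EE → Om) (p : EE → Prop) [Finite {R // p R}],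
      io (∏ᶠ R : {R // p R}, f R) = ∏ᶠ R : {R // p R}, io (f R) := fun f p _ =>
    map_finprod io (Set.toFinite _)
  have := fin_tor hb
  have e1 := prod_comp hb h0 (F := fun S => io (th a (Q + S)))
    (G := fun T => κ * io (th a (b • Q + T))) fun S e => by
      simp only [← add_assoc]
      rw [← h2 fun R => th a (Q + S + R), hκ _ fun e' => h1 S
        (by rwa [mul_comm, mul_smul]) (by rw [mul_comm, mul_smul, e', smul_zero]), smul_add]
  have e2 := prod_comp h0 hb (F := fun S => io (th a (Q + S)))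
    (G := fun T => io (th a (pz • Q + T))) fun S e => by
      rw [prod_pz fun R => io (th a (Q + (S + R))), ← map_mul, add_zero, ← add_assoc,
        (th_spec ha).2 _ fun e' => h1 S (by rwa [mul_smul])
          (by rw [mul_right_comm, mul_comm, mul_smul, e', smul_zero]), smul_add]
  have h3 := h1 0 (smul_zero _)
  rw [add_zero] at h3
  rw [mul_comm pz, e1, prod_pz fun T => κ * io (th a (b • Q + T)),
    ← h2 fun R => th a (pz • Q + R), hκ _ (by rwa [← mul_smul]), add_zero,
    mul_mul_mul_comm, ← map_mul, (th_spec ha).2 _ (by rwa [← mul_smul, mul_right_comm]),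
    smul_comm pz, mul_left_inj' ((map_ne_zero io).2 (th_ne ha (by
      rwa [← mul_smul, ← mul_smul])))] at e2
  have h4 := hκ P hP
  have h5 : κ ≠ 0 := fun e => by
    have := Fintype.ofFinite {R : EE // b • R = 0}
    rw [e, zero_mul, map_eq_zero, finprod_eq_prod_of_fintype, prod_eq_zero_iff] at h4
    obtain ⟨R, -, h6⟩ := h4
    exact th_ne ha (fun e' => hP (by
      simpa [smul_comm b a R.1, R.2, ← mul_smul, mul_comm b] using congrArg (b • ·) e')) h6
  rw [(mul_eq_left₀ h5).1 e2, one_mul] at h4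
  exact io.injective h4

end Pool.Agent.P.MP_8b7eba_nt.QT.CG
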