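import Pool.Agent.P.MP_8b7eba_nt.CG.EF

/-! Proof of ERL. -/

namespace Pool.Agent.P.MP_8b7eba_nt.QT.CG

open R2 SM Finset Filter
open scoped NNReal Classical

variable {H N N' : Subgroup GQ} {i k m n : ℕ} {a : ZI} {D : ℤ} {δ : Om} {R : EE} {ω : GQ → Z2}

/-- approximate characters of the Galois group of the Gaussian field -/
structure Ac (i : ℕ) (ω : GQ → Z2) : Prop where
  add : ∀ g ∈ GK, ∀ h ∈ GK, 2 ^ i ∣ ω (g * h) - ω g - ω h
  sm : ∃ N, ON N ∧ ∀ n ∈ N, 2 ^ i ∣ ω n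

/-- the induced family of characters -/
noncomputable def cw (N : Subgroup GQ) (ω : GQ → Z2) (j : GQ ⧸ N) (g : GQ) : Z2 :=
  ω (j.out⁻¹ * g * (bq N g j).out)

theorem Ac.cc (h : Ac i ω) (hN : ON N) (le : N ≤ GK) : Cc H (bq N) i (cw N ω) := by
  refine ⟨?_, fun g _ k _ j => ?_⟩
  · obtain ⟨M, hM, e⟩ := h.sm
    refine ⟨_, hM.inf hN, fun g _ n _ m j => ?_⟩
    have t := (hM.inf hN).1.conj_mem n m (bq N g j).out⁻¹
    have := dvd_add (h.add _ (le (bq_mem g j)) _ (le t.2)) (e _ t.1)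
    rw [cw, cw, bq_mul, bq_of hN m.2]
    simpa [mul_assoc] using this
  · have := h.add _ (le (bq_mem g j)) _ (le (bq_mem k (bq N g j)))
    rw [cw, cw, cw, bq_mul, ← dvd_neg]
    simpa [mul_assoc, sub_sub] using this

theorem Ac.up [Fintype (GQ ⧸ N)] [Fintype (GQ ⧸ N')] (h : Ac i ω) (hN : ON N) (hN' : ON N')
    (le : N ≤ N') (le' : N' ≤ GK) {u : GQ ⧸ N → Om} (hu : Ev H (bq N) u)
    (hk : Ks H (bq N') i (nf (pq le) u) (cw N' ω)) : Ks H (bq N) i u (cw N ω) := by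
  refine (Ks.up (π := pq le) (c := cw N' ω) (ra_bq hN) (ra_bq hN') (fun g _ => pq_bq le g) hu
    (h.cc hN' le') hk).cob (ra_bq hN) hu (fun j => ω ((pq le j).out⁻¹ * j.out)) fun g _ j => ?_
  have := dvd_sub (h.add _ (le' (bq_mem g (pq le j))) _ (le' (pq_mem le (bq N g j))))
    (h.add _ (le' (pq_mem le j)) _ (le' (le (bq_mem g j))))
  simp only [cw, mul_assoc, pq_bq, mul_inv_cancel_left] at this ⊢
  refine this.trans (dvd_of_eq ?_)
  ring

theorem comb {J : Type} [Fintype J] {b : GQ → J → J} {u v : J → Om} {c c' c'' : J → GQ → Z2}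
    (h : RA H b) (hu : Ev H b u) (hv : Ev H b v) (hc : Cc H b i c) (f : Ks H b i u c)
    (f' : Ks H b i v c'') (t : Ks H b i (fun j => v j / u j) c')
    (t' : Ks H b i (fun j => v j / u j) c)
    (e : ∀ g ∈ H, ∀ j, 2 ^ i ∣ c' j g - (c'' j g - c j g)) : Ks H b i u c' := by
  have k := t'.mul f
  simp only [div_mul_cancel₀ _ (hu.1 _)] at k
  simpa only [div_div_cancel₀ (hv.1 _)] using ((f'.sub h hv hc k).congr e).div t

variable [Hy]

theorem Dt.t2 (h : Dt D δ a) (h1 : 1 < w2.v (xc R)) (hR : ∀ g ∈ w2.D, tac δ g R = R)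
    (hs : csum GK (NM (lv D 0)) (fun σ => σ (δ * dl a (CG.gen (lv D 0)))) = 0) (α : O) (i : ℕ) :
    ∀ᶠ k in atTop, ∀ [Fintype (GQ ⧸ NM (lv D k))],
    Ks w2.D (bq (NM (lv D k))) i (fun j => et a δ (CG.gen (lv D k)) R j.out)
      (cY _ (lm α i) fun j => ga j.out (CG.gen (lv D k * 2 ^ i))) := by
  obtain ⟨_⟩ := fin_q (lv_on h.d0 0)
  obtain ⟨_⟩ := fin_q Hy.bgk.1
  obtain ⟨C, hC⟩ := h.tay 0
  obtain ⟨v, E, hE, rfl⟩ := WfDvdMonoid.max_power_factor h.d0 Int.prime_two.irreducible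
  filter_upwards [grow C (4 + v + i + 1), eventually_ge_atTop i] with k c1 hk _
  obtain ⟨p, -, q⟩ := hC (2 ^ k • R) (((le_mul_of_one_le_right' (one_le_pow₀ one_le_two)).trans_lt
    c1).trans_le ((le_mul_of_one_le_right' (one_le_pow₀ one_le_two)).trans (v_two h1 k)))
  obtain ⟨m, hm⟩ : ∃ m, m = k + (4 + v) := ⟨_, rfl⟩
  have e0 : lv (2 ^ v * E) k = 2 ^ m * E := by rw [lv, hm]; push_cast; ring
  obtain ⟨x, y, e⟩ : IsCoprime (2 ^ (m + i) : ZI) E := by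
    simpa using ((Int.prime_two.coprime_iff_not_dvd.2 hE).pow_left (m := m + i)).map
      (Int.castRingHom ZI)
  have e2 := h.gen (k + i)
  rw [lv_add] at e2
  generalize CG.gen (lv (2 ^ v * E) k * 2 ^ i) = P at e2 ⊢
  obtain ⟨b, hb⟩ := tm1.1.surj (m + i) ((y * E) • P) (by
    rw [← two_smul', ← mul_smul, show 2 ^ (m + i) * (y * E) = y * (lv (2 ^ v * E) k * 2 ^ i) by
      rw [e0]; ring, mul_smul, e2, smul_zero])
  obtain ⟨L, l1, l2⟩ := Hy.log (m + i)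
  have hω : Ac (m + i) fun g => pr 1 α (L (r1 g) * b) := by
    have t : ∀ g ∈ GK, Dv 2 (r1 g - 1) := fun g hg => r1_of (n := 1)
      (NM_anti ⟨pz * iz, by decide⟩ (Hy.lev.1 ▸ hg : g ∈ NM (pz ^ 3)))
    refine ⟨fun g hg k hk => ?_, _, (Hy.lev.2 (2 ^ (m + i)) (by simp)).2.2.1 (by simp),
      fun n hn => pr_r' _ _ ((l2 _ _ (by omega) (r1_of hn)).1.mul_right _)⟩
    rw [← pr_sub_r, ← pr_sub_r, ← sub_mul, ← sub_mul,
      ((Hy.bch _ δ h.d0 h.d4).2.2.1 g hg k).2.1]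
    exact pr_r' _ _ ((l1 _ _ (t g hg) (t k hk)).mul_right _)
  have le := lv_le (D := 2 ^ v * E) (Nat.zero_le k)
  have p' : Np (2 ^ v * E) δ a k R := by simpa using h.np p
  have hR' : ∀ g ∈ w2.D, tac δ g (2 ^ k • R) = 2 ^ k • R := fun g hg => by rw [tac_two, hR g hg]
  refine Ks.scale (m := m) (h.ev hR p') ((hω.up (lv_on h.d0 k) (lv_on h.d0 0) le NM_le
    (h.ev hR p') ?_).congr fun g _ j => ?_)
  · rw [h.nf hR p (zero_add k).symm]
    refine hω.up (lv_on h.d0 0) Hy.bgk.1 NM_le le_rfl (h.ev hR' p) (ks_near le_rfl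
      ((h.ev hR' p).nf (ra_bq (lv_on h.d0 0)) (ra_bq Hy.bgk.1) fun g _ => pq_bq _ g)
      (fun j hj => ?_) _)
    rw [CG.nf, prod_congr (s₂ := {j | j.out ∈ GK}) (by
      ext; simp [pq_iff, mul_mem_cancel_left (inv_mem hj)]) fun _ _ => rfl]
    refine lt_of_mul_lt_mul_right ?_ (zero_le (a := w2.v (xc (2 ^ k • R))))
    rw [mul_right_comm, one_mul]
    refine ((mul_le_mul_left (q hs) _).trans_lt ?_).trans_le (v_two h1 k)
    rw [hm, add_assoc, add_assoc, pow_add, mul_left_comm, ← add_assoc]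
    exact mul_lt_mul_of_pos_left c1 (by positivity)
  · have hn := bq_mem g j
    have t := r1_of (NM_anti (M := 2 ^ m) ⟨E, e0⟩ hn)
    obtain ⟨s, hs⟩ := dv_two.1 t
    have := dvd_sub (mul_dvd_mul_left (2 ^ m) (lm_e1 α i (s * b))) ((pow_add (2 : Z2) m i) ▸
      pr_r' 1 α (((l2 m _ (by omega) t).2.mono (m := 2 * (m + i)) (by omega)).mul_right b))
    rw [← e1_pow m, ← mul_assoc, ← hs, sub_mul (r1 _), map_sub, one_mul,
      ← Hy.lin.2.2.2.2.2.2.2.1 _ hn.1, hb, ← pow_add, sub_mul, pr_sub_r, hs, mul_assoc (2 ^ m),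
      pr_two_r] at this
    rw [cY, map_sub, ga_inv, ← ga_mul, ← ga_mul, cw,
      show ga _ P - P = ga _ ((y * E) • P) - (y * E) • P by
        conv_lhs => rw [← one_smul ZI P, ← e, add_smul, map_add, hn.2 _ (by
          rw [← mul_smul, show lv (2 ^ v * E) k * (x * 2 ^ (m + i)) =
            x * 2 ^ m * (lv (2 ^ v * E) k * 2 ^ i) by ring, mul_smul, e2, smul_zero])]
        rw [add_sub_add_left_eq_sub]]
    refine this.trans (dvd_of_eq ?_)
    ring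

theorem erl : S_ERL := by
  intro D δ a Q κ d0 d4 ad hs h1 h2 h3 _ α i
  have h : Dt D δ a := ⟨d0, d4, ad⟩
  have hR : ∀ g ∈ w2.D, tac δ g (Q 0) = Q 0 := fun g hg => by
    rw [← sub_eq_zero, ← h3 0 g hg, tm1.1.ker]
    exact dv_nil _
  have hY : ∀ n, 2 ^ n • Q n = Q 0 := fun n => by
    induction n with
    | zero => simp
    | succ n ih => rw [pow_succ, mul_smul, h2, ih]
  filter_upwards [h.t1 h1 hR (ad_lm α i) (hY i), h.t2 h1 hR (by simpa [lv] using hs) α i,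
    eventually_ge_atTop i] with k t1 t2 hk _
  obtain ⟨p, t1⟩ := t1
  have on := lv_on d0 k
  have f := fun (X Y : GQ ⧸ NM (lv D k) → EE) => ks_cY (H := w2.D) (X := X) (Y := Y) Hy.th Hy.dist
    Hy.gen ad.2.1 on (lv_two hk) (ad_lm α i)
  have yA : ∀ j : GQ ⧸ NM (lv D k), 2 ^ i • ga j.out (gen (lv D k * 2 ^ i)) =
      ga j.out (gen (lv D k)) := fun j => by rw [← map_nsmul, h.gen_two]
  have yB : ∀ j : GQ ⧸ NM (lv D k), 2 ^ i • tB δ (Q i) j.out = tB δ (Q 0) j.out := fun j => by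
    rw [← tB_two, hY]
  have eA := eqv_ga (h.gen k)
  have k2 := comb (ra_bq on) (eA.ev ad.2.1 NM_le (h.ne k)) ((h.eqv' hR).ev ad.2.1 NM_le p)
    (cc_cY (X := fun j => ga j.out (gen (lv D k))) (Y := fun j => ga j.out (gen (lv D k * 2 ^ i)))
      on (lv_two hk) (ad_lm α i) yA eA.bq)
    (f (fun j => ga j.out (gen (lv D k))) (fun j => ga j.out (gen (lv D k * 2 ^ i))) yA
      eA.bq fun j => eA.ne (h.ne k) _)
    (f (fun j => ga j.out (gen (lv D k)) + tB δ (Q 0) j.out)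
      (fun j => ga j.out (gen (lv D k * 2 ^ i)) + tB δ (Q i) j.out)
      (fun j => by rw [smul_add, yA, yB]) (h.eqv' hR).bq fun j => (h.eqv' hR).ne p _) t1 t2
    fun g hg j => ?_
  · simp only [tj, ga_inv] at k2
    refine k2.congr fun g hg j => ?_
    rw [cT, h.inv, ← h3 i g hg, h.e1, dvd_sub_comm]
    exact lm_e1 α i _
  · have := ad_lm α i (ga j.out⁻¹ (ga g (ga (bq _ g j).out (gen (lv D k * 2 ^ i))) -
      ga j.out (gen (lv D k * 2 ^ i))))
      (ga j.out⁻¹ (ga g (tB δ (Q i) (bq _ g j).out) - tB δ (Q i) j.out))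
      (by rw [← map_nsmul, smul_sub, ← map_nsmul, yA, yA, eA.bq g hg, sub_self, map_zero])
      (by rw [← map_nsmul, smul_sub, ← map_nsmul, yB, yB, (h.eqv hR).bq g hg, sub_self, map_zero])
    rw [← map_add, sub_add_sub_comm, ← map_add] at this
    rw [← h.cT]
    refine (dvd_neg.2 this).trans (dvd_of_eq ?_)
    simp only [cY]
    ring

omit [Hy] in
theorem p_ERL (h1 : S_BGK) (h2 : S_BCH) (h3 : S_GEN) (h4 : S_LIN) (h5 : S_LEV) (h6 : S_QRT)
    (h7 : S_FIB) (h8 : S_TH) (h9 : S_DIST) (h10 : S_TAY) (h11 : S_LOG) (h12 : S_RT) : S_ERL :=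
  @erl ⟨h1, h2, h3, h4, h5, h6, h7, h8, h9, h10, h11, h12⟩

end Pool.Agent.P.MP_8b7eba_nt.QT.CG
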