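import Pool.Agent.P.MP_8b7eba_nt.CG.If

/-! Proof of FIB. -/

namespace Pool.Agent.P.MP_8b7eba_nt.QT.CG

open R2 SM Polynomial Filter Module
open MP_9c97e9_nt (Pt pm Is)

theorem fib_ex (hLEV : S_LEV) {M l : ZI} {P : EE} (hM : pz ^ 3 ∣ M) (h0 : M * l ≠ 0)
    (hq : ∀ q, Prime q → q ∣ l → q ∣ M) (hP : Gn (M * l) P) (T : EE) (hT : l • T = 0) :
    ∃ g ∈ NM M, ga g P = P + T := by
  have l0 : l ≠ 0 := right_ne_zero_of_mul h0
  obtain ⟨c, rfl⟩ := hP.2 T (by rw [mul_smul, hT, smul_zero])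
  rw [← mul_smul, hP.1, mul_comm l c] at hT
  obtain ⟨t, rfl⟩ := (mul_dvd_mul_iff_right l0).1 hT
  have b1 : Prim (1 + M * t) := by
    rw [Prim, add_sub_cancel_left]; exact hM.mul_right t
  have b2 : IsCoprime (1 + M * t) (M * l) := by
    refine isCoprime_of_prime_dvd (fun h => h0 h.2) fun q hq1 hq2 hq3 => ?_
    have h : q ∣ M := (hq1.dvd_or_dvd hq3).elim id (hq q hq1)
    exact hq1.not_dvd_one ((dvd_add_left (h.mul_right t)).1 hq2)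
  obtain ⟨g, hg, ha⟩ := (hLEV.2 _ h0).2.2.2.2.1 _ b1 b2
  refine ⟨g, ⟨hg, fun Q hQ => ?_⟩, ?_⟩
  · rw [ha Q (by rw [mul_comm, mul_smul, hQ, smul_zero]), add_smul, one_smul, mul_comm, mul_smul,
      hQ, smul_zero, add_zero]
  · rw [ha P ((hP.1 _).2 dvd_rfl), add_smul, one_smul]

theorem p_FIB (hGEN : S_GEN) (hLIN : S_LIN) (hLEV : S_LEV) :
    S_FIB := by
  intro M l P hM h0 hq hP
  have hP0 : (M * l) • P = 0 := (hP.1 _).2 dvd_rfl
  refine ⟨fib_ex hLEV hM h0 hq hP, fun Y _ f => ?_⟩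
  have h1 : ∀ g : NM M, l • (ga g P - P) = 0 := fun g => by
    rw [smul_sub, ← hLIN.1 _ g.2.1, g.2.2 _ (by rw [← mul_smul, hP0]), sub_self]
  refine finprod_eq_of_bijective (fun q => ⟨ga (q.out : NM M) P - P, h1 _⟩) ⟨?_, ?_⟩ fun q => ?_
  · intro a b hab
    have h2 : ga (a.out : NM M) P = ga (b.out : NM M) P :=
      sub_left_injective (congrArg Subtype.val hab)
    rw [← QuotientGroup.out_eq' a, ← QuotientGroup.out_eq' b, QuotientGroup.eq,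
      Subgroup.mem_subgroupOf]
    refine ⟨(a.out⁻¹ * b.out).2.1, fun Q hQ => ?_⟩
    obtain ⟨c, rfl⟩ := hP.2 Q hQ
    rw [hLIN.1 _ (a.out⁻¹ * b.out).2.1, Subgroup.coe_mul, Subgroup.coe_inv, ga_mul, ← h2,
      ← ga_mul, inv_mul_cancel, ga_one]
  · rintro ⟨T, hT⟩
    obtain ⟨g, hg, e⟩ := fib_ex hLEV hM h0 hq hP T hT
    refine ⟨QuotientGroup.mk ⟨g, hg⟩, Subtype.ext ?_⟩
    obtain ⟨k, hk⟩ := QuotientGroup.mk_out_eq_mul ((NM (M * l)).subgroupOf (NM M)) ⟨g, hg⟩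
    have hk2 := (Subgroup.mem_subgroupOf.1 k.2).2 P hP0
    change ga ((QuotientGroup.mk ⟨g, hg⟩ : NM M ⧸ (NM (M * l)).subgroupOf (NM M)).out : NM M) P - P = T
    rw [hk, Subgroup.coe_mul, ga_mul, hk2, e, add_sub_cancel_left]
  · rw [add_sub_cancel]

end Pool.Agent.P.MP_8b7eba_nt.QT.CG
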