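import Pool.Agent.P.MP_8b7eba_nt.CG.TUNI
import Pool.Agent.P.MP_8b7eba_nt.R1.Aut

/-! The torsion points of the lemniscatic curve. -/

namespace Pool.Agent.P.MP_8b7eba_nt.QT.CG

open R2 Complex Filter Topology Classical
open MP_9c97e9_nt (Pt pm Is zero_or_is)
open R1 (Aut Aut_basis)

namespace A1

theorem shift {F : Type} [Field F] [Algebra F ℂ] {c : ℂ} (hc : Transcendental F c) (n : F) :
    ∃ s : Aut, (∀ a, s (algebraMap F ℂ a) = algebraMap F ℂ a) ∧ s c = c + algebraMap F ℂ n := by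
  obtain ⟨t, hxt, ht⟩ := exists_isTranscendenceBasis_superset (R := F) (s := {c})
    (algebraicIndependent_unique_type_iff.2 hc)
  let f : F → MvPolynomial t F →ₐ[F] MvPolynomial t F := fun m =>
    MvPolynomial.aeval fun i => MvPolynomial.X i + MvPolynomial.C m
  have h1 : (f n).comp (f (-n)) = AlgHom.id F _ := by
    ext i : 1
    simp [f]
  have h2 : (f (-n)).comp (f n) = AlgHom.id F _ := by
    ext i : 1
    simp [f]
  obtain ⟨σ, hσ⟩ := Aut_basis ht (AlgEquiv.ofAlgHom (f n) (f (-n)) h1 h2).toRingEquiv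
  exact ⟨σ, fun a => by simpa [f] using hσ (MvPolynomial.C a),
    by simpa [f] using hσ (MvPolynomial.X ⟨c, hxt rfl⟩)⟩

/-- the standard basis -/
noncomputable def bas : Module.Basis (Fin 2) ℤ ZI := .ofEquivFun
  { toFun := fun a => ![a.re, a.im]
    invFun := fun v => ⟨v 0, v 1⟩
    map_add' := fun a b => by ext i; fin_cases i <;> simp
    map_smul' := fun m a => by ext i; fin_cases i <;> simp
    left_inv := fun _ => rfl
    right_inv := fun v => by ext i; fin_cases i <;> rfl }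

theorem card_quot (M : ZI) : (Nat.card (ZI ⧸ Ideal.span {M}) : ℤ) = M.norm := by
  have := Module.Free.of_basis bas
  have := Module.Finite.of_basis bas
  have h := Ideal.absNorm_span_singleton M
  rw [Ideal.absNorm_apply, Submodule.cardQuot_apply, Algebra.norm_eq_matrix_det bas,
    Matrix.det_fin_two] at h
  rw [h, ← Int.natAbs_of_nonneg (GaussianInt.norm_nonneg M)]
  congr 2
  simp only [Algebra.leftMulMatrix_eq_repr_mul, bas, Module.Basis.ofEquivFun_repr_apply,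
    Module.Basis.coe_ofEquivFun]
  change (M * ⟨1, 0⟩).re * (M * ⟨0, 1⟩).im - (M * ⟨0, 1⟩).re * (M * ⟨1, 0⟩).im = _
  simp [Zsqrtd.norm_def]

theorem fin_quot {M : ZI} (hM : M ≠ 0) : Finite (ZI ⧸ Ideal.span {M}) :=
  Nat.finite_of_card_ne_zero fun h => hM (GaussianInt.norm_eq_zero.1 (by
    rw [← card_quot, h, Nat.cast_zero]))

theorem div_mem {M : ZI} (hM : M ≠ 0) (b : ZI) : cK b * (Ω0 / cK M) ∈ LL.lattice ↔ M ∣ b := by
  have h0 := cK_ne hM
  rw [mem_LL]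
  refine exists_congr fun c => ?_
  rw [← cK_inj.eq_iff, map_mul, mul_div_assoc', div_eq_iff h0, mul_right_comm,
    mul_left_inj' Ω0_ne, mul_comm]

theorem fin_fib {n : ℕ} (hn : n ≠ 0) (w : ℂ) : {Q : EC | n • Q = uu w}.Finite := by
  have h0 : (n : ZI) ≠ 0 := Nat.cast_ne_zero.2 hn
  have h1 : (n : ℂ) ≠ 0 := Nat.cast_ne_zero.2 hn
  have := fin_quot h0
  refine (Set.finite_range fun q : ZI ⧸ Ideal.span {(n : ZI)} =>
    uu (w / n + cK q.out * (Ω0 / n))).subset fun Q hQ => ?_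
  obtain ⟨z, rfl⟩ := uu_surj Q
  rw [Set.mem_ofPred_eq, ← map_nsmul, uu_inj, nsmul_eq_mul] at hQ
  obtain ⟨b, hb⟩ := mem_LL.1 hQ
  refine ⟨Ideal.Quotient.mk _ b, uu_inj.2 ?_⟩
  have h2 := (div_mem h0 _).2 (Ideal.mem_span_singleton.1
    (Ideal.Quotient.eq.1 (Ideal.Quotient.mk_out (I := Ideal.span {(n : ZI)}) (Ideal.Quotient.mk _ b))))
  convert h2 using 1
  rw [map_sub, map_natCast]
  field_simp
  linear_combination -hb

theorem exists_rep {P : EE} {b : ZI} {z : ℂ} (hb : b ≠ 0) (h : Rep P (cK b * z)) :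
    ∃ Q, Rep Q z := by
  by_cases hz : z ∈ LL.lattice
  · exact ⟨0, (map_zero _).trans (uu_eq_zero.2 hz).symm⟩
  let _ : Algebra Om ℂ := io.toAlgebra
  have hn : b.norm.natAbs ≠ 0 := by simpa using hb
  have h1 : b.norm.natAbs • uu z = pm (W 1) io (star b • P) := by
    rw [h.smul, ← map_nsmul, nsmul_eq_mul, ← mul_assoc, ← map_mul, mul_comm (star b),
      ← Zsqrtd.norm_eq_mul_conj, map_intCast, GaussianInt.natCast_natAbs_norm]
  obtain ⟨x, hx⟩ : ∃ x, io x = pP z := by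
    by_contra hc
    have htr : Transcendental Om (pP z) := fun ha => hc (minpoly.mem_range_of_degree_eq_one Om _
      (IsAlgClosed.degree_eq_one_of_irreducible Om (minpoly.irreducible ha.isIntegral)))
    choose s h2 h3 using fun n : ℕ => shift htr (n : Om)
    refine Set.infinite_of_injective_forall_mem
      (f := fun n : ℕ => pm (W 1) (s n : ℂ →+* ℂ) (uu z)) (fun m n e => ?_) (fun n => ?_)
      (fin_fib hn (lg (star b • P)))
    · have h4 := (uu_is hz).map (s m : ℂ →+* ℂ)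
      rw [show pm (W 1) (s m : ℂ →+* ℂ) (uu z) = _ from e] at h4
      simpa [h3] using (h4.inj ((uu_is hz).map (s n : ℂ →+* ℂ))).1
    · rw [Set.mem_ofPred_eq, ← map_nsmul, h1, MP_9c97e9_nt.pm_pm, ← rep_lg]
      congr 2
      exact RingHom.ext (h2 n)
  obtain ⟨η, hη⟩ := IsAlgClosed.exists_pow_nat_eq (4 * ((x - 0) * (x - 1) * (x - -1))) two_pos
  obtain ⟨Q, hQ⟩ := (sp1 Om).exists_is hη
  have h2 := hQ.map io
  rw [hx] at h2
  rcases sq_eq_sq_iff_eq_or_eq_neg.1 ((h2.eq (sp1 ℂ)).trans ((uu_is hz).eq (sp1 ℂ)).symm) with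
    e | e <;> rw [e] at h2
  · exact ⟨Q, h2.unique (sp1 ℂ) (uu_is hz)⟩
  · exact ⟨-Q, by rw [Rep, map_neg]; exact (neg_neg (pQ z) ▸ h2.neg).unique (sp1 ℂ) (uu_is hz)⟩

theorem exists_div {M : ZI} (hM : M ≠ 0) (P : EE) : ∃ Q, M • Q = P := by
  have h0 := mul_div_cancel₀ (lg P) (cK_ne hM)
  obtain ⟨Q, hQ⟩ := exists_rep hM (h0.symm ▸ rep_lg P)
  exact ⟨Q, ((hQ.smul M).eq_iff (rep_lg P)).2 (by rw [h0, sub_self]; exact LL.lattice.zero_mem)⟩

theorem tor_rep {M : ZI} (hM : M ≠ 0) {z : ℂ} (hz : cK M * z ∈ LL.lattice) : ∃ Q, Rep Q z :=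
  exists_rep (P := 0) hM ((map_zero _).trans (uu_eq_zero.2 hz).symm)

theorem gen_spec {M : ZI} (hM : M ≠ 0) :
    Gn M (gen M) ∧ ∀ l, l ≠ 0 → l • gen (M * l) = gen M := by
  refine Classical.epsilon_spec (p := fun γ : ZI → EE =>
    ∀ M, M ≠ 0 → Gn M (γ M) ∧ ∀ l, l ≠ 0 → l • γ (M * l) = γ M) ?_ M hM
  choose! γ hγ using fun M (hM : M ≠ 0) => tor_rep hM ((div_mem hM M).2 dvd_rfl)
  refine ⟨γ, fun M hM => ⟨⟨fun b => ((hγ M hM).smul b).zero_iff.trans (div_mem hM b),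
    fun Q hQ => ?_⟩, fun l hl => (((hγ _ (mul_ne_zero hM hl)).smul l).eq_iff (hγ M hM)).2 ?_⟩⟩
  · obtain ⟨b, hb⟩ := mem_LL.1 (((rep_lg Q).smul M).zero_iff.1 hQ)
    refine ⟨b, ((rep_lg Q).eq_iff ((hγ M hM).smul b)).2 ?_⟩
    rw [mul_div_assoc', ← hb, mul_div_cancel_left₀ _ (cK_ne hM), sub_self]
    exact LL.lattice.zero_mem
  · rw [map_mul, mul_div_assoc', mul_comm (cK M), mul_div_mul_left _ _ (cK_ne hl), sub_self]
    exact LL.lattice.zero_mem

theorem card_tor {M : ZI} (hM : M ≠ 0) : (Nat.card {P : EE // M • P = 0} : ℤ) = M.norm := by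
  obtain ⟨h1, h2⟩ := (gen_spec hM).1
  rw [← card_quot]
  congr 1
  refine Nat.card_congr (Equiv.ofBijective (fun q => ⟨q.out • gen M, by
    rw [smul_comm, (h1 M).2 dvd_rfl, smul_zero]⟩) ⟨fun q r e => ?_, fun P => ?_⟩).symm
  · rw [← q.out_eq, ← r.out_eq]
    exact Ideal.Quotient.eq.2 (Ideal.mem_span_singleton.2 ((h1 _).1 (by
      rw [sub_smul, sub_eq_zero]; exact congrArg Subtype.val e)))
  · obtain ⟨b, hb⟩ := h2 P.1 P.2
    refine ⟨Ideal.Quotient.mk _ b, Subtype.ext ?_⟩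
    rw [hb, ← sub_eq_zero, ← sub_smul, h1]
    exact Ideal.mem_span_singleton.1 (Ideal.Quotient.eq.1 (Ideal.Quotient.mk_out _))

theorem fin_tor {M : ZI} (hM : M ≠ 0) : Finite {P : EE // M • P = 0} :=
  Nat.finite_of_card_ne_zero fun h => hM (GaussianInt.norm_eq_zero.1 (by
    rw [← card_tor hM, h, Nat.cast_zero]))

end A1

open A1 in
theorem p_GEN : S_GEN := fun _ hM =>
  ⟨(gen_spec hM).1, (gen_spec hM).2, fin_tor hM, card_tor hM, exists_div hM⟩

end Pool.Agent.P.MP_8b7eba_nt.QT.CG
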