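import Pool.Agent.P.MP_8b7eba_nt.CG.GA

/-! Proof of GLU. -/

namespace Pool.Agent.P.MP_8b7eba_nt.QT.CG

open R2 SM Filter A2
open MP_8b7eba_nt.CG (ES Smo EXK)

namespace G

variable {a β : ZI} {p : ℕ} {D : ℤ} {δ : Om}

theorem exists_red (hp : p.Prime) (h1 : Prime β) (hn : β.norm = p) :
    ∃ π : ZI →+* ZMod p, ∀ b, π b = 0 ↔ β ∣ b := by
  have := Fact.mk hp
  have h2 : (β.re : ZMod p) * β.re + β.im * β.im = 0 := by
    have := congrArg (Int.cast : ℤ → ZMod p) hn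
    rw [Zsqrtd.norm_def] at this
    simpa using this
  have h3 : (β.im : ZMod p) ≠ 0 := fun e => by
    rw [e, mul_zero, add_zero, mul_self_eq_zero] at h2
    obtain ⟨x, hx⟩ := (ZMod.intCast_zmod_eq_zero_iff_dvd _ _).1 h2
    obtain ⟨y, hy⟩ := (ZMod.intCast_zmod_eq_zero_iff_dvd _ _).1 e
    rw [Zsqrtd.norm_def, hx, hy] at hn
    have h4 : (p : ℤ) * (p * (x * x + y * y)) = p * 1 := by linear_combination hn
    have h5 := mul_left_cancel₀ (Int.natCast_ne_zero.2 hp.ne_zero) h4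
    exact (Nat.prime_iff_prime_int.1 hp).not_isUnit (IsUnit.of_mul_eq_one _ h5)
  let π : ZI →+* ZMod p := Zsqrtd.lift ⟨-β.re / β.im, by
    field_simp
    push_cast
    linear_combination h2⟩
  have h4 : π β = 0 := by
    refine (Zsqrtd.lift_apply_apply _ β).trans ?_
    field_simp
    ring
  refine ⟨π, fun b => ⟨fun h => by_contra fun e => ?_, fun ⟨c, hc⟩ => by
    rw [hc, map_mul, h4, zero_mul]⟩⟩
  obtain ⟨r, s, e⟩ := h1.coprime_iff_not_dvd.2 e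
  have := congrArg π e
  rw [map_add, map_mul, map_mul, h4, h, map_one, mul_zero, mul_zero, add_zero] at this
  exact zero_ne_one this

theorem exists_chr (hG : S_GEN) (hLIN : S_LIN) (hL : S_LEV) (hR : S_RAM) {w : Pl} (h2 : w.p ≠ 2)
    (hI : w.I ≤ GK) (h1 : Prime β) (hβ : Prim β) (hn : β.norm = w.p) (hv : w.v (eK β) < 1) :
    ∃ c : GK →* (ZMod w.p)ˣ, (∀ g : GK, g.1 ∈ NM β → c g = 1) ∧
      ∃ g : GK, g.1 ∈ w.I ∧ ¬ IsSquare (c g) := by
  obtain ⟨π, hπ⟩ := exists_red w.prime h1 hn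
  choose b _ _ hb using (hL.2 β h1.ne_zero).2.2.2.1
  have gn := (hG β h1.ne_zero).1.1
  have u : ∀ (g : GK) x, Ar β g x → π (b g g.2) = π x := fun g x hx => by
    rw [← sub_eq_zero, ← map_sub, hπ, ← gn, sub_smul, ← hb g g.2 _ ((gn β).2 dvd_rfl),
      hx _ ((gn β).2 dvd_rfl), sub_self]
  let c : GK →* ZMod w.p :=
    { toFun := fun g => π (b g g.2)
      map_one' := (u 1 1 fun P _ => by rw [one_smul]; exact ga_one P).trans (map_one π)
      map_mul' := fun g h => (u (g * h) _ (ar_mul hLIN g.2 (hb g g.2) (hb h h.2))).trans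
        (map_mul π _ _) }
  refine ⟨c.toHomUnits, fun g hg => Units.ext ((u g 1 fun P hP => by
    rw [one_smul]; exact hg.2 P hP).trans (map_one π)), ?_⟩
  have hU := (a_RES w w.D w.loc_D).2.2.2.2.1
  obtain ⟨t, ht, h3⟩ := (a_TAME w w.D w.p h2 w.loc_D (by rwa [inf_eq_left.2 w.I_le_D])).1
  refine ⟨⟨t, hI ht.1⟩, ht.1, fun ⟨r, hr⟩ => ?_⟩
  obtain ⟨z, hz⟩ := ZMod.intCast_surjective (r : ZMod w.p)
  refine hR β (b t (hI ht.1)) w t h1 hβ hn hv ht.1 h3 (hb t _) z ((hπ _).1 ?_)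
  have h4 : π (b t (hI ht.1)) = r * r := congrArg Units.val hr
  rw [map_sub, h4, map_pow, map_intCast, hz, sq, sub_self]

open Classical in
/-- the fields of the system of elliptic units -/
noncomputable def nn (D : ℤ) (m : ZI) : Subgroup GQ := if m = 0 then GK else NM (star m * (16 * D))

theorem nn_of {m : ZI} (h : m ≠ 0) : nn D m = NM (star m * (16 * D)) := if_neg h

theorem star_lv (k : ℕ) : star ((2 : ZI) ^ k) * (16 * D) = lv D k := by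
  rw [star_pow, star_ofNat, lv]

theorem nn_lv (k : ℕ) : nn D (2 ^ k) = NM (lv D k) := by
  rw [nn_of (pow_ne_zero _ (by decide)), star_lv]

theorem exists_es (hG : S_GEN) (hLIN : S_LIN) (hL : S_LEV) (hF : S_FRB) (hR : S_RAM)
    (hQ : S_QRT) (hN : S_NRM) (hD : D ≠ 0) (hδ : δ ^ 4 = D) (ha : Prim a) (d : MP_8b7eba_nt.CG.Dat)
    (hn : d.n = D.natAbs) (hρ : d.ρ = rho δ) :
    ∃ E : ES d, E.N = nn D ∧ E.th = fun m => th a (gen (star m * (16 * D))) := by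
  have D0 : (16 * D : ZI) ≠ 0 := mul_ne_zero (by decide) (Int.cast_ne_zero.2 hD)
  have M0 : ∀ {m : ZI}, m ≠ 0 → star m * (16 * D) ≠ 0 := fun h => mul_ne_zero (star_ne_zero.2 h) D0
  have M3 : ∀ m : ZI, pz ^ 3 ∣ star m * (16 * D) := fun m => (dvd16.mul_right _).mul_left _
  have e : ∀ m l : ZI, star (m * l) * (16 * D) = star m * (16 * D) * star l := fun m l => by
    rw [star_mul']; ring
  have hv : ∀ (m : ZI) (v : Pl), ¬ v.p ∣ 2 * D.natAbs → v.v (MP_8b7eba_nt.CG.gi m) = 1 →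
      v.p ≠ 2 ∧ v.v (eK (star m * (16 * D))) = 1 := fun m v h1 h2 => by
    have h3 : v.p ≠ 2 := fun x => h1 (x ▸ dvd_mul_right _ _)
    refine ⟨h3, ?_⟩
    rw [map_mul, map_mul, ← gi_eq, h2, map_mul, map_mul, map_intCast,
      Pl.v_int_eq_one.2 fun x => h1 (Dvd.dvd.mul_left (Int.natCast_dvd.1 x) 2),
      show (16 : ZI) = 2 ^ 4 by norm_num, map_pow, map_pow, map_ofNat, Pl.v_two h3]
    simp
  have le : ∀ m, nn D m ≤ GK := fun m => by
    unfold nn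
    split_ifs
    · exact le_rfl
    · exact fun _ h => h.1
  refine ⟨⟨nn D, fun m => th a (gen (star m * (16 * D))), 2 * D.natAbs + a.norm.natAbs,
    fun m h => ?_, le, fun m g hg h hh => ?_, fun m m' h h0 => ?_, fun m v h1 h2 => ?_,
    fun k g hg => ?_, fun m h _ => ?_, fun m h _ => ⟨1, fo1, ?_⟩, fun v h1 h2 => ?_⟩, rfl, rfl⟩
  · rw [nn_of h]
    exact (hL.2 _ (M0 h)).1
  · by_cases h0 : m = 0
    · rw [nn, if_pos h0]
      exact mul_mem (mul_mem (mul_mem hg hh) (inv_mem hg)) (inv_mem hh)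
    · rw [nn_of h0]
      exact (hL.2 _ (M0 h0)).2.1 g hg h hh
  · obtain ⟨l, rfl⟩ := h
    rw [nn_of h0, nn_of (left_ne_zero_of_mul h0), e]
    exact NM_anti (dvd_mul_right _ _)
  · have h0 : m ≠ 0 := by
      rintro rfl
      simp [gi_eq] at h2
    obtain ⟨h3, h4⟩ := hv m v (hn ▸ h1) h2
    rw [nn_of h0]
    exact (hL.2 _ (M0 h0)).2.2.2.2.2 v h3 h4
  · rw [nn_lv] at hg
    rw [hρ, rho, kd_fix (hQ D δ hD hδ g (NM_anti (dvd_mul_left _ _) hg)), mul_one]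
    exact dv_two.1 (r1_dvd hLIN (NM_anti ((pow_dvd_pow 2 (by omega)).mul_right _) hg))
  · have := hN a _ 1 ha (M3 m) (by rw [mul_one]; exact M0 h) isCoprime_one_right
    rw [nn_of h]
    exact ⟨this.2.1, this.1⟩
  · have h2 : m * 2 ≠ 0 := mul_ne_zero h (by decide)
    simp only [nn_of h, nn_of h2, e, one_mul, star_ofNat]
    exact (hN a _ 2 ha (M3 m) (mul_ne_zero (M0 h) (by decide)) (prim_cop2 ha)).2.2.1
      fun q _ hq => hq.trans (two_dvd3.trans (M3 m))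
  have hd : ¬ v.p ∣ 2 * D.natAbs := fun h => by
    have := Nat.le_of_dvd (by have := Int.natAbs_pos.2 hD; omega) h
    omega
  have p2 : v.p ≠ 2 := by omega
  obtain ⟨β, b1, b2, b3, ⟨-, b4, b5⟩ | ⟨b4, -⟩⟩ := hF.2.2 v p2
  swap
  · omega
  have b6 := (b3 β).2 dvd_rfl
  have s0 : star β ≠ 0 := star_ne_zero.2 b1.ne_zero
  have ca : IsCoprime a β := (b1.coprime_iff_not_dvd.2 fun h => by
    have h3 := Int.natAbs_dvd_natAbs.2 (norm_dvd h)
    rw [b4, Int.natAbs_natCast] at h3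
    have := Nat.le_of_dvd (Int.natAbs_pos.2 (mt GaussianInt.norm_eq_zero.1 (prim_ne ha))) h3
    omega).symm
  refine ⟨star β, (Zsqrtd.norm_conj β).trans b4, by rwa [gi_eq, star_star], ?_,
    fun m φ h0 _ h3 h4 => ⟨1, fo1, ?_⟩⟩
  · obtain ⟨c, c1, c2⟩ := exists_chr hG hLIN hL hR p2 (v.I_le_D.trans b5) b1 b2 b4 b6
    refine ⟨c, fun g hg => c1 g ?_, c2⟩
    rw [nn_of s0, star_star] at hg
    exact NM_anti (dvd_mul_right _ _) hg
  · have h5 : ¬ β ∣ star m * (16 * D) := fun h => ((b3 _).2 h).ne (hv m v hd h3).2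
    obtain ⟨f1, f2⟩ := hF.1 β v 1 φ b1 b2 b6 h4 (by rw [pow_one, b4])
    simp only [nn_of h0, nn_of (mul_ne_zero h0 s0), e, one_mul, star_star]
    exact (hN a _ β ha (M3 m) (mul_ne_zero (M0 h0) b1.ne_zero) ca).2.2.2 φ f1 β b1 h5
      (Associated.refl β) (f2 _ (b1.coprime_iff_not_dvd.2 h5))

theorem exists_adm (hF : S_FRB) (hD : D ≠ 0) :
    ∃ (a : ZI) (p : ℕ), p.Prime ∧ a.norm = p ∧ p % 8 = 5 ∧ Adm D a := by
  obtain ⟨p, h1, hp, h2⟩ := Nat.forall_exists_prime_gt_and_modEq D.natAbs (q := 8) (a := 5)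
    (by norm_num) (by norm_num)
  have h3 : p % 8 = 5 := h2
  obtain ⟨w, rfl⟩ := a_PL.1 p hp
  obtain ⟨β, b1, b2, -, ⟨-, b4, -⟩ | ⟨b4, -⟩⟩ := hF.2.2 w (by omega)
  · refine ⟨β, w.p, hp, b4, h3, b1, b2, by omega, ?_⟩
    rw [b4]
    refine (Nat.prime_iff_prime_int.1 hp).coprime_iff_not_dvd.2 fun h => ?_
    have := Nat.le_of_dvd (Int.natAbs_pos.2 hD) (Int.natCast_dvd.1 h)
    omega
  · omega

theorem rho_frob (hB : S_BCH) (hLIN : S_LIN) (hD : D ≠ 0) (hδ : δ ^ 4 = D) (ha : Prim a) {s : GQ}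
    (hs : s ∈ GK) (h : ∀ M, IsCoprime a M → Ar M s a) :
    ∃ u, IsUnit u ∧ rho δ s = eO (a * u) := by
  obtain ⟨h1, h2, -⟩ := (hB D δ hD hδ).2.1 s
  refine ⟨ku δ s, IsUnit.of_pow_eq_one h2 four_ne_zero, ?_⟩
  rw [rho, h1, map_mul, sub_eq_zero.1 (eq_zero_of_dv (u := r1 s - eO a) fun n =>
    ((hLIN.2.2.2.2.2.2.2.2 s hs n a).1 (h _ (prim_cop2 ha).pow_right)).mono (by omega))]

end G

open G in
theorem p_GLU (hBGK : S_BGK) (hBCH : S_BCH) (hGEN : S_GEN) (hLIN : S_LIN) (hLEV : S_LEV)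
    (hFRB : S_FRB) (hRAM : S_RAM) (hQRT : S_QRT) (hTH : S_TH) (hCROSS : S_CROSS) (hNRM : S_NRM)
    (hTH3 : S_TH3) (hEXK : EXK) (hTOP : MP_8b7eba_nt.CG.TOP) : S_GLU := by
  intro D δ hD hδ h4
  obtain ⟨c1, -, -, c4, c5, -⟩ := hBCH D δ hD hδ
  have w2p : w2.p = 2 := hBGK.2.2.2.2.2.2.2.2.2.2.2.1
  obtain ⟨γ, g1, f, f1, g2, f2, f3, f4⟩ := hEXK (rho δ) w2 c1 w2p
  let d : MP_8b7eba_nt.CG.Dat := ⟨D.natAbs, rho δ, w2, f, γ, Int.natAbs_ne_zero.2 hD, c1, w2p,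
    fun v h g hg => ((c4 v (fun x => h (x ▸ dvd_mul_right _ _)) g hg).2 fun x =>
      h (Dvd.dvd.mul_left (Int.natCast_dvd.1 x) 2)).2,
    fun v h1 h2 => c5 v h1 (Int.natCast_dvd.2 h2) (h4 v.p v.prime h1), f1, f2, f4,
    ⟨w2.I_le_D g1.1, g1.2⟩⟩
  obtain ⟨a, p, hp, hn, p8, ha⟩ := exists_adm hFRB hD
  have a1 := ha.1
  have a2 := ha.2.1
  have b1 := prime_star a1
  have b2 := prim_star a2
  have hn' : (star a).norm = p := (Zsqrtd.norm_conj a).trans hn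
  obtain ⟨E, e1, e2⟩ := exists_es hGEN hLIN hLEV hFRB hRAM hQRT hNRM hD hδ a2 d rfl rfl
  obtain ⟨E', e1', e2'⟩ := exists_es hGEN hLIN hLEV hFRB hRAM hQRT hNRM hD hδ b2 d rfl rfl
  have n1 : ∀ k, E.N (2 ^ k) = NM (lv D k) := fun k => by rw [e1, nn_lv]
  have n2 : ∀ k, E.th (2 ^ k) = th a (gen (lv D k)) := fun k => by rw [e2]; simp only [star_lv]
  have n2' : ∀ k, E'.th (2 ^ k) = th (star a) (gen (lv D k)) := fun k => by
    rw [e2']; simp only [star_lv]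
  obtain ⟨s, s1, s2, s3⟩ := frob hFRB a1 a2
  obtain ⟨s', s1', s2', s3'⟩ := frob hFRB b1 b2
  have nd := nd_star hp a2 hn
  have cD := cop_int.2 ha.2.2.2
  rw [Zsqrtd.norm_eq_mul_conj] at cD
  have cl : ∀ {b : ZI}, Prim b → IsCoprime b (D : ZI) → ∀ k, IsCoprime b (lv D k) := fun h1 h2 k =>
    (prim_cop2 h1).pow_right.mul_right (IsCoprime.mul_right
      ((by norm_num : (2 : ZI) ^ 4 = 16) ▸ (prim_cop2 h1).pow_right) h2)
  refine ⟨a, d, E, ha, rfl, rfl, ⟨rfl, fun k => ⟨n1 _, n2 _⟩⟩, hTOP d E E' s s' p _ vl g2 f3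
    (fun p _ u hu => vl_eq hu) le_rfl ⟨fun k => by rw [e1, e1'], s1, s1', p8,
      by rw [s2, hn, Int.cast_natCast], by rw [s2', hn', Int.cast_natCast], fun h => ?_,
      fun k => ⟨1, fo1, ?_⟩⟩ fun j => (eventually_ge_atTop j).mono fun k hk => ?_⟩
  · obtain ⟨u, -, u2⟩ := rho_frob hBCH hLIN hD hδ a2 s1 s3
    obtain ⟨u', u1', u2'⟩ := rho_frob hBCH hLIN hD hδ b2 s1' s3'
    have h1 : a * u = star a * u' := hBGK.2.2.2.2.2.2.2.2.1 (u2.symm.trans (h.trans u2'))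
    exact nd (u1'.dvd_mul_right.1 ⟨u, h1.symm⟩)
  · have l0 : lv D (k + 2) ≠ 0 :=
      mul_ne_zero (pow_ne_zero _ (by decide)) (mul_ne_zero (by decide) (Int.cast_ne_zero.2 hD))
    have gn := (hGEN _ l0).1.1
    have hz := (gn _).2 dvd_rfl
    have := hCROSS a (star a) (gen (lv D (k + 2))) a2 b2 (a1.coprime_iff_not_dvd.2 nd) fun h =>
      nd_prim (prim_mul a2 b2) ((dvd16.mul_right _).mul_left _) ((gn _).1 h)
    rw [hn, hn', zpow_natCast, zpow_natCast] at this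
    rw [n2, n2', one_mul, (((hTH _ b2).2 _).2.2.2 s s1).1, (((hTH _ a2).2 _).2.2.2 s' s1').1,
      s3 _ (cl a2 cD.of_mul_left_left _) _ hz, s3' _ (cl b2 cD.of_mul_left_right _) _ hz, this]
  · rw [n1, n2]
    exact lam_lv hBCH hLIN hLEV hFRB hNRM hTH3 hD ha hk

end Pool.Agent.P.MP_8b7eba_nt.QT.CG
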