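import Pool.Agent.P.MP_8b7eba_nt.CG.If

/-! Proof of KCX. -/

namespace Pool.Agent.P.MP_8b7eba_nt.QT.CG

open R2 SM Polynomial Filter Module
open MP_9c97e9_nt (Pt pm Is)

theorem kcx_eq {n : ℕ} {s t : ℤ_[2]} :
    ec ((s : ℚ_[2]) / 2 ^ n) = ec ((t : ℚ_[2]) / 2 ^ n) ↔ 2 ^ n ∣ s - t := by
  rw [TKLD.ec_eq a_EC.1, ← sub_div, ← PadicInt.coe_sub, TINJ.norm_iff]

theorem kcx_add (n : ℕ) (s t : ℤ_[2]) : ec (((s + t : ℤ_[2]) : ℚ_[2]) / 2 ^ n) =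
    ec ((s : ℚ_[2]) / 2 ^ n) * ec ((t : ℚ_[2]) / 2 ^ n) := by
  rw [PadicInt.coe_add, add_div, a_EC.1.add]

theorem kcx_gal (g : GQ) (n : ℕ) (s : ℤ_[2]) : g (ec ((s : ℚ_[2]) / 2 ^ n)) =
    ec (((cyc g * s : ℤ_[2]) : ℚ_[2]) / 2 ^ n) := by
  rw [a_EC.1.gal, PadicInt.coe_mul, mul_div_assoc]

theorem kcx_sq (n : ℕ) (s : ℤ_[2]) :
    ec ((s : ℚ_[2]) / 2 ^ (n + 1)) ^ 2 = ec ((s : ℚ_[2]) / 2 ^ n) := by
  rw [← TKLD.ec_nat a_EC.1]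
  congr 1
  push_cast
  field_simp
  ring

theorem kcx_rsq (x : Om) (n : ℕ) : rtn x (n + 1) ^ 2 = rtn x n :=
  Classical.epsilon_spec (p := fun β : Om => β ^ 2 = rtn x n)
    (IsAlgClosed.exists_pow_nat_eq _ two_pos)

theorem kcx_pow {r : ℕ → Om} (h : ∀ n, r (n + 1) ^ 2 = r n) (n : ℕ) : r n ^ 2 ^ n = r 0 := by
  induction n with
  | zero => simp
  | succ n ih => rw [pow_succ', pow_mul, h, ih]

theorem kcx_ne {x : Om} (hx : x ≠ 0) (n : ℕ) : rtn x n ≠ 0 := fun e => by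
  have := kcx_pow (kcx_rsq x) n
  rw [e, zero_pow (by positivity)] at this
  exact hx this.symm

theorem kcx_un {x : Om} (hx : x ≠ 0) {s t : ℤ_[2]} (h : ∀ n, ec ((s : ℚ_[2]) / 2 ^ n) * rtn x n =
    ec ((t : ℚ_[2]) / 2 ^ n) * rtn x n) : s = t :=
  TART.eq_of_dvd fun n _ => kcx_eq.1 (mul_right_cancel₀ (kcx_ne hx n) (h n))

theorem kcx_ex {r : ℕ → Om} (h0 : r 0 ≠ 0) (h : ∀ n, r (n + 1) ^ 2 = r n) :
    ∃ s : ℤ_[2], ∀ n, r n = ec ((s : ℚ_[2]) / 2 ^ n) * rtn (r 0) n := by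
  have h1 : ∀ n, ∃ m : ℤ, r n = ec (((m : ℤ_[2]) : ℚ_[2]) / 2 ^ n) * rtn (r 0) n := fun n => by
    obtain ⟨m, hm⟩ := a_EC.1.surj n (r n / rtn (r 0) n) (by
      rw [div_pow, kcx_pow h, kcx_pow (kcx_rsq _)]; exact div_self h0)
    exact ⟨m, by rw [PadicInt.coe_intCast, ← hm, div_mul_cancel₀ _ (kcx_ne h0 n)]⟩
  choose f hf using h1
  have hi : ∀ i, ((2 : ℕ) : ℤ) ^ i ∣ f (i + 1) - f i := fun i => by
    have e := h i
    rw [hf (i + 1), mul_pow, kcx_sq, kcx_rsq] at e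
    have e2 := kcx_eq.1 (mul_right_cancel₀ (kcx_ne h0 i) (e.trans (hf i)))
    rw [← Int.cast_sub, TEC2.nrm, PadicInt.norm_int_le_pow_iff_dvd] at e2
    exact e2
  refine ⟨PadicInt.ofIntSeq _ (PadicInt.isCauSeq_padicNorm_of_pow_dvd_sub f 2 hi), fun n => ?_⟩
  rw [kcx_eq.2 ((TART.dvd_iff (b := (f n : ℤ_[2]))).1 (by
    rw [PadicInt.toZModPow_ofIntSeq_of_pow_dvd_sub f 2 hi, map_intCast])), ← hf]

theorem kcx_spec {x : Om} (hx : x ≠ 0) (g : GQ) :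
    ∀ n, g (rtn x n) = ec ((kc g x : ℚ_[2]) / 2 ^ n) * rtn (g x) n :=
  Classical.epsilon_spec
    (p := fun a : ℤ_[2] => ∀ n, g (rtn x n) = ec ((a : ℚ_[2]) / 2 ^ n) * rtn (g x) n)
    (kcx_ex (r := fun n => g (rtn x n)) ((map_ne_zero g).2 hx) fun n => by
      rw [← map_pow, kcx_rsq])

theorem kcx_iff {x : Om} (hx : x ≠ 0) (g : GQ) (n : ℕ) (h : g x = x) :
    2 ^ n ∣ kc g x ↔ g (rtn x n) = rtn x n := by
  rw [kcx_spec hx, h, mul_eq_right₀ (kcx_ne hx n), a_EC.1.eq_one, TINJ.norm_iff]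

theorem p_KCX :
    S_KCX := by
  refine ⟨fun x hx => ⟨fun n => ⟨kcx_rsq x n, kcx_pow (kcx_rsq x) n⟩, kcx_spec hx, fun g h => ?_,
    fun n => ?_, kcx_iff hx⟩, fun r h0 h => ?_, ?_⟩
  · refine kcx_un ((map_ne_zero (g * h)).2 hx) fun n => ?_
    rw [← kcx_spec hx, AlgEquiv.mul_apply, kcx_spec hx, map_mul, kcx_gal,
      kcx_spec ((map_ne_zero h).2 hx), kcx_add, AlgEquiv.mul_apply]
    ring
  · obtain ⟨N, h1, h2⟩ := exists_ON_fix {x, rtn x n}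
    have h3 := h2 x (by simp)
    exact ⟨N, h1, fun k hk => ⟨h3 k hk, (kcx_iff hx k n (h3 k hk)).2 (h2 _ (by simp) k hk)⟩⟩
  · obtain ⟨s, hs⟩ := kcx_ex h0 h
    exact ⟨s, hs, fun t ht => kcx_un h0 fun n => (ht n).symm.trans (hs n)⟩
  · have h1 : ∀ x y : Om, ∃ s : ℤ_[2], x ≠ 0 → y ≠ 0 →
        ∀ n, rtn x n * rtn y n = ec ((s : ℚ_[2]) / 2 ^ n) * rtn (x * y) n := fun x y => by
      by_cases h : x * y = 0
      · exact ⟨0, fun a b => absurd h (mul_ne_zero a b)⟩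
      obtain ⟨s, hs⟩ := kcx_ex (r := fun n => rtn x n * rtn y n) h fun n => by
        rw [mul_pow, kcx_rsq, kcx_rsq]
      exact ⟨s, fun _ _ => hs⟩
    choose s hs using h1
    refine ⟨fun x y => -s x y, fun x y hx hy g => ?_⟩
    have hx' := (map_ne_zero g).2 hx
    have hy' := (map_ne_zero g).2 hy
    have e : cyc g * s x y + kc g (x * y) = kc g x + kc g y + s (g x) (g y) :=
      kcx_un (mul_ne_zero hx' hy') fun n => by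
        have e1 := congrArg g (hs x y hx hy n)
        rw [map_mul, map_mul, kcx_gal, kcx_spec hx, kcx_spec hy, kcx_spec (mul_ne_zero hx hy),
          map_mul, mul_mul_mul_comm, hs _ _ hx' hy'] at e1
        rw [kcx_add, kcx_add, kcx_add, mul_assoc, ← e1, mul_assoc (_ * _)]
    linear_combination e

end Pool.Agent.P.MP_8b7eba_nt.QT.CG
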