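import Pool.Agent.P.MP_8b7eba_nt.CG.IfM
import Pool.Agent.P.MP_8b7eba_nt.CG.HB

/-! Proof of KZ. -/

namespace Pool.Agent.P.MP_8b7eba_nt.QT.CG

open R2 SM Filter SM.BasW

namespace KZ

variable {ρ κ : GQ → O} {N H : Subgroup GQ} {k n : ℕ} {θ : Om} {α : O} {g h s : GQ} {S : Finset ℕ}

/-- a level of the tower -/
structure Lv (ρ : GQ → O) (N : Subgroup GQ) (k : ℕ) (θ : Om) : Prop where
  cy : Cy ρ
  on : ON N
  le : ∀ g ∈ N, qz (-1) g = 0 ∧ Dv (2 * k) (ρ g - 1)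
  ne : θ ≠ 0
  fix : Fix N θ

theorem Lv.ac (L : Lv ρ N k θ) (hg : g ∈ N) (v : O) : Dv (2 * k) (ac ρ g v - v) :=
  of_eq ((L.le g hg).2.mul_right v) (by rw [QT.ac, cj_of (L.le g hg).1]; ring)

theorem Lv.cyc (L : Lv ρ N k θ) (hg : g ∈ N) : 2 ^ k ∣ (cyc g : Z2) - 1 := by
  obtain ⟨a, b⟩ := dv_two_iff.1 (L.le g hg).2
  rw [← L.cy.nm, (L.le g hg).1, BasY.sg_zero, mul_one, nr]
  convert dvd_add (a.mul_right ((ρ g).re + 1)) (b.mul_right (ρ g).im) using 1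
  simp only [QuadraticAlgebra.re_sub, QuadraticAlgebra.im_sub, QuadraticAlgebra.re_one,
    QuadraticAlgebra.im_one]
  ring

theorem Lv.n0 (L : Lv ρ N k θ) (s : GQ) : s θ ≠ 0 := (_root_.map_ne_zero _).2 L.ne

theorem Lv.eq (L : Lv ρ N k θ) (g : GQ) (j : GQ ⧸ N) : g ((bq N g j).out θ) = j.out θ := by
  simpa using congrArg j.out (L.fix _ (bq_mem g j))

theorem Lv.shift (L : Lv ρ N k θ) (g : GQ) (j : GQ ⧸ N) (v : O) :
    Dv (2 * k) (QT.ac ρ j.out⁻¹ (QT.ac ρ g v) - QT.ac ρ (bq N g j).out⁻¹ v) := by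
  have := L.ac (bq_mem g j) (QT.ac ρ (bq N g j).out⁻¹ v)
  rwa [← L.cy.ac_mul, mul_inv_cancel_right, L.cy.ac_mul] at this

/-- the weights -/
noncomputable def wt (ρ : GQ → O) (α : O) (s : GQ) : O := (((cyc s)⁻¹ : Z2ˣ) : Z2) • ac ρ s α

theorem wt_mul (hρ : Cy ρ) (α : O) (g s : GQ) :
    (cyc g : Z2) • wt ρ α (g * s) = ac ρ g (wt ρ α s) := by
  rw [wt, wt, ac_smul, hρ.ac_mul, smul_smul, a_EC.2.1, mul_inv, Units.val_mul,
    Units.mul_inv_cancel_left]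

theorem Lv.wt (L : Lv ρ N k θ) (hg : g ∈ N) (α : O) (s : GQ) :
    Dv (2 * k) (wt ρ α (s * g) - wt ρ α s) := by
  refine of_eq ((((L.ac hg α).ac ρ s).smul ((R2.cyc s)⁻¹ : Z2ˣ)).sub
    (dv_smul (L.cyc hg) (KZ.wt ρ α (s * g)))) ?_
  rw [sub_smul, one_smul, KZ.wt, KZ.wt, smul_smul, a_EC.2.1, mul_inv_rev, Units.val_mul,
    Units.mul_inv_cancel_left, ac_sub, L.cy.ac_mul, smul_sub]
  ring

theorem wt_pr (hρ : Cy ρ) (α v : O) (s : GQ) : pr 1 (wt ρ α s) (ac ρ s v) = pr 1 α v := by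
  rw [wt, pr_smul_l, pr_ac hρ (by simp [Rl]), Units.inv_mul_cancel_left]

variable [Fintype (GQ ⧸ N)]

/-- the Kummer cocycle of the unit, twisted and corestricted -/
noncomputable def Y (ρ : GQ → O) (N : Subgroup GQ) [Fintype (GQ ⧸ N)] (θ : Om) (α : O) (g : GQ) :
    O := ∑ j : GQ ⧸ N, kc g ((bq N g j).out θ) • wt ρ α j.out

theorem Lv.co (L : Lv ρ N k θ) (hK : S_KCX) (g h : GQ) :
    Dv (2 * k) (Y ρ N θ α (g * h) - Y ρ N θ α g - QT.ac ρ g (Y ρ N θ α h)) := by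
  rw [Y, Y, Y, ac_sum, ← ((ra_bq (H := ⊤) L.on).bij (Subgroup.mem_top g)).sum_comp
    (fun j => QT.ac ρ g (kc h ((bq N h j).out θ) • KZ.wt ρ α j.out)), ← Finset.sum_sub_distrib,
    ← Finset.sum_sub_distrib]
  refine Dv.sum fun j _ => of_eq ((((L.wt (bq_mem g j) α j.out).smul (R2.cyc g)).smul
    (kc h ((bq N h (bq N g j)).out θ))).neg) ?_
  rw [(hK.1 _ (L.n0 _)).2.2.1, bq_mul, L.eq, ac_smul,
    ← wt_mul L.cy, mul_assoc, mul_inv_cancel_left]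
  module

theorem small (e : ∀ j : GQ ⧸ N, 2 ^ k ∣ kc g (j.out θ)) : Dv (2 * k) (Y ρ N θ α g) :=
  Dv.sum fun _ _ => dv_smul (e _) _

theorem Lv.zu (L : Lv ρ N k θ) (hK : S_KCX)
    (hu : ∀ w : Pl, ¬ w.p ∣ 30 → w.p ∉ S → w.I ≤ N ∧ w.v θ = 1) : Zu ρ S (2 * k) (Y ρ N θ α) := by
  refine ⟨⟨?_, fun g _ h _ => L.co hK g h⟩, fun w a b g hg => small fun j => ?_⟩
  · choose M hM e using fun j : GQ ⧸ N => (hK.1 _ (L.n0 j.out)).2.2.2.1 k
    obtain ⟨U, hU, p⟩ := exists_ON_forall hM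
    exact ⟨_, hU, fun g _ t _ ht => of_eq ((L.co hK g t).add
      ((small fun j => (e j t (p j ht)).2).ac ρ g)) (sub_add_cancel _ _).symm⟩
  · obtain ⟨p, -, -, -, q⟩ := hK.1 _ (L.n0 j.out)
    have f : Fix (Subgroup.zpowers g) (j.out θ) := fun t ht => by
      have := L.eq t j
      rwa [bq_of L.on (Subgroup.zpowers_le.2 ((hu w a b).1 hg) ht)] at this
    refine (q g k (f g (Subgroup.mem_zpowers g))).2 ((GrpA.tame a_TAME a_RES
      fun d => a (by rw [d]; norm_num)).2.1 g hg k _ ?_ (by rwa [(p k).2]))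
    have := (hu (j.out⁻¹ • w) a b).2
    rw [Pl.smul_v, inv_inv, ← (p k).2, map_pow] at this
    exact (pow_eq_one_iff_of_nonneg zero_le (by positivity)).1 this

omit [Fintype (GQ ⧸ N)] in
theorem Lv.cc (L : Lv ρ N k θ) (hn : n ≤ k) (hκ : Zn ρ H (2 * n) κ) :
    Cc H (bq N) n fun j g => pr 1 α (QT.ac ρ j.out⁻¹ (κ g)) := by
  obtain ⟨⟨M, hM, e⟩, c⟩ := hκ
  refine ⟨⟨M, hM, fun g hg t ht m j => ?_⟩, fun g hg h hh j => ?_⟩
  · rw [← pr_sub_r, ← ac_sub]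
    exact pr_r' _ _ ((e g hg t ht m).ac _ _)
  · rw [← pr_add_r, ← pr_sub_r]
    refine pr_r' _ _ (of_eq (((c g hg h hh).ac ρ j.out⁻¹).add
      ((L.shift g j (κ h)).mono (by omega))).neg ?_)
    rw [ac_sub, ac_sub]
    ring

theorem Lv.triv (L : Lv ρ N k θ) (hK : S_KCX) (hn : n ≤ k) (hκ : Zn ρ H (2 * n) κ)
    (t : Ks H (bq N) n (fun j => j.out θ) fun j g => pr 1 α (QT.ac ρ j.out⁻¹ (κ g))) :
    Triv H (wp 1 ρ n (Y ρ N θ α) κ) := by
  have p := fun j : GQ ⧸ N => ((hK.1 _ (L.n0 j.out)).1 n).2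
  refine (t.all (ra_bq L.on) ⟨fun j => L.n0 _, fun g _ => L.eq g⟩ (L.cc hn hκ) p).congr
    fun g _ h _ => ?_
  have e : ∀ (f : GQ ⧸ N → O) (v : O) (T : Finset (GQ ⧸ N)),
      en n (pr 1 (∑ j ∈ T, f j) v) = ∏ j ∈ T, en n (pr 1 (f j) v) := fun f v T => by
    induction T using Finset.cons_induction with
    | empty => exact en_one (by simp [pr])
    | cons a T ha ih => rw [Finset.sum_cons, Finset.prod_cons, pr_add_l, en_add, ih]
  rw [wp_eq, Y, e, Kf]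
  refine Finset.prod_congr rfl fun j _ => ?_
  have r0 : rtn (j.out θ) n ≠ 0 := fun e =>
    L.n0 j.out (by rw [← p, e, zero_pow (by positivity)])
  rw [(hK.1 _ (L.n0 _)).2.1, L.eq, mul_div_cancel_right₀ _ r0, ap, zpow_natCast, ← en, en_nat,
    pr_smul_l, mul_comm]
  refine en_congr ?_
  rw [← sub_mul]
  refine Dvd.dvd.mul_right ?_ _
  have := dvd_add (pr_r' 1 α ((L.shift g j (κ h)).mono (m := 2 * n) (by omega)))
    (ap_spec n (pr 1 α (QT.ac ρ (bq N g j).out⁻¹ (κ h))))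
  rwa [pr_sub_r, sub_add_sub_cancel, ← wt_pr L.cy α _ j.out, ← L.cy.ac_mul, mul_inv_cancel,
    L.cy.ac_one, ap, Int.cast_natCast] at this

theorem Lv.sum (L : Lv ρ N k θ) (hg : g ∈ N) (hn : n ≤ 2 * k)
    (a : Dv (2 + n) (Y ρ N θ ii g)) (b : Dv (2 + n) (Y ρ N θ 1 g)) :
    Dv n (csum GK N fun σ => (kc g (σ θ) * ((R2.cyc σ)⁻¹ : Z2ˣ)) • ρ σ) := by
  classical
  have gk : ∀ g, g ∈ GK ↔ qz (-1) g = 0 := fun g => (qz_eq_zero (rt_sq _)).symm
  let π := Ideal.Quotient.mk (Ideal.span {om ^ n})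
  have hπ : ∀ {u v}, π u = π v ↔ Dv n (u - v) := Ideal.Quotient.eq.trans Ideal.mem_span_singleton
  have e : ∀ σ, (kc g (σ θ) * ((R2.cyc σ)⁻¹ : Z2ˣ)) • ρ σ = kc g (σ θ) • KZ.wt ρ 1 σ := fun σ => by
    rw [KZ.wt, QT.ac, map_one, mul_one, mul_smul]
  simp only [e]
  rw [← sub_zero (csum ..), ← hπ, map_zero]
  refine (map_csum (relIndex_ne_zero L.on.2 GK) π.toAddMonoidHom _).trans ?_
  refine (csum_eq_sum (Finset.univ.filter fun j : GQ ⧸ N => j.out ∈ GK) (fun j => j.out)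
    (fun s _ t _ ht => hπ.2 ?_) (fun j hj => (Finset.mem_filter.1 hj).2)
    (fun i _ j _ h => i.out_eq'.symm.trans ((QuotientGroup.eq.2 h).trans j.out_eq'))
    fun s hs => ⟨s, Finset.mem_filter.2 ⟨Finset.mem_univ _, ?_⟩, ?_⟩).trans
    ((map_sum π _ _).symm.trans ((hπ.2 (dv_pow.1 (of_eq (a.add (b.mul_left ii)) ?_))).trans
      (map_zero π)))
  · rw [AlgEquiv.mul_apply, L.fix t ht, ← smul_sub]
    exact ((L.wt ht 1 s).smul _).mono hn
  · simpa using GK.mul_mem hs ((gk _).2 (L.le _ (out_mk (N := N) s)).1)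
  · simpa using N.inv_mem (out_mk (N := N) s)
  · rw [sub_zero, Finset.sum_filter, Y, Y, Finset.mul_sum, Finset.mul_sum, ← Finset.sum_add_distrib]
    refine Finset.sum_congr rfl fun j _ => ?_
    rw [bq_of L.on hg, ← mul_one ii, KZ.wt, KZ.wt, QT.ac_mul, cj, om_sq]
    split_ifs with c
    · rw [(gk _).1 c, cs_zero]
      simp only [smul_eq]
      ring
    · rw [(f2 _).resolve_left (mt (gk _).2 c), cs_one, star_ii]
      simp only [smul_eq]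
      ring

end KZ

open KZ MP_8b7eba_nt.CG in
theorem p_KZ (hBGK : S_BGK) (hBCH : S_BCH) (hKCX : S_KCX) (hGEN : S_GEN) (hLIN : S_LIN) (hLEV : S_LEV) (hQRT : S_QRT) (hTH : S_TH) (hUNIT : S_UNIT) :
    S_KZ := by
  intro D δ a κ S d E h0 _ hA hS hκ hO hZ ⟨hρ, hE⟩
  rw [Ort, ← hρ] at hO
  rw [← hρ] at hκ hZ
  have l0 : ∀ k, lv D k ≠ 0 := fun k => by simp [lv, h0]
  have l1 : ∀ k, lv D k = (2 ^ k * (16 * D) : ℤ) := fun k => by simp [lv]
  have L : ∀ k, Lv d.ρ (NM (lv D (k + 2))) k (th a (gen (lv D (k + 2)))) := fun k => by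
    have f := E.fix (2 ^ (k + 2)) (pow_ne_zero _ two_ne_zero) ⟨2 ^ k, by ring⟩
    have r := E.rho k
    rw [(hE k).1] at r
    rw [(hE k).1, (hE k).2] at f
    exact ⟨d.cy, (hLEV.2 _ (l0 _)).2.2.1 (by rw [l1, star_intCast]),
      fun g hg => ⟨(qz_eq_zero (rt_sq _)).2 hg.1, dv_two.2 (r g hg)⟩, f.1, f.2⟩
  have F : ∀ k, Fintype (GQ ⧸ NM (lv D (k + 2))) := fun k =>
    have := Basic.fi (L k).on.2
    Fintype.ofFinite _
  have hu : ∀ k (w : Pl), ¬ w.p ∣ 30 → w.p ∉ S →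
      w.I ≤ NM (lv D k) ∧ w.v (th a (gen (lv D k))) = 1 := fun k w p q => by
    have p2 : w.p ≠ 2 := fun d => p (by rw [d]; norm_num)
    have hp := Nat.prime_iff_prime_int.1 w.prime
    have p3 : ∀ m, ¬ (w.p : ℤ) ∣ 2 ^ m := fun m d => p ((Int.natCast_dvd_natCast.1
      (hp.dvd_of_dvd_pow d)).trans (by norm_num))
    have v1 : w.v (eK (lv D k)) = 1 := by
      rw [l1, map_intCast, Pl.v_int_eq_one, hp.dvd_mul, hp.dvd_mul]
      exact fun d => d.elim (p3 k) fun d => d.elim (p3 4) fun d => q (hS (Nat.mem_primeFactors.2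
        ⟨w.prime, Int.natCast_dvd.1 d, Int.natAbs_ne_zero.2 h0⟩))
    have g := (hGEN _ (l0 k)).1.1
    refine ⟨(hLEV.2 _ (l0 k)).2.2.2.2.2 w p2 v1, hUNIT a _ _ w hA.2.1 ?_ (fun e => ?_)
      ((g _).2 dvd_rfl) p2 v1⟩
    · refine (hA.2.1.cop k).mul_right (IsCoprime.mul_right (by convert hA.2.1.cop 4 using 1; norm_num) ?_)
      have := hA.2.2.2.map (Int.castRingHom ZI)
      rw [eq_intCast, eq_intCast, Zsqrtd.norm_eq_mul_conj] at this
      exact this.of_mul_left_left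
    · have := (Zsqrtd.intCast_dvd _ _).1 (l1 k ▸ (g 1).1 (by rw [e, smul_zero]))
      have := ((dvd_mul_right 16 D).mul_left _).trans this.1
      simp at this
  have key : ∀ α n, ∀ᶠ k in UF, ∀ g ∈ GK,
      Dv n (Y d.ρ (NM (lv D (k + 2))) (th a (gen (lv D (k + 2)))) α (cm d.z g)) := fun α => by
    obtain ⟨X, h1, h2⟩ := K.zu_lim (S := S) d.cy
      (x := fun k => Y d.ρ (NM (lv D (k + 2))) (th a (gen (lv D (k + 2)))) α) fun n =>
      (ev_ge n).mono fun k hk => ((L k).zu hKCX (hu _)).mono (by omega)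
    obtain ⟨e, v, h3⟩ := (hZ X h1 fun n => by
      obtain ⟨k, ⟨p, q⟩, r⟩ := (((h2 (2 * n)).and (ev_ge n)).and
        (UF_le ((tendsto_add_atTop_nat 2).eventually (hO α n)))).exists
      exact ((L k).triv hKCX q (hκ _) r).congr fun g _ h _ =>
        wp_congr al_one (zero_add _).ge (zero_add _).ge (p g) (dv_refl _)).2 rfl
    refine fun n => (h2 n).mono fun k p g hg => ?_
    have h4 := h3 (cm d.z g) trivial
    rw [bd, ac_of (eq_of_sub_eq_zero (eq_zero_of_dv fun m => ((L m).le _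
      ((hE m).1 ▸ E.ab _ _ d.zD.2 _ hg)).2.mono (by omega)))
      ((L 0).le _ ((hE 0).1 ▸ E.ab _ _ d.zD.2 _ hg)).1, sub_self,
      mul_eq_zero_iff_left (pow_ne_zero _ two_ne)] at h4
    simpa [h4] using (p (cm d.z g)).neg
  refine K.k0_of E (fun k c σ => kc c (σ (E.th (2 ^ (k + 2))))) (fun k g hg σ _ r hr => ?_)
    fun n => ?_
  · rw [(hE k).2] at hr ⊢
    have c : cm d.z g ∈ NM (lv D (k + 2)) := (hE k).1 ▸ E.ab _ _ d.zD.2 _ hg
    obtain ⟨p, q, -⟩ := hKCX.1 _ ((L k).n0 σ)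
    have r0 : rtn (σ (th a (gen (lv D (k + 2))))) k ≠ 0 := fun e =>
      (L k).n0 σ (by rw [← (p k).2, e, zero_pow (by positivity)])
    have f : cm d.z g (σ (th a (gen (lv D (k + 2))))) = σ (th a (gen (lv D (k + 2)))) := by
      simpa using congrArg σ ((L k).fix _ ((L k).on.1.conj_mem _ c σ⁻¹))
    rw [← div_mul_cancel₀ r r0, map_mul, q, f, a_EC.2.2.1 _ k 1 _ (by
      rw [div_pow, hr, (p k).2, div_self ((L k).n0 σ)]) (by simpa using (L k).cyc c), pow_one]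
    ring
  · filter_upwards [key ii (2 + n), key 1 (2 + n), ev_ge n] with k p q t g hg
    rw [(hE k).1, (hE k).2]
    exact (L k).sum ((hE k).1 ▸ E.ab _ _ d.zD.2 _ hg) (by omega) (p g hg) (q g hg)

end Pool.Agent.P.MP_8b7eba_nt.QT.CG
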