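import Pool.Agent.P.MP_8b7eba_nt.CG.TLEX
import Pool.Agent.P.MP_8b7eba_nt.CG.LVal

/-! Proof of LALG. -/

namespace Pool.Agent.P.MP_8b7eba_nt.QT.CG

open R2 SM Finset
open MP_9c97e9_nt (Pt pm Is)
open _root_.Pool.Agent.P.MP_8b7eba_nt.CG.L

theorem lx_aut : ∃ s : ZI →+* ZI, (∀ b, (s b : ℂ) = io (eK b)) ∧ (s = RingHom.id _ ∨
    s = starRingEnd _) := by
  have h : (io iK - Complex.I) * (io iK + Complex.I) = 0 := by
    have h1 : iK * iK = -1 := by simpa [iK, sq] using I_sq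
    have h2 := congrArg io h1
    rw [map_mul, map_neg, map_one] at h2
    linear_combination h2 - Complex.I_mul_I
  rcases mul_eq_zero.1 h with h | h
  · exact ⟨_, fun b => by simp [eK, GaussianInt.toComplex_def, sub_eq_zero.1 h], .inl rfl⟩
  · exact ⟨_, fun b => by
      simp [eK, GaussianInt.toComplex_def, eq_neg_of_add_eq_zero_left h, starRingEnd_apply],
      .inr rfl⟩

theorem lx_coord {Ω : ℂ} {L : PeriodPair} {u : ℂ →+ Pt (W 1) ℂ} {s : ZI →+* ZI}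
    (hL : ∀ x, x ∈ L.lattice ↔ ∃ α : ZI, Ω * α = x) (ss : ∀ b, s (s b) = b)
    (h1 : Function.Surjective u) (h2 : ∀ z, u z = 0 ↔ z ∈ L.lattice)
    (h3 : ∀ (b : ZI) (P : EE) (z : ℂ), pm (W 1) io P = u z → pm (W 1) io (b • P) = u (s b * z))
    {M : ZI} {Q : EE} (hM : M ≠ 0) (hQ : Gn M Q) : ∃ w, IsCoprime w (s M) ∧
      ∀ b : ZI, pm (W 1) io (b • Q) = u (Ω * (s b * w : ZI) / s M) := by
  obtain ⟨z, hz⟩ := h1 (pm (W 1) io Q)
  have s0 : s M ≠ 0 := fun h => hM (by rw [← ss M, h, map_zero])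
  have m0 := coe_ne s0
  obtain ⟨w, hw⟩ := (hL _).1 ((h2 _).1 ((h3 M Q z hz.symm).symm.trans (by
    rw [(hQ.1 M).2 dvd_rfl, map_zero])))
  have h4 : ∀ b : ZI, pm (W 1) io (b • Q) = u (Ω * (s b * w : ZI) / s M) := fun b => by
    rw [h3 b Q z hz.symm, map_mul GaussianInt.toComplex, mul_left_comm, hw]
    congr 1
    field_simp
  refine ⟨w, isCoprime_of_dvd _ _ (fun h => s0 h.2) ?_, h4⟩
  rintro g hg - ⟨e, rfl⟩ ⟨c, hc⟩
  have h5 : s c • Q = 0 := MP_9c97e9_nt.pm_injective io (by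
    rw [h4, map_zero, h2, hL, ss, show c * (g * e) = s M * e by rw [hc]; ring, map_mul]
    exact ⟨e, by field_simp⟩)
  have h6 := map_dvd s ((hQ.1 _).1 h5)
  rw [ss, hc] at h6
  rw [hc] at s0
  exact hg (isUnit_of_dvd_one ((mul_dvd_mul_iff_right (right_ne_zero_of_mul s0)).1 (by simpa)))

open Classical in
theorem lx_two (hLIN : S_LIN) {a : ZI} (ha : IsCoprime a 2) {T : Finset EE}
    (hT : ∀ Q, Q ∈ T ↔ a • Q = 0) (h : Om → Om) :
    ∑ Q ∈ T with Q ≠ 0, h (xc Q) = 2 * ∑ᶠ ξ ∈ XT a, h ξ := by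
  obtain ⟨-, -, -, l4, l5, -⟩ := hLIN
  have sp := CB.sp (D := 1) one_ne_zero
  rw [show XT a = ↑((T.filter (· ≠ 0)).image xc) by ext ξ; simp [XT, hT, and_comm],
    finsum_mem_coe_finset, sum_comp, mul_sum]
  refine sum_congr rfl fun ξ hξ => ?_
  obtain ⟨Q, hQ, rfl⟩ := mem_image.1 hξ
  rw [mem_filter, hT] at hQ
  have i1 := l4 Q hQ.2
  have h1 : Q ≠ -Q := fun e => hQ.2 (by
    obtain ⟨x, y, e'⟩ := ha
    rw [← one_smul ZI Q, ← e', add_smul, mul_smul, mul_smul, hQ.1, two_smul,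
      eq_neg_iff_add_eq_zero.1 e, smul_zero, smul_zero, add_zero])
  rw [show {Q' ∈ T.filter (· ≠ 0) | xc Q' = xc Q} = {Q, -Q} from ?_, card_pair h1, two_smul, two_mul]
  ext Q'
  simp only [mem_filter, hT, mem_insert, mem_singleton]
  constructor
  · rintro ⟨⟨-, h2⟩, h3⟩
    have i2 := l4 Q' h2
    rw [h3] at i2
    exact (sq_eq_sq_iff_eq_or_eq_neg.1 ((i2.eq sp).trans (i1.eq sp).symm)).imp
      (fun e => i2.unique sp (by rwa [e])) fun e => i2.unique sp (by rw [e]; exact i1.neg)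
  · rintro (rfl | rfl)
    · exact ⟨hQ, rfl⟩
    · exact ⟨⟨by rw [smul_neg, hQ.1, neg_zero], neg_ne_zero.2 hQ.2⟩, (l5 _ _ _ i1.neg).1⟩

theorem p_LALG (hBCH : S_BCH) (hUNI : S_UNI) (hGEN : S_GEN) (hLIN : S_LIN) (hLEV : S_LEV)
    (hTH : S_TH) (hCHI : S_CHI) : S_LALG := by
  classical
  intro D δ a f P hD hδ ⟨ap, a1, _, a3⟩ hP hf h0
  obtain ⟨χ, hχ⟩ := hCHI D hD
  obtain ⟨Ω₀, L, u, hΩ₀, hL₀, u1, u2, u3, u4⟩ := hUNI
  obtain ⟨s, hs, hs'⟩ := lx_aut
  have ss : ∀ b, s (s b) = b := by rcases hs' with rfl | rfl <;> simp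
  have sp : ∀ b : ZI, (⟨2, 2⟩ : ZI) ∣ b - 1 → (⟨2, 2⟩ : ZI) ∣ s b - 1 := by
    rcases hs' with rfl | rfl
    exacts [fun _ h => h, fun _ h => prim_star h]
  have sχ : ∀ b, star (χ (s b)) = s (star (χ b)) := by
    rcases hs' with rfl | rfl
    exacts [fun _ => rfl, fun b => congrArg star (hχ.2.2.2.2.2.1 b)]
  have sd : ∀ {x y}, s x ∣ s y → x ∣ y := fun h => by simpa [ss] using map_dvd s h
  simp only [← hs] at hL₀ u4
  set M : ZI := 16 * D with hMd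
  have hM : M ≠ 0 := by simpa [hMd] using hD
  have sM : s M = M := by simp [hMd, map_ofNat]
  have M2 : (⟨2, 2⟩ : ZI) ∣ M := Dvd.dvd.mul_right ⟨⟨4, -4⟩, by decide⟩ _
  have hL₁ : ∀ x, x ∈ L.lattice ↔ ∃ α : ZI, Ω₀ * α = x := fun x => (hL₀ x).trans
    ⟨fun ⟨b, e⟩ => ⟨s b, by rw [e, mul_comm]⟩, fun ⟨b, e⟩ => ⟨s b, by rw [ss, ← e, mul_comm]⟩⟩
  obtain ⟨w₀, c0, hw₀⟩ := lx_coord hL₁ ss u1 u2 u4 hM hP
  rw [sM] at c0 hw₀
  obtain ⟨e, he, hw⟩ := exists_prim (odd_norm ((lx_cop _ D).1 c0).of_mul_right_left)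
  have eu := (Zsqrtd.norm_eq_one_iff' (by norm_num) e).1 he
  have e0 := coe_ne eu.ne_zero
  have cw : IsCoprime (e * w₀) M := (isCoprime_mul_unit_left_left eu _ _).2 c0
  obtain ⟨Ω, hΩe⟩ : ∃ Ω, Ω₀ = Ω * e := ⟨Ω₀ / e, by field_simp⟩
  have hΩ : Ω ≠ 0 := left_ne_zero_of_mul (hΩe ▸ hΩ₀)
  have hL : ∀ x, x ∈ L.lattice ↔ ∃ α : ZI, Ω * α = x := fun x => (hL₁ x).trans
    ⟨fun ⟨b, h⟩ => ⟨e * b, by rw [map_mul, ← mul_assoc, ← hΩe, h]⟩, fun ⟨b, h⟩ =>
      (eu.mul_left_dvd.2 (one_dvd b)).imp fun c hc => by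
        rw [← h, hc, hΩe, mul_one, map_mul, mul_assoc]⟩
  have hw₁ : ∀ b : ZI, pm (W 1) io (b • P) = u (Ω * (s b * (e * w₀) : ZI) / M) := fun b => by
    rw [hw₀, hΩe]; simp only [map_mul]; congr 1; ring
  generalize e * w₀ = w at hw cw hw₁
  have ca : IsCoprime a M := (lx_cop _ D).2 ((cop_of_prime (D := 1) ap (by
    have := prim_norm ((lx_prim a).1 a1); omega) fun h => ap.not_isUnit (isUnit_of_dvd_one (by
      simpa using h))).of_mul_right_left.mul_right (by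
        have := cop_int.2 a3
        rw [Zsqrtd.norm_eq_mul_conj] at this
        exact this.of_mul_left_left))
  have csa : IsCoprime (s a) M := sM ▸ ca.map s
  obtain ⟨g1, -, g2, -⟩ := hGEN a ap.ne_zero
  obtain ⟨v, cv, hv⟩ := lx_coord hL ss u1 u2 u4 ap.ne_zero g1
  have pt : ∀ (Q : EE) z, Q ≠ 0 → pm (W 1) io Q = u z →
      L.weierstrassP z = io (xc Q) ∧ L.derivWeierstrassP z = io (yc Q) := fun Q z h1 h2 =>
    (u3 z fun h => h1 (MP_9c97e9_nt.pm_injective io (by rw [h2, (u2 z).2 h, map_zero]))).inj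
      (h2 ▸ (hLIN.2.2.2.1 Q h1).map io)
  have cv' := cv
  choose! t ht using g1.2
  have hT : Reps (fun _ => True) (s a) g2.toFinset fun Q => s (t Q) * v := by
    refine ⟨fun α _ => ?_, fun Q h Q' h' k => ?_⟩
    · obtain ⟨x, y, k⟩ := cv
      have h1 : a • s (α * x) • gen a = 0 := by rw [smul_comm, (g1.1 a).2 dvd_rfl, smul_zero]
      obtain ⟨c, hc⟩ := (g1.1 _).1 (show (s (α * x) - t _) • gen a = 0 by
        rw [sub_smul, ← ht _ h1, sub_self])
      have h2 := congrArg s hc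
      rw [map_sub, ss, map_mul s a] at h2
      exact ⟨_, g2.mem_toFinset.2 h1, α * y + s c * v, by linear_combination -α * k + v * h2⟩
    · rw [← sub_mul, ← map_sub] at k
      have h1 := (g1.1 _).2 (sd (cv.symm.dvd_of_dvd_mul_right k))
      rwa [sub_smul, ← ht Q (by simpa using h), ← ht Q' (by simpa using h'), sub_eq_zero] at h1
  obtain ⟨-, -, -, v1, v2, -⟩ := hLEV.2 M hM
  choose! b b1 b2 b3 using v1
  have MP := (hP.1 M).2 dvd_rfl
  have inj : ∀ q q' : GK ⧸ (NM M).subgroupOf GK, M ∣ b q.out - b q'.out → q = q' := fun q q' k => by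
    rw [← q.out_eq', ← q'.out_eq', QuotientGroup.eq, Subgroup.mem_subgroupOf]
    refine ⟨Subtype.property _, fun Q hQ => ?_⟩
    obtain ⟨c, hc⟩ := k
    rw [Subgroup.coe_mul, ga_mul, b3 _ q'.out.2 Q hQ, show b q'.out • Q = b q.out • Q by
      rw [eq_add_of_sub_eq hc, add_smul, mul_comm, mul_smul, hQ, smul_zero, zero_add],
      ← b3 _ q.out.2 Q hQ, ← ga_mul, Subgroup.coe_inv, inv_mul_cancel, ga_one]
  have : Finite (GK ⧸ (NM M).subgroupOf GK) := by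
    have := (hGEN M hM).2.2.1.to_subtype
    refine .of_injective (β := {Q : EE | M • Q = 0}) (fun q => ⟨b q.out • P, by
      rw [Set.mem_ofPred, smul_comm, MP, smul_zero]⟩) fun q q' k => inj q q' ((hP.1 _).1 ?_)
    rw [sub_smul, sub_eq_zero]
    exact congrArg Subtype.val k
  have := Fintype.ofFinite (GK ⧸ (NM M).subgroupOf GK)
  have pr : ∀ q : GK ⧸ (NM M).subgroupOf GK, (⟨2, 2⟩ : ZI) ∣ s (b q.out) * w - 1 := fun q => by
    rw [show s (b q.out) * w - 1 = (s (b q.out) - 1) * w + (w - 1) by ring]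
    exact ((sp _ ((lx_prim _).1 (b1 _ q.out.2))).mul_right _).add hw
  have hη := hχ.hcl
  obtain ⟨f', hf', lim⟩ := exists_L hη hM fun α β => by rw [mul_assoc, ← mul_assoc, hχ.2.1]
  rw [← isL_unique hf hf', h0, mul_zero] at lim
  have nz : ∀ x, IsCoprime x M → (star (χ x) : ZI) ≠ 0 := fun x h =>
    star_ne_zero.2 (hχ.unit h).ne_zero
  have key := wp_van hΩ hL (m := M) (a := s a) (k := (star (χ (s a)) : ZI)) (R := univ)
    (r := fun q : GK ⧸ (NM M).subgroupOf GK => s (b q.out) * w)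
    (fun α => by split_ifs; exacts [hη.norm_le α, by simp]) hM (fun α β => by
      rw [hχ.2.1, add_sub_right_comm]
      exact if_congr (dvd_add_left (M2.mul_right _)) rfl rfl) (prim_lim hη lim)
    ⟨fun α hα => ?_, fun q _ q' _ k => inj q q' (sd (by
      rw [sM, map_sub]; exact cw.symm.dvd_of_dvd_mul_right (by rwa [sub_mul])))⟩
    (fun h => ap.ne_zero (by rw [← ss a, h, map_zero])) csa (coe_ne (nz _ csa)) (fun α => by
      rw [hχ.1, star_mul', map_mul, mul_ite, mul_zero,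
        show s a * α - 1 = (s a - 1) * α + (α - 1) by ring]
      exact if_congr (dvd_add_right ((sp _ ((lx_prim _).1 a1)).mul_right _)) rfl rfl) hT
    fun q _ h => absurd (norm_dvd (by simpa using (M2.trans h).sub (pr q) :
      (⟨2, 2⟩ : ZI) ∣ 1)) (by decide)
  swap
  · have h1 : (⟨2, 2⟩ : ZI) ∣ α - 1 := by_contra fun h => hα (if_neg h)
    have h2 : IsCoprime α M := by_contra fun h => hα (by simp [hχ.zero h])
    obtain ⟨x, y, k⟩ := cw
    obtain ⟨g, hg, h3⟩ := v2 (s (α * x)) ((lx_prim _).2 (sp _ (by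
      rw [show α * x - 1 = (α - 1) * x - (w - 1) * x - M * y by linear_combination k]
      exact ((h1.mul_right _).sub (hw.mul_right _)).sub (M2.mul_right _))))
      (sM ▸ (h2.mul_left ⟨w, y, by linear_combination k⟩).map s)
    obtain ⟨n, hn⟩ := QuotientGroup.mk_out_eq_mul ((NM M).subgroupOf GK) ⟨g, hg⟩
    generalize ((⟨g, hg⟩ : GK) : GK ⧸ (NM M).subgroupOf GK) = q at hn
    obtain ⟨c, hc⟩ := (hP.1 _).1 (show (s (α * x) - b q.out) • P = 0 by
      rw [sub_smul, ← b3 _ q.out.2 P MP, hn, Subgroup.coe_mul, ga_mul,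
        show ga ((n : GK) : GQ) P = P from n.2.2 P MP, h3 P MP, sub_self])
    have h4 := congrArg s hc
    rw [map_sub, ss, map_mul s M, sM] at h4
    exact ⟨q, mem_univ _, α * y + s c * w, by linear_combination -α * k + w * h4⟩
  refine io.injective (mul_left_cancel₀ (mul_ne_zero (coe_ne (nz w cw)) (two_ne_zero (α := ℂ))) ?_)
  rw [map_zero, mul_zero, csum, finsum_eq_sum_of_fintype, map_sum, mul_sum, ← mul_zero (-io δ),
    ← key, mul_sum]
  refine sum_congr rfl fun q _ => ?_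
  have h1 : b q.out • P ≠ 0 := fun h => absurd (norm_dvd (by
    simpa using (M2.trans ((hP.1 _).1 h)).sub ((lx_prim _).1 (b1 _ q.out.2)) :
      (⟨2, 2⟩ : ZI) ∣ 1)) (by decide)
  obtain ⟨p1, p2⟩ := pt _ _ h1 (hw₁ _)
  have h2 := congrArg io (lx_two hLIN ((lx_cop _ D).1 ca).of_mul_right_left (T := g2.toFinset)
    (by simp) fun ξ => yc (b q.out • P) / (xc (b q.out • P) - ξ))
  rw [map_sum, map_mul, map_ofNat] at h2
  rw [if_pos (pr q), p1, p2, filter_congr (q := (· ≠ 0)) fun Q hQ => not_congr ⟨fun h => by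
      rw [ht Q (by simpa using hQ), g1.1]; exact sd (cv'.symm.dvd_of_dvd_mul_right h),
      fun h => (map_dvd s ((g1.1 _).1 ((ht Q (by simpa using hQ)).symm.trans h))).mul_right _⟩,
    sum_congr rfl (g := fun Q => io (yc (b q.out • P) / (xc (b q.out • P) - xc Q))) fun Q hQ => by
      rw [mem_filter] at hQ
      rw [map_div₀, map_sub, (pt Q _ hQ.2 (by rw [← hv, ← ht Q (by simpa using hQ.1)])).1],
    h2, map_mul, ((hTH a a1).2 P).2.2.2 _ q.out.2 |>.2, ((hBCH D δ hD hδ).2.1 _).2.2.1,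
    ← hχ.2.2.2.2.2.2.2 δ hδ _ q.out.2 _ (b3 _ q.out.2), b3 _ q.out.2 P MP, hχ.1, star_mul', sχ, dl]
  simp only [map_mul, map_neg, hs]
  ring

end Pool.Agent.P.MP_8b7eba_nt.QT.CG
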