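import Pool.Agent.P.MP_8b7eba_nt.CG.A2b

/-! Proof of LEV. -/

namespace Pool.Agent.P.MP_8b7eba_nt.QT.CG

open R2 SM Polynomial Filter Module
open MP_9c97e9_nt (Pt pm Is)

namespace A2

variable {M : ZI} {g h : GQ}

theorem lev_ar (hG : S_GEN) (hL : S_LIN) (hM : M ≠ 0) (hg : g ∈ GK) : ∃ b, Ar M g b := by
  obtain ⟨g1, g2⟩ := (hG M hM).1
  obtain ⟨b, hb⟩ := g2 _ (ga_tors hL hg ((g1 M).2 dvd_rfl))
  exact ⟨b, ar_of_gen hG hL hM hg hb⟩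

theorem lev_prim (hG : S_GEN) (hL : S_LIN) (hM : M ≠ 0) (hg : g ∈ GK) :
    ∃ b, Prim b ∧ IsCoprime b M ∧ Ar M g b := by
  obtain ⟨b, hb⟩ := lev_ar hG hL (mul_ne_zero hM (pow_ne_zero 3 pz_ne)) hg
  obtain ⟨c, hc⟩ := lev_ar hG hL hM (GK.inv_mem hg)
  have h1 := ar_mono hb (dvd_mul_right _ _)
  refine ⟨b, prim_of_ar hG hL hg (ar_mono hb (dvd_mul_left _ _)), ?_, h1⟩
  have g1 := (hG M hM).1.1
  have h2 := ar_mul hL hg h1 hc _ ((g1 M).2 dvd_rfl)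
  rw [mul_inv_cancel, ga_one] at h2
  obtain ⟨d, hd⟩ := (g1 (1 - b * c)).1 (by rw [sub_smul, one_smul, ← h2, sub_self])
  exact ⟨c, d, by linear_combination -hd⟩

theorem lev_onto (hL : S_LIN) (hF : S_FRB) {N : ZI} (h3 : pz ∣ N) {b : ZI}
    (hb : IsCoprime b N) : ∃ g ∈ GK, ∃ u, IsUnit u ∧ Ar N g (u * b) := by
  induction b using UniqueFactorizationMonoid.induction_on_prime with
  | h₁ => exact absurd (isUnit_of_dvd_unit h3 (isCoprime_zero_left.1 hb)) not_unit_pz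
  | h₂ u hu =>
    obtain ⟨v, rfl⟩ := hu
    exact ⟨1, GK.one_mem, _, v⁻¹.isUnit, fun P _ => by rw [ga_one, Units.inv_mul, one_smul]⟩
  | h₃ a l _ hl ih =>
    obtain ⟨g, g1, u, g2, g3⟩ := ih hb.of_mul_left_right
    obtain ⟨v, v1, v2⟩ := exists_prim (b := l) fun e =>
      not_unit_pz (hb.of_mul_left_left.isUnit_of_dvd' e h3)
    have b1 : Prime (v * l) := (associated_unit_mul_left l v v1).symm.prime hl
    obtain ⟨w, f, φ, w1, w2, w3⟩ := hF.2.1 _ b1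
    obtain ⟨k1, k2⟩ := hF.1 _ w f φ b1 v2 w1 w2 w3
    refine ⟨φ * g, GK.mul_mem k1 g1, v * u, v1.mul g2, ?_⟩
    rw [show v * u * (l * a) = v * l * (u * a) by ring]
    exact ar_mul hL k1 (k2 N ((isCoprime_mul_unit_left_left v1 _ _).2 hb.of_mul_left_left)) g3

end A2

open A2

theorem p_LEV (hBGK : S_BGK) (hGEN : S_GEN) (hLIN : S_LIN) (hXP : S_XP) (hFRB : S_FRB) :
    S_LEV := by
  refine ⟨le_antisymm (fun g hg => hg.1) fun g hg => ⟨hg, fun P => fix3 hGEN hLIN hg⟩,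
    fun M hM => ?_⟩
  have ho : IsOpen (NM M : Set GQ) := by
    obtain ⟨N, n1, n2⟩ := CB.exists_ON one_ne_zero (gen M)
    refine open_of_le (n1.inf hBGK.1).2 fun g hg => ⟨hg.2, fun P hP => ?_⟩
    rw [ar_of_gen (b := 1) hGEN hLIN hM hg.2 ((n2 g hg.1).trans (one_smul _ _).symm) P hP, one_smul]
  refine ⟨ho, fun g hg h hh => ⟨GK.mul_mem (GK.mul_mem (GK.mul_mem hg hh) (GK.inv_mem hg))
    (GK.inv_mem hh), fun P hP => ?_⟩, fun hs => ⟨⟨fun n hn g => ⟨hBGK.1.1.conj_mem n hn.1 g,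
    fun P hP => ?_⟩⟩, ho⟩, fun g hg => lev_prim hGEN hLIN hM hg, fun b hb hc => ?_,
    fun w hp hv g hg => ?_⟩
  · obtain ⟨b, hb⟩ := lev_ar hGEN hLIN hM hg
    obtain ⟨c, hc⟩ := lev_ar hGEN hLIN hM hh
    have t := ga_tors hLIN (GK.inv_mem (GK.mul_mem hh hg)) hP
    rw [mul_assoc, ← mul_inv_rev, ga_mul, ar_mul hLIN hg hb hc _ t, mul_comm b,
      ← ar_mul hLIN hh hc hb _ t, ga_inv]
  · rw [ga_mul, ga_mul, hn.2, ga_inv]
    by_cases e : g⁻¹ ∈ GK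
    · exact ga_tors hLIN e hP
    · rw [← star_star M, ← hLIN.2.1 _ e, dvd_tors hP hs, map_zero]
  · obtain ⟨g, g1, u, g2, g3⟩ := lev_onto hLIN hFRB
      ((dvd_pow_self pz three_ne_zero).mul_left M) (hc.mul_right (prim_cop hb))
    obtain rfl := prim_unit g2
      (prim_cancel hb (prim_of_ar hGEN hLIN g1 (ar_mono g3 (dvd_mul_left _ _))))
    exact ⟨g, g1, one_mul b ▸ ar_mono g3 (dvd_mul_right _ _)⟩
  · have h1 := hBGK.2.2.2.2.2.2.2.2.2.2.2.2.2.2.2.1 w hp hg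
    exact ⟨h1, fun P hP => sub_eq_zero.1 (inj hGEN hXP hp hv (inert hp hg P)
      (by rw [smul_sub, ga_tors hLIN h1 hP, hP, sub_zero]))⟩

end Pool.Agent.P.MP_8b7eba_nt.QT.CG
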