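import Pool.Agent.P.MP_8b7eba_nt.CG.If
import Pool.Agent.P.MP_8b7eba_nt.CG.BasC
import Pool.Agent.P.MP_8b7eba_nt.CG.LFun

/-! Proof of LEX. -/

namespace Pool.Agent.P.MP_8b7eba_nt.QT.CG

open _root_.Pool.Agent.P.MP_8b7eba_nt.CG.L

theorem lx_cop (α : ZI) (D : ℤ) : IsCoprime α (16 * D) ↔ IsCoprime α (2 * D) := by
  rw [IsCoprime.mul_right_iff, IsCoprime.mul_right_iff, show (16 : ZI) = 2 ^ 4 by norm_num,
    IsCoprime.pow_right_iff four_pos]

theorem lx_prim (b : ZI) : Prim b ↔ (⟨2, 2⟩ : ZI) ∣ b - 1 :=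
  (show Associated (pz ^ 3) ⟨2, 2⟩ from associated_of_dvd_dvd ⟨⟨0, -1⟩, by decide⟩
    ⟨⟨0, 1⟩, by decide⟩).dvd_iff_dvd_left

theorem IsChi.hcl {D : ℤ} {χ : ZI → ZI} (h : IsChi D χ) : IsHC D fun b => star (χ b) := by
  have h3 := fun b => h.zero (b := b)
  have h4 := fun b => h.four (b := b)
  obtain ⟨h1, -, -, -, h5, -, h7, -⟩ := h
  have st : ∀ u : ZI, u.norm = 1 → u * star u = 1 := fun u hu => by
    rw [← Zsqrtd.norm_eq_mul_conj, hu, Int.cast_one]
  refine ⟨fun α β => by rw [h1, star_mul'], fun u hu => ?_,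
    fun α hα => by rw [h3 α (mt (lx_cop α D).1 hα), star_zero],
    fun α hα => by rw [← star_pow, h4 α ((lx_cop α D).2 hα), star_one], fun π hp hπ hd => ?_⟩
  · have := congrArg star (h5 u ((Zsqrtd.norm_eq_one_iff' (by norm_num) u).1 hu))
    rw [star_mul', star_one] at this
    linear_combination u * this - star (χ u) * st u hu
  · have h0 := prim_norm hπ
    have hc := (lx_cop π D).2 (cop_of_prime hp (by omega) hd)
    have h8 := (h7 π hp ((lx_prim π).2 hπ) hc).mul_left (-star (χ π))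
    rw [show (π.norm.natAbs - 1) / 4 = π.norm.natAbs / 4 by
      have := GaussianInt.norm_nonneg π
      omega] at h8
    convert h8 using 1
    linear_combination (D : ZI) ^ (π.norm.natAbs / 4) * st _
      (MP_8b7eba_nt.CG.L.norm_one (h4 π hc))

theorem p_LEX (hCHI : S_CHI) : S_LEX := fun D hD => by
  obtain ⟨χ, h⟩ := hCHI D hD
  obtain ⟨f, hf, -⟩ := exists_L h.hcl (m := 16 * D) (by simpa using hD) fun α β => by rw [h.2.1]
  exact ⟨f, hf⟩

end Pool.Agent.P.MP_8b7eba_nt.QT.CG
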