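import Pool.Agent.P.MP_8b7eba_nt.CG.If

/-! Proof of LIN. -/

namespace Pool.Agent.P.MP_8b7eba_nt.QT.CG

open R2 SM Polynomial Filter Module
open MP_9c97e9_nt (Pt pm Is)

theorem lin_iz : eK iz = iK := by simp [eK, iz, Zsqrtd.lift_apply_apply]

theorem lin_siz : eK (star iz) = -iK := by simp [eK, iz, Zsqrtd.lift_apply_apply]

theorem lin_eO (b : ZI) : eO b = b.re + b.im * ii := by simp [eO, Zsqrtd.lift_apply_apply]

theorem lin_smul (P : EE) : iz • P = cmi P := by simp [smul_def, iz]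

theorem lin_is {P : EE} {x η : Om} (h : Is P x η) : xc P = x ∧ yc P = η := by
  obtain ⟨y, h1, rfl, rfl⟩ := h
  exact ⟨rfl, by simp [yc, W]⟩

theorem lin_comm {g : GQ} (h : g iK = iK) (P : EE) : ga g (cmi P) = cmi (ga g P) := by
  rcases MP_9c97e9_nt.zero_or_is P with rfl | ⟨x, η, hP⟩
  · simp
  refine ((is_cmi hP).map (g : Om →+* Om)).unique (CB.sp one_ne_zero) ?_
  rw [map_neg, map_mul, show (g : Om →+* Om) iK = iK from h]
  exact is_cmi (hP.map (g : Om →+* Om))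

theorem lin_anti {g : GQ} (h : g iK = -iK) (P : EE) : ga g (cmi P) = -cmi (ga g P) := by
  rcases MP_9c97e9_nt.zero_or_is P with rfl | ⟨x, η, hP⟩
  · simp
  refine ((is_cmi hP).map (g : Om →+* Om)).unique (CB.sp one_ne_zero) ?_
  rw [map_neg, map_mul, show (g : Om →+* Om) iK = -iK from h, neg_mul]
  exact (is_cmi (hP.map (g : Om →+* Om))).neg

theorem lin_ii (n : ℕ) (a : O) : e1 n (ii * a) = cmi (e1 n a) := by
  rcases MP_9c97e9_nt.zero_or_is (e1 n a) with h | ⟨x, η, h⟩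
  · rw [h, map_zero]
    exact (tm1.1.ker n _).2 (((tm1.1.ker n a).1 h).mul_left _)
  refine (tm1.2 n a x η h).unique (CB.sp one_ne_zero) ?_
  convert is_cmi h using 1
  simp [iK]

theorem lin_e1 (n : ℕ) (b : ZI) (a : O) : e1 n (eO b * a) = b • e1 n a := by
  rw [smul_def, ← lin_ii, ← map_zsmul, ← map_zsmul, ← map_add, lin_eO]
  congr 1
  simp only [zsmul_eq_mul]
  ring

theorem lin_two (n : ℕ) (P : EE) : (2 : ZI) ^ n • P = 2 ^ n • P := by
  rw [← Nat.cast_smul_eq_nsmul ZI]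
  simp

theorem p_LIN (hBGK : S_BGK) :
    S_LIN := by
  obtain ⟨-, -, -, hq, -, h1, h2, -⟩ := hBGK
  have hg : ∀ g ∈ GK, ∀ n a, ga g (e1 n a) = e1 n (r1 g * a) := fun g hg n a => by
    have := tm1.1.gal g n a
    rwa [ac, cj, (hq g).1 hg, cs_zero] at this
  refine ⟨fun g hg b P => ?_, fun g hg b P => ?_, fun g P => ?_, fun P hP => ?_,
    fun P x η h => lin_is h, fun P => ?_, lin_e1, hg, fun g hg' n b => ⟨fun h => ?_, fun h P hP => ?_⟩⟩
  · have h := h1 g hg iz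
    rw [lin_iz] at h
    rw [smul_def, smul_def, map_add, map_zsmul, map_zsmul, lin_comm h]
  · have h := h2 g hg iz
    rw [lin_iz, lin_siz] at h
    rw [smul_def, smul_def, map_add, map_zsmul, map_zsmul, lin_anti h]
    simp
  · rcases MP_9c97e9_nt.zero_or_is P with rfl | ⟨x, η, hP⟩
    · rw [map_zero]
      exact ⟨(map_zero g).symm, (map_zero g).symm⟩
    · rw [(lin_is hP).1, (lin_is hP).2]
      exact lin_is (hP.map (g : Om →+* Om))
  · obtain ⟨x, η, h⟩ := (MP_9c97e9_nt.zero_or_is P).resolve_left hP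
    rwa [(lin_is h).1, (lin_is h).2]
  · rw [lin_smul]
    rcases MP_9c97e9_nt.zero_or_is P with rfl | ⟨x, η, hP⟩
    · rw [map_zero]
      exact ⟨neg_zero.symm, (mul_zero _).symm⟩
    · rw [(lin_is hP).1, (lin_is hP).2]
      exact lin_is (is_cmi hP)
  · have h0 : (2 : ZI) ^ n • e1 n 1 = 0 := by
      rw [← lin_e1, tm1.1.ker, map_pow, map_ofNat]
      exact dv_two.2 (dvd_mul_right _ _)
    have h3 := h _ h0
    rw [hg g hg', ← lin_e1, ← sub_eq_zero, ← map_sub, tm1.1.ker, mul_one, mul_one] at h3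
    exact h3
  · rw [lin_two] at hP
    obtain ⟨a, rfl⟩ := tm1.1.surj n P hP
    rw [hg g hg', ← lin_e1, ← sub_eq_zero, ← map_sub, tm1.1.ker, ← sub_mul]
    exact h.mul_right a

end Pool.Agent.P.MP_8b7eba_nt.QT.CG
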