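import Pool.Agent.P.MP_8b7eba_nt.CG.IfE

/-! Proof of LOG. -/

namespace Pool.Agent.P.MP_8b7eba_nt.QT.CG

open R2 SM Polynomial Filter Module
open scoped NNReal
open MP_9c97e9_nt (Pt pm Is)

theorem log_key (k : ℕ) (u a : O) (h : u - 1 = 2 ^ (k + 1) * a) (j : ℕ) :
    ∃ b : O, u ^ 2 ^ j - 1 = 2 ^ j * (2 ^ (k + 1) * a + 2 ^ (2 * k + 1) * b) := by
  induction j with
  | zero => exact ⟨0, by simpa using h⟩
  | succ j ih =>
    obtain ⟨b, hb⟩ := ih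
    refine ⟨b + 2 ^ j * (a + 2 ^ k * b) ^ 2, ?_⟩
    rw [pow_succ 2 j, pow_mul, eq_add_of_sub_eq hb]
    ring

theorem p_LOG :
    S_LOG := by
  intro N
  have hL : ∀ u : O, ∃ L : O, ∀ l : O, u ^ 2 ^ N - 1 = 2 ^ N * l → L = l := by
    intro u
    by_cases h : ∃ l : O, u ^ 2 ^ N - 1 = 2 ^ N * l
    · obtain ⟨l, hl⟩ := h
      exact ⟨l, fun l' h' => mul_left_cancel₀ (pow_ne_zero N two_ne) (hl.symm.trans h')⟩
    · exact ⟨0, fun l h' => (h ⟨l, h'⟩).elim⟩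
  choose L hL using hL
  refine ⟨L, fun u v hu hv => ?_, fun m u hm hu => ?_⟩
  · obtain ⟨a, ha⟩ := (dv_two (n := 0 + 1)).1 hu
    obtain ⟨c, hc⟩ := (dv_two (n := 0 + 1)).1 hv
    obtain ⟨b, hb⟩ := log_key 0 u a ha N
    obtain ⟨d, hd⟩ := log_key 0 v c hc N
    rw [← hL u _ hb] at hb
    rw [← hL v _ hd] at hd
    rw [hL (u * v) (L u + L v + 2 ^ N * (L u * L v)) (by
      rw [mul_pow, eq_add_of_sub_eq hb, eq_add_of_sub_eq hd]; ring)]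
    exact dv_two.2 ⟨L u * L v, by ring⟩
  · obtain ⟨k, rfl⟩ : ∃ k, m = k + 1 := ⟨m - 1, by omega⟩
    obtain ⟨a, ha⟩ := dv_two.1 hu
    obtain ⟨b, hb⟩ := log_key k u a ha N
    rw [hL u _ hb, ha, show 2 * (k + 1) - 1 = 2 * k + 1 by omega]
    exact ⟨dv_two.2 ⟨a + 2 ^ k * b, by ring⟩, dv_two.2 ⟨b, by ring⟩⟩

end Pool.Agent.P.MP_8b7eba_nt.QT.CG
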