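import Pool.Agent.P.MP_8b7eba_nt.CG.If

/-! Proof of NRM. -/

namespace Pool.Agent.P.MP_8b7eba_nt.QT.CG

open R2 SM Polynomial Filter Module
open MP_9c97e9_nt (Pt pm Is)

theorem nrm_nd {a M : ZI} (ha : Prim a) (hM : pz ^ 3 ∣ M) : ¬ M ∣ a := by
  intro h
  have h1 : pz ^ 3 ∣ 1 := by
    have := dvd_sub (hM.trans h) ha
    rwa [sub_sub_cancel] at this
  have h2 : IsUnit pz := isUnit_of_dvd_one ((dvd_pow_self pz (by norm_num)).trans h1)
  have h3 := (Zsqrtd.norm_eq_one_iff' (by norm_num) pz).2 h2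
  simp [Zsqrtd.norm_def, pz] at h3

theorem nrm_unit {u : ZI} (hu : IsUnit u) : u = 1 ∨ u = iz ∨ u = iz * iz ∨ u = iz * (iz * iz) := by
  have h := (Zsqrtd.norm_eq_one_iff' (by norm_num) u).2 hu
  obtain ⟨x, y⟩ := u
  simp only [Zsqrtd.norm_def] at h
  have h1 : -1 ≤ x := by nlinarith [mul_self_nonneg y, mul_self_nonneg (x + 1)]
  have h2 : x ≤ 1 := by nlinarith [mul_self_nonneg y, mul_self_nonneg (x - 1)]
  have h3 : -1 ≤ y := by nlinarith [mul_self_nonneg x, mul_self_nonneg (y + 1)]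
  have h4 : y ≤ 1 := by nlinarith [mul_self_nonneg x, mul_self_nonneg (y - 1)]
  interval_cases x <;> interval_cases y <;> simp [iz, Zsqrtd.ext_iff] at h ⊢

theorem nrm_th (hTH : S_TH) {a u : ZI} (ha : Prim a) (hu : IsUnit u) (Q : EE) :
    th a (u • Q) = th a Q := by
  have h : ∀ R, th a (iz • R) = th a R := fun R => ((hTH a ha).2 R).2.1
  rcases nrm_unit hu with rfl | rfl | rfl | rfl
  · rw [one_smul]
  · exact h Q
  · rw [mul_smul, h, h]
  · rw [mul_smul, mul_smul, h, h, h]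

theorem nrm_ne (hLEV : S_LEV) {M l s t0 : ZI} {P : EE} (hMl : M * l ≠ 0) (hl : Prime l)
    (hs : s * l = 1 + M * t0) (hP : Gn (M * l) P) {g : GQ} (hg : g ∈ GK) :
    ga g P - P ≠ (M * t0) • P := by
  intro e
  have hz : (M * l) • P = 0 := (hP.1 _).2 dvd_rfl
  obtain ⟨b, _, h2, h3⟩ := (hLEV.2 _ hMl).2.2.2.1 g hg
  rw [h3 P hz] at e
  have h4 : (b - s * l) • P = 0 := by
    rw [hs, sub_smul, add_smul, one_smul, ← e, add_sub_cancel, sub_self]
  have h5 : l ∣ b := by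
    have := dvd_add ((dvd_mul_left l M).trans ((hP.1 _).1 h4)) (dvd_mul_left l s)
    rwa [sub_add_cancel] at this
  exact hl.not_isUnit (h2.isUnit_of_dvd' h5 (dvd_mul_left l M))

theorem nrm_inj (hLIN : S_LIN) {N : ZI} {P : EE} (hP : Gn N P) {g h : GQ} (hg : g ∈ GK)
    (hh : h ∈ GK) (e : ga g P = ga h P) : g⁻¹ * h ∈ NM N := by
  have hm := GK.mul_mem (GK.inv_mem hg) hh
  refine mem_NM.2 ⟨hm, fun Q hQ => ?_⟩
  obtain ⟨c, rfl⟩ := hP.2 Q hQ
  rw [hLIN.1 _ hm, ga_mul, ← e, ← ga_mul, inv_mul_cancel, ga_one]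

theorem nrm_sur (hLEV : S_LEV) {M l s t0 : ZI} {P : EE} (hM : pz ^ 3 ∣ M) (hMl : M * l ≠ 0)
    (hl : Prime l) (hs : s * l = 1 + M * t0) (hlM : ¬ l ∣ M) (hP : Gn (M * l) P) {T : EE}
    (hT0 : l • T = 0) (hT : T ≠ (M * t0) • P) : ∃ g ∈ NM M, ga g P = P + T := by
  have hz : (M * l) • P = 0 := (hP.1 _).2 dvd_rfl
  have hl0 : l ≠ 0 := right_ne_zero_of_mul hMl
  obtain ⟨c, rfl⟩ := hP.2 T (by rw [mul_smul, hT0, smul_zero])
  have h1 : M * l ∣ l * c := (hP.1 _).1 (by rw [mul_smul, hT0])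
  rw [mul_comm M l] at h1
  obtain ⟨t, rfl⟩ := (mul_dvd_mul_iff_left hl0).1 h1
  have h2 : ¬ l ∣ 1 + M * t := by
    intro hd
    apply hT
    have h3 : l ∣ M * (t - t0) := by
      have e : M * (t - t0) = 1 + M * t - s * l := by rw [hs]; ring
      rw [e]
      exact dvd_sub hd (dvd_mul_left l s)
    have h4 := mul_dvd_mul_left M ((hl.dvd_or_dvd h3).resolve_left hlM)
    have h5 := (hP.1 _).2 h4
    rwa [mul_sub, sub_smul, sub_eq_zero] at h5
  have h3 : IsCoprime (1 + M * t) (M * l) :=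
    (isCoprime_one_left.add_mul_left_left t).mul_right
      (hl.irreducible.coprime_iff_not_dvd.2 h2).symm
  obtain ⟨g, hg, hb⟩ := (hLEV.2 _ hMl).2.2.2.2.1 (1 + M * t)
    (by rw [Prim, add_sub_cancel_left]; exact hM.mul_right t) h3
  refine ⟨g, mem_NM.2 ⟨hg, fun Q hQ => ?_⟩, by rw [hb P hz, add_smul, one_smul]⟩
  rw [hb Q (by rw [mul_comm, mul_smul, hQ, smul_zero]), add_smul, one_smul, mul_comm, mul_smul,
    hQ, smul_zero, add_zero]

theorem nrm_bij (hLIN : S_LIN) (hLEV : S_LEV) {M l s t0 : ZI} {P : EE} (hM : pz ^ 3 ∣ M)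
    (hMl : M * l ≠ 0) (hl : Prime l) (hlM : ¬ l ∣ M) (hs : s * l = 1 + M * t0) (hP : Gn (M * l) P)
    (F : NM M ⧸ (NM (M * l)).subgroupOf (NM M) → {T : EE // l • T = 0})
    (hF : ∀ q, (F q).1 = ga (q.out : NM M) P - P) (T0 : {T : EE // l • T = 0})
    (h0 : T0.1 = (M * t0) • P) : Set.BijOn F Set.univ {T0}ᶜ := by
  have hz : (M * l) • P = 0 := (hP.1 _).2 dvd_rfl
  refine ⟨fun q _ hq => ?_, fun q _ q' _ e => ?_, fun T hT => ?_⟩
  · apply nrm_ne hLEV hMl hl hs hP (mem_NM.1 q.out.2).1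
    rw [← hF, ← h0, Set.mem_singleton_iff.1 hq]
  · have e1 : ga (q.out : NM M) P = ga (q'.out : NM M) P := by
      have e2 := hF q
      rw [e, hF q'] at e2
      exact (sub_left_inj.1 e2).symm
    have e3 := nrm_inj hLIN hP (mem_NM.1 q.out.2).1 (mem_NM.1 q'.out.2).1 e1
    rw [← q.out_eq, ← q'.out_eq]
    exact QuotientGroup.eq.2 (Subgroup.mem_subgroupOf.2 e3)
  · obtain ⟨g, hg, hb⟩ := nrm_sur hLEV hM hMl hl hs hlM hP T.2
      (fun e => hT (Set.mem_singleton_iff.2 (Subtype.ext (e.trans h0.symm))))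
    refine ⟨QuotientGroup.mk ⟨g, hg⟩, Set.mem_univ _, Subtype.ext ?_⟩
    obtain ⟨k, hk⟩ := QuotientGroup.mk_out_eq_mul ((NM (M * l)).subgroupOf (NM M)) ⟨g, hg⟩
    have h4 := (mem_NM.1 (Subgroup.mem_subgroupOf.1 k.2)).2 P hz
    rw [hF, hk, Subgroup.coe_mul, ga_mul, h4, hb, add_sub_cancel_left]

theorem p_NRM (hGEN : S_GEN) (hLIN : S_LIN) (hLEV : S_LEV) (hFIB : S_FIB) (hTH : S_TH) (hDIST : S_DIST) :
    S_NRM := by
  intro a M l ha hM hMl hal
  have hM0 : M ≠ 0 := left_ne_zero_of_mul hMl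
  have hl0 : l ≠ 0 := right_ne_zero_of_mul hMl
  have hG := (hGEN M hM0).1
  have hlP := (hGEN M hM0).2.1 l hl0
  have hP := (hGEN _ hMl).1
  set P := gen (M * l) with hPd
  have hz : M • gen M = 0 := (hG.1 M).2 dvd_rfl
  have aG : a • gen M ≠ 0 := fun h => nrm_nd ha hM ((hG.1 a).1 h)
  have hT : ∀ g ∈ GK, ∀ Q, g (th a Q) = th a (ga g Q) := fun g hg Q =>
    (((hTH a ha).2 Q).2.2.2 g hg).1
  have hD : ∏ᶠ R : {R : EE // l • R = 0}, th a (P + R) = th a (gen M) := by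
    rw [hDIST a l P ha hal hl0 (by rw [mul_smul, hlP]; exact aG), hlP]
  have hn : nrm (NM M) (NM (M * l)) (th a P) =
      ∏ᶠ q : NM M ⧸ (NM (M * l)).subgroupOf (NM M), th a (ga (q.out : NM M) P) :=
    finprod_congr fun q => hT _ q.out.2.1 P
  refine ⟨fun σ hσ => by rw [hT σ hσ.1, hσ.2 _ hz], (((hTH a ha).2 _).1 aG).1, fun h => ?_,
    fun φ hφ b hl hlM hb hAr => ?_⟩
  · rw [hn, (hFIB M l P hM hMl h hP).2 Om (th a), hD]
  obtain ⟨s, t, hst⟩ := hl.irreducible.coprime_iff_not_dvd.2 hlM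
  have hs : s * l = 1 + M * (-t) := by rw [← hst]; ring
  have hA : ∀ q : NM M ⧸ (NM (M * l)).subgroupOf (NM M), l • (ga (q.out : NM M) P - P) = 0 := by
    intro q
    rw [smul_sub, ← hLIN.1 _ q.out.2.1, hlP, q.out.2.2 _ hz, sub_self]
  have h0 : l • (M * -t) • P = 0 := by
    rw [← mul_smul]
    exact (hP.1 _).2 ⟨-t, by ring⟩
  have : Finite {T : EE // l • T = 0} := (hGEN l hl0).2.2.1
  have h1 := finprod_mem_eq_of_bijOn (f := fun q => th a (ga (q.out : NM M) P))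
    (g := fun T => th a (P + T.1)) _ (nrm_bij hLIN hLEV hM hMl hl hlM hs hP (fun q => ⟨_, hA q⟩)
      (fun _ => rfl) ⟨_, h0⟩ rfl) (fun q _ => by simp only [add_sub_cancel])
  rw [finprod_mem_univ] at h1
  have h2 := finprod_mem_insert (fun T : {T : EE // l • T = 0} => th a (P + T.1))
    (a := ⟨(M * -t) • P, h0⟩) (s := {⟨(M * -t) • P, h0⟩}ᶜ) (by simp) (Set.toFinite _)
  rw [Set.insert_eq, Set.union_compl_self, finprod_mem_univ, hD, ← h1, ← hn] at h2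
  obtain ⟨u, hu⟩ := hb
  have h3 : ga φ ((u * s : ZI) • gen M) = gen M := by
    rw [hAr _ (by rw [smul_comm, hz, smul_zero]), ← mul_smul, ← mul_assoc, hu, mul_comm l s, hs,
      add_smul, one_smul, mul_comm, mul_smul, hz, smul_zero, add_zero]
  have h4 : ga φ⁻¹ (gen M) = (u : ZI) • s • gen M := by
    conv_lhs => rw [← h3]
    rw [← ga_mul, inv_mul_cancel, ga_one, mul_smul]
  have h5 : P + (M * -t) • P = s • gen M := by
    rw [← hlP, ← mul_smul, hs, add_smul, one_smul]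
  rw [hT _ (GK.inv_mem hφ), h4, nrm_th hTH ha u.isUnit, ← h5, mul_comm]
  exact h2.symm

end Pool.Agent.P.MP_8b7eba_nt.QT.CG
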