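import Pool.Agent.P.MP_8b7eba_nt.CG.A2c

/-! Proof of QRT. -/

namespace Pool.Agent.P.MP_8b7eba_nt.QT.CG

open R2 SM Polynomial Filter Module
open MP_9c97e9_nt (Pt pm Is)

namespace A2

variable {β : ZI} {g : GQ} {δ : Om}

theorem div_inj {a x y : Om} (ha : a ≠ 0) (h : a / x = a / y) : x = y :=
  inv_injective (mul_left_cancel₀ ha (by rwa [div_eq_mul_inv, div_eq_mul_inv] at h))

theorem qb (hB : S_BGK) (hG : S_GEN) (hL : S_LIN) (hX : S_XP) (hβ : Prim β) (hδ : δ ^ 4 = eK β)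
    (hg : g ∈ NM β) (h16 : ∀ z : Om, z ^ 16 = 1 → g z = z) : g δ = δ := by
  classical
  obtain ⟨S, k, s1, s2, -, h⟩ := xp hG hX hβ
  obtain ⟨c0, a0, -, b0⟩ := h 0 (.inl rfl)
  obtain ⟨c1, a1, -, b1⟩ := h 1 (.inr (.inl rfl))
  obtain ⟨c2, a2, -, b2⟩ := h (-1) (.inr (.inr rfl))
  obtain ⟨T, t1, t2⟩ := orb' hβ s1
  have e1 := t2 (fun R => (xc R / yc R) ^ 2) fun R => by
    rw [(hL.2.2.2.2.2.1 R).1, (hL.2.2.2.2.2.1 R).2, div_pow, mul_pow, iK_sq, neg_sq, div_pow,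
      neg_one_mul, div_neg]
  have e2 : ∏ R ∈ S.erase 0, (xc R / yc R) ^ 2 * 4 * (xc R - 1) * (xc R + 1) =
      ∏ R ∈ S.erase 0, xc R := Finset.prod_congr rfl fun R hR => by
    rw [Finset.mem_erase, s1] at hR
    have h1 := is_xc hR.1
    have h2 := (h1.two_ne sp1).1 fun e => hR.1 (cop_zero (prim_cop2 hβ) hR.2 (by rwa [two_smul]))
    rw [div_pow]
    field_simp
    linear_combination -xc R * eqn h1
  rw [Finset.prod_mul_distrib, Finset.prod_mul_distrib, Finset.prod_mul_distrib, e1,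
    Finset.prod_const, Finset.card_erase_of_mem ((s1 0).2 (smul_zero _)), s2, Finset.prod_pow,
    Nat.add_sub_cancel] at e2
  simp only [Int.cast_zero, Int.cast_one, Int.cast_neg, sub_zero, sub_neg_eq_add] at a0 a1 a2 b0 b1 b2
  have fA : g (∏ R ∈ T, xc R / yc R) = ∏ R ∈ T, xc R / yc R := by
    rw [map_prod]
    refine Finset.prod_congr rfl fun R hR => ?_
    rw [map_div₀, ← (hL.2.2.1 g R).1, ← (hL.2.2.1 g R).2, hg.2 R ((s1 R).1 (t1 hR))]
  generalize ∏ R ∈ T, xc R / yc R = A at e2 fA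
  generalize ∏ R ∈ S.erase 0, xc R = X at e2 b0
  generalize ∏ R ∈ S.erase 0, (xc R - 1) = Y at e2 b1
  generalize ∏ R ∈ S.erase 0, (xc R + 1) = Z at e2 b2
  have a3 : c0 ^ 2 = 1 := by rw [a0, pow_mul]; norm_num
  rw [show (3 * 1 ^ 2 - 1 : Om) = 2 by norm_num] at a1
  rw [show (3 * (-1) ^ 2 - 1 : Om) = 2 by norm_num] at a2
  have e3 : A ^ 8 * 4 ^ (4 * k) * c1 * c2 = c0 * eK β ^ 2 := by
    rw [← b0, ← b1, ← b2, ← e2]
    ring
  have e4 : eK pz ^ 16 = 2 ^ 8 := by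
    rw [← map_pow, show pz ^ 16 = 2 ^ 8 by decide, map_pow, map_ofNat]
  have e5 : (A * eK pz ^ (3 * k)) ^ 16 = δ ^ 16 := by
    have h1 := congrArg (· ^ 2) e3
    simp only [mul_pow, a1, a2, a3] at h1
    rw [mul_pow, ← pow_mul, mul_comm (3 * k), pow_mul, e4, show δ ^ 16 = (δ ^ 4) ^ 4 by ring, hδ]
    rw [show (4 : Om) = 2 ^ 2 by norm_num, pow_right_comm _ 2 (4 * k), pow_mul'] at h1
    rw [pow_right_comm, pow_mul']
    generalize (2 : Om) ^ k = t at h1 ⊢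
    linear_combination h1
  have n0 : δ ≠ 0 := fun e => by
    rw [← hδ, e] at b0
    simp [← b0] at a3
  have e6 := h16 (A * eK pz ^ (3 * k) / δ) (by rw [div_pow, e5, div_self (pow_ne_zero _ n0)])
  rw [map_div₀, map_mul, map_pow, fA, hB.2.2.2.2.2.1 g hg.1] at e6
  exact div_inj (fun e => pow_ne_zero 16 n0 (by rw [← e5, e]; norm_num)) e6

theorem theta (hG : S_GEN) (hL : S_LIN) (hδ : δ ^ 4 = 2) (hg : g ∈ NM 8) : g δ = δ := by
  obtain ⟨η, hη⟩ := exists_root (4 * ((1 + δ ^ 2) ^ 3 - (1 + δ ^ 2))) two_ne_zero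
  obtain ⟨P, hP⟩ := exists_is hη
  have n0 : η ≠ 0 := fun e => by
    have : (64 : Om) = 0 := by
      rw [e] at hη
      linear_combination (16 * δ ^ 2 - 24) * hη + (256 - (24 - 16 * δ ^ 2) * (4 * δ ^ 2 + 12)) * hδ
    norm_num at this
  have h1 := is_xc ((hP.two_ne sp1).2 n0)
  have h2 : xc (P + P) = 1 := mul_right_cancel₀ (pow_ne_zero 2 n0) (by
    linear_combination dbl hP h1 - hη + (δ ^ 4 - 2) * hδ)
  have h3 : yc (P + P) = 0 := by simpa [h2] using eqn h1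
  rw [h2, h3] at h1
  have h4 := h1.add_eq_zero sp1 (by simpa using h1)
  obtain ⟨Q, rfl⟩ := (hG 2 two_ne_zero).2.2.2.2 P
  have h5 : ga g Q = Q := hg.2 Q (by rw [← h4]; module)
  rw [two_smul] at hP
  have h6 := is_xc (P := Q) fun e => hP.ne_zero (by rw [e, add_zero])
  have n1 := (h6.two_ne sp1).1 hP.ne_zero
  have n2 : δ ≠ 0 := fun e => by simp [e] at hδ
  have h7 := (hL.2.2.1 g Q).1
  have h8 := (hL.2.2.1 g Q).2
  rw [h5] at h7 h8
  have h9 : (δ * yc Q) ^ 2 = (xc Q ^ 2 - 2 * xc Q - 1) ^ 2 := by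
    linear_combination dbl h6 hP - eqn h6
  refine mul_right_cancel₀ n1 ?_
  have h10 : g (xc Q ^ 2 - 2 * xc Q - 1) = xc Q ^ 2 - 2 * xc Q - 1 := by
    rw [map_sub, map_sub, map_mul, map_pow, map_ofNat, map_one, ← h7]
  nth_rewrite 1 [h8]
  rw [← map_mul]
  rcases sq_eq_sq_iff_eq_or_eq_neg.1 h9 with e | e <;> rw [e]
  · exact h10
  · rw [map_neg, h10]

theorem mu16 (hC : S_BCH) (hL : S_LIN) (hg : g ∈ NM 16) {z : Om} (hz : z ^ 16 = 1) : g z = z := by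
  have h1 := (hL.2.2.2.2.2.2.2.2 g hg.1 4 1).1 fun P hP => by
    rw [one_smul]
    exact hg.2 P (by rwa [show (16 : ZI) = 2 ^ 4 by norm_num])
  have h2 := ((hC 1 1 one_ne_zero (by simp)).2.2.1 g hg.1 1).2.2.2
  rw [show rho 1 g = r1 g by simp [rho, kd, ke]] at h2
  rw [map_one] at h1
  have h3 := (h1.mul_right (star (r1 g))).add h1.star
  rw [sub_mul, h2, star_sub, star_one, one_mul, sub_add_sub_cancel, dv_two_iff] at h3
  have := a_EC.2.2.1 g 4 1 z hz (by simpa [QuadraticAlgebra.re_one] using h3.1)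
  rwa [pow_one] at this

theorem nm_mono {M N : ZI} (h : M ∣ N) : NM N ≤ NM M :=
  fun _ hg => ⟨hg.1, fun P hP => hg.2 P (dvd_tors hP h)⟩

end A2

open A2

theorem p_QRT (hBGK : S_BGK) (hBCH : S_BCH) (hGEN : S_GEN) (hLIN : S_LIN) (hXP : S_XP) :
    S_QRT := by
  intro D δ h0 hδ g hg
  have h16 : ∀ z : Om, z ^ 16 = 1 → g z = z := fun z =>
    mu16 hBCH hLIN (nm_mono (dvd_mul_right _ _) hg)
  obtain ⟨a, m, hm, e⟩ := Nat.exists_eq_pow_mul_and_not_dvd (Int.natAbs_ne_zero.2 h0) 2 (by norm_num)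
  obtain ⟨n, n1, n2⟩ : ∃ n : ℤ, n % 4 = 1 ∧ D ^ 2 = (2 ^ a * n) ^ 2 := by
    rw [← Int.natAbs_sq, e]
    push_cast
    rcases (by omega : m % 4 = 1 ∨ m % 4 = 3) with h | h
    · exact ⟨m, by omega, rfl⟩
    · exact ⟨-m, by omega, by ring⟩
  have n3 : n ∣ D := by
    rcases sq_eq_sq_iff_eq_or_eq_neg.1 n2 with h | h <;> rw [h]
    exacts [dvd_mul_left _ _, (dvd_mul_left _ _).neg_right]
  obtain ⟨θ, hθ⟩ := exists_root (2 : Om) four_ne_zero
  obtain ⟨γ, hγ⟩ := exists_root (n : Om) four_ne_zero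
  have h1 := theta hGEN hLIN hθ (nm_mono (Dvd.dvd.mul_right ⟨2, by norm_num⟩ _) hg)
  have h2 := qb hBGK hGEN hLIN hXP (prim_int n1) (hγ.trans (map_intCast eK n).symm)
    (nm_mono ((Int.cast_dvd_cast n D n3).mul_left _) hg) h16
  have h3 : (θ ^ a * γ) ^ 8 = δ ^ 8 := by
    have h4 := congrArg (Int.cast (R := Om)) n2
    push_cast at h4
    rw [← hδ, ← hγ, ← hθ] at h4
    linear_combination -h4
  have n0 : δ ≠ 0 := fun e => h0 (by simpa [e, eq_comm] using hδ)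
  have h5 := h16 (θ ^ a * γ / δ) (by
    rw [show 16 = 8 * 2 from rfl, pow_mul, div_pow, h3, div_self (pow_ne_zero _ n0), one_pow])
  rw [map_div₀, map_mul, map_pow, h1, h2] at h5
  exact div_inj (fun e => pow_ne_zero 8 n0 (by rw [← h3, e]; norm_num)) h5

end Pool.Agent.P.MP_8b7eba_nt.QT.CG
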