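import Pool.Agent.P.MP_8b7eba_nt.CG.A2c

/-! Proof of RAM. -/

namespace Pool.Agent.P.MP_8b7eba_nt.QT.CG

open R2 SM Polynomial Filter Module
open MP_9c97e9_nt (Pt pm Is)

open A2

theorem p_RAM (hBGK : S_BGK) (hGEN : S_GEN) (hLIN : S_LIN) (hXP : S_XP) (hLEV : S_LEV) :
    S_RAM := by
  intro β b w t hl hβ hn hv ht hs hA c hc
  have hp := odd_of_prim hβ hv
  have tK := hBGK.2.2.2.2.2.2.2.2.2.2.2.2.2.2.2.1 w hp ht
  have fK := hBGK.2.2.2.2.2.1
  obtain ⟨S, k, c0, s1, -, -, c1, -, c3⟩ := xp0 hGEN hXP hβ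
  obtain ⟨T, t1, t2⟩ := orb' hβ s1
  rw [t2 xc fun R => (hLIN.2.2.2.2.2.1 R).1] at c3
  obtain ⟨B, hB⟩ : ∃ B, B = ∏ R ∈ T, xc R := ⟨_, rfl⟩
  rw [← hB] at c3
  have n0 : B ^ 4 * eK β ^ 2 ≠ 0 := fun e => by simp [← c3, e] at c1
  have n1 : B ≠ 0 := fun e => n0 (by simp [e])
  have n2 : eK β ≠ 0 := fun e => n0 (by simp [e])
  obtain ⟨s, hs2⟩ := exists_root (w.p : Om) two_ne_zero
  have n3 : s ≠ 0 := fun e => w.prime.ne_zero (by simpa [e, eq_comm] using hs2)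
  have e1 := eK_star β
  rw [hn, Int.cast_natCast, ← hs2] at e1
  have e2 : (s * B) ^ 2 ^ 2 = c0 * eK (star β) ^ 2 := by
    linear_combination eK (star β) ^ 2 * c3 - B ^ 4 * (s ^ 2 + eK β * eK (star β)) * e1
  have e3 : w.v (s * B) = 1 := by
    have := congrArg w.v e2
    rw [map_pow, map_mul w.v c0, v_one c1, map_pow, v_star hl hβ hn hv, one_pow, one_mul] at this
    exact (pow_eq_one_iff_of_nonneg zero_le (by norm_num)).1 this
  have e4 : Fix GK ((s * B) ^ 2 ^ 2) := fun g hg => by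
    rw [e2, map_mul, map_pow, fK g hg, root4 (by linear_combination (c0 ^ 2 + 1) * c1) (gk_iK hg)]
  have e5 := (a_TAME w w.D w.p hp w.loc_D (by
    rw [inf_of_le_left w.I_le_D]
    exact (a_RES w w.D w.loc_D).2.2.2.2.1)).2.1 t ht 2 _ e3
    (e4.mono ((Subgroup.zpowers_le).2 tK))
  rw [map_mul, hs s hs2] at e5
  have e6 : t B = -B := mul_left_cancel₀ n3 (by linear_combination -e5)
  obtain ⟨r, q, e7⟩ := prim_cop hβ
  have d1 : β ∣ c * q * pz ^ 3 + r * β - c := ⟨r - c * r, by linear_combination c * e7⟩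
  have d2 : Prim (c * q * pz ^ 3 + r * β) := ⟨c * q - q, by linear_combination e7⟩
  generalize c * q * pz ^ 3 + r * β = a at d1 d2
  have d3 : β ∣ a * a - b := by
    have := dvd_sub (d1.mul_right (a + c)) hc
    rwa [show (a - c) * (a + c) - (b - c ^ 2) = a * a - b by ring] at this
  have g1 := (hGEN β hl.ne_zero).1.1
  have d4 : ¬ β ∣ a := fun e => by
    have h1 := hA _ ((g1 β).2 dvd_rfl)
    rw [(g1 b).2 (by simpa using dvd_sub (e.mul_right a) d3)] at h1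
    have h2 := inv_ga t (gen β)
    rw [h1, map_zero] at h2
    exact hl.not_isUnit (isUnit_of_dvd_one ((g1 1).1 (by rw [← h2, smul_zero])))
  obtain ⟨g, gK, hg⟩ := (hLEV.2 β hl.ne_zero).2.2.2.2.1 a d2 (hl.coprime_iff_not_dvd.2 d4).symm
  have e8 : (g * g) B = t B := by
    rw [hB, map_prod, map_prod]
    refine Finset.prod_congr rfl fun R hR => ?_
    have h1 := (s1 R).1 (t1 hR)
    have h2 := dvd_tors h1 d3
    rw [sub_smul, sub_eq_zero] at h2
    rw [← (hLIN.2.2.1 _ R).1, ← (hLIN.2.2.1 _ R).1, ar_mul hLIN gK hg hg R h1, hA R h1, h2]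
  have e9 := root4 (z := B ^ 2 * eK β) (by
    linear_combination (B ^ 4 * eK β ^ 2 + c0) * c3 + c1) (gk_iK gK)
  rw [map_mul, fK g gK, mul_left_inj' n2, map_pow] at e9
  have e10 : (g * g) B = B := by
    change g (g B) = B
    rcases sq_eq_sq_iff_eq_or_eq_neg.1 e9 with e | e <;> simp [e]
  exact n1 (by linear_combination (1 / 2) * (e6 - e10 + e8))

end Pool.Agent.P.MP_8b7eba_nt.QT.CG
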