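import Pool.Agent.P.MP_8b7eba_nt.CG.IfE

/-! Proof of RT. -/

namespace Pool.Agent.P.MP_8b7eba_nt.QT.CG

open R2 SM Polynomial Filter Module
open scoped NNReal
open MP_9c97e9_nt (Pt pm Is)

namespace TRT

theorem uniq {K : Type*} [Field K] (v : Valuation K ℝ≥0) {y z : K} (h : y ^ 2 = z ^ 2)
    (hy : v (y - 1) < v 2) (hz : v (z - 1) < v 2) : y = z := by
  rcases sq_eq_sq_iff_eq_or_eq_neg.1 h with h | h
  · exact h
  · have := v.map_add_lt hy hz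
    rw [h, show -z - 1 + (z - 1) = -(2 : K) by ring, v.map_neg] at this
    exact absurd this (lt_irrefl _)

theorem gen {K : Type*} [Field K] (v : Valuation K ℝ≥0) (v2 : v 2 = 2⁻¹)
    (hs : ∀ x, v (x - 1) < v 4 → ∃ y, x = y ^ 2 ∧ v (y - 1) < v 2 ∧ v (y - 1) * v 2 = v (x - 1))
    (i : ℕ) : ∃ f : K → K, ∀ x, v (x - 1) * 2 ^ (i + 1) < 1 →
      f x ^ 2 ^ i = x ∧ ∀ g : K →+* K, (∀ z, v (g z) = v z) → g (f x) = f (g x) := by
  have v4 : v 4 = (2 ^ 2)⁻¹ := by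
    rw [show (4 : K) = 2 ^ 2 by norm_num, map_pow, v2, inv_pow]
  choose! s h1 h2 h3 using hs
  induction i with
  | zero => exact ⟨id, fun x _ => ⟨by simp, fun _ _ => rfl⟩⟩
  | succ i ih =>
    obtain ⟨f, hf⟩ := ih
    refine ⟨fun x => f (s x), fun x hx => ?_⟩
    have hx4 : v (x - 1) < v 4 := by
      rw [v4, ← one_mul (2 ^ 2 : ℝ≥0)⁻¹, lt_mul_inv_iff₀ (by positivity)]
      refine lt_of_le_of_lt ?_ hx
      exact mul_le_mul_right (pow_le_pow_right₀ one_le_two (by omega)) _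
    have hy : v (s x - 1) * 2 ^ (i + 1) < 1 := by
      rw [← h3 x hx4, v2, pow_succ' _ (i + 1), mul_assoc, inv_mul_cancel_left₀ two_ne_zero] at hx
      exact hx
    refine ⟨by rw [pow_succ, pow_mul, (hf _ hy).1, ← h1 x hx4], fun g hg => ?_⟩
    have e : ∀ z, v (g z - 1) = v (z - 1) := fun z => by rw [← hg (z - 1), map_sub g, map_one g]
    have hg4 : v (g x - 1) < v 4 := (e x).trans_lt hx4
    show g (f (s x)) = f (s (g x))
    rw [(hf _ hy).2 g hg]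
    congr 1
    exact uniq v (by rw [← map_pow, ← h1 x hx4, ← h1 _ hg4]) ((e _).trans_lt (h2 x hx4)) (h2 _ hg4)

end TRT

theorem p_RT (hBGK : S_BGK) :
    S_RT := by
  intro i
  have hp : w2.p = 2 := hBGK.2.2.2.2.2.2.2.2.2.2.2.1
  obtain ⟨f, hf⟩ := TRT.gen w2.v (Pl.v_two' hp) (fun x hx => by
    obtain ⟨y, -, h⟩ := (a_HENS w2 ⊥ bot_le).1 x (fun σ hσ => by
      rw [Subgroup.mem_bot.1 hσ]; rfl) hx
    exact ⟨y, h⟩) i
  exact ⟨f, fun x hx => ⟨(hf x hx).1, fun g hg => (hf x hx).2 (g : Om →+* Om) (Pl.mem_D.1 hg)⟩⟩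

end Pool.Agent.P.MP_8b7eba_nt.QT.CG
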