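import Pool.Agent.P.MP_8b7eba_nt.CG.IfE

/-! Proof of TAY. -/

namespace Pool.Agent.P.MP_8b7eba_nt.QT.CG

open R2 SM Polynomial Filter Module
open scoped NNReal
open MP_9c97e9_nt (Pt pm Is)

namespace TAY

/-- points near the origin -/
noncomputable def F : Filter EE := comap (fun Q => w2.v (xc Q)) atTop

theorem ev {p : EE → Prop} : (∀ᶠ Q in F, p Q) ↔ ∃ C : ℝ≥0, ∀ Q, C ≤ w2.v (xc Q) → p Q := by
  simp only [F, eventually_comap, eventually_atTop]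
  exact ⟨fun ⟨C, h⟩ => ⟨C, fun Q hQ => h _ hQ Q rfl⟩,
    fun ⟨C, h⟩ => ⟨C, fun b hb Q e => h Q (e ▸ hb)⟩⟩

theorem big (c : ℝ≥0) : ∀ᶠ Q in F, c < w2.v (xc Q) :=
  ev.2 ⟨c + 1, fun _ h => (lt_add_one c).trans_le h⟩

/-- bounded functions -/
def Bd (g : EE → Om) : Prop := ∃ C : ℝ≥0, ∀ᶠ Q in F, w2.v (g Q) ≤ C

theorem Bd.const (c : Om) : Bd fun _ => c := ⟨_, .of_forall fun _ => le_rfl⟩

theorem Bd.add {f g : EE → Om} (hf : Bd f) (hg : Bd g) : Bd fun Q => f Q + g Q := by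
  obtain ⟨a, ha⟩ := hf
  obtain ⟨b, hb⟩ := hg
  exact ⟨max a b, (ha.and hb).mono fun Q h => (w2.v.map_add _ _).trans (max_le_max h.1 h.2)⟩

theorem Bd.mul {f g : EE → Om} (hf : Bd f) (hg : Bd g) : Bd fun Q => f Q * g Q := by
  obtain ⟨a, ha⟩ := hf
  obtain ⟨b, hb⟩ := hg
  exact ⟨a * b, (ha.and hb).mono fun Q h => (map_mul _ _ _).trans_le (mul_le_mul' h.1 h.2)⟩

theorem Bd.sub {f g : EE → Om} (hf : Bd f) (hg : Bd g) : Bd fun Q => f Q - g Q := by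
  simpa [sub_eq_add_neg] using hf.add ((Bd.const (-1)).mul hg)

theorem e2 (hL : S_LIN) {Q : EE} (h : Q ≠ 0) : yc Q ^ 2 = 4 * (xc Q ^ 3 - xc Q) := by
  simpa using CA.eqn (CB.sp one_ne_zero) (hL.2.2.2.1 Q h)

theorem ne0 {Q : EE} (h : 1 < w2.v (xc Q)) : Q ≠ 0 := by
  rintro rfl
  have : xc (0 : EE) = 0 := rfl
  rw [this, map_zero] at h
  exact absurd h (by simp)

theorem vsq {X : Om} (h : 1 < w2.v X) :
    w2.v (X ^ 2 - 1) = w2.v X ^ 2 ∧ w2.v (X ^ 2 + 1) = w2.v X ^ 2 := by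
  have : w2.v 1 < w2.v (X ^ 2) := by
    rw [map_pow, map_one]
    exact one_lt_pow₀ h two_ne_zero
  rw [Valuation.map_sub_eq_of_lt_left _ this, Valuation.map_add_eq_of_lt_left _ this, map_pow]
  exact ⟨rfl, rfl⟩

theorem yne (hL : S_LIN) {Q : EE} (h : 1 < w2.v (xc Q)) :
    xc Q ≠ 0 ∧ xc Q ^ 2 - 1 ≠ 0 ∧ yc Q ≠ 0 := by
  have h0 : 0 < w2.v (xc Q) := zero_lt_one.trans h
  have h1 : xc Q ≠ 0 := fun e => by simp [e] at h0
  have h2 : xc Q ^ 2 - 1 ≠ 0 := fun e => by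
    have := (vsq h).1
    rw [e, map_zero] at this
    exact (pow_pos h0 2).ne this
  refine ⟨h1, h2, fun e => mul_ne_zero h1 h2 ?_⟩
  have := e2 hL (ne0 h)
  rw [e] at this
  linear_combination -this / 4

theorem tsq (hL : S_LIN) {Q : EE} (h : 1 < w2.v (xc Q)) :
    tt Q ^ 2 * (xc Q ^ 2 - 1) = xc Q ∧ w2.v (tt Q) ^ 2 * w2.v (xc Q) = 1 := by
  obtain ⟨h1, h2, h3⟩ := yne hL h
  have e : tt Q ^ 2 * (xc Q ^ 2 - 1) = xc Q := by
    rw [tt, div_pow, div_mul_eq_mul_div, div_eq_iff (pow_ne_zero 2 h3), e2 hL (ne0 h)]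
    ring
  refine ⟨e, mul_right_cancel₀ (zero_lt_one.trans h).ne' ?_⟩
  have := congrArg w2.v e
  rw [map_mul, map_pow, (vsq h).1] at this
  rw [one_mul, mul_assoc, ← sq, this]

theorem small (hL : S_LIN) {g : EE → Om} (hg : Bd g) : ∀ᶠ Q in F, w2.v (tt Q * g Q) < 1 := by
  obtain ⟨C, hC⟩ := hg
  filter_upwards [hC, big 1, big (C ^ 2)] with Q h1 h2 h3
  refine lt_of_pow_lt_pow_left₀ 2 zero_le ?_
  refine lt_of_mul_lt_mul_right ?_ (zero_le (a := w2.v (xc Q)))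
  rw [map_mul, mul_pow, mul_right_comm, (tsq hL h2).2, one_mul, one_pow, one_mul]
  exact (pow_le_pow_left' h1 2).trans_lt h3

theorem bt (hL : S_LIN) : Bd tt :=
  ⟨1, (small hL (Bd.const 1)).mono fun Q h => by simpa using h.le⟩

theorem bs : Bd fun Q => (xc Q)⁻¹ :=
  ⟨1, (big 1).mono fun Q h => by rw [map_inv₀]; exact inv_le_one_of_one_le₀ h.le⟩

/-- expansions to the first order -/
def T (d : Om) (f : EE → Om) : Prop :=
  ∃ g, Bd g ∧ ∀ᶠ Q in F, f Q = 1 + tt Q * d + tt Q ^ 2 * g Q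

theorem T.mul (hL : S_LIN) {d d' : Om} {f f' : EE → Om} (h : T d f) (h' : T d' f') :
    T (d + d') fun Q => f Q * f' Q := by
  obtain ⟨g, a, b⟩ := h
  obtain ⟨g', a', b'⟩ := h'
  refine ⟨fun Q => g Q + g' Q + d * d' + tt Q * (d * g' Q + d' * g Q + tt Q * (g Q * g' Q)),
    ((a.add a').add (.const _)).add ((bt hL).mul ((((Bd.const _).mul a').add
      ((Bd.const _).mul a)).add ((bt hL).mul (a.mul a')))), ?_⟩
  filter_upwards [b, b'] with Q e e'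
  rw [e, e']
  ring

theorem T.prod (hL : S_LIN) {ι : Type} (s : Finset ι) {d : ι → Om} {f : ι → EE → Om}
    (h : ∀ j ∈ s, T (d j) (f j)) : T (∑ j ∈ s, d j) fun Q => ∏ j ∈ s, f j Q := by
  classical
  induction s using Finset.induction_on with
  | empty => exact ⟨fun _ => 0, .const _, .of_forall fun Q => by simp⟩
  | insert j s hj ih =>
    simp only [Finset.sum_insert hj, Finset.prod_insert hj]
    exact (h j (Finset.mem_insert_self _ _)).mul hL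
      (ih fun i hi => h i (Finset.mem_insert_of_mem hi))

theorem T.one (hL : S_LIN) {d : Om} {f : EE → Om} (h : T d f) : ∀ᶠ Q in F, w2.v (f Q) = 1 := by
  obtain ⟨g, a, b⟩ := h
  filter_upwards [b, small hL ((Bd.const d).add ((bt hL).mul a))] with Q e h
  rw [e, show 1 + tt Q * d + tt Q ^ 2 * g Q = 1 + tt Q * (d + tt Q * g Q) by ring]
  exact w2.v.map_one_add_of_lt h

theorem T.inv (hL : S_LIN) {d : Om} {f : EE → Om} (h : T d f) : T (-d) fun Q => (f Q)⁻¹ := by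
  have h1 := h.one hL
  obtain ⟨g, a, b⟩ := h
  have hb : Bd fun Q => (f Q)⁻¹ := ⟨1, h1.mono fun Q e => by rw [map_inv₀, e, inv_one]⟩
  refine ⟨fun Q => (f Q)⁻¹ * (d * d - g Q + tt Q * (d * g Q)),
    hb.mul (((Bd.const _).sub a).add ((bt hL).mul ((Bd.const _).mul a))), ?_⟩
  filter_upwards [b, h1] with Q e e1
  have h0 : f Q ≠ 0 := fun z => by simp [z] at e1
  have := mul_inv_cancel₀ h0
  linear_combination (1 - tt Q * d) * this - (1 - tt Q * d) * (f Q)⁻¹ * e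

theorem expand (hL : S_LIN) {P : EE} (hP : P ≠ 0) : (∀ᶠ Q in F, P + Q ≠ 0) ∧
    ∃ g, Bd g ∧ ∀ᶠ Q in F, xc (P + Q) = xc P + tt Q * yc P + tt Q ^ 2 * g Q := by
  have hI := hL.2.2.2.1
  have h0 : ∀ᶠ Q in F, P + Q ≠ 0 := by
    filter_upwards [big (w2.v (xc P))] with Q h e
    rw [eq_neg_of_add_eq_zero_right e, (hL.2.2.2.2.1 _ _ _ (hI P hP).neg).1] at h
    exact h.false
  have h1 : ∀ᶠ Q in F, w2.v (1 - xc P * (xc Q)⁻¹) = 1 := by
    filter_upwards [big (w2.v (xc P))] with Q h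
    refine w2.v.map_one_sub_of_lt ?_
    rw [map_mul, map_inv₀, ← div_eq_mul_inv]
    exact (div_lt_one (zero_le.trans_lt h)).2 h
  have hb : Bd fun Q => (1 - xc P * (xc Q)⁻¹)⁻¹ :=
    ⟨1, h1.mono fun Q e => by rw [map_inv₀, e, inv_one]⟩
  refine ⟨h0, fun Q => (1 - (xc Q)⁻¹ * (xc Q)⁻¹) * (yc P * tt Q *
    (2 * xc P - (xc Q)⁻¹ * (1 + xc P ^ 2)) + (3 * xc P ^ 2 - 1) - (xc Q)⁻¹ * (xc P ^ 3 + xc P)) *
    ((1 - xc P * (xc Q)⁻¹)⁻¹ * (1 - xc P * (xc Q)⁻¹)⁻¹),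
    (((Bd.const _).sub (bs.mul bs)).mul ((((((Bd.const _).mul (bt hL)).mul ((Bd.const _).sub
      (bs.mul (.const _)))).add (.const _)).sub (bs.mul (.const _))))).mul (hb.mul hb), ?_⟩
  filter_upwards [h0, h1, big 1] with Q a b c
  obtain ⟨m, x₃, i, e1, e3, -⟩ := CA.add_line (CB.sp one_ne_zero) (hI P hP) (hI Q (ne0 c)) a
  obtain ⟨n1, -, n3⟩ := yne hL c
  have n4 : 1 - xc P * (xc Q)⁻¹ ≠ 0 := fun z => by simp [z] at b
  have e4 := e2 hL hP
  have e5 := e2 hL (ne0 c)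
  have e6 := (tsq hL c).1
  have e7 : tt Q * yc Q = -2 * xc Q := div_mul_cancel₀ _ n3
  rw [(hL.2.2.2.2.1 _ _ _ i).1]
  have n5 : xc Q - xc P ≠ 0 := fun z => n4 (by
    rw [← sub_eq_zero.1 z, mul_inv_cancel₀ n1, sub_self])
  have e8 : (1 - xc P * (xc Q)⁻¹)⁻¹ = xc Q / (xc Q - xc P) := by
    field_simp
  rw [e8]
  generalize xc P = x at *
  generalize yc P = η at *
  generalize xc Q = X at *
  generalize yc Q = Y at *
  generalize tt Q = t at *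
  have e9 : Y = -2 * t * (X ^ 2 - 1) := mul_left_cancel₀ n1 (by
    linear_combination t * (X ^ 2 - 1) * e7 - Y * e6)
  have e10 : x₃ * (X - x) ^ 2 = x * X ^ 2 + (x ^ 2 - 1) * X - x + η * t * (X ^ 2 - 1) := by
    linear_combination (X - x) ^ 2 / 4 * e1 + (m * (x - X) + (η - Y)) / 4 * e3 + e4 / 4 + e5 / 4 -
      η / 2 * e9
  have e11 : t ^ 2 * (1 - X⁻¹ * X⁻¹) = X⁻¹ := by
    field_simp
    linear_combination e6
  rw [← mul_assoc (t ^ 2), ← mul_assoc (t ^ 2), e11]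
  field_simp
  linear_combination e10

theorem one (hL : S_LIN) (hT : S_TH) {a : ZI} {P : EE} (ha : Prim a) (hP : a • P ≠ 0) :
    (∀ᶠ Q in F, a • (P + Q) ≠ 0) ∧ T (dl a P) fun Q => th a (P + Q) / th a P := by
  obtain ⟨hf, h⟩ := hT a ha
  obtain ⟨t0, t1⟩ := (h P).1 hP
  obtain ⟨h0, g, hg, e⟩ := expand hL (P := P) (fun z => hP (by rw [z, smul_zero]))
  have h2 : ∀ ξ ∈ hf.toFinset, xc P - ξ ≠ 0 := fun ξ hξ z =>
    t1 (sub_eq_zero.1 z ▸ hf.mem_toFinset.1 hξ)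
  have h1 := T.prod hL hf.toFinset (d := fun ξ => yc P / (xc P - ξ))
    (f := fun ξ Q => (xc (P + Q) - ξ) / (xc P - ξ)) fun ξ hξ =>
      ⟨fun Q => g Q * (xc P - ξ)⁻¹, hg.mul (.const _), e.mono fun Q e => by
        have := h2 ξ hξ
        simp only [e]
        field_simp
        ring⟩
  constructor
  · filter_upwards [h0, h1.one hL] with Q a b z
    rw [Finset.prod_eq_zero (hf.mem_toFinset.2 ⟨P + Q, ⟨a, z⟩, rfl⟩) (by simp), map_zero] at b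
    exact zero_ne_one b
  · have h3 := h1.inv hL
    rw [dl, finsum_mem_eq_finite_toFinset_sum _ hf]
    convert h3 using 2 with Q
    simp only [th, thc, finprod_mem_eq_finite_toFinset_prod _ hf] at t0 ⊢
    have := (div_ne_zero_iff.1 t0).1
    rw [Finset.prod_div_distrib, inv_div, div_div_div_cancel_left' _ _ this]

theorem unit (hL : S_LIN) {u : ZI} (hu : u ^ 4 = 1) (Q : EE) :
    w2.v (xc (u • Q)) = w2.v (xc Q) ∧ tt (u • Q) = eK u * tt Q := by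
  have hi : iz ^ 2 = -1 := by decide
  have hk : iK ^ 2 = -1 := by simpa [iK] using I_sq
  have he : eK iz = iK := by simp [eK, iz]
  have h : ∀ k : ℕ, w2.v (xc (iz ^ k • Q)) = w2.v (xc Q) ∧ tt (iz ^ k • Q) = eK (iz ^ k) * tt Q := by
    intro k
    induction k with
    | zero => simp
    | succ k ih =>
      obtain ⟨a, b⟩ := hL.2.2.2.2.2.1 (iz ^ k • Q)
      rw [pow_succ', mul_smul, a, Valuation.map_neg, map_mul, mul_assoc, ← ih.2, he, tt, tt, a, b]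
      refine ⟨ih.1, ?_⟩
      rw [← div_div, div_right_comm, div_eq_iff (fun z => by simp [z] at hk)]
      linear_combination (2 * xc (iz ^ k • Q) / yc (iz ^ k • Q)) * hk
  have : (u - iz ^ 0) * (u - iz ^ 1) * (u - iz ^ 2) * (u - iz ^ 3) = 0 := by
    rw [pow_succ iz 2, hi]
    linear_combination hu - (u ^ 2 - 1) * hi
  simp only [mul_eq_zero, sub_eq_zero] at this
  rcases this with ((rfl | rfl) | rfl) | rfl <;> exact h _

theorem two (hB : S_BGK) (hL : S_LIN) {Q : EE} (h : 1 < w2.v (xc Q)) :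
    w2.v (xc ((2 : ZI) • Q)) = 4 * w2.v (xc Q) := by
  have hI := hL.2.2.2.1 Q (ne0 h)
  obtain ⟨n1, -, n3⟩ := yne hL h
  have h5 : Q + Q ≠ 0 := (hI.two_ne (CB.sp one_ne_zero)).2 n3
  obtain ⟨m, x₃, a, b, -, c⟩ := CA.add_line (CB.sp one_ne_zero) hI hI h5
  have e := e2 hL (ne0 h)
  rw [two_smul, (hL.2.2.2.2.1 _ _ _ a).1]
  have h2 : w2.v 2 = 2⁻¹ := by
    have := w2.vp
    rw [hB.2.2.2.2.2.2.2.2.2.2.2.1] at this
    simpa using this
  have h6 : 2 ^ 2 * (x₃ * (xc Q * (xc Q ^ 2 - 1))) = (xc Q ^ 2 + 1) ^ 2 := by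
    push_cast at c
    linear_combination (yc Q ^ 2 / 4) * b - (2 * xc Q + x₃) * e +
      (m * (yc Q + yc Q) + 4 * (xc Q ^ 2 + xc Q * xc Q + xc Q ^ 2 - 1)) / 16 * c
  have h7 := congrArg w2.v h6
  rw [map_mul, map_mul, map_mul, map_pow, map_pow, h2, (vsq h).1, (vsq h).2] at h7
  have h0 : w2.v (xc Q) ≠ 0 := (zero_lt_one.trans h).ne'
  refine mul_right_cancel₀ (pow_ne_zero 3 h0) ?_
  have h8 : (4 : ℝ≥0) * 2⁻¹ ^ 2 = 1 := by
    rw [show (4 : ℝ≥0) = 2 ^ 2 by norm_num, ← mul_pow, mul_inv_cancel₀ two_ne_zero, one_pow]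
  calc w2.v x₃ * w2.v (xc Q) ^ 3
      = 4 * 2⁻¹ ^ 2 * (w2.v x₃ * w2.v (xc Q) ^ 3) := by rw [h8, one_mul]
    _ = 4 * (2⁻¹ ^ 2 * (w2.v x₃ * (w2.v (xc Q) * w2.v (xc Q) ^ 2))) := by ring
    _ = _ := by rw [h7]; ring

end TAY

open TAY in
theorem p_TAY (hBGK : S_BGK) (hLIN : S_LIN) (hTH : S_TH) :
    S_TAY := by
  refine ⟨fun Q k h => ?_, fun a ι s P u ha hP hu => ?_⟩
  · induction k with
    | zero => simp
    | succ k ih =>
      rw [pow_succ', mul_smul, two hBGK hLIN, ih, pow_succ', mul_assoc]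
      rw [ih]
      exact h.trans_le (le_mul_of_one_le_left zero_le (one_le_pow₀ (by norm_num)))
  have h : ∀ j ∈ s, (∀ᶠ Q in F, a • (P j + u j • Q) ≠ 0) ∧
      T (eK (u j) * dl a (P j)) fun Q => th a (P j + u j • Q) / th a (P j) := by
    intro j hj
    have ht : Tendsto (fun Q : EE => u j • Q) F F :=
      tendsto_comap_iff.2 (tendsto_comap.congr fun Q => (unit hLIN (hu j hj) Q).1.symm)
    obtain ⟨h1, g, ⟨C, h2⟩, h3⟩ := one hLIN hTH ha (hP j hj)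
    refine ⟨ht.eventually h1, fun Q => eK (u j) ^ 2 * g (u j • Q),
      (Bd.const _).mul ⟨C, ht.eventually h2⟩, (ht.eventually h3).mono fun Q e => ?_⟩
    rw [e, (unit hLIN (hu j hj) Q).2]
    ring
  have h1 : ∀ j ∈ s, ∃ C : ℝ≥0, ∀ᶠ Q in F, a • (P j + u j • Q) ≠ 0 ∧
      w2.v (th a (P j + u j • Q) / th a (P j) - 1) ^ 2 * w2.v (xc Q) ≤ C := by
    intro j hj
    obtain ⟨h1, g, h2, h3⟩ := h j hj
    obtain ⟨C, hC⟩ := (Bd.const (eK (u j) * dl a (P j))).add ((TAY.bt hLIN).mul h2)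
    refine ⟨C ^ 2, ?_⟩
    filter_upwards [h1, h3, hC, big 1] with Q b c d e
    refine ⟨b, ?_⟩
    rw [c, show ∀ x y : Om, 1 + tt Q * x + tt Q ^ 2 * y - 1 = tt Q * (x + tt Q * y) from
      fun x y => by ring, map_mul, mul_pow, mul_right_comm, (tsq hLIN e).2, one_mul]
    exact pow_le_pow_left' d 2
  choose! C hC using h1
  obtain ⟨g, ⟨C', h2⟩, h3⟩ := T.prod hLIN s fun j hj => (h j hj).2
  obtain ⟨C₀, h0⟩ := TAY.ev.1 (((eventually_all_finset s).2 hC).and (h2.and (h3.and (big 1))))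
  refine ⟨max C₀ (max C' (s.sup C)), fun Q hQ => ?_⟩
  obtain ⟨b, c, d, e⟩ := h0 Q ((le_max_left _ _).trans hQ.le)
  refine ⟨fun j hj => ⟨(b j hj).1, (b j hj).2.trans
    (le_max_of_le_right (le_max_of_le_right (Finset.le_sup hj)))⟩, ?_⟩
  beta_reduce at d
  rw [d, show ∀ x y : Om, 1 + tt Q * x + y - 1 - tt Q * x = y from fun x y => by ring, map_mul,
    map_pow, mul_right_comm, (tsq hLIN e).2, one_mul]
  exact le_max_of_le_right (le_max_of_le_left c)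

end Pool.Agent.P.MP_8b7eba_nt.QT.CG
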