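import Pool.Agent.P.MP_8b7eba_nt.CG.TGEN

/-! The normalised elliptic function. -/

namespace Pool.Agent.P.MP_8b7eba_nt.QT.CG

open R2 Finset Classical
open MP_9c97e9_nt (Pt pm Is zero_or_is)

namespace A1

variable {P Q : EE} {x η : Om} {a : ZI}

theorem xc_is (h : Is P x η) : xc P = x ∧ yc P = η := by
  obtain ⟨y, h1, rfl, rfl⟩ := h
  exact ⟨rfl, by simp [yc, W]⟩

theorem is_xc (h : P ≠ 0) : Is P (xc P) (yc P) := by
  obtain ⟨x, η, h1⟩ := (zero_or_is P).resolve_left h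
  rwa [(xc_is h1).1, (xc_is h1).2]

theorem iz_smul (P : EE) : iz • P = cmi P := by simp [smul_def, iz]

theorem pz_smul (P : EE) : pz • P = P + cmi P := by simp [smul_def, pz]

theorem xc_iz (P : EE) : xc (iz • P) = -xc P ∧ yc (iz • P) = iK * yc P := by
  rcases eq_or_ne P 0 with rfl | h
  · rw [smul_zero]
    exact ⟨neg_zero.symm, (mul_zero _).symm⟩
  · rw [iz_smul]
    exact xc_is (is_cmi (is_xc h))

theorem iz_iz (P : EE) : iz • iz • P = -P := by rw [iz_smul, iz_smul, cmi_cmi]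

theorem pm_of_xc (hP : P ≠ 0) (hQ : Q ≠ 0) (h : xc P = xc Q) : P = Q ∨ P = -Q := by
  have a := is_xc hP
  have b := is_xc hQ
  rw [h] at a
  rcases sq_eq_sq_iff_eq_or_eq_neg.1 ((a.eq (sp1 Om)).trans (b.eq (sp1 Om)).symm) with e | e <;>
    rw [e] at a
  · exact .inl (a.unique (sp1 Om) b)
  · exact .inr (a.unique (sp1 Om) b.neg)

theorem xc_neg (P : EE) : xc (-P) = xc P := by rw [← iz_iz, (xc_iz _).1, (xc_iz _).1, neg_neg]

theorem xc_two {e : Om} {T : EE} (hT : Is T e 0) (hP : P ≠ 0) (h : xc P ≠ e) :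
    (xc (P + T) - e) * (xc P - e) = 3 * e ^ 2 - 1 := by
  have h1 := is_xc hP
  obtain ⟨m, x₃, a, b, c, -⟩ := CA.add_line (sp1 Om) h1 hT fun h0 => h (by
    rw [eq_neg_of_add_eq_zero_left h0, xc_neg, (xc_is hT).1])
  have e1 := CA.eqn (sp1 Om) h1
  have e2 := CA.eqn (sp1 Om) hT
  rw [Int.cast_one] at e1 e2
  rw [(xc_is a).1]
  refine mul_left_cancel₀ (mul_ne_zero (sp1 Om).four (sub_ne_zero.2 h)) ?_
  linear_combination (xc P - e) ^ 2 * b + (m * (xc P - e) + yc P) * c + e1 - e2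

/-- the point of order `1 + i` -/
noncomputable def T0 : EE := ((sp1 Om).exists_is (x := 0) (η := 0) (by simp)).choose

theorem is_T0 : Is T0 0 0 := ((sp1 Om).exists_is (x := 0) (η := 0) (by simp)).choose_spec

theorem xc_pz (hP : P ≠ 0) (h : xc P ≠ 0) :
    pz • P ≠ 0 ∧ xc (pz • P) = -iK * (xc P ^ 2 - 1) / (2 * xc P) := by
  have h1 := is_xc hP
  have h2 : P + cmi P ≠ 0 := fun h0 => h (by
    have := (xc_is (is_cmi h1)).1
    rw [eq_neg_of_add_eq_zero_right h0, xc_neg] at this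
    linear_combination this / 2)
  obtain ⟨m, x₃, a, b, c, -⟩ := CA.add_line (sp1 Om) h1 (is_cmi h1) h2
  have e1 := CA.eqn (sp1 Om) h1
  rw [Int.cast_one] at e1
  rw [pz_smul, (xc_is a).1, eq_div_iff (mul_ne_zero two_ne_zero h)]
  refine ⟨h2, mul_left_cancel₀ (mul_ne_zero (show (8 : Om) ≠ 0 by norm_num) h) ?_⟩
  linear_combination 4 * xc P ^ 2 * b + (2 * m * xc P + yc P - iK * yc P) * c -
    2 * iK * e1 + yc P ^ 2 * iK_sq

theorem pz_T0 : pz • T0 = 0 := by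
  rw [pz_smul]
  exact is_T0.add_eq_zero (sp1 Om) (by simpa using is_cmi is_T0)

theorem xc_eq_zero (hP : P ≠ 0) (h : xc P = 0) : P = T0 := by
  have h1 := is_T0.add_eq_zero (sp1 Om) (neg_zero (G := Om).symm ▸ is_T0)
  simpa [neg_eq_of_add_eq_zero_left h1] using
    pm_of_xc hP is_T0.ne_zero (h.trans (xc_is is_T0).1.symm)

theorem pz_eq_zero : pz • P = 0 ↔ P = 0 ∨ P = T0 :=
  ⟨fun h => or_iff_not_imp_left.2 fun h0 => xc_eq_zero h0 (by_contra fun e => (xc_pz h0 e).1 h),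
    by rintro (rfl | rfl); exacts [smul_zero _, pz_T0]⟩

theorem prod_pz {Y : Type} [CommMonoid Y] (f : EE → Y) :
    ∏ᶠ R : {R : EE // pz • R = 0}, f R = f 0 * f T0 := by
  rw [← finprod_mem_pair is_T0.ne_zero.symm, ← finprod_set_coe_eq_finprod_mem]
  exact finprod_eq_of_bijective (Subtype.map id fun _ => pz_eq_zero.1)
    ⟨Subtype.map_injective _ Function.injective_id, fun R => ⟨⟨R, pz_eq_zero.2 R.2⟩, rfl⟩⟩
    fun _ => rfl

theorem prim_fix (ha : Prim a) (h : pz ^ 3 • P = 0) : a • P = P := by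
  obtain ⟨c, hc⟩ := ha
  rw [eq_add_of_sub_eq hc, add_smul, mul_comm, mul_smul, h, smul_zero, zero_add, one_smul]

theorem prim_T0 (ha : Prim a) : a • T0 = T0 :=
  prim_fix ha (by rw [pow_succ, mul_smul, pz_T0, smul_zero])

theorem prim_ne (ha : Prim a) : a ≠ 0 := fun h =>
  is_T0.ne_zero (by rw [← prim_T0 ha, h, zero_smul])

theorem prim_norm (ha : Prim a) : a.norm % 4 = 1 := by
  obtain ⟨⟨m, n⟩, e⟩ := ha
  rw [eq_add_of_sub_eq e, show pz ^ 3 = ⟨-2, 2⟩ by decide,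
    show Zsqrtd.norm ((⟨-2, 2⟩ : ZI) * ⟨m, n⟩ + 1) = 1 + 4 * (2 * m ^ 2 + 2 * n ^ 2 - m - n) by
      simp [Zsqrtd.norm_def]; ring]
  omega

theorem fin_XT (ha : a ≠ 0) : (XT a).Finite := Set.Finite.image _
  (Set.Finite.subset (s := {P : EE | a • P = 0}) (fin_tor ha) fun _ h => h.2)

/-- the first coordinates of the torsion points -/
noncomputable def XF (ha : Prim a) : Finset Om := (fin_XT (prim_ne ha)).toFinset

theorem mem_XF (ha : Prim a) {ξ : Om} : ξ ∈ XF ha ↔ ∃ R : EE, (R ≠ 0 ∧ a • R = 0) ∧ xc R = ξ :=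
  Set.Finite.mem_toFinset _

theorem XF_ne (ha : Prim a) {ξ : Om} (h : ξ ∈ XF ha) : ξ ≠ 0 := by
  obtain ⟨R, ⟨h1, h2⟩, rfl⟩ := (mem_XF ha).1 h
  exact fun e => is_T0.ne_zero (by rwa [xc_eq_zero h1 e, prim_T0 ha] at h2)

theorem not_XF (ha : Prim a) (h : a • P ≠ 0) : xc P ∉ XF ha := fun e => by
  obtain ⟨R, ⟨h1, h2⟩, h3⟩ := (mem_XF ha).1 e
  rcases pm_of_xc (fun e => h (by rw [e, smul_zero])) h1 h3.symm with rfl | rfl
  · exact h h2
  · exact h (by rw [smul_neg, h2, neg_zero])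

theorem reidx (ha : Prim a) {φ : Om → Om}
    (h : ∀ R : EE, R ≠ 0 → a • R = 0 → ∃ S : EE, (S ≠ 0 ∧ a • S = 0) ∧ φ (xc S) = xc R) :
    (∀ f : Om → Om, ∏ ξ ∈ XF ha, f (φ ξ) = ∏ ξ ∈ XF ha, f ξ) ∧
      ∀ f : Om → Om, ∑ ξ ∈ XF ha, f (φ ξ) = ∑ ξ ∈ XF ha, f ξ := by
  have h1 : XF ha = (XF ha).image φ := eq_of_subset_of_card_le (fun ξ hξ => by
    obtain ⟨R, ⟨h1, h2⟩, rfl⟩ := (mem_XF ha).1 hξ
    obtain ⟨S, h3, h4⟩ := h R h1 h2
    exact mem_image.2 ⟨_, (mem_XF ha).2 ⟨S, h3, rfl⟩, h4⟩) card_image_le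
  have h2 : Set.InjOn φ (XF ha) := card_image_iff.1 (by rw [← h1])
  exact ⟨fun f => by rw [← prod_image h2, ← h1], fun f => by rw [← sum_image h2, ← h1]⟩

theorem half (ha : Prim a) : ∃ s : Om → EE,
    (∀ ξ ∈ XF ha, (s ξ ≠ 0 ∧ a • s ξ = 0) ∧ xc (s ξ) = ξ) ∧ ∀ f : EE → ℂ,
      ∑ᶠ R : {R : EE // a • R = 0}, f R = f 0 + ∑ ξ ∈ XF ha, (f (s ξ) + f (-s ξ)) := by
  choose! s hs using fun ξ => (mem_XF ha (ξ := ξ)).1
  refine ⟨s, hs, fun f => ?_⟩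
  have hf : {R : EE | a • R = 0}.Finite := fin_tor (prim_ne ha)
  rw [show ∑ᶠ R : {R : EE // a • R = 0}, f R = _ from finsum_set_coe_eq_finsum_mem (f := f)
    {R : EE | a • R = 0},
    finsum_mem_eq_finite_toFinset_sum _ hf, ← add_sum_erase _ _ (a := 0) (by simp),
    ← sum_fiberwise_of_maps_to (t := XF ha) (g := xc) fun R hR =>
      (mem_XF ha).2 ⟨R, by simpa using hR, rfl⟩]
  refine congrArg _ (sum_congr rfl fun ξ hξ => ?_)
  obtain ⟨⟨h1, h2⟩, h3⟩ := hs ξ hξ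
  rw [← sum_pair (a := s ξ) (b := -s ξ) fun e => h1 (by
    rw [← prim_fix ha (P := s ξ) (by
      rw [show pz ^ 3 = (pz * iz) * 2 by decide, mul_smul, two_smul, eq_neg_iff_add_eq_zero.1 e,
        smul_zero]), h2])]
  refine sum_congr (Finset.ext fun R => ?_) fun _ _ => rfl
  simp only [mem_filter, mem_erase, Set.Finite.mem_toFinset, Set.mem_ofPred_eq, mem_insert,
    mem_singleton]
  refine ⟨fun h => pm_of_xc h.1.1 h1 (h.2.trans h3.symm), ?_⟩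
  rintro (rfl | rfl)
  · exact ⟨⟨h1, h2⟩, h3⟩
  · exact ⟨⟨neg_ne_zero.2 h1, by rw [smul_neg, h2, neg_zero]⟩, (xc_neg _).trans h3⟩

theorem card_XF (ha : Prim a) : a.norm = 2 * (XF ha).card + 1 := by
  obtain ⟨s, -, h⟩ := half ha
  have := fin_tor (prim_ne ha)
  have := Fintype.ofFinite {R : EE // a • R = 0}
  have h1 := h fun _ => 1
  rw [finsum_eq_sum_of_fintype, sum_const, sum_const, card_univ, ← Nat.card_eq_fintype_card] at h1
  rw [← card_tor (prim_ne ha)]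
  refine Int.cast_injective (α := ℂ) ?_
  push_cast
  simp only [nsmul_eq_mul] at h1
  linear_combination h1

theorem thc_eq (ha : Prim a) (c : Om) (P : EE) : thc a c P = c / ∏ ξ ∈ XF ha, (xc P - ξ) := by
  rw [thc, finprod_mem_eq_finite_toFinset_prod _ (fin_XT (prim_ne ha)), XF]

theorem phi_ne (ha : Prim a) (h : a • P ≠ 0) : ∏ ξ ∈ XF ha, (xc P - ξ) ≠ 0 :=
  prod_ne_zero_iff.2 fun _ hξ e => not_XF ha h (sub_eq_zero.1 e ▸ hξ)

theorem c0_ne (ha : Prim a) : ∏ ξ ∈ XF ha, -2 * iK * ξ ≠ 0 :=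
  prod_ne_zero_iff.2 fun _ hξ => mul_ne_zero (mul_ne_zero (by norm_num) fun e => by
    simpa [e] using iK_sq) (XF_ne ha hξ)

theorem phi_pz (ha : Prim a) (h : (a * pz) • P ≠ 0) :
    (∏ ξ ∈ XF ha, (xc P - ξ)) * ∏ ξ ∈ XF ha, (xc (P + T0) - ξ) =
      (∏ ξ ∈ XF ha, -2 * iK * ξ) * ∏ ξ ∈ XF ha, (xc (pz • P) - ξ) := by
  have h0 : P ≠ 0 := fun e => h (by rw [e, smul_zero])
  have h1 : xc P ≠ 0 := fun e => h (by rw [xc_eq_zero h0 e, mul_smul, pz_T0, smul_zero])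
  have h2 := xc_two is_T0 h0 h1
  rw [← (reidx ha (φ := fun x => -iK * (x ^ 2 - 1) / (2 * x)) fun R r1 r2 => ?_).1
    fun ξ => xc (pz • P) - ξ, ← prod_mul_distrib, ← prod_mul_distrib, (xc_pz h0 h1).2]
  · refine prod_congr rfl fun ξ hξ => ?_
    have := XF_ne ha hξ
    rw [show xc (P + T0) = -1 / xc P by rw [eq_div_iff h1]; linear_combination h2]
    field_simp
    linear_combination -(xc P - ξ) * (xc P * ξ + 1) * iK_sq
  · obtain ⟨c, hc⟩ := ha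
    have h3 : pz • (-(pz ^ 2 * c)) • R = R := by
      rw [smul_smul, show pz * -(pz ^ 2 * c) = 1 - a by linear_combination hc, sub_smul, r2,
        one_smul, sub_zero]
    have h4 : (-(pz ^ 2 * c)) • R ≠ 0 := fun e => r1 (by rw [← h3, e, smul_zero])
    have h5 : a • (-(pz ^ 2 * c)) • R = 0 := by rw [smul_comm, r2, smul_zero]
    refine ⟨_, ⟨h4, h5⟩, ?_⟩
    rw [← (xc_pz h4 (XF_ne ⟨c, hc⟩ ((mem_XF _).2 ⟨_, ⟨h4, h5⟩, rfl⟩))).2, h3]

theorem th_spec (ha : Prim a) :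
    (∀ P, th a P = (∏ ξ ∈ XF ha, -2 * iK * ξ) / ∏ ξ ∈ XF ha, (xc P - ξ)) ∧
      ∀ P, (a * pz) • P ≠ 0 → th a P * th a (P + T0) = th a (pz • P) := by
  have key : ∀ c P, (a * pz) • P ≠ 0 → c ≠ 0 →
      (∏ᶠ R : {R : EE // pz • R = 0}, thc a c (P + R) = thc a c (pz • P) ↔
        c = ∏ ξ ∈ XF ha, -2 * iK * ξ) := fun c P h hc => by
    have := phi_ne ha (P := pz • P) (by rwa [← mul_smul])
    rw [prod_pz fun R => thc a c (P + R), add_zero, thc_eq ha, thc_eq ha, thc_eq ha,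
      div_mul_div_comm, phi_pz ha h, div_eq_div_iff (mul_ne_zero (c0_ne ha) this) this,
      ← mul_assoc, mul_left_inj' this, mul_right_inj' hc]
  obtain ⟨h1, h2⟩ := Classical.epsilon_spec (p := fun c => c ≠ 0 ∧ ∀ P : EE, (a * pz) • P ≠ 0 →
    ∏ᶠ R : {R : EE // pz • R = 0}, thc a c (P + R) = thc a c (pz • P))
    ⟨_, c0_ne ha, fun P h => (key _ P h (c0_ne ha)).2 rfl⟩
  obtain ⟨Q, hQ⟩ := exists_div (mul_ne_zero (prim_ne ha) (show pz ≠ 0 by decide)) T0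
  have h3 := hQ.trans_ne is_T0.ne_zero
  refine ⟨fun P => ?_, fun P h => ?_⟩
  · rw [← (key _ Q h3 h1).1 (h2 Q h3), th, thc_eq ha]
  · have := h2 P h
    rwa [prod_pz fun R => thc a _ (P + R), add_zero] at this

theorem th_ne (ha : Prim a) (h : a • P ≠ 0) : th a P ≠ 0 :=
  (th_spec ha).1 P ▸ div_ne_zero (c0_ne ha) (phi_ne ha h)

theorem re_neg (R : EE) (r1 : R ≠ 0) (r2 : a • R = 0) :
    ∃ S : EE, (S ≠ 0 ∧ a • S = 0) ∧ -xc S = xc R :=
  ⟨iz • R, ⟨fun e => r1 (neg_eq_zero.1 (by rw [← iz_iz, e, smul_zero])), by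
    rw [smul_comm, r2, smul_zero]⟩, by rw [(xc_iz R).1, neg_neg]⟩

theorem th_iz (ha : Prim a) (P : EE) : th a (iz • P) = th a P := by
  have h1 := card_XF ha
  have h2 := prim_norm ha
  rw [(th_spec ha).1, (th_spec ha).1, (xc_iz P).1,
    ← (reidx ha (φ := Neg.neg) re_neg).1 fun ξ => -xc P - ξ]
  simp only [← neg_sub']
  rw [prod_neg, Even.neg_one_pow (Nat.even_iff.2 (by omega)), one_mul]

end A1

open A1 in
theorem p_TH (hLIN : S_LIN) : S_TH := fun a ha => by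
  have hd : ∀ P, dl a P = -∑ ξ ∈ XF ha, yc P / (xc P - ξ) := fun P => by
    rw [dl, finsum_mem_eq_finite_toFinset_sum _ (fin_XT (prim_ne ha)), XF]
  refine ⟨fin_XT (prim_ne ha), fun P => ⟨fun h => ⟨th_ne ha h, fun e =>
    not_XF ha h ((mem_XF ha).2 e)⟩, th_iz ha P, ?_, fun g hg => ?_⟩⟩
  · rw [hd, hd, (xc_iz P).1, (xc_iz P).2, neg_mul, sum_mul,
      ← (reidx ha (φ := Neg.neg) re_neg).2 fun ξ => iK * yc P / (-xc P - ξ) * iK]
    refine congrArg _ (sum_congr rfl fun ξ _ => ?_)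
    rw [← neg_sub', div_neg]
    linear_combination (-(yc P / (xc P - ξ))) * iK_sq
  · obtain ⟨r1, r2⟩ := reidx ha (φ := g) fun R h1 h2 => ⟨ga g⁻¹ R, ⟨fun e => h1 (by
      rw [← ga_one R, ← mul_inv_cancel g, ga_mul, e, map_zero]), by
        rw [← hLIN.1 _ (GK.inv_mem hg), h2, map_zero]⟩, by
          rw [← (hLIN.2.2.1 g _).1, ← ga_mul, mul_inv_cancel, ga_one]⟩
    have hi : g iK = iK := by rw [iK, map_neg, show g (rt (-1)) = _ from hg]
    rw [(th_spec ha).1, (th_spec ha).1, hd, hd, (hLIN.2.2.1 g P).1, (hLIN.2.2.1 g P).2,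
      map_div₀, map_prod, ← r1 fun ξ => -2 * iK * ξ, ← r1 fun ξ => g (xc P) - ξ,
      ← r2 fun ξ => g (yc P) / (g (xc P) - ξ)]
    simp [hi, map_ofNat]

end Pool.Agent.P.MP_8b7eba_nt.QT.CG
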