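import Pool.Agent.P.MP_8b7eba_nt.CG.TTH

/-! The value at the bottom of the tower. -/

namespace Pool.Agent.P.MP_8b7eba_nt.QT.CG

open R2 Finset Classical

open A1 in
theorem p_TH3 : S_TH3 := fun a ha => by
  obtain ⟨h1, -⟩ := (gen_spec (M := pz ^ 3) (by decide)).1
  generalize gen (pz ^ 3) = P at h1 ⊢
  have h3 := (h1 _).2 dvd_rfl
  have h2 : ∀ b c : ZI, pz ^ 3 ∣ b - c → b • P = c • P := fun b c h => by
    rw [← sub_eq_zero, ← sub_smul, h1]
    exact h
  have n2 : pz • pz • P ≠ 0 := by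
    rw [← mul_smul, Ne, h1, ← EuclideanDomain.mod_eq_zero]
    decide +kernel
  have t0 : pz • pz • P = T0 := (pz_eq_zero.1 (by
    rwa [smul_smul, smul_smul, ← pow_three'])).resolve_left n2
  have e2 := (th_spec ha).2 (pz • P) (by rw [mul_smul, t0, prim_T0 ha]; exact is_T0.ne_zero)
  have e3 := (th_spec ha).2 P fun e => n2 (by
    rw [mul_comm, mul_smul, prim_fix ha h3] at e
    rw [e, smul_zero])
  rw [show P + T0 = iz • iz • P by
    rw [← t0, smul_smul, smul_smul, ← h2 (1 + pz * pz) (iz * iz) ⟨-iz, by decide⟩, add_smul, one_smul],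
    th_iz ha, th_iz ha] at e3
  rw [show pz • P + T0 = iz • pz • P by
    rw [← t0, smul_smul, smul_smul, ← add_smul, h2 _ (iz * pz) ⟨-iz, by decide⟩], th_iz ha, t0, ← e3] at e2
  rw [show th a P ^ 4 = th a T0 by rw [← e2]; ring, (th_spec ha).1, (xc_is is_T0).1,
    ← prod_div_distrib, prod_congr rfl (g := fun _ => eK pz ^ 2) fun ξ hξ => ?_, prod_const,
    card_XF ha, add_sub_cancel_right, ← pow_mul, ← zpow_natCast, Nat.cast_mul, Nat.cast_ofNat]
  rw [← map_pow, show pz ^ 2 = 2 * iz by decide, map_mul, eK_iz, map_ofNat, zero_sub,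
    div_eq_iff (neg_ne_zero.2 (XF_ne ha hξ))]
  ring

end Pool.Agent.P.MP_8b7eba_nt.QT.CG
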