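import Pool.Agent.P.MP_8b7eba_nt.CG.ALat

/-! The uniformisation of the lemniscatic curve. -/

namespace Pool.Agent.P.MP_8b7eba_nt.QT.CG

open R2 Complex Filter Topology Classical
open MP_9c97e9_nt (Pt pm Is zero_or_is)

namespace A1

theorem sp1 (K : Type) [Field K] [CharZero K] : CA.Sp 1 (1 : K) :=
  CA.split two_ne_zero (by simp) (by simp)

/-- the complex points -/
abbrev EC : Type := Pt (W 1) ℂ

/-- the uniformisation -/
noncomputable def un (w : ℂ) : EC :=
  if w ∈ LL.lattice then 0 else Classical.epsilon fun P => Is P (pP w) (pQ w)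

theorem un_mem {w : ℂ} (hw : w ∈ LL.lattice) : un w = 0 := if_pos hw

theorem un_is {w : ℂ} (hw : w ∉ LL.lattice) : Is (un w) (pP w) (pQ w) := by
  rw [un, if_neg hw]
  exact Classical.epsilon_spec ((sp1 ℂ).exists_is (by linear_combination pQ_sq hw))

theorem un_add_mem (w : ℂ) {l : ℂ} (hl : l ∈ LL.lattice) : un (w + l) = un w := by
  by_cases hw : w ∈ LL.lattice
  · rw [un_mem hw, un_mem (LL.lattice.add_mem hw hl)]
  · rw [un, un, if_neg hw, if_neg (mt (LL.lattice.add_mem_iff_left hl).1 hw), pP_add hl, pQ_add hl]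

open R1.AddA in
theorem cnt_bad (d : ℂ) : {c | un (d + c) ≠ un d + un c}.Countable := by
  by_cases hd : d ∈ LL.lattice
  · refine Set.countable_empty.mono fun c hc => hc ?_
    rw [add_comm, un_add_mem c hd, un_mem hd, zero_add]
  refine (((cnt LL).preimage (add_left_injective d)).union (cnt_level LL (pP d))).mono
    fun c hc => ?_
  by_contra h
  refine hc ?_
  by_cases h1 : c ∈ LL.lattice
  · rw [un_add_mem d h1, un_mem h1, add_zero]
  have h4 : c + d ∉ LL.lattice := fun e => h (Or.inl e)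
  have h5 : pP c ≠ pP d := fun e => h (Or.inr ⟨e, h1⟩)
  obtain ⟨e1, e2⟩ := add_formula h1 hd h4 h5
  have e3 : sl LL c d * (pP c - pP d) = pQ c - pQ d := div_mul_cancel₀ _ (sub_ne_zero.2 h5)
  have h6 := (un_is hd).add_ne (sp1 ℂ) (un_is h1) h5.symm (m := sl LL c d) (x₃ := pP (c + d))
    (by linear_combination -e3) (by rw [pP, ← e1, fX]; ring)
  rw [add_comm d c]
  refine (un_is h4).unique (sp1 ℂ) ?_
  have e4 : pQ (c + d) = -(pQ d + sl LL c d * (pP (c + d) - pP d)) := by
    rw [pQ, ← e2, fY, e1, pP]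
  rwa [e4]

/-- the uniformisation as a homomorphism -/
noncomputable def uu : ℂ →+ EC := AddMonoidHom.mk' un fun a b => by
  have hc := ((cnt_bad (a + b)).union (cnt_bad b)).union
    ((cnt_bad a).preimage (add_right_injective b))
  obtain ⟨c, hc⟩ := (hc.isConnected_compl_of_one_lt_rank (by simp)).nonempty
  simp only [Set.mem_compl_iff, Set.mem_union, Set.mem_ofPred_eq, Set.mem_preimage, not_or,
    not_not] at hc
  obtain ⟨⟨e1, e2⟩, e3⟩ := hc
  rw [← add_assoc, e1, e2, ← add_assoc] at e3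
  exact add_right_cancel e3

theorem uu_is {w : ℂ} (hw : w ∉ LL.lattice) : Is (uu w) (pP w) (pQ w) := un_is hw

theorem uu_eq_zero {w : ℂ} : uu w = 0 ↔ w ∈ LL.lattice :=
  ⟨fun h => by_contra fun e => (uu_is e).ne_zero h, un_mem⟩

theorem uu_inj {z w : ℂ} : uu z = uu w ↔ z - w ∈ LL.lattice := by
  rw [← uu_eq_zero, map_sub, sub_eq_zero]

theorem pP_surj (c : ℂ) : ∃ z, z ∉ LL.lattice ∧ pP z = c := by
  by_contra! hc
  let f : ℂ → ℂ := fun z => if z ∈ LL.lattice then 0 else (pP z - c)⁻¹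
  have per : ∀ z w, w ∈ LL.lattice → f (z + w) = f z := fun z w hw => by
    simp only [f, LL.lattice.add_mem_iff_left hw, pP_add hw]
  have d0 : DifferentiableAt ℂ f 0 := by
    have h1 := (LL.analyticAt_weierstrassPExcept 0).differentiableAt
    have h2 : DifferentiableAt ℂ
        (fun z => z ^ 2 / (1 + z ^ 2 * (LL.weierstrassPExcept 0 z - c))) 0 :=
      DifferentiableAt.fun_div (by fun_prop) (by fun_prop) (by simp)
    refine h2.congr_of_eventuallyEq ?_
    filter_upwards [LL.compl_lattice_sdiff_singleton_mem_nhds 0] with z hz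
    by_cases h0 : z = 0
    · simp [f, h0]
    have h3 : z ∉ LL.lattice := fun e => hz ⟨e, h0⟩
    have h4 : pP z = LL.weierstrassPExcept 0 z + 1 / z ^ 2 := by
      simpa [pP] using (LL.weierstrassPExcept_add 0 z).symm
    simp only [f, if_neg h3]
    rw [show 1 + z ^ 2 * (LL.weierstrassPExcept 0 z - c) = z ^ 2 * (pP z - c) by
      rw [h4]; field_simp; ring, div_mul_cancel_left₀ (pow_ne_zero 2 h0)]
  have df : Differentiable ℂ f := fun z => by
    by_cases hz : z ∈ LL.lattice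
    · have h1 : f = fun w => f (w - z) := funext fun w => by
        rw [← per (w - z) z hz, sub_add_cancel]
      rw [h1]
      exact DifferentiableAt.comp z (g := f) (by rwa [sub_self]) (by fun_prop)
    · refine (((dP hz).differentiableAt.sub_const c).fun_inv
        (sub_ne_zero.2 (hc z hz))).congr_of_eventuallyEq ?_
      filter_upwards [LL.isClosed_lattice.isOpen_compl.mem_nhds hz] with w hw
      exact if_neg hw
  have h1 := df.apply_eq_apply_of_bounded
    (IsZLattice.isCompact_range_of_periodic LL.lattice f df.continuous per).isBounded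
    (LL.ω₁ / 2) 0
  simp only [f, if_neg LL.ω₁_div_two_notMem_lattice, if_pos LL.lattice.zero_mem] at h1
  exact sub_ne_zero.2 (hc _ LL.ω₁_div_two_notMem_lattice) (inv_eq_zero.1 h1)

theorem uu_surj : Function.Surjective uu := fun P => by
  rcases zero_or_is P with rfl | ⟨x, η, h⟩
  · exact ⟨0, map_zero _⟩
  obtain ⟨z, hz, rfl⟩ := pP_surj x
  have h1 := uu_is hz
  rcases sq_eq_sq_iff_eq_or_eq_neg.1 ((h.eq (sp1 ℂ)).trans (h1.eq (sp1 ℂ)).symm) with rfl | rfl
  · exact ⟨z, h1.unique (sp1 ℂ) h⟩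
  · exact ⟨-z, by rw [map_neg]; exact h1.neg.unique (sp1 ℂ) h⟩

/-- `z` is a parameter of the point `P` -/
def Rep (P : EE) (z : ℂ) : Prop := pm (W 1) io P = uu z

variable {P Q : EE} {z w : ℂ}

theorem Rep.add (h : Rep P z) (h' : Rep Q w) : Rep (P + Q) (z + w) := by
  rw [Rep, map_add, map_add, h, h']

theorem Rep.neg (h : Rep P z) : Rep (-P) (-z) := by
  rw [Rep, map_neg, map_neg, h]

theorem Rep.eq_iff (h : Rep P z) (h' : Rep Q w) : P = Q ↔ z - w ∈ LL.lattice := by
  rw [← uu_inj, ← h, ← h', (MP_9c97e9_nt.pm_injective _).eq_iff]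

theorem rep_zero : Rep 0 0 := by rw [Rep, map_zero, map_zero]

theorem Rep.zero_iff (h : Rep P z) : P = 0 ↔ z ∈ LL.lattice := by
  rw [h.eq_iff rep_zero, sub_zero]

theorem Rep.cmi (h : Rep P z) : Rep (cmi P) (cK iz * z) := by
  rcases zero_or_is P with rfl | ⟨x, η, hP⟩
  · rw [Rep, map_zero, map_zero, eq_comm, uu_eq_zero]
    exact mul_mem _ (h.zero_iff.1 rfl)
  have hz : z ∉ LL.lattice := mt h.zero_iff.2 hP.ne_zero
  have h1 := hP.map io
  rw [h] at h1
  obtain ⟨e1, e2⟩ := h1.inj (uu_is hz)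
  have h2 := uu_is (mt iz_mem.1 hz)
  rw [pP_I, pQ_I, ← e1, ← e2] at h2
  refine ((is_cmi hP).map io).unique (sp1 ℂ) ?_
  rwa [map_neg, map_mul io, ← eK_iz]

theorem Rep.smul (h : Rep P z) (b : ZI) : Rep (b • P) (cK b * z) := by
  rw [Rep, smul_def, map_add, map_zsmul, map_zsmul, h, h.cmi, ← map_zsmul, ← map_zsmul, ← map_add,
    show cK b = _ from cK_mk b.re b.im]
  congr 1
  simp only [zsmul_eq_mul]
  ring

theorem Rep.xc (h : Rep P z) : io (xc P) = pP z := by
  rcases P with _ | ⟨x, y, h1⟩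
  · exact (map_zero io).trans (LL.weierstrassP_coe ⟨z, h.zero_iff.1 rfl⟩).symm
  have h2 : Is (W := W 1) (.some x y h1) x _ := ⟨y, h1, rfl, rfl⟩
  have h3 := h2.map io
  rw [h] at h3
  exact (h3.inj (uu_is (mt h.zero_iff.2 h2.ne_zero))).1

/-- a parameter of a point -/
noncomputable def lg (P : EE) : ℂ := (uu_surj (pm (W 1) io P)).choose

theorem rep_lg (P : EE) : Rep P (lg P) := (uu_surj (pm (W 1) io P)).choose_spec.symm

end A1

open A1 in
theorem p_UNI : S_UNI :=
  ⟨Ω0, LL, uu, Ω0_ne, fun _ => mem_LL, uu_surj, fun _ => uu_eq_zero, fun _ => uu_is,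
    fun b _ _ h => Rep.smul h b⟩

end Pool.Agent.P.MP_8b7eba_nt.QT.CG
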