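import Pool.Agent.P.MP_8b7eba_nt.CG.A2b

/-! Proof of UNIT. -/

namespace Pool.Agent.P.MP_8b7eba_nt.QT.CG

open R2 SM Polynomial Filter Module
open MP_9c97e9_nt (Pt pm Is)

namespace A2

variable {w : Pl} {a M : ZI} {P : EE}

theorem unit_fac (hG : S_GEN) (hX : S_XP) (hc : IsCoprime a M) (h0 : P ≠ 0) (hP : M • P = 0)
    (hp : w.p ≠ 2) (hv : w.v (eK M) = 1) {ξ : Om} (hξ : ξ ∈ XT a) :
    w.v (xc P - ξ) = max 1 (w.v ξ) := by
  obtain ⟨R, ⟨r0, r1⟩, rfl⟩ := hξ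
  have h1 : P ∉ E1 w := fun e => h0 (inj hG hX hp hv e hP)
  by_cases h : R ∈ E1 w
  · have h2 := (e1_iff r0).1 h
    rw [Valuation.map_sub_eq_of_lt_right _ ((int_of_not h1).trans_lt h2), max_eq_right h2.le]
  rw [max_eq_left (int_of_not h)]
  refine le_antisymm (w.v.map_sub_le (int_of_not h1) (int_of_not h)) (not_lt.1 fun e => h0 ?_)
  refine cop_zero hc (inj hG hX hp hv ?_ (smul_tors hP a)) hP
  rcases sep hp h0 h e with k | k
  · simpa [smul_sub, r1] using (E1 w).smul_mem a k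
  · simpa [r1] using (E1 w).smul_mem a k

theorem unit_const (hG : S_GEN) (hX : S_XP) (hf : (XT a).Finite) (hp : w.p ≠ 2) :
    ∃ t, ∀ (M : ZI) (P : EE), IsCoprime a M → P ≠ 0 → M • P = 0 → w.v (eK M) = 1 →
      w.v (th a P) = t := by
  obtain ⟨c, hc⟩ : ∃ c, th a = thc a c := ⟨_, rfl⟩
  refine ⟨w.v c / ∏ ξ ∈ hf.toFinset, max 1 (w.v ξ), fun M P h1 h2 h3 h4 => ?_⟩
  rw [hc, thc, finprod_mem_eq_finite_toFinset_prod _ hf, map_div₀, map_prod,
    Finset.prod_congr rfl fun ξ hξ => unit_fac hG hX h1 h2 h3 hp h4 (hf.mem_toFinset.1 hξ)]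

end A2

open A2

theorem p_UNIT (hGEN : S_GEN) (hXP : S_XP) (hTH : S_TH) (hDIST : S_DIST) :
    S_UNIT := by
  intro a M P w ha hc h0 hP hp hv
  obtain ⟨t, ht⟩ := unit_const (w := w) hGEN hXP (hTH a ha).1 hp
  rw [ht M P hc h0 hP hv]
  obtain ⟨Q, -, q2, q3, -, q5⟩ := p3
  have h2 : pz ∣ 2 := pz_dvd.2 (by decide)
  have q4 : pz • Q ≠ 0 := fun e => q3 (dvd_tors e h2)
  have h1 := prim_cop ha
  have h3 := ht (pz ^ 3)
  obtain ⟨S, s1, s2⟩ := tors_fin hGEN pz_ne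
  have h4 := congrArg w.v (hDIST a pz Q ha (h1.of_isCoprime_of_dvd_right
    (dvd_pow_self _ three_ne_zero)) pz_ne (by rwa [mul_comm, mul_smul, q5 a ha]))
  rw [fp_sub s1 fun R => th a (Q + R), map_prod, h3 _ h1 q4 (smul_tors q2 _) (v_pz3 hp),
    Finset.prod_congr rfl fun R hR => h3 (Q + R) h1 (fun e => q4 (by
      simpa [(s1 R).1 hR] using congrArg (pz • ·) e)) (by
      rw [smul_add, q2, dvd_tors ((s1 R).1 hR) (dvd_pow_self _ three_ne_zero), add_zero])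
      (v_pz3 hp), Finset.prod_const, show S.card = 2 by exact_mod_cast s2.trans (by decide : pz.norm = 2)] at h4
  have h5 : t ≠ 0 := by
    rw [← ht M P hc h0 hP hv]
    exact (Valuation.ne_zero_iff _).2 (((hTH a ha).2 P).1 fun e => h0 (cop_zero hc e hP)).1
  exact mul_left_cancel₀ h5 (by rw [← sq, h4, mul_one])

end Pool.Agent.P.MP_8b7eba_nt.QT.CG
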