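import Pool.Agent.P.MP_8b7eba_nt.CG.TopE
import Pool.Agent.P.MP_8b7eba_nt.CG.JS
import Pool.Agent.P.MP_8b7eba_nt.CG.JC

/-! The comparison theorem without hypotheses. -/

namespace Pool.Agent.P.MP_8b7eba_nt.CG

theorem a_TOP : TOP := t_TOP t_KAP t_UB

end Pool.Agent.P.MP_8b7eba_nt.CG
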