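import Pool.Agent.P.MP_8b7eba_nt.CG.TBCH
import Pool.Agent.P.MP_8b7eba_nt.CG.TBGK
import Pool.Agent.P.MP_8b7eba_nt.CG.TCHI
import Pool.Agent.P.MP_8b7eba_nt.CG.TCONV
import Pool.Agent.P.MP_8b7eba_nt.CG.TCROSS
import Pool.Agent.P.MP_8b7eba_nt.CG.TDENSP
import Pool.Agent.P.MP_8b7eba_nt.CG.TDIST
import Pool.Agent.P.MP_8b7eba_nt.CG.TERL
import Pool.Agent.P.MP_8b7eba_nt.CG.TFIB
import Pool.Agent.P.MP_8b7eba_nt.CG.TFRB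
import Pool.Agent.P.MP_8b7eba_nt.CG.TGEN
import Pool.Agent.P.MP_8b7eba_nt.CG.TGLU
import Pool.Agent.P.MP_8b7eba_nt.CG.TKCX
import Pool.Agent.P.MP_8b7eba_nt.CG.TKZ
import Pool.Agent.P.MP_8b7eba_nt.CG.TLALG
import Pool.Agent.P.MP_8b7eba_nt.CG.TLEV
import Pool.Agent.P.MP_8b7eba_nt.CG.TLEX
import Pool.Agent.P.MP_8b7eba_nt.CG.TLIN
import Pool.Agent.P.MP_8b7eba_nt.CG.TLOG
import Pool.Agent.P.MP_8b7eba_nt.CG.TLRED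
import Pool.Agent.P.MP_8b7eba_nt.CG.TNRM
import Pool.Agent.P.MP_8b7eba_nt.CG.TQRT
import Pool.Agent.P.MP_8b7eba_nt.CG.TRAM
import Pool.Agent.P.MP_8b7eba_nt.CG.TRT
import Pool.Agent.P.MP_8b7eba_nt.CG.TTAY
import Pool.Agent.P.MP_8b7eba_nt.CG.TTH
import Pool.Agent.P.MP_8b7eba_nt.CG.TTH3
import Pool.Agent.P.MP_8b7eba_nt.CG.TUNI
import Pool.Agent.P.MP_8b7eba_nt.CG.TUNIT
import Pool.Agent.P.MP_8b7eba_nt.CG.TXP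
import Pool.Agent.P.MP_8b7eba_nt.CG.TopF

/-! The main theorem of the project CG. -/

namespace Pool.Agent.P.MP_8b7eba_nt.QT.CG

open Filter

theorem a_BCH : S_BCH := p_BCH p_BGK

theorem a_LIN : S_LIN := p_LIN p_BGK

theorem a_TH : S_TH := p_TH a_LIN

theorem a_FRB : S_FRB := p_FRB p_BGK p_GEN a_LIN p_XP

theorem a_LEV : S_LEV := p_LEV p_BGK p_GEN a_LIN p_XP a_FRB

theorem a_QRT : S_QRT := p_QRT p_BGK a_BCH p_GEN a_LIN p_XP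

theorem a_FIB : S_FIB := p_FIB p_GEN a_LIN a_LEV

theorem a_CHI : S_CHI := p_CHI p_BGK a_BCH p_GEN a_LIN a_LEV a_FRB a_QRT

theorem a_LEX : S_LEX := p_LEX a_CHI

theorem a_ERL : S_ERL := p_ERL p_BGK a_BCH p_GEN a_LIN a_LEV a_QRT a_FIB a_TH p_DIST
  (p_TAY p_BGK a_LIN a_TH) p_LOG (p_RT p_BGK)

theorem a_GLU : S_GLU := p_GLU p_BGK a_BCH p_GEN a_LIN a_LEV a_FRB
  (p_RAM p_BGK p_GEN a_LIN p_XP a_LEV) a_QRT a_TH p_CROSS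
  (p_NRM p_GEN a_LIN a_LEV a_FIB a_TH p_DIST) p_TH3 MP_8b7eba_nt.CG.K.a_EXK MP_8b7eba_nt.CG.a_TOP

/-- the converse theorem -/
theorem a_CONV : S_CONV := p_CONV a_BCH p_GEN a_LEX
  (p_LALG a_BCH p_UNI p_GEN a_LIN a_LEV a_TH a_CHI) p_LRED a_ERL
  (p_KZ p_BGK a_BCH p_KCX p_GEN a_LIN a_LEV a_QRT a_TH (p_UNIT p_GEN p_XP a_TH p_DIST)) a_GLU

/-- half of the quartic twists have non-vanishing central value and finitely many points -/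
theorem main (ε : ℝ) (hε : 0 < ε) : ∀ᶠ X : ℕ in atTop,
    (1 / 2 - ε) * (2 * X) ≤ ({D : ℤ | |D| ≤ X ∧ 4 * (-D) ^ 3 + 27 * 0 ^ 2 ≠ 0 ∧
      (∃ f, IsLF (-D) 0 f) ∧ (∀ f, IsLF (-D) 0 f → f 1 ≠ 0) ∧
      {q : ℚ × ℚ | q.2 ^ 2 = q.1 ^ 3 + ((-D : ℤ) : ℚ) * q.1 + ((0 : ℤ) : ℚ)}.Finite}.ncard : ℝ) :=
  (p_DENSP ε hε).mono fun X h => h.trans (Nat.cast_le.2 (Set.ncard_le_ncard
    (fun D a => ⟨a.1, by simpa using a.2.1, a_LEX D a.2.1, fun f => a_CONV D f a.2, a.2.2.1⟩)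
    ((Set.finite_Icc (-X : ℤ) X).subset fun _ a => abs_le.1 a.1)))

end Pool.Agent.P.MP_8b7eba_nt.QT.CG
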