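import Mathlib

/-! Linear algebra for the parity of a filtration with a duality. -/

set_option linter.unusedSectionVars false

namespace Pool.Agent.P.MP_8b7eba_nt.CG.PA

open Module Submodule LinearMap

variable {K H : Type} [Field K] [AddCommGroup H] [Module K H] [FiniteDimensional K H]

theorem alt_even (β : LinearMap.BilinForm K H) (h : ∀ x, β x x = 0) :
    finrank K H ≡ finrank K (β.orthogonal ⊤) [MOD 2] := by
  classical
  have hr : β.IsRefl := LinearMap.IsAlt.isRefl h
  let P : ℕ → Prop := fun n => ∃ U : Submodule K H, U ≤ β.orthogonal U ∧ finrank K U = n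
  have h0 : P 0 := ⟨⊥, bot_le, finrank_bot K H⟩
  obtain ⟨U, h1, h2⟩ := Nat.findGreatest_spec (P := P) (Nat.zero_le (finrank K H)) h0
  have h3 : β.orthogonal U ≤ U := fun v hv => by
    by_contra hn
    have h4 : P (finrank K ↥(U ⊔ K ∙ v)) := ⟨_, fun x hx y hy => by
      obtain ⟨a, ha, b, hb, rfl⟩ := mem_sup.1 hx
      obtain ⟨c, hc, d, hd, rfl⟩ := mem_sup.1 hy
      obtain ⟨s, rfl⟩ := mem_span_singleton.1 hb
      obtain ⟨t, rfl⟩ := mem_span_singleton.1 hd
      simp [h1 ha c hc, hv c hc, hr _ _ (hv a ha), h v], rfl⟩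
    have h5 := Nat.le_findGreatest (finrank_le _) h4
    have h6 := Submodule.finrank_lt_finrank_of_lt (lt_of_le_of_ne (le_sup_left (a := U)
      (b := K ∙ v)) fun e => hn (e.ge (mem_sup_right (mem_span_singleton_self v))))
    omega
  have h4 := LinearMap.BilinForm.finrank_add_finrank_orthogonal hr U
  rw [le_antisymm h3 h1, inf_eq_right.2
    ((LinearMap.BilinForm.orthogonal_le le_top).trans h3)] at h4
  unfold Nat.ModEq
  omega

theorem rk_fst (R : Submodule K (H × H)) :
    finrank K R = finrank K (R.map (fst K H H)) + finrank K (R.comap (inr K H H)) := by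
  have h := finrank_range_add_finrank_ker ((LinearMap.fst K H H).domRestrict R)
  rw [range_domRestrict, ker_domRestrict] at h
  rw [← h, ← finrank_map_subtype_eq, map_comap_subtype, ker_fst, inf_comm, ← map_comap_eq,
    ← (Submodule.equivMapOfInjective _ inr_injective _).finrank_eq]

theorem rk_snd (R : Submodule K (H × H)) :
    finrank K R = finrank K (R.map (snd K H H)) + finrank K (R.comap (inl K H H)) := by
  have h := finrank_range_add_finrank_ker ((LinearMap.snd K H H).domRestrict R)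
  rw [range_domRestrict, ker_domRestrict] at h
  rw [← h, ← finrank_map_subtype_eq, map_comap_subtype, ker_snd, inf_comm, ← map_comap_eq,
    ← (Submodule.equivMapOfInjective _ inl_injective _).finrank_eq]

theorem orth_sup (B : LinearMap.BilinForm K H) (A L : Submodule K H) :
    B.orthogonal (A ⊔ L) = B.orthogonal A ⊓ B.orthogonal L := by
  ext x
  refine ⟨fun h => ⟨fun y hy => h y (mem_sup_left hy), fun y hy => h y (mem_sup_right hy)⟩,
    fun h y hy => ?_⟩
  obtain ⟨a, ha, b, hb, rfl⟩ := mem_sup.1 hy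
  simp [h.1 a ha, h.2 b hb]

/-- a filtration with a duality -/
structure Fil (B : LinearMap.BilinForm K H) (G L : ℕ → Submodule K H)
    (R : ℕ → ℕ → Submodule K (H × H)) : Prop where
  nd : B.Nondegenerate
  sy : ∀ x y, B x y = B y x
  hG : ∀ a b, Odd (a + b) → B.orthogonal (G a) = G b
  hL : ∀ a b, Odd (a + b) → B.orthogonal (L a) = L b
  h0 : ∀ a φ l, (φ, l) ∈ R a 0 ↔ φ ∈ G a ∧ φ - l ∈ L a
  h1 : ∀ a m φ, (φ, 0) ∈ R a m ↔ ∃ l, (φ, l) ∈ R a (m + 1)
  h2 : ∀ a m l, (0, l) ∈ R a (m + 1) ↔ ∃ φ, (φ, l) ∈ R (a + 1) m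
  h4 : ∀ a b m φ l ψ l', Even (a + b + m) → (φ, l) ∈ R a (m + 1) → (ψ, l') ∈ R b (m + 1) →
    B l ψ = B l' φ
  h5 : ∀ a m φ l, Even m → (φ, l) ∈ R a (m + 1) → B l φ = 0

variable {B : LinearMap.BilinForm K H} {G L : ℕ → Submodule K H} {R : ℕ → ℕ → Submodule K (H × H)}

namespace Fil

theorem refl (h : Fil B G L R) : B.IsRefl := fun x y e => by rw [h.sy, e]

theorem e1 (h : Fil B G L R) (a m : ℕ) :
    (R a (m + 1)).map (fst K H H) = (R a m).comap (inl K H H) := by
  ext φ
  simp [h.h1 a m φ]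

theorem e2 (h : Fil B G L R) (a m : ℕ) :
    (R a (m + 1)).comap (inr K H H) = (R (a + 1) m).map (snd K H H) := by
  ext φ
  simp [h.h2 a m φ]

theorem w0 (h : Fil B G L R) (a : ℕ) : (R a 0).comap (inl K H H) = G a ⊓ L a := by
  ext φ
  simp [h.h0]

theorem sub {a m : ℕ} {φ l : H} (h1 : (φ, l) ∈ R a m) (h2 : (0, l) ∈ R a m) : (φ, 0) ∈ R a m := by
  simpa using sub_mem h1 h2

theorem orth (h : Fil B G L R) (m : ℕ) : ∀ a b, Odd (a + b + m) →
    B.orthogonal ((R a m).map (snd K H H)) = (R b m).comap (inl K H H) := by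
  induction m with
  | zero =>
    intro a b hab
    have e : (R a 0).map (snd K H H) = G a ⊔ L a := by
      ext l
      simp only [mem_map, Prod.exists, snd_apply, exists_eq_right, h.h0, mem_sup]
      exact ⟨fun ⟨φ, h1, h2⟩ => ⟨φ, h1, _, neg_mem h2, by simp⟩,
        fun ⟨x, h1, y, h2, e⟩ => ⟨x, h1, by simpa [← e] using h2⟩⟩
    rw [e, orth_sup, h.hG a b hab, h.hL a b hab, h.w0]
  | succ m ih =>
    intro a b hab
    have ev : Even (a + b + m) := by grind
    ext ψ
    constructor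
    · intro hψ
      have h1 : ψ ∈ (R b m).comap (inl K H H) := by
        rw [← ih (a + 1) b (by grind), ← h.e2]
        exact fun l hl => hψ l ⟨(0, l), hl, rfl⟩
      obtain ⟨l', hl'⟩ := (h.h1 b m ψ).1 h1
      have h2 : l' ∈ (R b (m + 1)).comap (inr K H H) := by
        rw [h.e2, ← B.orthogonal_orthogonal h.nd h.refl (map _ _), ih (b + 1) a (by grind)]
        intro φ hφ
        obtain ⟨l, hl⟩ := (h.h1 a m φ).1 hφ
        rw [h.sy, ← h.h4 a b m φ l ψ l' ev hl hl']
        exact hψ l ⟨_, hl, rfl⟩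
      exact sub hl' h2
    · rintro hψ _ ⟨⟨φ, l⟩, hl, rfl⟩
      simpa using h.h4 a b m φ l ψ 0 ev hl hψ

theorem rk (h : Fil B G L R) {a b m : ℕ} (hab : Odd (a + b + m)) :
    finrank K ((R a m).map (snd K H H)) + finrank K ((R b m).comap (inl K H H)) = finrank K H := by
  rw [← h.orth m a b hab, B.finrank_orthogonal h.nd]
  exact Nat.add_sub_cancel' (finrank_le _)

theorem drop (h : Fil B G L R) {a b m : ℕ} (hab : Even (a + b + m)) :
    finrank K ((R a m).comap (inl K H H)) + finrank K ((R b (m + 1)).comap (inl K H H)) =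
      finrank K ((R b m).comap (inl K H H)) + finrank K ((R a (m + 1)).comap (inl K H H)) := by
  have h1 := (rk_fst (R a (m + 1))).symm.trans (rk_snd _)
  rw [h.e1, h.e2] at h1
  have h2 := h.rk (a := a + 1) (b := b) (m := m) (by grind)
  have h3 := h.rk (a := a) (b := b) (m := m + 1) (by grind)
  omega

theorem alt (h : Fil B G L R) (a : ℕ) {m : ℕ} (hm : Even m) :
    finrank K ((R a m).comap (inl K H H)) ≡ finrank K ((R a (m + 1)).comap (inl K H H))
      [MOD 2] := by
  set W := (R a m).comap (inl K H H) with hW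
  let f : R a (m + 1) →ₗ[K] W := ((LinearMap.fst K H H).domRestrict _).codRestrict W fun x =>
    (h.h1 a m _).2 ⟨x.1.2, x.2⟩
  obtain ⟨s, hs⟩ := f.exists_rightInverse_of_surjective (range_eq_top.2 fun φ => by
    obtain ⟨l, hl⟩ := (h.h1 a m φ).1 φ.2
    exact ⟨⟨_, hl⟩, rfl⟩)
  let l : W →ₗ[K] H := snd K H H ∘ₗ (R a (m + 1)).subtype ∘ₗ s
  have hl : ∀ φ : W, (φ.1, l φ) ∈ R a (m + 1) := fun φ => by
    have e : (s φ).1.1 = φ.1 := congrArg Subtype.val (LinearMap.congr_fun hs φ)
    rw [← e]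
    exact (s φ).2
  have ev : Even (a + a + m) := by grind
  have h1 := alt_even (B.compl₁₂ l W.subtype) fun φ => h.h5 a m _ _ hm (hl φ)
  have h2 : (LinearMap.BilinForm.orthogonal (B.compl₁₂ l W.subtype) ⊤).map W.subtype =
      (R a (m + 1)).comap (inl K H H) := by
    rw [← h.orth (m + 1) a a (by grind)]
    ext ψ
    constructor
    · rintro ⟨ψ, hψ, rfl⟩ _ ⟨⟨φ, l'⟩, hl', rfl⟩
      have hφ : φ ∈ W := (h.h1 a m φ).2 ⟨_, hl'⟩
      exact (h.h4 a a m _ _ _ _ ev hl' (hl ψ)).trans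
        ((h.h4 a a m _ _ _ _ ev (hl ⟨φ, hφ⟩) (hl ψ)).symm.trans (hψ ⟨φ, hφ⟩ trivial))
    · intro hψ
      have h3 := hψ
      rw [h.orth (m + 1) a a (by grind)] at h3
      exact ⟨⟨ψ, (h.h1 a m ψ).2 ⟨_, h3⟩⟩, fun φ _ => hψ _ ⟨_, hl φ, rfl⟩, rfl⟩
  rwa [← h2, finrank_map_subtype_eq]

theorem parity (h : Fil B G L R) (m : ℕ) :
    finrank K ((R 0 m).comap (inl K H H)) + finrank K ((R 1 m).comap (inl K H H)) + finrank K H ≡
      finrank K (G 0) + finrank K (L 0) [MOD 2] := by
  induction m with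
  | zero =>
    have h1 := finrank_sup_add_finrank_inf_eq (G 0) (L 0)
    have h2 := B.finrank_orthogonal h.nd (G 0 ⊔ L 0)
    have h3 := finrank_le (G 0 ⊔ L 0)
    rw [orth_sup, h.hG 0 1 (by decide), h.hL 0 1 (by decide)] at h2
    rw [h.w0, h.w0]
    unfold Nat.ModEq
    omega
  | succ m ih =>
    unfold Nat.ModEq at ih ⊢
    rcases Nat.even_or_odd m with hm | hm
    · have h1 := h.alt 0 hm
      have h2 := h.alt 1 hm
      unfold Nat.ModEq at h1 h2
      omega
    · have := h.drop (a := 0) (b := 1) (m := m) (by grind)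
      omega

end Fil

end Pool.Agent.P.MP_8b7eba_nt.CG.PA
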