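import Pool.Agent.P.MP_8b7eba_nt.QT.R3
import Pool.Agent.P.MP_8b7eba_nt.CG.PA

/-! Local and global quadratic characters and their duality. -/

set_option linter.unusedSectionVars false

namespace Pool.Agent.P.MP_8b7eba_nt.QT.PP

open Finset R2 SM Module

variable {p : ℕ} {S : Finset ℕ} {χ ψ : GQ → F2} {H : Subgroup GQ}

theorem ch_zero : IsCh H (fun _ => (0 : F2)) := ⟨Sm.const 0, fun _ _ _ _ => by simp⟩

theorem ch_mul (c : F2) (h : IsCh H χ) : IsCh H fun g => c * χ g :=
  ⟨h.1.comp _, fun g hg k hk => by simp only [h.2 g hg k hk, mul_add]⟩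

theorem ch_congr (h : IsCh H χ) (e : ∀ g ∈ H, ψ g = χ g) : IsCh H ψ :=
  ⟨h.1.congr e, fun g hg k hk => by rw [e g hg, e k hk, e _ (mul_mem hg hk), h.2 g hg k hk]⟩

/-- the characters of the decomposition group -/
def Hc (p : ℕ) : Submodule F2 (GQ → F2) where
  carrier := {l | IsCh (pl p).D l ∧ ∀ g, g ∉ (pl p).D → l g = 0}
  zero_mem' := ⟨ch_zero, fun _ _ => rfl⟩
  add_mem' := fun a b => ⟨a.1.add b.1, fun g hg => by simp [a.2 g hg, b.2 g hg]⟩
  smul_mem' := fun c _ a => ⟨ch_mul c a.1, fun g hg => by simp [a.2 g hg]⟩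

open Classical in
/-- the restriction of a character -/
noncomputable def rc (p : ℕ) (h : IsCh (pl p).D χ) : Hc p :=
  ⟨fun g => if g ∈ (pl p).D then χ g else 0, ch_congr h fun _ hg => if_pos hg,
    fun _ hg => if_neg hg⟩

theorem rc_of (h : IsCh (pl p).D χ) {g : GQ} (hg : g ∈ (pl p).D) : (rc p h).1 g = χ g := if_pos hg

theorem hc_ext {a b : Hc p} (h : ∀ g ∈ (pl p).D, a.1 g = b.1 g) : a = b :=
  Subtype.ext (funext fun g => by
    by_cases hg : g ∈ (pl p).D
    exacts [h g hg, (a.2.2 g hg).trans (b.2.2 g hg).symm])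

theorem hc_test {n : ℕ} (s : Fin n → GQ)
    (h : ∀ α : GQ → F2, IsCh (pl p).D α → (∀ i, α (s i) = 0) → ∀ g ∈ (pl p).D, α g = 0) :
    FiniteDimensional F2 (Hc p) ∧ finrank F2 (Hc p) ≤ n := by
  let f : Hc p →ₗ[F2] Fin n → F2 := LinearMap.pi fun i => LinearMap.proj (s i) ∘ₗ (Hc p).subtype
  have hf : Function.Injective f := (injective_iff_map_eq_zero f).2 fun a e =>
    hc_ext (h _ a.2.1 fun i => congrFun e i)
  exact ⟨.of_injective f hf, by simpa using LinearMap.finrank_le_finrank_of_injective hf⟩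

variable [HA]

theorem hc_odd (hp : p.Prime) (h2 : p ≠ 2) : finrank F2 (Hc p) ≤ 2 :=
  (hc_test ![tp p, fr p] fun _ a e _ hg => ch_D hp h2 a (e 0) (e 1) hg).2

theorem hc_fin (hp : p.Prime) : FiniteDimensional F2 (Hc p) ∧ finrank F2 (Hc p) ≤ 3 :=
  let ⟨s, _, h⟩ := exists_test hp; hc_test s h

theorem iv_zero {κ : GQ → GQ → F2} : iv p κ = 0 ↔ Triv (pl p).D (sgn κ) := by
  unfold iv
  split_ifs with h <;> simp [h]

theorem iv_swap (a : IsCh (pl p).D χ) (b : IsCh (pl p).D ψ) : iv p (cu χ ψ) = iv p (cu ψ χ) := by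
  have h : Triv _ (sgn (cu χ ψ)) ↔ Triv _ (sgn (cu ψ χ)) := (triv_swap a b).iff
  unfold iv
  rw [propext h]

theorem iv_mul (c : F2) (χ ψ : GQ → F2) :
    iv p (cu (fun g => c * χ g) ψ) = c * iv p (cu χ ψ) := by
  rcases f2 c with rfl | rfl
  · rw [zero_mul]
    exact BasN.zero fun g _ h _ => by simp [cu]
  · simp

/-- the local pairing -/
noncomputable def Bp (p : ℕ) : LinearMap.BilinForm F2 (Hc p) :=
  LinearMap.mk₂ F2 (fun a b => iv p (cu a.1 b.1)) (fun a a' b => iv_cu_add a.2.1 a'.2.1 b.2.1)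
    (fun c a b => iv_mul c _ _)
    (fun a b b' => by
      rw [iv_swap a.2.1 (b + b').2.1, iv_swap a.2.1 b.2.1, iv_swap a.2.1 b'.2.1]
      exact iv_cu_add b.2.1 b'.2.1 a.2.1)
    fun c a b => by
      rw [iv_swap a.2.1 (c • b).2.1, iv_swap a.2.1 b.2.1]
      exact iv_mul c _ _

theorem bp_eq (a b : Hc p) : Bp p a b = iv p (cu a.1 b.1) := rfl

theorem bp_of {a b : Hc p} (h : ∀ g ∈ (pl p).D, a.1 g = χ g) (h' : ∀ g ∈ (pl p).D, b.1 g = ψ g) :
    Bp p a b = iv p (cu χ ψ) := iv_congr fun g hg k hk => by simp only [cu, h g hg, h' k hk]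

theorem bp_sy (a b : Hc p) : Bp p a b = Bp p b a := iv_swap a.2.1 b.2.1

open Classical in
theorem bp_nd (a : Hc p) (h : ∀ b, Bp p a b = 0) : a = 0 := by
  obtain ⟨m, hm⟩ := hA.ld (pl p) _ F2 (fun _ => AddMonoidHom.id F2) (pl p).loc_D
    ⟨inferInstance, ⟨1, fun m => by revert m; decide⟩, fun _ => rfl, fun _ _ _ _ _ => rfl,
      Sm.const _, fun _ _ => ⟨0, fun _ => rfl⟩⟩ a.1 a.2.1 fun y hy => by
    let ψ : GQ → F2 := fun g => if y g 1 = 1 then 0 else 1
    have e : ∀ g m, y g m = (-1) ^ (m * ψ g).val := fun g m => by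
      rcases f2 m with rfl | rfl
      · simp
      have h1 : y g 1 * y g 1 = 1 := by
        rw [← AddChar.map_add_eq_mul, LC.two, AddChar.map_zero_eq_one]
      rw [one_mul]
      by_cases h2 : y g 1 = 1
      · simp [ψ, h2]
      · simp only [ψ, if_neg h2, LC.v1, pow_one]
        exact (mul_self_eq_one_iff.1 h1).resolve_left h2
    have hψ : IsCh (pl p).D ψ := ⟨hy.1.comp fun z => if z 1 = 1 then (0 : F2) else 1,
      fun g hg k hk => by
        have := hy.2 g hg k hk 1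
        rw [e, e, e, LC.e_gal, ← LC.e_add, LC.e_inj] at this
        simpa using this⟩
    refine (iv_zero.1 ((bp_of (fun _ _ => rfl) fun g => rc_of hψ).symm.trans
      (h (rc p hψ)))).congr fun g _ k _ => ?_
    rw [prD, e, LC.e_gal]
    rfl
  exact hc_ext fun g hg => by simpa using hm g hg

/-- the bad primes -/
abbrev Ix (S : Finset ℕ) : Type := ↥(S ∪ T30)

/-- families of local characters -/
abbrev HH (S : Finset ℕ) : Type := (p : Ix S) → Hc p

/-- the sum of the local pairings -/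
noncomputable def BB (S : Finset ℕ) : LinearMap.BilinForm F2 (HH S) :=
  ∑ p : Ix S, (Bp p).compl₁₂ (LinearMap.proj p) (LinearMap.proj p)

theorem bb_eq (a b : HH S) : BB S a b = ∑ p : Ix S, Bp p (a p) (b p) := by
  simp [BB, LinearMap.sum_apply]

theorem bb_sy (a b : HH S) : BB S a b = BB S b a := by
  simp only [bb_eq, bp_sy (a _)]

theorem bb_single (q : Ix S) (c : Hc q) (b : HH S) :
    BB S (Pi.single q c) b = Bp q c (b q) := by
  rw [bb_eq, sum_eq_single q (fun p _ e => by simp [Pi.single_eq_of_ne e]) (by simp)]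
  simp

theorem bb_nd : (BB S).Nondegenerate := by
  have k : ∀ b, (∀ a, BB S a b = 0) → b = 0 := fun b h => funext fun q => bp_nd _ fun c => by
    rw [bp_sy, ← bb_single, h]
  exact ⟨fun a h => k a fun b => by rw [bb_sy, h], k⟩

theorem orth_pi (U : (p : Ix S) → Submodule F2 (Hc p)) :
    (BB S).orthogonal (Submodule.pi Set.univ U) =
      Submodule.pi Set.univ fun p : Ix S => (Bp p).orthogonal (U p) := by
  ext b
  refine ⟨fun h q _ c hc => ?_, fun h a ha => ?_⟩
  · rw [← bb_single]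
    refine h _ fun p _ => ?_
    by_cases e : p = q
    · subst e
      simpa using hc
    · simp [Pi.single_eq_of_ne e]
  · rw [bb_eq]
    exact sum_eq_zero fun p _ => h p trivial _ (ha p trivial)

theorem prime_of (hS : ∀ p ∈ S, Gp p) (hp : p ∈ S ∪ T30) : p.Prime :=
  (mem_union.1 hp).elim (fun a => (hS p a).1) fun a => (mem_T30.1 a).1

theorem rk_pi (hS : ∀ p ∈ S, Gp p) (U : (p : Ix S) → Submodule F2 (Hc p)) :
    finrank F2 (Submodule.pi Set.univ U) = ∑ p, finrank F2 (U p) := by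
  have := fun p : Ix S => (hc_fin (prime_of hS p.2)).1
  have := fun p : Ix S => Module.Free.of_divisionRing F2 (U p)
  rw [← finrank_pi_fintype]
  exact LinearEquiv.finrank_eq
    { toFun := fun a p => ⟨a.1 p, a.2 p trivial⟩
      invFun := fun a => ⟨fun p => (a p).1, fun p _ => (a p).2⟩
      map_add' := fun _ _ => rfl
      map_smul' := fun _ _ => rfl }

theorem hh_fin (hS : ∀ p ∈ S, Gp p) : FiniteDimensional F2 (HH S) :=
  have := fun p : Ix S => (hc_fin (prime_of hS p.2)).1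
  inferInstance

theorem disj (hS : ∀ p ∈ S, Gp p) : Disjoint S T30 :=
  disjoint_left.2 fun p a => (hS p a).ne.2.2.2.1

theorem hh_le (hS : ∀ p ∈ S, Gp p) : finrank F2 (HH S) ≤ 2 * S.card + 7 := by
  have := fun p : Ix S => (hc_fin (prime_of hS p.2)).1
  rw [finrank_pi_fintype, sum_coe_sort (S ∪ T30) fun p => finrank F2 (Hc p), sum_union (disj hS)]
  refine add_le_add ((sum_le_card_nsmul _ _ _ fun p hp => hc_odd (hS p hp).1
    (hS p hp).ne.1).trans (by simp [mul_comm])) ?_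
  have h2 := (hc_fin Nat.prime_two).2
  have h3 := hc_odd Nat.prime_three (by norm_num)
  have h5 := hc_odd Nat.prime_five (by norm_num)
  rw [T30, sum_insert (by decide), sum_pair (by decide)]
  omega

/-- global characters which are unramified outside `30 S` -/
def Gc (S : Finset ℕ) (χ : GQ → F2) : Prop :=
  IsCh ⊤ χ ∧ ∀ w : Pl, ¬ w.p ∣ 30 → w.p ∉ S → ∀ g ∈ w.I, χ g = 0

/-- `φ` is the family of the restrictions of `χ` -/
def Rs (χ : GQ → F2) (φ : HH S) : Prop := ∀ p : Ix S, ∀ g ∈ (pl p).D, (φ p).1 g = χ g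

/-- the family of the restrictions -/
noncomputable def rg (S : Finset ℕ) (h : IsCh ⊤ χ) : HH S := fun p => rc p (h.mono le_top)

theorem rs_rg (h : IsCh ⊤ χ) : Rs χ (rg S h) := fun _ _ hg => rc_of _ hg

theorem Rs.eq {φ φ' : HH S} (h : Rs χ φ) (h' : Rs χ φ') : φ = φ' :=
  funext fun p => hc_ext fun g hg => (h p g hg).trans (h' p g hg).symm

theorem Gc.zero (h : Gc S χ) (h0 : Rs χ (0 : HH S)) : χ = 0 := by
  have h1 : ∀ p ∈ S ∪ T30, ∀ g ∈ (pl p).D, χ g = 0 := fun p hp g hg => (h0 ⟨p, hp⟩ g hg).symm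
  obtain ⟨m, hm, rfl⟩ := exists_qz hA h.1
  have h3 := h1 3 (by simp [T30]) _ (fr_D Nat.prime_three (by norm_num))
  have h4 := h1 5 (by simp [T30]) _ (fr_D Nat.prime_five (by norm_num))
  have h5 : m.natAbs ∣ 2 := by
    rw [← Nat.prod_primeFactors_of_squarefree (Int.squarefree_natAbs.2 hm)]
    refine (Finset.prod_dvd_prod_of_subset _ {2} _ fun p hp => ?_).trans (by simp)
    have k := Nat.prime_of_mem_primeFactors hp
    have e := pl_p k
    refine Finset.mem_singleton.2 (by_contra fun h6 => ?_)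
    refine (qz_gen hA (by rwa [e]) (tp_I k h6) (by rw [e]; exact tp_mov k h6) hm).1 ?_ ?_
    · by_cases h7 : p ∈ S ∪ T30
      · exact h1 p h7 _ (tp_D k h6)
      · rw [mem_union, mem_T30, not_or] at h7
        exact h.2 _ (by rw [e]; exact fun a => h7.2 ⟨k, a⟩) (by rw [e]; exact h7.1) _ (tp_I k h6)
    rw [e]
    exact Int.natCast_dvd.2 (Nat.dvd_of_mem_primeFactors hp)
  have h6 : m = 1 ∨ m = -1 ∨ m = 2 ∨ m = -2 := by
    rcases (Nat.dvd_prime Nat.prime_two).1 h5 with h6 | h6 <;> omega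
  rcases h6 with rfl | rfl | rfl | rfl
  · exact qz_one
  · rw [qz_fr Nat.prime_three (by norm_num), js, if_neg (by norm_num)] at h3
    exact absurd h3 one_ne_zero
  · rw [qz_fr Nat.prime_three (by norm_num), js, if_neg (by norm_num)] at h3
    exact absurd h3 one_ne_zero
  · rw [qz_fr Nat.prime_five (by norm_num), js, if_neg (by norm_num)] at h4
    exact absurd h4 one_ne_zero

/-- the restrictions of the global characters, which are even unless `c` holds -/
def GG (S : Finset ℕ) (c : Prop) : Submodule F2 (HH S) where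
  carrier := {φ | ∃ χ, Gc S χ ∧ Rs χ φ ∧ (c ∨ χ tau = 0)}
  zero_mem' := ⟨fun _ => 0, ⟨ch_zero, fun _ _ _ _ _ => rfl⟩, fun _ _ _ => rfl, .inr rfl⟩
  add_mem' := fun ⟨χ, a, b, c⟩ ⟨ψ, a', b', c'⟩ => ⟨fun g => χ g + ψ g, ⟨a.1.add a'.1,
    fun w x y g hg => by simp [a.2 w x y g hg, a'.2 w x y g hg]⟩,
    fun p g hg => by simp [b p g hg, b' p g hg], by grind⟩
  smul_mem' := fun s _ ⟨χ, a, b, c⟩ => ⟨fun g => s * χ g, ⟨ch_mul s a.1,
    fun w x y g hg => by simp [a.2 w x y g hg]⟩, fun p g hg => by simp [b p g hg], by grind⟩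

theorem gc_eps : Gc S (qz (-1)) := ⟨isCh_qz _, fun _ a _ _ hg => bs_I a hg 0⟩

theorem gg_orth (hS : ∀ p ∈ S, Gp p) : GG S False ≤ (BB S).orthogonal (GG S True) := by
  rintro φ ⟨χ, a, b, c⟩ φ' ⟨ψ, a', b', -⟩
  rw [bb_eq, sum_congr rfl fun p _ => bp_of (b' p) (b p),
    sum_coe_sort (S ∪ T30) fun p => iv p (cu ψ χ)]
  refine recp_iv (fun p => prime_of hS) (co2_cu a'.1 a.1) (Triv.one.congr fun g _ k hk => ?_)
    fun w hw => ?_
  · have : χ k = 0 := by
      rcases mem_Ht.1 hk with rfl | rfl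
      exacts [a.1.one, c.resolve_left id]
    simp [sgn, cu, this]
  · rw [mem_union, mem_T30, not_or] at hw
    have h2 : ¬ w.p ∣ 30 := fun e => hw.2 ⟨w.prime, e⟩
    exact triv_cu_unr (a'.1.mono le_top) (a.1.mono le_top)
      fun g hg => ⟨a'.2 w h2 hw.1 g hg, a.2 w h2 hw.1 g hg⟩

theorem gg_ge (hS : ∀ p ∈ S, Gp p) : S.card + 4 ≤ finrank F2 (GG S True) := by
  have := hh_fin hS
  let f : Fin 4 ⊕ S → GQ → F2 := Sum.elim (fun i => qz (bs i)) fun q => qs q
  have hf : ∀ i, Gc S (f i) := by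
    rintro (i | q)
    · exact ⟨isCh_qz _, fun w a _ g hg => bs_I a hg i⟩
    · exact ⟨isCh_qs _, fun w _ b g hg =>
        qs_I (hS _ q.2).1 (hS _ q.2).ne.1 (fun e => b (e ▸ q.2)) hg⟩
  let v : Fin 4 ⊕ S → GG S True := fun i => ⟨rg S (hf i).1, _, hf i, rs_rg _, .inl trivial⟩
  have hv : LinearIndependent F2 v := Fintype.linearIndependent_iff.2 fun c hc => by
    have h1 : (fun g => ∑ i, c i * f i g) = 0 := Gc.zero (S := S)
      ⟨IsCh.sum fun i _ => ch_mul _ (hf i).1, fun w a b g hg =>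
        sum_eq_zero fun i _ => by rw [(hf i).2 w a b g hg, mul_zero]⟩ fun p g hg => by
        have := congrArg (fun z : GG S True => (z.1 p).1 g) hc
        simpa [v, rs_rg _ p g hg] using this.symm
    have h2 : ∀ q : S, c (.inr q) = 0 := fun q => by
      have k := hS _ q.2
      have := congrFun h1 (tp q)
      simpa [f, bs_I (by rw [pl_p k.1]; exact k.2) (tp_I k.1 k.ne.1), qs_tp k (hS _ (coe_mem _)),
        Subtype.ext_iff.symm] using this
    obtain ⟨s, hs⟩ := BasH.dual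
    rintro (i | q)
    · simpa [f, h2, hs] using congrFun h1 (s i)
    · exact h2 q
  simpa [add_comm] using hv.fintype_card_le_finrank

theorem gg_le (hS : ∀ p ∈ S, Gp p) : finrank F2 (GG S True) ≤ finrank F2 (GG S False) + 1 := by
  have := hh_fin hS
  have h1 : GG S True ≤ GG S False ⊔ F2 ∙ rg S (isCh_qz (-1)) := by
    rintro φ ⟨χ, a, b, -⟩
    refine Submodule.mem_sup.2 ⟨φ + χ tau • rg S (isCh_qz (-1)),
      ⟨fun g => χ g + χ tau * qz (-1) g, ⟨a.1.add (ch_mul _ (isCh_qz _)), fun w x y g hg => by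
        simp [a.2 w x y g hg, (gc_eps (S := S)).2 w x y g hg]⟩, fun p g hg => by
        simp [b p g hg, rs_rg _ p g hg], .inr (by simp [eps_tau, LC.two])⟩, _,
      Submodule.smul_mem _ (χ tau) (Submodule.mem_span_singleton_self _), ?_⟩
    rw [add_assoc, ← add_smul, LC.two, zero_smul, add_zero]
  exact (Submodule.finrank_mono h1).trans ((Submodule.finrank_add_le_finrank_add_finrank _ _).trans
    (add_le_add le_rfl (by simpa using finrank_span_le_card {rg S (isCh_qz (-1))})))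

theorem gg_dual (hS : ∀ p ∈ S, Gp p) : (BB S).orthogonal (GG S True) = GG S False ∧
    (BB S).orthogonal (GG S False) = GG S True ∧ finrank F2 (GG S True) = S.card + 4 ∧
    finrank F2 (GG S False) = S.card + 3 ∧ finrank F2 (HH S) = 2 * S.card + 7 := by
  have := hh_fin hS
  have h1 := (BB S).finrank_orthogonal bb_nd (GG S True)
  have h2 := Submodule.finrank_mono (gg_orth hS)
  have h3 := gg_ge hS
  have h4 := gg_le hS
  have h5 := hh_le hS
  have h6 := (Submodule.eq_of_le_of_finrank_le (gg_orth hS) (by omega)).symm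
  refine ⟨h6, ?_, by omega, by omega, by omega⟩
  rw [← h6, (BB S).orthogonal_orthogonal bb_nd fun x y e => by rw [bb_sy, e]]

end Pool.Agent.P.MP_8b7eba_nt.QT.PP
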