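import Pool.Agent.P.MP_8b7eba_nt.CG.PB

/-! Self-dual local conditions. -/

set_option linter.unusedSectionVars false

namespace Pool.Agent.P.MP_8b7eba_nt.QT.PP

open Finset R2 SM BasW Module Filter R1 R2x R3x

variable {p n m a b k : ℕ} {ρ x y z κ β β' : GQ → O} {H : Subgroup GQ} {u v : O} {s t : F2}

/-- the leading term -/
def Le (a : ℕ) (u : O) (s : F2) : Prop := Dv (a + 1) (u - om ^ a * lf s)

theorem Le.dv (h : Le a u s) : Dv a u := let ⟨_, e, _⟩ := dv_lf.1 h; e ▸ dv_om _ _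

theorem Le.congr (h : Le a u s) (e : Dv (a + 1) (v - u)) : Le a v s := e.trans h

theorem Le.add (h : Le a u s) (h' : Le a v t) : Le a (u + v) (s + t) := by
  obtain ⟨c, rfl, rfl⟩ := dv_lf.1 h
  obtain ⟨d, rfl, rfl⟩ := dv_lf.1 h'
  exact dv_lf.2 ⟨c + d, by ring, rd_add ..⟩

theorem Le.sub (h : Le a u s) (h' : Le a v t) : Le a (u - v) (s + t) := by
  obtain ⟨c, rfl, rfl⟩ := dv_lf.1 h
  obtain ⟨d, rfl, rfl⟩ := dv_lf.1 h'
  exact dv_lf.2 ⟨c - d, by ring, rd_sub ..⟩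

theorem Le.mul (h : Le a u s) (h' : Le b v t) : Le (a + b) (u * v) (s * t) := by
  obtain ⟨c, rfl, rfl⟩ := dv_lf.1 h
  obtain ⟨d, rfl, rfl⟩ := dv_lf.1 h'
  exact dv_lf.2 ⟨c * d, by ring, rd_mul ..⟩

theorem le_zero : Le a u 0 ↔ Dv (a + 1) u := by simp [Le, lf_zero]

theorem Le.eq (h : Le a u s) (h' : Le a u t) : s = t := by
  obtain ⟨c, rfl, rfl⟩ := dv_lf.1 h
  obtain ⟨d, e, rfl⟩ := dv_lf.1 h'
  rw [mul_left_cancel₀ (al_om a).ne e]

theorem le_rd (u : O) : Le 0 u (rd u) := dv_lf.2 ⟨u, by simp, rfl⟩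

theorem le_lf (a : ℕ) (s : F2) : Le a (om ^ a * lf s) s := dv_refl _

theorem le_al (h : Al a u) : Le a u 1 := by
  obtain ⟨c, hc, rfl⟩ := h.eq
  exact dv_lf.2 ⟨c, rfl, unit_iff.1 hc⟩

theorem Le.smul (h : Le a u s) (c : F2) : Le a ((c.val : Z2) • u) (c * s) := by
  rcases f2 c with rfl | rfl
  · simpa [le_zero] using dv_zero
  · simpa [LC.v1] using h

theorem Le.ac (h : Le a u s) (hρ : Cy ρ) (g : GQ) : Le a (ac ρ g u) s :=
  h.congr (hρ.dv_bd h.dv g)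

theorem le_two : Le (a + 2) (2 * u) s ↔ Le a u s := by
  refine ⟨fun h => ?_, fun h => by
    simpa [add_comm] using (le_al (al_two 1)).mul h⟩
  have h1 : Dv a u := (al_two 1).dv_mul.1 (by simpa [add_comm] using h.dv)
  obtain ⟨c, rfl⟩ := dv_iff.1 h1
  have h2 : Le a (om ^ a * c) (rd c) := dv_lf.2 ⟨c, rfl, rfl⟩
  rwa [h.eq (t := rd c) (by simpa [add_comm] using (le_al (al_two 1)).mul h2)]

theorem pr_dv (h : Dv a u) (h' : Dv b v) (hk : 2 * k ≤ a + b) : 2 ^ k ∣ pr 1 u v :=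
  (((h.star.mul_left 1).mul h').mono hk).im

theorem pr_self (u : O) : pr 1 u u = 0 := by simp [pr]; ring

theorem pr_swap (u v : O) : pr 1 u v = -pr 1 v u := by simp [pr]; ring

theorem lead (hρ : Cy ρ) (hx : Zn ρ H (a + 1) x) (h : ∀ g ∈ H, Dv a (x g)) :
    ∃ l, IsCh H l ∧ ∀ g ∈ H, Le a (x g) (l g) := by
  choose! y hy using fun g hg => dv_iff.1 (h g hg)
  exact ⟨_, hx.isCh_pow hρ hy, fun g hg => dv_lf.2 ⟨_, hy g hg, rfl⟩⟩

variable [HA]

theorem en_le (h : Le a u s) (h' : Le b v t) (hk : a + b = 2 * k + 1) :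
    en (k + 1) (pr 1 u v) = (-1) ^ (s * t).val := by
  obtain ⟨c, rfl, rfl⟩ := dv_lf.1 h
  obtain ⟨d, rfl, rfl⟩ := dv_lf.1 h'
  obtain ⟨e, h1, h2⟩ := im_al (hk ▸ (al_om a).star.mul (al_om b)) (star c * d)
  rw [pr, one_mul, star_mul', show star (om ^ a) * star c * (om ^ b * d) =
    star (om ^ a) * om ^ b * (star c * d) by ring, h1, add_comm k 1, en_shift, en_half, h2, rd_mul,
    rd_star]

/-- orthogonal at all levels -/
def Ot (ρ : GQ → O) (H : Subgroup GQ) (x y : GQ → O) : Prop := ∀ m, Triv H (wp 1 ρ m x y)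

theorem Ot.congr (h : Ot ρ H x y) (e : ∀ g ∈ H, z g = y g) : Ot ρ H x z :=
  fun m => (h m).congr fun g _ k hk => by rw [wp_eq, wp_eq, e k hk]

theorem Ot.add (h : Ot ρ H x y) (h' : Ot ρ H x z) : Ot ρ H x fun g => y g + z g :=
  fun m => wp_add_r 1 ρ m x y z ▸ (h m).mul (h' m)

theorem wp_smul (c : Z2) {j : ℕ} (hj : 2 ^ m ∣ c - j) :
    (wp 1 ρ m x fun g => c • y g) = wp 1 ρ m x y ^ j := by
  funext g h
  simp only [Pi.pow_apply, wp_eq]
  rw [ac_smul, pr_smul_r, en_nat]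
  exact en_congr (by rw [← sub_mul]; exact hj.mul_right _)

theorem Ot.smul (h : Ot ρ H x y) (c : Z2) : Ot ρ H x fun g => c • y g := fun m => by
  obtain ⟨j, hj⟩ := exists_nat m c
  exact wp_smul c hj ▸ (h m).pow j

theorem Ot.half (e : ℕ) (h : Ot ρ H x fun g => 2 ^ e * y g) : Ot ρ H x y :=
  fun m => (h (m + e)).congr fun g _ k _ => by rw [wp_eq, wp_eq, ac_two, pr_two_r, en_shift]

theorem ot_ex (hρ : Cy ρ) (hx : ∀ n, Zn ρ H n x) (hy : Ex false ρ H y) : Ot ρ H x y :=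
  wp_ex hρ hρ (rl_one ρ) (ex_true hx) hy

theorem Ot.swap (hρ : Cy ρ) (hx : ∀ n, Zn ρ H n x) (hy : ∀ n, Zn ρ H n y) (h : Ot ρ H x y) :
    Ot ρ H y x := fun m => by
  have key : Triv H fun g h => en m (pr 1 (y g) (ac ρ g (x h)) - pr 1 (x g) (ac ρ g (y h))) := by
    refine triv (fun g => pr 1 (x g) (y g)) ?_ fun g hg h hh => ?_
    · obtain ⟨N, hN, s1⟩ := (hx (2 * m)).sm
      obtain ⟨M, hM, s2⟩ := (hy (2 * m)).sm
      refine ⟨_, hM.inf hN, fun g hg k hk a => ?_⟩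
      have := dvd_add (pr_l' 1 (s1 g hg k hk a.2) (y (g * k))) (pr_r' 1 (x g) (s2 g hg k hk a.1))
      rw [pr_sub_r, pr_sub_l] at this
      simpa using this
    · rw [Zn.exact hx hg hh, Zn.exact hy hg hh, pr_add_l, pr_add_r, pr_add_r,
        pr_ac hρ (rl_one ρ), pr_swap (ac ρ g (x h))]
      ring
  exact (key.mul (h m)).congr fun g _ k _ => by
    simp only [Pi.mul_apply, wp_eq, ← en_add, sub_add_cancel]

theorem ex_smul (hρ : Cy ρ) {c : Z2} (hc : c ≠ 0) (h : Ex false ρ H fun g => c • x g) :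
    Ex false ρ H x := by
  obtain ⟨e, v, hv⟩ := h.2 rfl
  obtain ⟨u, hu⟩ : ∃ (u : Z2ˣ), c = u * 2 ^ c.valuation := ⟨_, PadicInt.unitCoeff_spec hc⟩
  refine ex_of_bd hρ (e := e + c.valuation) (v := (u⁻¹ : Z2ˣ).1 • v) fun g hg => ?_
  rw [bd_smul, ← hv g hg, ← two_smul_eq, ← two_smul_eq, smul_smul, smul_smul]
  generalize c.valuation = j at hu
  rw [hu, show (u⁻¹ : Z2ˣ).1 * 2 ^ e * (u * 2 ^ j) = (u⁻¹ : Z2ˣ).1 * u * 2 ^ (e + j) by ring,
    Units.inv_mul, one_mul]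

theorem line (hρ : Cy ρ) (hκ : ∀ n, Zn ρ (pl 2).D n κ) (h1 : Ot ρ (pl 2).D κ κ)
    (h0 : ¬ Ex false ρ (pl 2).D κ) (hβ : ∀ n, Zn ρ (pl 2).D n β) (h2 : Ot ρ (pl 2).D κ β) :
    ∃ c : Z2, ∃ e : ℕ, Ex false ρ (pl 2).D fun g => 2 ^ e * β g - c • κ g := by
  by_contra h
  obtain ⟨e, he⟩ := unif (ρ := ρ) (X := κ) (Y := β) (H := (pl 2).D) fun u v h1 => by
    have h3 : Ex false ρ (pl 2).D fun g => u.re • κ g + u.im • β g :=
      ex_of_bd hρ (e := 0) (v := -v) fun g hg => by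
        rw [bd_neg, pow_zero, one_mul, eq_neg_iff_add_eq_zero]
        exact h1 g hg
    have h4 : u.im = 0 := by_contra fun h4 => by
      obtain ⟨w, hw⟩ : ∃ (w : Z2ˣ), u.im = w * 2 ^ u.im.valuation :=
        ⟨_, PadicInt.unitCoeff_spec h4⟩
      refine h ⟨-((w⁻¹ : Z2ˣ).1 * u.re), u.im.valuation, ?_⟩
      convert h3.smul (w⁻¹ : Z2ˣ).1 using 2 with g
      generalize u.im.valuation = j at hw
      rw [hw, smul_add, smul_smul, smul_smul, ← mul_assoc, Units.inv_mul, one_mul, two_smul_eq,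
        neg_smul]
      ring
    have h5 : u.re = 0 := by_contra fun h5 => h0 (ex_smul hρ h5 (by simpa [h4] using h3))
    obtain rfl : u = 0 := by ext <;> simp [h4, h5]
    obtain ⟨g, hg, h3, h4⟩ := exists_ne hρ (pl 2)
    have h5 := h1 g hg
    simp only [cm, bd, ac, cj_of h3, QuadraticAlgebra.re_zero, QuadraticAlgebra.im_zero, zero_smul,
      zero_add] at h5
    exact ⟨rfl, (mul_eq_zero.1 (show (ρ g - 1) * v = 0 by linear_combination h5)).resolve_left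
      (sub_ne_zero.2 h4)⟩
  obtain ⟨m, hm⟩ : ∃ m, m = 6 * e + 1 := ⟨_, rfl⟩
  have z : ∀ u v n, Zn ρ (pl 2).D n (cm ρ κ β u v) := fun u v n =>
    (((hκ n).smul _).add ((hβ n).smul _)).add (zn_bd hρ v)
  have z' : ∀ u v, Zn ρ (pl 2).D (2 * (m + e)) (cm ρ κ β u v) := fun u v => z u v _
  obtain ⟨f1, f2⟩ := ep_O hρ (pl_p Nat.prime_two) (m := m) (c := e)
    fun b hb => (he m 0 b fun g hg => by simpa [cm] using hb g hg).2
  have k : ∀ {i j : Mn m}, Dv (2 * m) (sc m i - sc m j) → i = j := fun {i j} e => by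
    rw [← rn_sc i, rn_eq.2 e, rn_sc]
  have h3 := count (fun i : ZMod (2 ^ m) => pa hρ (z' (sc m (i, 0)) 0)) (fun i j hij => ?_)
    (fun i : Mn m × Mn m => rs (z' (sc m i.1) (sc m i.2))) (fun i j hij => ?_)
    fun i j => (pa_rs hρ _ _).2 ?_
  · rw [Nat.card_prod (Mn m), card_Mn, Nat.card_zmod] at h3
    have h4 := h3.trans f2
    rw [show 4 = 2 ^ 2 by norm_num] at h4
    simp only [← pow_add, ← pow_mul] at h4
    have := (Nat.pow_le_pow_iff_right (by norm_num)).1 h4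
    omega
  · obtain ⟨v, hv⟩ := ld_O hρ (z' (sc m (i, 0) - sc m (j, 0)) 0) fun y hy => by
      have h4 : pa hρ (z' (sc m (i, 0)) 0) (rs hy) = pa hρ (z' (sc m (i, 0) - sc m (j, 0)) 0)
          (rs hy) * pa hρ (z' (sc m (j, 0)) 0) (rs hy) := by
        refine Eq.trans ?_ ((hA.inv _ _ (pl 2).loc_D).mul _ _ (cw hρ (z' _ _) (zn_sc (rs hy).2.1))
          (cw hρ (z' _ _) (zn_sc (rs hy).2.1)))
        rw [← wp_add]
        simp only [← cm_add, sub_add_cancel, add_zero]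
        rfl
      rw [show pa hρ (z' (sc m (i, 0)) 0) = _ from hij] at h4
      exact (pa_rs hρ _ _).1 ((mul_eq_right₀ (AddChar.val_isUnit ..).ne_zero).1 h4.symm)
    exact congrArg Prod.fst
      (k (he m (sc m (i, 0) - sc m (j, 0)) (-v) fun g hg =>
        of_eq (hv g hg) (by simp [cm, bd_neg, bd_zero]; ring)).1)
  · obtain ⟨h4, h5⟩ := he m (sc m i.1 - sc m j.1) (sc m i.2 - sc m j.2) fun g hg => by
      rw [cm_sub]
      refine (rs_dv (z' _ _) hg).symm.trans ?_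
      rw [show rs (z' (sc m i.1) (sc m i.2)) = _ from hij]
      exact rs_dv _ hg
    exact Prod.ext (k h4) (k h5)
  · have h4 : Ot ρ (pl 2).D κ (cm ρ κ β (sc m j.1) (sc m j.2)) :=
      ((h1.smul _).add (h2.smul _)).add (ot_ex hρ hκ (ex_bd hρ _))
    refine Ot.swap hρ (z _ _) (z _ _) (((h4.swap hρ hκ (z _ _)).smul (i.val : Z2)).congr
      fun g _ => by simp [cm, sc, bd_zero]) _

/-- the exact cocycles which are orthogonal to `κ` -/
def Lam (ρ : GQ → O) (p : ℕ) (κ b : GQ → O) : Prop :=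
  (∀ n, Zn ρ (pl p).D n b) ∧ Ot ρ (pl p).D κ b

theorem Lam.add (h : Lam ρ p κ β) (h' : Lam ρ p κ β') : Lam ρ p κ fun g => β g + β' g :=
  ⟨fun n => (h.1 n).add (h'.1 n), h.2.add h'.2⟩

theorem Lam.smul (h : Lam ρ p κ β) (c : Z2) : Lam ρ p κ fun g => c • β g :=
  ⟨fun n => (h.1 n).smul c, h.2.smul c⟩

theorem lam_zero : Lam ρ p κ fun _ => 0 :=
  ⟨fun _ => zn_zero, fun _ => Triv.one.congr fun g _ k _ => en_one (by simp [pr, ac_zero])⟩

/-- a class which defines a self-dual local condition -/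
structure Kp (ρ : GQ → O) (p : ℕ) (κ : GQ → O) : Prop where
  lam : Lam ρ p κ κ
  iso : ∀ b b', Lam ρ p κ b → Lam ρ p κ b' → Ot ρ (pl p).D b b'

theorem Kp.ex (h : Kp ρ p κ) (hρ : Cy ρ) (hβ : Ex false ρ (pl p).D β) : Lam ρ p κ β :=
  ⟨hβ.1, ot_ex hρ h.lam.1 hβ⟩

theorem kp_odd (hρ : Cy ρ) (hp : p.Prime) (h2 : p ≠ 2) : Kp ρ p fun _ => 0 :=
  ⟨lam_zero, fun _ _ h h' => ot_ex hρ h.1 (ex_odd hρ hp h2 h'.1)⟩

theorem lam_odd (hβ : ∀ n, Zn ρ (pl p).D n β) : Lam ρ p (fun _ => 0) β :=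
  ⟨hβ, fun _ => Triv.one.congr fun g _ k _ => en_one (by simp [pr])⟩

theorem kp_two (hρ : Cy ρ) (hκ : Lam ρ 2 κ κ) (h0 : ¬ Ex false ρ (pl 2).D κ) : Kp ρ 2 κ := by
  refine ⟨hκ, fun b b' h h' => ?_⟩
  obtain ⟨c, e, he⟩ := line hρ hκ.1 hκ.2 h0 h'.1 h'.2
  exact Ot.half e (((ot_ex hρ h.1 he).add ((h.2.swap hρ hκ.1 h.1).smul c)).congr
    fun g _ => by simp)

/-- the leading terms of the local condition -/
def La (ρ : GQ → O) (p : ℕ) (κ : GQ → O) (a : ℕ) : Submodule F2 (Hc p) where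
  carrier := {l | ∃ b, Lam ρ p κ b ∧ ∀ g ∈ (pl p).D, Le a (b g) (l.1 g)}
  zero_mem' := ⟨_, lam_zero, fun _ _ => le_zero.2 dv_zero⟩
  add_mem' := fun ⟨_, a, b⟩ ⟨_, a', b'⟩ => ⟨_, a.add a', fun g hg => (b g hg).add (b' g hg)⟩
  smul_mem' := fun c _ ⟨_, a, b⟩ => ⟨_, a.smul _, fun g hg => (b g hg).smul c⟩

theorem la_two : La ρ p κ (a + 2) = La ρ p κ a := by
  ext l
  refine ⟨fun ⟨b, h1, h2⟩ => ?_, fun ⟨b, h1, h2⟩ => ⟨_, h1.smul (2 ^ 1), fun g hg => by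
    rw [two_smul_eq, pow_one]; exact le_two.2 (h2 g hg)⟩⟩
  choose! c hc using fun g hg => dv_two.1 ((h2 g hg).dv.mono (by omega : 2 * 1 ≤ a + 2))
  refine ⟨c, ⟨fun n => (zn_pow (rl_two ρ 1) (al_two 1) hc).1 (h1.1 _),
    Ot.half 1 (h1.2.congr fun g hg => (hc g hg).symm)⟩, fun g hg => le_two.1 ?_⟩
  simpa [hc g hg] using h2 g hg

theorem la_mod : La ρ p κ a = La ρ p κ (a % 2) := by
  conv_lhs => rw [← Nat.mod_add_div a 2]
  induction a / 2 with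
  | zero => rfl
  | succ n ih => rw [mul_add, ← add_assoc, la_two, ih]

theorem la_iso (hρ : Cy ρ) (h : Kp ρ p κ) (hab : Odd (a + b)) :
    La ρ p κ b ≤ (Bp p).orthogonal (La ρ p κ a) := by
  rintro l' ⟨β', h1, h2⟩ l ⟨β, h3, h4⟩
  obtain ⟨k, hk⟩ := hab
  exact iv_zero.2 ((h.iso _ _ h3 h1 (k + 1)).congr fun g hg i hi =>
    (en_le (h4 g hg) ((h2 i hi).ac hρ g) hk).symm)

theorem loc_lim (hρ : Cy ρ) (hp : p.Prime) (x : ℕ → GQ → O)
    (hx : ∀ k, Zn ρ (pl p).D (2 * k) (x k)) : ∃ X : GQ → O, ∀ n,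
      ∀ᶠ k in (hyperfilter ℕ : Filter ℕ), n ≤ k ∧ ∀ g ∈ (pl p).D, Dv n (X g - x k g) := by
  obtain ⟨s, h0, hs⟩ := exists_test hp
  choose X hX using fun g => exists_lim (hyperfilter ℕ) fun k => x k g
  refine ⟨X, fun n => ?_⟩
  have h1 := ((eventually_ge_atTop n).filter_mono Nat.hyperfilter_le_atTop).and
    (eventually_all.2 fun i => hX (s i) n)
  filter_upwards [h1] with k hk
  refine ⟨hk.1, fun g hg => ?_⟩
  obtain ⟨j, hj, h2⟩ := (h1.and (hX g n)).exists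
  refine h2.symm.trans ((((hx j).mono le_rfl (by omega)).sub ((hx k).mono le_rfl
    (by omega))).zero_of hρ (Set.range s) (fun φ a b => hs φ a fun i => b _ ⟨i, rfl⟩) ?_ hg)
  rintro _ ⟨i, rfl⟩
  exact (hj.2 i).trans (hk.2 i).symm

omit [HA] in
theorem ch_pow {Z : Type} [AddCommGroup Z] [Finite Z] (χ ψ : AddChar Z Om)
    (h : ∀ z, χ z = 1 → ψ z = 1) : ∃ c : ℕ, ∀ z, ψ z = χ z ^ c := by
  let f : Multiplicative Z →* Omˣ := χ.toMonoidHom.toHomUnits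
  have : Finite f.range := Finite.of_surjective _ f.rangeRestrict_surjective
  obtain ⟨⟨_, z₀, rfl⟩, hz⟩ := IsCyclic.exists_monoid_generator (α := f.range)
  have h1 : ∀ z, ∃ j : ℕ, χ z₀.toAdd ^ j = χ z := fun z => by
    obtain ⟨j, hj⟩ := hz ⟨f (.ofAdd z), _, rfl⟩
    exact ⟨j, congrArg (fun a : f.range => (a.1 : Om)) hj⟩
  have h2 : ∀ z z', χ z = χ z' → ψ z = ψ z' := fun z z' e => by
    have := h (z - z') (by rw [AddChar.map_sub_eq_div, e, div_self (χ.val_isUnit _).ne_zero])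
    rwa [AddChar.map_sub_eq_div, div_eq_one_iff_eq (ψ.val_isUnit _).ne_zero] at this
  have h3 := IsPrimitiveRoot.orderOf (χ z₀.toAdd)
  have : NeZero (orderOf (χ z₀.toAdd)) :=
    ⟨(orderOf_pos_iff.2 (χ.toMonoidHom.isOfFinOrder (isOfFinOrder_of_finite z₀))).ne'⟩
  obtain ⟨c, -, hc⟩ := h3.eq_pow_of_pow_eq_one (ξ := ψ z₀.toAdd) (by
    rw [← AddChar.map_nsmul_eq_pow]
    exact h _ (by rw [AddChar.map_nsmul_eq_pow, pow_orderOf_eq_one]))
  refine ⟨c, fun z => ?_⟩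
  obtain ⟨j, hj⟩ := h1 z
  rw [← hj, ← h2 (j • z₀.toAdd) z (by rw [AddChar.map_nsmul_eq_pow, hj]),
    AddChar.map_nsmul_eq_pow, ← hc, pow_right_comm]

theorem zg_fin (hρ : Cy ρ) (hp : p.Prime) (n : ℕ) : Finite (ZG ρ n (pl p).D) := by
  obtain ⟨s, h0, hs⟩ := exists_test hp
  refine Finite.of_injective (fun z i => z.1 (s i)) fun z z' e => Subtype.ext (funext fun g => ?_)
  by_cases hg : g ∈ (pl p).D
  · rw [← rn_sc (z.1 g), ← rn_sc (z'.1 g), rn_eq]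
    refine ((zn_sc z.2.1).sub (zn_sc z'.2.1)).zero_of hρ (Set.range s)
      (fun φ a b => hs φ a fun i => b _ ⟨i, rfl⟩) ?_ hg
    rintro _ ⟨i, rfl⟩
    rw [show z.1 (s i) = z'.1 (s i) from congrFun e i]
    exact dv_refl _
  · rw [z.2.2 g hg, z'.2.2 g hg]

theorem la_dual (hρ : Cy ρ) (hp : p.Prime) (h : Kp ρ p κ) :
    (Bp p).orthogonal (La ρ p κ 0) ≤ La ρ p κ 1 := by
  intro l hl
  obtain ⟨n, hn⟩ : ∃ n, ∀ z, Zn ρ (pl p).D (2 * (n + 1)) z → Triv (pl p).D (wp 1 ρ (n + 1) κ z) →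
      Triv (pl p).D (sgn (cu l.1 fun g => rd (z g))) := by
    by_contra h1
    push Not at h1
    choose z z1 z2 z3 using h1
    obtain ⟨Z, hZ⟩ := loc_lim hρ hp z fun k => (z1 k).mono le_rfl (by omega)
    have h2 : Lam ρ p κ Z := by
      refine ⟨fun n => ?_, fun m => ?_⟩
      · obtain ⟨k, a, b⟩ := (hZ n).exists
        exact ((z1 k).mono le_rfl (by omega)).congr b
      · obtain ⟨k, a, b⟩ := (hZ (2 * m)).exists
        obtain ⟨j, hj⟩ : ∃ j, k + 1 = m + j := ⟨k + 1 - m, by omega⟩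
        refine ((z2 k).pow (2 ^ j)).congr fun g _ i hi => ?_
        rw [cg (b i hi), Pi.pow_apply, Pi.pow_apply, wp_eq, wp_eq, en_nat, hj, Nat.cast_pow,
          Nat.cast_ofNat, en_shift]
    obtain ⟨k, -, b⟩ := (hZ 1).exists
    have h3 := (h2.1 1).isCh hρ
    have h4 := hl (rc p h3) ⟨Z, h2, fun g hg => by rw [rc_of h3 hg]; exact le_rd _⟩
    rw [bp_sy, bp_of (fun _ _ => rfl) fun g hg => (rc_of h3 hg).trans (rd_eq.2 (b g hg))] at h4
    exact z3 k (iv_zero.1 h4)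
  have hw : Zn ρ (pl p).D (2 * (n + 1)) fun g => om ^ (2 * n + 1) * lf (l.1 g) := zn_lf hρ l.2.1
  have hκ := h.lam.1 (2 * (n + 1))
  have := zg_fin hρ hp (n + 1)
  have I := hA.inv _ _ (pl p).loc_D
  obtain ⟨c, hc⟩ := ch_pow (pa hρ hκ) (pa hρ hw) fun z hz => by
    have k := zn_sc z.2.1
    refine I.triv _ (cw hρ hw k).1 ?_
    rw [wp_pow hρ al_one (zero_add _)]
    exact hn _ k (I.inj rfl _ (cw hρ hκ k) hz)
  obtain ⟨v, hv⟩ := ld_O hρ (hw.sub (hκ.smul c)) fun y hy => by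
    have k := zn_sc (rs hy).2.1
    have h1 : ∀ j : ℕ, pa hρ (hκ.smul j) (rs hy) = pa hρ hκ (rs hy) ^ j := fun j => by
      induction j with
      | zero =>
        refine (I.triv _ (cw hρ (hκ.smul ((0 : ℕ) : Z2)) k).1 (Triv.one.congr fun g _ i _ =>
          en_one (by simp [pr]))).trans (pow_zero _).symm
      | succ j ih =>
        rw [pow_succ (pa hρ hκ (rs hy)), ← ih]
        refine Eq.trans ?_ (I.mul _ _ (cw hρ (hκ.smul j) k) (cw hρ hκ k))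
        rw [← wp_add]
        simp only [Nat.cast_succ, add_smul, one_smul]
        rfl
    have h2 : pa hρ hw (rs hy) = pa hρ (hw.sub (hκ.smul c)) (rs hy) *
        pa hρ (hκ.smul c) (rs hy) := by
      refine Eq.trans ?_ (I.mul _ _ (cw hρ (hw.sub (hκ.smul c)) k) (cw hρ (hκ.smul c) k))
      rw [← wp_add]
      simp only [sub_add_cancel]
      rfl
    rw [h1, ← hc] at h2
    exact (pa_rs hρ _ _).1 ((mul_eq_right₀ (AddChar.val_isUnit ..).ne_zero).1 h2.symm)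
  have h3 : l ∈ La ρ p κ (2 * n + 1) := ⟨_, (h.lam.smul c).add (h.ex hρ (ex_bd hρ v)),
    fun g hg => of_eq (hv g hg).neg (by ring)⟩
  rwa [la_mod, show (2 * n + 1) % 2 = 1 by omega] at h3

theorem la_orth (hρ : Cy ρ) (hp : p.Prime) (h : Kp ρ p κ) (hab : Odd (a + b)) :
    (Bp p).orthogonal (La ρ p κ a) = La ρ p κ b := by
  have := (hc_fin hp).1
  have h1 := le_antisymm (la_dual hρ hp h) (la_iso hρ h (a := 0) (b := 1) (by decide))
  rw [la_mod (a := a), la_mod (a := b)]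
  obtain ⟨k, hk⟩ := hab
  rcases Nat.mod_two_eq_zero_or_one a with e | e
  · rwa [e, show b % 2 = 1 by omega]
  · rw [e, show b % 2 = 0 by omega, ← h1, (Bp p).orthogonal_orthogonal
      ⟨bp_nd, fun a h => bp_nd a fun b => by rw [bp_sy, h]⟩ fun x y e => by rw [bp_sy, e]]

end Pool.Agent.P.MP_8b7eba_nt.QT.PP
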