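import Pool.Agent.P.MP_8b7eba_nt.CG.PC
import Pool.Agent.P.MP_8b7eba_nt.QT.TGL

/-! Reciprocity for pairs of cocycles and for the Heisenberg class of a cocycle. -/

set_option linter.unusedSectionVars false

namespace Pool.Agent.P.MP_8b7eba_nt.QT.PP

open Finset R2 SM BasW Module R1

variable {p n n' m a b k : ℕ} {ρ x y z β β' : GQ → O} {H : Subgroup GQ} {S : Finset ℕ}
  {φ ψ l l' : GQ → F2}

/-- the Heisenberg expression -/
noncomputable def qq (u w s : O) : Z2 := pr 1 u w - pr 1 (u + w) s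

theorem qq_mod (e : F2) {r u v s : O} (hr : rd r = 1) (hs : rd s = rd u + rd v) :
    (PadicInt.toZMod (qq u (r * cs e v) s) : F2) = rd s * PadicInt.toZMod s.im +
      rd u * PadicInt.toZMod u.im + rd v * PadicInt.toZMod v.im + PadicInt.toZMod r.im * rd v := by
  simp only [rd, map_add] at hr hs ⊢
  rcases f2 e with rfl | rfl <;> simp [qq, pr, cs_zero, cs_one] <;> revert hr hs <;>
    generalize (PadicInt.toZMod r.re : F2) = a1 <;> generalize (PadicInt.toZMod r.im : F2) = a2 <;>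
    generalize (PadicInt.toZMod u.re : F2) = a3 <;> generalize (PadicInt.toZMod u.im : F2) = a4 <;>
    generalize (PadicInt.toZMod v.re : F2) = a5 <;> generalize (PadicInt.toZMod v.im : F2) = a6 <;>
    generalize (PadicInt.toZMod s.re : F2) = a7 <;> generalize (PadicInt.toZMod s.im : F2) = a8 <;>
    revert a1 a2 a3 a4 a5 a6 a7 a8 <;> decide

theorem pr_om (n : ℕ) (u v : O) : pr 1 (om ^ n * u) (om ^ n * v) = 2 ^ n * pr 1 u v := by
  have e : star (om ^ n) * om ^ n = 2 ^ n := by rw [star_pow, ← mul_pow, mul_comm, om_mul_star]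
  rw [← pr_two_r, pr, pr, star_mul', ← e]
  congr 1
  ring

variable [HA]

theorem recp2 (hρ : Tw ρ S) (hx : Zu ρ S (a + n) x) (hy : Zu ρ S (b + n') y) (ha : ∀ g, Dv a (x g))
    (hb : ∀ g, Dv b (y g)) (h1 : 2 * k ≤ a + b + n) (h2 : 2 * k ≤ a + b + n')
    (ht : Triv Ht (wp 1 ρ k x y)) :
    ∏ p ∈ S ∪ T30, nv (pl p) (pl p).D (wp 1 ρ k x y) = 1 := by
  choose x' ex using fun g => dv_iff.1 (ha g)
  choose y' ey using fun g => dv_iff.1 (hb g)
  have e : wp 1 ρ k x y = wp (star (om ^ a) * om ^ b) (shn b ρ) k x' y' := by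
    funext g h
    rw [wp_eq, wp_eq, ex, ey, (rl_shn b ρ).ac, pr, pr, star_mul']
    congr 2
    ring
  rw [e] at ht ⊢
  exact recp_wp (hρ.shn a) (hρ.shn b) ((rl_shn a ρ).symm.mul (rl_shn b ρ))
    ((al_om a).star.mul (al_om b)) h1 h2 ((zu_pow (rl_shn a ρ) (al_om a) ex).1 hx)
    ((zu_pow (rl_shn b ρ) (al_om b) ey).1 hy) ht

theorem wp_loc (hρ : Cy ρ) (h1 : n + b = 2 * k + 1) (h2 : a + n' = 2 * k + 1) (h3 : a < n)
    (hx : ∀ g ∈ H, Le a (x g) (φ g) ∧ Le n (x g - β g) (l g))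
    (hy : ∀ g ∈ H, Le b (y g) (ψ g) ∧ Le n' (y g - β' g) (l' g)) {g h : GQ} (hg : g ∈ H)
    (hh : h ∈ H) : wp 1 ρ (k + 1) x y g h =
      (wp 1 ρ (k + 1) β β' * sgn (cu l ψ + cu φ l')) g h := by
  have e : pr 1 (x g) (ac ρ g (y h)) = pr 1 (β g) (ac ρ g (β' h)) + (pr 1 (x g - β g)
      (ac ρ g (y h)) + pr 1 (β g) (ac ρ g (y h - β' h))) := by
    rw [ac_sub, pr_sub_l, pr_sub_r]; ring
  rw [sgn_add, Pi.mul_apply, Pi.mul_apply, wp_eq, wp_eq, e, en_add, en_add,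
    en_le (hx g hg).2 ((hy h hh).1.ac hρ g) h1, en_le ((hx g hg).1.congr
      ((hx g hg).2.dv.symm.mono h3)) ((hy h hh).2.ac hρ g) h2]
  rfl

theorem nv_mul {f : GQ → GQ → Om} {c : GQ → GQ → F2} (hc : Co2 (pl p).D (sgn c))
    (h : Triv (pl p).D (f / sgn c)) : nv (pl p) (pl p).D f = (-1) ^ (iv p c).val := by
  rw [← nv_iv hc]
  have h1 : Co2T (pl p).D f := by
    have := h.co2T.mul hc.sgnT
    rwa [show f / sgn c * sgn c = f from
      funext₂ fun g k => div_mul_cancel₀ _ (LC.e_ne _)] at this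
  exact hA.inv2.1 _ _ _ _ (pl p).loc_D h1 hc h

theorem sum_iv {c : ℕ → F2} {f : GQ → GQ → Om} (h : ∏ p ∈ S, nv (pl p) (pl p).D f = 1)
    (e : ∀ p ∈ S, nv (pl p) (pl p).D f = (-1) ^ (c p).val) : ∑ p ∈ S, c p = 0 := by
  rw [prod_congr rfl e, ← BasN.e_sum] at h
  exact LC.e_inj.1 (h.trans (by simp))

/-- the Heisenberg cocycle -/
noncomputable def hq (ρ : GQ → O) (k : ℕ) (y : GQ → O) (g h : GQ) : Om :=
  en k (qq (y g) (ac ρ g (y h)) (y (g * h)))

theorem hq_co (hρ : Cy ρ) (hs : Sm ⊤ y) (hy : Zn ρ ⊤ n y) (ha : ∀ g, Dv a (y g))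
    (h1 : 2 * k ≤ a + n) (h2 : k + 1 ≤ n) : Co2T ⊤ (hq ρ (k + 1) y) := by
  refine Co2T.of_pow (k := k + 1) ⟨fun g _ k _ => en_ne _ _, ?_, fun g _ h _ l _ => ?_⟩
    fun g _ k _ => en_pow _ _
  · obtain ⟨N, hN, e⟩ := hs
    obtain ⟨M, hM, e'⟩ := hρ.sm_ac (2 * (k + 1))
    refine ⟨_, hM.inf hN, fun g _ h _ i _ c => ⟨en_congr ?_, ?_⟩⟩
    · rw [show g * i * h = g * h * (h⁻¹ * i * h) by group,
        e _ trivial _ trivial (hN.1.conj_mem' i c.2 h), e _ trivial _ trivial c.2, hρ.ac_mul]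
      have d := ((e' i c.1).2 (y h)).ac ρ g
      refine (congrArg _ ?_).mp (dvd_sub (pr_r' 1 (y g) d) (pr_l' 1 d (y (g * h))))
      simp only [qq, ac_sub, pr_sub_l, pr_sub_r, pr_add_l]
      ring
    · rw [hq, hq, ← mul_assoc, e _ trivial _ trivial c.2, e _ trivial _ trivial c.2]
  · simp only [hq]
    rw [en_gal, ← en_add, ← en_add]
    refine en_congr ?_
    have d1 := hy.co g trivial h trivial
    have d2 := hy.co (g * h) trivial l trivial
    have d3 := (hy.co h trivial l trivial).ac ρ g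
    have d4 := hy.co g trivial (h * l) trivial
    have e1 := mul_dvd_mul_left 2 (pr_dv (k := k) d3 (ha g) (by omega))
    rw [← pow_succ'] at e1
    have e2 := dvd_sub (dvd_sub (pr_dv (k := k + 1) d4 d3 (by omega))
      (pr_dv (k := k + 1) d2 d1 (by omega))) e1
    refine (congrArg _ ?_).mp e2
    rw [qq, mul_sub, ← pr_ac hρ (rl_one ρ), ← pr_ac hρ (rl_one ρ), ac_add, ac_sub, ac_sub,
      ← hρ.ac_mul, mul_assoc g h l]
    simp [qq, pr]
    ring

theorem hq_loc (hρ : Cy ρ) (hs : Sm H y) (hy : Zn ρ H (a + 2 * m + 2) y) (hβ : ∀ n, Zn ρ H n β)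
    (h0 : Ot ρ H β β) (h1 : ∀ g ∈ H, Le a (y g) (φ g) ∧ Le (a + 2 * m + 1) (y g - β g) (l g)) :
    Triv H (hq ρ (a + m + 2) y / sgn (cu φ l + if m = 0 then
      cu (fun g => PadicInt.toZMod (shn (a + 1) ρ g).im) l else 0)) := by
  choose! z hz hr using fun g hg => dv_lf.1 (h1 g hg).2
  have k1 : Triv H fun g h => en (a + m + 2) (cyc g * pr 1 (β h) (y h) -
      pr 1 (β (g * h)) (y (g * h)) + pr 1 (β g) (y g)) := by
    refine triv (fun g => pr 1 (β g) (y g)) ?_ fun g hg h hh => rfl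
    obtain ⟨N, hN, s1⟩ := (hβ (2 * (a + m + 2))).sm
    obtain ⟨M, hM, s2⟩ := hs
    refine ⟨_, hM.inf hN, fun g hg k hk c => ?_⟩
    rw [s2 g hg k hk c.1, ← pr_sub_l]
    exact pr_l' 1 (s1 g hg k hk c.2) _
  have k2 : ∀ g ∈ H, ∀ h ∈ H, hq ρ (a + m + 2) y g h = (wp 1 ρ (a + m + 2) β β g h *
      en (a + m + 2) (cyc g * pr 1 (β h) (y h) - pr 1 (β (g * h)) (y (g * h)) +
      pr 1 (β g) (y g))) * (sgn (cu φ l) g h * en (a + m + 2) (2 ^ (a + 2 * m + 1) *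
        qq (z g) (ac (shn (a + 2 * m + 1) ρ) g (z h)) (z (g * h)))) := fun g hg h hh => by
    have e1 := en_le (k := a + m) ((h1 g hg).1.congr ((h1 g hg).2.dv.symm.mono (by omega)))
      ((h1 h hh).2.ac hρ g) (by omega)
    rw [← en_shift _ 1, pow_one] at e1
    rw [show sgn (cu φ l) g h = _ from e1.symm, wp_eq, ← en_add, ← en_add, ← en_add, hq, qq, qq,
      mul_sub (2 ^ (a + 2 * m + 1)), ← pr_om, ← pr_om, mul_add, ← (rl_shn _ ρ).ac, ← hz g hg,
      ← hz h hh, ← hz _ (mul_mem hg hh), ← pr_ac hρ (rl_one ρ), Zn.exact hβ hg hh, ac_sub]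
    congr 1
    simp [pr]
    ring
  have k3 := (h0 (a + m + 2)).mul k1
  split_ifs with hm
  · subst hm
    have hl : IsCh H fun g => rd (z g) := (hy.sub (hβ _)).isCh_pow hρ hz
    have k4 : Bd H (fun g h => rd (z (g * h)) * PadicInt.toZMod (z (g * h)).im +
        rd (z g) * PadicInt.toZMod (z g).im + rd (z h) * PadicInt.toZMod (z h).im)
        fun g => rd (z g) * PadicInt.toZMod (z g).im := by
      refine ⟨?_, fun g hg h hh => by grind⟩
      obtain ⟨N, hN, s1⟩ := (hβ (a + 1 + 2 * 1)).sm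
      obtain ⟨M, hM, s2⟩ := hs
      refine ⟨_, hM.inf hN, fun g hg k hk c => ?_⟩
      have d : Dv (2 * 1) (z (g * k) - z g) := by
        rw [← dv_pow (j := a + 1), mul_sub, ← hz _ (mul_mem hg hk), ← hz g hg, s2 g hg k hk c.1]
        exact of_eq (s1 g hg k hk c.2).neg (by ring)
      have d2 : (PadicInt.toZMod (z (g * k)).im : F2) = PadicInt.toZMod (z g).im := by
        obtain ⟨c, hc⟩ := d.im
        rw [← sub_eq_zero, ← map_sub, ← QuadraticAlgebra.im_sub, hc, pow_one, map_mul, map_ofNat]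
        exact mul_eq_zero_of_left (by decide) _
      simp only [rd_eq.2 (d.mono (by omega)), d2]
    refine (k3.mul k4.triv).congr fun g hg h hh => ?_
    rw [Pi.div_apply, Pi.div_apply, k2 g hg h hh, div_eq_iff (show sgn _ g h ≠ 0 from LC.e_ne _),
      show a + 0 + 2 = 1 + (a + 2 * 0 + 1) by omega, en_shift, en_half, ac, cj,
      qq_mod _ ((hρ.shn _).rd g) (hl.2 g hg h hh), LC.e_add, sgn_add, hr h hh]
    simp only [Pi.mul_apply, sgn, cu, hr h hh]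
    ring
  · refine k3.congr fun g hg h hh => ?_
    rw [Pi.div_apply, Pi.div_apply, k2 g hg h hh, add_zero,
      div_eq_iff (show sgn _ g h ≠ 0 from LC.e_ne _),
      en_one ((pow_dvd_pow 2 (by omega)).mul_right _), mul_one]
    rfl

theorem hq_recp (hρ : Tw ρ S) (hy : Zu ρ S n y) (ha : ∀ g, Dv a (y g)) (h1 : 2 * k ≤ a + n)
    (h2 : k + 1 ≤ n) (h3 : a ≤ n) (ht : Triv Ht (hq ρ (k + 1) fun g => lv n (y g))) :
    ∏ p ∈ S ∪ T30, nv (pl p) (pl p).D (hq ρ (k + 1) fun g => lv n (y g)) = 1 := by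
  have c := hq_co hρ.toCy hy.zn.sm_lv (hy.zn.congr fun g _ => dv_lv n _)
    (fun g => by simpa using ((dv_lv n (y g)).mono h3).add (ha g)) h1 h2
  refine recp (fun p => prime_of hρ.gp) c ht fun w hw => ?_
  rw [mem_union, mem_T30, not_or] at hw
  have h4 : ¬ w.p ∣ 30 := fun e => hw.2 ⟨w.prime, e⟩
  have h5 : w.p ≠ 2 := fun e => h4 (by rw [e]; norm_num)
  have e : ∀ g, ∀ i ∈ w.I, lv n (y (g * i)) = lv n (y g) := fun g i hi => lv_eq.2
    (of_eq ((hy.zn.co g trivial i trivial).add ((hy.unr w h4 hw.1 i hi).ac ρ g)) (by ring))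
  refine hA.unr w w.D w.loc_D (k + 1) _ (c.1.mono le_top) (fun g _ h _ => en_pow _ _)
    fun g hg h hh i hi => ⟨?_, ?_, ?_⟩
  · rw [hq, hq, show g * i * h = g * h * (h⁻¹ * i * h⁻¹⁻¹) by group,
      e _ _ (Pl.conj_mem_I (inv_mem hh) hi.1), e _ _ hi.1, hρ.ac_mul,
      ac_of (hρ.unr w h4 hw.1 i hi.1) (eps_I h5 hi.1)]
  · rw [hq, hq, ← mul_assoc, e _ _ hi.1, e _ _ hi.1]
  · rw [hq, en_gal, hE.2.2.2.2.2.2.1 w h5 i hi.1]
    simp

end Pool.Agent.P.MP_8b7eba_nt.QT.PP
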