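import Pool.Agent.P.MP_8b7eba_nt.CG.PD

/-! The filtration of the Selmer group by the order of lifting. -/

set_option linter.unusedSectionVars false

namespace Pool.Agent.P.MP_8b7eba_nt.QT.PP

open Finset R2 SM BasW Module R1

variable {p n m a b k : ℕ} {ρ x y : GQ → O} {S : Finset ℕ} {κ : ℕ → GQ → O} {χ : GQ → F2}
  {φ ψ l l' : HH S} {u v : O}

/-- the type of the condition at infinity -/
def ci (ρ : GQ → O) (a : ℕ) : Prop := ∃ u, u + ac ρ tau u = 0 ∧ Le a u 1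

theorem ci_two (h : ci ρ a) (j : ℕ) : ci ρ (a + 2 * j) := by
  obtain ⟨u, h1, h2⟩ := h
  refine ⟨2 ^ j * u, by rw [ac_two, ← mul_add, h1, mul_zero], ?_⟩
  simpa [add_comm] using (le_al (al_two j)).mul h2

variable [HA]

theorem ci_not (hρ : Cy ρ) (hab : Odd (a + b)) (h : ci ρ a) : ¬ ci ρ b := by
  rintro ⟨v, h3, h4⟩
  obtain ⟨u, h1, h2⟩ := h
  obtain ⟨k, hk⟩ := hab
  have h5 := pr_ac hρ (rl_one ρ) tau u v
  rw [eq_neg_of_add_eq_zero_right h1, eq_neg_of_add_eq_zero_right h3, hE.2.2.2.2.2.2.2] at h5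
  have h6 : pr 1 u v = 0 := by
    refine mul_left_cancel₀ two_ne_zero ?_
    simp only [pr] at h5 ⊢
    simp at h5
    simp only [mul_zero]
    simp [-mul_eq_zero]
    linear_combination h5
  have h7 := en_le h2 h4 hk
  rw [h6, en_one (dvd_zero _), one_mul, LC.v1] at h7
  norm_num at h7

theorem ci_bd (hρ : Cy ρ) (v : O) : v - ac ρ tau v + ac ρ tau (v - ac ρ tau v) = 0 := by
  rw [ac_sub, ← hρ.ac_mul, hA.tau.2.1, hρ.ac_one]
  ring

theorem ci_one (hρ : Cy ρ) (h : (PadicInt.toZMod (ρ tau).im : F2) = 1) : ci ρ 1 := by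
  obtain ⟨w, h1, h2⟩ := rd_im (hρ.rd tau)
  refine ⟨_, ci_bd hρ 1, dv_lf.2 ⟨-w, ?_, by rw [rd_neg, h2, h]⟩⟩
  rw [ac, map_one]
  linear_combination -h1

theorem ci_zero (hρ : Cy ρ) (h : (PadicInt.toZMod (ρ tau).im : F2) = 0) : ci ρ 0 := by
  obtain ⟨w, h1, h2⟩ := rd_im (hρ.rd tau)
  obtain ⟨c, hc⟩ : (2 : O) ^ 1 ∣ 1 - ρ tau := dv_two.1 (by
    have := (dv_om 1 1).mul (rd_eq_zero.1 (h2.trans h))
    exact of_eq this.neg (by linear_combination -h1))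
  have k : ∀ u v, 2 ^ 1 * u = v - ac ρ tau v → rd u = 1 → ci ρ 0 := fun u v e e' =>
    ⟨u, mul_left_cancel₀ (al_two 1).ne (by rw [mul_add, ← ac_two, e, ci_bd hρ, mul_zero]),
      e' ▸ le_rd u⟩
  rcases f2 (rd c) with e | e
  · refine k (ii * (1 - c)) ii ?_ (by rw [rd_mul, rd_sub, rd_ii, rd_one, e]; rfl)
    rw [ac, cj, eps_tau, cs_one, star_ii]
    linear_combination ii * hc
  · exact k c 1 (by rw [ac, map_one, mul_one, hc]) e

theorem ci_iff (hρ : Cy ρ) (hab : Odd (a + b)) : ci ρ b ↔ ¬ ci ρ a := by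
  refine ⟨fun h h' => ci_not hρ hab h' h, fun h => ?_⟩
  have k : ∀ c, ci ρ (c % 2) → ci ρ c := fun c e => by
    simpa [Nat.mod_add_div] using ci_two e (c / 2)
  obtain ⟨j, hj⟩ := hab
  rcases f2 (PadicInt.toZMod (ρ tau).im) with e | e <;>
    rcases Nat.mod_two_eq_zero_or_one a with e' | e'
  · exact absurd (k a (e' ▸ ci_zero hρ e)) h
  · exact k b (by rw [show b % 2 = 0 by omega]; exact ci_zero hρ e)
  · exact k b (by rw [show b % 2 = 1 by omega]; exact ci_one hρ e)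
  · exact absurd (k a (e' ▸ ci_one hρ e)) h

/-- leading terms and discrepancies of global cocycles -/
def RR (ρ : GQ → O) (S : Finset ℕ) (κ : ℕ → GQ → O) (a m : ℕ) : Submodule F2 (HH S × HH S) where
  carrier := {z | ∃ y χ, Gy true ρ S (a + m + 1) y ∧ (∀ g, Le a (y g) (χ g)) ∧ Rs χ z.1 ∧
    ∀ p : Ix S, ∃ b, Lam ρ p (κ p) b ∧ ∀ g ∈ (pl p).D, Le (a + m) (y g - b g) ((z.2 p).1 g)}
  zero_mem' := ⟨fun _ => 0, fun _ => 0, ⟨⟨zn_zero, fun _ _ _ _ _ => dv_zero⟩,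
    lc_of_dv fun _ _ => dv_zero⟩, fun _ => le_zero.2 dv_zero, fun _ _ _ => rfl,
    fun _ => ⟨_, lam_zero, fun _ _ => le_zero.2 (dv_refl _)⟩⟩
  add_mem' := fun ⟨y, χ, a, b, c, d⟩ ⟨y', χ', a', b', c', d'⟩ => ⟨fun g => y g + y' g,
    fun g => χ g + χ' g, ⟨a.toZu.add a'.toZu, a.inf.add a'.inf⟩, fun g => (b g).add (b' g),
    fun p g hg => by simp [c p g hg, c' p g hg], fun p =>
      let ⟨_, e, f⟩ := d p
      let ⟨_, e', f'⟩ := d' p
      ⟨_, e.add e', fun g hg => ((f g hg).add (f' g hg)).congr (of_eq dv_zero (by ring))⟩⟩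
  smul_mem' := fun s _ ⟨y, χ, a, b, c, d⟩ => ⟨fun g => (s.val : Z2) • y g, fun g => s * χ g,
    ⟨a.toZu.smul _, a.inf.smul _⟩, fun g => (b g).smul s, fun p g hg => by simp [c p g hg],
    fun p => let ⟨_, e, f⟩ := d p
      ⟨_, e.smul s.val, fun g hg => ((f g hg).smul s).congr
        (of_eq dv_zero (by rw [smul_sub, sub_self]))⟩⟩

theorem gc_of (hρ : Cy ρ) (hy : Zu ρ S (a + m + 1) y) (h : ∀ g, Le a (y g) (χ g)) : Gc S χ := by
  obtain ⟨l, h1, h2⟩ := lead hρ (hy.zn.mono le_rfl (by omega : a + 1 ≤ _)) fun g _ => (h g).dv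
  exact ⟨ch_congr h1 fun g hg => (h g).eq (h2 g hg), fun w c d g hg =>
    (h g).eq (le_zero.2 ((hy.unr w c d g hg).mono (by omega)))⟩

theorem rr_zero (hρ : Tw ρ S) : (φ, l) ∈ RR ρ S κ a 0 ↔ φ ∈ GG S (ci ρ a) ∧
    φ - l ∈ Submodule.pi Set.univ fun p : Ix S => La ρ p (κ p) a := by
  have ht : tau ∈ Ht := mem_Ht.2 (Or.inr rfl)
  constructor
  · rintro ⟨y, χ, h1, h2, h3, h4⟩
    refine ⟨⟨χ, gc_of (m := 0) hρ.toCy h1.toZu h2, h3, (f2 (χ tau)).symm.imp_left fun e => ?_⟩,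
      fun p _ => ?_⟩
    · obtain ⟨b, h5, h6⟩ := h1.inf
      refine ⟨b tau, ?_, (e ▸ h2 tau :).congr (h6 _ ht).symm⟩
      rw [← Zn.exact h5.1 ht ht, hA.tau.2.1]
      exact eq_zero_of_dv fun n => (h5.1 n).one hρ.toCy
    · obtain ⟨b, h5, h6⟩ := h4 p
      refine ⟨b, h5, fun g hg => ?_⟩
      have := (h2 g).sub (h6 g hg)
      rw [sub_sub_cancel, ← h3 p g hg] at this
      simpa [CharTwo.sub_eq_add] using this
  · rintro ⟨⟨χ, h1, h2, h3⟩, h4⟩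
    refine ⟨fun g => om ^ a * lf (χ g), χ, ⟨⟨zn_lf hρ.toCy h1.1, fun w c d g hg => by
      simpa [h1.2 w c d g hg, lf_zero] using dv_zero⟩, ?_⟩, fun g => le_lf _ _, h2, fun p => ?_⟩
    · by_cases e : χ tau = 0
      · refine lc_of_dv fun g hg => ?_
        rcases mem_Ht.1 hg with rfl | rfl
        · simpa [h1.1.one, lf_zero] using dv_zero
        · simpa [e, lf_zero] using dv_zero
      obtain ⟨u, h5, h6⟩ := h3.resolve_right e
      refine ⟨fun g => lf (χ g) * u, ex_of_bd hρ.toCy (e := 1) (v := -u) fun g hg => ?_,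
        fun g hg => ?_⟩
      · rcases mem_Ht.1 hg with rfl | rfl
        · rw [h1.1.one, lf_zero, bd, hρ.ac_one]; ring
        · rw [(f2 _).resolve_left e, lf_one, bd, ac_neg]
          linear_combination h5
      · refine of_eq (Dv.mul_left h6 (lf (χ g))).neg ?_
        rw [lf_one]
        ring
    · obtain ⟨b, h5, h6⟩ := h4 p trivial
      refine ⟨b, h5, fun g hg => ?_⟩
      have := (le_lf a (χ g)).sub (h6 g hg)
      simpa [CharTwo.sub_eq_add, ← add_assoc, CharTwo.add_self_eq_zero, h2 p g hg] using this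

theorem rr_one (hρ : Tw ρ S) : (φ, 0) ∈ RR ρ S κ a m ↔ ∃ l, (φ, l) ∈ RR ρ S κ a (m + 1) := by
  constructor
  · rintro ⟨y, χ, h1, h2, h3, h4⟩
    choose b h5 h6 using h4
    obtain ⟨y', h7, h8, -⟩ := glift hρ (⟨h1, fun p hp => ⟨b ⟨p, hp⟩, ex_true (h5 ⟨p, hp⟩).1,
      fun g hg => le_zero.1 (h6 ⟨p, hp⟩ g hg)⟩⟩ : Wn true ρ S _ y)
    choose l h9 h10 using fun p : Ix S => lead hρ.toCy ((h7.zn.res _).sub ((h5 p).1 _))
      fun g hg => (h8 g).trans (le_zero.1 (h6 p g hg))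
    exact ⟨fun p => rc p (h9 p), y', χ, h7, fun g => (h2 g).congr ((h8 g).mono (by omega)), h3,
      fun p => ⟨b p, h5 p, fun g hg => by rw [rc_of _ hg]; exact h10 p g hg⟩⟩
  · rintro ⟨l, y, χ, h1, h2, h3, h4⟩
    exact ⟨y, χ, h1.mono (by omega), h2, h3, fun p => (h4 p).imp fun b h =>
      ⟨h.1, fun g hg => le_zero.2 (h.2 g hg).dv⟩⟩

theorem rr_two (hρ : Tw ρ S) :
    (0, l) ∈ RR ρ S κ a (m + 1) ↔ ∃ φ, (φ, l) ∈ RR ρ S κ (a + 1) m := by
  have e : a + 1 + m = a + (m + 1) := by omega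
  constructor
  · rintro ⟨y, χ, h1, h2, h3, h4⟩
    obtain rfl := (gc_of hρ.toCy h1.toZu h2).zero h3
    obtain ⟨χ, h5, h6⟩ := lead hρ.toCy (h1.zn.mono le_rfl (by omega : a + 1 + 1 ≤ _))
      fun g _ => le_zero.1 (h2 g)
    exact ⟨rg S h5, y, χ, e ▸ h1, fun g => h6 g trivial, rs_rg h5, e ▸ h4⟩
  · rintro ⟨φ, y, χ, h1, h2, -, h4⟩
    exact ⟨y, fun _ => 0, e ▸ h1, fun g => le_zero.2 (h2 g).dv, fun _ _ _ => rfl, e ▸ h4⟩

theorem sum_ix {f : GQ → GQ → Om} (h : ∏ p ∈ S ∪ T30, nv (pl p) (pl p).D f = 1) {c : Ix S → F2}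
    (e : ∀ p : Ix S, nv (pl p) (pl p).D f = (-1) ^ (c p).val) : ∑ p, c p = 0 := by
  rw [← prod_coe_sort, prod_congr rfl fun p _ => e p, ← BasN.e_sum] at h
  exact LC.e_inj.1 (h.trans (by simp))

theorem rr_four (hρ : Tw ρ S) (hκ : ∀ p : Ix S, Kp ρ p (κ p)) (hab : Even (a + b + m))
    (h : (φ, l) ∈ RR ρ S κ a (m + 1)) (h' : (ψ, l') ∈ RR ρ S κ b (m + 1)) :
    BB S l ψ = BB S l' φ := by
  obtain ⟨x, χ, h1, h2, h3, h4⟩ := h
  obtain ⟨y, ξ, k1, k2, k3, k4⟩ := h'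
  obtain ⟨k, hk⟩ := hab
  have c := hρ.toCy
  have e1 : a + (m + 1) + b = 2 * k + 1 := by omega
  have e2 : a + (b + (m + 1)) = 2 * k + 1 := by omega
  have h5 := recp2 (k := k + 1) (a := a) (b := b) (n := m + 2) (n' := m + 2) hρ h1.toZu k1.toZu
    (fun g => (h2 g).dv) (fun g => (k2 g).dv) (by omega) (by omega) (by
      obtain ⟨β, h6, h7⟩ := h1.inf
      obtain ⟨β', k6, k7⟩ := k1.inf
      refine (ot_ex c h6.1 (ex_tau c k6.1) (k + 1)).congr fun g hg i hi => ?_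
      rw [wp_loc (l := fun _ => 0) (l' := fun _ => 0) c e1 e2 (by omega)
        (fun g hg => ⟨h2 g, le_zero.2 (h7 g hg)⟩) (fun g hg => ⟨k2 g, le_zero.2 (k7 g hg)⟩) hg hi]
      simp [sgn, cu])
  have g1 := (gc_of c h1.toZu h2).1
  have g2 := (gc_of c k1.toZu k2).1
  have h6 := sum_ix h5 (c := fun p => Bp p (l p) (ψ p) + Bp p (l' p) (φ p)) fun p => by
    obtain ⟨β, h6, h7⟩ := h4 p
    obtain ⟨β', k6, k7⟩ := k4 p
    have c1 := co2_cu (l p).2.1 (g2.mono le_top)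
    have c2 := co2_cu (g1.mono le_top) (l' p).2.1
    rw [bp_of (fun _ _ => rfl) (k3 p), bp_sy (l' p), bp_of (h3 p) fun _ _ => rfl, ← iv_add c1 c2]
    refine nv_mul (sgn_add _ _ ▸ c1.mul c2) (((hκ p).iso _ _ h6 k6 (k + 1)).congr
      fun g hg i hi => ?_)
    rw [Pi.div_apply, Pi.div_apply, wp_loc c e1 e2 (by omega) (fun g hg => ⟨h2 g, h7 g hg⟩)
      (fun g hg => ⟨k2 g, k7 g hg⟩) hg hi]
    exact mul_div_cancel_right₀ _ (LC.e_ne _)
  rw [sum_add_distrib, ← bb_eq, ← bb_eq] at h6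
  exact CharTwo.add_eq_zero.1 h6

/-- the leading term of a rational coboundary -/
noncomputable def th (ρ : GQ → O) (a : ℕ) (g : GQ) : F2 := PadicInt.toZMod (shn (a + 1) ρ g).im

theorem th_ex (hρ : Tw ρ S) (a : ℕ) : ∃ h, (∀ n, Zu ρ S n h) ∧ (∀ o H, Ex o ρ H h) ∧
    ∀ g, Le a (h g) (th ρ a g) := by
  obtain ⟨h, h1, h2⟩ := exists_hb hρ.toCy (v := om ^ (a + 1)) ((al_om _).dv.mono (by omega))
  refine ⟨h, fun n => ⟨(h2 true ⊤).1 n, fun w c d g hg => (al_two 1).dv_mul.1 ?_⟩, h2,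
    fun g => le_two.1 ?_⟩
  · rw [pow_one, h1]
    exact (zu_bd hρ _).unr w c d g hg
  · obtain ⟨w, h3, h4⟩ := rd_im ((hρ.toCy.shn (a + 1)).rd g)
    refine dv_lf.2 ⟨w, ?_, h4⟩
    rw [h1, ← mul_one (om ^ (a + 1)), (rl_shn (a + 1) ρ).bd, bd, ac, map_one, mul_one, h3]
    ring

theorem rr_five (hρ : Tw ρ S) (hκ : ∀ p : Ix S, Kp ρ p (κ p)) (hm : Even m)
    (h : (φ, l) ∈ RR ρ S κ a (m + 1)) : BB S l φ = 0 := by
  have c := hρ.toCy
  obtain ⟨θ, t1, t2, t3⟩ := th_ex hρ a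
  have t4 := (gc_of c (t1 (a + 0 + 1)) t3).1
  have t5 : m = 0 → BB S l (rg S t4) = 0 := fun e => by
    rw [rr_four hρ hκ (b := a) (by grind) h (l' := 0) (ψ := rg S t4)
      ⟨θ, _, ⟨t1 _, (t2 _ _).lc _⟩, t3, rs_rg t4,
      fun p => ⟨θ, (hκ p).ex c (t2 _ _), fun g _ => le_zero.2 (dv_refl _)⟩⟩]
    simp
  obtain ⟨y, χ, h1, h2, h3, h4⟩ := h
  obtain ⟨j, rfl⟩ := even_iff_two_dvd.1 hm
  have s := h1.zn.sm_lv
  have z := h1.zn.congr fun g _ => dv_lv _ (y g)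
  have d := fun g => dv_lv (a + (2 * j + 1) + 1) (y g)
  have h2' := fun g => (h2 g).congr ((d g).mono (by omega))
  have h5 := hq_recp (k := a + j + 1) hρ h1.toZu (fun g => (h2 g).dv) (by omega) (by omega)
    (by omega) (by
      obtain ⟨β, h6, h7⟩ := h1.inf
      refine (hq_loc (l := fun _ => 0) c (s.mono le_top) (z.res _) h6.1
        (ot_ex c h6.1 (ex_tau c h6.1)) fun g hg =>
          ⟨h2' g, le_zero.2 ((d g).trans (h7 g hg))⟩).congr fun g _ i _ => ?_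
      split_ifs <;> simp [sgn, cu])
  have g1 := (gc_of c h1.toZu h2).1
  have h6 := sum_ix h5 (c := fun p => Bp p (l p) (φ p) + if j = 0 then Bp p (l p) (rg S t4 p)
      else 0) fun p => by
    obtain ⟨β, h6, h7⟩ := h4 p
    have c1 := co2_cu (g1.mono le_top) (l p).2.1
    have c2 := co2_cu (t4.mono le_top) (l p).2.1
    have k := hq_loc c (s.mono le_top) (z.res _) h6.1 ((hκ p).iso _ _ h6 h6) fun g hg =>
      ⟨h2' g, (h7 g hg).congr (of_eq (d g) (by ring))⟩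
    rw [bp_sy, bp_of (h3 p) fun _ _ => rfl, bp_sy, bp_of (rs_rg t4 p) fun _ _ => rfl]
    split_ifs at k ⊢
    · rw [← iv_add c1 c2]
      exact nv_mul (sgn_add _ _ ▸ c1.mul c2) k
    · rw [add_zero] at k ⊢
      exact nv_mul c1 k
  rw [sum_add_distrib, ← bb_eq] at h6
  split_ifs at h6 with e
  · rwa [← bb_eq, t5 (by omega), add_zero] at h6
  · simpa using h6

theorem fil (hρ : Tw ρ S) (hκ : ∀ p : Ix S, Kp ρ p (κ p)) : CG.PA.Fil (BB S)
    (fun a => GG S (ci ρ a)) (fun a => Submodule.pi Set.univ fun p : Ix S => La ρ p (κ p) a)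
    (RR ρ S κ) where
  nd := bb_nd
  sy := bb_sy
  hG a b hab := by
    have := ci_iff hρ.toCy hab
    by_cases h : ci ρ a
    · rw [eq_true h, eq_false fun e => this.1 e h, (gg_dual hρ.gp).1]
    · rw [eq_false h, eq_true (this.2 h), (gg_dual hρ.gp).2.1]
  hL a b hab := by
    rw [orth_pi]
    exact congrArg _ (funext fun p => la_orth hρ.toCy (prime_of hρ.gp p.2) (hκ p) hab)
  h0 _ _ _ := rr_zero hρ
  h1 _ _ _ := rr_one hρ
  h2 _ _ _ := rr_two hρ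
  h4 _ _ _ _ _ _ _ := rr_four hρ hκ
  h5 _ _ _ _ := rr_five hρ hκ

end Pool.Agent.P.MP_8b7eba_nt.QT.PP
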