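import Pool.Agent.P.MP_8b7eba_nt.CG.PE

/-! The limit of the filtration and the parity formula. -/

set_option linter.unusedSectionVars false

namespace Pool.Agent.P.MP_8b7eba_nt.QT.PP

open Finset R2 SM BasW Module R1 R3x Filter

variable {p n m a b k : ℕ} {ρ X Y : GQ → O} {S : Finset ℕ} {κ : ℕ → GQ → O} {χ : GQ → F2}
  {φ ψ : HH S} {u : O} {s : F2} {t : GQ}

theorem Le.smul' (h : Le a u s) (c : Z2) : Le a (c • u) (PadicInt.toZMod c * s) := by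
  obtain ⟨d, rfl, rfl⟩ := dv_lf.1 h
  exact dv_lf.2 ⟨c • d, by rw [mul_smul_comm], rd_smul ..⟩

theorem two_of (hρ : Cy ρ) (ht : qz (-1) t = 0) (hu : ρ t ^ 2 = -1) (hX : ∀ n, Zu ρ S n X)
    (hY : ∀ n, Zu ρ S n Y) (h1 : X t = 0) (h2 : Y t = 0)
    (h : ∀ a b : Z2, (∀ g, Dv 2 (a • X g + b • Y g)) → 2 ∣ a ∧ 2 ∣ b) : Two ρ S := by
  have h3 : ∀ k, ∀ a b : Z2, (∀ g, Dv (2 * k) (a • X g + b • Y g)) → 2 ^ k ∣ a ∧ 2 ^ k ∣ b := by
    intro k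
    induction k with
    | zero => simp
    | succ k ih =>
      intro a b e
      obtain ⟨⟨c, rfl⟩, d, rfl⟩ := h a b fun g => (e g).mono (by omega)
      obtain ⟨h4, h5⟩ := ih c d fun g => (al_two 1).dv_mul.1 (of_eq ((e g).mono (by omega)) (by
        rw [← two_smul_eq, smul_add, smul_smul, smul_smul, pow_one]))
      rw [pow_succ']
      exact ⟨mul_dvd_mul_left 2 h4, mul_dvd_mul_left 2 h5⟩
  refine fun k => ⟨X, Y, hX _, hY _, fun a b v e => h3 k a b fun g => ?_⟩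
  cases k with
  | zero => exact dv_nil _
  | succ k =>
    have h4 : Dv (2 * k + 1) v := (al_add (u := -ρ t) (by rwa [neg_sq])).dv_mul.1
      (of_eq ((e t).mono (by omega)) (by rw [h1, h2, bd, ac, cj_of ht]; simp; ring))
    simpa using (e g).add (hρ.dv_bd h4 g)

variable [HA]

/-- exact global cocycles which satisfy the local conditions -/
structure Gx (ρ : GQ → O) (S : Finset ℕ) (κ : ℕ → GQ → O) (Y : GQ → O) : Prop where
  zu : ∀ n, Zu ρ S n Y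
  lam : ∀ p : Ix S, Lam ρ p (κ p) Y

theorem Gx.add (h : Gx ρ S κ X) (h' : Gx ρ S κ Y) : Gx ρ S κ fun g => X g + Y g :=
  ⟨fun n => (h.zu n).add (h'.zu n), fun p => (h.lam p).add (h'.lam p)⟩

theorem Gx.smul (h : Gx ρ S κ X) (c : Z2) : Gx ρ S κ fun g => c • X g :=
  ⟨fun n => (h.zu n).smul c, fun p => (h.lam p).smul c⟩

theorem Gx.half (h : Gx ρ S κ X) (e : ∀ g, X g = 2 ^ 1 * Y g) : Gx ρ S κ Y :=
  have k := fun n => (zu_pow (rl_two ρ 1) (al_two 1) e).1 (h.zu (2 * 1 + n))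
  ⟨k, fun p => ⟨fun n => (k n).zn.res _, Ot.half 1 ((h.lam p).2.congr fun g _ => (e g).symm)⟩⟩

/-- the leading terms of the exact global cocycles which vanish at `t` -/
def UU (ρ : GQ → O) (S : Finset ℕ) (κ : ℕ → GQ → O) (t : GQ) (a : ℕ) : Submodule F2 (HH S) where
  carrier := {φ | ∃ Y χ, Gx ρ S κ Y ∧ Y t = 0 ∧ (∀ g, Le a (Y g) (χ g)) ∧ Rs χ φ}
  zero_mem' := ⟨fun _ => 0, fun _ => 0, ⟨fun _ => ⟨zn_zero, fun _ _ _ _ _ => dv_zero⟩,
    fun _ => lam_zero⟩, rfl, fun _ => le_zero.2 dv_zero, fun _ _ _ => rfl⟩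
  add_mem' := fun ⟨_, χ, a, b, c, d⟩ ⟨_, χ', a', b', c', d'⟩ => ⟨_, fun g => χ g + χ' g, a.add a',
    by simp [b, b'], fun g => (c g).add (c' g), fun p g hg => by simp [d p g hg, d' p g hg]⟩
  smul_mem' := fun s _ ⟨_, χ, a, b, c, d⟩ => ⟨_, fun g => s * χ g, a.smul s.val, by simp [b],
    fun g => (c g).smul s, fun p g hg => by simp [d p g hg]⟩

theorem rr_lim (hρ : Tw ρ S) (h : ∀ m, (φ, 0) ∈ RR ρ S κ a m) : φ ∈ UU ρ S κ 1 a := by
  choose y χ h1 h2 h3 h4 using fun k => h (2 * k)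
  obtain ⟨X, hX⟩ := zu_lim hρ y fun k => (h1 k).toZu.mono (by omega)
  have h5 : ∀ n, Zu ρ S n X := fun n =>
    let ⟨k, c, d⟩ := (hX n).exists
    ((h1 k).toZu.mono (by omega)).congr d
  obtain ⟨k, -, d⟩ := (hX (a + 1)).exists
  refine ⟨X, χ k, ⟨h5, fun p => ⟨fun n => (h5 n).zn.res _, fun m => ?_⟩⟩,
    eq_zero_of_dv fun n => (h5 n).zn.one hρ.toCy, fun g => (h2 k g).congr (d g), h3 k⟩
  obtain ⟨k, c, d⟩ := (hX (2 * m)).exists
  obtain ⟨b, h6, h7⟩ := h4 k p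
  exact (h6.2 m).congr fun g _ i hi =>
    cg ((d i).trans ((le_zero.1 (h7 i hi)).mono (by omega)))

theorem rr_stab (hρ : Tw ρ S) (κ : ℕ → GQ → O) (a : ℕ) : ∀ᶠ m in atTop,
    (RR ρ S κ a m).comap (LinearMap.inl F2 _ _) = UU ρ S κ 1 a := by
  have := hh_fin hρ.gp
  have : Finite (HH S) := Module.finite_of_finite F2
  have h1 : ∀ φ : HH S, ∀ᶠ m in atTop, (φ, 0) ∈ RR ρ S κ a m → φ ∈ UU ρ S κ 1 a := fun φ => by
    by_cases h : ∀ m, (φ, 0) ∈ RR ρ S κ a m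
    · exact .of_forall fun _ _ => rr_lim hρ h
    obtain ⟨m, hm⟩ := not_forall.1 h
    refine eventually_atTop.2 ⟨m, fun k hk e => absurd ?_ hm⟩
    induction k, hk using Nat.le_induction with
    | base => exact e
    | succ k _ ih => exact ih ((rr_one hρ).2 ⟨_, e⟩)
  filter_upwards [eventually_all.2 h1] with m hm
  refine le_antisymm hm ?_
  rintro φ ⟨Y, χ, h1, -, h2, h3⟩
  exact ⟨Y, χ, ⟨h1.zu _, (ex_true fun n => (h1.zu n).zn.res _).lc _⟩, h2, h3,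
    fun p => ⟨Y, h1.lam p, fun g _ => le_zero.2 (dv_refl _)⟩⟩

theorem kill_t (hρ : Tw ρ S) (hκ : ∀ p : Ix S, Kp ρ p (κ p)) (ht : qz (-1) t = 0)
    (hu : ρ t ^ 2 = -1) (u : O) : ∃ h, Gx ρ S κ h ∧ Ex false ρ ⊤ h ∧ u + h t = 0 ∧
      ∀ n, Dv n u → ∀ g, Dv n (h g) := by
  obtain ⟨h, h1, h2⟩ := exists_hb hρ.toCy (v := (1 + ρ t) * u) ((al_add hu).dv.mul_right _)
  refine ⟨h, ⟨fun n => ⟨(h2 true ⊤).1 n, fun w c d g hg => (al_two 1).dv_mul.1 ?_⟩,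
    fun p => (hκ p).ex hρ.toCy (h2 _ _)⟩, h2 _ _, mul_left_cancel₀ two_ne ?_,
    fun n e g => (al_two 1).dv_mul.1 ?_⟩
  · rw [pow_one, h1]
    exact (zu_bd hρ _).unr w c d g hg
  · rw [mul_add, h1, bd, ac, cj_of ht]
    linear_combination u * hu
  · rw [pow_one, h1]
    exact (hρ.toCy.dv_bd ((al_add hu).dv.mul e) g).mono (by omega)

theorem th_t (ht : qz (-1) t = 0) (hu : ρ t ^ 2 = -1) (a : ℕ) : th ρ a t = 1 := by
  rw [th, shn_of ht]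
  rcases sq_cases hu with e | e <;> simp [e, ii]

theorem uu_succ (hρ : Tw ρ S) (hκ : ∀ p : Ix S, Kp ρ p (κ p)) (ht : qz (-1) t = 0)
    (hu : ρ t ^ 2 = -1) (q : Ix S) (hq : t ∈ (pl q).D) (a : ℕ) :
    finrank F2 (UU ρ S κ 1 a) = finrank F2 (UU ρ S κ t a) + 1 := by
  have := hh_fin hρ.gp
  have c := hρ.toCy
  obtain ⟨θ, t1, t2, t3⟩ := th_ex hρ a
  have t4 := (gc_of c (t1 (a + 0 + 1)) t3).1
  have t5 : Gx ρ S κ θ := ⟨t1, fun p => (hκ p).ex c (t2 _ _)⟩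
  have z : ∀ {Y}, Gx ρ S κ Y → Y 1 = 0 := fun h => eq_zero_of_dv fun n => (h.zu n).zn.one c
  rw [← Submodule.finrank_sup_span_singleton (v := rg S t4) ?_]
  · refine congrArg (fun U : Submodule F2 (HH S) => finrank F2 U) (le_antisymm ?_ (sup_le
      (fun φ ⟨Y, χ, h1, _, h2⟩ => ⟨Y, χ, h1, z h1, h2⟩)
      ((Submodule.span_singleton_le_iff_mem _ _).2 ⟨θ, _, t5, z t5, t3, rs_rg t4⟩)))
    rintro φ ⟨Y, χ, h1, -, h2, h3⟩
    have h4 := fun g => (h2 g).add ((t3 g).smul (χ t))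
    obtain ⟨h, h5, -, h6, h7⟩ := kill_t hρ hκ ht hu (Y t + ((χ t).val : Z2) • θ t)
    refine Submodule.mem_sup.2 ⟨φ + χ t • rg S t4, ⟨_, _, (h1.add (t5.smul _)).add h5, h6,
      fun g => (h4 g).congr (of_eq (h7 _ (le_zero.1 ?_) g) (by ring)),
      fun p g hg => by simp [h3 p g hg, rs_rg t4 p g hg]⟩, _,
      Submodule.smul_mem _ (χ t) (Submodule.mem_span_singleton_self _), ?_⟩
    · simpa [th_t ht hu, CharTwo.add_self_eq_zero] using h4 t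
    · rw [add_assoc, ← add_smul, LC.two, zero_smul, add_zero]
  · rintro ⟨Y, χ, -, h1, h2, h3⟩
    have h4 := (h2 t).eq (le_zero.2 (h1 ▸ dv_zero))
    rw [← h3 q t hq, rs_rg t4 q t hq, th_t ht hu] at h4
    exact one_ne_zero h4

theorem uu_two (hρ : Cy ρ) (ht : qz (-1) t = 0) (hu : ρ t ^ 2 = -1) (hab : a ≤ b) (hb : b ≤ 1)
    (h1 : φ ∈ UU ρ S κ t a) (h2 : ψ ∈ UU ρ S κ t b) (h3 : φ ≠ 0) (h4 : ψ ≠ 0)
    (h5 : a = b → φ ≠ ψ) : Two ρ S := by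
  obtain ⟨X, χ, x1, x2, x3, x4⟩ := h1
  obtain ⟨Y, ξ, y1, y2, y3, y4⟩ := h2
  have k0 : ∀ {c : Z2}, PadicInt.toZMod c = 0 → 2 ∣ c := fun e => by
    simpa using (BasY.dvd_iff1 _).1 e
  have k : ∀ {φ : HH S} {χ} {c : Z2}, Rs χ φ → φ ≠ 0 → (∀ g, PadicInt.toZMod c * χ g = 0) →
      2 ∣ c := fun {φ χ c} h e e' => k0 ((f2 _).resolve_right fun e'' =>
    e (h.eq fun p g _ => by simpa [e''] using (e' g).symm))
  refine two_of hρ ht hu x1.zu y1.zu x2 y2 fun c d e => ?_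
  rcases hab.eq_or_lt with rfl | hab
  · have h6 := fun g => (((x3 g).smul' c).add ((y3 g).smul' d)).eq
      (le_zero.2 ((e g).mono (by omega)))
    rcases f2 (PadicInt.toZMod c) with e1 | e1
    · exact ⟨k0 e1, k y4 h4 fun g => by simpa [e1] using h6 g⟩
    rcases f2 (PadicInt.toZMod d) with e2 | e2
    · exact ⟨k x4 h3 fun g => by simpa [e2] using h6 g, k0 e2⟩
    refine absurd (x4.eq fun p g hg => (y4 p g hg).trans ?_) (h5 rfl)
    simpa [e1, e2, CharTwo.add_eq_zero, eq_comm] using h6 g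
  · obtain rfl : a = 0 := by omega
    obtain rfl : b = 1 := by omega
    have h6 := k x4 h3 fun g => ((x3 g).smul' c).eq (le_zero.2 (of_eq
      (((e g).mono one_le_two).sub ((y3 g).dv.smul d)) (by ring)))
    exact ⟨h6, k y4 h4 fun g => ((y3 g).smul' d).eq (le_zero.2 (of_eq
      ((e g).sub (dv_smul (n := 1) (c := c) (by rwa [pow_one]) (X g))) (by ring)))⟩

theorem uu_pos (hρ : Tw ρ S) (h : Gx ρ S κ Y) (h0 : Y t = 0) (h1 : ∀ g, Dv a (Y g))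
    (h2 : ¬ ∀ g, Dv (a + 1) (Y g)) : UU ρ S κ t a ≠ ⊥ := fun e => by
  obtain ⟨χ, h3, h4⟩ := lead hρ.toCy (h.zu (a + 1)).zn fun g _ => h1 g
  have h5 : rg S h3 ∈ UU ρ S κ t a := ⟨Y, χ, h, h0, fun g => h4 g trivial, rs_rg h3⟩
  rw [e, Submodule.mem_bot] at h5
  obtain rfl := (gc_of hρ.toCy (h.zu (a + 0 + 1)) fun g => h4 g trivial).zero (h5 ▸ rs_rg h3)
  exact h2 fun g => le_zero.1 (h4 g trivial)

theorem uu_sum (hρ : Tw ρ S) (hκ : ∀ p : Ix S, Kp ρ p (κ p)) (ht : qz (-1) t = 0)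
    (hu : ρ t ^ 2 = -1) (h2 : ¬ Two ρ S) (hX : Gx ρ S κ X) (h0 : ¬ Ex false ρ ⊤ X) :
    finrank F2 (UU ρ S κ t 0) + finrank F2 (UU ρ S κ t 1) = 1 := by
  have := hh_fin hρ.gp
  have k1 : ∀ a ≤ 1, finrank F2 (UU ρ S κ t a) ≤ 1 := fun a ha => by
    rcases subsingleton_or_nontrivial (UU ρ S κ t a) with e | e
    · rw [finrank_zero_of_subsingleton]
      exact zero_le_one
    obtain ⟨v, hv⟩ := exists_ne (0 : UU ρ S κ t a)
    refine finrank_le_one_iff.2 ⟨v, fun w => ?_⟩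
    by_cases hw : w = 0
    · exact ⟨0, by simp [hw]⟩
    exact ⟨1, by_contra fun e => h2 (uu_two hρ.toCy ht hu le_rfl ha v.2 w.2
      (fun a => hv (Subtype.ext a)) (fun a => hw (Subtype.ext a))
      fun _ e' => e (by simpa using Subtype.ext e'))⟩
  have k2 : UU ρ S κ t 0 = ⊥ ∨ UU ρ S κ t 1 = ⊥ := by
    by_contra h
    obtain ⟨φ, h3, h4⟩ := (Submodule.ne_bot_iff _).1 (not_or.1 h).1
    obtain ⟨ψ, h5, h6⟩ := (Submodule.ne_bot_iff _).1 (not_or.1 h).2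
    exact h2 (uu_two hρ.toCy ht hu zero_le_one le_rfl h3 h5 h4 h6 (by simp))
  have k3 : ¬ (UU ρ S κ t 0 = ⊥ ∧ UU ρ S κ t 1 = ⊥) := fun ⟨a, b⟩ => by
    have h3 : ∀ n Y, Gx ρ S κ Y → Y t = 0 → ∀ g, Dv (2 * n) (Y g) := fun n => by
      induction n with
      | zero => exact fun _ _ _ _ => dv_nil _
      | succ n ih =>
        intro Y h3 h4 g
        have h5 := of_not_not fun e => uu_pos hρ h3 h4 (fun _ => dv_nil _) e a
        have h6 := of_not_not fun e => uu_pos hρ h3 h4 h5 e b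
        choose Z hZ using fun g => (dv_two (n := 1)).1 (h6 g)
        rw [hZ, mul_add, add_comm, (al_two 1).dv_mul]
        exact ih Z (h3.half hZ)
          ((mul_eq_zero.1 ((hZ t).symm.trans h4)).resolve_left (al_two 1).ne) g
    obtain ⟨h, h4, h5, h6, -⟩ := kill_t hρ hκ ht hu (X t)
    refine h0 ?_
    convert h5.smul (-1) using 2 with g
    rw [neg_smul, one_smul, eq_neg_iff_add_eq_zero]
    exact eq_zero_of_dv fun n => (h3 n _ (hX.add h4) h6 g).mono (by omega)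
  simp only [← Submodule.finrank_eq_zero] at k2 k3
  have := k1 0 zero_le_one
  have := k1 1 le_rfl
  omega

theorem core (hρ : Tw ρ S) (hκ : ∀ p : Ix S, Kp ρ p (κ p)) (hp : p ∈ S) (hu : ρ (tp p) ^ 2 = -1)
    (h2 : ¬ Two ρ S) (hX : Gx ρ S κ X) (h0 : ¬ Ex false ρ ⊤ X) :
    Even (finrank F2 (GG S (ci ρ 0)) + ∑ p : Ix S, finrank F2 (La ρ p (κ p) 0)) := by
  have := hh_fin hρ.gp
  obtain ⟨m, h3, h4⟩ := ((rr_stab hρ κ 0).and (rr_stab hρ κ 1)).exists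
  have h5 := (fil hρ hκ).parity m
  have k := hρ.gp p hp
  have ht := eps_tp k.1 k.ne.1
  have h6 := uu_succ hρ hκ ht hu ⟨p, mem_union_left _ hp⟩ (tp_D k.1 k.ne.1)
  have h7 := uu_sum hρ hκ ht hu h2 hX h0
  rw [h3, h4, h6, h6, (gg_dual hρ.gp).2.2.2.2, rk_pi hρ.gp] at h5
  unfold Nat.ModEq at h5
  rw [Nat.even_iff]
  omega

end Pool.Agent.P.MP_8b7eba_nt.QT.PP
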