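import Pool.Agent.P.MP_8b7eba_nt.CG.PF

/-! The parity changes with the sign of the twist. -/

set_option linter.unusedSectionVars false

namespace Pool.Agent.P.MP_8b7eba_nt.QT.PP

open Finset R2 SM BasW Module R1

variable {p p' a : ℕ} {ρ ρ' X X' κ x y : GQ → O} {S S' Δ : Finset ℕ} {α : O} {H : Subgroup GQ}
  [HA]

theorem Ot.congr_rho (h : Ot ρ H x y) (e : ∀ g ∈ H, ρ' g = ρ g) : Ot ρ' H x y :=
  fun m => (h m).congr fun g hg k _ => by rw [wp_eq, wp_eq, ac, ac, e g hg]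

theorem Lam.congr_rho (h : Lam ρ p κ x) (e : ∀ g ∈ (pl p).D, ρ' g = ρ g) : Lam ρ' p κ x :=
  ⟨fun n => (h.1 n).congr_rho e, h.2.congr_rho e⟩

theorem Kp.congr_rho (h : Kp ρ p κ) (e : ∀ g ∈ (pl p).D, ρ' g = ρ g) : Kp ρ' p κ :=
  have e' := fun g hg => (e g hg).symm
  ⟨h.lam.congr_rho e, fun _ _ a b => (h.iso _ _ (a.congr_rho e') (b.congr_rho e')).congr_rho e⟩

theorem la_congr (e : ∀ g ∈ (pl p).D, ρ' g = ρ g) : La ρ' p κ a = La ρ p κ a :=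
  le_antisymm (fun _ ⟨b, h, h'⟩ => ⟨b, h.congr_rho fun g hg => (e g hg).symm, h'⟩)
    fun _ ⟨b, h, h'⟩ => ⟨b, h.congr_rho e, h'⟩

theorem la_rl (hr : Rl α ρ ρ') (hα : Al 0 α) :
    La ρ' p (fun _ => 0) a = La ρ p (fun _ => 0) a := by
  have k : ∀ {α ρ ρ'}, Rl α ρ ρ' → Al 0 α → La ρ' p (fun _ => 0) a ≤ La ρ p (fun _ => 0) a :=
    fun {α ρ ρ'} hr hα _ ⟨b, h, h'⟩ => ⟨fun g => α * b g, lam_odd fun n => by
      simpa using (zn_pow hr hα fun _ _ => rfl).2 (h.1 n), fun g hg => by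
      simpa using (le_al hα).mul (h' g hg)⟩
  exact le_antisymm (k hr hα) (k hr.symm hα.star)

theorem la_one (hρ : Tw ρ S) (hp : p ∈ S) (hu : ρ (tp p) ^ 2 = -1) :
    finrank F2 (La ρ p (fun _ => 0) 0) = 1 := by
  have k := hρ.gp p hp
  have c := hρ.toCy
  have := (hc_fin k.1).1
  have h1 : ∀ a, finrank F2 (La ρ p (fun _ => 0) a) ≠ 0 := fun a e => by
    obtain ⟨θ, t1, t2, t3⟩ := th_ex hρ a
    have t4 := ((gc_of c (t1 (a + 0 + 1)) t3).1).mono (le_top : (pl p).D ≤ ⊤)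
    have h2 : rc p t4 ∈ La ρ p (fun _ => 0) a :=
      ⟨θ, lam_odd (t2 true _).1, fun g hg => by rw [rc_of t4 hg]; exact t3 g⟩
    rw [Submodule.finrank_eq_zero.1 e, Submodule.mem_bot] at h2
    have h3 := rc_of t4 (tp_D k.1 k.ne.1)
    rw [h2, th_t (eps_tp k.1 k.ne.1) hu] at h3
    exact zero_ne_one h3
  have h2 := (Bp p).finrank_orthogonal ⟨bp_nd, fun a h => bp_nd a fun b => by rw [bp_sy, h]⟩
    (La ρ p (fun _ => 0) 0)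
  rw [la_orth c k.1 (kp_odd c k.1 k.ne.1) (b := 1) (by decide)] at h2
  have := hc_odd k.1 k.ne.1
  have := h1 0
  have := h1 1
  omega

/-- the classes which define the local conditions -/
noncomputable def kk (κ : GQ → O) (p : ℕ) : GQ → O := if p = 2 then κ else fun _ => 0

theorem core2 (hρ : Tw ρ S) (hΔ : Δ ⊆ S) (hu : ∀ p ∈ S, p ∉ Δ → ρ (tp p) ^ 2 = -1) (hp : p ∈ S)
    (hp' : p ∉ Δ) (hκ : Kp ρ 2 κ) (h2 : ¬ Two ρ S) (hX : ∀ n, Zu ρ S n X)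
    (h1 : Ot ρ (pl 2).D κ X) (h0 : ¬ Ex false ρ ⊤ X) :
    ((Δ.card + ∑ p ∈ Δ ∪ T30, finrank F2 (La ρ p (kk κ p) 0) : ℕ) : F2) =
      PadicInt.toZMod (ρ tau).im := by
  have c := hρ.toCy
  have h3 := core (κ := kk κ) hρ (fun q => by
    by_cases e : q.1 = 2
    · rw [e]; exact hκ
    · rw [kk, if_neg e]; exact kp_odd c (prime_of hρ.gp q.2) e) hp (hu p hp hp') h2 ⟨hX, fun q => by
    by_cases e : q.1 = 2
    · rw [e]; exact ⟨fun n => (hX n).zn.res _, h1⟩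
    · rw [kk, if_neg e]; exact lam_odd fun n => (hX n).zn.res _⟩ h0
  rw [sum_coe_sort (S ∪ T30) fun p => finrank F2 (La ρ p (kk κ p) 0),
    sum_congr (show S ∪ T30 = S \ Δ ∪ (Δ ∪ T30) by rw [← union_assoc, sdiff_union_of_subset hΔ])
      fun _ _ => rfl,
    sum_union (disjoint_union_right.2 ⟨sdiff_disjoint, (disj hρ.gp).mono_left sdiff_subset⟩),
    sum_congr rfl (g := fun _ => 1) fun q hq => by
      obtain ⟨a, b⟩ := mem_sdiff.1 hq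
      rw [kk, if_neg (hρ.gp q a).ne.1, la_one hρ a (hu q a b)],
    sum_const, smul_eq_mul, mul_one, Nat.even_iff] at h3
  have h4 := card_sdiff_add_card_eq_card hΔ
  obtain ⟨-, -, h5, h6, -⟩ := gg_dual hρ.gp
  rcases f2 (PadicInt.toZMod (ρ tau).im) with e | e <;> rw [e]
  · rw [eq_true (ci_zero c e), h5] at h3
    exact ZMod.natCast_eq_zero_iff_even.2 (by rw [Nat.even_iff]; omega)
  · rw [eq_false (ci_not c (by decide) (ci_one c e)), h6] at h3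
    exact ZMod.natCast_eq_one_iff_odd.2 (by rw [Nat.odd_iff]; omega)

theorem flip (hρ : Tw ρ S) (hρ' : Tw ρ' S') (hΔ : Δ ⊆ S) (hΔ' : Δ ⊆ S')
    (hu : ∀ p ∈ S, p ∉ Δ → ρ (tp p) ^ 2 = -1) (hu' : ∀ p ∈ S', p ∉ Δ → ρ' (tp p) ^ 2 = -1)
    (hp : p ∈ S ∧ p ∉ Δ) (hp' : p' ∈ S' ∧ p' ∉ Δ) (hκ : Kp ρ 2 κ)
    (e : ∀ g ∈ (pl 2).D, ρ' g = ρ g) (e' : ∀ p ∈ Δ ∪ T30, p ≠ 2 → ∃ α r, Al 0 α ∧ Rl α ρ' r ∧
      ∀ g ∈ (pl p).D, r g = ρ g) (h2 : ¬ Two ρ S) (h2' : ¬ Two ρ' S')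
    (hX : ∀ n, Zu ρ S n X) (hX' : ∀ n, Zu ρ' S' n X') (h1 : Ot ρ (pl 2).D κ X)
    (h1' : Ot ρ' (pl 2).D κ X') (h0 : ¬ Ex false ρ ⊤ X) (h0' : ¬ Ex false ρ' ⊤ X') :
    (PadicInt.toZMod (ρ' tau).im : F2) = PadicInt.toZMod (ρ tau).im := by
  rw [← core2 hρ hΔ hu hp.1 hp.2 hκ h2 hX h1 h0,
    ← core2 hρ' hΔ' hu' hp'.1 hp'.2 (hκ.congr_rho e) h2' hX' h1' h0', sum_congr rfl fun q hq => ?_]
  by_cases h : q = 2
  · subst h
    rw [la_congr e]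
  · obtain ⟨α, r, a, b, c⟩ := e' q hq h
    rw [kk, if_neg h, ← la_rl b a, la_congr c]

end Pool.Agent.P.MP_8b7eba_nt.QT.PP
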