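import Pool.Agent.P.MP_8b7eba_nt.CG.PI

/-! Congruent twists of opposite signs. -/

set_option linter.unusedSectionVars false

namespace Pool.Agent.P.MP_8b7eba_nt.QT.PP

open Finset R2 SM MP_9c97e9_nt Classical CA CB CE
open QT.CG (GoodP r1 e1 tm1)

variable {D D' : ℤ} {ρ ρ' r : GQ → O} {e : ℕ → O →+ Pt (W 1) Om} {δ δ' : Om} {α : O}
  {S : Finset ℕ} {p p' y : ℕ}

/-- the lattice of a fourth root -/
noncomputable def LL (r : GQ → O) (δ : Om) (g : GQ) : O := r g * kd δ g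

/-- two independent classes for a twist -/
def Tw2 (r : GQ → O) (D : ℤ) : Prop := ∃ δ : Om, δ ^ 4 = D ∧ Two (LL r δ) (SD D)

theorem one4 (h : δ ^ 4 = D) : δ ^ 4 * (1 : ℤ) = D := by simpa using h

theorem kd_rl (hD : D ≠ 0) (h : δ ^ 4 = D) (h' : δ' ^ 4 = D) (r : GQ → O) :
    ∃ α, Al 0 α ∧ Rl α (LL r δ) (LL r δ') := by
  have h0 := ne4 hD (one4 h)
  have h4 := fix4 one_ne_zero (one4 h)
  obtain ⟨j, -, hj⟩ := I_prim.eq_pow_of_pow_eq_one (ξ := δ' / δ) (by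
    rw [div_pow, h, h', div_self (Int.cast_ne_zero.2 hD)])
  obtain rfl : δ' = rt (-1) ^ j * δ := by rw [hj, div_mul_cancel₀ _ h0]
  refine ⟨ii ^ j, al_unit.2 (unit_ii.pow j), fun g => ?_⟩
  have h1 := ne4 hD (one4 h')
  have h2 := fix4 one_ne_zero (one4 h')
  rcases gal_i g with ⟨a, b⟩ | ⟨a, b⟩
  · rw [LL, LL, kd_of h1 h2 (e := ke δ g) (by rw [map_mul, map_pow, a, QT.ke_spec h4]; ring),
      map_pow, b]
    rfl
  · rw [LL, LL, kd_of h1 h2 (e := ke δ g + 2 * j) (by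
      rw [map_mul, map_pow, a, QT.ke_spec h4, pow_add, pow_mul, I_sq, neg_pow]; ring),
      map_pow, b, pow_add, pow_mul, ii_sq, neg_pow ii, kd]
    ring

theorem two_rl (hr : Rl α ρ ρ') (hα : Al 0 α) (h : Two ρ' S) : Two ρ S := fun k => by
  obtain ⟨x, y, h1, h2, h3⟩ := h k
  refine ⟨fun g => α * x g, fun g => α * y g, by simpa using (zu_pow hr hα fun _ => rfl).2 h1,
    by simpa using (zu_pow hr hα fun _ => rfl).2 h2, fun a b v hv => ?_⟩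
  obtain ⟨v, rfl⟩ := hα.dvd.2 (dv_nil v)
  refine h3 a b v fun g => hα.dv_mul.1 (of_eq ((hv g).mono (by omega)) ?_)
  rw [hr.bd, mul_sub, mul_add, mul_smul_comm, mul_smul_comm]

theorem im_rl (hρ : Cy ρ) (hρ' : Cy ρ') (hr : Rl α ρ ρ') (hα : Al 0 α) (g : GQ) :
    (PadicInt.toZMod (ρ' g).im : F2) = PadicInt.toZMod (ρ g).im := by
  have h1 := unit_iff.1 (al_unit.1 hα)
  have h2 := im_mul_unit (hρ'.rd g) h1
  rw [hr g, im_mul_unit (hρ.rd g) ((rd_cj g α).trans h1), cj, im_cs] at h2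
  exact (add_right_cancel h2).symm

theorem ll_mul (hD : D ≠ 0) (hD' : D' ≠ 0) (h : δ ^ 4 = D) {u : Om} (hu : u ^ 4 * D = D') :
    LL r (δ * u) = fun g => LL r δ g * kd u g := funext fun g => by
  rw [LL, LL, kd_mul (ne4 hD (one4 h)) (fix4 one_ne_zero (one4 h)) (ne4 hD' hu) (fix4 hD hu),
    mul_assoc]

variable [HA]

theorem ll_cy (h1 : TM 1 r e) (hD : D ≠ 0) (h : δ ^ 4 = D) : Cy (LL r δ) :=
  Cy.mul_cr ⟨CB.co h1, CB.sm h1 one_ne_zero, CD.det h1⟩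
    (cr_kd (ne4 hD (one4 h)) (fix4 one_ne_zero (one4 h)))

theorem ll_tm (h1 : TM 1 r e) (hc : Cm 1 e) (hD : D ≠ 0) (h : δ ^ 4 = D) :
    ∃ e', TM D (LL r δ) e' ∧ Cm D e' :=
  let ⟨_, _, _, a⟩ := tw2 h1 hc one_ne_zero hD (one4 h)
  ⟨_, a⟩

theorem ll_im (h1 : TM 1 r e) (hD : D ≠ 0) (h : δ ^ 4 = D) (g : GQ) :
    (PadicInt.toZMod (LL r δ g).im : F2) = PadicInt.toZMod (r g).im + qz D g := by
  obtain ⟨α, a, b⟩ := kd_rl hD (r4_pow D) h r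
  rw [im_rl (ll_cy h1 hD (r4_pow D)) (ll_cy h1 hD h) b a, ← im_kq hD]
  exact im_mul_unit (CD.unit h1 g) ((cr_kq hD).rd g)

theorem ll_ram (h1 : TM 1 r e) (hD : D ≠ 0) (h : δ ^ 4 = D) (hp : p ∈ SD D)
    (h2 : ¬ (p : ℤ) ^ 2 ∣ D) : LL r δ (tp p) ^ 2 = -1 := by
  obtain ⟨k, hp⟩ := (mem_SD hD).1 hp
  obtain ⟨A, rfl⟩ : ps p ∣ D := Int.natAbs_dvd.1 (by rwa [BasG.abs_ps])
  have hA : A ≠ 0 := right_ne_zero_of_mul hD
  obtain ⟨α, a, b⟩ := kd_rl hD h (δ' := r4 (ps p) * r4 A)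
    (by rw [mul_pow, r4_pow, r4_pow, Int.cast_mul]) r
  have t := tp_I k.1 k.ne.1
  have q := Nat.prime_iff_prime_int.1 k.1
  have h3 := b (tp p)
  rw [cj_of (eps_tp k.1 k.ne.1)] at h3
  have h4 : ∀ a : ℤ, ¬ (p : ℤ) ∣ a → ¬ ((pl p).p : ℤ) ∣ 2 * a := fun a c d => by
    rw [pl_p k.1] at d
    exact (q.dvd_or_dvd d).elim (fun e => k.2 ((Int.natCast_dvd.1 e).trans (by norm_num))) c
  rw [← mul_right_cancel₀ a.ne h3, LL, CD.unr h1 (h4 1 q.not_dvd_one) t,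
    kd_mul (r4_ne (ps_ne k)) (r4_fix _) (r4_ne hA) (r4_fix _), ← kq, ← kq,
    kq_I (h4 A fun e => h2 (by
      rw [sq]
      exact mul_dvd_mul (Int.natCast_dvd.2 (BasG.abs_ps p).symm.dvd) e)) t, one_mul, mul_one,
    kq_sq (ps_ne k), show qz (ps p) (tp p) = 1 from qs_tp_self k.1 k.ne.1]
  simp [SM.sg, ZMod.val_one]

theorem pair (hD : D ≠ 0) (hD' : D' ≠ 0) (hs : ∀ p : ℕ, p.Prime → p ∣ 30 ∨ (p : ℤ) ^ 2 ∣ D →
      ∃ u, Fix (pl p).D u ∧ u ^ 4 * D = D' ∧ (pl p).v u = 1)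
    (hq : ∀ p : ℕ, p.Prime → ((p : ℤ) ^ 2 ∣ D ↔ (p : ℤ) ^ 2 ∣ D'))
    (hp : p ∈ SD D ∧ ¬ (p : ℤ) ^ 2 ∣ D) (hp' : p' ∈ SD D' ∧ ¬ (p' : ℤ) ^ 2 ∣ D')
    (h2 : ¬ Tw2 r1 D) (h2' : ¬ Tw2 r1 D') (h3 : ¬ GoodP D) (h3' : ¬ GoodP D') :
    0 < D ↔ 0 < D' := by
  have h1 := tm1.1
  have d := r4_pow D
  obtain ⟨f₁, g1, g2, t1, c1⟩ := tw2 h1 tm1.2 one_ne_zero hD (one4 d)
  obtain ⟨u, u1, u2, u3⟩ := hs 2 Nat.prime_two (.inl (by norm_num))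
  obtain ⟨f, f1, f2, t2, -⟩ := tw2 t1 c1 hD hD' u2
  have m : ∀ {u : Om}, u ^ 4 * D = D' → (r4 D * u) ^ 4 = D' := fun e => by
    rw [mul_pow, d, mul_comm, e]
  have y1 := ll_cy h1 hD d
  have y2 := ll_cy h1 hD' (m u2)
  replace t2 := (ll_mul hD hD' d u2).symm ▸ t2
  obtain ⟨κ, k1⟩ := kappa hD t1 c1 y1
  have l : ∀ {p : ℕ} {u : Om}, Fix (pl p).D u → u ^ 4 * D = D' → ∀ g ∈ (pl p).D,
      LL r1 (r4 D * u) g = LL r1 (r4 D) g := fun a b g hg => by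
    rw [ll_mul hD hD' d b]
    exact (congrArg _ (kd_fix (a g hg))).trans (mul_one _)
  have k2 := k1.sc hD' f1 f2 u1 u3 (l u1 u2)
  obtain ⟨X, x1, x2, x3⟩ : ∃ X, _ ∧ _ ∧ ¬ _ := by
    simpa using mt (fun z => ⟨hD, fin_of hD t1 k1 z, _, f₁, d, g1, g2, zer_of y1 k1 z⟩) h3
  obtain ⟨X', w1, w2, w3⟩ : ∃ X, _ ∧ _ ∧ ¬ _ := by
    simpa using mt (fun z => ⟨hD', fin_of hD' t2 k2 z, _, f.comp f₁, m u2, f1.comp g1,
      fun P x η a => by simpa [mul_pow, mul_left_comm, mul_assoc] using f2 _ _ _ (g2 _ _ _ a),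
      zer_of y2 k2 z⟩) h3'
  have h4 := flip (ρ := LL r1 (r4 D)) (Δ := (SD D).filter fun p => (p : ℤ) ^ 2 ∣ D)
    (tw_of hD t1 y1) (tw_of hD' t2 y2) (filter_subset _ _) (fun q a => by
      obtain ⟨b, c⟩ := mem_filter.1 a
      have := ((mem_SD hD).1 b).1
      exact (mem_SD hD').2 ⟨this, (dvd_pow_self _ two_ne_zero).trans ((hq q this.1).1 c)⟩)
    (fun q a b => ll_ram h1 hD d a fun c => b (mem_filter.2 ⟨a, c⟩))
    (fun q a b => ll_ram h1 hD' (m u2) a fun c => by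
      have := ((mem_SD hD').1 a).1
      have c' := (hq q this.1).2 c
      exact b (mem_filter.2 ⟨(mem_SD hD).2 ⟨this, (dvd_pow_self _ two_ne_zero).trans c'⟩, c'⟩))
    ⟨hp.1, fun a => hp.2 (mem_filter.1 a).2⟩
    ⟨hp'.1, fun a => hp'.2 ((hq _ ((mem_SD hD').1 hp'.1).1.1).1 (mem_filter.1 a).2)⟩ k1.kp (l u1 u2)
    (fun q a _ => by
      obtain ⟨v, v1, v2, -⟩ : ∃ v, Fix (pl q).D v ∧ v ^ 4 * D = D' ∧ (pl q).v v = 1 := by
        rcases mem_union.1 a with a | a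
        · exact hs q ((mem_SD hD).1 (mem_filter.1 a).1).1.1 (.inr (mem_filter.1 a).2)
        · exact hs q (mem_T30.1 a).1 (.inl (mem_T30.1 a).2)
      obtain ⟨α, a, b⟩ := kd_rl hD' (m u2) (m v2) r1
      exact ⟨α, _, a, b, l v1 v2⟩)
    (fun a => h2 ⟨_, d, a⟩) (fun a => h2' ⟨_, m u2, a⟩) x1 w1 x2 w2 x3 w3
  rw [ll_im h1 hD d, ll_im h1 hD' (m u2), add_right_inj] at h4
  rw [← qz_tau hA.tau hD, ← qz_tau hA.tau hD', h4]

theorem curve (h1 : TM 1 r e) (hc : Cm 1 e) (hD : D ≠ 0) : ∃ r', Bs (SD D) r' ∧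
    ∀ S : Finset ℕ, (∀ p ∈ S, Gp p) → Disjoint (SD D) S → Tw2 r (D * ∏ p ∈ S, ps p) →
      Two (tw r' (SD D ∪ S)) (SD D ∪ S) := by
  have n0 : ∀ S : Finset ℕ, (∀ p ∈ S, Gp p) → ∏ p ∈ S, ps p ≠ 0 := fun S hS =>
    prod_ne_zero_iff.2 fun p hp => ps_ne (hS p hp)
  have hΔ : ∀ p ∈ SD D, Gp p := fun p hp => ((mem_SD hD).1 hp).1
  set c := ∏ p ∈ SD D, ps p with hc'
  have c0 : c ≠ 0 := n0 _ hΔ
  have c2 := mul_ne_zero hD (pow_ne_zero 3 c0)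
  obtain ⟨e₁, t1, -⟩ := ll_tm h1 hc c2 (r4_pow _)
  refine ⟨_, ⟨ll_cy h1 c2 (r4_pow _), fun w a b =>
    (tw_of c2 t1 (ll_cy h1 c2 (r4_pow _))).unr w a fun f => ?_⟩, fun S hS hd ⟨δ, d1, d2⟩ => ?_⟩
  · have q := Nat.prime_iff_prime_int.1 w.prime
    exact (q.dvd_or_dvd ((mem_SD c2).1 f).2).elim (fun e => b ((mem_SD hD).2 ⟨⟨w.prime, a⟩, e⟩))
      fun e => not_dvd hΔ w.prime b (q.dvd_of_dvd_pow e)
  have c1 : (c : Om) ≠ 0 := Int.cast_ne_zero.2 c0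
  have c3 := mul_ne_zero hD (n0 S hS)
  have c4 : (r4 (D * c ^ 3) * (∏ p ∈ SD D ∪ S, r4 (ps p)) / c) ^ 4 = (D * ∏ p ∈ S, ps p : ℤ) := by
    rw [div_pow, mul_pow, r4_spec, ← prod_pow (SD D ∪ S), prod_congr rfl fun p _ => r4_spec (ps p),
      prod_union hd, ← Int.cast_prod, ← hc']
    push_cast
    field_simp
  obtain ⟨α, a, b⟩ := kd_rl c3 c4 d1 r
  convert two_rl b a d2 using 1
  · funext g
    rw [LL, kd_of (ne4 c3 (one4 c4)) (fix4 one_ne_zero (one4 c4))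
      (e := ke (r4 (D * c ^ 3)) g + ∑ p ∈ SD D ∪ S, (ke (r4 (ps p)) g : ℕ)) (by
      rw [map_div₀, map_mul, map_prod, map_intCast, CB.ke_spec (r4_spec _),
        prod_congr rfl fun p _ => CB.ke_spec (r4_spec (ps p)) g, prod_mul_distrib,
        prod_pow_eq_pow_sum, pow_add]
      ring)]
    simp only [tw, LL, kq, kd, prod_pow_eq_pow_sum, pow_add, mul_assoc]
  · ext q
    rw [mem_union, mem_SD c3, mem_SD hD]
    refine ⟨fun h => h.elim (fun h => ⟨h.1, h.2.mul_right _⟩) fun h => ⟨hS q h, Dvd.dvd.mul_left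
      ((Int.natCast_dvd.2 (BasG.abs_ps q).symm.dvd).trans (dvd_prod_of_mem _ h)) _⟩, fun h => ?_⟩
    exact ((Nat.prime_iff_prime_int.1 h.1.1).dvd_or_dvd h.2).imp (fun e => ⟨h.1, e⟩)
      fun e => by_contra fun f => not_dvd hS h.1.1 f e

theorem root (hD : D ≠ 0) (hy : ∀ d, d ^ 2 ∣ D.natAbs → d ≤ y) (hp : p.Prime) (h : p ≤ y)
    (hM : (((y ^ 3).factorial * (8 * y.factorial) : ℕ) : ℤ) ∣ D' - D) :
    ∃ u, Fix (pl p).D u ∧ u ^ 4 * D = D' ∧ (pl p).v u = 1 := by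
  obtain ⟨j, A, h1, h2⟩ := Nat.exists_eq_pow_mul_and_not_dvd (Int.natAbs_ne_zero.2 hD) p hp.ne_one
  have h3 : p ^ j ≤ y ^ 3 := by
    have h4 := hy (p ^ (j / 2)) (by
      rw [h2, ← pow_mul]
      exact (pow_dvd_pow p (by omega)).mul_right A)
    calc p ^ j ≤ p ^ (j / 2 * 2 + 1) := Nat.pow_le_pow_right hp.pos (by omega)
      _ ≤ y ^ 2 * y := by
        rw [pow_succ, pow_mul]
        exact Nat.mul_le_mul (Nat.pow_le_pow_left h4 2) h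
      _ = _ := by ring
  obtain ⟨t, ht⟩ : ((p ^ j * (8 * p) : ℕ) : ℤ) ∣ D' - D := (Int.natCast_dvd_natCast.2 (mul_dvd_mul
    (Nat.dvd_factorial (pow_pos hp.pos j) h3) (mul_dvd_mul_left 8
      (Nat.dvd_factorial hp.pos h)))).trans hM
  obtain ⟨B, rfl⟩ : ((p ^ j : ℕ) : ℤ) ∣ D := Int.natCast_dvd.2 ⟨A, h2⟩
  rw [Int.natAbs_mul, Int.natAbs_natCast, Nat.mul_right_inj (pow_pos hp.pos j).ne'] at h2
  have e := pl_p hp
  have h5 : (pl p).v B = 1 := Pl.v_int_eq_one.2 (by rwa [e, Int.natCast_dvd, h2])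
  have h6 : (B : Om) ≠ 0 := Int.cast_ne_zero.2 (right_ne_zero_of_mul hD)
  have h7 : (pl p).v (8 * (p * t) / B) < (pl p).v 8 := by
    rw [map_div₀, h5, div_one, map_mul]
    refine mul_lt_of_lt_one_right (((pl p).v.pos_iff).2 (by norm_num)) (small ?_ (v_int _ t))
    simpa [e] using (pl p).v_p_lt
  obtain ⟨u, a, b⟩ := hen4 (pl p) (x := 1 + 8 * (p * t) / B)
    (fix_one.add (((fix_ofNat 8).mul ((fix_nat p).mul (fix_int t))).div (fix_int B)))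
    (by rwa [add_sub_cancel_left])
  refine ⟨u, a, ?_, ?_⟩
  · rw [b, eq_add_of_sub_eq ht]
    push_cast
    field_simp
    ring
  · rw [← pow_eq_one_iff_of_nonneg zero_le four_ne_zero, ← map_pow, b,
      Valuation.map_add_eq_of_lt_left, map_one]
    rw [map_one]
    exact h7.trans_le (v_nat _ 8)

end Pool.Agent.P.MP_8b7eba_nt.QT.PP
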