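import Pool.Agent.P.MP_8b7eba_nt.CG.PJ
import Pool.Agent.P.MP_8b7eba_nt.QT.Main

/-! Half of the quartic twists are good. -/

namespace Pool.Agent.P.MP_8b7eba_nt.QT.PP

open Finset R2 SM MP_9c97e9_nt Classical Filter Topology FC

variable {r : GQ → O} {e : ℕ → O →+ Pt (W 1) Om}

theorem rare2 (h1 : TM 1 r e) (hc : Cm 1 e) (y : ℕ) {ε : ℝ} (hε : 0 < ε) :
    ∀ᶠ X : ℕ in atTop, (((Icc (-X : ℤ) X).filter fun D => D ≠ 0 ∧
      (∀ d, d ^ 2 ∣ D.natAbs → d ≤ y) ∧ Tw2 r D).card : ℝ) ≤ ε * X := by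
  choose! s r1 r2 using fun D hD => curve (D := D) h1 hc hD
  let T := (Icc (-(30 * y ^ 3 : ℕ) : ℤ) (30 * y ^ 3 : ℕ)).erase 0
  have hT : (0 : ℝ) < T.card + 1 := by positivity
  filter_upwards [T.eventually_all.2 fun D hD => eventually_atTop.2
    (a_DENSQ _ _ (r1 D (ne_of_mem_erase hD)) _ (div_pos hε hT))] with X hX
  have h2 : ((Icc (-X : ℤ) X).filter fun D => D ≠ 0 ∧ (∀ d, d ^ 2 ∣ D.natAbs → d ≤ y) ∧ Tw2 r D) ⊆
      T.biUnion fun D => ((Icc 1 X).filter fun n => Squarefree n ∧ n.Coprime 30 ∧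
        SD D ⊆ n.primeFactors ∧ Two (tw (s D) n.primeFactors) n.primeFactors).image
          fun n => D * ∏ p ∈ n.primeFactors \ SD D, ps p := fun D hD => by
    obtain ⟨a, h0, h, hb⟩ := mem_filter.1 hD
    have a1 : D.natAbs ≤ X := by
      rw [mem_Icc] at a
      omega
    obtain ⟨D₀, S, b, c, rfl⟩ := decomp h0 h
    have h3 := left_ne_zero_of_mul h0
    have h4 : Disjoint (SD D₀) S := disjoint_left.2 fun p e f =>
      (c p f).2 (Nat.dvd_of_mem_primeFactors (mem_filter.1 e).1)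
    have h5 : ∀ p ∈ SD D₀ ∪ S, Gp p := fun p e =>
      (mem_union.1 e).elim (fun f => ((mem_SD h3).1 f).1) fun f => (c p f).1
    have h6 := Nat.primeFactors_prod fun p e => (h5 p e).1
    refine mem_biUnion.2 ⟨D₀, mem_erase.2 ⟨h3, mem_Icc.2 (by omega)⟩,
      mem_image.2 ⟨∏ p ∈ SD D₀ ∪ S, p, mem_filter.2 ⟨mem_Icc.2 ⟨prod_pos fun p e => (h5 p e).1.pos,
        le_trans (Nat.le_of_dvd (Int.natAbs_pos.2 h0) ?_) a1⟩, ?_, ?_, ?_, ?_⟩, ?_⟩⟩
    · rw [Int.natAbs_mul, abs_prod, prod_union h4]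
      exact mul_dvd_mul_right ((prod_dvd_prod_of_subset _ _ _ (filter_subset _ _)).trans
        (Nat.prod_primeFactors_dvd _)) _
    · exact Finset.squarefree_prod_of_pairwise_isCoprime (fun p a q b e =>
        Nat.coprime_iff_isRelPrime.1 ((Nat.coprime_primes (h5 p a).1 (h5 q b).1).2 e))
        fun p e => (h5 p e).1.squarefree
    · exact Nat.Coprime.prod_left fun p e => (h5 p e).1.coprime_iff_not_dvd.2 (h5 p e).2
    · rw [h6]
      exact subset_union_left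
    · rw [h6]
      exact r2 D₀ h3 S (fun p e => (c p e).1) h4 hb
    · rw [h6, union_sdiff_cancel_left h4]
  refine (Nat.cast_le.2 ((card_le_card h2).trans
    (card_biUnion_le.trans (sum_le_sum fun _ _ => card_image_le)))).trans ?_
  have h3 := sum_le_card_nsmul _ _ _ hX
  rw [nsmul_eq_mul] at h3
  have h4 : T.card * (ε / (T.card + 1) * X) ≤ ε * X := by
    rw [← mul_assoc, ← mul_div_assoc]
    exact mul_le_mul_of_nonneg_right ((div_le_iff₀ hT).2 (by linarith)) X.cast_nonneg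
  push_cast
  linarith

theorem exact {D : ℤ} {y : ℕ} (h : ∀ d, d ^ 2 ∣ D.natAbs → d ≤ y) (hD : 30 * y ^ 3 < D.natAbs) :
    ∃ p, p ∈ SD D ∧ ¬ (p : ℤ) ^ 2 ∣ D := by
  have h0 : D ≠ 0 := by omega
  obtain ⟨D₀, S, b, c, rfl⟩ := decomp h0 h
  obtain ⟨p, hp⟩ := S.eq_empty_or_nonempty.resolve_left fun e => by
    rw [e, prod_empty, mul_one] at hD
    omega
  have h1 : (p : ℤ) ∣ ps p := Int.natCast_dvd.2 (BasG.abs_ps p).symm.dvd
  refine ⟨p, (mem_SD h0).2 ⟨(c p hp).1, (h1.trans (dvd_prod_of_mem _ hp)).mul_left _⟩, fun e => ?_⟩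
  rw [← mul_prod_erase _ _ hp, mul_left_comm, ← Int.natAbs_dvd_natAbs, Int.natAbs_mul,
    BasG.abs_ps, Int.natAbs_pow, Int.natAbs_natCast, sq,
    Nat.mul_dvd_mul_iff_left (c p hp).1.1.pos, ← Int.natCast_dvd] at e
  exact ((Nat.prime_iff_prime_int.1 (c p hp).1.1).dvd_or_dvd e).elim
    (fun e => (c p hp).2 (Int.natCast_dvd.1 e))
    (CE.not_dvd (fun q hq => (c q (mem_of_mem_erase hq)).1) (c p hp).1.1 (notMem_erase _ _))

theorem half {X M : ℕ} (hM : 0 < M) {B : Finset ℤ} (h1 : ∀ D ∈ B, D ≠ 0 ∧ D.natAbs ≤ X)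
    (h2 : ∀ D ∈ B, ∀ D' ∈ B, (M : ℤ) ∣ D' - D → (0 < D ↔ 0 < D')) : B.card ≤ X + M := by
  obtain ⟨L, h3, h4, h5⟩ : ∃ L : ℕ, X < L ∧ L ≤ X + M ∧ (M : ℤ) ∣ L :=
    ⟨M * (X / M + 1), Nat.lt_mul_div_succ X hM, by
      rw [mul_add, mul_one]; exact add_le_add_left (Nat.mul_div_le X M) M,
      Int.natCast_dvd_natCast.2 (dvd_mul_right _ _)⟩
  refine (card_le_card_of_injOn (t := Icc (1 : ℤ) L) (fun D => if 0 < D then D else D + L)
    (fun D hD => ?_) fun D hD D' hD' e => ?_).trans (by simpa using h4)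
  · have := h1 D hD
    simp only [coe_Icc, Set.mem_Icc]
    split_ifs <;> omega
  · simp only at e
    split_ifs at e with a b b
    · exact e
    · exact absurd ((h2 D hD D' hD' (by rw [e]; simpa using h5)).1 a) b
    · exact absurd ((h2 D hD D' hD' (by rw [← e]; simpa using h5)).2 b) a
    · exact add_right_cancel e

end Pool.Agent.P.MP_8b7eba_nt.QT.PP
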