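import Pool.Agent.P.MP_8b7eba_nt.CG.If

/-! Proof of BCH. -/

namespace Pool.Agent.P.MP_8b7eba_nt.QT.CG

open R2 SM Polynomial Filter Module
open MP_9c97e9_nt (Pt pm Is)

theorem bch_eO : eO iz = ii := (Zsqrtd.lift_apply_apply _ iz).trans (by simp [iz])

theorem bch_eK : eK (star iz) = rt (-1) :=
  (Zsqrtd.lift_apply_apply _ (star iz)).trans (by simp [iz, iK])

theorem bch_kd (δ : Om) (g : GQ) : kd δ g = eO (ku δ g) := by rw [ku, map_pow, bch_eO, kd]

theorem p_BCH (hBGK : S_BGK) : S_BCH := by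
  obtain ⟨-, -, -, hq, -, -, -, -, hO, -⟩ := hBGK
  intro D δ hD hδ
  have h0 : δ ≠ 0 := fun e => hD (by
    rw [e, zero_pow four_ne_zero] at hδ
    exact_mod_cast hδ.symm)
  have h4 : Fix ⊤ (δ ^ 4) := hδ ▸ fix_int D
  have hc := cr_kd h0 h4
  have hy : Cy (rho δ) := by
    refine ⟨fun g h => ?_, fun n => ?_, fun g => ?_⟩
    · simp only [rho, CB.co tm1.1, hc.co, map_mul]
      ring
    · obtain ⟨N, a, b⟩ := CB.sm tm1.1 one_ne_zero n
      obtain ⟨N', a', b'⟩ := hc.sm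
      exact ⟨N ⊓ N', a.inf a', fun g hg => by rw [rho, b' g hg.2, mul_one]; exact b g hg.1⟩
    · rw [rho, nr_mul, hc.nr, mul_one, CD.det tm1.1]
  have hg : ∀ g : GQ, g δ = eK (star (ku δ g)) * δ := fun g => by
    rw [ku, star_pow, map_pow, bch_eK]
    exact ke_spec h4 g
  have hr : ∀ w : Pl, w.p ≠ 2 → ∀ g ∈ w.I, r1 g = 1 := fun w hw g hg =>
    CD.unr tm1.1 (fun h => hw ((Nat.prime_dvd_prime_iff_eq w.prime Nat.prime_two).1
      (by exact_mod_cast h))) hg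
  refine ⟨hy, fun g => ⟨bch_kd δ g, ?_, hg g, ?_⟩, fun g hk h => ⟨hO ?_, ?_, ?_, ?_⟩,
    fun w hw g hI => ⟨hr w hw g hI, fun hp => ?_⟩, fun w hw h1 h2 => ?_, fun m hm g => ?_⟩
  · rw [ku, ← pow_mul, mul_comm, pow_mul, show iz ^ 4 = 1 by decide, one_pow]
  · rw [dv_one_sub, rho, rd_mul, CD.unit tm1.1, kd, rd_pow, rd_ii, one_pow, one_mul]
  · rw [map_mul, ← bch_kd, ← bch_kd, ← bch_kd, hc.co, cj_of ((hq g).1 hk)]
  · rw [CB.co tm1.1, cj_of ((hq g).1 hk)]
  · rw [hy.co, cj_of ((hq g).1 hk)]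
  · rw [mul_star_eq, smul_eq, mul_one, ← hy.nm, (hq g).1 hk, show SM.sg 0 = 1 by simp [SM.sg],
      mul_one]
  · have h1 : g δ = δ := by
      refine (GrpA.tame hA.tame hA.res hw).2.1 g hI 2 δ ?_ (h4.mono le_top)
      have := Pl.v_int_eq_one.2 hp
      rw [← hδ, map_pow] at this
      exact (pow_eq_one_iff_of_nonneg zero_le four_ne_zero).1 this
    exact ⟨h1, by rw [rho, hr w hw g hI, kd_fix h1, mul_one]⟩
  · by_contra! h3
    have h5 : Fix w.I δ := fun g hI => by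
      have := h3 g hI
      rw [rho, hr w hw g hI, one_mul, bch_kd, ← map_one eO] at this
      rw [hg, hO this, star_one, map_one, one_mul]
    have h6 : w.v δ < 1 := by
      have := (w.v_int_le D).lt_of_ne fun e => Pl.v_int_eq_one.1 e h1
      rw [← hδ, map_pow] at this
      exact (pow_lt_one_iff_of_nonneg zero_le four_ne_zero).1 this
    have h7 := (hA.res w w.D w.loc_D).2.2.2.2.1.le h5 h6
    refine h2 (Pl.v_int_le_iff.1 ?_)
    rw [← hδ, map_pow, ← inv_pow, ← w.vp]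
    exact pow_le_pow_left₀ zero_le h7 4
  · have h1 : kd (m * δ) g = kd δ g := kd_of (mul_ne_zero (Int.cast_ne_zero.2 hm) h0)
      (by rw [mul_pow, ← Int.cast_pow]; exact (fix_int _).mul h4)
      (by rw [map_mul, map_intCast, ke_spec h4 g]; ring)
    exact ⟨hO (by rw [← bch_kd, ← bch_kd, h1]), by rw [rho, rho, h1]⟩

end Pool.Agent.P.MP_8b7eba_nt.QT.CG
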