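import Pool.Agent.P.MP_8b7eba_nt.CG.A2b

/-! Proof of FRB. -/

namespace Pool.Agent.P.MP_8b7eba_nt.QT.CG

open R2 SM Polynomial Filter Module
open MP_9c97e9_nt (Pt pm Is)

namespace A2

variable {w : Pl} {β : ZI}

theorem frb_gk (hB : S_BGK) {f : ℕ} {φ : GQ} (hβ : Prim β) (hv : w.v (eK β) < 1)
    (hφ : w.IsFrob f φ) (hn : (w.p : ℤ) ^ f = β.norm) : φ ∈ GK := by
  by_contra h
  obtain ⟨k, hk⟩ := prim_norm hβ
  have h1 := hB.2.2.2.2.2.2.1 φ h iz
  have h2 := hφ.2 iK (v_iK w).le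
  have h3 : w.p ^ f = 2 * (2 * k) + 1 := by
    have := hn.trans hk
    zify
    linear_combination this
  rw [show star iz = -iz from rfl, map_neg, eK_iz] at h1
  rw [h1, h3, pow_succ, pow_mul, iK_sq, pow_mul, neg_one_sq, one_pow,
    show -iK - 1 * iK = -(2 * iK) by ring, Valuation.map_neg, map_mul, v_iK,
    Pl.v_two (odd_of_prim hβ hv), mul_one] at h2
  exact lt_irrefl _ h2

theorem frb_x (hG : S_GEN) (hX : S_XP) (hl : Prime β) (hβ : Prim β) (hv : w.v (eK β) < 1)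
    {P : EE} (hP : P ∉ E1 w) (h0 : β • P ≠ 0) :
    w.v (xc (β • P) - xc P ^ β.norm.natAbs) < 1 := by
  obtain ⟨S, k, c, s1, s2, s3, c1, c2, -⟩ := xp0 hG hX hβ
  have hp := odd_of_prim hβ hv
  have key : ∀ P ∉ E1 w, β • P ≠ 0 → w.v (c * xc (β • P) - xc P ^ (4 * k + 1)) < 1 :=
    fun P hP h0 => by
      rw [← c2 P h0, ← s2]
      exact prod_cong (int_of_not hP) fun R hR => red_add hP (tors_le hG hX hl hβ hv ((s1 R).1 hR))
  obtain ⟨Q, q1, q2, q3, -, q5⟩ := p3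
  have q0 : Q ≠ 0 := fun e => q3 (by rw [e, smul_zero])
  have h1 := key Q (fun e => q0 (inj hG hX hp (v_pz3 hp) e q2)) (by rwa [q5 β hβ])
  obtain rfl : c = 1 := (sq_eq_one_iff.1 c1).resolve_right fun e => by
    rw [q5 β hβ, q1, e, show 4 * k + 1 = 2 * (2 * k) + 1 by ring, pow_succ, pow_mul, iK_sq, pow_mul,
      neg_one_sq, one_pow, show -1 * iK - 1 * iK = -(2 * iK) by ring, Valuation.map_neg, map_mul,
      v_iK, Pl.v_two hp, mul_one] at h1
    exact lt_irrefl _ h1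
  have h2 := key P hP h0
  rwa [one_mul, show 4 * k + 1 = β.norm.natAbs by omega] at h2

theorem frb1 (hB : S_BGK) (hG : S_GEN) (hL : S_LIN) (hX : S_XP) {f : ℕ} {φ : GQ} (hl : Prime β)
    (hβ : Prim β) (hv : w.v (eK β) < 1) (hφ : w.IsFrob f φ) (hn : (w.p : ℤ) ^ f = β.norm)
    {M : ZI} (hM : IsCoprime β M) : Ar M φ β := by
  have hp := odd_of_prim hβ hv
  have hg := frb_gk hB hβ hv hφ hn
  have h1 : IsCoprime β (M * pz ^ 3) := hM.mul_right (prim_cop hβ)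
  refine ar_mono ?_ (dvd_mul_right M (pz ^ 3))
  have h3 := dvd_mul_left (pz ^ 3) M
  generalize M * pz ^ 3 = N at h1 h3
  have h0 : N ≠ 0 := fun e => hl.not_isUnit (isCoprime_zero_right.1 (e ▸ h1))
  have hN := v_cop h1 hv
  obtain ⟨g1, g2⟩ := (hG N h0).1
  have t := (g1 N).2 dvd_rfl
  have n0 : gen N ≠ 0 := fun e => not_unit_pz (isUnit_of_dvd_one
    (((dvd_pow_self pz three_ne_zero).trans h3).trans ((g1 1).1 (by rw [e, smul_zero]))))
  have n1 : gen N ∉ E1 w := fun e => n0 (inj hG hX hp hN e t)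
  have n2 : β • gen N ≠ 0 := fun e => n0 (cop_zero h1 e t)
  have n3 : β • gen N ∉ E1 w := fun e => n2 (inj hG hX hp hN e (smul_tors t β))
  have a := is_ga φ (is_xc n0)
  have h4 := hφ.2 _ (int_of_not n1)
  have h5 := frb_x hG hX hl hβ hv n1 n2
  rw [show w.p ^ f = β.norm.natAbs by rw [← hn, Int.natAbs_pow, Int.natAbs_natCast],
    ← xc_eq a] at h4
  have h6 := w.v.map_sub_lt h4 h5
  rw [sub_sub_sub_cancel_right] at h6
  have t1 := ga_tors hL hg t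
  have t2 := smul_tors t β
  rcases sep hp a.ne_zero n3 h6 with h | h
  · exact ar_of_gen hG hL h0 hg
      (sub_eq_zero.1 (inj hG hX hp hN h (by rw [smul_sub, t1, t2, sub_zero])))
  · have h7 : Ar N φ (-β) := ar_of_gen hG hL h0 hg (by
      rw [neg_smul]
      exact eq_neg_of_add_eq_zero_left (inj hG hX hp hN h (by rw [smul_add, t1, t2, add_zero])))
    obtain ⟨Q, -, q2, q3, q4, q5⟩ := p3
    have h8 := h7 Q (dvd_tors q2 h3)
    rw [q4 φ hg, neg_smul, q5 β hβ] at h8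
    exact absurd (by rw [two_smul]; exact add_eq_zero_iff_eq_neg.2 h8) q3

theorem exists_p (hl : Prime β) (n : ℕ) (h0 : n ≠ 0) (h : β ∣ n) : ∃ p : ℕ, p.Prime ∧ β ∣ p := by
  induction n using induction_on_primes with
  | zero => exact absurd rfl h0
  | one => exact absurd (isUnit_of_dvd_one (by simpa using h)) hl.not_isUnit
  | prime_mul p a hp ih =>
    rw [Nat.cast_mul] at h
    exact (hl.dvd_or_dvd h).elim (fun h => ⟨p, hp, h⟩) (ih (right_ne_zero_of_mul h0))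

theorem norm_dvd {a b : ZI} (h : a ∣ b) : a.norm.natAbs ∣ b.norm.natAbs := by
  obtain ⟨c, rfl⟩ := h
  rw [Zsqrtd.norm_mul, Int.natAbs_mul]
  exact dvd_mul_right _ _

theorem frb2 (hB : S_BGK) (hl : Prime β) : ∃ (w : Pl) (f : ℕ) (φ : GQ), w.v (eK β) < 1 ∧
    w.IsFrob f φ ∧ (w.p : ℤ) ^ f = β.norm := by
  obtain ⟨p, hp, h⟩ := exists_p hl β.norm.natAbs
    (Int.natAbs_ne_zero.2 (GaussianInt.norm_pos.2 hl.ne_zero).ne') ⟨star β, by
      rw [GaussianInt.natCast_natAbs_norm, Zsqrtd.norm_eq_mul_conj]⟩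
  have h1 := norm_dvd h
  rw [Zsqrtd.norm_natCast, ← sq, Int.natAbs_pow, Int.natAbs_natCast] at h1
  obtain ⟨f, -, hf⟩ := (Nat.dvd_prime_pow hp).1 h1
  have f0 : f ≠ 0 := fun e => hl.not_isUnit (Zsqrtd.norm_eq_one_iff.1 (by rw [hf, e, pow_zero]))
  have hn : (p : ℤ) ^ f = β.norm := by rw [← GaussianInt.abs_natCast_norm, hf, Nat.cast_pow]
  obtain ⟨w, rfl, hw⟩ : ∃ w : Pl, w.p = p ∧ w.v (eK β) < 1 := by
    obtain ⟨w, rfl⟩ := a_PL.1 p hp
    by_cases e : w.v (eK β) < 1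
    · exact ⟨w, rfl, e⟩
    obtain ⟨c, -, hc⟩ := hB.2.2.2.2.2.2.2.2.2.2.2.2.2.1
    have h2 := congrArg w.v (eK_star β)
    rw [map_mul, le_antisymm (v_eK w β) (not_lt.1 e), one_mul, ← hn, Int.cast_pow, map_pow,
      Int.cast_natCast] at h2
    refine ⟨c • w, rfl, ?_⟩
    rw [← star_star β, ← hB.2.2.2.2.2.2.1 c hc, Pl.smul_v_apply, h2]
    exact pow_lt_one₀ zero_le (BasicP.p_lt w) f0
  obtain ⟨k, φ, -, -, h3, h4, -⟩ := a_FROB w w.D w.loc_D
  obtain rfl := h4 rfl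
  exact ⟨w, f, φ ^ f, hw, by simpa using h3.pow f, hn⟩

theorem exists_fac {a : ZI} (h0 : a ≠ 0) (h : w.v (eK a) < 1) :
    ∃ l, Prime l ∧ l ∣ a ∧ w.v (eK l) < 1 := by
  induction a using UniqueFactorizationMonoid.induction_on_prime with
  | h₁ => exact absurd rfl h0
  | h₂ u hu => exact absurd (v_cop (isCoprime_self.2 hu) h) h.ne
  | h₃ a l ha hl ih =>
    by_cases e : w.v (eK l) < 1
    · exact ⟨l, hl, dvd_mul_right _ _, e⟩
    rw [map_mul, map_mul, le_antisymm (v_eK w l) (not_lt.1 e), one_mul] at h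
    obtain ⟨q, q1, q2, q3⟩ := ih ha h
    exact ⟨q, q1, q2.mul_left _, q3⟩

theorem frb3 (hB : S_BGK) (hp : w.p ≠ 2) : ∃ β : ZI, Prime β ∧ Prim β ∧
    (∀ b, w.v (eK b) < 1 ↔ β ∣ b) ∧
    (w.p % 4 = 1 ∧ β.norm = w.p ∧ w.D ≤ GK ∨ w.p % 4 = 3 ∧ β = -w.p) := by
  have := Fact.mk w.prime
  obtain ⟨l, l1, l2, l3⟩ := exists_fac (w := w) (a := w.p) (Nat.cast_ne_zero.2 w.prime.ne_zero)
    (by rw [map_natCast]; exact BasicP.p_lt w)
  obtain ⟨u, hu, hβ⟩ := exists_prim (b := l) fun e => by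
    have := (v_lt_iff l1 l3).2 (dvd_two l1 e)
    rw [map_ofNat, Pl.v_two hp] at this
    exact lt_irrefl _ this
  have b1 : Prime (u * l) := (associated_unit_mul_left l u hu).symm.prime l1
  have b2 : u * l ∣ w.p := hu.mul_left_dvd.2 l2
  have b3 : w.v (eK (u * l)) < 1 := (v_dvd (dvd_mul_left l u)).trans_lt l3
  generalize u * l = β at hβ b1 b2 b3
  refine ⟨β, b1, hβ, fun b => v_lt_iff b1 b3, ?_⟩
  have ho := w.prime.eq_two_or_odd.resolve_left hp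
  by_cases e : w.p % 4 = 3
  · have h1 := GaussianInt.prime_of_nat_prime_of_mod_four_eq_three w.p e
    have h2 : Prim (-w.p) := by simpa using prim_int (m := -w.p) (by omega)
    refine .inr ⟨e, (prim_eq hβ h2 b2.neg_right ?_).symm⟩
    rw [Zsqrtd.norm_neg]
    exact (Zsqrtd.norm_eq_of_associated (by norm_num) (b1.associated_of_dvd h1 b2)).symm
  obtain ⟨a, b, h1⟩ := Nat.Prime.sq_add_sq (p := w.p) e
  have h2 : Zsqrtd.norm (⟨a, b⟩ : ZI) = w.p := by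
    rw [Zsqrtd.norm_def, ← h1]
    push_cast
    ring
  have h3 : β.norm.natAbs ∣ w.p := by
    rw [← Int.cast_natCast, ← h2, Zsqrtd.norm_eq_mul_conj] at b2
    rcases b1.dvd_or_dvd b2 with h | h
    · simpa only [h2, Int.natAbs_natCast] using norm_dvd h
    · simpa only [Zsqrtd.norm_conj, h2, Int.natAbs_natCast] using norm_dvd h
  have h4 : β.norm = w.p := by
    rw [← GaussianInt.abs_natCast_norm, ((Nat.dvd_prime w.prime).1 h3).resolve_left
      fun e => b1.not_isUnit (Zsqrtd.norm_eq_one_iff.1 e)]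
  refine .inl ⟨by omega, h4, fun g hg => by_contra fun e => ?_⟩
  have h5 := v_star b1 hβ h4 b3
  rw [← hB.2.2.2.2.2.2.1 g e, Pl.mem_D.1 hg] at h5
  exact b3.ne h5

end A2

open A2

theorem p_FRB (hBGK : S_BGK) (hGEN : S_GEN) (hLIN : S_LIN) (hXP : S_XP) :
    S_FRB :=
  ⟨fun _ _ _ _ h1 h2 h3 h4 h5 => ⟨frb_gk hBGK h2 h3 h4 h5,
    fun _ hM => frb1 hBGK hGEN hLIN hXP h1 h2 h3 h4 h5 hM⟩, fun _ => frb2 hBGK, fun _ => frb3 hBGK⟩

end Pool.Agent.P.MP_8b7eba_nt.QT.CG
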