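import Pool.Agent.P.MP_8b7eba_nt.CG.If

/-! Proof of LRED. -/

namespace Pool.Agent.P.MP_8b7eba_nt.QT.CG

open R2 SM Polynomial Filter Module
open MP_9c97e9_nt (Pt pm Is)

/-- the number of points -/
noncomputable def lrN (D : ℤ) (p : ℕ) : ℕ := Nat.card {q : ZMod p × ZMod p //
  q.2 ^ 2 = q.1 ^ 3 + ((-D : ℤ) : ZMod p) * q.1 + ((0 : ℤ) : ZMod p)}

/-- the Euler factor -/
noncomputable def lrE (D : ℤ) (s : ℂ) (p : ℕ) : ℂ :=
  1 - (((p : ℤ) - lrN D p : ℤ) : ℂ) * (p : ℂ) ^ (-s) + (p : ℂ) ^ (1 - 2 * s)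

theorem lr_bad {p : ℕ} (hp : p.Prime) (D : ℤ) :
    (p : ℤ) ∣ 2 * (4 * (-D) ^ 3 + 27 * 0 ^ 2) ↔ (p : ℤ) ∣ 2 * D := by
  rw [show 2 * (4 * (-D) ^ 3 + 27 * 0 ^ 2) = -(2 * D) ^ 3 by ring, dvd_neg,
    (Nat.prime_iff_prime_int.1 hp).dvd_pow_iff_dvd (by norm_num)]

theorem lr_card {p : ℕ} (hp : p.Prime) {m : ℤ} (hm : ¬ (p : ℤ) ∣ m) (D : ℤ) :
    lrN (D * m ^ 4) p = lrN D p := by
  have := Fact.mk hp
  have h : (m : ZMod p) ≠ 0 := by rwa [Ne, ZMod.intCast_zmod_eq_zero_iff_dvd]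
  refine (Nat.card_congr (((Equiv.mulLeft₀ _ (pow_ne_zero 2 h)).prodCongr
    (Equiv.mulLeft₀ _ (pow_ne_zero 3 h))).subtypeEquiv fun q => ?_)).symm
  rw [← mul_right_inj' (pow_ne_zero 6 h)]
  simp only [Equiv.prodCongr_apply, Prod.map_fst, Prod.map_snd, Equiv.mulLeft₀_apply]
  push_cast
  constructor <;> intro e <;> linear_combination e

theorem lr_ne {p : ℕ} (hp : p.Prime) (D : ℤ) {s : ℂ} (hs : 4 < s.re) : lrE D s p ≠ 0 := by
  have := Fact.mk hp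
  have p2 : (2 : ℝ) ≤ p := by exact_mod_cast hp.two_le
  have a1 : (lrN D p : ℝ) ≤ p ^ 2 := by
    have := Finite.card_subtype_le fun q : ZMod p × ZMod p =>
      q.2 ^ 2 = q.1 ^ 3 + ((-D : ℤ) : ZMod p) * q.1 + ((0 : ℤ) : ZMod p)
    rw [Nat.card_prod, Nat.card_zmod, ← sq] at this
    exact_mod_cast (show lrN D p ≤ p ^ 2 from this)
  have a2 : ∀ z : ℂ, z.re ≤ -4 → ‖(p : ℂ) ^ z‖ * p ^ 4 ≤ 1 := fun z hz => by
    rw [Complex.norm_natCast_cpow_of_pos hp.pos, ← Real.rpow_natCast, ← Real.rpow_add (by linarith)]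
    exact Real.rpow_le_one_of_one_le_of_nonpos (by linarith) (by push_cast; linarith)
  have a3 := a2 (-s) (by simp; linarith)
  have a4 := a2 (1 - 2 * s) (by simp; linarith)
  have a5 : ‖(((p : ℤ) - lrN D p : ℤ) : ℂ)‖ ≤ p ^ 2 := by
    rw [Complex.norm_intCast, abs_le]
    push_cast
    constructor <;> nlinarith [Nat.cast_nonneg (α := ℝ) (lrN D p)]
  intro e
  have a6 : (1 : ℂ) = (((p : ℤ) - lrN D p : ℤ) : ℂ) * (p : ℂ) ^ (-s) - (p : ℂ) ^ (1 - 2 * s) := by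
    rw [lrE] at e
    linear_combination e
  have a7 := (congrArg norm a6).trans_le (norm_sub_le _ _)
  rw [norm_one, norm_mul] at a7
  have a8 := mul_le_mul_of_nonneg_right a5 (norm_nonneg ((p : ℂ) ^ (-s)))
  have a9 : (4 : ℝ) ≤ p ^ 2 := by nlinarith
  have b1 : (4 : ℝ) * p ^ 2 ≤ p ^ 4 := by nlinarith
  nlinarith [mul_le_mul_of_nonneg_left b1 (norm_nonneg ((p : ℂ) ^ (-s))),
    mul_le_mul_of_nonneg_left b1 (norm_nonneg ((p : ℂ) ^ (1 - 2 * s))),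
    mul_le_mul_of_nonneg_left a9 (norm_nonneg ((p : ℂ) ^ (1 - 2 * s)))]

theorem p_LRED :
    S_LRED := by
  classical
  intro D m f f₀ hD hm hf h0 h1
  set F := m.natAbs.primeFactors.filter fun p : ℕ => ¬ (p : ℤ) ∣ 2 * D with hF
  have pr : ∀ p ∈ F, p.Prime := fun p h => Nat.prime_of_mem_primeFactors (Finset.mem_filter.1 h).1
  have key : ∀ s : ℂ, 4 < s.re → f s = f₀ s * ∏ p ∈ F, lrE D s p := fun s hs => by
    have a0 : HasProd ((fun p => (lrE D s p)⁻¹) ∘ (↑) :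
      {p : ℕ | p.Prime ∧ ¬ (p : ℤ) ∣ 2 * (4 * (-D) ^ 3 + 27 * 0 ^ 2)} → ℂ) (f₀ s) :=
      h0.2 s (by linarith)
    have a1 : HasProd ((fun p => (lrE D s p)⁻¹) ∘ (↑) :
        {p : ℕ | p.Prime ∧ ¬ (p : ℤ) ∣ 2 * (4 * (-(D * m ^ 4)) ^ 3 + 27 * 0 ^ 2)} → ℂ) (f s) := by
      refine (hf.2 s (by linarith)).congr_fun fun p => ?_
      rw [Function.comp_apply, lrE, ← lr_card (m := m) p.2.1 fun e => p.2.2 ((lr_bad p.2.1 _).2
        (((e.trans (dvd_pow_self m (by norm_num))).mul_left D).mul_left 2))]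
      rfl
    have a2 := a1.mul_disjoint (Set.disjoint_left.2 fun p a b => a.2 ((lr_bad a.1 _).2
      ((((Int.natCast_dvd.2 (Nat.dvd_of_mem_primeFactors (Finset.mem_filter.1 b).1)).trans
        (dvd_pow_self m (by norm_num))).mul_left D).mul_left 2))) (F.hasProd fun p => (lrE D s p)⁻¹)
    have a3 : {p : ℕ | p.Prime ∧ ¬ (p : ℤ) ∣ 2 * (4 * (-(D * m ^ 4)) ^ 3 + 27 * 0 ^ 2)} ∪ F =
        {p : ℕ | p.Prime ∧ ¬ (p : ℤ) ∣ 2 * (4 * (-D) ^ 3 + 27 * 0 ^ 2)} := Set.ext fun p => by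
      by_cases hp : p.Prime
      · have hq := Nat.prime_iff_prime_int.1 hp
        simp only [Set.mem_union, Set.mem_ofPred_eq, lr_bad hp, hF, Finset.coe_filter,
          Nat.mem_primeFactors, ← mul_assoc, hq.dvd_mul (a := 2 * D), ← Int.natCast_dvd,
          hq.dvd_pow_iff_dvd (by norm_num : 4 ≠ 0), Int.natAbs_ne_zero]
        tauto
      · simpa [hp] using fun h => hp (pr p h)
    rw [a3] at a2
    rw [a0.unique a2, Finset.prod_inv_distrib, inv_mul_cancel_right₀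
      (Finset.prod_ne_zero_iff.2 fun p h => lr_ne (pr p h) D hs)]
  have dif : Differentiable ℂ fun s => f₀ s * ∏ p ∈ F, lrE D s p :=
    h0.1.mul (Differentiable.fun_finsetProd fun p h => by
      have : (p : ℂ) ≠ 0 := by exact_mod_cast (pr p h).ne_zero
      unfold lrE
      fun_prop (disch := tauto))
  have e := (hf.1.differentiableOn.analyticOnNhd isOpen_univ).eq_of_eventuallyEq
    (dif.differentiableOn.analyticOnNhd isOpen_univ) (z₀ := 5) (by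
      filter_upwards [(isOpen_lt continuous_const Complex.continuous_re).mem_nhds
        (show (4 : ℝ) < (5 : ℂ).re by norm_num)] with s hs using key s hs)
  rw [e] at h1
  refine (mul_eq_zero.1 h1).resolve_right (Finset.prod_ne_zero_iff.2 fun p h => ?_)
  have : (p : ℂ) ≠ 0 := by exact_mod_cast (pr p h).ne_zero
  rw [lrE, show (1 : ℂ) - 2 * 1 = -1 by norm_num, Complex.cpow_neg_one,
    show 1 - (((p : ℤ) - lrN D p : ℤ) : ℂ) * (p : ℂ)⁻¹ + (p : ℂ)⁻¹ = (lrN D p + 1 : ℕ) / p by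
      push_cast; field_simp; ring]
  exact div_ne_zero (Nat.cast_ne_zero.2 (Nat.succ_ne_zero _)) this

end Pool.Agent.P.MP_8b7eba_nt.QT.CG
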