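import Pool.Agent.P.MP_8b7eba_nt.CG.TDIST

/-! The product formula for the first coordinate. -/

namespace Pool.Agent.P.MP_8b7eba_nt.QT.CG

open R2 Finset Classical Filter Topology
open MP_9c97e9_nt (Is)

open A1 in
theorem p_XP : S_XP := fun β e hβ he => by
  obtain ⟨T, hT⟩ := (sp1 Om).exists_is (x := (e : Om)) (η := 0)
    (by rcases he with h | h | h <;> simp [h])
  have hb := prim_ne hβ
  have b0 := cK_ne hb
  have T2 : T + T = 0 := hT.add_eq_zero (sp1 Om) (by rwa [neg_zero])
  have bT : β • T = T := prim_fix hβ (by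
    rw [show pz ^ 3 = (pz * iz) * 2 by decide, mul_smul, two_smul, T2, smul_zero])
  have ht : lg T ∉ LL.lattice := mt (rep_lg T).zero_iff.2 hT.ne_zero
  have bt : cK β * lg T - lg T ∈ LL.lattice := (((rep_lg T).smul β).eq_iff (rep_lg T)).1 bT
  have tt : lg T + lg T ∈ LL.lattice := ((rep_lg T).add (rep_lg T)).zero_iff.1 T2
  have pt : pP (lg T) = io e := by rw [← (rep_lg T).xc, (xc_is hT).1]
  have := fin_tor hb
  have := Fintype.ofFinite {R : EE // β • R = 0}
  have gU := (gd_aff hb 0).inter (gd_aff hb (lg T))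
  obtain ⟨κ, hκ⟩ := gU.uniq
    (f := fun z => ∏ R : {R : EE // β • R = 0}, (pP (1 * z + lg R) - pP (lg T)))
    (g := fun z => pP (cK β * z + 0) - pP (lg T))
    (LD.prod fun R _ => ((LD.base ht).aff 1 (lg R)).mono (fun z hz => by
      have h := lg_mem R.2
      refine ⟨fun e => hz.1 ?_, fun e => hz.2 ?_, fun e => hz.2 ?_⟩
      · convert LL.lattice.sub_mem (mul_mem β e) h using 1
        ring
      · convert LL.lattice.add_mem (LL.lattice.add_mem (LL.lattice.sub_mem (mul_mem β e) h) bt) tt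
          using 1
        ring
      · convert LL.lattice.sub_mem (LL.lattice.sub_mem (mul_mem β e) h) bt using 1
        ring) fun _ _ => rfl)
    (((LD.base ht).aff (cK β) 0).mono (fun z hz => ⟨hz.1, fun e => hz.2 (by
      convert LL.lattice.add_mem e tt using 1
      ring), fun e => hz.2 (by rwa [add_zero] at e)⟩) fun z _ => by
      have h4 := tor_dist hb isCoprime_one_left
      simp only [map_one, one_mul] at h4
      simp only [one_pow, one_mul, sum_sub_distrib, ← mul_sum, add_zero, add_right_comm z _ (lg T),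
        add_sub_right_comm z _ (lg T), h4]
      rw [pQ_eq (z := cK β * (z - lg T)) (w := cK β * z - lg T) (by
        convert LL.lattice.neg_mem bt using 1
        ring), pQ_eq (z := cK β * (z + lg T)) (w := cK β * z + lg T) (by
        convert bt using 1
        ring)]
      ring)
    (fun z l hl => by simp only [one_mul, add_right_comm z l, pP_add hl])
    fun z l hl => by rw [add_zero, add_zero, mul_add, pP_add (mul_mem β hl)]
  simp only [one_mul, add_zero, pt] at hκ
  let O : {R : EE // β • R = 0} := ⟨0, smul_zero _⟩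
  have hc : ∏ᶠ R : {R : EE // β • R = 0 ∧ R ≠ 0}, (xc R.1 - e) =
      ∏ R ∈ univ.erase O, (xc R.1 - e) := by
    rw [← prod_coe_sort, ← finprod_eq_prod_of_fintype]
    exact finprod_eq_of_bijective
      (fun R => ⟨⟨R, R.2.1⟩, mem_erase.2 ⟨fun e => R.2.2 (congrArg Subtype.val e), mem_univ _⟩⟩)
      ⟨fun _ _ e => Subtype.ext (congrArg (·.1.1) e), fun R =>
        ⟨⟨R, R.1.2, fun e => (mem_erase.1 R.2).1 (Subtype.ext e)⟩, rfl⟩⟩ fun _ => rfl
  have lim : io ((∏ R ∈ univ.erase O, (xc R.1 - e)) * eK β ^ 2) = κ := by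
    have U0 : 𝓝[{z | cK β * z + 0 ∉ LL.lattice} ∩ {z | cK β * z + lg T ∉ LL.lattice}] (0 : ℂ) ≤
        𝓝[≠] 0 := nhdsWithin_mono _ fun z hz e => hz.1 (by simp [show z = 0 from e])
    have := mem_closure_iff_nhdsWithin_neBot.1 (compl_compl (α := Set ℂ) _ ▸ gU.cnt.dense_compl ℂ 0)
    have t0 := R1.AddA.tend_id
    have t1 := (R1.AddA.tend_a LL).sub ((t0.pow 2).mul_const (io e))
    have t2 : Tendsto (fun z => cK β * z) (𝓝[≠] 0) (𝓝[≠] 0) :=
      tendsto_nhdsWithin_iff.2 ⟨by simpa using t0.const_mul (cK β),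
        eventually_mem_nhdsWithin.mono fun z hz => mul_ne_zero b0 hz⟩
    have t3 := (t1.mul (tendsto_finsetProd (univ.erase O) fun R hR =>
      ((((dP (mt (rep_lg R.1).zero_iff.2 fun e => (mem_erase.1 hR).1
        (Subtype.ext e))).continuousAt.comp_of_eq (f := fun z => z + lg R.1) (x := 0) (by fun_prop)
          (zero_add _)).tendsto.mono_left nhdsWithin_le_nhds).sub_const (io e)))).mul_const
            (cK β ^ 2)
    have t4 := (t1.comp t2).const_mul κ
    have h := tendsto_nhds_unique_of_eventuallyEq (t3.mono_left U0) (t4.mono_left U0) (by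
      filter_upwards [self_mem_nhdsWithin] with z hz
      have h1 := hκ z (by simpa only [add_zero] using hz)
      rw [← mul_prod_erase _ _ (mem_univ O), pP_add ((rep_lg 0).zero_iff.1 rfl)] at h1
      simp only [Function.comp_apply, ← show pP = LL.weierstrassP from rfl]
      linear_combination z ^ 2 * cK β ^ 2 * h1)
    simpa [(rep_lg _).xc, cK] using h
  have main : ∀ P : EE, β • P ≠ 0 → ∏ᶠ R : {R : EE // β • R = 0}, (xc (P + R.1) - e) =
      (∏ R ∈ univ.erase O, (xc R.1 - e)) * eK β ^ 2 * (xc (β • P) - e) := fun P hP => by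
    rw [finprod_eq_prod_of_fintype]
    by_cases h : β • P = T
    · rw [h, (xc_is hT).1, sub_self, mul_zero]
      exact prod_eq_zero (mem_univ ⟨T - P, by rw [smul_sub, bT, h, sub_self]⟩)
        (by rw [add_sub_cancel, (xc_is hT).1, sub_self])
    have r := (rep_lg P).smul β
    refine io.injective ?_
    rw [map_mul, lim, map_sub, r.xc, ← hκ _ ⟨mt r.zero_iff.2 hP, fun e => h (by
      rw [eq_neg_of_add_eq_zero_left ((r.add (rep_lg T)).zero_iff.2 e),
        neg_eq_of_add_eq_zero_left T2])⟩, map_prod]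
    exact prod_congr rfl fun R _ => by rw [map_sub, ((rep_lg P).add (rep_lg R)).xc]
  refine ⟨_, ?_, main, by rw [hc]⟩
  obtain ⟨P, hP⟩ := exists_div (mul_ne_zero (show (2 : ZI) ≠ 0 by decide) hb) T0
  have k : ∀ Q : EE, (2 * β) • Q = T0 → Q ≠ 0 ∧ xc Q ≠ e := fun Q h => by
    have h0 : Q ≠ 0 := fun e => is_T0.ne_zero (by rw [← h, e, smul_zero])
    refine ⟨h0, fun e => is_T0.ne_zero ?_⟩
    rcases pm_of_xc h0 hT.ne_zero (e.trans (xc_is hT).1.symm) with e | e <;>
      simp [← h, e, mul_smul, bT, two_smul, T2]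
  have h1 : (2 * β) • β • P = T0 := by rw [smul_comm, hP, prim_T0 hβ]
  have h2 : β • P + T ≠ 0 := fun e => (k _ h1).2 (by
    rw [eq_neg_of_add_eq_zero_left e, xc_neg, (xc_is hT).1])
  have h3 := congrArg₂ (· * ·) (main (P + T) (by rwa [smul_add, bT])) (main P (k _ h1).1)
  have h4 : (3 * e ^ 2 - 1 : Om) ≠ 0 := by rcases he with h | h | h <;> norm_num [h]
  rw [finprod_eq_prod_of_fintype, finprod_eq_prod_of_fintype, ← prod_mul_distrib, mul_mul_mul_comm,
    smul_add, bT, xc_two hT (k _ h1).1 (k _ h1).2, ← sq,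
    prod_congr rfl (g := fun _ => (3 * e ^ 2 - 1 : Om)) fun R _ => by
      have h5 := k (P + R) (by rw [smul_add, hP, mul_smul, R.2, smul_zero, add_zero])
      rw [add_right_comm, xc_two hT h5.1 h5.2], prod_const, card_univ,
    ← Nat.card_eq_fintype_card] at h3
  rw [zpow_sub_one₀ h4, ← card_tor hb, zpow_natCast, h3, mul_inv_cancel_right₀ h4]

end Pool.Agent.P.MP_8b7eba_nt.QT.CG
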