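import Pool.Agent.P.MP_8b7eba_nt.R2.TAFX
import Pool.Agent.P.MP_8b7eba_nt.R2.TLB

/-! Coefficient rings over a finite extension of the 2-adic numbers. -/

namespace Pool.Agent.P.MP_8b7eba_nt.CG.T

open R2 Filter Topology Polynomial Module
open scoped Matrix

variable {L : Type} [NormedField L] [IsUltrametricDist L]

/-- distinguished polynomials -/
def DL (G : L[X]) : Prop := G.Monic ∧ ∀ i < G.natDegree, ‖G.coeff i‖ < 1

omit [IsUltrametricDist L] in
theorem DL.le {G : L[X]} (h : DL G) (i : ℕ) : ‖G.coeff i‖ ≤ 1 := by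
  rcases lt_trichotomy i G.natDegree with hi | rfl | hi
  · exact (h.2 i hi).le
  · rw [h.1.coeff_natDegree, norm_one]
  · rw [coeff_eq_zero_of_natDegree_lt hi, norm_zero]; exact zero_le_one

theorem DL.mul {G G' : L[X]} (h : DL G) (h' : DL G') : DL (G * G') := by
  refine ⟨h.1.mul h'.1, fun i hi => ?_⟩
  rw [h.1.natDegree_mul h'.1] at hi
  rw [coeff_mul]
  refine TAFX.sum_lt fun x hx => ?_
  rw [Finset.HasAntidiagonal.mem_antidiagonal] at hx
  rw [norm_mul]
  by_cases h1 : x.1 < G.natDegree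
  · exact mul_lt_one_of_nonneg_of_lt_one_left (norm_nonneg _) (h.2 _ h1) (h'.le _)
  · exact mul_lt_one_of_nonneg_of_lt_one_right (h.le _) (norm_nonneg _) (h'.2 _ (by omega))

theorem DL.pow {G : L[X]} (h : DL G) (n : ℕ) : DL (G ^ n) := by
  induction n with
  | zero => exact ⟨by simp, fun i hi => by simp at hi⟩
  | succ n ih => rw [pow_succ]; exact ih.mul h

omit [IsUltrametricDist L] in
theorem dl_lin {t : L} (h : ‖t‖ < 1) : DL (X - C t) := by
  refine ⟨monic_X_sub_C t, fun i hi => ?_⟩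
  rw [natDegree_X_sub_C, Nat.lt_one_iff] at hi
  simpa [hi] using h

theorem DL.root {G : L[X]} (h : DL G) {t : L} (ht : G.IsRoot t) : ‖t‖ < 1 := by
  by_contra hn
  have h1 : 1 ≤ ‖t‖ := not_lt.1 hn
  have h0 : t ≠ 0 := fun e => by rw [e, norm_zero] at h1; exact absurd h1 (by norm_num)
  rw [IsRoot, eval_eq_sum_range, Finset.sum_range_succ, h.1.coeff_natDegree, one_mul, add_comm,
    add_eq_zero_iff_eq_neg] at ht
  have h2 : (1 : L) = -∑ i ∈ Finset.range G.natDegree, G.coeff i * t⁻¹ ^ (G.natDegree - i) := by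
    refine mul_left_cancel₀ (pow_ne_zero G.natDegree h0) ?_
    rw [mul_one, mul_neg, Finset.mul_sum]
    refine ht.trans (congrArg _ (Finset.sum_congr rfl fun i hi => ?_))
    obtain ⟨c, hc⟩ := Nat.exists_eq_add_of_le (Finset.mem_range.1 hi).le
    rw [hc, Nat.add_sub_cancel_left, pow_add, inv_pow]
    field_simp
  have h3 := congrArg norm h2
  rw [norm_one, norm_neg] at h3
  refine (TAFX.sum_lt fun i hi => ?_).ne' h3
  rw [norm_mul, norm_pow, norm_inv]
  exact mul_lt_one_of_nonneg_of_lt_one_left (norm_nonneg _) (h.2 _ (Finset.mem_range.1 hi))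
    (pow_le_one₀ (by positivity) (inv_le_one_of_one_le₀ h1))

section

variable {A : Type} [NormedCommRing A] [NormedAlgebra ℚ_[2] A]

omit [NormedAlgebra ℚ_[2] A] in
theorem pow_le (h1 : ‖(1 : A)‖ ≤ 1) {S : A} (hS : ‖S‖ ≤ 1) (i : ℕ) : ‖S ^ i‖ ≤ 1 := by
  induction i with
  | zero => simpa using h1
  | succ i ih =>
    rw [pow_succ]
    exact (norm_mul_le _ _).trans (mul_le_one₀ ih (norm_nonneg _) hS)

theorem exists_psi [IsUltrametricDist A] [FiniteDimensional ℚ_[2] A] (T : A) (h1 : ‖(1 : A)‖ ≤ 1)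
    (hT : ‖T‖ ≤ 1) {d : ℕ} (hn : ‖T ^ d‖ < 1) : ∃ ψ : ℤ_[2] → A, IsPsi ψ ∧ ψ 1 - 1 = T := by
  have ht : Tendsto (T ^ ·) atTop (𝓝 0) := by
    have h2 := tendsto_pow_atTop_nhds_zero_of_norm_lt_one hn
    rw [NormedAddGroup.tendsto_nhds_zero] at h2 ⊢
    intro ε hε
    obtain ⟨k, hk⟩ := (h2 ε hε).exists
    filter_upwards [eventually_ge_atTop (d * k)] with m hm
    obtain ⟨c, rfl⟩ := Nat.exists_eq_add_of_le hm
    rw [pow_add, pow_mul]
    exact ((norm_mul_le _ _).trans
      (mul_le_of_le_one_right (norm_nonneg _) (pow_le h1 hT c))).trans_lt hk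
  let : Algebra ℤ_[2] A := Algebra.compHom A (algebraMap ℤ_[2] ℚ_[2])
  have : IsBoundedSMul ℤ_[2] A := .of_norm_smul_le fun r x => norm_smul_le (r : ℚ_[2]) x
  have : CompleteSpace A := FiniteDimensional.complete ℚ_[2] A
  have hc := PadicInt.continuous_addChar_of_value_at_one (p := 2) ht
  have e1 := PadicInt.addChar_of_value_at_one_def (p := 2) ht
  refine ⟨PadicInt.addChar_of_value_at_one T ht, ⟨AddChar.map_zero_eq_one _,
    AddChar.map_add_eq_mul _, hc, fun a => ?_⟩, by rw [e1, add_sub_cancel_left]⟩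
  refine PadicInt.denseRange_natCast.induction_on a (isClosed_le hc.norm continuous_const) fun n => ?_
  rw [← nsmul_one, AddChar.map_nsmul_eq_pow, e1]
  exact pow_le h1 ((IsUltrametricDist.norm_add_le_max _ _).trans (max_le h1 hT)) n

/-- `A` is the quotient of the polynomial ring by `G`, the variable being `ψ 1 - 1` -/
structure AL [Algebra L A] (ψ : ℤ_[2] → A) (G : L[X]) : Prop where
  psi : IsPsi ψ
  surj : Function.Surjective (aeval (ψ 1 - 1) : L[X] →ₐ[L] A)
  ker : ∀ p : L[X], aeval (ψ 1 - 1) p = 0 ↔ G ∣ p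
  le : ∀ c : L, ‖algebraMap L A c‖ ≤ ‖c‖
  big : ∀ i < G.natDegree, ¬ ‖(ψ 1 - 1) ^ i‖ < 1

end

variable [NormedAlgebra ℚ_[2] L] [FiniteDimensional ℚ_[2] L]

theorem exists_ring {G : L[X]} (hG : DL G) :
    ∃ (A : Type) (_ : NormedCommRing A) (_ : NormedAlgebra ℚ_[2] A) (_ : IsUltrametricDist A)
      (_ : FiniteDimensional ℚ_[2] A) (_ : Algebra L A) (_ : IsScalarTower ℚ_[2] L A)
      (ψ : ℤ_[2] → A), AL ψ G := by
  classical
  let pb := AdjoinRoot.powerBasis hG.1.ne_zero
  let f : AdjoinRoot G →+* ((Fin pb.dim → L) →L[ℚ_[2]] (Fin pb.dim → L)) :=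
    { toFun := fun x => LinearMap.toContinuousLinearMap
        ((Algebra.leftMulMatrix pb.basis x).mulVecLin.restrictScalars ℚ_[2])
      map_one' := by ext1 v; simp
      map_mul' := fun x y => by ext1 v; simp
      map_zero' := by ext1 v; simp
      map_add' := fun x y => by ext1 v; simp }
  have hf0 : ∀ x v, f x v = Algebra.leftMulMatrix pb.basis x *ᵥ v := fun _ _ => rfl
  have hf : Function.Injective f := fun x y h => Algebra.leftMulMatrix_injective pb.basis
    (Matrix.ext_iff_mulVec.2 fun v => by rw [← hf0, h, hf0])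
  let i1 : NormedCommRing (AdjoinRoot G) := NormedCommRing.induced _ _ f hf
  have hn : ∀ x : AdjoinRoot G, ‖x‖ = ‖f x‖ := fun _ => rfl
  let i2 : NormedAlgebra ℚ_[2] (AdjoinRoot G) := ⟨fun r x => by
    have : f (r • x) = r • f x := by
      ext1 v
      rw [hf0, ← algebraMap_smul L r x, map_smul, Matrix.smul_mulVec, algebraMap_smul]
      rfl
    rw [hn, hn, this]
    exact norm_smul_le r (f x)⟩
  have i3 : IsUltrametricDist (AdjoinRoot G) :=
    IsUltrametricDist.isUltrametricDist_of_forall_norm_add_le_max_norm fun x y => by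
      rw [hn, hn, hn, map_add]
      refine ContinuousLinearMap.opNorm_le_bound _ (le_max_of_le_left (norm_nonneg _)) fun v => ?_
      refine (IsUltrametricDist.norm_add_le_max _ _).trans (max_le ?_ ?_)
      · exact ((f x).le_opNorm v).trans
          (mul_le_mul_of_nonneg_right (le_max_left _ _) (norm_nonneg _))
      · exact ((f y).le_opNorm v).trans
          (mul_le_mul_of_nonneg_right (le_max_right _ _) (norm_nonneg _))
  have i4 : FiniteDimensional L (AdjoinRoot G) := pb.finite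
  have i5 : FiniteDimensional ℚ_[2] (AdjoinRoot G) := Module.Finite.trans L _
  have hc : ∀ c : L, ‖algebraMap L (AdjoinRoot G) c‖ ≤ ‖c‖ := fun c => by
    rw [hn]
    refine ContinuousLinearMap.opNorm_le_bound _ (norm_nonneg _) fun v => ?_
    rw [hf0, Algebra.algebraMap_eq_smul_one, map_smul, map_one, Matrix.smul_mulVec,
      Matrix.one_mulVec, norm_smul]
  have h1 : ‖(1 : AdjoinRoot G)‖ ≤ 1 := by simpa using hc 1
  have hT : ‖AdjoinRoot.root G‖ ≤ 1 := by
    rw [hn]
    refine ContinuousLinearMap.opNorm_le_bound _ zero_le_one fun v => ?_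
    rw [one_mul, pi_norm_le_iff_of_nonneg (norm_nonneg _)]
    intro i
    have e : f (AdjoinRoot.root G) v i = ∑ j, Algebra.leftMulMatrix pb.basis pb.gen i j * v j := rfl
    rw [e, pb.leftMulMatrix, pb.minpolyGen_eq, AdjoinRoot.minpoly_powerBasis_gen_of_monic hG.1]
    refine IsUltrametricDist.norm_sum_le_of_forall_le_of_nonneg (norm_nonneg _) fun j _ => ?_
    rw [norm_mul, Matrix.of_apply]
    refine (mul_le_of_le_one_left (norm_nonneg _) ?_).trans (norm_le_pi_norm v j)
    split_ifs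
    · rw [norm_neg]; exact hG.le _
    · simp
    · simp
  have h0 : aeval (AdjoinRoot.root G) G = 0 := by rw [AdjoinRoot.aeval_eq, AdjoinRoot.mk_self]
  have hd : ‖AdjoinRoot.root G ^ G.natDegree‖ < 1 := by
    rw [aeval_eq_sum_range, Finset.sum_range_succ, hG.1.coeff_natDegree, one_smul, add_comm,
      add_eq_zero_iff_eq_neg] at h0
    rw [h0, norm_neg]
    refine TAFX.sum_lt fun i hi => ?_
    rw [Algebra.smul_def]
    exact (norm_mul_le _ _).trans_lt (mul_lt_one_of_nonneg_of_lt_one_left (norm_nonneg _)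
      ((hc _).trans_lt (hG.2 _ (Finset.mem_range.1 hi))) (pow_le h1 hT i))
  obtain ⟨ψ, hψ, e⟩ := exists_psi (AdjoinRoot.root G) h1 hT hd
  refine ⟨AdjoinRoot G, i1, i2, i3, i5, inferInstance, inferInstance, ψ, hψ, fun y => ?_,
    fun p => ?_, hc, fun i hi hl => ?_⟩
  · obtain ⟨p, rfl⟩ := AdjoinRoot.mk_surjective y
    exact ⟨p, by rw [e, AdjoinRoot.aeval_eq]⟩
  · rw [e, AdjoinRoot.aeval_eq, AdjoinRoot.mk_eq_zero]
  · have hb : ∀ j : Fin pb.dim, ‖(pb.basis.repr (pb.gen ^ (j : ℕ)) : Fin pb.dim → L)‖ = 1 := fun j => by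
      rw [← pb.basis_eq_pow, Basis.repr_self, Finsupp.single_eq_pi_single, Pi.norm_single, norm_one]
    have h2 := (f (pb.gen ^ i)).le_opNorm (pb.basis.repr (pb.gen ^ 0))
    rw [hf0, Algebra.leftMulMatrix_mulVec_repr, ← pow_add, add_zero, hb ⟨i, hi⟩,
      hb ⟨0, Nat.zero_lt_of_lt hi⟩, mul_one] at h2
    rw [e, hn] at hl
    exact hl.not_ge h2

variable {A : Type} [NormedCommRing A] [NormedAlgebra ℚ_[2] A] [Algebra L A]
  [IsScalarTower ℚ_[2] L A] {ψ : ℤ_[2] → A}

omit [IsUltrametricDist L] [FiniteDimensional ℚ_[2] L] in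
theorem AL.map [FiniteDimensional ℚ_[2] A] {A' : Type} [NormedCommRing A'] [NormedAlgebra ℚ_[2] A']
    [Algebra L A'] [IsScalarTower ℚ_[2] L A'] {ψ' : ℤ_[2] → A'} {G G' : L[X]} (h : AL ψ G)
    (h' : AL ψ' G') (hd : G' ∣ G) : ∃ φ : A →ₐ[ℚ_[2]] A', Function.Surjective φ ∧ φ ∘ ψ = ψ' ∧
      ∀ p : L[X], φ (aeval (ψ 1 - 1) p) = aeval (ψ' 1 - 1) p := by
  let φ0 := AlgHom.liftOfSurjective _ h.surj (aeval (ψ' 1 - 1)) fun p hp =>
    (h'.ker p).2 (hd.trans ((h.ker p).1 hp))
  have e0 : ∀ p : L[X], φ0 (aeval (ψ 1 - 1) p) = aeval (ψ' 1 - 1) p := fun p =>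
    AlgHom.liftOfSurjective_apply _ h.surj _ _ p
  let φ := φ0.restrictScalars ℚ_[2]
  have e : ∀ p : L[X], φ (aeval (ψ 1 - 1) p) = aeval (ψ' 1 - 1) p := e0
  refine ⟨φ, fun y => ?_, funext fun a => ?_, e⟩
  · obtain ⟨p, rfl⟩ := h'.surj y
    exact ⟨_, e p⟩
  · refine TAFX.dens (f := φ ∘ ψ) (φ.toLinearMap.continuous_of_finiteDimensional.comp h.psi.cont)
      h'.psi.cont (fun n => ?_) a
    have := e ((X + 1) ^ n)
    simpa [TAFX.psi_nat h.psi, TAFX.psi_nat h'.psi] using this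

omit [IsUltrametricDist L] [NormedAlgebra ℚ_[2] L] [FiniteDimensional ℚ_[2] L]
  [IsScalarTower ℚ_[2] L A] [NormedAlgebra ℚ_[2] A] in
theorem AL.unit {t : L} {j : ℕ} (h : AL ψ ((X - C t) ^ j)) {p : L[X]} (hp : ¬ X - C t ∣ p) :
    IsUnit (aeval (ψ 1 - 1) p) := by
  obtain ⟨u, v, e⟩ := (((irreducible_X_sub_C t).coprime_iff_not_dvd.2 hp).pow_left (m := j))
  have := congrArg (aeval (ψ 1 - 1)) e
  rw [map_add, map_mul, map_mul, (h.ker _).2 dvd_rfl, mul_zero, zero_add, map_one] at this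
  exact IsUnit.of_mul_eq_one_right _ this

omit [IsUltrametricDist L] in
theorem AL.chain {t : L} {j : ℕ} (h : AL ψ ((X - C t) ^ j)) :
    Chain (aeval (ψ 1 - 1) (X - C t)) j (finrank ℚ_[2] L) := by
  have hq := irreducible_X_sub_C t
  have hd := natDegree_X_sub_C t
  have hu := fun p => h.unit (p := p)
  generalize X - C t = q at h hq hd hu
  refine ⟨finrank_pos, by rw [← map_pow, h.ker], fun a => ?_, fun i hi => ?_⟩
  · obtain ⟨p, rfl⟩ := h.surj a
    by_cases hp : q ∣ p
    · exact .inr (map_dvd _ hp)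
    · exact .inl (hu p hp)
  · have := TAFX.rank_range ((aeval (ψ 1 - 1) : L[X] →ₐ[L] A).toLinearMap.comp
      (LinearMap.mulLeft L (q ^ i))) (q ^ (j - i)) fun p => by
        obtain ⟨c, rfl⟩ := Nat.exists_eq_add_of_le hi
        simp only [LinearMap.comp_apply, LinearMap.mulLeft_apply, AlgHom.toLinearMap_apply, h.ker]
        rw [pow_add, mul_dvd_mul_iff_left (pow_ne_zero _ hq.ne_zero), Nat.add_sub_cancel_left]
    rw [natDegree_pow, hd, mul_one] at this
    rw [← this, ← Module.finrank_mul_finrank ℚ_[2] L]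
    have e : LinearMap.range ((aeval (ψ 1 - 1) : L[X] →ₐ[L] A).toLinearMap.comp
      (LinearMap.mulLeft L (q ^ i))) =
        (Ideal.span {aeval (ψ 1 - 1) q ^ i}).restrictScalars L := by
      ext y
      simp only [LinearMap.mem_range, LinearMap.comp_apply, LinearMap.mulLeft_apply,
        AlgHom.toLinearMap_apply, Submodule.restrictScalars_mem, Ideal.mem_span_singleton, map_mul,
        map_pow]
      refine ⟨fun ⟨p, e⟩ => ⟨_, e.symm⟩, fun ⟨c, e⟩ => ?_⟩
      obtain ⟨p, rfl⟩ := h.surj c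
      exact ⟨p, e.symm⟩
    rw [e]
    rfl

open TLB in
omit [IsUltrametricDist L] in
theorem lb [FiniteDimensional ℚ_[2] A] {t : L} {j k σ : ℕ} {T : A}
    (h : ∀ p : L[X], aeval T p = 0 ↔ (X - C t) ^ j ∣ p) (M : Matrix (Fin σ) (Fin σ) L) (hk : (X - C t) ^ k ∣ M.charpoly) (hj : σ ≤ j) :
    ∃ V : Submodule A (Fin σ → A), (∀ v ∈ V, M.map (algebraMap L A) *ᵥ v = T • v) ∧
      finrank ℚ_[2] L * k ≤ finrank ℚ_[2] V := by
  have hd := dim_ker M.toLin' (irreducible_X_sub_C t) (by rwa [Matrix.charpoly_toLin'])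
    (j := j) (by simpa using hj)
  rw [natDegree_X_sub_C, mul_one] at hd
  have hG : (X - C t) ^ j ≠ 0 := pow_ne_zero _ (X_sub_C_ne_zero t)
  generalize (X - C t) ^ j = G at hd hG h
  let V : Submodule A (Fin σ → A) :=
    LinearMap.ker ((M.map (algebraMap L A)).mulVecLin - T • LinearMap.id)
  have hV : ∀ v, v ∈ V ↔ M.map (algebraMap L A) *ᵥ v = T • v := fun v => by
    simp [V, sub_eq_zero]
  refine ⟨V, fun v => (hV v).1, ?_⟩
  have : FiniteDimensional L A := Module.Finite.of_restrictScalars_finite ℚ_[2] L A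
  have : FiniteDimensional L V :=
    FiniteDimensional.of_injective (V.subtype.restrictScalars L) V.injective_subtype
  rw [← Module.finrank_mul_finrank ℚ_[2] L V]
  refine Nat.mul_le_mul_left _ (hd.trans ?_)
  let Φ : LinearMap.ker (aeval M.toLin' G) →ₗ[L] V :=
    { toFun := fun c => ⟨fun i => ∑ b ∈ Finset.range (G.natDegree + 1),
        aeval M.toLin' (divX^[b + 1] G) c.1 i • T ^ b, (hV _).2 (funext fun i => by
          have := horner M.toLin' ((h G).2 dvd_rfl) c.2 (LinearMap.proj i)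
          simp only [LinearMap.proj_apply, Matrix.toLin'_apply] at this
          rw [Pi.smul_apply, smul_eq_mul, ← this]
          simp only [Matrix.mulVec, dotProduct, Matrix.map_apply, Finset.mul_sum, Algebra.smul_def,
            map_sum, map_mul, Finset.sum_mul, mul_assoc]
          exact Finset.sum_comm)⟩
      map_add' := fun x y => by
        ext i
        simp [add_smul, Finset.sum_add_distrib]
      map_smul' := fun a x => by
        ext i
        simp [mul_smul, Finset.smul_sum] }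
  refine LinearMap.finrank_le_finrank_of_injective (f := Φ) fun x y e => ?_
  refine Subtype.ext (sub_eq_zero.1 (inj M.toLin' hG (fun p => (h p).1)
    (by rw [map_sub, x.2, y.2, sub_zero]) (fun i : Fin σ => LinearMap.proj i)
    (fun v hv => funext hv) fun i => ?_))
  have h' := congrFun (congrArg Subtype.val e) i
  simp only [Φ, LinearMap.coe_mk, AddHom.coe_mk] at h'
  simp only [map_sub, sub_smul, Finset.sum_sub_distrib, LinearMap.proj_apply, h', sub_self]

end Pool.Agent.P.MP_8b7eba_nt.CG.T
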