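import Pool.Agent.P.MP_8b7eba_nt.CG.KE
import Pool.Agent.P.MP_8b7eba_nt.CG.IfT

/-! The count of the zeros modulo two. -/

namespace Pool.Agent.P.MP_8b7eba_nt.CG.T

open R2 Filter Topology

variable {N N' : Subgroup GQ} {c c' g s : GQ} {u v v' β : Om}

theorem _root_.Pool.Agent.P.MP_8b7eba_nt.CG.Ab.conj (h : Ab N) (hs : s ∈ GK) (hg : g ∈ N) :
    s * g * s⁻¹ ∈ N := by
  simpa [cm] using mul_mem (h.2.2 s hs g (h.2.1 hg)) hg

theorem _root_.Pool.Agent.P.MP_8b7eba_nt.CG.Ab.fix (h : Ab N) (hv : Fix N v) (hs : s ∈ GK) :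
    Fix N (s v) := fun g hg => by
  have := congrArg s (hv _ (h.conj (inv_mem hs) hg))
  simpa using this

theorem _root_.Pool.Agent.P.MP_8b7eba_nt.CG.Ab.comm (h : Ab N) (hv : Fix N v) (hs : s ∈ GK)
    (hg : g ∈ GK) : s (g v) = g (s v) := by
  have := congrArg (g * s) (hv _ (h.2.2 _ (inv_mem hs) _ (inv_mem hg)))
  simpa [cm] using this

theorem cyc_cm (g s : GQ) : cyc (cm g s) = 1 := by
  have h : ∀ a b, cyc (a * b) = cyc a * cyc b := a_EC.2.1
  have h1 : ∀ a, cyc a⁻¹ = (cyc a)⁻¹ := fun a => by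
    rw [eq_inv_iff_mul_eq_one, ← h, inv_mul_cancel]
    exact mul_left_cancel (a := cyc 1) (by rw [← h, mul_one, mul_one])
  rw [cm, h, h, h, h1, h1, mul_right_comm (cyc g)]
  simp

theorem fix_two (hc : cyc c = 1) {k : ℕ} (h : β ^ 2 ^ k = 1) : c β = β := by
  obtain ⟨m, rfl⟩ := a_EC.1.surj k β h
  rw [a_EC.1.gal, hc]
  simp

theorem fix_tors (hc : cyc c = 1) {k : ℕ} (hu : IsOfFinOrder (β ^ 2 ^ k))
    (h : c (β ^ 2 ^ k) = β ^ 2 ^ k) : c β = β := by
  obtain ⟨n, hn, e⟩ := isOfFinOrder_iff_pow_eq_one.1 hu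
  obtain ⟨a, m, hm, rfl⟩ := Nat.exists_eq_two_pow_mul_odd hn.ne'
  have h0 : β ≠ 0 := by
    rintro rfl
    rw [← pow_mul, zero_pow (by positivity)] at e
    exact zero_ne_one e
  have h1 : c (β ^ m) = β ^ m := fix_two hc (k := k + a) (by rw [← e]; ring)
  have h2 : (c β / β) ^ (2 ^ k).gcd m = 1 := pow_gcd_eq_one.2
    ⟨by rw [div_pow, ← map_pow, h, div_self (pow_ne_zero _ h0)],
      by rw [div_pow, ← map_pow, h1, div_self (pow_ne_zero _ h0)]⟩
  rw [(Nat.coprime_two_left.2 hm).pow_left k, pow_one] at h2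
  exact (div_eq_one_iff_eq h0).1 h2

/-- a square root -/
noncomputable def sq (v : Om) : Om := Classical.epsilon fun β => β ^ 2 = v

theorem sq_spec (v : Om) : sq v ^ 2 = v :=
  Classical.epsilon_spec (p := fun β : Om => β ^ 2 = v) (IsAlgClosed.exists_pow_nat_eq v two_pos)

theorem sq_ne (h : v ≠ 0) : sq v ≠ 0 := fun e => h (by rw [← sq_spec v, e]; simp)

/-- the quadratic Kummer exponent -/
noncomputable def S (c : GQ) (v : Om) : ZMod 2 := qc (sq v) c

theorem S_eq (h : β ^ 2 = v) : S c v = qc β c := by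
  rcases sq_eq_sq_iff_eq_or_eq_neg.1 ((sq_spec v).trans h.symm) with e | e <;> simp [S, qc, e]

theorem S_mul (h0 : v ≠ 0) (h0' : v' ≠ 0) (h : c v = v) (h' : c v' = v') :
    S c (v * v') = S c v + S c v' := by
  rw [S_eq (β := sq v * sq v') (by rw [mul_pow, sq_spec, sq_spec])]
  exact K.qc_mul (sq_ne h0) (sq_ne h0') (by rwa [sq_spec]) (by rwa [sq_spec])

theorem S_tors (hc : cyc c = 1) (hu : IsOfFinOrder u) (h : c u = u) : S c u = 0 :=
  K.qc_eq_zero.2 (fix_tors hc (k := 1) (by rwa [pow_one, sq_spec]) (by rwa [pow_one, sq_spec]))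

theorem S_conj (g c : GQ) (v : Om) : S (g * c * g⁻¹) (g v) = S c v := by
  rw [S_eq (β := g (sq v)) (by rw [← map_pow, sq_spec])]
  simp [S, qc]

theorem S_cc (h0 : v ≠ 0) (h : c v = v) (h' : c' v = v) : S (c * c') v = S c v + S c' v := by
  have n : ¬ -sq v = sq v := fun e => sq_ne h0 (neg_eq_self.1 e)
  rw [← sq_spec v, map_pow, sq_eq_sq_iff_eq_or_eq_neg] at h h'
  rcases h with h | h <;> rcases h' with h' | h' <;> simp [S, qc, h, h', n, LC.two]

theorem S_inv (c : GQ) (v : Om) : S c⁻¹ v = S c v := by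
  have : c⁻¹ (sq v) = sq v ↔ c (sq v) = sq v :=
    (AlgEquiv.symm_apply_eq c).trans eq_comm
  simp only [S, qc, this]

theorem S_prod {ι : Type} (t : Finset ι) (f : ι → Om) (h : ∀ i, f i ≠ 0 ∧ c (f i) = f i) :
    S c (∏ i ∈ t, f i) = ∑ i ∈ t, S c (f i) := by
  classical
  induction t using Finset.induction_on with
  | empty => simpa using (S_eq (β := 1) (one_pow 2)).trans (K.qc_eq_zero.2 (map_one c))
  | insert i t hi ih =>
    rw [Finset.prod_insert hi, Finset.sum_insert hi, S_mul (h i).1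
      (Finset.prod_ne_zero_iff.2 fun i _ => (h i).1) (h i).2
      (by rw [map_prod]; exact Finset.prod_congr rfl fun i _ => (h i).2), ih]

theorem S_nrm (h : Ab N') (hN : N ≤ GK) (hv : Fix N' v) (h0 : v ≠ 0) (hc : c ∈ N') (hs : s ∈ GK) :
    S c (s (nrm N N' v)) = csum N N' fun t => S c ((s * t) v) := by
  have := Nrm.ft (relIndex_ne_zero h.1 N)
  rw [Nrm.prod, Csum.sum, map_prod]
  exact S_prod _ _ fun q => ⟨by simpa using h0,
    h.fix hv (mul_mem hs (hN (Nrm.ro_mem q))) c hc⟩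

section

variable {R : Type} [CommRing R] {j : ℕ} {χ : ℤ_[2] → R}

/-- characters of level `j` with values in a ring of characteristic two -/
structure Ch (j : ℕ) (χ : ℤ_[2] → R) : Prop where
  two : (2 : R) = 0
  add : ∀ a b, χ (a + b) = χ a * χ b
  one : ∀ a, 2 ^ j ∣ a → χ a = 1

theorem Ch.nat (h : Ch j χ) (a : ℤ_[2]) (n : ℕ) : χ (a * n) = χ a ^ n := by
  induction n with
  | zero => simpa using h.one 0 (dvd_zero _)
  | succ n ih => rw [Nat.cast_succ, mul_add, h.add, ih, mul_one, pow_succ]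

theorem Ch.dvd (h : Ch j χ) {a b : ℤ_[2]} (e : a ∣ b) : χ a - 1 ∣ χ b - 1 := by
  obtain ⟨d, rfl⟩ := e
  have h1 := PadicInt.appr_spec j d
  rw [Ideal.mem_span_singleton] at h1
  rw [show a * d = a * d.appr j + a * (d - d.appr j) by ring, h.add,
    h.one (a * (d - _)) (Dvd.dvd.mul_left (by simpa using h1) a), mul_one, h.nat]
  exact sub_one_dvd_pow_sub_one _ _

theorem Ch.pow (h : Ch j χ) (e : ℕ) : χ (2 ^ e) - 1 = (χ 1 - 1) ^ 2 ^ e := by
  induction e with
  | zero => simp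
  | succ e ih =>
    rw [pow_succ, pow_succ, pow_mul, ← ih, mul_two, h.add]
    linear_combination (χ (2 ^ e) - 1) * h.two

theorem Ch.nil (h : Ch j χ) : IsNilpotent (χ 1 - 1) :=
  ⟨2 ^ j, by rw [← h.pow, h.one _ dvd_rfl, sub_self]⟩

/-- the image of a bit -/
def lam (h : (2 : R) = 0) : ZMod 2 →+ R := ZMod.lift 2 ⟨Int.castAddHom R, by simpa using h⟩

theorem lam_one (h : (2 : R) = 0) : lam h 1 = 1 := by
  have := ZMod.lift_coe 2 ⟨Int.castAddHom R, by simpa using h⟩ 1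
  simpa [lam] using this

/-- the reduction of the measure -/
noncomputable def B (h : Ch j χ) (c : GQ) (N : Subgroup GQ) (v : Om) : R :=
  csum GK N fun σ => lam h.two (S c (σ v)) * χ (la σ)

variable (h : Ch j χ)

theorem ri (hN : ∀ g ∈ N, 2 ^ j ∣ la g) (hv : Fix N v) :
    RI GK N fun σ => lam h.two (S c (σ v)) * χ (la σ) := fun s _ g _ hg => by
  beta_reduce
  rw [AlgEquiv.mul_apply, hv g hg, show la (s * g) = la s + la g from K.la_mul s g, h.add,
    h.one _ (hN g hg), mul_one]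

theorem B_nrm (a : Ab N) (a' : Ab N') (le : N' ≤ N) (hN : ∀ g ∈ N, 2 ^ j ∣ la g) (hv : Fix N' v)
    (h0 : v ≠ 0) (hc : c ∈ N') : B h c N' v = B h c N (nrm N N' v) := by
  rw [B, csum_trans a.2.1 le (relIndex_ne_zero a'.1 _) (ri h (fun g hg => hN g (le hg)) hv)]
  refine csum_congr fun s hs => ?_
  rw [S_nrm a' a.2.1 hv h0 hc hs, ← AddMonoidHom.mulRight_apply, ← AddMonoidHom.comp_apply,
    map_csum (relIndex_ne_zero a'.1 _)]
  refine csum_congr fun t ht => ?_
  rw [show la (s * t) = la s + la t from K.la_mul s t, h.add, h.one _ (hN t ht), mul_one]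
  rfl

theorem B_mul (a : Ab N) (hv : Fix N v) (hv' : Fix N v') (h0 : v ≠ 0) (h0' : v' ≠ 0) (hc : c ∈ N) :
    B h c N (v * v') = B h c N v + B h c N v' := by
  rw [B, B, B, ← csum_add (relIndex_ne_zero a.1 _)]
  refine csum_congr fun s hs => ?_
  rw [map_mul, S_mul (by simpa using h0) (by simpa using h0') (a.fix hv hs c hc)
    (a.fix hv' hs c hc), map_add, add_mul]

theorem B_tors (a : Ab N) (hv : Fix N v) (hu : Fix N (u * v)) (h0 : v ≠ 0) (hc : c ∈ N)
    (h1 : cyc c = 1) (ho : IsOfFinOrder u) : B h c N (u * v) = B h c N v := by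
  have hu' : Fix N u := fun g hg => mul_right_cancel₀ h0 (by
    have := hu g hg
    rwa [map_mul, hv g hg] at this)
  refine csum_congr fun s hs => ?_
  rw [map_mul, S_mul (by simpa using ho.isUnit.ne_zero) (by simpa using h0) (a.fix hu' hs c hc)
    (a.fix hv hs c hc), S_tors (u := s u) h1 (MonoidHom.isOfFinOrder (s : Om →* Om) ho)
    (a.fix hu' hs c hc),
    zero_add]

theorem B_shift (a : Ab N) (hN : ∀ g ∈ N, 2 ^ j ∣ la g) (hv : Fix N v) (hg : g ∈ GK) :
    B h c N (g⁻¹ v) = χ (la g) * B h c N v := by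
  rw [B, ← csum_right (ri h hN (a.fix hv (inv_mem hg))) hg fun s hs n hn => a.conj hs hn]
  refine (csum_congr fun s _ => ?_).trans
    (map_csum (relIndex_ne_zero a.1 _) (AddMonoidHom.mulLeft (χ (la g))) _).symm
  rw [show la (s * g) = la s + la g from K.la_mul s g, h.add]
  simp only [AlgEquiv.mul_apply, AlgEquiv.aut_inv, AlgEquiv.apply_symm_apply,
    AddMonoidHom.coe_mulLeft]
  ring

theorem ab_KC (j : ℕ) : Ab (K.KC j) :=
  ⟨(K.on_KC j).2, inf_le_right, fun _ _ _ _ => K.KJ_le j (K.mem_KJ'.2 (cyc_cm _ _))⟩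

theorem lam_dvd {z γ : GQ} (hz : cyc z = 1) (hγ : γ ∈ GK) (h1 : la γ = 1)
    (hm : ∀ β : Om, β ^ 2 = 1 + rt (-1) → z β = -β) {σ : ℕ} (l : Lam j N v σ) :
    Ab N ∧ (∀ g ∈ N, 2 ^ j ∣ la g) ∧ Fix N v ∧ v ≠ 0 ∧ B h (cm z γ) N v ∣ (χ 1 - 1) ^ (σ + 1) := by
  have zH : z ∈ K.KC j := K.KJ_le j (K.mem_KJ'.2 hz)
  have zK : z ∈ GK := zH.2
  induction l with
  | @base N v u e a hN hv hu he hn =>
    have w0 : 1 + rt (-1) ≠ 0 := fun e => by
      have := rt_sq (-1)
      rw [eq_neg_of_add_eq_zero_right e] at this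
      norm_num at this
    have wz : z (1 + rt (-1)) = 1 + rt (-1) := by rw [map_add, map_one, show z (rt (-1)) = _ from zK]
    have n0 : nrm GK N v ≠ 0 := hn ▸ mul_ne_zero hu.isUnit.ne_zero (pow_ne_zero _ w0)
    have h0 : v ≠ 0 := fun e => n0 ((nrm_eq_zero (relIndex_ne_zero a.1 _)).2 e)
    refine ⟨a, hN, hv, h0, ?_⟩
    have b := ab_KC j
    have le : N ≤ K.KC j := fun g hg => K.mem_KC.2 ⟨hN g hg, a.2.1 hg⟩
    have hH : ∀ g ∈ K.KC j, 2 ^ j ∣ la g := fun g hg => (K.mem_KC.1 hg).1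
    have hη := hv.nrm (relIndex_ne_zero a.1 (K.KC j))
    have η0 : nrm (K.KC j) N v ≠ 0 := fun e => h0 ((nrm_eq_zero (relIndex_ne_zero a.1 _)).1 e)
    rw [← nrm_trans b.2.1 le (relIndex_ne_zero a.1 _) hv] at hn n0
    rw [B_nrm h b a le hH hv h0 (a.2.2 z zK γ hγ)]
    generalize nrm (K.KC j) N v = η at hη η0 hn n0
    have e1 : B h (cm z γ) (K.KC j) η = (χ 1 - 1) * B h z (K.KC j) η := by
      rw [show χ 1 - 1 = 1 + χ (la γ) by rw [h1]; linear_combination -h.two, add_mul, one_mul,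
        ← B_shift h b hH hη hγ, B, B, B, ← csum_add (relIndex_ne_zero b.1 _)]
      refine csum_congr fun s hs => ?_
      rw [show cm z γ = z * (γ * z⁻¹ * γ⁻¹) by simp [cm, mul_assoc], S_cc (by simpa using η0)
        (b.fix hη hs z zH) (b.fix hη hs _ (b.conj hγ (inv_mem zH))), map_add, add_mul,
        b.comm hη hs (inv_mem hγ), ← S_inv z (γ⁻¹ (s η)), ← S_conj γ z⁻¹]
      simp
    have e2 : csum GK (K.KC j) (fun σ => lam h.two (S z (σ η))) = 1 := by
      have uz : z u = u := mul_right_cancel₀ (pow_ne_zero e w0) (by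
        have := hη.nrm (relIndex_ne_zero b.1 GK) z zK
        rwa [hn, map_mul, map_pow, wz] at this)
      have := S_nrm (s := 1) b le_rfl hη η0 zH (one_mem _)
      simp only [one_mul, AlgEquiv.one_apply] at this
      rw [← map_csum (relIndex_ne_zero b.1 _), ← this, hn, S_mul hu.isUnit.ne_zero
        (pow_ne_zero _ w0) uz (by rw [map_pow, wz]), S_tors hz hu uz, zero_add,
        ← Finset.card_range e, ← Finset.prod_const, S_prod _ _ fun _ => ⟨w0, wz⟩, Finset.sum_const,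
        Finset.card_range, S, qc, if_neg fun e => sq_ne w0 (neg_eq_self.1
          ((hm _ (sq_spec _)).symm.trans e)), nsmul_one, (ZMod.natCast_eq_one_iff_odd).2 he, lam_one]
    have e3 : B h z (K.KC j) η - csum GK (K.KC j) (fun σ => lam h.two (S z (σ η))) ∈
        (Ideal.span {χ 1 - 1}).toAddSubgroup := by
      rw [B, ← csum_sub (relIndex_ne_zero b.1 _)]
      refine csum_mem _ fun s _ => Ideal.mem_span_singleton.2 ?_
      rw [← mul_sub_one]
      exact (h.dvd (one_dvd _)).mul_left _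
    obtain ⟨V, hV⟩ := Ideal.mem_span_singleton.1 e3
    rw [e2] at hV
    have e4 : IsUnit (B h z (K.KC j) η) := by
      rw [sub_eq_iff_eq_add'.1 hV]
      exact ((Commute.all _ _).isNilpotent_mul_right h.nil).isUnit_one_add
    rw [e1, zero_add, pow_one]
    exact e4.mul_right_dvd.2 dvd_rfl
  | @same N N' v v' s u _ a' le hv' hu hn ih =>
    obtain ⟨a, hN, hv, h0, hd⟩ := ih
    have n0 : nrm N N' v' ≠ 0 := hn ▸ mul_ne_zero hu.isUnit.ne_zero h0
    have h0' : v' ≠ 0 := fun e => n0 ((nrm_eq_zero (relIndex_ne_zero a'.1 _)).2 e)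
    refine ⟨a', fun g hg => hN g (le hg), hv', h0', ?_⟩
    rwa [B_nrm h a a' le hN hv' h0' (a'.2.2 z zK γ hγ), hn, B_tors h a hv
      (hn ▸ hv'.nrm (relIndex_ne_zero a'.1 _)) h0 (a.2.2 z zK γ hγ) (cyc_cm _ _) hu]
  | @step N N' v v' s u φ e _ a' le hv' hu hφ he hn ih =>
    obtain ⟨a, hN, hv, h0, hd⟩ := ih
    have n0 : nrm N N' v' ≠ 0 :=
      left_ne_zero_of_mul (hn ▸ mul_ne_zero hu.isUnit.ne_zero h0)
    have h0' : v' ≠ 0 := fun e => n0 ((nrm_eq_zero (relIndex_ne_zero a'.1 _)).2 e)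
    refine ⟨a', fun g hg => hN g (le hg), hv', h0', ?_⟩
    have f1 := hv'.nrm (relIndex_ne_zero a'.1 N)
    have f2 := a.fix hv (inv_mem hφ)
    have e1 := B_mul h a f1 f2 n0 (by simpa using h0) (a.2.2 z zK γ hγ)
    rw [hn, B_tors h a hv (hn ▸ fun g hg => by rw [map_mul, f1 g hg, f2 g hg]) h0
      (a.2.2 z zK γ hγ) (cyc_cm _ _) hu, B_shift h a hN hv hφ] at e1
    rw [B_nrm h a a' le hN hv' h0' (a'.2.2 z zK γ hγ), show B h (cm z γ) N (nrm N N' v') =
      -(B h (cm z γ) N v * (χ (la φ) - 1)) by linear_combination -e1, neg_dvd, add_right_comm,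
      pow_add, ← h.pow]
    refine mul_dvd_mul hd (h.dvd ?_)
    rcases ValuationRing.dvd_total (la φ) (2 ^ e) with e1 | ⟨d, e1⟩
    · exact e1
    · have : IsUnit d := by
        by_contra hd
        refine he (e1 ▸ pow_succ (2 : ℤ_[2]) e ▸ mul_dvd_mul_left _ ?_)
        simpa using (PadicInt.norm_lt_one_iff_dvd d).1 (PadicInt.not_isUnit_iff.1 hd)
      rw [e1]
      exact this.mul_right_dvd.2 dvd_rfl

end

end Pool.Agent.P.MP_8b7eba_nt.CG.T
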