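import Pool.Agent.P.MP_8b7eba_nt.CG.TopB
import Pool.Agent.P.MP_8b7eba_nt.CG.TopA

/-! Kummer exponents, the smoothing factors and the invariant of the class. -/

namespace Pool.Agent.P.MP_8b7eba_nt.CG.T

open R2 Filter Topology TKLD
open QT (O Dv)

variable {N : Subgroup GQ} {c g s : GQ} {u v v' w w' : Om} {k : ℕ}

theorem kum_spec (k : ℕ) (hc : cyc c = 1) (h0 : v ≠ 0) (h : c v = v) :
    ‖kum k c v‖ ≤ 1 ∧ ∀ r, r ^ 2 ^ k = v → c r = ec (kum k c v / 2 ^ k) * r := by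
  refine Classical.epsilon_spec
    (p := fun a : ℚ_[2] => ‖a‖ ≤ 1 ∧ ∀ r, r ^ 2 ^ k = v → c r = ec (a / 2 ^ k) * r) ?_
  obtain ⟨r, rfl⟩ := IsAlgClosed.exists_pow_nat_eq v (pow_pos two_pos k)
  have r0 : r ≠ 0 := fun e => h0 (by rw [e, zero_pow (by positivity)])
  obtain ⟨m, hm⟩ := a_EC.1.surj k (c r / r) (by rw [div_pow, ← map_pow, h, div_self h0])
  refine ⟨m, Padic.norm_int_le_one m, fun r' e => ?_⟩
  have := fix_two hc (β := r' / r) (k := k) (by rw [div_pow, e, div_self h0])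
  rw [map_div₀, div_eq_iff ((_root_.map_ne_zero c).2 r0)] at this
  rw [this, ← hm]
  ring

theorem norm_of_ec {a : ℚ_[2]} (h : ec (a / 2 ^ k) = 1) : ‖a‖ ≤ (2 ^ k)⁻¹ := by
  rw [a_EC.1.eq_one, norm_div, norm_pow, SelA.two, div_le_one (by positivity)] at h
  rwa [← inv_pow]

theorem kum_two (hc : cyc c = 1) (h0 : v ≠ 0) (h : c v = v) :
    ‖kum (k + 1) c v - (S c v).val‖ ≤ 2⁻¹ := by
  obtain ⟨h1, h2⟩ := kum_spec (k + 1) hc h0 h
  obtain ⟨r, hr⟩ := IsAlgClosed.exists_pow_nat_eq v (pow_pos two_pos (k + 1))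
  have b0 : r ^ 2 ^ k ≠ 0 := fun e => h0 (by rw [← hr, pow_succ, pow_mul, e]; simp)
  have h3 : c (r ^ 2 ^ k) = ec (kum (k + 1) c v / 2 ^ 1) * r ^ 2 ^ k := by
    rw [map_pow, h2 r hr, mul_pow, ← ec_nat a_EC.1]
    congr 2
    push_cast
    field_simp
    ring
  rw [S_eq (β := r ^ 2 ^ k) (by rw [← pow_mul, ← pow_succ, hr]), qc]
  split_ifs with e
  · rw [e, eq_comm, mul_eq_right₀ b0] at h3
    simpa using norm_of_ec h3
  · refine (Csum.half h1).resolve_left fun h4 => e ?_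
    rw [h3, (a_EC.1.eq_one _).2, one_mul]
    simpa [div_eq_inv_mul] using Csum.half_le h4

theorem kum_rel {p : ℕ} (hc : cyc c = 1) (hu : IsOfFinOrder u) (a : v ≠ 0 ∧ c v = v)
    (a' : v' ≠ 0 ∧ c v' = v') (b : w ≠ 0 ∧ c w = w) (b' : w' ≠ 0 ∧ c w' = w')
    (e : v ^ p * w' = u * (v' ^ p * w)) :
    ‖p * kum k c v + kum k c w' - (p * kum k c v' + kum k c w)‖ ≤ (2 ^ k)⁻¹ := by
  have n : ∀ {r x : Om}, r ^ 2 ^ k = x → x ≠ 0 → r ≠ 0 := fun e h e' =>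
    h (by rw [← e, e', zero_pow (by positivity)])
  obtain ⟨r, hr⟩ := IsAlgClosed.exists_pow_nat_eq v (pow_pos two_pos k)
  obtain ⟨r', hr'⟩ := IsAlgClosed.exists_pow_nat_eq v' (pow_pos two_pos k)
  obtain ⟨t, ht⟩ := IsAlgClosed.exists_pow_nat_eq w (pow_pos two_pos k)
  obtain ⟨t', ht'⟩ := IsAlgClosed.exists_pow_nat_eq w' (pow_pos two_pos k)
  have d0 : v' ^ p * w ≠ 0 := mul_ne_zero (pow_ne_zero _ a'.1) b.1
  have h1 : (r ^ p * t' / (r' ^ p * t)) ^ 2 ^ k = u := by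
    rw [div_pow, mul_pow, mul_pow, pow_right_comm, pow_right_comm r', hr, hr', ht, ht', e,
      mul_div_cancel_right₀ _ d0]
  have h2 := fix_tors hc (k := k) (β := r ^ p * t' / (r' ^ p * t)) (h1 ▸ hu) (by
    rw [h1, eq_div_of_mul_eq d0 e.symm]
    simp [a.2, a'.2, b.2, b'.2])
  simp only [map_div₀, map_mul, map_pow, (kum_spec k hc a.1 a.2).2 r hr,
    (kum_spec k hc a'.1 a'.2).2 r' hr', (kum_spec k hc b.1 b.2).2 t ht,
    (kum_spec k hc b'.1 b'.2).2 t' ht', mul_pow, ← ec_nat a_EC.1] at h2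
  refine norm_of_ec ((a_EC.1.eq_one _).2 ?_)
  rw [sub_div, ← ec_eq a_EC.1, add_div, add_div, a_EC.1.add, a_EC.1.add]
  have := n hr a.1
  have := n hr' a'.1
  have := n ht b.1
  have := n ht' b'.1
  have := ec_ne a_EC.1 (p * (kum k c v' / 2 ^ k))
  have := ec_ne a_EC.1 (kum k c w / 2 ^ k)
  field_simp at h2
  rw [div_eq_iff (ec_ne a_EC.1 _)] at h2
  rw [h2, mul_comm]

section

variable {W : Type} [NormedAddCommGroup W] [IsUltrametricDist W] {H H' : Subgroup GQ} {f : GQ → W}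
  {ε : ℝ}

theorem csum_le (hε : 0 ≤ ε) (h : ∀ s ∈ H, ‖f s‖ ≤ ε) : ‖csum H H' f‖ ≤ ε :=
  finsum_induction (‖·‖ ≤ ε) (by simpa using hε) (fun _ _ => SelA.add) fun q => h _ (Nrm.ro_mem q)

theorem csum_near (i : H'.relIndex H ≠ 0) (hε : 0 ≤ ε)
    (h : ∀ s ∈ H, ∀ n ∈ H', ‖f (s * n) - f s‖ ≤ ε) (hg : g ∈ H)
    (hn : ∀ s ∈ H, ∀ n ∈ H', s * n * s⁻¹ ∈ H') :
    ‖csum H H' (fun s => f (s * g)) - csum H H' f‖ ≤ ε := by
  classical
  let F : GQ → W := fun s => if hs : s ∈ H then f (Nrm.ro H H' ((⟨s, hs⟩ : H) : H ⧸ _)) else 0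
  have h1 : RI H H' F := fun s hs n hn hn' => by
    simp only [F, dif_pos hs, dif_pos (mul_mem hs hn)]
    rw [(Nrm.mk_eq (a := ⟨s, hs⟩) (b := ⟨s * n, mul_mem hs hn⟩)).2 (by simpa using hn')]
  have h2 : csum H H' f = csum H H' F := finsum_congr fun q => by
    simp only [F, dif_pos q.out.2, Subtype.coe_eta, QuotientGroup.out_eq']
    rfl
  rw [h2, ← csum_right h1 hg hn, ← csum_sub i]
  refine csum_le hε fun s hs => ?_
  have := h _ (Nrm.ro_mem ((⟨_, mul_mem hs hg⟩ : H) : H ⧸ H'.subgroupOf H)) _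
    (Nrm.mk_eq.1 (QuotientGroup.out_eq' ((⟨_, mul_mem hs hg⟩ : H) : H ⧸ H'.subgroupOf H)))
  simp only [F, dif_pos (mul_mem hs hg)]
  simpa [Nrm.ro] using this

end

variable {A : Type} [NormedCommRing A] [NormedAlgebra ℚ_[2] A] [IsUltrametricDist A] {ι : A}
  {ψ : ℤ_[2] → A} {D : Dat}

/-- the weight -/
noncomputable def Fw (D : Dat) (ι : A) (ψ : ℤ_[2] → A) (σ : GQ) : A := (cq σ)⁻¹ • D.xi ι ψ σ

theorem xi_le (h : Cf ι ψ) (g : GQ) : ‖D.xi ι ψ g‖ ≤ 1 :=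
  (norm_mul_le _ _).trans (mul_le_one₀ (h.le _) (norm_nonneg _) (K.jo_le h _))

theorem Fw_le (h : Cf ι ψ) (g : GQ) : ‖Fw D ι ψ g‖ ≤ 1 := by
  rw [Fw, norm_smul, norm_inv, TAPB.norm_cq, inv_one, one_mul]
  exact xi_le h g

theorem xi_mul (h : Cf ι ψ) (hg : g ∈ GK) (hs : s ∈ GK) :
    D.xi ι ψ (g * s) = D.xi ι ψ g * D.xi ι ψ s :=
  K.chi_mul (K.rep D h) (K.KC_GK ▸ hg) (K.KC_GK ▸ hs)

theorem cq_mul (g s : GQ) : cq (g * s) = cq g * cq s := by simp [cq, a_EC.2.1]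

theorem Fw_mul (h : Cf ι ψ) (hg : g ∈ GK) (hs : s ∈ GK) :
    Fw D ι ψ (g * s) = Fw D ι ψ g * Fw D ι ψ s := by
  rw [Fw, Fw, Fw, xi_mul h hg hs, cq_mul, mul_inv, smul_mul_smul_comm]

theorem Fw_sub (h : Cf ι ψ) {ε : ℝ} (g : GQ) {a : A} (h1 : ‖cq g - 1‖ ≤ ε)
    (h2 : ‖K.jH h.sq (D.ρ g - 1)‖ ≤ ε) (h3 : ‖ψ (la g) - a‖ ≤ ε) : ‖Fw D ι ψ g - a‖ ≤ ε := by
  have c0 : cq g ≠ 0 := norm_ne_zero_iff.1 (by rw [TAPB.norm_cq]; exact one_ne_zero)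
  rw [show Fw D ι ψ g - a = -((cq g - 1) • Fw D ι ψ g) + ψ (la g) * K.jH h.sq (D.ρ g - 1) +
      (ψ (la g) - a) by
    rw [Fw, sub_smul, smul_inv_smul₀ c0, one_smul, map_sub, map_one, Dat.xi]
    change _ = _ + _ * (jo ι _ - 1) + _
    ring]
  refine SelA.add (SelA.add ?_ ?_) h3
  · rw [norm_neg, norm_smul]
    exact (mul_le_of_le_one_right (norm_nonneg _) (Fw_le h g)).trans h1
  · exact (norm_mul_le _ _).trans ((mul_le_of_le_one_left (norm_nonneg _) (h.le _)).trans h2)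

theorem Fw_near (E : ES D) (h : Cf ι ψ) {ε : ℝ} (hε : 0 < ε) :
    ∀ᶠ k : ℕ in atTop, ∀ g ∈ E.N (2 ^ (k + 2)), ‖Fw D ι ψ g - 1‖ ≤ ε := by
  obtain ⟨a, ha⟩ := h.toIsPsi.near hε
  obtain ⟨b, hb⟩ := K.jo_small h hε
  obtain ⟨m, hm⟩ := exists_pow_lt_of_lt_one hε (show (2⁻¹ : ℝ) < 1 by norm_num)
  filter_upwards [eventually_ge_atTop (a + b + m + 2)] with k hk g hg
  have h1 := E.rho k g hg
  have h2 : 2 ^ k ∣ (cyc g : ℤ_[2]) - 1 := by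
    obtain ⟨y, hy⟩ := h1
    rw [← D.cy.nm g, K.mem_KC0'.1 (K.KC_GK ▸ E.le _ hg), sub_eq_iff_eq_add.1 hy, ← QT.two_smul_eq]
    exact ⟨2 * y.re + 2 ^ k * QT.nr y, by
      simp [QT.nr, SM.sg, QuadraticAlgebra.re_one, QuadraticAlgebra.im_one]; ring⟩
  refine Fw_sub h g ?_ (hb _ ((QT.dv_two.2 h1).mono (by omega))) (h.zero ▸ ha _ _ ?_)
  · obtain ⟨y, hy⟩ := (pow_dvd_pow 2 (show m ≤ k by omega)).trans h2
    have := congrArg (fun a : ℤ_[2] => ‖(a : ℚ_[2])‖) hy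
    simp only [PadicInt.coe_sub, PadicInt.coe_one, PadicInt.coe_mul, PadicInt.coe_pow, norm_mul,
      norm_pow] at this
    rw [cq, this, show ((2 : ℤ_[2]) : ℚ_[2]) = 2 from rfl, SelA.two]
    exact (mul_le_of_le_one_right (by positivity) y.2).trans hm.le
  · rw [sub_zero]
    exact (K.mem_KC.1 (K.mem_KC'.2 ((pow_dvd_pow 2 (show a + 2 ≤ k by omega)).trans h2))).1

theorem ab_N (E : ES D) (k : ℕ) : Ab (E.N (2 ^ (k + 2))) :=
  ⟨E.op _ (by simp), E.le _, E.ab _⟩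

theorem th_fix (E : ES D) (k : ℕ) :
    E.th (2 ^ (k + 2)) ≠ 0 ∧ Fix (E.N (2 ^ (k + 2))) (E.th (2 ^ (k + 2))) :=
  E.fix _ (by simp) ⟨2 ^ k, by ring⟩

theorem th_conj (E : ES D) (k : ℕ) (hs : s ∈ GK) (hg : g ∈ GK) :
    s (E.th (2 ^ (k + 2))) ≠ 0 ∧ cm D.z g (s (E.th (2 ^ (k + 2)))) = s (E.th (2 ^ (k + 2))) :=
  ⟨by simpa using (th_fix E k).1, (ab_N E k).fix (th_fix E k).2 hs _ (E.ab _ _ D.zD.2 _ hg)⟩

variable [FiniteDimensional ℚ_[2] A]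

theorem kap_lim (hK : KAP) (E : ES D) (h : Cf ι ψ) {g : GS} (hg : g ∈ S1 GK) :
    Tendsto (fun k => E.mu k (2 ^ (k + 2)) (cm D.z (g k)) (Fw D ι ψ)) UF (𝓝 (E.kap ι ψ g)) :=
  (hK D E A ι ψ h).1.lim g hg

theorem kap_lin (hK : KAP) (E : ES D) {A' W : Type} [NormedCommRing A'] [NormedAlgebra ℚ_[2] A']
    [IsUltrametricDist A'] [FiniteDimensional ℚ_[2] A'] [NormedAddCommGroup W]
    [NormedSpace ℚ_[2] W] {ι' : A'} {ψ' : ℤ_[2] → A'} (h : Cf ι ψ) (h' : Cf ι' ψ')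
    (l : A →ₗ[ℚ_[2]] W) (l' : A' →ₗ[ℚ_[2]] W) (e : ∀ σ, l (D.xi ι ψ σ) = l' (D.xi ι' ψ' σ))
    (g : GS) : l (E.kap ι ψ g) = l' (E.kap ι' ψ' g) := by
  by_cases hg : g ∈ S1 GK
  · refine tendsto_nhds_unique
      ((l.continuous_of_finiteDimensional.tendsto _).comp (kap_lim hK E h hg))
      (((l'.continuous_of_finiteDimensional.tendsto _).comp (kap_lim hK E h' hg)).congr fun k => ?_)
    have i := relIndex_ne_zero (ab_N E k).1 GK
    refine (map_csum i l'.toAddMonoidHom _).trans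
      ((csum_congr fun s _ => ?_).trans (map_csum i l.toAddMonoidHom _).symm)
    simp [Fw, e]
  · rw [(hK D E A ι ψ h).2.off g hg, (hK D E A' ι' ψ' h').2.off g hg, map_zero, map_zero]

omit [FiniteDimensional ℚ_[2] A] in
theorem mu_shift (E : ES D) (h : Cf ι ψ) {ε : ℝ} (hε : 0 ≤ ε)
    (hk : ∀ g ∈ E.N (2 ^ (k + 2)), ‖Fw D ι ψ g - 1‖ ≤ ε) (hs : s ∈ GK) (hg : g ∈ GK) :
    ‖Fw D ι ψ s * csum GK (E.N (2 ^ (k + 2))) (fun σ =>
      kum k (cm D.z g) (σ (s (E.th (2 ^ (k + 2))))) • Fw D ι ψ σ) -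
      E.mu k (2 ^ (k + 2)) (cm D.z g) (Fw D ι ψ)‖ ≤ ε := by
  have a := ab_N E k
  have i := relIndex_ne_zero a.1 GK
  refine le_of_eq_of_le (congrArg (‖· - _‖) ((map_csum i (AddMonoidHom.mulLeft (Fw D ι ψ s)) _).trans
    (csum_congr fun σ hσ => ?_))) (csum_near i hε (fun σ hσ n hn => ?_) hs fun _ a' _ => a.conj a')
  · simp [Fw_mul h hσ hs, mul_comm]
  · rw [AlgEquiv.mul_apply, (th_fix E k).2 n hn, ← smul_sub, norm_smul, Fw_mul h hσ (a.2.1 hn),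
      ← mul_sub_one]
    exact (mul_le_of_le_one_left (norm_nonneg _) (kum_spec k (cyc_cm _ _) (th_conj E k hσ hg).1
      (th_conj E k hσ hg).2).1).trans ((norm_mul_le _ _).trans
        ((mul_le_of_le_one_left (norm_nonneg _) (Fw_le h σ)).trans (hk n hn)))

theorem smo (hK : KAP) {E E' : ES D} {s' : GQ} {p : ℕ} (H : Smo E E' s s' p) (h : Cf ι ψ)
    (hg : g ∈ GK) : Fw D ι ψ s * (D.xi ι ψ s' - 1) * E.kap ι ψ (cs g) =
      Fw D ι ψ s' * (D.xi ι ψ s - 1) * E'.kap ι ψ (cs g) := by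
  have e : ∀ {t : GQ}, (cyc t : ℤ_[2]) = p → D.xi ι ψ t = p * Fw D ι ψ t := fun {t} ht => by
    have c0 : cq t ≠ 0 := norm_ne_zero_iff.1 (by rw [TAPB.norm_cq]; exact one_ne_zero)
    rw [← nsmul_eq_mul, ← Nat.cast_smul_eq_nsmul ℚ_[2], Fw,
      show (p : ℚ_[2]) = cq t by simp [cq, ht], smul_inv_smul₀ c0]
  refine sub_eq_zero.1 (norm_le_zero_iff.1 (le_of_forall_pos_le_add fun ε hε => ?_))
  rw [zero_add]
  refine le_of_tendsto ((((kap_lim hK E h (cs_mem.2 hg)).const_mul _).sub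
    ((kap_lim hK E' h (cs_mem.2 hg)).const_mul _)).norm) (UF_le ?_)
  obtain ⟨m, hm⟩ := exists_pow_lt_of_lt_one hε (show (2⁻¹ : ℝ) < 1 by norm_num)
  filter_upwards [Fw_near E h hε, Fw_near E' h hε, eventually_ge_atTop m] with k h1 h2 hk
  have a1 := mu_shift E h hε.le h1 H.hs' hg
  have a2 := mu_shift E' h hε.le h2 H.hs hg
  have i := relIndex_ne_zero (ab_N E k).1 GK
  obtain ⟨u, hu, r⟩ := H.rel k
  have a3 := csum_le (H' := E.N (2 ^ (k + 2))) (f := fun σ => (p * kum k (cm D.z g)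
    (σ (E.th (2 ^ (k + 2)))) + kum k (cm D.z g) ((σ * s) (E'.th (2 ^ (k + 2)))) - (p * kum k
    (cm D.z g) (σ (E'.th (2 ^ (k + 2)))) + kum k (cm D.z g) ((σ * s') (E.th (2 ^ (k + 2)))))) •
      Fw D ι ψ σ) hε.le fun σ (hσ : σ ∈ GK) => by
    rw [norm_smul]
    refine (mul_le_of_le_one_right (norm_nonneg _) (Fw_le h σ)).trans ((kum_rel (u := σ u)
      (cyc_cm _ _) (MonoidHom.isOfFinOrder (σ : Om →* Om) hu) (th_conj E k hσ hg)
      (th_conj E' k hσ hg) (th_conj E k (mul_mem hσ H.hs') hg) (th_conj E' k (mul_mem hσ H.hs) hg)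
      (by simpa using congrArg σ r)).trans ?_)
    rw [← inv_pow]
    exact (pow_le_pow_of_le_one (by norm_num) (by norm_num) hk).trans hm.le
  have a4 : ∀ f : GQ → ℚ_[2], csum GK (E.N (2 ^ (k + 2))) (fun σ => (p * f σ) • Fw D ι ψ σ) =
      p * csum GK (E.N (2 ^ (k + 2))) fun σ => f σ • Fw D ι ψ σ := fun f =>
    ((map_csum i (AddMonoidHom.mulLeft (p : A)) _).trans (csum_congr fun σ _ => by
      simp [mul_smul, Nat.cast_smul_eq_nsmul])).symm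
  simp only [sub_smul, add_smul, csum_sub i, csum_add i, a4, AlgEquiv.mul_apply] at a3
  simp only [ES.mu, H.eq k, cs, e H.cs, e H.cs'] at a1 a2 ⊢
  have l : ∀ t x, ‖x‖ ≤ ε → ‖Fw D ι ψ t * x‖ ≤ ε := fun t x hx =>
    (norm_mul_le _ _).trans ((mul_le_of_le_one_left (norm_nonneg _) (Fw_le h t)).trans hx)
  refine le_of_eq_of_le (congrArg _ ?_) (SelA.add (SelA.add (l s _ (l s' _ a3)) (l s _ a1))
    ((norm_neg _).trans_le (l s' _ a2)))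
  ring

omit [FiniteDimensional ℚ_[2] A] in
theorem Fw_unit (h : Cf ι ψ) (hs : s ∈ GK) : IsUnit (Fw D ι ψ s) :=
  .of_mul_eq_one (Fw D ι ψ s⁻¹) (by
    have h1 : cq 1 = 1 := mul_left_cancel₀ (norm_ne_zero_iff.1 (by
      rw [TAPB.norm_cq]; exact one_ne_zero) : cq 1 ≠ 0) (by rw [← cq_mul, mul_one, mul_one])
    rw [← Fw_mul h hs (inv_mem hs), mul_inv_cancel, Fw, h1, inv_one, one_smul]
    simpa [Dat.r] using (K.rep D h).one 1)

omit [FiniteDimensional ℚ_[2] A] [NormedAlgebra ℚ_[2] A] in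
theorem exists_res (h1 : ‖(1 : A)‖ ≤ 1) : ∃ (R : Type) (_ : CommRing R) (r : A → R), r 1 = 1 ∧
    (∀ x y, ‖x‖ ≤ 1 → ‖y‖ ≤ 1 →
      r (x + y) = r x + r y ∧ r (x * y) = r x * r y ∧ (r x = r y ↔ ‖x - y‖ < 1)) ∧
    ∀ z, ∃ x, ‖x‖ ≤ 1 ∧ r x = z := by
  classical
  have m : ∀ {x y : A}, ‖x‖ ≤ 1 → ‖y‖ ≤ 1 → ‖x * y‖ ≤ 1 := fun a b =>
    (norm_mul_le _ _).trans (mul_le_one₀ a (norm_nonneg _) b)
  let Λ : Subring A :=
    { carrier := {x | ‖x‖ ≤ 1}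
      mul_mem' := m
      one_mem' := h1
      add_mem' := SelA.add
      zero_mem' := by simp
      neg_mem' := fun a => by simpa using a }
  let I : Ideal Λ :=
    { carrier := {x | ‖(x : A)‖ < 1}
      add_mem' := fun a b => (IsUltrametricDist.norm_add_le_max _ _).trans_lt (max_lt a b)
      zero_mem' := by simp
      smul_mem' := fun c x a => (norm_mul_le _ _).trans_lt
        (mul_lt_one_of_nonneg_of_lt_one_right c.2 (norm_nonneg _) a) }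
  refine ⟨Λ ⧸ I, inferInstance, fun x => if h : ‖x‖ ≤ 1 then Ideal.Quotient.mk I ⟨x, h⟩ else 0,
    dif_pos h1, fun x y a b => ?_, fun z => ?_⟩
  · simp only [dif_pos a, dif_pos b, dif_pos (m a b), dif_pos (SelA.add a b), ← map_add, ← map_mul]
    exact ⟨rfl, rfl, Ideal.Quotient.eq⟩
  · obtain ⟨x, rfl⟩ := Ideal.Quotient.mk_surjective z
    exact ⟨x, x.2, dif_pos x.2⟩

theorem lamA (hK : KAP) (E : ES D) (h : Cf ι ψ) (hι : ‖1 + ι‖ < 1) (h5 : la D.h = 1)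
    (hm : ∀ β : Om, β ^ 2 = 1 + rt (-1) → D.z β = -β) {σ : ℕ}
    (l : ∀ j, ∀ᶠ k : ℕ in atTop, Lam j (E.N (2 ^ (k + 2))) (E.th (2 ^ (k + 2))) σ) :
    ∃ W, ‖W‖ ≤ 1 ∧ ‖E.kap ι ψ (cs D.h) * W - (ψ 1 - 1) ^ (σ + 1)‖ < 1 := by
  have h1 : ‖(1 : A)‖ ≤ 1 := h.zero ▸ h.le 0
  obtain ⟨R, _, r, r1, ra, rs⟩ := exists_res h1
  have r0 : r 0 = 0 := by simpa using (ra 0 0 (by simp) (by simp)).1
  have sm : ∀ (a : ℚ_[2]) (x : A), ‖a‖ ≤ 2⁻¹ → ‖x‖ ≤ 1 → ‖a • x‖ < 1 := fun a x ha hx => by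
    rw [norm_smul]
    exact mul_lt_one_of_nonneg_of_lt_one_left (norm_nonneg _) (ha.trans_lt (by norm_num)) hx
  obtain ⟨j, hj⟩ := h.toIsPsi.near (ε := 2⁻¹) (by norm_num)
  have hc : Ch j fun a => r (ψ a) := ⟨by
      rw [← one_add_one_eq_two, ← r1, ← (ra 1 1 h1 h1).1, ← r0,
        (ra _ _ (SelA.add h1 h1) (by simp)).2.2, sub_zero, ← two_smul ℚ_[2]]
      exact sm _ _ SelA.two.le h1,
    fun a b => by rw [h.add, (ra _ _ (h.le a) (h.le b)).2.1],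
    fun a ha => by
      rw [← r1, ← h.zero, (ra _ _ (h.le a) (h.le 0)).2.2]
      exact (hj a 0 (by simpa using ha)).trans_lt (by norm_num)⟩
  obtain ⟨k, ⟨hl, hk⟩, hn⟩ := ((((l j).and (eventually_ge_atTop 1)).filter_mono UF_le).and
    (Metric.tendsto_nhds.1 (kap_lim hK E h (cs_mem.2 D.hD.2)) 1 one_pos)).exists
  obtain ⟨k, rfl⟩ := Nat.exists_eq_add_of_le' hk
  obtain ⟨z, hz⟩ := (lam_dvd hc D.zc D.hD.2 h5 hm hl).2.2.2.2
  obtain ⟨W, hW, rfl⟩ := rs z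
  have t1 : ‖ψ 1 - 1‖ ≤ 1 := by
    rw [sub_eq_add_neg]
    exact SelA.add (h.le 1) (by simpa using h1)
  have t2 : ∀ n, r ((ψ 1 - 1) ^ n) = (r (ψ 1) - 1) ^ n := fun n => by
    induction n with
    | zero => simpa using r1
    | succ n ih =>
      rw [pow_succ, (ra _ _ (pow_le h1 t1 n) t1).2.1, ih, pow_succ, ← r1,
        eq_sub_of_add_eq (ra _ _ t1 h1).1.symm, sub_add_cancel]
  have kl : ∀ s ∈ GK, ‖kum (k + 1) (cm D.z D.h) (s (E.th (2 ^ (k + 1 + 2)))) • Fw D ι ψ s‖ ≤ 1 :=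
    fun s hs => by
      rw [norm_smul]
      exact mul_le_one₀ (kum_spec _ (cyc_cm _ _) (th_conj E _ hs D.hD.2).1
        (th_conj E _ hs D.hD.2).2).1 (norm_nonneg _) (Fw_le h s)
  have m1 : ‖E.mu (k + 1) (2 ^ (k + 1 + 2)) (cm D.z D.h) (Fw D ι ψ)‖ ≤ 1 := csum_le zero_le_one kl
  have m2 : r (E.mu (k + 1) (2 ^ (k + 1 + 2)) (cm D.z D.h) (Fw D ι ψ)) =
      B hc (cm D.z D.h) (E.N (2 ^ (k + 1 + 2))) (E.th (2 ^ (k + 1 + 2))) := by
    have := Nrm.ft (relIndex_ne_zero (ab_N E (k + 1)).1 GK)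
    rw [ES.mu, B, Csum.sum, Csum.sum]
    refine (Finset.sum_hom_rel (r := fun x y => ‖x‖ ≤ 1 ∧ r x = y) ⟨by simp, r0⟩
      fun q x y a => ?_).2
    have hs := Nrm.ro_mem q
    generalize Nrm.ro _ _ q = s at hs
    refine ⟨SelA.add (kl s hs) a.1, ?_⟩
    rw [(ra _ _ (kl s hs) a.1).1, a.2, add_left_inj]
    have b := kum_two (k := k) (cyc_cm D.z D.h) (th_conj E (k + 1) hs D.hD.2).1
      (th_conj E (k + 1) hs D.hD.2).2
    have f : ‖Fw D ι ψ s - ψ (la s)‖ < 1 := by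
      refine (Fw_sub h s (ε := max 2⁻¹ ‖1 + ι‖) (((Csum.half (TAPB.norm_cq s).le).resolve_left
        (by rw [TAPB.norm_cq]; norm_num)).trans (le_max_left _ _)) ?_
        (by simp)).trans_lt (max_lt (by norm_num) hι)
      obtain ⟨y, hy⟩ := QT.dv_one_sub.2 (D.cy.rd s)
      rw [hy, pow_one, map_mul, show K.jH h.sq QT.om = 1 + ι by simp [K.jH, jo]]
      exact (norm_mul_le _ _).trans
        ((mul_le_of_le_one_right (norm_nonneg _) (K.jo_le h y)).trans (le_max_right _ _))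
    have kl' := kl s hs
    generalize kum _ _ _ = a at b kl'
    generalize S _ _ = t at b
    rcases QT.f2 t with rfl | rfl
    · rw [map_zero, zero_mul, ← r0, (ra _ _ kl' (by simp)).2.2, sub_zero]
      exact sm _ _ (by simpa using b) (Fw_le h s)
    · rw [lam_one, one_mul, (ra _ _ kl' (h.le _)).2.2, show a • Fw D ι ψ s - ψ (la s) =
        (a - 1) • Fw D ι ψ s + (Fw D ι ψ s - ψ (la s)) by rw [sub_smul, one_smul]; ring]
      exact (IsUltrametricDist.norm_add_le_max _ _).trans_lt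
        (max_lt (sm _ _ (by simpa [ZMod.val_one] using b) (Fw_le h s)) f)
  refine ⟨W, hW, ?_⟩
  rw [← m2, ← t2, ← (ra _ _ m1 hW).2.1, eq_comm, (ra _ _ ((norm_mul_le _ _).trans
    (mul_le_one₀ m1 (norm_nonneg _) hW)) (pow_le h1 t1 _)).2.2] at hz
  rw [dist_eq_norm'] at hn
  refine lt_of_eq_of_lt (congrArg _ ?_) ((IsUltrametricDist.norm_add_le_max _ _).trans_lt
    (max_lt hz ((norm_mul_le _ W).trans_lt
      (mul_lt_one_of_nonneg_of_lt_one_left (norm_nonneg _) hn hW))))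
  simp only [cs]
  ring

end Pool.Agent.P.MP_8b7eba_nt.CG.T
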