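import Pool.Agent.P.MP_8b7eba_nt.CG.TopC

/-! The local comparison at one root. -/

namespace Pool.Agent.P.MP_8b7eba_nt.CG.T

open R2 Filter Topology Polynomial Module
open QT (O Dv)
open scoped Matrix

section

variable {A A' : Type} [NormedCommRing A] [NormedAlgebra ℚ_[2] A] [NormedCommRing A']
  [NormedAlgebra ℚ_[2] A'] {ι : A} {ψ ψ' : ℤ_[2] → A} {D : Dat}

theorem psi_ext (h : IsPsi ψ) (h' : IsPsi ψ') (e : ψ 1 = ψ' 1) : ψ = ψ' :=
  funext (TAFX.dens h.cont h'.cont fun n => by rw [TAFX.psi_nat h, TAFX.psi_nat h', e])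

omit [NormedAlgebra ℚ_[2] A] in
theorem psi_le [IsUltrametricDist A] (h : IsPsi ψ) (a : ℤ_[2]) : ‖ψ a - 1‖ ≤ ‖ψ 1 - 1‖ := by
  refine PadicInt.denseRange_natCast.induction_on a
    (isClosed_le (h.cont.sub continuous_const).norm continuous_const) fun n => ?_
  induction n with
  | zero => simp [h.zero]
  | succ n ih =>
    rw [Nat.cast_succ, h.add, show ψ n * ψ 1 - 1 = ψ n * (ψ 1 - 1) + (ψ n - 1) by ring]
    exact SelA.add ((norm_mul_le _ _).trans (mul_le_of_le_one_left (norm_nonneg _) (h.le _))) ih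

theorem cf_bar (h : Cf ι ψ) : Cf (-ι) (bar ψ) :=
  ⟨h.toIsPsi.bar, by rw [neg_mul_neg, h.sq], by rw [norm_neg]; exact h.le1⟩

omit [NormedAlgebra ℚ_[2] A] in
theorem cf_one (h : Cf ι ψ) : Cf ι fun _ => 1 :=
  ⟨⟨rfl, by simp, continuous_const, fun _ => h.zero ▸ h.le 0⟩, h.sq, h.le1⟩

theorem jo_neg (a : O) : jo (-ι) a = jo ι (star a) := by simp [jo]

theorem jo_map (φ : A →ₐ[ℚ_[2]] A') (a : O) : φ (jo ι a) = jo (φ ι) a := by simp [jo]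

theorem xi_map (φ : A →ₐ[ℚ_[2]] A') (g : GQ) : φ (D.xi ι ψ g) = D.xi (φ ι) (φ ∘ ψ) g := by
  simp [Dat.xi, jo_map]

theorem xi_fix (h : IsPsi ψ) {y : A} (hy : (ψ 1 - 1) * y = 0) (g : GQ) :
    D.xi ι (fun _ => 1) g * y = D.xi ι ψ g * y ∧
      D.xi ι (fun _ => 1) g * y = D.xi ι (bar ψ) g * y := by
  have e : ∀ a, ψ a * y = y := fun a => by
    simpa using TAFX.psi_fix h (b := 1) (y := y) (by linear_combination hy) a
  simp only [Dat.xi, bar, one_mul, mul_right_comm _ (jo ι _), e, mul_comm y, and_self]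

/-- the product of the two invariants -/
noncomputable def Th (E : ES D) (ι : A) (ψ : ℤ_[2] → A) : A :=
  E.kap ι ψ (cs D.h) * E.kap (-ι) (bar ψ) (cs D.h)

/-- the lower bound -/
def LB (D : Dat) {σ : ℕ} (M : Matrix (Fin σ) (Fin σ) O) : Prop :=
  ∀ (A : Type) [NormedCommRing A] [NormedAlgebra ℚ_[2] A] [IsUltrametricDist A]
    [FiniteDimensional ℚ_[2] A] (ι : A) (ψ : ℤ_[2] → A), Cf ι ψ →
    ∃ L : (Fin σ → A) →ₗ[A] GS → A, Function.Injective L ∧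
      ∀ x, M.map (jo ι) *ᵥ x = (ψ 1 - 1) • x → D.Sel ι ψ (L x)

variable [IsUltrametricDist A] [FiniteDimensional ℚ_[2] A] [IsUltrametricDist A']
  [FiniteDimensional ℚ_[2] A']

theorem th_map (hK : KAP) (E : ES D) (φ : A →ₐ[ℚ_[2]] A') (h : Cf ι ψ) (h' : Cf (φ ι) (φ ∘ ψ)) :
    φ (Th E ι ψ) = Th E (φ ι) (φ ∘ ψ) := by
  have k1 := kap_lin hK E h h' φ.toLinearMap .id (xi_map φ) (cs D.h)
  have k2 := kap_lin hK E (cf_bar h) (cf_bar h') φ.toLinearMap .id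
    (fun g => (xi_map φ g).trans (by rw [map_neg]; rfl)) (cs D.h)
  rw [Th, Th, map_mul]
  exact congrArg₂ _ k1 k2

theorem th_smo (hK : KAP) {E E' : ES D} {s s' : GQ} {p : ℕ} (H : Smo E E' s s' p) (h : Cf ι ψ)
    (h1 : IsUnit (D.xi ι ψ s' - 1)) (h2 : IsUnit (D.xi (-ι) (bar ψ) s' - 1)) :
    (D.xi ι ψ s - 1) * (D.xi (-ι) (bar ψ) s - 1) * Th E' ι ψ ∣ Th E ι ψ := by
  have a := smo hK H h D.hD.2
  have b := smo hK H (cf_bar h) D.hD.2
  refine ((((Fw_unit (D := D) h H.hs).mul h1).mul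
    ((Fw_unit (D := D) (cf_bar h) H.hs).mul h2)).dvd_mul_left).1
      ⟨Fw D ι ψ s' * Fw D (-ι) (bar ψ) s', ?_⟩
  rw [Th, Th, mul_mul_mul_comm, a, b]
  ring

theorem fin_contra (hK : KAP) (E : ES D) (h : Cf ι ψ) (hι : ‖1 + ι‖ < 1) (h5 : la D.h = 1)
    (hm : ∀ β : Om, β ^ 2 = 1 + rt (-1) → D.z β = -β) {σ n : ℕ}
    (l : ∀ j, ∀ᶠ k : ℕ in atTop, Lam j (E.N (2 ^ (k + 2))) (E.th (2 ^ (k + 2))) σ)
    (h0 : Th E ι ψ = 0) (hn : σ ≤ n) : ‖(ψ 1 - 1) ^ (2 * n + 2)‖ < 1 := by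
  have h1 : ‖(1 : A)‖ ≤ 1 := h.zero ▸ h.le 0
  have m1 : ∀ {x y : A}, ‖x‖ < 1 → ‖y‖ ≤ 1 → ‖x * y‖ < 1 := fun a b =>
    (norm_mul_le _ _).trans_lt (mul_lt_one_of_nonneg_of_lt_one_left (norm_nonneg _) a b)
  have t : ∀ a, ‖ψ a - 1‖ ≤ 1 := fun a => by
    rw [sub_eq_add_neg]
    exact SelA.add (h.le a) (by simpa using h1)
  obtain ⟨W, -, a⟩ := lamA hK E h hι h5 hm l
  obtain ⟨W', -, b⟩ := lamA hK E (cf_bar h) (by
    rw [show 1 + -ι = (1 + ι) * -ι by linear_combination h.sq]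
    exact m1 hι (cf_bar h).le1) h5 hm l
  obtain ⟨c, rfl⟩ := Nat.exists_eq_add_of_le hn
  have e : ψ 1 - 1 = (bar ψ 1 - 1) * -ψ 1 := by
    have := h.add (-1) 1
    rw [neg_add_cancel, h.zero] at this
    rw [bar]
    linear_combination -this
  rw [Th] at h0
  generalize E.kap ι ψ _ = x at a h0
  generalize E.kap (-ι) _ _ = y at b h0
  have f : (ψ 1 - 1) ^ (2 * (σ + c) + 2) = (-((x * W - (ψ 1 - 1) ^ (σ + 1)) * (bar ψ 1 - 1) ^ (σ + 1)) +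
      -((y * W' - (bar ψ 1 - 1) ^ (σ + 1)) * (x * W - (ψ 1 - 1) ^ (σ + 1) + (ψ 1 - 1) ^ (σ + 1)))) *
      ((-ψ 1) ^ (σ + 1) * (ψ 1 - 1) ^ (2 * c)) := by
    have : (ψ 1 - 1) ^ (σ + 1) = (bar ψ 1 - 1) ^ (σ + 1) * (-ψ 1) ^ (σ + 1) := by
      rw [← mul_pow, ← e]
    rw [show 2 * (σ + c) + 2 = σ + 1 + (σ + 1) + 2 * c by ring, pow_add, pow_add]
    linear_combination (ψ 1 - 1) ^ (σ + 1) * (ψ 1 - 1) ^ (2 * c) * this +
      W * W' * (-ψ 1) ^ (σ + 1) * (ψ 1 - 1) ^ (2 * c) * h0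
  rw [f]
  refine m1 ((IsUltrametricDist.norm_add_le_max _ _).trans_lt (max_lt ?_ ?_))
    ((norm_mul_le _ _).trans (mul_le_one₀ (pow_le h1 (by simpa using h.le 1) _) (norm_nonneg _)
      (pow_le h1 (t 1) _)))
  · rw [norm_neg]
    exact m1 a (pow_le h1 (t (-1)) _)
  · rw [norm_neg]
    exact m1 b (SelA.add a.le (pow_le h1 (t 1) _))

end

variable {L : Type} [NormedField L] [IsUltrametricDist L] [NormedAlgebra ℚ_[2] L]
  [FiniteDimensional ℚ_[2] L] {ι0 t : L} {j : ℕ}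

omit [IsUltrametricDist L] [FiniteDimensional ℚ_[2] L] in
theorem cf0 (h0 : ι0 * ι0 = -1) : Cf ι0 (fun _ => 1) ∧ ‖1 + ι0‖ < 1 := by
  have h1 : ‖ι0‖ = 1 := by
    have := congrArg norm h0
    rw [norm_mul, norm_neg, norm_one] at this
    nlinarith [norm_nonneg ι0]
  refine ⟨⟨⟨rfl, by simp, continuous_const, by simp⟩, h0, h1.le⟩, ?_⟩
  have h2 := congrArg norm (show (1 + ι0) * (1 + ι0) = (2 : ℚ_[2]) • ι0 by
    rw [two_smul]; linear_combination h0)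
  rw [norm_mul, norm_smul, SelA.two, h1] at h2
  nlinarith [norm_nonneg (1 + ι0)]

omit [FiniteDimensional ℚ_[2] L] in
theorem jo_lt (h0 : ι0 * ι0 = -1) {a : O} (ha : Dv 1 a) : ‖K.jH h0 a‖ < 1 := by
  obtain ⟨y, rfl⟩ := ha
  rw [pow_one, map_mul, show K.jH h0 QT.om = 1 + ι0 by simp [K.jH, jo], norm_mul]
  exact mul_lt_one_of_nonneg_of_lt_one_left (norm_nonneg _) (cf0 h0).2 (K.jo_le (cf0 h0).1 y)

omit [IsUltrametricDist L] [FiniteDimensional ℚ_[2] L] in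
theorem jo_inj (h0 : ι0 * ι0 = -1) : Function.Injective (K.jH h0) := by
  refine (injective_iff_map_eq_zero _).2 fun a ha => QT.nr_eq_zero.1 ?_
  have := congrArg (K.jH h0) (QT.mul_star_eq a)
  rw [map_mul, ha, zero_mul] at this
  simpa [K.jH, jo, QuadraticAlgebra.re_one, QuadraticAlgebra.im_one] using this.symm

omit [FiniteDimensional ℚ_[2] L] in
theorem dl_char (h0 : ι0 * ι0 = -1) {σ : ℕ} {M : Matrix (Fin σ) (Fin σ) O}
    (hM : M.charpoly.map QT.rdH = X ^ σ) : DL (M.map (jo ι0)).charpoly := by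
  refine ⟨Matrix.charpoly_monic _, fun i hi => ?_⟩
  rw [Matrix.charpoly_natDegree_eq_dim, Fintype.card_fin] at hi
  rw [show (M.map (jo ι0)).charpoly = _ from Matrix.charpoly_map M (K.jH h0), coeff_map]
  refine jo_lt h0 (QT.rd_eq_zero.1 (show QT.rdH _ = 0 from ?_))
  simpa [coeff_X_pow, hi.ne] using congrArg (coeff · i) hM

theorem exists_zero {l : ℤ_[2]} (hl : IsUnit l) {w : L} (hw : ‖w - 1‖ < 1) :
    ∃ ψ : ℤ_[2] → L, IsPsi ψ ∧ ψ l = w ∧ ‖ψ 1 - 1‖ < 1 := by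
  obtain ⟨u, rfl⟩ := hl
  obtain ⟨ψ, h, e⟩ := exists_psi (w - 1) (by simp) hw.le (d := 1) (by simpa using hw)
  exact ⟨fun a => ψ (a * ↑u⁻¹), ⟨by simp [h.zero], fun a b => by rw [add_mul, h.add],
    h.cont.comp (continuous_mul_const _), fun _ => h.le _⟩, by simpa using e,
    (psi_le h _).trans_lt (e ▸ hw)⟩

variable {A : Type} [NormedCommRing A] [NormedAlgebra ℚ_[2] A] [Algebra L A]
  [IsScalarTower ℚ_[2] L A] {ψ : ℤ_[2] → A} {D : Dat} {σ : ℕ} {M : Matrix (Fin σ) (Fin σ) O}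

omit [IsUltrametricDist L] [FiniteDimensional ℚ_[2] L] [IsScalarTower ℚ_[2] L A]
  [NormedAlgebra ℚ_[2] A] in
theorem AL.cf {G : L[X]} (h : AL ψ G) (h0 : ι0 * ι0 = -1) : Cf (algebraMap L A ι0) ψ :=
  ⟨h.psi, by rw [← map_mul, h0, map_neg, map_one], (h.le _).trans (cf0 h0).1.le1⟩

variable [FiniteDimensional ℚ_[2] A]

omit [IsUltrametricDist L] in
theorem AL.ker' (h : AL ψ ((X - C t) ^ j)) (ht : 1 + t ≠ 0) (p : L[X]) :
    aeval (bar ψ 1 - 1) p = 0 ↔ (X - C ((1 + t)⁻¹ - 1)) ^ j ∣ p := by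
  have hc := h.chain
  obtain ⟨u, e⟩ : ∃ u : Aˣ, bar ψ 1 - 1 - algebraMap L A ((1 + t)⁻¹ - 1) =
      u * aeval (ψ 1 - 1) (X - C t) := by
    refine ⟨((h.psi.isUnit (-1)).mul ((inv_ne_zero ht).isUnit.map (algebraMap L A))).neg.unit, ?_⟩
    have a := h.psi.add (-1) 1
    rw [neg_add_cancel, h.psi.zero] at a
    have b := congrArg (algebraMap L A) (inv_mul_cancel₀ ht)
    simp only [map_mul, map_add, map_one] at b
    simp only [IsUnit.unit_spec, map_sub, map_one, aeval_X, aeval_C, bar]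
    linear_combination -algebraMap L A (1 + t)⁻¹ * a - ψ (-1) * b
  generalize aeval (ψ 1 - 1) (X - C t) = π at hc e
  generalize (1 + t)⁻¹ - 1 = r at e
  have f : ∀ i, aeval (bar ψ 1 - 1) ((X - C r) ^ i) = ↑(u ^ i) * π ^ i := fun i => by
    simp [e, mul_pow]
  refine ⟨fun hp => ?_, fun ⟨q, hq⟩ => by rw [hq, map_mul, f, hc.nil, mul_zero, zero_mul]⟩
  by_cases p0 : p = 0
  · simp [p0]
  obtain ⟨q, e', hq⟩ := exists_eq_pow_rootMultiplicity_mul_and_not_dvd p p0 r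
  have hu : IsUnit (aeval (bar ψ 1 - 1) q) := isUnit_aeval_of_isUnit_aeval_of_isNilpotent_sub
    (b := algebraMap L A r) (by
      rw [aeval_algebraMap_apply, coe_aeval_eq_eval]
      exact (Ne.isUnit fun h => hq (dvd_iff_isRoot.2 h)).map _)
    ⟨j, by rw [e, mul_pow, hc.nil, mul_zero]⟩
  rw [e', map_mul, hu.mul_left_eq_zero, f, Units.mul_right_eq_zero, hc.pow_eq_zero] at hp
  exact (le_rootMultiplicity_iff p0).1 hp

omit [IsUltrametricDist L] [FiniteDimensional ℚ_[2] L] in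
theorem AL.ev (h : AL ψ ((X - C t) ^ j)) (hj : j ≠ 0) {ψ0 : ℤ_[2] → L} (h0 : IsPsi ψ0)
    (e : ψ0 1 - 1 = t) : ∃ φ : A →ₐ[ℚ_[2]] L, φ ∘ ψ = ψ0 ∧ (∀ c, φ (algebraMap L A c) = c) ∧
      ∀ x, (φ x = 0 → aeval (ψ 1 - 1) (X - C t) ∣ x) ∧ (φ x ≠ 0 → IsUnit x) := by
  have k : ∀ p : L[X], aeval (ψ0 1 - 1) p = 0 ↔ X - C t ∣ p := fun p => by
    rw [e, coe_aeval_eq_eval, dvd_iff_isRoot, IsRoot]
  obtain ⟨φ, -, a, b⟩ := h.map (G' := X - C t) ⟨h0, fun y => ⟨C y, by simp⟩, k, fun _ => le_rfl,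
    fun i hi => by
      rw [natDegree_X_sub_C, Nat.lt_one_iff] at hi
      simp [hi]⟩ (dvd_pow_self _ hj)
  refine ⟨φ, a, fun c => by simpa using b (C c), fun x => ?_⟩
  obtain ⟨p, rfl⟩ := h.surj x
  rw [b, Ne, k]
  exact ⟨map_dvd _, h.unit⟩

variable [IsUltrametricDist A]

omit [IsUltrametricDist L] in
theorem sel_lb (hL : LB D M) (h : Cf (algebraMap L A ι0) ψ)
    (hk : ∀ p : L[X], aeval (ψ 1 - 1) p = 0 ↔ (X - C t) ^ j ∣ p) (hj : σ ≤ j) :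
    ∃ V : Submodule A (GS → A), FiniteDimensional ℚ_[2] V ∧
      (∀ x ∈ V, D.Sel (algebraMap L A ι0) ψ x) ∧
      finrank ℚ_[2] L * (M.map (jo ι0)).charpoly.rootMultiplicity t ≤ finrank ℚ_[2] V := by
  obtain ⟨V, h1, h2⟩ := lb hk (M.map (jo ι0)) (pow_rootMultiplicity_dvd _ t) hj
  obtain ⟨f, hf, h3⟩ := hL A _ ψ h
  have e := (V.equivMapOfInjective f hf).restrictScalars ℚ_[2]
  have : FiniteDimensional ℚ_[2] V :=
    FiniteDimensional.of_injective (V.subtype.restrictScalars ℚ_[2]) V.injective_subtype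
  refine ⟨V.map f, e.finiteDimensional, ?_, h2.trans e.finrank_eq.le⟩
  rintro _ ⟨x, hx, rfl⟩
  refine h3 x (Eq.trans ?_ (h1 x hx))
  rw [Matrix.map_map]
  congr 2
  exact funext fun a => (jo_map (IsScalarTower.toAlgHom ℚ_[2] L A) a).symm

theorem loc (hK : KAP) (hU : UB) (hL : LB D M) (h0 : ι0 * ι0 = -1) (E : ES D) (ht : ‖t‖ < 1)
    {c : ℕ} (hj : σ ≤ j) (hc : c ≤ j) (h : AL ψ ((X - C t) ^ (j + j)))
    (H : c ≤ (M.map (jo ι0)).charpoly.rootMultiplicity t +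
        (M.map (jo (-ι0))).charpoly.rootMultiplicity ((1 + t)⁻¹ - 1) ∨
      t = 0 ∧ D.Z0 ∧ E.K0 ∧ c ≤ (M.map (jo ι0)).charpoly.rootMultiplicity t +
        (M.map (jo (-ι0))).charpoly.rootMultiplicity ((1 + t)⁻¹ - 1) + 1) :
    aeval (ψ 1 - 1) (X - C t) ^ c ∣ Th E (algebraMap L A ι0) ψ := by
  have ch := h.chain
  obtain ⟨a, -, u, ha⟩ := ch.exists_pow (E.kap (algebraMap L A ι0) ψ (cs D.h))
  obtain ⟨b, -, u', hb⟩ := ch.exists_pow (E.kap (-algebraMap L A ι0) (bar ψ) (cs D.h))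
  suffices c ≤ a + b by
    rw [Th, ha, hb, mul_mul_mul_comm, ← pow_add]
    exact (pow_dvd_pow _ this).mul_left _
  by_contra hn
  obtain ⟨A', _, _, _, _, _, _, ψ', h'⟩ := exists_ring ((dl_lin ht).pow j)
  obtain ⟨φ, hs, rfl, e⟩ := h.map h' (pow_dvd_pow _ (Nat.le_add_left j j))
  have e1 : algebraMap L A' ι0 = φ (algebraMap L A ι0) := by simpa using (e (C ι0)).symm
  have t1 : 1 + t ≠ 0 := fun e => by
    rw [← add_eq_zero_iff_neg_eq.1 e, norm_neg, norm_one] at ht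
    exact ht.false
  have c1 := h'.cf h0
  obtain ⟨V, f1, s1, r1⟩ := sel_lb hL c1 h'.ker hj
  obtain ⟨V', f2, s2, r2⟩ := sel_lb hL (ι0 := -ι0) (map_neg (algebraMap L A') ι0 ▸ cf_bar c1)
    (h'.ker' t1) hj
  rw [map_neg] at s2
  rw [e1] at s1 s2 c1
  have nz : ∀ (i : ℕ) (u : Aˣ), i < j → aeval (ψ 1 - 1) (X - C t) ^ (j + j - i - 1) *
      (u * aeval (ψ 1 - 1) (X - C t) ^ i) ≠ 0 := fun i u hi h => by
    rw [mul_left_comm, Units.mul_right_eq_zero, ← pow_add, ch.pow_eq_zero] at h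
    omega
  obtain ⟨k1, k2⟩ := hU D E A A' φ _ _ ψ j j _ a b (h.cf h0) c1 hs ch (e _ ▸ h'.chain) (by omega)
    le_rfl (ha ▸ nz a u (by omega)) (hb ▸ nz b u' (by omega)) V V' f1 f2 s1 s2
  have p0 : 0 < finrank ℚ_[2] L := finrank_pos
  rcases H with H | ⟨rfl, hZ, hE, H⟩
  · nlinarith
  have k3 := k2 (fun x hx h1 => hZ A' _ (cf_one c1) x ⟨⟨hx.1.pz.congr_rep fun g _ g' _ =>
    rS_congr (.of_forall fun k => (xi_fix c1.toIsPsi (by
      simpa [e] using congrFun h1 g') (g k)).1), hx.1.off, hx.1.nz, hx.1.unr⟩, hx.2⟩) (by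
    have c2 := cf_bar (h.cf h0)
    funext g
    have nil := ch.nil
    rw [show j + j = j + j - 1 + 1 by omega, pow_succ'] at nil
    simp only [C_0, sub_zero, aeval_X] at nil ⊢
    have := kap_lin hK E c2 (cf_one c2) (.mulRight ℚ_[2] ((ψ 1 - 1) ^ (j + j - 1)))
      (.mulRight ℚ_[2] _) (fun g => (xi_fix h.psi nil g).2.symm) g
    rw [hE A _ (cf_one c2)] at this
    simpa [mul_comm] using this)
  nlinarith

end Pool.Agent.P.MP_8b7eba_nt.CG.T
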