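import Pool.Agent.P.MP_8b7eba_nt.CG.TopD

/-! The comparison of the two bounds. -/

namespace Pool.Agent.P.MP_8b7eba_nt.CG.T

open R2 Filter Topology Polynomial Module
open QT (O Dv)

variable {L : Type} [NormedField L] [IsUltrametricDist L] [NormedAlgebra ℚ_[2] L]
  [FiniteDimensional ℚ_[2] L] {ι0 t : L} {j : ℕ} {D : Dat} {σ : ℕ} {M : Matrix (Fin σ) (Fin σ) O}
  {E E' : ES D} {s s' : GQ} {p : ℕ}

omit [NormedAlgebra ℚ_[2] L] [FiniteDimensional ℚ_[2] L] in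
theorem inv_lt (h : ‖t - 1‖ < 1) : t ≠ 0 ∧ ‖t⁻¹ - 1‖ < 1 := by
  have h0 : t ≠ 0 := fun e => by simp [e] at h
  have h1 : 1 ≤ ‖t‖ := not_lt.1 fun a => by
    have := (IsUltrametricDist.norm_add_le_max t (-(t - 1))).trans_lt
      (max_lt a (by rwa [norm_neg]))
    simp at this
  refine ⟨h0, ?_⟩
  rw [show t⁻¹ - 1 = -(t⁻¹ * (t - 1)) by field_simp; ring, norm_neg, norm_mul, norm_inv]
  exact mul_lt_one_of_nonneg_of_lt_one_right (inv_le_one_of_one_le₀ h1) (norm_nonneg _) h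

theorem unit_la (H : Smo E E' s s' p) : IsUnit (la s) ∧ la s' = la s := by
  refine ⟨by_contra fun h => ?_, by rw [la, la, Units.ext (H.cs'.trans H.cs.symm)]⟩
  have h2 : 2 ^ 1 ∣ la s := by
    simpa using PadicInt.norm_lt_one_iff_dvd _ |>.1 (PadicInt.mem_nonunits.1 h)
  have := H.p8
  have k := PadicInt.pow_p_dvd_int_iff (p := 2) 3
  rcases (a_LG.1.dvd 1 (cyc s)).1 h2 with e | e <;> rw [H.cs] at e
  · have := (k (p - 1)).1 (by simpa using e)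
    omega
  · have := (k (p + 1)).1 (by simpa using e)
    omega

theorem nr_rho (hs : s ∈ GK) (h : (cyc s : ℤ_[2]) = p) : QT.nr (D.ρ s) = p := by
  rw [← h, ← D.cy.nm s, K.mem_KC0'.1 (K.KC_GK ▸ hs)]
  simp [SM.sg]

omit [IsUltrametricDist L] [FiniteDimensional ℚ_[2] L] in
theorem loc2 {A : Type} [NormedCommRing A] [NormedAlgebra ℚ_[2] A] [Algebra L A]
    [IsScalarTower ℚ_[2] L A] {ψ : ℤ_[2] → A} [FiniteDimensional ℚ_[2] A] [IsUltrametricDist A]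
    (hK : KAP) (h0 : ι0 * ι0 = -1) (H : Smo E E' s s' p) (h : AL ψ ((X - C t) ^ j)) (hj : j ≠ 0)
    {ψ0 : ℤ_[2] → L} (h1 : IsPsi ψ0) (e : ψ0 1 - 1 = t)
    (a : (D.xi ι0 ψ0 s - 1) * (D.xi (-ι0) (bar ψ0) s - 1) = 0) (b : D.xi ι0 ψ0 s' ≠ 1)
    (b' : D.xi (-ι0) (bar ψ0) s' ≠ 1) :
    aeval (ψ 1 - 1) (X - C t) * Th E' (algebraMap L A ι0) ψ ∣ Th E (algebraMap L A ι0) ψ := by
  obtain ⟨φ, rfl, f, k⟩ := h.ev hj h1 e
  have x1 : ∀ g, φ (D.xi (algebraMap L A ι0) ψ g - 1) = D.xi ι0 (φ ∘ ψ) g - 1 := fun g => by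
    rw [map_sub, map_one, xi_map, f]
  have x2 : ∀ g, φ (D.xi (-algebraMap L A ι0) (bar ψ) g - 1) = D.xi (-ι0) (bar (φ ∘ ψ)) g - 1 :=
    fun g => by
      rw [map_sub, map_one, xi_map, map_neg, f]
      rfl
  exact (mul_dvd_mul_right ((k _).1 (by rw [map_mul, x1, x2, a])) _).trans
    (th_smo hK H (h.cf h0) ((k _).2 (x1 _ ▸ sub_ne_zero.2 b)) ((k _).2 (x2 _ ▸ sub_ne_zero.2 b')))

theorem zeros (h0 : ι0 * ι0 = -1) (H : Smo E E' s s' p) : ∃ t1 t2 : L, t1 ≠ 0 ∧ t2 ≠ 0 ∧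
    t1 ≠ t2 ∧ ∀ t, t = t1 ∨ t = t2 → ‖t‖ < 1 ∧ ∃ ψ0 : ℤ_[2] → L, IsPsi ψ0 ∧ ψ0 1 - 1 = t ∧
      (D.xi ι0 ψ0 s - 1) * (D.xi (-ι0) (bar ψ0) s - 1) = 0 ∧ D.xi ι0 ψ0 s' ≠ 1 ∧
      D.xi (-ι0) (bar ψ0) s' ≠ 1 := by
  obtain ⟨hl, el⟩ := unit_la H
  have n1 := nr_rho (D := D) H.hs H.cs
  have n2 := nr_rho (D := D) H.hs' H.cs'
  have p8 := H.p8
  have i := jo_inj h0
  have q1 : ∀ x, QT.nr x = p → K.jH h0 x ≠ 1 := fun x a e => by
    rw [i (e.trans (map_one _).symm), QT.nr_one, eq_comm, Nat.cast_eq_one] at a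
    omega
  have q2 : ∀ x y, QT.nr x = p → QT.nr y = p → K.jH h0 x * K.jH h0 y ≠ 1 := fun x y a b e => by
    have := congrArg QT.nr (i ((map_mul _ x y).trans (e.trans (map_one _).symm)))
    rw [QT.nr_mul, a, b, QT.nr_one, ← Nat.cast_mul, Nat.cast_eq_one, mul_eq_one] at this
    omega
  have d := QT.dv_one_sub.2 (D.cy.rd s)
  have u1 := inv_lt (t := K.jH h0 (D.ρ s)) (by simpa using jo_lt h0 d)
  have u2 : ‖K.jH h0 (star (D.ρ s)) - 1‖ < 1 := by simpa using jo_lt h0 d.star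
  obtain ⟨ψ1, a1, b1, c1⟩ := exists_zero hl u1.2
  obtain ⟨ψ2, a2, b2, c2⟩ := exists_zero hl u2
  have x1 : ∀ (ψ : ℤ_[2] → L) g, D.xi ι0 ψ g = ψ (la g) * K.jH h0 (D.ρ g) := fun _ _ => rfl
  have x2 : ∀ ψ : ℤ_[2] → L, IsPsi ψ → ∀ g,
      D.xi (-ι0) (bar ψ) g = (ψ (la g))⁻¹ * K.jH h0 (star (D.ρ g)) := fun ψ h g => by
    rw [Dat.xi, jo_neg, bar, ← eq_inv_of_mul_eq_one_left (a := ψ (-la g))
      (by rw [← h.add, neg_add_cancel, h.zero])]
    rfl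
  have o := (cf0 h0).1.toIsPsi
  have m1 := (QT.nr_star _).trans n1
  refine ⟨ψ1 1 - 1, ψ2 1 - 1, fun e => q1 _ n1 (inv_eq_one.1 ?_), fun e => q1 _ m1 ?_,
    fun e => q2 _ _ n1 m1 ?_, ?_⟩
  · rw [← b1, psi_ext a1 o (sub_eq_zero.1 e)]
  · rw [← b2, psi_ext a2 o (sub_eq_zero.1 e)]
  · rw [← b2, ← psi_ext a1 a2 (sub_left_inj.1 e), b1, mul_inv_cancel₀ u1.1]
  rintro _ (rfl | rfl)
  · refine ⟨c1, ψ1, a1, rfl, by rw [x1, b1, inv_mul_cancel₀ u1.1, sub_self, zero_mul], ?_, ?_⟩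
    · rw [x1, el, b1, Ne, inv_mul_eq_one₀ u1.1]
      exact i.ne H.ne
    · rw [x2 _ a1, el, b1, inv_inv]
      exact q2 _ _ n1 ((QT.nr_star _).trans n2)
  · refine ⟨c2, ψ2, a2, rfl, by
      rw [x2 _ a2, b2, inv_mul_cancel₀ (inv_lt u2).1, sub_self, mul_zero], ?_, ?_⟩
    · rw [x1, el, b2]
      exact q2 _ _ m1 n2
    · rw [x2 _ a2, el, b2, Ne, inv_mul_eq_one₀ (inv_lt u2).1]
      exact i.ne (star_injective.ne H.ne)

theorem core (hK : KAP) (hU : UB) (hL : LB D M) (h0 : ι0 * ι0 = -1)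
    (hM : M.charpoly.map QT.rdH = X ^ σ) (s1 : (M.map (jo ι0)).charpoly.Splits)
    (s2 : (M.map (jo (-ι0))).charpoly.Splits) (H : Smo E E' s s' p) (hZ : D.Z0) (hE : E.K0) :
    ∃ (A : Type) (_ : NormedCommRing A) (_ : NormedAlgebra ℚ_[2] A) (_ : IsUltrametricDist A)
      (_ : FiniteDimensional ℚ_[2] A) (ι : A) (ψ : ℤ_[2] → A), Cf ι ψ ∧ ‖1 + ι‖ < 1 ∧
      Th E ι ψ = 0 ∧ ¬ ‖(ψ 1 - 1) ^ (2 * σ + 2)‖ < 1 := by
  classical
  obtain ⟨t1, t2, n1, n2, n3, hz⟩ := zeros h0 H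
  have d1 := dl_char h0 hM
  have d2 := dl_char (ι0 := -ι0) (by rwa [neg_mul_neg]) hM
  have iv : Function.Involutive fun r : L => (1 + r)⁻¹ - 1 := fun r => by simp
  obtain ⟨Z, eZ⟩ : ∃ Z, Z = 0 ::ₘ t1 ::ₘ t2 ::ₘ ((M.map (jo ι0)).charpoly.roots +
    (M.map (jo (-ι0))).charpoly.roots.map fun r => (1 + r)⁻¹ - 1) := ⟨_, rfl⟩
  have cZ : Z.card = 2 * σ + 3 := by
    simp [eZ, ← s1.natDegree_eq_card_roots, ← s2.natDegree_eq_card_roots]
    ring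
  have lZ : ∀ t ∈ Z, ‖t‖ < 1 := fun t ht => by
    simp only [eZ, Multiset.mem_cons, Multiset.mem_add, Multiset.mem_map] at ht
    rcases ht with rfl | rfl | rfl | ht | ⟨r, hr, rfl⟩
    · simp
    · exact (hz _ (.inl rfl)).1
    · exact (hz _ (.inr rfl)).1
    · exact d1.root (isRoot_of_mem_roots ht)
    · exact (inv_lt (by simpa using d2.root (isRoot_of_mem_roots hr))).2
  have kZ : ∀ t, Z.count t = (M.map (jo ι0)).charpoly.rootMultiplicity t +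
      (M.map (jo (-ι0))).charpoly.rootMultiplicity ((1 + t)⁻¹ - 1) + (if t = t2 then 1 else 0) +
      (if t = t1 then 1 else 0) + if t = 0 then 1 else 0 := fun t => by
    rw [eZ, Multiset.count_cons, Multiset.count_cons, Multiset.count_cons, Multiset.count_add,
      count_roots, ← count_roots (M.map (jo (-ι0))).charpoly,
      ← Multiset.count_map_eq_count' _ _ iv.injective ((1 + t)⁻¹ - 1),
      show (1 + ((1 + t)⁻¹ - 1))⁻¹ - 1 = t from iv t]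
  have dG : DL (Z.map fun a => X - C a).prod :=
    Multiset.prod_induction _ _ (fun _ _ => DL.mul) (pow_zero (X - C (0 : L)) ▸ (dl_lin (by simp)).pow 0)
      fun a ha => by
        obtain ⟨t, ht, rfl⟩ := Multiset.mem_map.1 ha
        exact dl_lin (lZ t ht)
  obtain ⟨B, _, _, _, _, _, _, ψ, h⟩ := exists_ring (dG.pow (Z.card + Z.card))
  obtain ⟨P, hP⟩ := h.surj (Th E (algebraMap L B ι0) ψ)
  have tr : ∀ {A : Type} [NormedCommRing A] [NormedAlgebra ℚ_[2] A] [IsUltrametricDist A]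
      [FiniteDimensional ℚ_[2] A] [Algebra L A] [IsScalarTower ℚ_[2] L A] {ψ' : ℤ_[2] → A} {G : L[X]},
      AL ψ' G → G ∣ (Z.map fun a => X - C a).prod ^ (Z.card + Z.card) →
      Th E (algebraMap L A ι0) ψ' = aeval (ψ' 1 - 1) P := fun {A} _ _ _ _ _ _ ψ' G h' hd => by
    obtain ⟨φ, -, rfl, e⟩ := h.map h' hd
    have e1 : algebraMap L A ι0 = φ (algebraMap L B ι0) := by simpa using (e (C ι0)).symm
    rw [← e, hP, th_map hK E φ (h.cf h0) (e1 ▸ h'.cf h0), e1]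
  obtain ⟨A, _, _, _, _, _, _, ψ', h'⟩ := exists_ring dG
  refine ⟨A, _, _, ‹_›, ‹_›, _, ψ', h'.cf h0, ?_, ?_, h'.big _ ?_⟩
  · simpa using (h'.le _).trans_lt (cf0 h0).2
  swap
  · rw [natDegree_multiset_prod_X_sub_C_eq_card]
    omega
  rw [tr h' (dvd_pow_self _ (by omega)), h'.ker]
  by_cases P0 : P = 0
  · simp [P0]
  refine (Multiset.prod_X_sub_C_dvd_iff_le_roots P0 Z).2 (Multiset.le_iff_count.2 fun t => ?_)
  by_cases ht : t ∈ Z
  swap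
  · simp [Multiset.count_eq_zero.2 ht]
  rw [count_roots, le_rootMultiplicity_iff P0]
  obtain ⟨A', _, _, _, _, _, _, χ, a⟩ := exists_ring ((dl_lin (lZ t ht)).pow (Z.card + Z.card))
  have hc := Multiset.count_le_card t Z
  suffices aeval (χ 1 - 1) (X - C t) ^ Z.count t ∣ Th E (algebraMap L A' ι0) χ by
    obtain ⟨y, hy⟩ := this
    obtain ⟨q, rfl⟩ := a.surj y
    rw [tr a (pow_dvd_pow_of_dvd (Multiset.dvd_prod (Multiset.mem_map_of_mem _ ht)) _), ← map_pow,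
      ← map_mul, ← sub_eq_zero, ← map_sub, a.ker] at hy
    exact (dvd_sub_left (dvd_mul_right _ q)).1 ((pow_dvd_pow _ (by omega)).trans hy)
  have k := kZ t
  by_cases e0 : t = 0
  · refine loc hK hU hL h0 E (lZ t ht) (by omega) hc a (.inr ⟨e0, hZ, hE, ?_⟩)
    rw [k, if_neg (e0 ▸ n2.symm), if_neg (e0 ▸ n1.symm), if_pos e0]
  by_cases e1 : t = t1 ∨ t = t2
  · obtain ⟨-, ψ0, b1, b2, b3, b4, b5⟩ := hz t e1
    have k' : Z.count t = _ + 1 := k.trans (by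
      rcases e1 with e | e
      · rw [if_neg (e ▸ n3), if_neg e0, if_pos e]
      · rw [if_neg (e ▸ n3.symm : t ≠ t1), if_neg e0, if_pos e])
    rw [k', pow_succ']
    exact (mul_dvd_mul_left _ (loc hK hU hL h0 E' (lZ t ht) (by omega) (by omega) a
      (.inl le_rfl))).trans (loc2 hK h0 H a (by omega) b1 b2 b3 b4 b5)
  · refine loc hK hU hL h0 E (lZ t ht) (by omega) hc a (.inl ?_)
    rw [k, if_neg e0, if_neg fun e => e1 (.inl e), if_neg fun e => e1 (.inr e)]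
    exact le_rfl

theorem exists_field (M : Matrix (Fin σ) (Fin σ) O) :
    ∃ (L : Type) (_ : NormedField L) (_ : IsUltrametricDist L) (_ : NormedAlgebra ℚ_[2] L)
      (_ : FiniteDimensional ℚ_[2] L) (ι : L), ι * ι = -1 ∧ (M.map (jo ι)).charpoly.Splits ∧
      (M.map (jo (-ι))).charpoly.Splits := by
  classical
  obtain ⟨ι, hι⟩ := IsAlgClosed.exists_eq_mul_self (-1 : PadicAlgCl 2)
  let S : Finset (PadicAlgCl 2) :=
    (ι ::ₘ ((M.map (jo ι)).charpoly.roots + (M.map (jo (-ι))).charpoly.roots)).toFinset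
  let F := IntermediateField.adjoin ℚ_[2] (S : Set (PadicAlgCl 2))
  have m : ∀ x ∈ S, x ∈ F := fun x hx => IntermediateField.subset_adjoin _ _ hx
  have k : ∀ i : F, (∀ x ∈ (M.map (jo (i : PadicAlgCl 2))).charpoly.roots, x ∈ S) →
      (M.map (jo i)).charpoly.Splits := fun i hi => by
    have e : (M.map (jo i)).charpoly.map (F.val : F →+* PadicAlgCl 2) =
        (M.map (jo (i : PadicAlgCl 2))).charpoly := by
      rw [← Matrix.charpoly_map, Matrix.map_map]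
      exact congrArg (fun f => (M.map f).charpoly) (funext fun a => jo_map F.val a)
    refine Splits.of_splits_map (F.val : F →+* PadicAlgCl 2) (IsAlgClosed.splits _) fun a ha => ?_
    exact ⟨⟨a, m a (hi a (e ▸ ha))⟩, rfl⟩
  exact ⟨F, inferInstance, inferInstance, inferInstance,
    IntermediateField.finiteDimensional_adjoin fun x _ => Algebra.IsIntegral.isIntegral x,
    ⟨ι, m ι (by simp [S])⟩, Subtype.ext hι.symm, k _ fun x hx => by simp [S, hx],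
    k _ fun x hx => by
      simp only [S, Multiset.mem_toFinset, Multiset.mem_cons, Multiset.mem_add]
      exact .inr (.inr hx)⟩

end T

theorem t_TOP (hK : KAP) (hU : UB) : TOP := fun D E E' s s' p σ v h5 hm hv hσ H l hZ hE => by
  obtain ⟨n, M, e, hM, hL⟩ := K.a_LBK D v h5 hm hv
  obtain ⟨L, _, _, _, _, ι0, h0, s1, s2⟩ := T.exists_field M
  obtain ⟨A, _, _, _, _, ι, ψ, h, a, b, c⟩ := T.core hK hU hL h0 hM s1 s2 H hZ hE
  exact c (T.fin_contra hK E h a (R2.a_LG.1.five _ h5) hm l b (e ▸ hσ))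

end Pool.Agent.P.MP_8b7eba_nt.CG
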